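import Pool.Agent.P.MP_8be758_nt.Avg.Basic

/-! Farey decomposition, Ramanujan sums and facts about divisors. -/

namespace Pool.Agent.P.MP_8be758_nt.Avg

open Finset Real Filter Topology
open Pool.Agent.P.MP_e86632_nt (ee)
open ArithmeticFunction (moebius)

theorem far_one (F : ℝ → ℂ) (ν : ℕ) (hν : 0 < ν) :
    ∑ r ∈ range ν, F ((r : ℝ) / ν) = ∑ q ∈ ν.divisors, ∑ r ∈ red q, F ((r : ℝ) / q) := by
  rw [← sum_fiberwise_of_maps_to (s := range ν) (t := ν.divisors) (g := fun r => ν / Nat.gcd r ν)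
    fun r _ => Nat.mem_divisors.2 ⟨Nat.div_dvd_of_dvd (Nat.gcd_dvd_right r ν), hν.ne'⟩]
  refine sum_congr rfl fun q hq => ?_
  obtain ⟨d, rfl⟩ := Nat.dvd_of_mem_divisors hq
  have hq0 : 0 < q := Nat.pos_of_mul_pos_right hν
  have hd0 : 0 < d := Nat.pos_of_mul_pos_left hν
  symm
  refine sum_bij (fun r _ => r * d) (fun r hr => ?_) (fun r _ r' _ h => ?_) (fun r hr => ?_)
    fun r _ => ?_
  · obtain ⟨h1, h2⟩ := mem_filter.1 hr
    refine mem_filter.2 ⟨mem_range.2 (Nat.mul_lt_mul_of_pos_right (mem_range.1 h1) hd0), ?_⟩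
    rw [Nat.gcd_mul_right, h2.gcd_eq_one, one_mul, Nat.mul_div_cancel _ hd0]
  · exact Nat.eq_of_mul_eq_mul_right hd0 h
  · obtain ⟨h1, h2⟩ := mem_filter.1 hr
    have h3 : Nat.gcd r (q * d) = d := by
      have h4 := Nat.div_mul_cancel (Nat.gcd_dvd_right r (q * d))
      rw [h2] at h4
      exact Nat.eq_of_mul_eq_mul_left hq0 h4
    obtain ⟨s, rfl⟩ : d ∣ r := h3 ▸ Nat.gcd_dvd_left r (q * d)
    refine ⟨s, mem_filter.2 ⟨mem_range.2 ?_, ?_⟩, mul_comm s d⟩
    · have := mem_range.1 h1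
      rw [mul_comm d s] at this
      exact Nat.lt_of_mul_lt_mul_right this
    · rw [mul_comm d s, Nat.gcd_mul_right] at h3
      exact Nat.eq_of_mul_eq_mul_right hd0 (h3.trans (one_mul d).symm)
  · congr 1
    have : (d : ℝ) ≠ 0 := by positivity
    push_cast
    rw [mul_div_mul_right _ _ this]

theorem far_pow (n : ℕ) (t : ℝ) : ee (n * t) = ee t ^ n := by
  unfold ee
  rw [← Complex.exp_nat_mul]
  congr 1
  push_cast
  ring

theorem far_two (ν : ℕ) (h : ℤ) (hν : 0 < ν) :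
    ∑ r ∈ range ν, ee ((r : ℝ) / ν * h) = if (ν : ℤ) ∣ h then (ν : ℂ) else 0 := by
  have hq' : (ν : ℝ) ≠ 0 := by positivity
  have h1 : ∀ r : ℕ, ee ((r : ℝ) / ν * h) = ee (h / ν) ^ r := by
    intro r
    rw [← far_pow]
    congr 1
    ring
  simp only [h1]
  split_ifs with hd
  · obtain ⟨k, rfl⟩ := hd
    have : ee ((((ν : ℤ) * k : ℤ) : ℝ) / ν) = 1 := by
      rw [← MP_e86632_nt.ee_int k]
      congr 1
      push_cast
      field_simp
    rw [this]
    simp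
  · have h2 : ee (h / ν) ≠ 1 := by
      intro h3
      have h4 := MP_e86632_nt.four_nn_le ((h : ℝ) / ν)
      rw [h3, sub_self, norm_zero] at h4
      have h5 : |(h : ℝ) / ν - round ((h : ℝ) / ν)| ≤ 0 := by
        unfold MP_e86632_nt.nn at h4
        linarith
      have h6 := sub_eq_zero.1 (abs_nonpos_iff.1 h5)
      refine hd ⟨round ((h : ℝ) / ν), ?_⟩
      have : (h : ℝ) = ν * (round ((h : ℝ) / ν) : ℤ) := by
        rw [← h6]
        field_simp
      exact_mod_cast this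
    rw [geom_sum_eq h2, ← far_pow]
    have : (ν : ℝ) * (h / ν) = (h : ℤ) := by field_simp
    rw [this, MP_e86632_nt.ee_int]
    simp

theorem far_mu (q : ℕ) : ∑ d ∈ q.divisors, (moebius d : ℂ) = if q = 1 then 1 else 0 := by
  have h := congrArg (fun f : ArithmeticFunction ℤ => f q) ArithmeticFunction.moebius_mul_coe_zeta
  simp only [ArithmeticFunction.coe_mul_zeta_apply, ArithmeticFunction.one_apply] at h
  rw [← Int.cast_sum, h]
  split_ifs <;> simp

theorem far_three (q m : ℕ) (hq : 0 < q) (hm : m.Coprime q) :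
    ∑ r ∈ red q, ee ((r : ℝ) / q * m) = (moebius q : ℂ) := by
  induction q using Nat.strong_induction_on with
  | _ q ih =>
    have h1 := far_one (fun x => ee (x * m)) q hq
    have h2 := far_two q m hq
    rw [Int.cast_natCast] at h2
    have h3 : (if (q : ℤ) ∣ (m : ℤ) then (q : ℂ) else 0) = if q = 1 then 1 else 0 := by
      by_cases h : q = 1
      · simp [h]
      · rw [if_neg h, if_neg]
        intro hd
        exact h (Nat.eq_one_of_dvd_coprimes hm (Int.natCast_dvd_natCast.1 hd) dvd_rfl)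
    rw [h2, h3, ← far_mu, ← Nat.insert_self_properDivisors hq.ne',
      sum_insert Nat.self_notMem_properDivisors, sum_insert Nat.self_notMem_properDivisors] at h1
    have h4 : ∑ d ∈ q.properDivisors, ∑ r ∈ red d, ee ((r : ℝ) / d * m) =
        ∑ d ∈ q.properDivisors, (moebius d : ℂ) := by
      refine sum_congr rfl fun d hd => ?_
      obtain ⟨d1, d2⟩ := Nat.mem_properDivisors.1 hd
      exact ih d d2 (Nat.pos_of_dvd_of_pos d1 hq) (hm.coprime_dvd_right d1)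
    rw [h4] at h1
    exact (add_right_cancel h1).symm

theorem t_FAR : S_FAR := ⟨far_one, far_two, far_three⟩

theorem far_cover {z Y : ℝ} {S : Finset ℕ} (hz : 2 ≤ z)
    (hS : ∀ b ∈ S, (b : ℝ) ≤ Y ∧ Rough z b ∧ ¬ Squarefree b) (f : ℕ → ℝ) (hf : ∀ b, 0 ≤ f b)
    {E : ℝ} (hE : 0 ≤ E)
    (h : ∀ n : ℕ, 0 < n → ∑ c ∈ Ioc 0 (⌊Y⌋₊ / n ^ 2), f (n ^ 2 * c) ≤ E / (n : ℝ) ^ 2) :
    ∑ b ∈ S, f b ≤ 2 * E / z := by
  have h1 : S ⊆ (Ioc ⌊z⌋₊ (⌊z⌋₊ + ⌊Y⌋₊)).biUnion fun n =>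
      (Ioc 0 (⌊Y⌋₊ / n ^ 2)).image fun c => n ^ 2 * c := by
    intro b hb
    obtain ⟨b1, b2, b3⟩ := hS b hb
    have b0 := b2.pos hz
    have b4 : b ≤ ⌊Y⌋₊ := Nat.le_floor b1
    rw [Nat.squarefree_iff_prime_squarefree] at b3
    push Not at b3
    obtain ⟨p, hp, c, hc⟩ := b3
    have hpb : p ∣ b := ⟨p * c, by rw [hc, mul_assoc]⟩
    have p1 : ⌊z⌋₊ < p := (Nat.floor_lt (by linarith)).2 (b2 p hp hpb)
    have p2 := Nat.le_of_dvd b0 hpb
    refine mem_biUnion.2 ⟨p, mem_Ioc.2 ⟨p1, by omega⟩, mem_image.2 ⟨c, mem_Ioc.2 ⟨?_, ?_⟩, ?_⟩⟩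
    · rw [hc] at b0
      exact Nat.pos_of_mul_pos_left b0
    · rw [Nat.le_div_iff_mul_le (pow_pos hp.pos 2), mul_comm, sq, ← hc]
      exact b4
    · rw [hc, sq]
  have hz1 : 2 ≤ ⌊z⌋₊ := Nat.le_floor (by exact_mod_cast hz)
  have hz2 : z ≤ 2 * (⌊z⌋₊ : ℝ) := by
    have := Nat.lt_floor_add_one z
    have h2 : (2 : ℝ) ≤ ⌊z⌋₊ := by exact_mod_cast hz1
    linarith
  calc ∑ b ∈ S, f b ≤ ∑ b ∈ (Ioc ⌊z⌋₊ (⌊z⌋₊ + ⌊Y⌋₊)).biUnion fun n =>
        (Ioc 0 (⌊Y⌋₊ / n ^ 2)).image fun c => n ^ 2 * c, f b :=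
        sum_le_sum_of_subset_of_nonneg h1 fun b _ _ => hf b
    _ ≤ ∑ n ∈ Ioc ⌊z⌋₊ (⌊z⌋₊ + ⌊Y⌋₊),
        ∑ b ∈ (Ioc 0 (⌊Y⌋₊ / n ^ 2)).image fun c => n ^ 2 * c, f b := by
        generalize Ioc ⌊z⌋₊ (⌊z⌋₊ + ⌊Y⌋₊) = T
        induction T using Finset.induction_on with
        | empty => simp
        | insert a T ha ih =>
          rw [biUnion_insert, sum_insert ha]
          refine le_trans ?_ (add_le_add le_rfl ih)
          rw [← sum_union_inter]
          exact le_add_of_nonneg_right (sum_nonneg fun b _ => hf b)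
    _ ≤ ∑ n ∈ Ioc ⌊z⌋₊ (⌊z⌋₊ + ⌊Y⌋₊), E * ((n : ℝ) ^ 2)⁻¹ := by
        refine sum_le_sum fun n hn => ?_
        have hn0 : 0 < n := by
          have := (mem_Ioc.1 hn).1
          omega
        rw [sum_image fun c _ c' _ hc => Nat.eq_of_mul_eq_mul_left (pow_pos hn0 2) hc]
        exact h n hn0
    _ ≤ E * (⌊z⌋₊ : ℝ)⁻¹ := by
        rw [← mul_sum]
        refine mul_le_mul_of_nonneg_left ?_ hE
        refine (sum_Ioc_inv_sq_le_sub (by omega) (Nat.le_add_right _ _)).trans ?_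
        exact sub_le_self _ (by positivity)
    _ ≤ 2 * E / z := by
        have h2 : (0 : ℝ) < ⌊z⌋₊ := by linarith
        rw [← div_eq_mul_inv, div_le_div_iff₀ h2 (by linarith)]
        nlinarith

theorem t_NSQ : S_NSQ := by
  intro z Y S hz hY hS
  have hfl : (⌊Y⌋₊ : ℝ) ≤ Y := Nat.floor_le (by linarith)
  constructor
  · have := far_cover hz hS (fun _ => 1) (fun _ => zero_le_one) (E := Y) (by linarith)
      fun n hn => by
        rw [sum_const, Nat.card_Ioc, nsmul_eq_mul, mul_one, Nat.sub_zero]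
        refine Nat.cast_div_le.trans ?_
        push_cast
        gcongr
    simpa using this
  · have hlog := Real.log_nonneg hY
    refine far_cover hz hS (fun b => 1 / (b : ℝ)) (fun b => by positivity) (by linarith)
      fun n hn => ?_
    have h1 : ∑ c ∈ Ioc 0 (⌊Y⌋₊ / n ^ 2), 1 / ((n ^ 2 * c : ℕ) : ℝ) =
        (∑ c ∈ Ioc 0 (⌊Y⌋₊ / n ^ 2), 1 / (c : ℝ)) / (n : ℝ) ^ 2 := by
      rw [sum_div]
      refine sum_congr rfl fun c _ => ?_
      push_cast
      rw [div_div, mul_comm]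
    rw [h1]
    refine div_le_div_of_nonneg_right ?_ (by positivity)
    have h2 : ∑ c ∈ Ioc 0 (⌊Y⌋₊ / n ^ 2), 1 / (c : ℝ) ≤ ∑ c ∈ Ioc 0 ⌊Y⌋₊, 1 / (c : ℝ) :=
      sum_le_sum_of_subset_of_nonneg (Ioc_subset_Ioc_right (Nat.div_le_self _ _))
        fun _ _ _ => by positivity
    refine h2.trans ((MP_e86632_nt.sum_inv_le _).trans ?_)
    have h3 : (0 : ℝ) < ⌊Y⌋₊ := by exact_mod_cast Nat.floor_pos.2 hY
    linarith [Real.log_le_log h3 hfl]

theorem t_TAU : S_TAU := by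
  intro z s m hz hR hm
  rcases Nat.eq_zero_or_pos m with rfl | h0
  · simp
  have h1 : z ^ (∑ p ∈ m.primeFactors, m.factorization p) ≤ m := by
    rw [← prod_pow_eq_pow_sum]
    have h2 : ∏ p ∈ m.primeFactors, p ^ m.factorization p = m := by
      conv_rhs => rw [← Nat.prod_factorization_pow_eq_self h0.ne']
      rfl
    conv_rhs => rw [← h2]
    push_cast
    refine prod_le_prod (fun p _ => by positivity) fun p hp => ?_
    exact pow_le_pow_left₀ (by linarith) (hR p (Nat.prime_of_mem_primeFactors hp)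
      (Nat.dvd_of_mem_primeFactors hp)).le _
  have h3 := (pow_le_pow_iff_right₀ hz).1 (h1.trans hm)
  rw [Nat.card_divisors h0.ne']
  refine le_trans ?_ (Nat.pow_le_pow_right two_pos h3)
  rw [← prod_pow_eq_pow_sum]
  exact prod_le_prod' fun p _ => Nat.lt_two_pow_self

theorem far_succ_pow_le (B k : ℕ) (hB : 1 ≤ B) : (k + 1) ^ B ≤ B ^ B * 2 ^ k := by
  have h1 : k + 1 ≤ B * 2 ^ (k / B) := by
    have h2 : k / B + 1 ≤ 2 ^ (k / B) := Nat.lt_two_pow_self
    have h3 := Nat.lt_mul_div_succ k hB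
    calc k + 1 ≤ B * (k / B + 1) := h3
      _ ≤ _ := Nat.mul_le_mul_left _ h2
  calc (k + 1) ^ B ≤ (B * 2 ^ (k / B)) ^ B := Nat.pow_le_pow_left h1 _
    _ = B ^ B * 2 ^ (k / B * B) := by rw [mul_pow, ← pow_mul]
    _ ≤ _ := Nat.mul_le_mul_left _ (Nat.pow_le_pow_right two_pos (Nat.div_mul_le_self _ _))

theorem far_pow_le (B : ℕ) (hB : 1 ≤ B) :
    ∃ C : ℕ, ∀ n : ℕ, n ≠ 0 → n.divisors.card ^ B ≤ C * n := by
  refine ⟨(B ^ B) ^ (2 ^ B), fun n hn => ?_⟩
  have hBB : 1 ≤ B ^ B := Nat.one_le_pow _ _ hB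
  rw [Nat.card_divisors hn, ← Finset.prod_pow]
  have h1 : ∏ p ∈ n.primeFactors, (n.factorization p + 1) ^ B ≤
      ∏ p ∈ n.primeFactors, ((if p < 2 ^ B then B ^ B else 1) * p ^ n.factorization p) := by
    refine Finset.prod_le_prod' fun p hp => ?_
    have hp2 := (Nat.prime_of_mem_primeFactors hp).two_le
    split_ifs with h
    · exact (far_succ_pow_le B _ hB).trans (Nat.mul_le_mul_left _ (Nat.pow_le_pow_left hp2 _))
    · rw [one_mul]
      have h2 : n.factorization p + 1 ≤ 2 ^ n.factorization p := Nat.lt_two_pow_self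
      calc (n.factorization p + 1) ^ B ≤ (2 ^ n.factorization p) ^ B := Nat.pow_le_pow_left h2 _
        _ = (2 ^ B) ^ n.factorization p := by rw [← pow_mul, ← pow_mul, mul_comm]
        _ ≤ p ^ n.factorization p := Nat.pow_le_pow_left (by omega) _
  refine h1.trans ?_
  rw [Finset.prod_mul_distrib]
  have h2 : ∏ p ∈ n.primeFactors, p ^ n.factorization p = n := by
    conv_rhs => rw [← Nat.prod_factorization_pow_eq_self hn]
    rfl
  rw [h2]
  refine Nat.mul_le_mul_right _ ?_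
  rw [← Finset.prod_filter, Finset.prod_const]
  refine Nat.pow_le_pow_right hBB ?_
  calc (n.primeFactors.filter fun p => p < 2 ^ B).card ≤ (Finset.range (2 ^ B)).card :=
        Finset.card_le_card fun p hp => Finset.mem_range.2 (Finset.mem_filter.1 hp).2
    _ = 2 ^ B := Finset.card_range _

theorem t_DIV : S_DIV := by
  intro e he
  obtain ⟨B, hB⟩ := exists_nat_ge (1 / e)
  have hB0 : (0 : ℝ) < B := lt_of_lt_of_le (by positivity) hB
  have hB1 : 1 ≤ B := by exact_mod_cast hB0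
  obtain ⟨C, hC⟩ := far_pow_le B hB1
  refine ⟨C + 1, by positivity, fun m => ?_⟩
  rcases Nat.eq_zero_or_pos m with rfl | h0
  · simp only [Nat.divisors_zero, card_empty, Nat.cast_zero]
    positivity
  have hm : (1 : ℝ) ≤ m := by exact_mod_cast h0
  refine le_of_pow_le_pow_left₀ (by omega : B ≠ 0) (by positivity) ?_
  have h1 : ((m.divisors.card : ℝ)) ^ B ≤ C * m := by exact_mod_cast hC m h0.ne'
  refine h1.trans ?_
  rw [mul_pow, ← Real.rpow_natCast ((m : ℝ) ^ e), ← Real.rpow_mul (by positivity)]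
  refine mul_le_mul ?_ ?_ (by positivity) (by positivity)
  · have h2 : (1 : ℝ) ≤ C + 1 := by linarith [Nat.cast_nonneg (α := ℝ) C]
    exact le_trans (by linarith) (le_self_pow₀ h2 (by omega))
  · refine Real.self_le_rpow_of_one_le hm ?_
    rw [div_le_iff₀ he] at hB
    linarith

end Pool.Agent.P.MP_8be758_nt.Avg
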