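import Pool.Agent.P.MP_8be758_nt.Avg.Basic
import Pool.Agent.P.MP_e86632_nt.PNT

/-! The model evaluated on the von Mangoldt function. -/

namespace Pool.Agent.P.MP_8be758_nt.Avg

open Finset Real Filter Topology
open Pool.Agent.P.MP_e86632_nt (ee)
open ArithmeticFunction (vonMangoldt)
open ArithmeticFunction.vonMangoldt (residueClass)

theorem pntm_ap (W : ℕ) (hW : 0 < W) {η : ℝ} (hη : 0 < η) : ∀ᶠ n : ℕ in atTop, ∀ s ∈ red W,
    |∑ m ∈ range (n + 1), residueClass (s : ZMod W) m - n / (W.totient : ℝ)| ≤ η * n := by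
  have : NeZero W := ⟨hW.ne'⟩
  rw [eventually_all_finset]
  intro s hs
  have h := Pool.Agent.P.MP_e86632_nt.pnt_ap W (s : ZMod W)
    ((ZMod.isUnit_iff_coprime s W).2 (mem_filter.1 hs).2)
  filter_upwards [(Metric.tendsto_nhds.1 h) η hη, eventually_gt_atTop 0] with n h1 h2
  have h3 : (0 : ℝ) < n := by exact_mod_cast h2
  rw [Real.dist_eq] at h1
  have e : ∑ m ∈ range (n + 1), residueClass (s : ZMod W) m - n / (W.totient : ℝ) =
      ((∑ m ∈ range (n + 1), residueClass (s : ZMod W) m) / n - 1 / (W.totient : ℝ)) * n := by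
    field_simp
  rw [e, abs_mul, abs_of_pos h3]
  exact mul_le_mul_of_nonneg_right h1.le h3.le

theorem pntm_vr_mod (W k m : ℕ) : vr W k (m % W) = vr W k m := by
  unfold vr
  congr 1
  exact filter_congr fun n _ => by simp [Nat.ModEq]

theorem pntm_split (W k m : ℕ) (hW : 0 < W) :
    (if m.Coprime W then vonMangoldt m * (vr W k m : ℝ) else 0) =
      ∑ s ∈ red W, (vr W k s : ℝ) * residueClass (s : ZMod W) m := by
  have h1 : ∀ s ∈ red W, s ≠ m % W → (vr W k s : ℝ) * residueClass (s : ZMod W) m = 0 := by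
    intro s hs hne
    rw [residueClass, Set.indicator_of_notMem, mul_zero]
    intro h
    have h2 := (ZMod.natCast_eq_natCast_iff' m s W).1 h
    rw [Nat.mod_eq_of_lt (mem_range.1 (mem_filter.1 hs).1)] at h2
    exact hne h2.symm
  have h2 : (m % W).Coprime W ↔ m.Coprime W := by
    rw [Nat.Coprime, Nat.Coprime, ← Nat.gcd_rec, Nat.gcd_comm]
  split_ifs with h
  · rw [sum_eq_single_of_mem (s := red W) (m % W) (mem_filter.2 ⟨mem_range.2 (Nat.mod_lt m hW), h2.2 h⟩) h1,
      pntm_vr_mod, residueClass, Set.indicator_of_mem (by simp), mul_comm]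
  · exact (sum_eq_zero fun s hs => h1 s hs fun e => h (h2.1 (e ▸ (mem_filter.1 hs).2))).symm

theorem pntm_sum_vr (W k : ℕ) (hW : 0 < W) : ∑ s ∈ red W, vr W k s =
    ((range W).filter fun n => (n ^ 2 + n + k).Coprime W).card := by
  have h2 : ∀ m : ℕ, (m % W).Coprime W ↔ m.Coprime W := fun m => by
    rw [Nat.Coprime, Nat.Coprime, ← Nat.gcd_rec, Nat.gcd_comm]
  rw [card_eq_sum_card_fiberwise (f := fun n => (n ^ 2 + n + k) % W) (t := red W)
    fun n hn => mem_coe.2 (mem_filter.2 ⟨mem_range.2 (Nat.mod_lt _ hW),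
      (h2 _).2 (mem_filter.1 (mem_coe.1 hn)).2⟩)]
  refine sum_congr rfl fun s hs => ?_
  obtain ⟨h3, h4⟩ := mem_filter.1 hs
  rw [vr, filter_filter]
  congr 1
  refine filter_congr fun n _ => ?_
  rw [Nat.ModEq, Nat.mod_eq_of_lt (mem_range.1 h3)]
  exact ⟨fun h => ⟨(h2 _).1 (h ▸ h4), h⟩, fun h => h.2⟩

theorem pntm_Ioc (f : ℕ → ℝ) {a b : ℕ} (h : a ≤ b) :
    ∑ m ∈ Ioc a b, f m = ∑ m ∈ range (b + 1), f m - ∑ m ∈ range (a + 1), f m := by
  induction b, h using Nat.le_induction with
  | base => simp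
  | succ b hb ih => rw [sum_Ioc_succ_top hb, ih, sum_range_succ _ (b + 1)]; ring

theorem t_PNTM (hPS : S_PS) (hSGW : S_SGW) : S_PNTM := by
  intro R ε hε
  set W := R.factorial with hWd
  have hW : 0 < W := R.factorial_pos
  have hW' : (0 : ℝ) < W := by exact_mod_cast hW
  have hφ : (1 : ℝ) ≤ W.totient := by exact_mod_cast Nat.totient_pos.2 hW
  obtain ⟨n0, hn0⟩ := eventually_atTop.1 (pntm_ap W hW (η := ε / (4 * W)) (by positivity))
  filter_upwards [eventually_ge_atTop (2 : ℝ), eventually_ge_atTop (n0 : ℝ),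
    eventually_ge_atTop (R : ℝ), eventually_ge_atTop (18 * W / ε),
    ev_pow (18 * W / ε) 1 (zero_lt_one' ℝ)] with N hN hNn hNR hN1 hN2 z k X1 X2 hz h1 h12 h2
  rw [Real.rpow_zero, Real.rpow_one, mul_one, pow_one, div_mul_eq_mul_div, div_le_iff₀ hε] at hN2
  rw [div_le_iff₀ hε] at hN1
  have hN0 : 0 < N := by linarith
  have hNX : N < X1 := by nlinarith
  have hsum : ∑ s ∈ red W, (vr W k s : ℝ) = sing R k * W.totient := by
    rw [← hSGW.1 k R, ← pntm_sum_vr W k hW, Nat.cast_sum]
  have hsW : ∑ s ∈ red W, (vr W k s : ℝ) ≤ W := by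
    rw [← Nat.cast_sum, pntm_sum_vr W k hW]
    exact_mod_cast (card_filter_le _ _).trans (card_range W).le
  have hc0 := hSGW.2.1 k R
  have hcW : sing R k ≤ W := by nlinarith
  have hg : ∀ m : ℕ, X1 < m → 1 / (2 * √(m : ℝ)) ≤ 1 / (2 * N) := fun m hm => by
    have h3 : (X1 : ℝ) ≤ m := by exact_mod_cast hm.le
    have h4 : N ≤ √(m : ℝ) := Real.le_sqrt_of_sq_le (h1.trans h3)
    gcongr
  -- main term
  have hA := Pool.Agent.P.MP_e86632_nt.abel_anti
    (fun m => (if m.Coprime W then vonMangoldt m * (vr W k m : ℝ) else 0) - sing R k)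
    (fun m => 1 / (2 * √(m : ℝ))) X1 X2 (3 / 5 * ε * N ^ 2) (by positivity) (fun n hn => by
      rcases le_or_gt n X1 with h | h
      · rw [Ioc_eq_empty (not_lt.2 h), sum_empty, abs_zero]
        positivity
      have e : ∑ m ∈ Ioc X1 n,
          ((if m.Coprime W then vonMangoldt m * (vr W k m : ℝ) else 0) - sing R k) =
          ∑ s ∈ red W, (vr W k s : ℝ) *
            ((∑ m ∈ range (n + 1), residueClass (s : ZMod W) m - n / (W.totient : ℝ)) -
            (∑ m ∈ range (X1 + 1), residueClass (s : ZMod W) m - X1 / (W.totient : ℝ))) := by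
        simp only [pntm_split W k _ hW]
        rw [sum_sub_distrib, sum_comm, sum_const, Nat.card_Ioc, nsmul_eq_mul, Nat.cast_sub h.le,
          show sing R k = (∑ s ∈ red W, (vr W k s : ℝ)) / W.totient by
            rw [hsum]; field_simp, sum_div, mul_sum, ← sum_sub_distrib]
        refine sum_congr rfl fun s _ => ?_
        rw [← mul_sum, pntm_Ioc _ h.le]
        ring
      have hX1 : n0 ≤ X1 := by exact_mod_cast hNn.trans hNX.le
      have hn2 : (n : ℝ) ≤ 6 / 5 * N ^ 2 := le_trans (by exact_mod_cast hn) h2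
      have hx2 : (X1 : ℝ) ≤ 6 / 5 * N ^ 2 := le_trans (by exact_mod_cast h12) h2
      rw [e]
      calc _ ≤ ∑ s ∈ red W, (vr W k s : ℝ) * (ε / (4 * W) * (12 / 5 * N ^ 2)) := by
            refine (abs_sum_le_sum_abs _ _).trans (sum_le_sum fun s hs => ?_)
            rw [abs_mul, Nat.abs_cast]
            refine mul_le_mul_of_nonneg_left ((abs_sub _ _).trans ?_) (Nat.cast_nonneg _)
            have a1 := hn0 n (by omega) s hs
            have a2 := hn0 X1 hX1 s hs
            have a3 : 0 < ε / (4 * W) := by positivity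
            nlinarith
        _ ≤ W * (ε / (4 * W) * (12 / 5 * N ^ 2)) := by
            rw [← sum_mul]
            exact mul_le_mul_of_nonneg_right hsW (by positivity)
        _ = _ := by field_simp; ring)
    (fun _ => by positivity) fun i hi => by
      have h3 : (0 : ℝ) < i := by exact_mod_cast (Nat.zero_le X1).trans_lt hi
      push_cast
      gcongr
      linarith
  have hA' : 3 / 5 * ε * N ^ 2 * (1 / (2 * √((X1 + 1 : ℕ) : ℝ))) ≤ 3 / 10 * ε * N :=
    (mul_le_mul_of_nonneg_left (hg _ (Nat.lt_succ_self X1)) (by positivity)).trans_eq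
      (by field_simp; ring)
  have hB := hPS.2.1 (fun _ => 1) 1 X1 X2 one_pos h12 fun _ => rfl
  simp only [range_one, sum_singleton, abs_one, mul_one, Nat.cast_one, div_one] at hB
  -- prime powers
  have hC : |∑ m ∈ (Ioc X1 X2).filter (Rough z), vonMangoldt m * md W k m -
      ∑ m ∈ Ioc X1 X2, (if m.Coprime W then vonMangoldt m * (vr W k m : ℝ) else 0) *
        (1 / (2 * √(m : ℝ)))| ≤ 6 * W * Real.log N := by
    have hX2 : N ≤ X2 := hNX.le.trans (by exact_mod_cast h12)
    have a1 := Chebyshev.psi_sub_theta_le (x := X2) (by linarith)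
    rw [Chebyshev.psi_sub_theta_eq_sum_not_prime, Nat.floor_natCast] at a1
    have a2 : √(X2 : ℝ) ≤ 2 * N := Real.sqrt_le_iff.2 ⟨by positivity, by nlinarith⟩
    have a3 : Real.log X2 ≤ 3 * Real.log N := by
      have := Real.log_le_log (by linarith) (show (X2 : ℝ) ≤ N ^ 3 by nlinarith)
      rwa [Real.log_pow, Nat.cast_ofNat] at this
    have a4 : 0 ≤ Real.log (X2 : ℝ) := Real.log_natCast_nonneg X2
    rw [sum_filter, ← sum_sub_distrib]
    calc _ ≤ ∑ m ∈ Ioc X1 X2, if ¬m.Prime then vonMangoldt m * (W / (2 * N)) else 0 := by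
          refine (abs_sum_le_sum_abs _ _).trans (sum_le_sum fun m hm => ?_)
          have hm1 := (mem_Ioc.1 hm).1
          have hm2 : N < m := hNX.trans (by exact_mod_cast hm1)
          have e : vonMangoldt m * (vr W k m : ℝ) * (1 / (2 * √(m : ℝ))) =
              vonMangoldt m * md W k m := by rw [md]; ring
          rw [ite_mul, zero_mul, e]
          by_cases hp : m.Prime
          · have b1 : Rough N m := (rough_prime hp).2 hm2
            rw [if_pos (b1.mono hz), if_pos (b1.coprime_factorial hNR), if_neg (not_not.2 hp),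
              sub_self, abs_zero]
          · have b1 : 0 ≤ vonMangoldt m * md W k m :=
              mul_nonneg ArithmeticFunction.vonMangoldt_nonneg (md_nonneg W k m)
            have b2 : vonMangoldt m * md W k m ≤ vonMangoldt m * (W / (2 * N)) := by
              refine mul_le_mul_of_nonneg_left ?_ ArithmeticFunction.vonMangoldt_nonneg
              rw [md, div_eq_mul_one_div, div_eq_mul_one_div (W : ℝ)]
              exact mul_le_mul (by exact_mod_cast vr_le W k m) (hg m hm1) (by positivity) hW'.le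
            rw [if_pos hp, abs_le]
            split_ifs <;> constructor <;> linarith
      _ = (∑ m ∈ (Ioc X1 X2).filter (fun m => ¬m.Prime), vonMangoldt m) * (W / (2 * N)) := by
          rw [← sum_filter, sum_mul]
      _ ≤ (2 * (2 * N) * (3 * Real.log N)) * (W / (2 * N)) := by
          refine mul_le_mul_of_nonneg_right (le_trans (le_trans ?_ a1) ?_) (by positivity)
          · exact sum_le_sum_of_subset_of_nonneg
              (filter_subset_filter _ (Ioc_subset_Ioc_left (Nat.zero_le _)))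
              fun _ _ _ => ArithmeticFunction.vonMangoldt_nonneg
          · exact mul_le_mul (by linarith) a3 a4 (by positivity)
      _ = _ := by field_simp; ring
  simp only [sub_mul, sum_sub_distrib, ← mul_sum] at hA
  have hB' : |sing R k * ∑ t ∈ Ioc X1 X2, 1 / (2 * √(t : ℝ)) -
      (√(X2 : ℝ) - √(X1 : ℝ)) * sing R k| ≤ W * 6 := by
    rw [mul_comm _ (sing R k), ← mul_sub, abs_mul, abs_of_nonneg hc0]
    exact mul_le_mul hcW hB (abs_nonneg _) hW'.le
  have t1 := abs_le.1 (hA.trans hA')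
  have t2 := abs_le.1 hB'
  have t3 := abs_le.1 hC
  have : 0 < ε * N := by positivity
  rw [abs_le]
  constructor <;> linarith [t1.1, t1.2, t2.1, t2.2, t3.1, t3.2]

end Pool.Agent.P.MP_8be758_nt.Avg
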