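import Pool.Agent.P.MP_8be758_nt.Avg.Basic
import Pool.Agent.P.MP_6f5b02_nt.Sieve

/-! The fundamental lemma with weights of Brun-Hooley type. -/

namespace Pool.Agent.P.MP_8be758_nt.Avg

open Finset Real Filter Topology
open Pool.Agent.P.MP_e86632_nt (ee)
open Pool.Agent.P.MP_6f5b02_nt (es es_le exp_le_one_sub PP mem_PP PP_sub block_sum)

/-- multilinear polynomials in the values at `P`, with a bound for their norm -/
inductive fl_R (P : Finset ℕ) : ((ℕ → ℝ) → ℝ) → ℝ → Prop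
  | base (c : ℝ) (E : Finset ℕ) (h : E ⊆ P) :
      fl_R P (fun g => c * ∏ p ∈ E, g p) (|c| * ∏ p ∈ E, (p : ℝ))
  | zero : fl_R P (fun _ => 0) 0
  | add {F G : (ℕ → ℝ) → ℝ} {L M : ℝ} :
      fl_R P F L → fl_R P G M → fl_R P (fun g => F g + G g) (L + M)
  | mono {F : (ℕ → ℝ) → ℝ} {L M : ℝ} : fl_R P F L → L ≤ M → fl_R P F M

section

variable {P Q : Finset ℕ} {F G : (ℕ → ℝ) → ℝ} {L M : ℝ}

theorem fl_R.congr (h : fl_R P F L) (e : ∀ g, F g = G g) : fl_R P G L :=
  (funext e : F = G) ▸ h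

theorem fl_R.nonneg (h : fl_R P F L) : 0 ≤ L := by
  induction h with
  | base c E h => positivity
  | zero => exact le_rfl
  | add _ _ h1 h2 => linarith
  | mono _ h1 h2 => linarith

theorem fl_R.mul (h : fl_R P F L) (h' : fl_R Q G M) (hd : Disjoint P Q) :
    fl_R (P ∪ Q) (fun g => F g * G g) (L * M) := by
  induction h with
  | base c E hE =>
    induction h' with
    | base c' E' hE' =>
      have hd' : Disjoint E E' := hd.mono hE hE'
      refine ((fl_R.base (c * c') (E ∪ E') (union_subset_union hE hE')).congr fun g => ?_).mono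
        (le_of_eq ?_)
      · rw [prod_union hd']; ring
      · rw [prod_union hd', abs_mul]; ring
    | zero => simpa using fl_R.zero
    | add _ _ h1 h2 => simpa only [mul_add] using h1.add h2
    | mono _ h1 h2 => exact h2.mono (mul_le_mul_of_nonneg_left h1 (by positivity))
  | zero => simpa using fl_R.zero
  | add _ _ h1 h2 => simpa only [add_mul] using h1.add h2
  | mono _ h1 h2 => exact h2.mono (mul_le_mul_of_nonneg_right h1 h'.nonneg)

theorem fl_R.sign (h : fl_R P F L) (m : ℕ) : fl_R P (fun g => (-1) ^ m * F g) L := by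
  have := (fl_R.base (P := ∅) ((-1) ^ m) ∅ Subset.rfl).mul h (disjoint_empty_left _)
  simpa using this

theorem fl_sum {ι : Type} (s : Finset ι) {F : ι → (ℕ → ℝ) → ℝ} {L : ι → ℝ}
    (h : ∀ i ∈ s, fl_R P (F i) (L i)) : fl_R P (fun g => ∑ i ∈ s, F i g) (∑ i ∈ s, L i) := by
  classical
  induction s using Finset.induction_on with
  | empty => simpa using fl_R.zero
  | insert i s hi ih =>
    simp only [sum_insert hi]
    exact (h i (mem_insert_self _ _)).add (ih fun j hj => h j (mem_insert_of_mem hj))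

theorem fl_R.out (h : fl_R P F L) : ∃ c : Finset ℕ → ℝ,
    (∀ g, F g = ∑ E ∈ P.powerset, c E * ∏ p ∈ E, g p) ∧
      ∑ E ∈ P.powerset, |c E| * ∏ p ∈ E, (p : ℝ) ≤ L := by
  induction h with
  | base c E hE =>
    refine ⟨fun E' => if E' = E then c else 0, fun g => ?_, le_of_eq ?_⟩
    · rw [sum_eq_single_of_mem E (mem_powerset.2 hE) fun b _ hb => by simp [hb]]
      simp
    · rw [sum_eq_single_of_mem E (mem_powerset.2 hE) fun b _ hb => by simp [hb]]
      simp
  | zero => exact ⟨fun _ => 0, by simp, by simp⟩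
  | add _ _ h1 h2 =>
    obtain ⟨c, e, b⟩ := h1
    obtain ⟨c', e', b'⟩ := h2
    refine ⟨fun E => c E + c' E, fun g => ?_, le_trans ?_ (add_le_add b b')⟩
    · simp only [e g, e' g, add_mul, sum_add_distrib]
    · rw [← sum_add_distrib]
      refine sum_le_sum fun E _ => ?_
      rw [← add_mul]
      exact mul_le_mul_of_nonneg_right (abs_add_le _ _) (by positivity)
  | mono _ h1 h2 =>
    obtain ⟨c, e, b⟩ := h2
    exact ⟨c, e, b.trans h1⟩

end

theorem fl_es_zero (P : Finset ℕ) (g : ℕ → ℝ) : es P 0 g = 1 := by simp [es]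

theorem fl_es_insert {P : Finset ℕ} {p : ℕ} (hp : p ∉ P) (m : ℕ) (g : ℕ → ℝ) :
    es (insert p P) (m + 1) g = es P (m + 1) g + g p * es P m g := by
  have h1 : ∀ E ∈ powersetCard m P, p ∉ E := fun E hE h => hp ((mem_powersetCard.1 hE).1 h)
  unfold es
  rw [powersetCard_succ_insert hp, sum_union, sum_image, mul_sum]
  · exact congrArg _ (sum_congr rfl fun E hE => prod_insert (h1 E hE))
  · intro E hE E' hE' e
    rw [← erase_insert (h1 E hE), ← erase_insert (h1 E' hE')]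
    exact congrArg (·.erase p) e
  · refine disjoint_left.2 fun E hE hE' => ?_
    obtain ⟨E', -, rfl⟩ := mem_image.1 hE'
    exact hp ((mem_powersetCard.1 hE).1 (mem_insert_self _ _))

/-- Bonferroni inequalities -/
theorem fl_bonf (g : ℕ → ℝ) (P : Finset ℕ) (hg : ∀ p ∈ P, 0 ≤ g p ∧ g p ≤ 1) (k : ℕ) :
    0 ≤ (-1) ^ k * (∏ p ∈ P, (1 - g p) - ∑ j ∈ range k, (-1) ^ j * es P j g) := by
  rcases k with _ | k
  · simpa using prod_nonneg fun p hp => sub_nonneg.2 (hg p hp).2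
  induction P using Finset.induction_on generalizing k with
  | empty =>
    rw [sum_range_succ', fl_es_zero, sum_eq_zero fun j _ => by
      rw [es, powersetCard_eq_empty.2 (by simp), sum_empty, mul_zero]]
    simp
  | insert p P hp ih =>
    have hg' : ∀ q ∈ P, 0 ≤ g q ∧ g q ≤ 1 := fun q hq => hg q (mem_insert_of_mem hq)
    have h1 := ih hg' k
    have h2 : 0 ≤ (-1) ^ k * (∏ p ∈ P, (1 - g p) - ∑ j ∈ range k, (-1) ^ j * es P j g) := by
      rcases k with _ | k
      · simpa using prod_nonneg fun p hp => sub_nonneg.2 (hg' p hp).2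
      · exact ih hg' k
    have e : ∑ j ∈ range (k + 1), (-1) ^ j * es (insert p P) j g =
        ∑ j ∈ range (k + 1), (-1) ^ j * es P j g - g p * ∑ j ∈ range k, (-1) ^ j * es P j g := by
      rw [sum_range_succ', sum_range_succ', fl_es_zero, fl_es_zero, mul_sum, add_sub_right_comm,
        ← sum_sub_distrib]
      congr 1
      exact sum_congr rfl fun j _ => by rw [fl_es_insert hp]; ring
    rw [prod_insert hp, e]
    have h3 := add_nonneg h1 (mul_nonneg (hg p (mem_insert_self _ _)).1 h2)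
    exact h3.trans_eq (by ring)

theorem fl_rep_es {P : Finset ℕ} {z : ℕ} (hz : ∀ p ∈ P, p ≤ z) (hc : P.card ≤ z) (m : ℕ) :
    fl_R P (fun g => es P m g) ((z : ℝ) ^ (2 * m)) := by
  have h1 : ∀ E ∈ powersetCard m P, fl_R P (fun g => ∏ p ∈ E, g p) ((z : ℝ) ^ m) := by
    intro E hE
    obtain ⟨hEP, hEc⟩ := mem_powersetCard.1 hE
    refine ((fl_R.base 1 E hEP).congr fun g => one_mul _).mono ?_
    have := prod_le_pow_card E (fun q => q) z fun q hq => hz q (hEP hq)
    rw [hEc] at this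
    rw [abs_one, one_mul, ← Nat.cast_prod]
    exact_mod_cast this
  refine (fl_sum _ h1).mono ?_
  rw [sum_const, card_powersetCard, nsmul_eq_mul, two_mul, pow_add]
  refine mul_le_mul_of_nonneg_right ?_ (by positivity)
  exact_mod_cast (Nat.choose_le_pow _ _).trans (Nat.pow_le_pow_left hc m)

/-- sieve data on the set `P` -/
def fl_D (P : Finset ℕ) (R a : ℝ) : Prop :=
  ∃ (X D : (ℕ → ℝ) → ℝ) (L M : ℝ), fl_R P X L ∧ fl_R P D M ∧ L + M ≤ R ∧
    (∀ g : ℕ → ℝ, (∀ p ∈ P, 0 ≤ g p ∧ g p ≤ 1) →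
      ∏ p ∈ P, (1 - g p) ≤ X g ∧ X g ≤ ∏ p ∈ P, (1 - g p) + D g) ∧
    D (fun p => 1 / (p : ℝ)) ≤ a * ∏ p ∈ P, (1 - 1 / (p : ℝ))

theorem fl_inv (p : ℕ) : 0 ≤ 1 / (p : ℝ) ∧ 1 / (p : ℝ) ≤ 1 := by
  refine ⟨by positivity, ?_⟩
  rw [one_div]
  exact Nat.cast_inv_le_one p

theorem fl_D.mono {P : Finset ℕ} {R a R' a' : ℝ} (h : fl_D P R a) (hR : R ≤ R') (ha : a ≤ a') :
    fl_D P R' a' := by
  obtain ⟨X, D, L, M, h1, h2, h3, h4, h5⟩ := h
  exact ⟨X, D, L, M, h1, h2, h3.trans hR, h4, h5.trans (mul_le_mul_of_nonneg_right ha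
    (prod_nonneg fun p _ => sub_nonneg.2 (fl_inv p).2))⟩

theorem fl_D.mul {P Q : Finset ℕ} {R a R' b : ℝ} (h : fl_D P R a) (h' : fl_D Q R' b)
    (hd : Disjoint P Q) (ha : 0 ≤ a) : fl_D (P ∪ Q) (R * R') (a + 2 * a * b + b) := by
  obtain ⟨X, D, L, M, h1, h2, h3, h4, h5⟩ := h
  obtain ⟨x, d, l, m, k1, k2, k3, k4, k5⟩ := h'
  have n1 := h1.nonneg
  have n2 := h2.nonneg
  have n3 := k1.nonneg
  have n4 := k2.nonneg
  refine ⟨_, _, _, _, h1.mul k1 hd, (h2.mul k1 hd).add (h1.mul k2 hd), ?_, fun g hg => ?_, ?_⟩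
  · refine le_trans ?_ (mul_le_mul h3 k3 (by linarith) (by linarith))
    nlinarith [mul_nonneg n2 n4]
  · obtain ⟨a1, a2⟩ := h4 g fun p hp => hg p (mem_union_left _ hp)
    obtain ⟨b1, b2⟩ := k4 g fun p hp => hg p (mem_union_right _ hp)
    have c1 : 0 ≤ ∏ p ∈ P, (1 - g p) :=
      prod_nonneg fun p hp => sub_nonneg.2 (hg p (mem_union_left _ hp)).2
    have c2 : 0 ≤ ∏ p ∈ Q, (1 - g p) :=
      prod_nonneg fun p hp => sub_nonneg.2 (hg p (mem_union_right _ hp)).2
    rw [prod_union hd]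
    refine ⟨mul_le_mul a1 b1 c2 (c1.trans a1), ?_⟩
    nlinarith [mul_le_mul_of_nonneg_right a2 (c2.trans b1), mul_le_mul_of_nonneg_left b2 c1,
      mul_le_mul_of_nonneg_right a1 (show 0 ≤ d g by linarith)]
  · obtain ⟨a1, a2⟩ := h4 _ fun p _ => fl_inv p
    obtain ⟨b1, b2⟩ := k4 _ fun p _ => fl_inv p
    have c1 : 0 ≤ ∏ p ∈ P, (1 - 1 / (p : ℝ)) := prod_nonneg fun p _ => sub_nonneg.2 (fl_inv p).2
    have c2 : 0 ≤ ∏ p ∈ Q, (1 - 1 / (p : ℝ)) := prod_nonneg fun p _ => sub_nonneg.2 (fl_inv p).2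
    rw [prod_union hd]
    have e1 := mul_le_mul h5 (b2.trans (add_le_add_right k5 _)) (c2.trans b1) (mul_nonneg ha c1)
    have e2 := mul_le_mul (a2.trans (add_le_add_right h5 _)) k5 (by linarith)
      (add_nonneg c1 (mul_nonneg ha c1))
    exact (add_le_add e1 e2).trans_eq (by ring)

theorem fl_block {P : Finset ℕ} (hP : ∀ p ∈ P, 2 ≤ p) {z : ℕ} (hz2 : 2 ≤ z)
    (hz : ∀ p ∈ P, p ≤ z) (hc : P.card ≤ z) (hL : ∑ p ∈ P, (1 : ℝ) / p ≤ 11) (d : ℕ) :
    fl_D P ((z : ℝ) ^ (6 * d + 210)) ((1 / 2) ^ (4 * d + 6)) := by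
  refine ⟨_, _, _, _, fl_sum (range (2 * (d + 34) + 1)) fun m _ => (fl_rep_es hz hc m).sign m,
    fl_rep_es hz hc (2 * (d + 34) + 1), ?_, fun g hg => ?_, ?_⟩
  · rw [← sum_range_succ (fun m => (z : ℝ) ^ (2 * m))]
    have hz1 : (1 : ℝ) ≤ z := by exact_mod_cast (by omega : 1 ≤ z)
    have h1 : ∑ m ∈ range (2 * (d + 34) + 1 + 1), (z : ℝ) ^ (2 * m) ≤
        ∑ _m ∈ range (2 * (d + 34) + 1 + 1), (z : ℝ) ^ (4 * d + 140) :=
      sum_le_sum fun m hm => pow_le_pow_right₀ hz1 (by have := mem_range.1 hm; omega)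
    refine h1.trans ?_
    rw [sum_const, card_range, nsmul_eq_mul,
      show 6 * d + 210 = (2 * (d + 34) + 1 + 1) + (4 * d + 140) by ring,
      pow_add (z : ℝ) (2 * (d + 34) + 1 + 1)]
    refine mul_le_mul_of_nonneg_right ?_ (pow_nonneg (by linarith) _)
    exact_mod_cast (Nat.lt_pow_self (by omega)).le
  · have h1 := fl_bonf g P hg (2 * (d + 34) + 1)
    have h2 := fl_bonf g P hg (2 * (d + 34) + 1 + 1)
    have e : (-1 : ℝ) ^ (2 * (d + 34) + 1) = -1 := by rw [pow_succ, pow_mul]; simp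
    rw [sum_range_succ, pow_succ, e] at h2
    rw [e] at h1
    constructor <;> linarith
  · have h1 := es_le (P := P) (g := fun p => 1 / (p : ℝ)) (fun p _ => (fl_inv p).1)
      (2 * (d + 34) + 1)
    have h2 : Real.exp (-22) ≤ ∏ p ∈ P, (1 - 1 / (p : ℝ)) := by
      calc Real.exp (-22) ≤ Real.exp (∑ p ∈ P, -(2 * (1 / (p : ℝ)))) := by
            rw [Real.exp_le_exp, sum_neg_distrib, ← mul_sum]; linarith
        _ = ∏ p ∈ P, Real.exp (-(2 * (1 / (p : ℝ)))) := Real.exp_sum _ _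
        _ ≤ _ := prod_le_prod (fun p _ => (Real.exp_pos _).le) fun p hp =>
            exp_le_one_sub (fl_inv p).1
              (one_div_le_one_div_of_le (by norm_num) (by exact_mod_cast hP p hp))
    have h5 : Real.exp 44 ≤ 16 ^ 33 * Real.exp (-22) := by
      rw [Real.exp_neg, le_mul_inv_iff₀ (Real.exp_pos _), ← Real.exp_add,
        show (44 : ℝ) + 22 = ((33 : ℕ) : ℝ) * 2 by norm_num, Real.exp_nat_mul]
      refine pow_le_pow_left₀ (Real.exp_pos _).le ?_ _
      have := Real.exp_one_lt_d9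
      have e2 : Real.exp 2 = Real.exp 1 * Real.exp 1 := by rw [← Real.exp_add]; norm_num
      nlinarith [Real.exp_pos 1]
    have h6 := ((h1.trans (Real.exp_le_exp.2 (show _ ≤ (44 : ℝ) by linarith))).trans h5).trans
      (mul_le_mul_of_nonneg_left h2 (by positivity))
    have e3 : (4 : ℝ) ^ (2 * (d + 34) + 1) = 16 ^ 33 * 2 ^ (4 * d + 6) := by
      rw [show (16 : ℝ) = 2 ^ 4 by norm_num, show (4 : ℝ) = 2 ^ 2 by norm_num, ← pow_mul,
        ← pow_mul, ← pow_add]
      congr 1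
      ring
    rw [e3, mul_assoc, mul_le_mul_iff_right₀ (by positivity)] at h6
    rwa [one_div, inv_pow, ← div_eq_inv_mul, le_div_iff₀' (by positivity)]

theorem fl_ind {Q : Finset ℕ} (h2 : 2 ∈ Q) (j : ℕ) :
    ∀ d : ℕ, fl_D (PP j ∩ Q) (2 ^ (2 ^ j * (432 + 12 * d))) ((1 / 2) ^ (d + 1)) := by
  induction j with
  | zero =>
    intro d
    have e : PP 0 ∩ Q = {2} := by
      rw [show PP 0 = {2} by decide]
      exact singleton_inter_of_mem h2
    rw [e]
    refine ⟨_, _, _, _, (fl_R.base 1 ∅ (empty_subset _)).add (fl_R.base (-1) {2} Subset.rfl),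
      fl_R.zero, ?_, fun g _ => ?_, ?_⟩
    · refine le_trans ?_ (pow_le_pow_right₀ (by norm_num) (show 2 ≤ _ by omega))
      norm_num
    · simp [sub_eq_add_neg]
    · norm_num
  | succ j ih =>
    intro d
    have hP : ∀ p ∈ (PP (j + 1) \ PP j) ∩ Q, p ≤ 2 ^ 2 ^ (j + 1) ∧ p.Prime := fun p hp =>
      mem_PP.1 (mem_sdiff.1 (mem_inter.1 hp).1).1
    have hb := fl_block (fun p hp => (hP p hp).2.two_le) (z := 2 ^ 2 ^ (j + 1))
      (le_self_pow₀ (by norm_num) (by positivity)) (fun p hp => (hP p hp).1)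
      ((card_le_card (t := Ioc 0 (2 ^ 2 ^ (j + 1))) fun p hp =>
        mem_Ioc.2 ⟨(hP p hp).2.pos, (hP p hp).1⟩).trans (by simp))
      ((sum_le_sum_of_subset_of_nonneg inter_subset_left fun p _ _ => (fl_inv p).1).trans
        (block_sum j)) d
    have h := (ih (d + 1)).mul hb (disjoint_sdiff.mono inter_subset_left inter_subset_left)
      (by positivity)
    rw [← union_inter_distrib_right, union_sdiff_of_subset (PP_sub j)] at h
    refine h.mono ?_ ?_
    · push_cast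
      rw [← pow_mul, ← pow_add]
      exact pow_le_pow_right₀ (by norm_num) (le_of_eq (by ring))
    · have a1 : ((1 : ℝ) / 2) ^ (d + 1 + 1) ≤ 1 := pow_le_one₀ (by norm_num) (by norm_num)
      have a2 : ((1 : ℝ) / 2) ^ (4 * d + 6) ≤ (1 / 2) ^ (d + 4) :=
        pow_le_pow_of_le_one (by norm_num) (by norm_num) (by omega)
      have a3 : (0 : ℝ) ≤ (1 / 2) ^ (4 * d + 6) := by positivity
      have a4 : (0 : ℝ) ≤ (1 / 2) ^ d := by positivity
      have a5 := mul_le_mul_of_nonneg_right a1 a3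
      rw [pow_add _ d 4] at a2
      rw [pow_succ _ (d + 1), pow_succ _ d] at *
      linarith

theorem t_FL : S_FL := by
  refine ⟨888, fun s hs z hz => ?_⟩
  have hex : ∃ J : ℕ, z ≤ 2 ^ 2 ^ J := by
    obtain ⟨n, hn⟩ := exists_nat_ge z
    refine ⟨n, hn.trans ?_⟩
    exact_mod_cast (Nat.lt_two_pow_self.trans Nat.lt_two_pow_self).le
  obtain ⟨J, h1, h2⟩ : ∃ J : ℕ, z ≤ 2 ^ 2 ^ J ∧ (2 : ℝ) ^ 2 ^ J ≤ z ^ 2 := by
    classical
    refine ⟨Nat.find hex, Nat.find_spec hex, ?_⟩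
    rcases e : Nat.find hex with _ | J
    · norm_num
      nlinarith
    · have := Nat.find_min hex (show J < Nat.find hex by omega)
      rw [pow_succ, pow_mul]
      exact pow_le_pow_left₀ (by positivity) (not_le.1 this).le 2
  have hz0 : 0 ≤ z := by linarith
  have h := fl_ind (Q := PL z) ((mem_PL hz0).2 ⟨by exact_mod_cast hz, Nat.prime_two⟩) J s
  rw [inter_eq_right.2 fun p hp => mem_PP.2
    ⟨by exact_mod_cast ((mem_PL hz0).1 hp).1.trans h1, prime_of_mem_PL hp⟩] at h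
  obtain ⟨X, D, L, M, k1, k2, k3, k4, k5⟩ := h
  obtain ⟨lam, e1, b1⟩ := k1.out
  obtain ⟨Del, e2, b2⟩ := k2.out
  refine ⟨lam, Del, ?_, fun g hg => ?_, ?_⟩
  · simp only [add_mul, sum_add_distrib]
    refine ((add_le_add b1 b2).trans k3).trans ?_
    rw [pow_mul]
    refine (pow_le_pow_left₀ (by positivity) h2 _).trans ?_
    rw [← pow_mul]
    exact pow_le_pow_right₀ (by linarith) (by omega)
  · rw [← e1, ← e2]
    exact k4 g hg
  · rw [← e2 fun p => 1 / (p : ℝ)]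
    refine k5.trans ?_
    rw [Vz, div_eq_inv_mul _ ((2 : ℝ) ^ s), ← inv_pow, ← one_div]
    exact mul_le_mul_of_nonneg_right (pow_le_pow_of_le_one (by norm_num) (by norm_num) (by omega))
      (prod_nonneg fun p _ => sub_nonneg.2 (fl_inv p).2)

end Pool.Agent.P.MP_8be758_nt.Avg
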