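import Pool.Agent.P.MP_8be758_nt.Avg.Basic

/-! Jacobi symbol: reciprocity and vanishing complete sums. -/

namespace Pool.Agent.P.MP_8be758_nt.Avg

open Finset Real Filter Topology
open Pool.Agent.P.MP_e86632_nt (ee)

theorem chi_rec (k m : ℕ) (hk : 1 ≤ k) (hm : Odd m) :
    jacobiSym (1 - 4 * (k : ℤ)) m = jacobiSym (m : ℤ) (4 * k - 1) := by
  have h1 : (1 - 4 * (k : ℤ)) = -((4 * k - 1 : ℕ) : ℤ) := by omega
  have h2 : (4 * k - 1) % 4 = 3 := by omega
  rw [h1, jacobiSym.neg _ hm]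
  rcases Nat.odd_mod_four_iff.1 (Nat.odd_iff.1 hm) with h | h
  · rw [ZMod.χ₄_nat_one_mod_four h, one_mul,
      jacobiSym.quadratic_reciprocity_one_mod_four h (Nat.odd_iff.2 (by omega))]
  · rw [ZMod.χ₄_nat_three_mod_four h, jacobiSym.quadratic_reciprocity_three_mod_four h2 h]
    ring

theorem chi_nonres {D : ℕ} (hD : Odd D) (hs : ¬ IsSquare D) : ∃ u : ℕ, jacobiSym u D = -1 := by
  have h0 : D ≠ 0 := hD.pos.ne'
  obtain ⟨s, b, h1, h2⟩ := Nat.sq_mul_squarefree D
  have h3 : s ≠ 1 := by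
    rintro rfl
    exact hs ⟨b, by rw [← h1]; ring⟩
  have hp := Nat.minFac_prime h3
  set p := s.minFac
  have hb : b ≠ 0 := by
    rintro rfl
    exact h0 (by rw [← h1]; simp)
  have h4 : Odd (D.factorization p) := by
    rw [← h1, Nat.factorization_mul (pow_ne_zero 2 hb) h2.ne_zero, Nat.factorization_pow]
    simp only [Finsupp.coe_add, Finsupp.coe_smul, Pi.add_apply, Pi.smul_apply, smul_eq_mul]
    rw [Nat.factorization_eq_one_of_squarefree h2 hp (Nat.minFac_dvd s)]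
    exact odd_two_mul_add_one _
  have h5 : p ≠ 2 := by
    intro h
    have h6 : 2 ∣ D := by
      rw [← h1, ← h]
      exact Dvd.dvd.mul_left (Nat.minFac_dvd s) _
    exact (Nat.not_even_iff_odd.2 hD) (even_iff_two_dvd.2 h6)
  have := Fact.mk hp
  obtain ⟨a, ha⟩ := FiniteField.exists_nonsquare (F := ZMod p) (by rwa [ZMod.ringChar_zmod_n])
  have h6 := Nat.coprime_ordCompl hp h0
  obtain ⟨u, hu1, hu2⟩ := Nat.chineseRemainder h6 a.val 1
  refine ⟨u, ?_⟩
  have h7 : jacobiSym u p = -1 := by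
    rw [← jacobiSym.legendreSym.to_jacobiSym, legendreSym.eq_neg_one_iff, Int.cast_natCast,
      (ZMod.natCast_eq_natCast_iff _ _ _).2 hu1, ZMod.natCast_zmod_val]
    exact ha
  have h8 : jacobiSym u (D / p ^ D.factorization p) = 1 := by
    rw [jacobiSym.mod_left' (a₂ := 1) (by exact_mod_cast hu2), jacobiSym.one_left]
  rw [← Nat.ordProj_mul_ordCompl_eq_self D p, jacobiSym.mul_right' _ (pow_ne_zero _ hp.ne_zero)
    (Nat.ordCompl_pos p h0).ne', jacobiSym.pow_right, h7, h8, h4.neg_one_pow, mul_one]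

/-- the symbol as a function on residues -/
noncomputable def chi_g (D : ℕ) (x : ZMod D) : ℝ := (jacobiSym (x.val : ℤ) D : ℝ)

theorem chi_g_cast (D : ℕ) [NeZero D] (a : ℤ) : chi_g D (a : ZMod D) = (jacobiSym a D : ℝ) := by
  rw [chi_g, ZMod.val_intCast, ← jacobiSym.mod_left]

theorem chi_g_abs (D : ℕ) (x : ZMod D) : |chi_g D x| ≤ 1 := by
  rw [chi_g]
  rcases jacobiSym.trichotomy (x.val : ℤ) D with h | h | h <;> rw [h] <;> simp

theorem chi_g_sum {D : ℕ} [NeZero D] (hD : Odd D) (hs : ¬ IsSquare D) : ∑ x, chi_g D x = 0 := by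
  obtain ⟨u, hu⟩ := chi_nonres hD hs
  have h1 : u.Coprime D := by
    by_contra h
    have := jacobiSym.eq_zero_iff_not_coprime.2 (show (u : ℤ).gcd D ≠ 1 by
      rwa [Int.gcd_natCast_natCast])
    omega
  have h2 : ∀ x : ZMod D, chi_g D ((u : ZMod D) * x) = -chi_g D x := by
    intro x
    have h3 : (u : ZMod D) * x = (((u : ℤ) * (x.val : ℤ) : ℤ) : ZMod D) := by
      push_cast
      rw [ZMod.natCast_zmod_val]
    rw [h3, chi_g_cast, jacobiSym.mul_left, hu, chi_g]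
    push_cast
    ring
  have h3 := Equiv.sum_comp (Units.mulLeft (ZMod.unitOfCoprime u h1)) (chi_g D)
  simp only [Units.mulLeft_apply, ZMod.coe_unitOfCoprime, h2, sum_neg_distrib] at h3
  linarith

theorem chi_per {D : ℕ} [NeZero D] (g : ZMod D → ℝ) (h0 : ∑ x, g x = 0) (h1 : ∀ x, |g x| ≤ 1)
    (M : ℕ) : |∑ n ∈ Icc 1 M, g (n : ZMod D)| ≤ D := by
  have hD : 0 < D := Nat.pos_of_ne_zero (NeZero.ne D)
  have h2 : ∀ c : ZMod D, ∑ i ∈ range D, g (c + (i : ZMod D)) = 0 := by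
    intro c
    rw [← h0, ← Equiv.sum_comp (Equiv.addLeft c) g]
    refine sum_nbij' (fun i => (i : ZMod D)) (fun x => x.val) (fun _ _ => mem_univ _)
      (fun x _ => mem_range.2 (ZMod.val_lt x)) (fun i hi => ZMod.val_cast_of_lt (mem_range.1 hi))
      (fun x _ => ZMod.natCast_zmod_val x) fun _ _ => rfl
  induction M using Nat.strong_induction_on with
  | _ M ih =>
    rcases lt_or_ge M D with h | h
    · refine (abs_sum_le_sum_abs _ _).trans ((sum_le_sum fun n _ => h1 _).trans ?_)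
      rw [sum_const, Nat.card_Icc, nsmul_eq_mul, mul_one]
      exact_mod_cast (by omega : M + 1 - 1 ≤ D)
    · obtain ⟨M', rfl⟩ := Nat.exists_eq_add_of_le' h
      have h3 := h2 ((M' + 1 : ℕ) : ZMod D)
      have h4 : ∑ n ∈ Icc 1 (M' + D), g (n : ZMod D) = ∑ n ∈ Icc 1 M', g (n : ZMod D) +
          ∑ i ∈ range D, g (((M' + 1 : ℕ) : ZMod D) + (i : ZMod D)) := by
        rw [← Finset.Ico_add_one_right_eq_Icc, ← Finset.Ico_add_one_right_eq_Icc,
          ← sum_Ico_consecutive _ (by omega : 1 ≤ M' + 1) (by omega : M' + 1 ≤ M' + D + 1),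
          sum_Ico_eq_sum_range _ (M' + 1), show M' + D + 1 - (M' + 1) = D by omega]
        simp only [Nat.cast_add]
      rw [h4, h3, add_zero]
      exact ih M' (by omega)

theorem chi_inc {D : ℕ} (hD : Odd D) (hs : ¬ IsSquare D) (M : ℕ) :
    |∑ n ∈ Icc 1 M, (jacobiSym (n : ℤ) D : ℝ)| ≤ D := by
  have : NeZero D := ⟨hD.pos.ne'⟩
  have h := chi_per (chi_g D) (chi_g_sum hD hs) (chi_g_abs D) M
  have h1 : ∀ n : ℕ, chi_g D (n : ZMod D) = (jacobiSym (n : ℤ) D : ℝ) := fun n => by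
    rw [← chi_g_cast, Int.cast_natCast]
  simpa only [h1] using h

theorem t_CHI : S_CHI := by
  refine ⟨fun k m hk hm => by rw [chi, chi_rec k m hk hm], fun k1 k2 M h1 h2 hs => ?_,
    fun m K hm hs => ?_, fun k x hk => ?_⟩
  · have h3 : Odd (4 * k1 - 1) := Nat.odd_iff.2 (by omega)
    have h4 : Odd (4 * k2 - 1) := Nat.odd_iff.2 (by omega)
    have h5 := chi_inc (h3.mul h4) hs M
    have h6 : ∀ m : ℕ, chi k1 m * chi k2 m =
        (jacobiSym (m : ℤ) ((4 * k1 - 1) * (4 * k2 - 1)) : ℝ) := fun m => by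
      rw [jacobiSym.mul_right' _ h3.pos.ne' h4.pos.ne', chi, chi, Int.cast_mul]
    simp only [h6]
    refine h5.trans ?_
    have h7 : (4 * k1 - 1) * (4 * k2 - 1) ≤ 16 * k1 * k2 :=
      (Nat.mul_le_mul (Nat.sub_le _ _) (Nat.sub_le _ _)).trans (le_of_eq (by ring))
    exact_mod_cast h7
  · have : NeZero m := ⟨hm.pos.ne'⟩
    have h4 : IsUnit ((4 : ℕ) : ZMod m) := by
      rw [ZMod.isUnit_iff_coprime]
      exact (Nat.Coprime.pow_left 2 (Nat.coprime_two_left.2 hm))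
    have h5 : Function.Bijective fun x : ZMod m => 1 - ((4 : ℕ) : ZMod m) * x :=
      Finite.injective_iff_bijective.1 fun x y h => h4.mul_left_cancel (sub_right_injective h)
    have h6 := chi_per (fun x : ZMod m => chi_g m (1 - ((4 : ℕ) : ZMod m) * x))
      (by rw [h5.sum_comp (chi_g m), chi_g_sum hm hs]) (fun _ => chi_g_abs _ _) K
    have h7 : ∑ k ∈ Icc 1 K, chi k m =
        ∑ k ∈ Icc 1 K, chi_g m (1 - ((4 : ℕ) : ZMod m) * (k : ZMod m)) := by
      refine sum_congr rfl fun k hk => ?_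
      rw [chi, ← chi_rec k m (mem_Icc.1 hk).1 hm, ← chi_g_cast]
      push_cast
      rfl
    rw [h7]
    exact h6
  · have h3 : Odd (4 * k - 1) := Nat.odd_iff.2 (by omega)
    have h4 : ¬ IsSquare (4 * k - 1) := by
      rintro ⟨r, hr⟩
      have h5 : r * r % 4 = 3 := by omega
      rw [Nat.mul_mod] at h5
      have h6 : r % 4 < 4 := Nat.mod_lt _ (by norm_num)
      interval_cases r % 4 <;> omega
    refine (chi_inc h3 h4 x).trans ?_
    exact_mod_cast Nat.sub_le (4 * k) 1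

end Pool.Agent.P.MP_8be758_nt.Avg
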