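import Pool.Agent.P.MP_8be758_nt.Avg.Basic
import Pool.Agent.P.MP_e86632_nt.Lam

/-! Mertens' theorem for a completely multiplicative function with bounded partial sums. -/

namespace Pool.Agent.P.MP_8be758_nt.Avg

open Finset Real Filter Topology
open Pool.Agent.P.MP_e86632_nt (ee abel_anti sum_antidiag psi_le)
open ArithmeticFunction (vonMangoldt)

theorem mert_icc (x : ℕ) : Icc 1 x = Ioc 0 x := by ext; simp; omega

theorem mert_split (f : ℕ → ℝ) {a n : ℕ} (h : a ≤ n) :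
    ∑ i ∈ Ioc a n, f i = ∑ i ∈ Ioc 0 n, f i - ∑ i ∈ Ioc 0 a, f i := by
  rw [← Finset.sum_Ioc_consecutive f (Nat.zero_le a) h]; ring

theorem mert_two {f : ℕ → ℝ} {Q : ℝ} (hQ : ∀ x, |∑ n ∈ Ioc 0 x, f n| ≤ Q) (a n : ℕ) :
    |∑ i ∈ Ioc a n, f i| ≤ 2 * Q := by
  have h0 : 0 ≤ Q := (abs_nonneg _).trans (hQ 0)
  rcases le_or_gt a n with h | h
  · rw [mert_split f h]
    have h1 := abs_le.1 (hQ n)
    have h2 := abs_le.1 (hQ a)
    rw [abs_le]; constructor <;> linarith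
  · rw [Finset.Ioc_eq_empty (by omega)]; simp; exact h0

theorem mert_abel {f : ℕ → ℝ} {Q : ℝ} (hQ : ∀ x, |∑ n ∈ Ioc 0 x, f n| ≤ Q) (g : ℕ → ℝ) (a N : ℕ)
    (hg0 : ∀ i, 0 ≤ g i) (hg : ∀ i, a < i → g (i + 1) ≤ g i) :
    |∑ i ∈ Ioc a N, f i * g i| ≤ 2 * Q * g (a + 1) :=
  abel_anti f g a N (2 * Q) (by have := (abs_nonneg _).trans (hQ 0); linarith)
    (fun n _ => mert_two hQ a n) hg0 hg

theorem mert_tail {χ : ℕ → ℝ} {Q : ℝ} (hQ : ∀ x, |∑ n ∈ Ioc 0 x, χ n| ≤ Q) {s : ℝ} (hs : 1 ≤ s)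
    {x x' : ℕ} (h : x ≤ x') :
    |∑ n ∈ Ioc 0 x', χ n * (n : ℝ) ^ (-s) - ∑ n ∈ Ioc 0 x, χ n * (n : ℝ) ^ (-s)|
      ≤ 2 * Q / (x + 1) := by
  have h0 : 0 ≤ Q := (abs_nonneg _).trans (hQ 0)
  rw [← mert_split _ h]
  refine (mert_abel hQ (fun n => (n : ℝ) ^ (-s)) x x' (fun i => by positivity) ?_).trans ?_
  · intro i hi
    have : (0 : ℝ) < i := by exact_mod_cast (by omega : 0 < i)
    exact Real.rpow_le_rpow_of_nonpos this (by push_cast; linarith) (by linarith)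
  · rw [div_eq_mul_inv]
    refine mul_le_mul_of_nonneg_left ?_ (by linarith)
    rw [← Real.rpow_neg_one]
    push_cast
    exact Real.rpow_le_rpow_of_exponent_le (by linarith [(Nat.cast_nonneg x : (0 : ℝ) ≤ x)])
      (by linarith)

theorem mert_tail_lim {χ : ℕ → ℝ} {Q : ℝ} (hQ : ∀ x, |∑ n ∈ Ioc 0 x, χ n| ≤ Q) {s : ℝ}
    (hs : 1 ≤ s) {L : ℝ}
    (hL : Tendsto (fun x : ℕ => ∑ n ∈ Ioc 0 x, χ n * (n : ℝ) ^ (-s)) atTop (𝓝 L)) (x : ℕ) :
    |L - ∑ n ∈ Ioc 0 x, χ n * (n : ℝ) ^ (-s)| ≤ 2 * Q / (x + 1) :=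
  le_of_tendsto ((hL.sub_const _).abs)
    ((eventually_ge_atTop x).mono fun _ h => mert_tail hQ hs h)

theorem mert_log {χ : ℕ → ℝ} {Q : ℝ} (hQ : ∀ x, |∑ n ∈ Ioc 0 x, χ n| ≤ Q) (hb : ∀ n, |χ n| ≤ 1)
    (x : ℕ) : |∑ n ∈ Ioc 0 x, χ n * (Real.log n / n)| ≤ 2 * Q + 2 := by
  have h0 : 0 ≤ Q := (abs_nonneg _).trans (hQ 0)
  have hg0 : ∀ i : ℕ, 0 ≤ Real.log i / i := fun i =>
    div_nonneg (Real.log_natCast_nonneg i) (Nat.cast_nonneg i)
  have hg1 : ∀ i : ℕ, Real.log i / i ≤ 1 := fun i =>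
    div_le_one_of_le₀ ((Real.log_le_self (Nat.cast_nonneg i))) (Nat.cast_nonneg i)
  have hsmall : ∀ y, y ≤ 2 → |∑ n ∈ Ioc 0 y, χ n * (Real.log n / n)| ≤ 2 := by
    intro y hy
    refine (Finset.abs_sum_le_sum_abs _ _).trans ?_
    refine (Finset.sum_le_card_nsmul _ _ 1 fun n _ => ?_).trans ?_
    · rw [abs_mul, abs_of_nonneg (hg0 n)]
      exact mul_le_one₀ (hb n) (hg0 n) (hg1 n)
    · simp only [Nat.card_Ioc, nsmul_eq_mul, mul_one]
      exact_mod_cast (by omega : y - 0 ≤ 2)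
  rcases le_or_gt x 2 with h | h
  · linarith [hsmall x h]
  · have h1 := mert_abel hQ (fun n => Real.log n / n) 2 x hg0 (by
      intro i hi
      have h3 : (3 : ℝ) ≤ i := by exact_mod_cast hi
      have he : Real.exp 1 ≤ 3 := by linarith [Real.exp_one_lt_d9]
      refine Real.log_div_self_antitoneOn (show Real.exp 1 ≤ (i : ℝ) by linarith)
        (show Real.exp 1 ≤ ((i + 1 : ℕ) : ℝ) by push_cast; linarith) (by push_cast; linarith))
    rw [mert_split _ h.le] at h1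
    have h2 := abs_le.1 (hsmall 2 le_rfl)
    have h3 := abs_le.1 (h1.trans (mul_le_of_le_one_right (by linarith) (hg1 _)))
    rw [abs_le]; constructor <;> linarith

theorem mert_conv {χ : ℕ → ℝ} (hm : ∀ m n, χ (m * n) = χ m * χ n) (x : ℕ) :
    ∑ n ∈ Ioc 0 x, χ n * (Real.log n / n) = ∑ d ∈ Ioc 0 x, χ d * (vonMangoldt d / d) *
      ∑ k ∈ Ioc 0 (x / d), χ k * (k : ℝ) ^ (-(1 : ℝ)) := by
  simp only [Finset.mul_sum]
  rw [← sum_antidiag (fun d k => χ d * (vonMangoldt d / d) * (χ k * (k : ℝ) ^ (-(1 : ℝ))))]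
  refine Finset.sum_congr rfl fun n _ => ?_
  rw [← ArithmeticFunction.vonMangoldt_sum,
    ← Nat.sum_divisorsAntidiagonal (fun d _ => vonMangoldt d), Finset.sum_div, Finset.mul_sum]
  refine Finset.sum_congr rfl fun p hp => ?_
  rw [← (Nat.mem_divisorsAntidiagonal.1 hp).1, hm, Real.rpow_neg_one]
  push_cast
  rw [div_eq_mul_inv, div_eq_mul_inv, mul_inv]; ring

theorem mert_A {χ : ℕ → ℝ} {Q L : ℝ} (hQ : ∀ x, |∑ n ∈ Ioc 0 x, χ n| ≤ Q) (hb : ∀ n, |χ n| ≤ 1)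
    (hm : ∀ m n, χ (m * n) = χ m * χ n) (hL0 : L ≠ 0)
    (hL : Tendsto (fun x : ℕ => ∑ n ∈ Ioc 0 x, χ n * (n : ℝ) ^ (-(1 : ℝ))) atTop (𝓝 L)) (x : ℕ) :
    |∑ d ∈ Ioc 0 x, χ d * (vonMangoldt d / d)| ≤ (14 * Q + 2) / |L| := by
  have h0 : 0 ≤ Q := (abs_nonneg _).trans (hQ 0)
  rw [le_div_iff₀ (abs_pos.2 hL0), ← abs_mul]
  have e : (∑ d ∈ Ioc 0 x, χ d * (vonMangoldt d / d)) * L
      = ∑ n ∈ Ioc 0 x, χ n * (Real.log n / n) + ∑ d ∈ Ioc 0 x, χ d * (vonMangoldt d / d) *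
        (L - ∑ k ∈ Ioc 0 (x / d), χ k * (k : ℝ) ^ (-(1 : ℝ))) := by
    rw [mert_conv hm, ← Finset.sum_add_distrib, Finset.sum_mul]
    exact Finset.sum_congr rfl fun d _ => by ring
  have h2 : |∑ d ∈ Ioc 0 x, χ d * (vonMangoldt d / d) *
      (L - ∑ k ∈ Ioc 0 (x / d), χ k * (k : ℝ) ^ (-(1 : ℝ)))| ≤ 12 * Q := by
    rcases Nat.eq_zero_or_pos x with rfl | hx
    · simp; exact h0
    have hx' : (0 : ℝ) < x := by exact_mod_cast hx
    refine (Finset.abs_sum_le_sum_abs _ _).trans ?_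
    refine (Finset.sum_le_sum (g := fun d => vonMangoldt d * (2 * Q / x)) fun d hd => ?_).trans ?_
    · have hd0 : 0 < d := (Finset.mem_Ioc.1 hd).1
      have hd' : (0 : ℝ) < d := by exact_mod_cast hd0
      have hv : 0 ≤ vonMangoldt d := ArithmeticFunction.vonMangoldt_nonneg
      have h3 := mert_tail_lim hQ le_rfl hL (x / d)
      have h4 : (x : ℝ) ≤ d * (((x / d : ℕ) : ℝ) + 1) := by
        exact_mod_cast (Nat.lt_mul_div_succ x hd0).le
      rw [abs_mul, abs_mul, abs_of_nonneg (div_nonneg hv hd'.le)]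
      calc |χ d| * (vonMangoldt d / d) * |L - ∑ k ∈ Ioc 0 (x / d), χ k * (k : ℝ) ^ (-(1 : ℝ))|
          ≤ 1 * (vonMangoldt d / d) * (2 * Q / (((x / d : ℕ) : ℝ) + 1)) := by
            gcongr; exact hb d
        _ = vonMangoldt d * (2 * Q / (d * (((x / d : ℕ) : ℝ) + 1))) := by field_simp
        _ ≤ vonMangoldt d * (2 * Q / x) := by gcongr
    · rw [← Finset.sum_mul]
      calc (∑ d ∈ Ioc 0 x, vonMangoldt d) * (2 * Q / x) ≤ (6 * x) * (2 * Q / x) := by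
            gcongr; exact psi_le x
        _ = 12 * Q := by field_simp; ring
  rw [e]
  refine (abs_add_le _ _).trans ?_
  linarith [mert_log hQ hb x]

theorem mert_nonprime : ∃ C : ℝ, ∀ x : ℕ,
    ∑ d ∈ Ioc 0 x, (if d.Prime then 0 else vonMangoldt d) / (d : ℝ) ≤ C := by
  have h := ArithmeticFunction.vonMangoldt.summable_residueClass_non_primes_div (0 : ZMod 1)
  have e : ∀ n : ℕ, ArithmeticFunction.vonMangoldt.residueClass (0 : ZMod 1) n = vonMangoldt n := by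
    intro n
    have hn : n ∈ {n : ℕ | (n : ZMod 1) = 0} := Subsingleton.elim (n : ZMod 1) 0
    exact Set.indicator_of_mem hn (fun n => vonMangoldt n)
  simp only [e] at h
  refine ⟨_, fun x => h.sum_le_tsum _ fun n _ => div_nonneg ?_ (Nat.cast_nonneg n)⟩
  split_ifs
  · exact le_rfl
  · exact ArithmeticFunction.vonMangoldt_nonneg

theorem mert_B {χ : ℕ → ℝ} {Q L : ℝ} (hQ : ∀ x, |∑ n ∈ Ioc 0 x, χ n| ≤ Q) (hb : ∀ n, |χ n| ≤ 1)
    (hm : ∀ m n, χ (m * n) = χ m * χ n) (hL0 : L ≠ 0)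
    (hL : Tendsto (fun x : ℕ => ∑ n ∈ Ioc 0 x, χ n * (n : ℝ) ^ (-(1 : ℝ))) atTop (𝓝 L)) :
    ∃ M : ℝ, ∀ x : ℕ, |∑ d ∈ Ioc 0 x, if d.Prime then χ d * (Real.log d / d) else 0| ≤ M := by
  obtain ⟨C, hC⟩ := mert_nonprime
  refine ⟨(14 * Q + 2) / |L| + C, fun x => ?_⟩
  have e : (∑ d ∈ Ioc 0 x, if d.Prime then χ d * (Real.log d / d) else 0)
      = ∑ d ∈ Ioc 0 x, χ d * (vonMangoldt d / d)
        - ∑ d ∈ Ioc 0 x, χ d * ((if d.Prime then 0 else vonMangoldt d) / (d : ℝ)) := by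
    rw [← Finset.sum_sub_distrib]
    refine Finset.sum_congr rfl fun d _ => ?_
    split_ifs with h
    · rw [ArithmeticFunction.vonMangoldt_apply_prime h]; simp
    · simp
  rw [e]
  refine (abs_sub _ _).trans (add_le_add (mert_A hQ hb hm hL0 hL x) ?_)
  refine (Finset.abs_sum_le_sum_abs _ _).trans ((Finset.sum_le_sum fun d _ => ?_).trans (hC x))
  have h0 : 0 ≤ (if d.Prime then 0 else vonMangoldt d) / (d : ℝ) := by
    refine div_nonneg ?_ (Nat.cast_nonneg d)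
    split_ifs
    · exact le_rfl
    · exact ArithmeticFunction.vonMangoldt_nonneg
  rw [abs_mul, abs_of_nonneg h0]
  exact mul_le_of_le_one_left h0 (hb d)

/-- the logarithm of the partial Euler product -/
noncomputable def mertG (χ : ℕ → ℝ) (y : ℕ) (s : ℝ) : ℝ :=
  ∑ p ∈ Ioc 0 y, if p.Prime then Real.log (1 - χ p * (p : ℝ) ^ (-s)) else 0

theorem mert_small {χ : ℕ → ℝ} (hb : ∀ n, |χ n| ≤ 1) {s : ℝ} (hs : 1 ≤ s) {p : ℕ} (hp : 1 ≤ p) :
    |χ p * (p : ℝ) ^ (-s)| ≤ (p : ℝ)⁻¹ := by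
  have h1 : (1 : ℝ) ≤ p := by exact_mod_cast hp
  rw [abs_mul, abs_of_nonneg (by positivity : 0 ≤ (p : ℝ) ^ (-s)), ← Real.rpow_neg_one]
  exact (mul_le_of_le_one_left (by positivity) (hb p)).trans
    (Real.rpow_le_rpow_of_exponent_le h1 (by linarith))

theorem mert_half {χ : ℕ → ℝ} (hb : ∀ n, |χ n| ≤ 1) {s : ℝ} (hs : 1 ≤ s) {p : ℕ} (hp : p.Prime) :
    |χ p * (p : ℝ) ^ (-s)| ≤ 1 / 2 := by
  refine (mert_small hb hs hp.one_le).trans ?_
  rw [one_div]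
  exact inv_anti₀ (by norm_num) (by exact_mod_cast hp.two_le)

theorem mert_exp {χ : ℕ → ℝ} (hb : ∀ n, |χ n| ≤ 1) {s : ℝ} (hs : 1 ≤ s) (y : ℕ) :
    Real.exp (mertG χ y s) = ∏ p ∈ Nat.primesLE y, (1 - χ p * (p : ℝ) ^ (-s)) := by
  rw [mertG, ← Finset.sum_filter, Nat.primesLE_eq_filter_Ioc_zero, Real.exp_sum]
  refine Finset.prod_congr rfl fun p hp => Real.exp_log ?_
  linarith [(abs_le.1 (mert_half hb hs (Finset.mem_filter.1 hp).2)).2]

theorem mert_logerr {t : ℝ} (h : |t| ≤ 1 / 2) : |Real.log (1 - t) + t| ≤ 2 * t ^ 2 := by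
  have h1 := Real.abs_log_sub_add_sum_range_le (x := t) (by linarith) 1
  simp only [Finset.range_one, Finset.sum_singleton, Nat.cast_zero, zero_add, pow_one,
    div_one] at h1
  rw [add_comm]
  refine h1.trans ?_
  rw [div_le_iff₀ (by linarith), show |t| ^ (1 + 1) = t ^ 2 from sq_abs t]
  nlinarith [sq_nonneg t]

theorem mert_unif {χ : ℕ → ℝ} {M : ℝ} (hb : ∀ n, |χ n| ≤ 1)
    (hM : ∀ x : ℕ, |∑ d ∈ Ioc 0 x, if d.Prime then χ d * (Real.log d / d) else 0| ≤ M)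
    {s : ℝ} (hs : 1 ≤ s) {y y' : ℕ} (hy : 1 ≤ y) (h : y ≤ y') :
    |mertG χ y' s - mertG χ y s| ≤ 2 * M / Real.log (y + 1) + 2 / y := by
  have h0 : 0 ≤ M := (abs_nonneg _).trans (hM 0)
  have hy' : (1 : ℝ) ≤ y := by exact_mod_cast hy
  unfold mertG
  rw [← mert_split _ h]
  have h1 := mert_abel hM (fun n => (n : ℝ) ^ (1 - s) / Real.log n) y y'
    (fun i => div_nonneg (by positivity) (Real.log_natCast_nonneg i)) (by
      intro i hi
      have h2 : (1 : ℝ) < i := by exact_mod_cast (by omega : 1 < i)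
      refine div_le_div₀ (by positivity) ?_ (Real.log_pos h2) ?_
      · exact Real.rpow_le_rpow_of_nonpos (by linarith) (by push_cast; linarith) (by linarith)
      · exact Real.log_le_log (by linarith) (by push_cast; linarith))
  have h2 : 2 * M * (((y + 1 : ℕ) : ℝ) ^ (1 - s) / Real.log ((y + 1 : ℕ) : ℝ))
      ≤ 2 * M / Real.log (y + 1) := by
    push_cast
    rw [mul_div_assoc']
    refine div_le_div_of_nonneg_right (mul_le_of_le_one_right (by linarith) ?_)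
      (Real.log_nonneg (by linarith))
    exact Real.rpow_le_one_of_one_le_of_nonpos (by linarith) (by linarith)
  have h3 : |∑ p ∈ Ioc y y', ((if p.Prime then Real.log (1 - χ p * (p : ℝ) ^ (-s)) else 0)
      + (if p.Prime then χ p * (Real.log p / p) else 0) * ((p : ℝ) ^ (1 - s) / Real.log p))|
      ≤ 2 / y := by
    refine (Finset.abs_sum_le_sum_abs _ _).trans ?_
    refine (Finset.sum_le_sum (g := fun p : ℕ => 2 * ((p : ℝ) ^ 2)⁻¹) fun p _ => ?_).trans ?_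
    · split_ifs with hp
      · have hp1 : (1 : ℝ) < p := by exact_mod_cast hp.one_lt
        have hl : Real.log p ≠ 0 := (Real.log_pos hp1).ne'
        have e : χ p * (Real.log p / p) * ((p : ℝ) ^ (1 - s) / Real.log p)
            = χ p * (p : ℝ) ^ (-s) := by
          rw [sub_eq_add_neg, Real.rpow_add (by linarith), Real.rpow_one]; field_simp
        rw [e]
        refine (mert_logerr (mert_half hb hs hp)).trans ?_
        rw [← inv_pow, ← sq_abs]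
        gcongr
        exact mert_small hb hs hp.one_le
      · simp
    · rw [← Finset.mul_sum, div_eq_mul_inv]
      have h4 := sum_Ioc_inv_sq_le_sub (α := ℝ) (by omega : y ≠ 0) h
      have h5 : (0 : ℝ) ≤ (y' : ℝ)⁻¹ := by positivity
      linarith
  rw [Finset.sum_add_distrib] at h3
  have h6 := abs_le.1 (h1.trans h2)
  have h7 := abs_le.1 h3
  rw [abs_le]; constructor <;> linarith

theorem mert_euler {χ : ℕ → ℝ} (h1 : χ 1 = 1) (hm : ∀ m n, χ (m * n) = χ m * χ n)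
    (hb : ∀ n, |χ n| ≤ 1) {s : ℝ} (hs : 1 < s) : ∃ T : ℝ,
    Tendsto (fun y : ℕ => Real.exp (-mertG χ y s)) atTop (𝓝 T) ∧
    Tendsto (fun x : ℕ => ∑ n ∈ Ioc 0 x, χ n * (n : ℝ) ^ (-s)) atTop (𝓝 T) := by
  have hz : (0 : ℝ) ^ (-s) = 0 := Real.zero_rpow (by linarith)
  let f : ℕ →*₀ ℝ :=
    { toFun := fun n => χ n * (n : ℝ) ^ (-s)
      map_zero' := by simp [hz]
      map_one' := by simp [h1]
      map_mul' := fun m n => by
        rw [hm, Nat.cast_mul, Real.mul_rpow (Nat.cast_nonneg m) (Nat.cast_nonneg n)]; ring }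
  have hf : ∀ n, f n = χ n * (n : ℝ) ^ (-s) := fun _ => rfl
  have hsum : Summable fun n => ‖f n‖ := by
    refine Summable.of_nonneg_of_le (fun _ => norm_nonneg _) (fun n => ?_)
      (Real.summable_nat_rpow.2 (show -s < -1 by linarith))
    rw [hf, Real.norm_eq_abs, abs_mul, abs_of_nonneg (by positivity : 0 ≤ (n : ℝ) ^ (-s))]
    exact mul_le_of_le_one_left (by positivity) (hb n)
  refine ⟨∑' n, f n, ?_, ?_⟩
  · refine ((EulerProduct.eulerProduct_completely_multiplicative hsum).comp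
      (tendsto_add_atTop_nat 1)).congr fun y => ?_
    rw [Real.exp_neg, mert_exp hb hs.le, ← Finset.prod_inv_distrib]
    rfl
  · refine ((hsum.of_norm.hasSum.tendsto_sum_nat).comp (tendsto_add_atTop_nat 1)).congr fun x => ?_
    have e : range (x + 1) = insert 0 (Ioc 0 x) := by ext; simp
    simp only [Function.comp]
    rw [e, Finset.sum_insert (by simp), map_zero, zero_add]
    rfl

theorem mert_contG {χ : ℕ → ℝ} (hb : ∀ n, |χ n| ≤ 1) (y : ℕ) :
    ContinuousAt (fun s => mertG χ y s) 1 := by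
  unfold mertG
  refine tendsto_finsetSum _ fun p _ => ?_
  split_ifs with hp
  · have hp0 : (p : ℝ) ≠ 0 := by exact_mod_cast hp.ne_zero
    have hc : ContinuousAt (fun s : ℝ => 1 - χ p * (p : ℝ) ^ (-s)) 1 :=
      continuousAt_const.sub (continuousAt_const.mul
        ((Real.continuousAt_const_rpow hp0).comp continuousAt_id.neg))
    refine hc.log ?_
    linarith [(abs_le.1 (mert_half hb le_rfl hp)).2]
  · exact tendsto_const_nhds

theorem mert_contD (χ : ℕ → ℝ) (x : ℕ) :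
    ContinuousAt (fun s : ℝ => ∑ n ∈ Ioc 0 x, χ n * (n : ℝ) ^ (-s)) 1 := by
  refine tendsto_finsetSum _ fun n hn => ?_
  have hn0 : (n : ℝ) ≠ 0 := by exact_mod_cast (Finset.mem_Ioc.1 hn).1.ne'
  exact continuousAt_const.mul ((Real.continuousAt_const_rpow hn0).comp continuousAt_id.neg)

theorem mert_sandwich {χ : ℕ → ℝ} {Q L : ℝ} (h1 : χ 1 = 1) (hm : ∀ m n, χ (m * n) = χ m * χ n)
    (hb : ∀ n, |χ n| ≤ 1) (hQ : ∀ x, |∑ n ∈ Ioc 0 x, χ n| ≤ Q)
    (hL : Tendsto (fun x : ℕ => ∑ n ∈ Ioc 0 x, χ n * (n : ℝ) ^ (-(1 : ℝ))) atTop (𝓝 L))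
    {y : ℕ} {ε : ℝ} (hε : ∀ s, 1 ≤ s → ∀ y', y ≤ y' → |mertG χ y' s - mertG χ y s| ≤ ε) :
    Real.exp (-mertG χ y 1 - ε) ≤ L ∧ L ≤ Real.exp (-mertG χ y 1 + ε) := by
  have key : ∀ x : ℕ, ∀ s, 1 < s →
      Real.exp (-mertG χ y s - ε) ≤ ∑ n ∈ Ioc 0 x, χ n * (n : ℝ) ^ (-s) + 2 * Q / (x + 1) ∧
      ∑ n ∈ Ioc 0 x, χ n * (n : ℝ) ^ (-s) - 2 * Q / (x + 1) ≤ Real.exp (-mertG χ y s + ε) := by
    intro x s hs
    obtain ⟨T, hT1, hT2⟩ := mert_euler h1 hm hb hs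
    have h2 := abs_le.1 (mert_tail_lim hQ hs.le hT2 x)
    have h3 : Real.exp (-mertG χ y s - ε) ≤ T :=
      ge_of_tendsto hT1 ((eventually_ge_atTop y).mono fun y' h =>
        Real.exp_le_exp.2 (by linarith [(abs_le.1 (hε s hs.le y' h)).2]))
    have h4 : T ≤ Real.exp (-mertG χ y s + ε) :=
      le_of_tendsto hT1 ((eventually_ge_atTop y).mono fun y' h =>
        Real.exp_le_exp.2 (by linarith [(abs_le.1 (hε s hs.le y' h)).1]))
    constructor <;> linarith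
  have hG : Tendsto (fun s => mertG χ y s) (𝓝[>] 1) (𝓝 (mertG χ y 1)) :=
    (mert_contG hb y).tendsto.mono_left nhdsWithin_le_nhds
  have hD : ∀ x : ℕ, Tendsto (fun s : ℝ => ∑ n ∈ Ioc 0 x, χ n * (n : ℝ) ^ (-s)) (𝓝[>] 1)
      (𝓝 (∑ n ∈ Ioc 0 x, χ n * (n : ℝ) ^ (-(1 : ℝ)))) := fun x =>
    (mert_contD χ x).tendsto.mono_left nhdsWithin_le_nhds
  have hz : Tendsto (fun x : ℕ => 2 * Q / ((x : ℝ) + 1)) atTop (𝓝 0) :=
    tendsto_const_nhds.div_atTop (tendsto_atTop_add_const_right _ 1 tendsto_natCast_atTop_atTop)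
  constructor
  · refine ge_of_tendsto' (add_zero L ▸ hL.add hz) fun x => ?_
    exact le_of_tendsto_of_tendsto ((Real.continuous_exp.tendsto _).comp (hG.neg.sub_const ε))
      ((hD x).add_const _) (eventually_mem_nhdsWithin.mono fun s hs => (key x s hs).1)
  · refine le_of_tendsto' (sub_zero L ▸ hL.sub hz) fun x => ?_
    exact le_of_tendsto_of_tendsto ((hD x).sub_const _)
      ((Real.continuous_exp.tendsto _).comp (hG.neg.add_const ε))
      (eventually_mem_nhdsWithin.mono fun s hs => (key x s hs).2)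

theorem t_MERT : S_MERT := by
  intro χ Q L h1 hm hb hQ hL0 hL
  simp only [mert_icc] at hQ hL
  have hL' : Tendsto (fun x : ℕ => ∑ n ∈ Ioc 0 x, χ n * (n : ℝ) ^ (-(1 : ℝ))) atTop (𝓝 L) := by
    simpa only [Real.rpow_neg_one, div_eq_mul_inv] using hL
  obtain ⟨M, hM⟩ := mert_B hQ hb hm hL0 hL'
  let e : ℕ → ℝ := fun y => 2 * M / Real.log (y + 1) + 2 / y
  have he : Tendsto e atTop (𝓝 0) := by
    have a1 : Tendsto (fun y : ℕ => 2 * M / Real.log ((y : ℝ) + 1)) atTop (𝓝 0) :=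
      tendsto_const_nhds.div_atTop (Real.tendsto_log_atTop.comp
        (tendsto_atTop_add_const_right _ 1 tendsto_natCast_atTop_atTop))
    have a2 : Tendsto (fun y : ℕ => (2 : ℝ) / y) atTop (𝓝 0) :=
      tendsto_const_nhds.div_atTop tendsto_natCast_atTop_atTop
    simpa using a1.add a2
  have hs : ∀ y, 1 ≤ y → Real.exp (-mertG χ y 1 - e y) ≤ L ∧ L ≤ Real.exp (-mertG χ y 1 + e y) :=
    fun y hy => mert_sandwich h1 hm hb hQ hL' fun s hs y' h => mert_unif hb hM hs hy h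
  have hLp : 0 < L := (Real.exp_pos _).trans_le (hs 1 le_rfl).1
  have hG : Tendsto (fun y => mertG χ y 1) atTop (𝓝 (-Real.log L)) := by
    refine tendsto_of_tendsto_of_tendsto_of_le_of_le' (g := fun y => -Real.log L - e y)
      (h := fun y => -Real.log L + e y) (by simpa using he.const_sub (-Real.log L))
      (by simpa using he.const_add (-Real.log L)) ?_ ?_
    · filter_upwards [eventually_ge_atTop 1] with y hy
      linarith [(Real.le_log_iff_exp_le hLp).2 (hs y hy).1]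
    · filter_upwards [eventually_ge_atTop 1] with y hy
      linarith [(Real.log_le_iff_le_exp hLp).2 (hs y hy).2]
  have h2 := (Real.continuous_exp.tendsto _).comp hG
  rw [Real.exp_neg, Real.exp_log hLp] at h2
  refine h2.congr fun y => ?_
  simp only [Function.comp]
  rw [mert_exp hb le_rfl]
  simp only [Real.rpow_neg_one, div_eq_mul_inv]

end Pool.Agent.P.MP_8be758_nt.Avg
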