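import Pool.Agent.P.MP_8be758_nt.Avg.Basic

/-! The average of `rho - 1` and the truncated value at `1` of the `L`-series. -/

namespace Pool.Agent.P.MP_8be758_nt.Avg

open Finset Real Filter Topology
open Pool.Agent.P.MP_e86632_nt (ee)

theorem rho_harm (S : Finset ℕ) (M d : ℕ) (hd : 0 < d) (h : ∀ b ∈ S, 0 < b ∧ b ≤ M) :
    ∑ b ∈ S.filter (d ∣ ·), 1 / (b : ℝ) ≤ (1 + Real.log M) / d := by
  have h1 : S.filter (d ∣ ·) ⊆ (Ioc 0 M).image (d * ·) := fun b hb => by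
    obtain ⟨h2, j, rfl⟩ := mem_filter.1 hb
    obtain ⟨h3, h4⟩ := h _ h2
    exact mem_image.2 ⟨j, mem_Ioc.2 ⟨Nat.pos_of_mul_pos_left h3,
      (Nat.le_mul_of_pos_left j hd).trans h4⟩, rfl⟩
  refine (sum_le_sum_of_subset_of_nonneg h1 fun _ _ _ => by positivity).trans ?_
  rw [sum_image fun a _ b _ h => Nat.eq_of_mul_eq_mul_left hd h]
  have h2 : (0 : ℝ) < d := by exact_mod_cast hd
  refine le_trans (le_of_eq ?_)
    (div_le_div_of_nonneg_right (Pool.Agent.P.MP_e86632_nt.sum_inv_le M) h2.le)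
  rw [sum_div]
  refine sum_congr rfl fun j _ => ?_
  push_cast
  rw [div_div, mul_comm]

theorem rho_div {z : ℝ} {b M : ℕ} (hz : 1 ≤ z) (h0 : b ≠ 0) (hb : Rough z b) (hM : b ≤ M)
    (f : ℕ → ℝ) : ∑ d ∈ b.divisors, f d =
      f 1 + ∑ d ∈ (Icc 1 M).filter (fun d : ℕ => z < d), if d ∣ b then f d else 0 := by
  rw [← sum_filter, ← sum_insert]
  · refine sum_congr ?_ fun _ _ => rfl
    ext d
    simp only [Nat.mem_divisors, mem_insert, mem_filter, mem_Icc]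
    constructor
    · rintro ⟨h1, -⟩
      have h2 := Nat.pos_of_dvd_of_pos h1 (Nat.pos_of_ne_zero h0)
      rcases Nat.eq_or_lt_of_le h2 with h3 | h3
      · exact Or.inl h3.symm
      · exact Or.inr ⟨⟨⟨h2, (Nat.le_of_dvd (Nat.pos_of_ne_zero h0) h1).trans hM⟩,
          (hb.of_dvd h1).lt h3⟩, h1⟩
    · rintro (rfl | h1)
      · exact ⟨one_dvd _, h0⟩
      · exact ⟨h1.2, h0⟩
  · intro h1
    have := (mem_filter.1 (mem_filter.1 h1).1).2
    rw [Nat.cast_one] at this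
    linarith

theorem t_RHO (hCHAR : S_CHAR) (hROOT : S_ROOT) : S_RHO := by
  intro e he
  obtain ⟨c, hc, h1⟩ := hCHAR e he
  refine ⟨c / 2, half_pos hc, ?_⟩
  filter_upwards [h1, tendsto_natCast_atTop_atTop.eventually (ev_const 2 he),
    tendsto_natCast_atTop_atTop.eventually (ev_log 1), eventually_ge_atTop 1,
    tendsto_natCast_atTop_atTop.eventually (ev_pow 3 1 (a := 1 - c) (b := 1 - c / 2) (by linarith))]
    with K h1 h2 h3 h4 h5 S γ h
  set L : ℝ := 1 + Real.log ((K ^ 2 : ℕ) : ℝ) with hL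
  have hL1 : L = 1 + 2 * Real.log K := by rw [hL]; push_cast; rw [Real.log_pow]; norm_num
  have hL0 : 0 < L := by linarith
  set S' := (Icc 1 (K ^ 2)).filter (fun d : ℕ => (K : ℝ) ^ e < d) with hS'
  have key : ∀ k ∈ Icc 1 K, |∑ b ∈ S, γ b * ((rho k b : ℝ) - 1)| =
      L * |∑ d ∈ S', (∑ b ∈ S.filter (d ∣ ·), γ b) / L * chi k d| := fun k hk => by
    rw [← abs_of_pos hL0, ← abs_mul, abs_of_pos hL0, mul_sum]
    congr 1
    have e1 : ∀ b ∈ S, γ b * ((rho k b : ℝ) - 1) =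
        ∑ d ∈ S', if d ∣ b then γ b * chi k d else 0 := fun b hb => by
      obtain ⟨b1, b2, b3, -⟩ := h b hb
      rw [(hROOT.2.2.2.1 k b (mem_Icc.1 hk).1 (b2.odd h2) b1).1,
        rho_div (by linarith) b1.ne_zero b2 b3, chi_one, add_sub_cancel_left, mul_sum]
      exact sum_congr rfl fun d _ => by rw [mul_ite, mul_zero]
    rw [sum_congr rfl e1, sum_comm]
    refine sum_congr rfl fun d _ => ?_
    rw [← mul_assoc, mul_div_cancel₀ _ hL0.ne', sum_mul, sum_filter]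
  rw [sum_congr rfl key, ← mul_sum]
  have h6 := h1 S' (fun d => (∑ b ∈ S.filter (d ∣ ·), γ b) / L) fun d hd => by
    obtain ⟨d1, d2⟩ := mem_filter.1 hd
    obtain ⟨d3, d4⟩ := mem_Icc.1 d1
    refine ⟨d2, d4.trans (Nat.pow_le_pow_right h4 (by norm_num)), ?_⟩
    rw [abs_div, abs_of_pos hL0, div_le_iff₀ hL0, one_div_mul_eq_div]
    refine (abs_sum_le_sum_abs _ _).trans (le_trans (sum_le_sum fun b hb => ?_)
      (rho_harm S (K ^ 2) d d3 fun b hb => ?_))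
    · exact (h b (mem_filter.1 hb).1).2.2.2
    · exact ⟨Nat.pos_of_ne_zero (h b hb).1.ne_zero, (h b hb).2.2.1⟩
  have h7 : (0 : ℝ) ≤ (K : ℝ) ^ (1 - c) := by positivity
  refine (mul_le_mul_of_nonneg_left h6 hL0.le).trans (le_trans ?_ h5)
  rw [hL1, pow_one]
  nlinarith

theorem rho_succ (R n : ℕ) :
    Rough ((R + 1 : ℕ) : ℝ) n ↔ Rough R n ∧ ¬ ((R + 1).Prime ∧ R + 1 ∣ n) := by
  constructor
  · intro h
    exact ⟨h.mono (by push_cast; linarith), fun h1 => lt_irrefl _ (h _ h1.1 h1.2)⟩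
  · rintro ⟨h1, h2⟩ p hp hd
    have h3 : R < p := by exact_mod_cast h1 p hp hd
    have h4 : R + 1 ≠ p := by rintro rfl; exact h2 ⟨hp, hd⟩
    exact_mod_cast (by omega : R + 1 < p)

theorem rho_lw1 (hCHI : S_CHI) (k R x : ℕ) (hk : 1 ≤ k) :
    |∑ n ∈ (Icc 1 x).filter (Rough R), chi k n| ≤ 4 * k * 2 ^ R := by
  induction R generalizing x with
  | zero =>
    rw [filter_true_of_mem fun n _ p hp _ => by exact_mod_cast hp.pos]
    simpa using hCHI.2.2.2 k x hk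
  | succ R ih =>
    have h0 : (0 : ℝ) ≤ 4 * k * 2 ^ R := by positivity
    by_cases hp : (R + 1).Prime
    · have e1 := sum_filter_add_sum_filter_not ((Icc 1 x).filter (Rough R)) (R + 1 ∣ ·) (chi k)
      have e2 : ((Icc 1 x).filter (Rough R)).filter (fun n => ¬ R + 1 ∣ n) =
          (Icc 1 x).filter (Rough ((R + 1 : ℕ) : ℝ)) := by
        ext n
        simp only [mem_filter, rho_succ, hp, true_and, and_assoc]
      have e3 : ((Icc 1 x).filter (Rough R)).filter (R + 1 ∣ ·) =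
          ((Icc 1 (x / (R + 1))).filter (Rough R)).image ((R + 1) * ·) := by
        ext n
        simp only [mem_filter, mem_image, mem_Icc, Nat.le_div_iff_mul_le (Nat.succ_pos R)]
        constructor
        · rintro ⟨⟨⟨h1, h2⟩, h3⟩, m, rfl⟩
          exact ⟨m, ⟨⟨Nat.pos_of_mul_pos_left h1, by rwa [mul_comm]⟩, (rough_mul.1 h3).2⟩, rfl⟩
        · rintro ⟨m, ⟨⟨h1, h2⟩, h3⟩, rfl⟩
          refine ⟨⟨⟨Nat.mul_pos (Nat.succ_pos R) h1, by rwa [mul_comm]⟩,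
            rough_mul.2 ⟨(rough_prime hp).2 ?_, h3⟩⟩, dvd_mul_right _ _⟩
          exact_mod_cast Nat.lt_succ_self R
      rw [e2, e3, sum_image fun a _ b _ h => Nat.eq_of_mul_eq_mul_left (Nat.succ_pos R) h] at e1
      simp only [chi_mul, ← mul_sum] at e1
      rw [eq_sub_of_add_eq' e1, pow_succ]
      refine (abs_sub _ _).trans ?_
      rw [abs_mul]
      have h1 := mul_le_mul (abs_chi_le k (R + 1)) (ih (x / (R + 1))) (abs_nonneg _) zero_le_one
      linarith [ih x]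
    · rw [filter_congr (q := Rough R) fun n _ => by simp only [rho_succ, hp, false_and,
        not_false_eq_true, and_true], pow_succ]
      linarith [ih x]

theorem rho_lim (a : ℕ → ℝ) (Q : ℝ) (h : ∀ x, |∑ n ∈ Ioc 0 x, a n| ≤ Q) :
    ∃ L, Tendsto (fun x : ℕ => ∑ n ∈ Ioc 0 x, a n * (1 / (n : ℝ))) atTop (𝓝 L) ∧
      ∀ x : ℕ, |L - ∑ n ∈ Ioc 0 x, a n * (1 / (n : ℝ))| ≤ 2 * Q * (1 / (x + 1)) := by
  have hQ : 0 ≤ Q := (abs_nonneg _).trans (h 0)
  have h1 : ∀ x y : ℕ, x ≤ y → |∑ n ∈ Ioc 0 y, a n * (1 / (n : ℝ)) -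
      ∑ n ∈ Ioc 0 x, a n * (1 / (n : ℝ))| ≤ 2 * Q * (1 / (x + 1)) := fun x y hxy => by
    rw [← sum_Ioc_consecutive _ (Nat.zero_le x) hxy, add_sub_cancel_left]
    have := Pool.Agent.P.MP_e86632_nt.abel_anti a (fun n => 1 / (n : ℝ)) x y (2 * Q)
      (by positivity) (fun n _ => ?_) (fun i => by positivity) fun i hi => ?_
    · simpa using this
    · rcases le_total n x with h2 | h2
      · rw [Ioc_eq_empty (by omega), sum_empty, abs_zero]; positivity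
      · rw [eq_sub_of_add_eq' (sum_Ioc_consecutive a (Nat.zero_le x) h2)]
        linarith [abs_sub (∑ i ∈ Ioc 0 n, a i) (∑ i ∈ Ioc 0 x, a i), h n, h x]
    · have : (0 : ℝ) < i := by exact_mod_cast (by omega : 0 < i)
      exact one_div_le_one_div_of_le this (by push_cast; linarith)
  have h2 : CauchySeq fun x : ℕ => ∑ n ∈ Ioc 0 x, a n * (1 / (n : ℝ)) := by
    refine cauchySeq_of_le_tendsto_0' (fun x : ℕ => 2 * Q * (1 / (x + 1))) (fun x y hxy => ?_) ?_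
    · rw [dist_comm, Real.dist_eq]; exact h1 x y hxy
    · simpa using tendsto_one_div_add_atTop_nhds_zero_nat.const_mul (2 * Q)
  obtain ⟨L, hL⟩ := cauchySeq_tendsto_of_complete h2
  refine ⟨L, hL, fun x => ?_⟩
  refine le_of_tendsto (hL.sub_const _).abs ?_
  filter_upwards [eventually_ge_atTop x] with y hy using h1 x y hy

theorem rho_lim2 (hCHI : S_CHI) (k R : ℕ) (hk : 1 ≤ k) :
    ∃ L, Tendsto (fun x : ℕ => ∑ n ∈ (Icc 1 x).filter (Rough R), chi k n / n) atTop (𝓝 L) ∧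
      ∀ x : ℕ, |L - ∑ n ∈ (Icc 1 x).filter (Rough R), chi k n / n| ≤
        2 * (4 * k * 2 ^ R) * (1 / (x + 1)) := by
  have e0 : ∀ x : ℕ, Icc 1 x = Ioc 0 x := fun x => by ext; simp; omega
  have e1 : ∀ x : ℕ, ∑ n ∈ (Icc 1 x).filter (Rough R), chi k n / n =
      ∑ n ∈ Ioc 0 x, (if Rough R n then chi k n else 0) * (1 / (n : ℝ)) := fun x => by
    rw [e0, sum_filter]
    exact sum_congr rfl fun n _ => by split_ifs <;> simp [div_eq_mul_inv]
  simp only [e1]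
  refine rho_lim _ _ fun x => ?_
  rw [← sum_filter, ← e0]
  exact rho_lw1 hCHI k R x hk

theorem rho_split (T : Finset ℕ) (f : ℕ → ℝ) (Y : ℝ) (hY : 1 ≤ Y) (h1 : 1 ∈ T)
    (h : ∀ n ∈ T, 1 ≤ n) : ∑ n ∈ T, f n = f 1 +
      ∑ n ∈ T.filter (fun n : ℕ => 1 < n ∧ (n : ℝ) ≤ Y), f n +
      ∑ n ∈ T.filter (fun n : ℕ => Y < n), f n := by
  rw [sum_filter, sum_filter, ← if_pos (c := 1 ∈ T) (t := f 1) (e := 0) h1, ← sum_ite_eq',
    ← sum_add_distrib, ← sum_add_distrib]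
  refine sum_congr rfl fun n hn => ?_
  rcases Nat.eq_or_lt_of_le (h n hn) with h2 | h2
  · subst h2
    simp [hY]
  · rcases le_or_gt (n : ℝ) Y with h3 | h3
    · simp [h2, h2.ne', h3]
    · simp [h2.ne', h3]

theorem t_LW (hCHI : S_CHI) (hDIR : S_DIR) (hCHAR : S_CHAR) : S_LW := by
  classical
  refine ⟨rho_lw1 hCHI, fun ε hε => ?_⟩
  obtain ⟨C, hC, hD⟩ := hDIR
  obtain ⟨c, hc, hE⟩ := hCHAR (1 / 3) (by norm_num)
  obtain ⟨η, rfl⟩ : ∃ η, ε = 3 * η := ⟨ε / 3, by ring⟩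
  have hη : 0 < η := by linarith
  refine ⟨⌈(C / η ^ 3) ^ 2⌉₊ + 2, by omega, fun R hR => ?_⟩
  have hR1 : C / η ^ 3 ≤ √(R : ℝ) :=
    Real.le_sqrt_of_sq_le (Nat.ceil_le.1 (by omega))
  have hR0 : 0 < √(R : ℝ) := lt_of_lt_of_le (by positivity) hR1
  filter_upwards [hE, eventually_ge_atTop 1,
    tendsto_natCast_atTop_atTop.eventually (eventually_ge_atTop (8 * 2 ^ R / η)),
    tendsto_natCast_atTop_atTop.eventually (ev_pow (4 / η ^ 3) 0 (a := 2 / 3) (b := 1) (by norm_num)),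
    tendsto_natCast_atTop_atTop.eventually
      (ev_pow (1 / η ^ 2) 0 (a := 1 - c) (b := 1) (by linarith))] with K h1 h2 h3 h4 h5
  rw [pow_zero, mul_one, Real.rpow_one, div_mul_eq_mul_div, div_le_iff₀ (by positivity)] at h4 h5
  rw [div_le_iff₀ hη] at h3
  have hK : (1 : ℝ) ≤ K := by exact_mod_cast h2
  set Y : ℝ := (K : ℝ) ^ (1 / 3 : ℝ) with hY
  have hY1 : 1 ≤ Y := Real.one_le_rpow hK (by norm_num)
  have hY2 : Y ^ 2 = (K : ℝ) ^ (2 / 3 : ℝ) := by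
    rw [hY, ← Real.rpow_natCast, ← Real.rpow_mul (by positivity)]; norm_num
  set T := (Icc 1 (K ^ 3)).filter (Rough R) with hT
  set U : ℕ → ℝ := fun k => ∑ n ∈ T.filter (fun n : ℕ => 1 < n ∧ (n : ℝ) ≤ Y),
    1 / (n : ℝ) * chi k n with hU
  set V : ℕ → ℝ := fun k => ∑ n ∈ T.filter (fun n : ℕ => Y < n), 1 / (n : ℝ) * chi k n with hV
  have a1 : ∑ k ∈ Icc 1 K, U k ^ 2 ≤ C * K / √R + 4 * Y ^ 2 :=
    hD R K Y _ _ (by omega) fun n hn => by
      obtain ⟨n1, n2, n3⟩ := mem_filter.1 hn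
      refine ⟨n2, n3, (mem_filter.1 n1).2, ?_⟩
      rw [abs_of_nonneg (by positivity)]
      exact div_le_div_of_nonneg_right (by norm_num) (by positivity)
  have a2 : ∑ k ∈ Icc 1 K, |V k| ≤ (K : ℝ) ^ (1 - c) :=
    h1 _ _ fun n hn => by
      obtain ⟨n1, n2⟩ := mem_filter.1 hn
      exact ⟨n2, (mem_Icc.1 (mem_filter.1 n1).1).2, (abs_of_nonneg (by positivity)).le⟩
  have b1 : η ^ 2 * ((Icc 1 K).filter fun k => η ≤ |U k|).card ≤ ∑ k ∈ Icc 1 K, U k ^ 2 :=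
    markov _ _ (fun _ _ => sq_nonneg _) _ _ fun k _ hk => by
      have := pow_le_pow_left₀ hη.le hk 2
      rwa [sq_abs] at this
  have b2 : η * ((Icc 1 K).filter fun k => η ≤ |V k|).card ≤ ∑ k ∈ Icc 1 K, |V k| :=
    markov _ _ (fun _ _ => abs_nonneg _) _ _ fun k _ hk => hk
  have c1 : C * K / √R ≤ K * η ^ 3 := by
    rw [div_le_iff₀ (by positivity)] at hR1
    rw [div_le_iff₀ hR0]
    nlinarith
  have c2 : (((Icc 1 K).filter fun k => η ≤ |U k|).card : ℝ) ≤ 2 * η * K :=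
    le_of_mul_le_mul_left (a := η ^ 2) (by nlinarith) (by positivity)
  have c3 : (((Icc 1 K).filter fun k => η ≤ |V k|).card : ℝ) ≤ η * K :=
    le_of_mul_le_mul_left (a := η) (by nlinarith) hη
  refine le_trans ?_ ((add_le_add c2 c3).trans_eq (by ring))
  rw [← Nat.cast_add, Nat.cast_le]
  refine le_trans (card_le_card fun k hk => ?_) (card_union_le _ _)
  obtain ⟨k1, k2⟩ := mem_filter.1 hk
  by_contra k3
  simp only [mem_union, mem_filter, k1, true_and, not_or, not_le] at k3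
  obtain ⟨k4, k5⟩ := mem_Icc.1 k1
  obtain ⟨L, l1, l2⟩ := rho_lim2 hCHI k R k4
  refine k2 ⟨L, l1, ?_⟩
  have l3 := l2 (K ^ 3)
  have l4 : ∑ n ∈ T, chi k n / n = 1 + U k + V k := by
    rw [rho_split T _ Y hY1 (mem_filter.2 ⟨mem_Icc.2 ⟨le_rfl, Nat.one_le_pow _ _ h2⟩,
      rough_one _⟩) fun n hn => (mem_Icc.1 (mem_filter.1 hn).1).1, chi_one, Nat.cast_one, div_one]
    simp only [hU, hV, one_div_mul_eq_div]
  have l5 : 2 * (4 * (k : ℝ) * 2 ^ R) * (1 / (((K ^ 3 : ℕ) : ℝ) + 1)) ≤ η := by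
    have k6 : (k : ℝ) ≤ K := by exact_mod_cast k5
    have k7 : (K : ℝ) ^ 2 ≤ (K : ℝ) ^ 3 := pow_le_pow_right₀ hK (by norm_num)
    have k8 : (0 : ℝ) < 2 ^ R := by positivity
    rw [mul_one_div, div_le_iff₀ (by positivity)]
    push_cast
    nlinarith [mul_le_mul k6 h3 (by positivity) (by positivity)]
  rw [← hT, l4] at l3
  have l6 := abs_le.1 (l3.trans l5)
  have l7 := abs_lt.1 k3.1
  have l8 := abs_lt.1 k3.2
  rw [abs_le]
  constructor <;> linarith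

end Pool.Agent.P.MP_8be758_nt.Avg
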