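import Pool.Agent.P.MP_8be758_nt.Avg.Basic

/-! Roots of `n ^ 2 + n + k` modulo `q`. -/

namespace Pool.Agent.P.MP_8be758_nt.Avg

open Finset Real Filter Topology
open Pool.Agent.P.MP_e86632_nt (ee)

theorem root_zmod (k q : ℕ) [NeZero q] :
    rho k q = (univ.filter fun x : ZMod q => x ^ 2 + x + k = 0).card := by
  unfold rho
  refine card_bij (fun n _ => (n : ZMod q)) (fun n hn => ?_) (fun a ha b hb hab => ?_)
    fun x hx => ⟨x.val, ?_, ZMod.natCast_zmod_val x⟩
  · have := (ZMod.natCast_eq_zero_iff _ _).2 (mem_filter.1 hn).2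
    push_cast at this
    exact mem_filter.2 ⟨mem_univ _, this⟩
  · have h := (ZMod.natCast_eq_natCast_iff' a b q).1 hab
    rwa [Nat.mod_eq_of_lt (mem_range.1 (mem_filter.1 ha).1),
      Nat.mod_eq_of_lt (mem_range.1 (mem_filter.1 hb).1)] at h
  · refine mem_filter.2 ⟨mem_range.2 (ZMod.val_lt x), (ZMod.natCast_eq_zero_iff _ _).1 ?_⟩
    push_cast
    rw [ZMod.natCast_zmod_val]
    exact (mem_filter.1 hx).2

theorem root_mul (k q1 q2 : ℕ) (h : q1.Coprime q2) : rho k (q1 * q2) = rho k q1 * rho k q2 := by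
  rcases Nat.eq_zero_or_pos q1 with rfl | h1
  · simp [rho]
  rcases Nat.eq_zero_or_pos q2 with rfl | h2
  · simp [rho]
  haveI : NeZero q1 := ⟨h1.ne'⟩
  haveI : NeZero q2 := ⟨h2.ne'⟩
  haveI : NeZero (q1 * q2) := ⟨(Nat.mul_pos h1 h2).ne'⟩
  rw [root_zmod, root_zmod, root_zmod, ← card_product]
  refine card_equiv (ZMod.chineseRemainder h).toEquiv fun x => ?_
  simp only [mem_filter, mem_univ, true_and, mem_product]
  rw [← (ZMod.chineseRemainder h).map_eq_zero_iff, Prod.ext_iff]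
  simp only [map_add, map_pow, map_natCast, Prod.fst_add, Prod.snd_add, Prod.pow_fst,
    Prod.pow_snd, Prod.fst_natCast, Prod.snd_natCast, Prod.fst_zero, Prod.snd_zero]
  rfl

theorem root_prime (hCHI : S_CHI) (k p : ℕ) (hk : 1 ≤ k) (hp : p.Prime) (h2 : p ≠ 2) :
    (rho k p : ℝ) = 1 + chi k p := by
  haveI : Fact p.Prime := ⟨hp⟩
  have h0 : (2 : ZMod p) ≠ 0 := by
    intro h
    have : ((2 : ℕ) : ZMod p) = 0 := by exact_mod_cast h
    exact h2 ((Nat.prime_dvd_prime_iff_eq hp Nat.prime_two).1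
      ((ZMod.natCast_eq_zero_iff _ _).1 this))
  have h1 := legendreSym.card_sqrts p h2 (1 - 4 * (k : ℤ))
  rw [← hCHI.1 k p hk (hp.odd_of_ne_two h2), ← jacobiSym.legendreSym.to_jacobiSym, add_comm,
    root_zmod]
  have h3 : (univ.filter fun x : ZMod p => x ^ 2 + x + k = 0).card =
      ({x : ZMod p | x ^ 2 = ((1 - 4 * (k : ℤ) : ℤ) : ZMod p)} : Set (ZMod p)).toFinset.card := by
    refine card_equiv ((Equiv.mulLeft₀ 2 h0).trans (Equiv.addRight 1)) fun x => ?_
    simp only [mem_filter, mem_univ, true_and, Set.mem_toFinset, Set.mem_ofPred_eq,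
      Equiv.trans_apply, Equiv.mulLeft₀_apply, Equiv.coe_addRight]
    push_cast
    constructor
    · intro h
      linear_combination 4 * h
    · intro h
      have h4 : (2 * 2 : ZMod p) * (x ^ 2 + x + k) = 0 := by linear_combination h
      exact (mul_eq_zero.1 h4).resolve_left (mul_ne_zero h0 h0)
  rw [h3]
  exact_mod_cast h1

theorem root_two (k : ℕ) (hk : Odd k) : rho k 2 = 0 := by
  unfold rho
  rw [card_eq_zero, filter_eq_empty_iff]
  intro n hn
  obtain ⟨j, rfl⟩ := hk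
  have := mem_range.1 hn
  interval_cases n <;> omega

theorem root_sq (hCHI : S_CHI) (k b : ℕ) (hk : 1 ≤ k) (hb : Odd b) (hs : Squarefree b) :
    (rho k b : ℝ) = ∑ e ∈ b.divisors, chi k e := by
  induction b using induction_on_primes with
  | zero => exact absurd hs not_squarefree_zero
  | one => simp [rho_one, chi_one]
  | prime_mul p a hp ih =>
    obtain ⟨h1, -, h3⟩ := Nat.squarefree_mul_iff.1 hs
    obtain ⟨o1, o2⟩ := Nat.odd_mul.1 hb
    have h2 : p ≠ 2 := by
      rintro rfl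
      exact absurd o1 (by decide)
    rw [root_mul k p a h1, Nat.cast_mul, ih o2 h3, root_prime hCHI k p hk hp h2,
      Nat.divisors_mul, mul_def, sum_image h1.mul_injOn_divisors, sum_product]
    simp only [chi_mul, ← mul_sum, ← sum_mul]
    rw [hp.sum_divisors, chi_one, add_comm]

theorem root_cnt (W c m K : ℕ) (hW : 0 < W) :
    |(((Icc 1 K).filter fun k => c + k ≡ m [MOD W]).card : ℝ) - K / W| ≤ 1 := by
  have h1 : ((Icc 1 K).filter fun k => c + k ≡ m [MOD W]).card =
      ((Ioc c (c + K)).filter fun x => x ≡ m [MOD W]).card := by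
    refine card_bij (fun k _ => c + k) (fun k hk => ?_) (fun a _ b _ h => by omega)
      fun x hx => ⟨x - c, ?_, ?_⟩
    · simp only [mem_filter, mem_Icc, mem_Ioc] at hk ⊢
      exact ⟨by omega, hk.2⟩
    · simp only [mem_filter, mem_Icc, mem_Ioc] at hx ⊢
      exact ⟨by omega, by rw [show c + (x - c) = x by omega]; exact hx.2⟩
    · simp only [mem_filter, mem_Ioc] at hx
      omega
  have h2 := Nat.Ioc_filter_modEq_card c (c + K) hW m
  have hW' : (0 : ℚ) < W := by exact_mod_cast hW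
  have h3 : (((c + K : ℕ) : ℚ) - m) / W = ((c : ℚ) - m) / W + K / W := by push_cast; ring
  have h4 : (0 : ℚ) ≤ K / W := by positivity
  rw [h3, max_eq_left (sub_nonneg.2 (Int.floor_le_floor (by linarith)))] at h2
  have h5 : |(((Ioc c (c + K)).filter fun x => x ≡ m [MOD W]).card : ℚ) - K / W| ≤ 1 := by
    have h6 : (((Ioc c (c + K)).filter fun x => x ≡ m [MOD W]).card : ℚ) =
        (⌊((c : ℚ) - m) / W + K / W⌋ : ℚ) - (⌊((c : ℚ) - m) / W⌋ : ℚ) := by exact_mod_cast h2
    rw [h6, abs_le]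
    have a1 := Int.floor_le (((c : ℚ) - m) / W + K / W)
    have a2 := Int.lt_floor_add_one (((c : ℚ) - m) / W + K / W)
    have a3 := Int.floor_le (((c : ℚ) - m) / W)
    have a4 := Int.lt_floor_add_one (((c : ℚ) - m) / W)
    constructor <;> linarith
  rw [h1]
  have h7 := (Rat.cast_le (K := ℝ)).2 h5
  push_cast at h7
  exact h7

theorem root_avg (W m K : ℕ) (hW : 0 < W) : |∑ k ∈ Icc 1 K, (vr W k m : ℝ) - K| ≤ W := by
  have h1 : ∑ k ∈ Icc 1 K, (vr W k m : ℝ) = ∑ n ∈ range W,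
      (((Icc 1 K).filter fun k => n ^ 2 + n + k ≡ m [MOD W]).card : ℝ) := by
    simp only [vr, card_filter]
    push_cast
    exact sum_comm
  have hW' : (W : ℝ) ≠ 0 := by exact_mod_cast hW.ne'
  have h2 : (K : ℝ) = ∑ _n ∈ range W, (K : ℝ) / W := by
    rw [sum_const, card_range, nsmul_eq_mul, mul_div_cancel₀ _ hW']
  rw [h1, h2, ← sum_sub_distrib]
  refine (abs_sum_le_sum_abs _ _).trans ?_
  refine (sum_le_sum fun n _ => root_cnt W (n ^ 2 + n) m K hW).trans ?_
  simp

theorem t_ROOT (hCHI : S_CHI) : S_ROOT := by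
  refine ⟨root_mul, root_prime hCHI, root_two, fun k b hk hb hs => ⟨root_sq hCHI k b hk hb hs, ?_⟩,
    fun q K hq => ?_, fun W m K hW => ?_⟩
  · have h := root_sq hCHI k b hk hb hs
    have h1 : ∑ e ∈ b.divisors, chi k e ≤ ∑ _e ∈ b.divisors, (1 : ℝ) :=
      sum_le_sum fun e _ => (le_abs_self _).trans (abs_chi_le k e)
    rw [← h, sum_const, nsmul_eq_mul, mul_one] at h1
    exact_mod_cast h1
  · have h := root_avg q 0 K hq
    simp only [vr, Nat.modEq_zero_iff_dvd] at h
    exact h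
  · have h := (abs_le.1 (root_avg W m K hW)).2
    linarith

end Pool.Agent.P.MP_8be758_nt.Avg
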