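import Pool.Agent.P.MP_8be758_nt.Avg.Basic
import Pool.Agent.P.MP_e94e4b_nt.LS

/-! The large sieve and its weighted Farey form. -/

namespace Pool.Agent.P.MP_8be758_nt.Avg

open Finset Real Filter Topology
open Pool.Agent.P.MP_e86632_nt (ee)

theorem ls_ee (x : ℝ) : Pool.Agent.P.MP_e94e4b_nt.ee x = ee x := by
  unfold Pool.Agent.P.MP_e94e4b_nt.ee ee
  rw [mul_comm]

theorem ls_dual {ι : Type} (R : Finset ι) (θ : ι → ℝ) {δ H : ℝ} (I : Finset ℕ) (c : ι → ℂ)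
    (h0 : 0 < δ) (h1 : δ ≤ 1) (hH : 0 ≤ H) (hI : ∀ a ∈ I, (a : ℝ) ≤ H)
    (hs : ∀ r ∈ R, ∀ s ∈ R, r ≠ s → ∀ k : ℤ, δ ≤ |θ r - θ s - k|) :
    ∑ a ∈ I, ‖∑ r ∈ R, c r * ee (a * θ r)‖ ^ 2 ≤ 3 * (H + 1 / δ) * ∑ r ∈ R, ‖c r‖ ^ 2 := by
  have key := Pool.Agent.P.MP_e94e4b_nt.dual_large_sieve R θ c h0 hs 0 (⌊H⌋₊ + 1) ⌈1 / δ⌉₊
  simp only [ls_ee] at key
  have e1 : ∑ a ∈ I, ‖∑ r ∈ R, c r * ee (a * θ r)‖ ^ 2 ≤
      ∑ t ∈ Ico (0 : ℤ) (0 + (⌊H⌋₊ + 1 : ℕ)), ‖∑ r ∈ R, c r * ee (t * θ r)‖ ^ 2 := by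
    have : ∑ a ∈ I, ‖∑ r ∈ R, c r * ee (a * θ r)‖ ^ 2 =
        ∑ t ∈ I.map Nat.castEmbedding, ‖∑ r ∈ R, c r * ee ((t : ℤ) * θ r)‖ ^ 2 := by
      rw [sum_map]
      simp
    rw [this]
    refine sum_le_sum_of_subset_of_nonneg (fun t ht => ?_) fun _ _ _ => by positivity
    obtain ⟨a, ha, rfl⟩ := mem_map.1 ht
    have := Nat.le_floor (hI a ha)
    simp only [Nat.castEmbedding_apply, mem_Ico]
    omega
  have hd : 1 ≤ 1 / δ := by rw [le_div_iff₀ h0]; linarith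
  have e2 : 1 / δ ≤ (⌈1 / δ⌉₊ : ℝ) := Nat.le_ceil _
  have e3 : (⌈1 / δ⌉₊ : ℝ) < 1 / δ + 1 := Nat.ceil_lt_add_one (by linarith)
  have e4 : (⌊H⌋₊ : ℝ) ≤ H := Nat.floor_le hH
  rw [show ⌊H⌋₊ + 1 + ⌈1 / δ⌉₊ - 1 = ⌊H⌋₊ + ⌈1 / δ⌉₊ by omega, Nat.cast_add (R := ℝ),
    show 1 / δ ^ 2 = (1 / δ) ^ 2 by ring] at key
  have hS : 0 ≤ ∑ r ∈ R, ‖c r‖ ^ 2 := sum_nonneg fun _ _ => by positivity
  generalize (⌈1 / δ⌉₊ : ℝ) = h at *
  generalize 1 / δ = d at *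
  have hh : 0 < h := by linarith
  refine le_of_mul_le_mul_left (((mul_le_mul_of_nonneg_left e1 hh.le).trans key).trans ?_) hh
  rw [← mul_assoc]
  refine mul_le_mul_of_nonneg_right ?_ hS
  have e5 : d ^ 2 ≤ h * d := by nlinarith
  have e6 : h * (⌊H⌋₊ + h) ≤ h * (H + 2 * d) := mul_le_mul_of_nonneg_left (by linarith) hh.le
  nlinarith [mul_nonneg hh.le hH]

theorem ls_main (ι : Type) (R : Finset ι) (θ : ι → ℝ) (δ H : ℝ) (I : Finset ℕ) (γ : ℕ → ℂ)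
    (h0 : 0 < δ) (h1 : δ ≤ 1) (hH : 0 ≤ H) (hI : ∀ a ∈ I, (a : ℝ) ≤ H)
    (hs : ∀ r ∈ R, ∀ s ∈ R, r ≠ s → ∀ k : ℤ, δ ≤ |θ r - θ s - k|) :
    ∑ r ∈ R, ‖ft I γ (θ r)‖ ^ 2 ≤ 3 * (H + 1 / δ) * nsq I γ := by
  have key := ls_dual R θ I (fun r => (starRingEnd ℂ) (ft I γ (θ r))) h0 h1 hH hI hs
  simp only [Complex.norm_conj] at key
  set E := ∑ r ∈ R, ‖ft I γ (θ r)‖ ^ 2 with hE
  have hE0 : 0 ≤ E := sum_nonneg fun _ _ => by positivity
  have e1 : (E : ℂ) = ∑ a ∈ I, γ a * ∑ r ∈ R, (starRingEnd ℂ) (ft I γ (θ r)) * ee (a * θ r) := by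
    simp only [mul_sum]
    rw [sum_comm, hE, Complex.ofReal_sum]
    refine sum_congr rfl fun r _ => ?_
    rw [Complex.ofReal_pow, ← Complex.conj_mul']
    nth_rewrite 2 [ft]
    rw [mul_sum]
    exact sum_congr rfl fun a _ => by ring
  have e2 : E ≤ ∑ a ∈ I, ‖γ a‖ * ‖∑ r ∈ R, (starRingEnd ℂ) (ft I γ (θ r)) * ee (a * θ r)‖ := by
    have : E = ‖(E : ℂ)‖ := by rw [Complex.norm_real, Real.norm_of_nonneg hE0]
    rw [this, e1]
    exact (norm_sum_le _ _).trans (le_of_eq (sum_congr rfl fun a _ => norm_mul _ _))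
  have e3 := (pow_le_pow_left₀ hE0 e2 2).trans (sum_mul_sq_le_sq_mul_sq _ _ _)
  have hn := nsq_nonneg I γ
  have e4 : E ^ 2 ≤ nsq I γ * (3 * (H + 1 / δ) * E) :=
    e3.trans (mul_le_mul_of_nonneg_left key hn)
  rcases hE0.eq_or_lt with h | h
  · rw [← h]
    positivity
  · exact le_of_mul_le_mul_right (by linarith) h

theorem t_LS : S_LS := ⟨3, by norm_num, ls_main⟩

theorem ls_sep {q q' r r' : ℕ} (hr : r ∈ red q) (hr' : r' ∈ red q') (h : ¬(q = q' ∧ r = r'))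
    (k : ℤ) : 1 / ((q : ℝ) * q') ≤ |(r : ℝ) / q - r' / q' - k| := by
  obtain ⟨h1, h2⟩ := mem_filter.1 hr
  obtain ⟨h3, h4⟩ := mem_filter.1 hr'
  rw [mem_range] at h1 h3
  have hq : (0 : ℝ) < q := by exact_mod_cast (show 0 < q by omega)
  have hq' : (0 : ℝ) < q' := by exact_mod_cast (show 0 < q' by omega)
  have hne : (r : ℤ) * q' - r' * q - k * q * q' ≠ 0 := by
    intro e
    have d1 : q ∣ q' := h2.symm.dvd_of_dvd_mul_left
      (Int.natCast_dvd_natCast.1 ⟨r' + k * q', by push_cast; linear_combination e⟩)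
    have d2 : q' ∣ q := h4.symm.dvd_of_dvd_mul_left
      (Int.natCast_dvd_natCast.1 ⟨r - k * q, by push_cast; linear_combination -e⟩)
    obtain rfl := Nat.dvd_antisymm d1 d2
    have e' : (r : ℤ) - r' = q * k :=
      mul_right_cancel₀ (show (q : ℤ) ≠ 0 by omega) (by linear_combination e)
    have := Int.eq_zero_of_abs_lt_dvd ⟨k, e'⟩ (abs_lt.2 ⟨by omega, by omega⟩)
    exact h ⟨rfl, by omega⟩
  have e : (r : ℝ) / q - r' / q' - k =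
      (((r : ℤ) * q' - r' * q - k * q * q' : ℤ) : ℝ) / (q * q') := by
    push_cast
    field_simp
  rw [e, abs_div, abs_of_pos (mul_pos hq hq')]
  refine div_le_div_of_nonneg_right ?_ (mul_pos hq hq').le
  exact_mod_cast Int.one_le_abs hne

theorem ls_block (T : ℕ) (H : ℝ) (I : Finset ℕ) (γ : ℕ → ℂ) (hT : 1 ≤ T) (hH : 0 ≤ H)
    (hI : ∀ a ∈ I, (a : ℝ) ≤ H) :
    ∑ q ∈ Ioc T (2 * T), 1 / (q : ℝ) * en I γ q ≤ 3 * (H / T + 4 * T) * nsq I γ := by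
  have hT' : (1 : ℝ) ≤ T := by exact_mod_cast hT
  have key := ls_main (Σ _ : ℕ, ℕ) ((Ioc T (2 * T)).sigma red) (fun x => (x.2 : ℝ) / x.1)
    (1 / (4 * (T : ℝ) ^ 2)) H I γ (by positivity)
    (by rw [div_le_one (by positivity)]; nlinarith) hH hI (by
      rintro ⟨q, r⟩ hx ⟨q', r'⟩ hy hne k
      obtain ⟨h1, h2⟩ := mem_sigma.1 hx
      obtain ⟨h3, h4⟩ := mem_sigma.1 hy
      refine le_trans ?_ (ls_sep h2 h4 (by rintro ⟨rfl, rfl⟩; exact hne rfl) k)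
      obtain ⟨a1, a2⟩ := mem_Ioc.1 h1
      obtain ⟨a3, a4⟩ := mem_Ioc.1 h3
      have b1 : (0 : ℝ) < q := by exact_mod_cast (show 0 < q by dsimp only at a1; omega)
      have b2 : (0 : ℝ) < q' := by exact_mod_cast (show 0 < q' by dsimp only at a3; omega)
      have b3 : (q : ℝ) ≤ 2 * T := by exact_mod_cast a2
      have b4 : (q' : ℝ) ≤ 2 * T := by exact_mod_cast a4
      exact one_div_le_one_div_of_le (mul_pos b1 b2) (by nlinarith))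
  rw [sum_sigma, one_div_one_div] at key
  calc ∑ q ∈ Ioc T (2 * T), 1 / (q : ℝ) * en I γ q
      ≤ ∑ q ∈ Ioc T (2 * T), 1 / (T : ℝ) * en I γ q := sum_le_sum fun q hq =>
        mul_le_mul_of_nonneg_right (one_div_le_one_div_of_le (by positivity)
          (by exact_mod_cast (mem_Ioc.1 hq).1.le)) (en_nonneg I γ q)
    _ ≤ 1 / (T : ℝ) * (3 * (H + 4 * (T : ℝ) ^ 2) * nsq I γ) := by
        rw [← mul_sum]
        exact mul_le_mul_of_nonneg_left key (by positivity)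
    _ = _ := by field_simp

theorem ls_ind (Q' : ℕ) (H : ℝ) (I : Finset ℕ) (γ : ℕ → ℂ) (hH : 0 ≤ H)
    (hI : ∀ a ∈ I, (a : ℝ) ≤ H) (m Q : ℕ) (hQ : 1 ≤ Q) (h1 : Q ≤ 2 * Q') (h2 : Q' ≤ Q + m) :
    ∑ q ∈ Ioc Q Q', 1 / (q : ℝ) * en I γ q ≤ 3 * (2 * (H / Q) + 8 * Q' - 4 * Q) * nsq I γ := by
  have hn := nsq_nonneg I γ
  induction m generalizing Q with
  | zero =>
    have : (Q : ℝ) ≤ 2 * Q' := by exact_mod_cast h1
    have h3 : 0 ≤ H / Q := by positivity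
    rw [Ioc_eq_empty (by omega), sum_empty]
    exact mul_nonneg (by linarith) hn
  | succ m ih =>
    rcases le_or_gt Q' Q with h | h
    · exact ih Q hQ h1 (by omega)
    have e1 := ih (2 * Q) (by omega) (by omega) (by omega)
    have e2 := ls_block Q H I γ hQ hH hI
    have e3 : ∑ q ∈ Ioc Q Q', 1 / (q : ℝ) * en I γ q ≤
        ∑ q ∈ Ioc Q (2 * Q), 1 / (q : ℝ) * en I γ q +
          ∑ q ∈ Ioc (2 * Q) Q', 1 / (q : ℝ) * en I γ q := by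
      rw [← sum_union (disjoint_left.2 fun q a b => by rw [mem_Ioc] at a b; omega)]
      refine sum_le_sum_of_subset_of_nonneg (fun q hq => ?_)
        fun q _ _ => mul_nonneg (by positivity) (en_nonneg I γ q)
      simp only [mem_union, mem_Ioc] at hq ⊢
      omega
    have e4 : H / ((2 * Q : ℕ) : ℝ) = H / Q / 2 := by push_cast; ring
    rw [e4] at e1
    push_cast at e1
    linarith

theorem t_LSW : S_LSW := by
  refine ⟨24, by norm_num, fun Q Q' H I γ hQ hH hI => ?_⟩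
  have hn := nsq_nonneg I γ
  have h3 : 0 ≤ H / Q := by positivity
  rcases le_or_gt Q' Q with h | h
  · rw [Ioc_eq_empty (by omega), sum_empty]
    positivity
  · refine (ls_ind Q' H I γ hH hI Q' Q hQ (by omega) (by omega)).trans
      (mul_le_mul_of_nonneg_right ?_ hn)
    have : (0 : ℝ) ≤ Q := Nat.cast_nonneg Q
    linarith

end Pool.Agent.P.MP_8be758_nt.Avg
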