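import Pool.Agent.P.MP_8be758_nt.Avg.Basic

/-! Long character sums on average over the discriminant. -/

namespace Pool.Agent.P.MP_8be758_nt.Avg

open Finset Real Filter Topology
open Pool.Agent.P.MP_e86632_nt (ee)

/-- pairs whose product character is principal -/
def char_sq (K : ℕ) : Finset (ℕ × ℕ) :=
  (Icc 1 K ×ˢ Icc 1 K).filter fun p => IsSquare ((4 * p.1 - 1) * (4 * p.2 - 1))

theorem char_card (hDIV : S_DIV) : ∃ C : ℝ, 0 < C ∧ ∀ K : ℕ,
    ((char_sq K).card : ℝ) ≤ C * (K : ℝ) ^ (3 / 2 : ℝ) := by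
  obtain ⟨C, hC, h⟩ := hDIV (1 / 4) (by norm_num)
  refine ⟨8 * C, by positivity, fun K => ?_⟩
  have h1 : (char_sq K).card ≤ ((Icc 1 (4 * K)).sigma fun t => (t ^ 2).divisors).card := by
    have key : ∀ p ∈ char_sq K, 1 ≤ p.1 ∧ p.1 ≤ K ∧ 1 ≤ p.2 ∧ p.2 ≤ K ∧
        Nat.sqrt ((4 * p.1 - 1) * (4 * p.2 - 1)) ^ 2 = (4 * p.1 - 1) * (4 * p.2 - 1) := by
      intro p hp
      simp only [char_sq, mem_filter, mem_product, mem_Icc] at hp
      obtain ⟨⟨⟨a1, a2⟩, a3, a4⟩, r, hr⟩ := hp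
      refine ⟨a1, a2, a3, a4, ?_⟩
      rw [hr, Nat.sqrt_eq, sq]
    refine card_le_card_of_injOn
      (fun p => ⟨Nat.sqrt ((4 * p.1 - 1) * (4 * p.2 - 1)), 4 * p.1 - 1⟩) (fun p hp => ?_)
      fun p hp q hq e => ?_
    · obtain ⟨a1, a2, a3, a4, a5⟩ := key p hp
      have h0 : 0 < (4 * p.1 - 1) * (4 * p.2 - 1) := Nat.mul_pos (by omega) (by omega)
      have h2 : (4 * p.1 - 1) * (4 * p.2 - 1) ≤ (4 * K) ^ 2 := by
        rw [sq]; exact Nat.mul_le_mul (by omega) (by omega)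
      simp only [coe_sigma, Set.mem_sigma_iff, mem_coe, mem_Icc, Nat.mem_divisors, a5]
      refine ⟨⟨Nat.sqrt_pos.2 h0, ?_⟩, dvd_mul_right _ _, h0.ne'⟩
      rw [← a5] at h2
      exact (Nat.pow_le_pow_iff_left two_ne_zero).1 h2
    · obtain ⟨a1, -, a3, -, a5⟩ := key p hp
      obtain ⟨b1, -, b3, -, b5⟩ := key q hq
      simp only [Sigma.mk.injEq, heq_eq_eq] at e
      rw [e.1, b5, ← e.2] at a5
      have := Nat.eq_of_mul_eq_mul_left (by omega) a5
      exact Prod.ext (by omega) (by omega)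
  rw [card_sigma] at h1
  have hK : (0 : ℝ) ≤ K := Nat.cast_nonneg K
  have h2 : ∀ t ∈ Icc 1 (4 * K), (((t ^ 2).divisors.card : ℕ) : ℝ) ≤
      2 * C * (K : ℝ) ^ (1 / 2 : ℝ) := by
    intro t ht
    refine (h _).trans ?_
    have h3 : ((t ^ 2 : ℕ) : ℝ) ≤ 2 ^ 4 * K ^ 2 := by
      have : (t : ℝ) ≤ 4 * K := by exact_mod_cast (mem_Icc.1 ht).2
      push_cast
      nlinarith [Nat.cast_nonneg (α := ℝ) t]
    have h4 := Real.rpow_le_rpow (Nat.cast_nonneg _) h3 (by norm_num : (0 : ℝ) ≤ 1 / 4)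
    rw [Real.mul_rpow (by positivity) (by positivity), ← Real.rpow_natCast, ← Real.rpow_natCast,
      ← Real.rpow_mul (by norm_num), ← Real.rpow_mul hK] at h4
    norm_num at h4 ⊢
    nlinarith
  calc ((char_sq K).card : ℝ) ≤ ∑ t ∈ Icc 1 (4 * K), (((t ^ 2).divisors.card : ℕ) : ℝ) := by
        exact_mod_cast h1
    _ ≤ (4 * K) * (2 * C * (K : ℝ) ^ (1 / 2 : ℝ)) := by
        refine (sum_le_card_nsmul _ _ _ h2).trans_eq ?_
        simp
    _ = 8 * C * (K : ℝ) ^ (3 / 2 : ℝ) := by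
        rw [show (3 / 2 : ℝ) = 1 + 1 / 2 by norm_num, Real.rpow_add' hK (by norm_num),
          Real.rpow_one]
        ring

theorem char_dual (hCHI : S_CHI) (K M : ℕ) (a : ℕ → ℝ) (ha : ∀ k, |a k| ≤ 1) :
    ∑ m ∈ Icc 1 M, (∑ k ∈ Icc 1 K, a k * chi k m) ^ 2 ≤ M * (char_sq K).card + 16 * (K : ℝ) ^ 4 := by
  have e : ∑ m ∈ Icc 1 M, (∑ k ∈ Icc 1 K, a k * chi k m) ^ 2 =
      ∑ p ∈ Icc 1 K ×ˢ Icc 1 K, a p.1 * a p.2 * ∑ m ∈ Icc 1 M, chi p.1 m * chi p.2 m := by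
    simp only [mul_sum]
    rw [sum_comm]
    refine sum_congr rfl fun m _ => ?_
    rw [sq, sum_mul_sum, ← sum_product']
    exact sum_congr rfl fun p _ => by ring
  have h1 : ∀ p ∈ Icc 1 K ×ˢ Icc 1 K, a p.1 * a p.2 * ∑ m ∈ Icc 1 M, chi p.1 m * chi p.2 m ≤
      (if IsSquare ((4 * p.1 - 1) * (4 * p.2 - 1)) then (M : ℝ) else 0) + 16 * (K : ℝ) ^ 2 := by
    intro p hp
    simp only [mem_product, mem_Icc] at hp
    have h2 : a p.1 * a p.2 * ∑ m ∈ Icc 1 M, chi p.1 m * chi p.2 m ≤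
        |∑ m ∈ Icc 1 M, chi p.1 m * chi p.2 m| := by
      refine (le_abs_self _).trans ?_
      rw [abs_mul, abs_mul]
      exact mul_le_of_le_one_left (abs_nonneg _) (mul_le_one₀ (ha _) (abs_nonneg _) (ha _))
    refine h2.trans ?_
    split_ifs with h
    · refine (abs_sum_le_sum_abs _ _).trans ((sum_le_card_nsmul _ _ 1 fun m _ => ?_).trans ?_)
      · rw [abs_mul]
        exact mul_le_one₀ (abs_chi_le _ _) (abs_nonneg _) (abs_chi_le _ _)
      · simp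
    · refine (hCHI.2.1 _ _ M hp.1.1 hp.2.1 h).trans ?_
      have b1 : (p.1 : ℝ) ≤ K := by exact_mod_cast hp.1.2
      have b2 : (p.2 : ℝ) ≤ K := by exact_mod_cast hp.2.2
      have := mul_le_mul b1 b2 (Nat.cast_nonneg _) (Nat.cast_nonneg _)
      nlinarith
  rw [e]
  refine (sum_le_sum h1).trans_eq ?_
  rw [sum_add_distrib, ← sum_filter, sum_const, sum_const, card_product, Nat.card_Icc]
  simp only [char_sq, nsmul_eq_mul, Nat.add_sub_cancel, Nat.cast_mul]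
  ring

theorem char_abel (b : ℕ → ℝ) (hb : ∀ n, 0 ≤ b n) {N : ℝ} (hN : 0 ≤ N) {Y : ℕ} (hY : 1 ≤ Y)
    (h : ∀ n, Y ≤ n → ∑ m ∈ Icc 1 n, b m ≤ n * N) (X : ℕ) :
    ∑ n ∈ Ioc Y X, b n / n ≤ N * (1 + ∑ n ∈ Ioc Y X, 1 / (n : ℝ)) := by
  rcases lt_or_ge X Y with hX | hX
  · simpa [Ioc_eq_empty_of_le hX.le] using hN
  have key : ∑ n ∈ Ioc Y X, b n / n ≤
      (∑ m ∈ Icc 1 X, b m) / X + N * ∑ n ∈ Ioc Y X, 1 / (n : ℝ) := by
    induction X, hX using Nat.le_induction with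
    | base =>
      simp only [Ioc_self, sum_empty, mul_zero, add_zero]
      exact div_nonneg (sum_nonneg fun _ _ => hb _) (Nat.cast_nonneg _)
    | succ X hX ih =>
      rw [sum_Ioc_succ_top hX, sum_Ioc_succ_top hX, sum_Icc_succ_top (by omega)]
      have h0 : (0 : ℝ) < X := by exact_mod_cast (by omega : 0 < X)
      have h1 := h X hX
      have h2 : (∑ m ∈ Icc 1 X, b m) / X ≤ (∑ m ∈ Icc 1 X, b m) / (X + 1) + N / (X + 1) := by
        rw [← add_div, div_le_div_iff₀ h0 (by positivity)]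
        nlinarith
      push_cast
      rw [add_div, mul_add, mul_one_div]
      linarith
  have h0 : (0 : ℝ) < X := by exact_mod_cast (by omega : 0 < X)
  have h1 : (∑ m ∈ Icc 1 X, b m) / X ≤ N := by
    rw [div_le_iff₀ h0, mul_comm]; exact h X hX
  linarith

theorem char_harm (Y X : ℕ) : ∑ n ∈ Ioc Y X, 1 / (n : ℝ) ≤ 1 + Real.log X := by
  refine le_trans ?_ (harmonic_le_one_add_log X)
  rw [harmonic_eq_sum_Icc]
  push_cast
  simp only [one_div]
  exact sum_le_sum_of_subset_of_nonneg (fun n hn => by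
    simp only [mem_Ioc, mem_Icc] at hn ⊢; omega) fun _ _ _ => by positivity

/-- the weighted first moment of the dual sums -/
theorem char_first (hCHI : S_CHI) {K : ℕ} (hK : 1 ≤ K) (X : ℕ) (a : ℕ → ℝ) (ha : ∀ k, |a k| ≤ 1)
    {A : ℝ} (hA : 0 ≤ A) (h : (char_sq K).card + 16 * (K : ℝ) ≤ A ^ 2) :
    ∑ n ∈ Ioc (K ^ 3) X, |∑ k ∈ Icc 1 K, a k * chi k n| / n ≤ A * (2 + Real.log X) := by
  have h1 := char_abel (fun n => (∑ k ∈ Icc 1 K, a k * chi k n) ^ 2) (fun _ => sq_nonneg _)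
    (sq_nonneg A) (Nat.one_le_pow 3 K hK) (fun n hn => by
      refine (char_dual hCHI K n a ha).trans ?_
      have h2 : (K : ℝ) ^ 3 ≤ n := by exact_mod_cast hn
      have h3 : (0 : ℝ) ≤ K := Nat.cast_nonneg K
      have h4 := mul_le_mul_of_nonneg_left h (Nat.cast_nonneg (α := ℝ) n)
      nlinarith [mul_le_mul_of_nonneg_left h2 h3]) X
  have h2 := char_harm (K ^ 3) X
  have h3 : 0 ≤ ∑ n ∈ Ioc (K ^ 3) X, 1 / (n : ℝ) := sum_nonneg fun _ _ => by positivity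
  have h4 := sum_sq_le_sum_mul_sum_of_sq_le_mul (Ioc (K ^ 3) X)
    (r := fun n => |∑ k ∈ Icc 1 K, a k * chi k n| / n) (f := fun n => 1 / (n : ℝ))
    (g := fun n => (∑ k ∈ Icc 1 K, a k * chi k n) ^ 2 / n) (fun _ _ => by positivity)
    (fun _ _ => by positivity) fun n _ => by rw [div_pow, sq_abs]; exact le_of_eq (by ring)
  refine (abs_le_of_sq_le_sq' (h4.trans ?_) (mul_nonneg hA (by linarith))).2
  generalize ∑ n ∈ Ioc (K ^ 3) X, 1 / (n : ℝ) = H at *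
  refine (mul_le_mul_of_nonneg_left h1 h3).trans ?_
  rw [mul_pow, mul_left_comm]
  exact mul_le_mul_of_nonneg_left (by nlinarith) (sq_nonneg A)

theorem char_prod (k : ℕ) {ι : Type} (s : Finset ι) (f : ι → ℕ) :
    chi k (∏ i ∈ s, f i) = ∏ i ∈ s, chi k (f i) := by
  classical
  induction s using Finset.induction_on with
  | empty => simpa using chi_one k
  | insert i s hi ih => rw [prod_insert hi, prod_insert hi, chi_mul, ih]

/-- expansion of the `j`-th power -/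
theorem char_pow (K j Y X : ℕ) (S : Finset ℕ) (γ a : ℕ → ℝ) (hγ : ∀ m ∈ S, |γ m| ≤ 1 / m)
    (hS : ∀ f ∈ Fintype.piFinset fun _ : Fin j => S, ∏ i, f i ∈ Ioc Y X) {T : ℝ}
    (hT : ∀ n ∈ Ioc Y X, (n.divisors.card : ℝ) ^ j ≤ T) :
    ∑ k ∈ Icc 1 K, a k * (∑ m ∈ S, γ m * chi k m) ^ j ≤
      T * ∑ n ∈ Ioc Y X, |∑ k ∈ Icc 1 K, a k * chi k n| / n := by
  have e : ∑ k ∈ Icc 1 K, a k * (∑ m ∈ S, γ m * chi k m) ^ j =
      ∑ f ∈ Fintype.piFinset fun _ : Fin j => S,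
        (∏ i, γ (f i)) * ∑ k ∈ Icc 1 K, a k * chi k (∏ i, f i) := by
    simp only [sum_pow', mul_sum, prod_mul_distrib, char_prod]
    rw [sum_comm]
    exact sum_congr rfl fun f _ => sum_congr rfl fun k _ => by ring
  have h1 : ∀ f ∈ Fintype.piFinset fun _ : Fin j => S,
      (∏ i, γ (f i)) * ∑ k ∈ Icc 1 K, a k * chi k (∏ i, f i) ≤
        |∑ k ∈ Icc 1 K, a k * chi k (∏ i, f i)| / ((∏ i, f i : ℕ) : ℝ) := by
    intro f hf
    refine (le_abs_self _).trans ?_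
    rw [abs_mul, div_eq_inv_mul, Finset.abs_prod, Nat.cast_prod, ← prod_inv_distrib]
    refine mul_le_mul_of_nonneg_right (prod_le_prod (fun _ _ => abs_nonneg _) fun i _ => ?_)
      (abs_nonneg _)
    simpa using hγ _ (Fintype.mem_piFinset.1 hf i)
  rw [e, mul_sum]
  refine (sum_le_sum h1).trans ?_
  rw [← sum_fiberwise_of_maps_to' hS fun n => |∑ k ∈ Icc 1 K, a k * chi k n| / (n : ℝ)]
  refine sum_le_sum fun n hn => ?_
  rw [sum_const, nsmul_eq_mul]
  refine mul_le_mul_of_nonneg_right (le_trans ?_ (hT n hn)) (by positivity)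
  rw [← Nat.cast_pow, Nat.cast_le, ← Fintype.card_piFinset_const]
  refine card_le_card fun f hf => Fintype.mem_piFinset.2 fun i => Nat.mem_divisors.2 ⟨?_, ?_⟩
  · rw [← (mem_filter.1 hf).2]
    exact dvd_prod_of_mem _ (mem_univ i)
  · have := (mem_Ioc.1 hn).1
    omega

theorem t_CHAR (hCHI : S_CHI) (hDIV : S_DIV) : S_CHAR := by
  intro e he
  obtain ⟨i, hi⟩ := exists_nat_ge (3 / e)
  have hj : (0 : ℝ) < (i + 1 : ℕ) := by positivity
  have hje : 3 ≤ e * (i + 1 : ℕ) := by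
    rw [div_le_iff₀ he] at hi
    push_cast
    nlinarith
  generalize hjj : i + 1 = j at hj hje
  obtain ⟨C1, hC1, h1⟩ := char_card hDIV
  obtain ⟨C2, hC2, h2⟩ := hDIV (1 / (24 * (j : ℝ) ^ 2)) (by positivity)
  refine ⟨1 / (16 * j), by positivity, ?_⟩
  have ev := tendsto_natCast_atTop_atTop.eventually
    ((ev_pow (C2 ^ j * (C1 + 16) * (2 + 3 * j)) 1 (a := 7 / 8) (b := 15 / 16) (by norm_num)).and
      (ev_log 1))
  filter_upwards [ev, eventually_ge_atTop 1] with K ⟨hK1, hK2⟩ hK S γ hS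
  have hK' : (1 : ℝ) ≤ K := by exact_mod_cast hK
  have hK0 : (0 : ℝ) < K := by linarith
  let F : ℕ → ℝ := fun k => ∑ m ∈ S, γ m * chi k m
  let a : ℕ → ℝ := fun k => if 0 ≤ F k ^ j then 1 else -1
  have ha : ∀ k, |a k| ≤ 1 := fun k => by
    simp only [a]
    split_ifs <;> simp
  have ha' : ∀ k, |F k| ^ j = a k * F k ^ j := fun k => by
    rw [← abs_pow]
    simp only [a]
    split_ifs with h
    · rw [abs_of_nonneg h, one_mul]
    · rw [abs_of_neg (not_le.1 h), neg_one_mul]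
  have h3 := char_pow K j (K ^ 3) (K ^ (3 * j)) S γ a (fun m hm => (hS m hm).2.2) (fun f hf => by
      have hf' := fun i => hS _ (Fintype.mem_piFinset.1 hf i)
      refine mem_Ioc.2 ⟨?_, ?_⟩
      · have : Nonempty (Fin j) := ⟨⟨0, by omega⟩⟩
        have h4 := prod_lt_prod_of_nonempty (s := (univ : Finset (Fin j)))
          (f := fun _ => (K : ℝ) ^ e) (g := fun i => (f i : ℝ)) (fun _ _ => by positivity)
          (fun i _ => (hf' i).1) univ_nonempty
        rw [prod_const, card_univ, Fintype.card_fin, ← Real.rpow_natCast,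
          ← Real.rpow_mul hK0.le] at h4
        have h5 := (Real.rpow_le_rpow_of_exponent_le hK' hje).trans_lt h4
        rw [show (3 : ℝ) = (3 : ℕ) by norm_num, Real.rpow_natCast] at h5
        exact_mod_cast h5
      · refine (prod_le_pow_card _ _ _ fun i _ => (hf' i).2.1).trans_eq ?_
        rw [card_univ, Fintype.card_fin, pow_mul])
    (T := C2 ^ j * (K : ℝ) ^ (1 / 8 : ℝ)) fun n hn => by
      have h4 : (n : ℝ) ≤ (K : ℝ) ^ ((3 * j : ℕ) : ℝ) := by
        rw [Real.rpow_natCast]; exact_mod_cast (mem_Ioc.1 hn).2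
      have h5 := Real.rpow_le_rpow (Nat.cast_nonneg _) h4
        (by positivity : (0 : ℝ) ≤ 1 / (24 * (j : ℝ) ^ 2))
      refine (pow_le_pow_left₀ (Nat.cast_nonneg _)
        ((h2 n).trans (mul_le_mul_of_nonneg_left h5 hC2.le)) j).trans_eq ?_
      rw [mul_pow, ← Real.rpow_mul hK0.le, ← Real.rpow_natCast _ j, ← Real.rpow_natCast _ j,
        ← Real.rpow_mul hK0.le]
      congr 2
      push_cast
      field_simp
      norm_num
  have h4 := char_first hCHI hK (K ^ (3 * j)) a ha (A := (C1 + 16) * (K : ℝ) ^ (3 / 4 : ℝ))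
    (by positivity) (by
      have h5 := Real.rpow_le_rpow_of_exponent_le hK' (by norm_num : (1 : ℝ) ≤ 3 / 2)
      rw [Real.rpow_one] at h5
      rw [mul_pow, ← Real.rpow_natCast _ 2, ← Real.rpow_natCast _ 2, ← Real.rpow_mul hK0.le,
        show (3 / 4 : ℝ) * (2 : ℕ) = 3 / 2 by norm_num, Real.rpow_natCast]
      have h6 : 0 < (K : ℝ) ^ (3 / 2 : ℝ) := by positivity
      nlinarith [h1 K, mul_pos hC1 h6, mul_pos (mul_pos hC1 hC1) h6])
  have h5 : ∑ k ∈ Icc 1 K, |F k| ^ j ≤ (K : ℝ) ^ (15 / 16 : ℝ) := by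
    simp only [ha']
    refine h3.trans ((mul_le_mul_of_nonneg_left h4 (by positivity)).trans (le_trans ?_ hK1))
    rw [Nat.cast_pow, Real.log_pow, show (7 / 8 : ℝ) = 1 / 8 + 3 / 4 by norm_num,
      Real.rpow_add hK0, pow_one]
    have h6 : 2 + ((3 * j : ℕ) : ℝ) * Real.log K ≤ (2 + 3 * j) * Real.log K := by
      push_cast
      nlinarith
    calc _ = (C2 ^ j * (C1 + 16) * ((K : ℝ) ^ (1 / 8 : ℝ) * (K : ℝ) ^ (3 / 4 : ℝ))) *
          (2 + ((3 * j : ℕ) : ℝ) * Real.log K) := by ring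
      _ ≤ _ := (mul_le_mul_of_nonneg_left h6 (by positivity)).trans_eq (by ring)
  have h6 := pow_sum_le_card_mul_sum_pow (s := Icc 1 K) (f := fun k => |F k|)
    (fun _ _ => abs_nonneg _) i
  rw [hjj, Nat.card_Icc, Nat.add_sub_cancel] at h6
  refine le_of_pow_le_pow_left₀ (n := j) (by omega) (by positivity)
    (h6.trans ((mul_le_mul_of_nonneg_left h5 (by positivity)).trans_eq ?_))
  rw [← Real.rpow_natCast _ i, ← Real.rpow_natCast _ j, ← Real.rpow_mul hK0.le,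
    ← Real.rpow_add hK0]
  congr 1
  have : (j : ℝ) = i + 1 := by rw [← hjj]; push_cast; ring
  field_simp
  rw [this]
  ring

end Pool.Agent.P.MP_8be758_nt.Avg
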