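import Pool.Agent.P.MP_8be758_nt.Avg.Basic

/-! Three counting bounds. -/

namespace Pool.Agent.P.MP_8be758_nt.Avg

open Finset Real Filter Topology
open Pool.Agent.P.MP_e86632_nt (ee)
open ArithmeticFunction (vonMangoldt)

theorem cnt_shift {C : ℝ} (h : ∀ (z x H : ℝ) (S : Finset ℕ), 2 ≤ z → z ^ 5 ≤ H →
    (∀ m ∈ S, x < m ∧ (m : ℝ) ≤ x + H ∧ Rough z m) → (S.card : ℝ) ≤ C * H / Real.log z)
    {z : ℝ} {K : ℕ} (hz : 2 ≤ z) (hK : z ^ 5 ≤ K) (x : ℕ) :
    (((Icc 1 K).filter fun k => Rough z (x + k)).card : ℝ) ≤ C * K / Real.log z := by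
  rw [← card_image_of_injective _ (add_right_injective x)]
  refine h z x K _ hz hK fun m hm => ?_
  obtain ⟨k, hk, rfl⟩ := mem_image.1 hm
  obtain ⟨h1, h2⟩ := mem_filter.1 hk
  obtain ⟨h3, h4⟩ := mem_Icc.1 h1
  refine ⟨?_, ?_, h2⟩
  · exact_mod_cast (by omega : x < x + k)
  · exact_mod_cast (by omega : x + k ≤ x + K)

theorem cnt_one {C : ℝ} (hC : 0 < C) (h : ∀ (z x H : ℝ) (S : Finset ℕ), 2 ≤ z → z ^ 5 ≤ H →
    (∀ m ∈ S, x < m ∧ (m : ℝ) ≤ x + H ∧ Rough z m) → (S.card : ℝ) ≤ C * H / Real.log z)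
    (hv : ∀ W m K : ℕ, 0 < W → ∑ k ∈ Icc 1 K, (vr W k m : ℝ) ≤ K + W)
    (z N : ℝ) (K W X1 X2 : ℕ) (hz : 2 ≤ z) (hK : z ^ 5 ≤ K) (hN5 : z ^ 5 ≤ N ^ 2) (hW : 1 ≤ W)
    (hWK : W ≤ K) (hN : 1 ≤ N) (h1 : N ^ 2 ≤ X1) (h2 : (X2 : ℝ) ≤ 6 / 5 * N ^ 2) :
    ∑ k ∈ Icc 1 K, ∑ m ∈ (Ioc X1 X2).filter (Rough z), |dd W k m| ≤
      4 * C * K * N / Real.log z := by
  have hl : 0 < Real.log z := Real.log_pos (by linarith)
  have a1 : ∑ k ∈ Icc 1 K, ∑ m ∈ (Ioc X1 X2).filter (Rough z), rr k m ≤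
      3 * N * (C * K / Real.log z) := by
    have b1 : ∀ k ∈ Icc 1 K, ∑ m ∈ (Ioc X1 X2).filter (Rough z), rr k m ≤
        ∑ n ∈ range ⌈2 * N⌉₊, if Rough z (n ^ 2 + n + k) then (1 : ℝ) else 0 := by
      intro k _
      rw [sum_congr rfl fun m hm => rr_eq_sum k m (range ⌈2 * N⌉₊) fun n hn => ?_, sum_comm]
      · refine sum_le_sum fun n _ => ?_
        rw [sum_ite_eq]
        split_ifs with c1 c2
        · exact le_rfl
        · exact absurd (mem_filter.1 c1).2 c2
        · exact zero_le_one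
        · exact le_rfl
      · rw [mem_range, Nat.lt_ceil]
        have c1 : n ^ 2 ≤ X2 := by have := (mem_Ioc.1 (mem_filter.1 hm).1).2; omega
        have c2 : (n : ℝ) ^ 2 ≤ X2 := by exact_mod_cast c1
        by_contra c3
        nlinarith [not_lt.1 c3]
    refine (sum_le_sum b1).trans ?_
    rw [sum_comm]
    refine (sum_le_card_nsmul _ _ (C * K / Real.log z) fun n _ => ?_).trans ?_
    · rw [sum_boole]; exact cnt_shift h hz hK _
    · rw [card_range, nsmul_eq_mul]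
      refine mul_le_mul_of_nonneg_right ?_ (by positivity)
      have := Nat.ceil_lt_add_one (show 0 ≤ 2 * N by linarith)
      linarith
  have a2 : ∑ k ∈ Icc 1 K, ∑ m ∈ (Ioc X1 X2).filter (Rough z), md W k m ≤
      (C * N ^ 2 / Real.log z) * (K / N) := by
    rw [sum_comm]
    refine (sum_le_card_nsmul _ _ (K / N) fun m hm => ?_).trans ?_
    · simp only [md]
      rw [← sum_div]
      have c1 : (X1 : ℝ) < m := by exact_mod_cast (mem_Ioc.1 (mem_filter.1 hm).1).1
      have c2 : N ≤ √(m : ℝ) := Real.le_sqrt_of_sq_le (by linarith)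
      have c3 : (W : ℝ) ≤ K := by exact_mod_cast hWK
      have c4 := hv W m K hW
      calc _ ≤ (2 * K) / (2 * N) := by gcongr; linarith
        _ = _ := by field_simp
    · rw [nsmul_eq_mul]
      refine mul_le_mul_of_nonneg_right (h z (N ^ 2) (N ^ 2) _ hz hN5 fun m hm => ?_) (by positivity)
      obtain ⟨c1, c2⟩ := mem_filter.1 hm
      have c3 : (X1 : ℝ) < m := by exact_mod_cast (mem_Ioc.1 c1).1
      have c4 : (m : ℝ) ≤ X2 := by exact_mod_cast (mem_Ioc.1 c1).2
      exact ⟨by linarith, by nlinarith, c2⟩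
  calc _ ≤ ∑ k ∈ Icc 1 K, ∑ m ∈ (Ioc X1 X2).filter (Rough z), (rr k m + md W k m) :=
        sum_le_sum fun k _ => sum_le_sum fun m _ => abs_dd_le W k m
    _ ≤ 3 * N * (C * K / Real.log z) + (C * N ^ 2 / Real.log z) * (K / N) := by
        simp only [sum_add_distrib]; exact add_le_add a1 a2
    _ = _ := by field_simp; ring

theorem cnt_rr (K m : ℕ) : ∑ k ∈ Icc 1 K, rr k m ≤ √(K : ℝ) + 1 := by
  set T := (range (m + 1)).filter fun n => m ≤ n ^ 2 + n + K ∧ n ^ 2 + n < m with hT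
  have h1 : ∑ k ∈ Icc 1 K, rr k m ≤ T.card := by
    rw [sum_congr rfl fun k _ => rr_eq_sum k m (range (m + 1)) fun n hn =>
      mem_range.2 (by omega), sum_comm, hT, ← sum_boole]
    refine sum_le_sum fun n _ => ?_
    split_ifs with c
    · rw [sum_boole]
      exact_mod_cast card_le_one.2 fun a ha b hb => by
        have := (mem_filter.1 ha).2
        have := (mem_filter.1 hb).2
        omega
    · refine (sum_eq_zero fun k hk => if_neg fun e => c ?_).le
      have := mem_Icc.1 hk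
      omega
  refine h1.trans ?_
  rcases T.eq_empty_or_nonempty with e | e
  · rw [e]; simp; positivity
  · have h2 : T ⊆ Icc (T.min' e) (T.min' e + Nat.sqrt K) := fun n hn => by
      have c1 : T.min' e ≤ n := T.min'_le n hn
      have c2 := (mem_filter.1 (T.min'_mem e)).2.1
      have c3 := (mem_filter.1 hn).2.2
      obtain ⟨d, rfl⟩ := Nat.exists_eq_add_of_le c1
      refine mem_Icc.2 ⟨c1, Nat.add_le_add_left (Nat.le_sqrt'.2 ?_) _⟩
      nlinarith
    have h3 := card_le_card h2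
    rw [Nat.card_Icc, show T.min' e + K.sqrt + 1 - T.min' e = K.sqrt + 1 by omega] at h3
    have h4 : (T.card : ℝ) ≤ K.sqrt + 1 := by exact_mod_cast h3
    linarith [Real.nat_sqrt_le_real_sqrt (a := K)]

theorem cnt_two (N : ℝ) (K X1 X2 : ℕ) (hN : 2 ≤ N) (h2 : (X2 : ℝ) ≤ 6 / 5 * N ^ 2) :
    ∑ k ∈ Icc 1 K, ∑ m ∈ (Ioc X1 X2).filter (fun m => ¬ m.Prime), vonMangoldt m * rr k m ≤
      12 * (√(K : ℝ) + 1) * N * Real.log N := by
  have hl : 0 < Real.log N := Real.log_pos (by linarith)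
  have a1 : ∑ m ∈ (Ioc X1 X2).filter (fun m => ¬ m.Prime), vonMangoldt m ≤
      12 * N * Real.log N := by
    rcases Nat.eq_zero_or_pos X2 with rfl | h0
    · simp; positivity
    have c0 : (1 : ℝ) ≤ X2 := by exact_mod_cast h0
    have c1 := Chebyshev.psi_sub_theta_le c0
    rw [Chebyshev.psi_sub_theta_eq_sum_not_prime, Nat.floor_natCast] at c1
    refine (sum_le_sum_of_subset_of_nonneg (filter_subset_filter _ (Ioc_subset_Ioc_left
      (Nat.zero_le _))) fun _ _ _ => ArithmeticFunction.vonMangoldt_nonneg).trans (c1.trans ?_)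
    have c2 : √(X2 : ℝ) ≤ 2 * N := Real.sqrt_le_iff.2 ⟨by linarith, by nlinarith⟩
    have c3 : Real.log X2 ≤ 3 * Real.log N := by
      have : Real.log (N ^ 3) = 3 * Real.log N := by rw [Real.log_pow]; norm_num
      rw [← this]
      exact Real.log_le_log (by linarith) (by nlinarith)
    have c4 := Real.log_nonneg c0
    calc 2 * √(X2 : ℝ) * Real.log X2 ≤ 2 * (2 * N) * (3 * Real.log N) := by gcongr
      _ = _ := by ring
  rw [sum_comm]
  calc _ ≤ ∑ m ∈ (Ioc X1 X2).filter (fun m => ¬ m.Prime), vonMangoldt m * (√(K : ℝ) + 1) :=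
        sum_le_sum fun m _ => by
          rw [← mul_sum]
          exact mul_le_mul_of_nonneg_left (cnt_rr K m) ArithmeticFunction.vonMangoldt_nonneg
    _ ≤ 12 * N * Real.log N * (√(K : ℝ) + 1) := by
        rw [← sum_mul]; exact mul_le_mul_of_nonneg_right a1 (by positivity)
    _ = _ := by ring

theorem cnt_three {C : ℝ} (h : ∀ (z x H : ℝ) (S : Finset ℕ), 2 ≤ z → z ^ 5 ≤ H →
    (∀ m ∈ S, x < m ∧ (m : ℝ) ≤ x + H ∧ Rough z m) → (S.card : ℝ) ≤ C * H / Real.log z)
    (K x0 : ℕ) (hK : 32 ≤ K) :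
    ∑ k ∈ Icc 1 K, (((range x0).filter fun x => (x ^ 2 + x + k).Prime).card : ℝ) ≤
      (5 * C + 2) * x0 * K / Real.log K := by
  have k1 : (32 : ℝ) ≤ K := by exact_mod_cast hK
  have k0 : (0 : ℝ) < K := by linarith
  set z : ℝ := (K : ℝ) ^ (1 / 5 : ℝ) with hz
  have z0 : 0 < z := Real.rpow_pos_of_pos k0 _
  have z5 : z ^ 5 = K := by
    rw [hz, ← Real.rpow_natCast, ← Real.rpow_mul k0.le]; norm_num
  have z2 : 2 ≤ z := by
    by_contra c
    have := pow_lt_pow_left₀ (not_le.1 c) z0.le (n := 5) (by norm_num)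
    linarith
  have hl : 0 < Real.log z := Real.log_pos (by linarith)
  have hlK : Real.log K = 5 * Real.log z := by rw [← z5, Real.log_pow]; norm_num
  have a1 : ∀ x : ℕ, (((Icc 1 K).filter fun k => (x + k).Prime).card : ℝ) ≤
      (5 * C + 2) * K / Real.log K := by
    intro x
    have b1 : ((Icc 1 K).filter fun k => (x + k).Prime) ⊆
        ((Icc 1 K).filter fun k => Rough z (x + k)) ∪ Icc 1 ⌊z⌋₊ := fun k hk => by
      obtain ⟨c1, c2⟩ := mem_filter.1 hk
      by_cases c3 : z < (x + k : ℕ)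
      · exact mem_union_left _ (mem_filter.2 ⟨c1, (rough_prime c2).2 c3⟩)
      · refine mem_union_right _ (mem_Icc.2 ⟨(mem_Icc.1 c1).1, Nat.le_floor ?_⟩)
        push_cast at c3
        have : (0 : ℝ) ≤ x := Nat.cast_nonneg x
        linarith
    have b2 := (card_le_card b1).trans (card_union_le _ _)
    rw [Nat.card_Icc, Nat.add_sub_cancel] at b2
    have b3 : (((Icc 1 K).filter fun k => (x + k).Prime).card : ℝ) ≤
        ((Icc 1 K).filter fun k => Rough z (x + k)).card + ⌊z⌋₊ := by exact_mod_cast b2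
    have b4 := cnt_shift h z2 z5.le x
    have b5 := Nat.floor_le z0.le
    have b6 : z ≤ 2 * K / (5 * Real.log z) := by
      rw [le_div_iff₀ (by positivity), ← z5]
      have c1 := Real.log_le_sub_one_of_pos z0
      have c2 : 8 ≤ z ^ 3 := by nlinarith [pow_le_pow_left₀ (by norm_num : (0 : ℝ) ≤ 2) z2 3]
      have c3 : 0 < z ^ 2 := by positivity
      nlinarith
    rw [hlK]
    calc _ ≤ C * K / Real.log z + 2 * K / (5 * Real.log z) := by linarith
      _ = _ := by field_simp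
  simp only [card_filter]
  push_cast
  rw [sum_comm]
  refine (sum_le_card_nsmul _ _ ((5 * C + 2) * K / Real.log K) fun x _ => ?_).trans (le_of_eq ?_)
  · rw [sum_boole]; exact a1 _
  · rw [card_range, nsmul_eq_mul]; ring

theorem t_CNT (hRC : S_RC) (hROOT : S_ROOT) : S_CNT := by
  obtain ⟨C, hC, h⟩ := hRC
  refine ⟨5 * C + 12, by positivity, fun z N K W X1 X2 h1 h2 h3 h4 h5 h6 h7 h8 => ?_,
    fun N K X1 X2 h1 h2 => ?_, fun K x0 hK => ?_⟩
  · refine (cnt_one hC h hROOT.2.2.2.2.2 z N K W X1 X2 h1 h2 h3 h4 h5 h6 h7 h8).trans ?_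
    have hl : 0 < Real.log z := Real.log_pos (by linarith)
    gcongr
    linarith
  · refine (cnt_two N K X1 X2 h1 h2).trans ?_
    have hl : 0 < Real.log N := Real.log_pos (by linarith)
    gcongr
    linarith
  · refine (cnt_three h K x0 hK).trans ?_
    have hl : 0 < Real.log K := Real.log_pos (by exact_mod_cast (by omega : 1 < K))
    gcongr
    linarith

end Pool.Agent.P.MP_8be758_nt.Avg
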