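import Pool.Agent.P.MP_8be758_nt.Avg.Basic

/-! Prime values in one range, for most values of the constant term. -/

namespace Pool.Agent.P.MP_8be758_nt.Avg

open Finset Real Filter Topology
open Pool.Agent.P.MP_e86632_nt (ee)
open ArithmeticFunction (vonMangoldt)

theorem core_Th {z : ℝ} (k : ℕ) {X1 : ℕ} (X2 : ℕ) (hz : z ≤ X1) :
    |Th k X1 X2 - ∑ m ∈ (Ioc X1 X2).filter (Rough z), vonMangoldt m * rr k m| ≤
      ∑ m ∈ (Ioc X1 X2).filter (fun m => ¬ m.Prime), vonMangoldt m * rr k m := by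
  have h0 : ∀ m, 0 ≤ vonMangoldt m * rr k m := fun m =>
    mul_nonneg ArithmeticFunction.vonMangoldt_nonneg (rr_nonneg k m)
  have e1 : ((Ioc X1 X2).filter (Rough z)).filter Nat.Prime = (Ioc X1 X2).filter Nat.Prime := by
    rw [filter_comm]
    refine filter_true_of_mem fun m hm => ?_
    obtain ⟨h1, h2⟩ := mem_filter.1 hm
    exact (rough_prime h2).2 (hz.trans_lt (by exact_mod_cast (mem_Ioc.1 h1).1))
  have e2 : Th k X1 X2 = ∑ m ∈ (Ioc X1 X2).filter Nat.Prime, vonMangoldt m * rr k m :=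
    sum_congr rfl fun m hm => by rw [ArithmeticFunction.vonMangoldt_apply_prime (mem_filter.1 hm).2]
  rw [← sum_filter_add_sum_filter_not ((Ioc X1 X2).filter (Rough z)) Nat.Prime, e1, e2,
    sub_add_cancel_left, abs_neg, abs_of_nonneg (sum_nonneg fun m _ => h0 m)]
  exact sum_le_sum_of_subset_of_nonneg (filter_subset_filter _ (filter_subset _ _))
    fun m _ _ => h0 m

theorem core_comb {T A P D Md ls e L t b1 b2 lf F mn G : ℝ} (h1 : |T - A| ≤ P) (h2 : A = D + Md)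
    (h3 : |Md - ls| ≤ e) (h4 : D = 3 * L * (t + b1 + b2) + lf) (h5 : |lf| ≤ F)
    (h6 : 3 * L * |mn| ≤ G) (hL : 0 ≤ L) :
    |T - ls| ≤ 3 * L * (|t - mn| + |b1| + |b2|) + F + P + e + G := by
  have a : |t + b1 + b2| ≤ |t - mn| + |b1| + |b2| + |mn| := by
    have := abs_add_three t b1 b2
    have := abs_add_le (t - mn) mn
    rw [sub_add_cancel] at this
    linarith
  have b : |3 * L * (t + b1 + b2)| ≤ 3 * L * (|t - mn| + |b1| + |b2|) + G := by
    rw [abs_mul, abs_of_nonneg (by linarith : 0 ≤ 3 * L)]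
    nlinarith [mul_le_mul_of_nonneg_left a (by linarith : 0 ≤ 3 * L)]
  rw [abs_le] at *
  constructor <;> linarith [h1.1, h1.2, h3.1, h3.2, h5.1, h5.2, b.1, b.2]

theorem core_len {N : ℝ} {X1 X2 : ℕ} (hN : 0 ≤ N) (h1 : N ^ 2 ≤ X1) (h12 : X1 ≤ X2)
    (h2 : (X2 : ℝ) ≤ 6 / 5 * N ^ 2) : |√(X2 : ℝ) - √(X1 : ℝ)| ≤ N := by
  have a : √(X1 : ℝ) ≤ √(X2 : ℝ) := Real.sqrt_le_sqrt (by exact_mod_cast h12)
  have b : N ≤ √(X1 : ℝ) := Real.le_sqrt_of_sq_le h1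
  have c : √(X2 : ℝ) ≤ 2 * N := Real.sqrt_le_iff.2 ⟨by linarith, by nlinarith⟩
  rw [abs_of_nonneg (by linarith)]
  linarith

theorem core_main {C e1 N l V sg T e4 : ℝ} {c : ℕ → ℝ} (hC : 0 < C) (he : 0 < e1) (hN : 1 < N)
    (hc : ∀ d, |c d| ≤ 1) (hl : |l| ≤ N) (hV0 : 0 ≤ V) (hV : V ≤ C / Real.log (N ^ e1))
    (hs : ∑ d ∈ Dy N (N ^ e1), 1 / (d : ℝ) ≤
      C * Real.log (N ^ (2 / 3 : ℝ)) / Real.log (N ^ e1)) (hsg : 0 ≤ sg) (hT : |T| ≤ e4) :
    3 * Real.log N * |l * (∑ d ∈ Dy N (N ^ e1), c d / d) * V * sg * T| ≤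
      3 * C ^ 2 / e1 ^ 2 * e4 * N * sg := by
  have hN0 : 0 < N := by linarith
  have hL := Real.log_pos hN
  rw [Real.log_rpow hN0] at hV
  rw [Real.log_rpow hN0, Real.log_rpow hN0] at hs
  have a : |∑ d ∈ Dy N (N ^ e1), c d / d| ≤ C / e1 := by
    refine (abs_sum_le_sum_abs _ _).trans ((sum_le_sum fun d _ => ?_).trans (hs.trans ?_))
    · rw [abs_div, Nat.abs_cast]
      exact div_le_div_of_nonneg_right (hc d) (Nat.cast_nonneg d)
    · rw [div_le_div_iff₀ (by positivity) he]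
      nlinarith [mul_pos (mul_pos hC he) hL]
  have he4 := (abs_nonneg T).trans hT
  rw [abs_mul, abs_mul, abs_mul, abs_mul, abs_of_nonneg hV0, abs_of_nonneg hsg]
  calc _ ≤ 3 * Real.log N * (N * (C / e1) * (C / (e1 * Real.log N)) * sg * e4) := by gcongr
    _ = _ := by field_simp

theorem core_sum {ε C e1 L K N S : ℝ} (hε : 0 < ε) (hC : 0 < C) (he : 0 < e1) (hL : 0 < L)
    (hK : 1 ≤ K) (hN : 0 < N) (h1 : 20 * C * S / (e1 * ε ^ 2) ≤ L)
    (h2 : 40 * C / ε ^ 2 * L ≤ √K) :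
    3 * L * (ε ^ 2 / 100 * K * N / L + ε ^ 2 / 100 * K * N / L + ε ^ 2 / 100 * K * N / L) +
      S * (C * K * N / (e1 * L)) + C * (√K + 1) * N * L ≤ ε * N / 2 * (ε / 2 * K) := by
  have a : 3 * L * (ε ^ 2 / 100 * K * N / L + ε ^ 2 / 100 * K * N / L + ε ^ 2 / 100 * K * N / L) =
      9 / 100 * (ε ^ 2 * K * N) := by field_simp; ring
  have hKN : 0 < K * N := by positivity
  have b : S * (C * K * N / (e1 * L)) ≤ 1 / 20 * (ε ^ 2 * K * N) := by
    rw [div_le_iff₀ (by positivity)] at h1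
    rw [← mul_div_assoc, div_le_iff₀ (by positivity)]
    nlinarith [mul_le_mul_of_nonneg_right h1 hKN.le]
  have c : C * (√K + 1) * N * L ≤ 1 / 20 * (ε ^ 2 * K * N) := by
    have c1 : 1 ≤ √K := Real.one_le_sqrt.2 hK
    have c2 : √K * √K = K := Real.mul_self_sqrt (by linarith)
    rw [div_mul_eq_mul_div, div_le_iff₀ (by positivity)] at h2
    have c3 := mul_le_mul_of_nonneg_right h2 (show 0 ≤ √K * N by positivity)
    have c4 : C * (√K + 1) * N * L ≤ C * (√K + √K) * N * L := by gcongr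
    have c5 : √K * ε ^ 2 * (√K * N) = ε ^ 2 * K * N := by linear_combination ε ^ 2 * N * c2
    linarith
  have d : 0 < ε ^ 2 * K * N := by positivity
  linarith

theorem core_sq {N : ℝ} (h : 2 ≤ N) : N ≤ N ^ 2 ∧ 6 / 5 * N ^ 2 ≤ N ^ 3 :=
  ⟨by nlinarith, by nlinarith [sq_nonneg N]⟩

theorem t_CORE (hI : S_I) (hVAU : S_VAU) (hCNT : S_CNT) (hPNTM : S_PNTM) (hSS1 : S_SS1)
    (hHR : S_HR) (hTAU : S_TAU) (hSGW : S_SGW) (θ : ℝ) (hθ : 4 / 5 ≤ θ) (hII : S_II θ) :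
    S_CORE θ := by
  classical
  intro ε hε
  have hε1 : 0 < ε ^ 2 / 100 := by positivity
  obtain ⟨e0, he0, hI⟩ := hI _ hε1
  obtain ⟨e1, he1, h10, h1e⟩ : ∃ e1 : ℝ, 0 < e1 ∧ e1 ≤ 1 / 10 ∧ e1 ≤ e0 :=
    ⟨min (1 / 10) e0, lt_min (by norm_num) he0, min_le_left _ _, min_le_right _ _⟩
  obtain ⟨R1, hII⟩ := hII e1 he1 h10 _ hε1
  obtain ⟨C, hC, hHR⟩ := hHR
  obtain ⟨C2, hC2, hCNT1, hCNT2, -⟩ := hCNT
  obtain ⟨e4, he4, h4a, h4b⟩ : ∃ e4 : ℝ, 0 < e4 ∧ e4 ≤ ε / 4 ∧ 3 * C ^ 2 / e1 ^ 2 * e4 ≤ ε := by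
    refine ⟨min (ε / 4) (ε / (3 * C ^ 2 / e1 ^ 2)), by positivity, min_le_left _ _, ?_⟩
    rw [← le_div_iff₀' (by positivity)]
    exact min_le_right _ _
  obtain ⟨R0, hR0, hSS1⟩ := hSS1 e4 he4
  obtain ⟨s, hs⟩ := exists_nat_ge (3 / e1)
  rw [div_le_iff₀' he1] at hs
  refine ⟨max R0 R1, fun R hR => ?_⟩
  have hRa := le_of_max_le_left hR
  filter_upwards [hI e1 he1 h1e R (hR0.trans hRa), hII R (le_of_max_le_right hR),
    hPNTM R (ε / 4) (by positivity), ev_K (hSS1 R hRa) (show (0 : ℝ) < 4 / 5 by norm_num),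
    ev_const 2 he1, ev_const (R.factorial : ℝ) (show (0 : ℝ) < 4 / 5 by norm_num),
    ev_log (20 * C2 * 2 ^ s / (e1 * ε ^ 2)),
    ev_pow (40 * C2 / ε ^ 2) 1 (show (0 : ℝ) < 2 / 5 by norm_num), eventually_ge_atTop 2]
    with N hI hII hP hS hz hW hL1 hL2 hN K X1 X2 hst
  have hN1 : 1 ≤ N := by linarith
  have hN0 : 0 < N := by linarith
  have hL := Real.log_pos (show 1 < N by linarith)
  have hst' := hst.mono hθ hN1
  have hK := hst'.lo
  have hK1 : (1 : ℝ) ≤ K := (Real.one_le_rpow hN1 (by norm_num)).trans hK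
  have pw : ∀ (n : ℕ) (b : ℝ), e1 * n ≤ b → (N ^ e1) ^ n ≤ N ^ b := fun n b h => by
    rw [← Real.rpow_mul_natCast hN0.le]
    exact Real.rpow_le_rpow_of_exponent_le hN1 h
  have hzN : N ^ e1 ≤ N := by simpa using pw 1 1 (by push_cast; linarith)
  obtain ⟨c, φ1, ψ1, φ2, ψ2, lf, hc, a1, a2, a3, a4, hlf, hV⟩ :=
    hVAU N (N ^ e1) X1 X2 hN hst.x1 hst.x2
  obtain ⟨v0, v1, v2⟩ := hHR (N ^ e1) (N ^ (2 / 3 : ℝ)) hz
    (Real.rpow_le_rpow_of_exponent_le hN1 (by linarith))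
  have s1 := hI K X1 X2 c hst' hc
  have s2 := hII K X1 X2 φ1 ψ1 hst a1 a2
  have s3 := hII K X1 X2 φ2 ψ2 hst a3 a4
  have s4 := hCNT1 (N ^ e1) N K R.factorial X1 X2 hz
    ((pw 5 (4 / 5) (by push_cast; linarith)).trans hK)
    (by simpa using pw 5 2 (by push_cast; linarith)) (Nat.factorial_pos R)
    (by exact_mod_cast hW.trans hK) hN1 hst.x1 hst.x2
  have s5 := hCNT2 N K X1 X2 hN hst.x2
  have s6 := hS K hK (N ^ e1) ((pw 3 (4 / 5) (by push_cast; linarith)).trans hK)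
  rw [Real.log_rpow hN0] at s4
  obtain ⟨E, hE⟩ : ∃ E : ℕ → ℝ, E = fun k => 3 * Real.log N *
      (|tyI N (N ^ e1) X1 X2 c (dd R.factorial k) - (√(X2 : ℝ) - √(X1 : ℝ)) *
        (∑ d ∈ Dy N (N ^ e1), c d / d) * Vz (N ^ e1) * sing R k * (TT k R (N ^ e1) - 1)| +
        |bil X1 X2 φ1 ψ1 (dd R.factorial k)| + |bil X1 X2 φ2 ψ2 (dd R.factorial k)|) +
      2 ^ s * ∑ m ∈ (Ioc X1 X2).filter (Rough (N ^ e1)), |dd R.factorial k m| +
      ∑ m ∈ (Ioc X1 X2).filter (fun m => ¬ m.Prime), vonMangoldt m * rr k m := ⟨_, rfl⟩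
  have hE0 : ∀ k ∈ Icc 1 K, 0 ≤ E k := fun k _ => by
    have : 0 ≤ ∑ m ∈ (Ioc X1 X2).filter (fun m => ¬ m.Prime), vonMangoldt m * rr k m :=
      sum_nonneg fun m _ => mul_nonneg ArithmeticFunction.vonMangoldt_nonneg (rr_nonneg k m)
    rw [hE]
    positivity
  have hEs : ∑ k ∈ Icc 1 K, E k ≤ ε * N / 2 * (ε / 2 * K) := by
    refine le_trans ?_ (core_sum hε hC2 he1 hL hK1 hN0 hL1 ?_)
    · simp only [hE, sum_add_distrib, ← mul_sum]
      gcongr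
    · rw [Real.rpow_zero, mul_one, pow_one] at hL2
      refine hL2.trans (Real.le_sqrt_of_sq_le ?_)
      rw [← Real.rpow_mul_natCast hN0.le]
      norm_num
      exact hK
  have m1 : (((Icc 1 K).filter fun k => ε * N / 2 ≤ E k).card : ℝ) ≤ ε / 2 * K :=
    le_of_mul_le_mul_left ((markov (Icc 1 K) E hE0 (ε * N / 2) (fun k => ε * N / 2 ≤ E k)
      fun _ _ h => h).trans hEs) (by positivity)
  have key : ∀ k, ¬ ε * N / 2 ≤ E k → ¬ e4 < |TT k R (N ^ e1) - 1| →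
      |Th k X1 X2 - (√(X2 : ℝ) - √(X1 : ℝ)) * sing R k| ≤ ε * N * (1 + sing R k) := by
    intro k b1 b2
    have sg0 := hSGW.2.1 k R
    have b3 := core_main hC he1 (by linarith) hc (core_len hN0.le hst.x1 hst.x12 hst.x2) v0 v1 v2
      sg0 (not_lt.1 b2)
    have b4 : |∑ m ∈ (Ioc X1 X2).filter (Rough (N ^ e1)), lf m * dd R.factorial k m| ≤
        2 ^ s * ∑ m ∈ (Ioc X1 X2).filter (Rough (N ^ e1)), |dd R.factorial k m| := by
      rw [mul_sum]
      refine (abs_sum_le_sum_abs _ _).trans (sum_le_sum fun m hm => ?_)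
      obtain ⟨c1, c2⟩ := mem_filter.1 hm
      rw [abs_mul]
      refine mul_le_mul_of_nonneg_right ((hlf m).trans ?_) (abs_nonneg _)
      have c3 : (m : ℝ) ≤ X2 := by exact_mod_cast (mem_Ioc.1 c1).2
      have c4 : N ^ 3 ≤ (N ^ e1) ^ s := by
        rw [← Real.rpow_mul_natCast hN0.le, ← Real.rpow_natCast]
        exact Real.rpow_le_rpow_of_exponent_le hN1 (by push_cast; linarith)
      exact_mod_cast hTAU (N ^ e1) s m (by linarith) c2
        (c3.trans (hst.x2.trans ((core_sq hN).2.trans c4)))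
    have b5 := core_comb (core_Th k X2 (hzN.trans ((core_sq hN).1.trans hst.x1)))
      (D := ∑ m ∈ (Ioc X1 X2).filter (Rough (N ^ e1)), vonMangoldt m * dd R.factorial k m)
      (by rw [← sum_add_distrib]; exact sum_congr rfl fun m _ => by rw [dd]; ring)
      (hP (N ^ e1) k X1 X2 hzN hst.x1 hst.x12 hst.x2) (hV _) b4 b3 hL.le
    simp only [hE, not_le] at b1
    have b6 := mul_le_mul_of_nonneg_right h4b (mul_nonneg hN0.le sg0)
    have b7 : 0 < ε * N := by positivity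
    linarith
  have sub : ((Icc 1 K).filter fun k => ε * N * (1 + sing R k) <
      |Th k X1 X2 - (√(X2 : ℝ) - √(X1 : ℝ)) * sing R k|) ⊆
      ((Icc 1 K).filter fun k => ε * N / 2 ≤ E k) ∪
        (Icc 1 K).filter fun k => e4 < |TT k R (N ^ e1) - 1| := by
    intro k hk
    obtain ⟨k1, k2⟩ := mem_filter.1 hk
    by_contra h
    simp only [mem_union, mem_filter, k1, true_and, not_or] at h
    exact absurd k2 (not_lt.2 (key k h.1 h.2))
  have fin := (card_le_card sub).trans (card_union_le _ _)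
  have fin' := (Nat.cast_le (α := ℝ)).2 fin
  push_cast at fin'
  have b8 := mul_le_mul_of_nonneg_right h4a (Nat.cast_nonneg (α := ℝ) K)
  have b9 : 0 ≤ ε * K := by positivity
  linarith

end Pool.Agent.P.MP_8be758_nt.Avg
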