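import Pool.Agent.P.MP_8be758_nt.Avg.Basic

/-! The Cauchy-Schwarz step and the diagonal terms of the dispersion sum. -/

namespace Pool.Agent.P.MP_8be758_nt.Avg

open Finset Real Filter Topology
open Pool.Agent.P.MP_e86632_nt (ee)

/-- coefficient attached to `n` -/
noncomputable def d13_y (α : ℕ → ℝ) (I : Finset ℕ) (b : ℕ) (k : ℤ) (n : ℕ) : ℝ :=
  ∑ a ∈ I, if FF k n = a * b then α a else 0

theorem d13_Qf (α : ℕ → ℝ) (I : Finset ℕ) (n0 : ℕ) {b : ℕ} (hb : 0 < b) (k : ℤ) :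
    Qf α I n0 b k =
      ∑ r ∈ range b, (∑ n ∈ (range n0).filter (fun n => n % b = r), d13_y α I b k n) ^ 2 := by
  have h1 : Qf α I n0 b k = ∑ n1 ∈ range n0, d13_y α I b k n1 *
      ∑ n2 ∈ (range n0).filter (fun n => n % b = n1 % b), d13_y α I b k n2 := by
    refine sum_congr rfl fun n1 _ => ?_
    rw [sum_filter, mul_sum]
    refine sum_congr rfl fun n2 _ => ?_
    by_cases h : n2 % b = n1 % b
    · have h' : n1 ≡ n2 [MOD b] := h.symm
      rw [if_pos h, d13_y, d13_y, sum_mul_sum]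
      refine sum_congr rfl fun a1 _ => sum_congr rfl fun a2 _ => ?_
      by_cases h1 : FF k n1 = a1 * b <;> by_cases h2 : FF k n2 = a2 * b <;> simp [h1, h2, h']
    · have h' : ¬ n1 ≡ n2 [MOD b] := fun h2 => h h2.symm
      simp [h, h']
  rw [h1, ← sum_fiberwise_of_maps_to (g := fun n => n % b) (t := range b)
    fun n _ => mem_range.2 (Nat.mod_lt _ hb)]
  refine sum_congr rfl fun r _ => ?_
  rw [sq, sum_mul]
  refine sum_congr rfl fun n hn => ?_
  rw [(mem_filter.1 hn).2]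

theorem t_D1 : S_D1 := by
  intro α I n0 b hb
  refine ⟨fun k => ?_, fun k hk hI => ?_⟩
  · rw [d13_Qf α I n0 hb]; positivity
  have h1 : ∑ a ∈ I, α a * rr k (a * b) = ∑ n ∈ range n0, d13_y α I b k n := by
    simp only [d13_y]
    rw [sum_comm]
    refine sum_congr rfl fun a ha => ?_
    rw [rr_eq_sum k (a * b) (range n0), mul_sum]
    · refine sum_congr rfl fun n _ => ?_
      have : FF k n = a * b ↔ n ^ 2 + n + k = a * b := by unfold FF; norm_cast
      simp [this]
    · intro n hn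
      have := hI a ha
      exact mem_range.2 (lt_of_pow_lt_pow_left₀ 2 (Nat.zero_le _) (by omega))
  rw [h1, d13_Qf α I n0 hb, ← sum_fiberwise_of_maps_to (g := fun n => n % b) (t := range b)
    fun n _ => mem_range.2 (Nat.mod_lt _ hb),
    ← sum_subset (filter_subset (fun r => b ∣ r ^ 2 + r + k) (range b))]
  · refine sq_sum_le_card_mul_sum_sq.trans (mul_le_mul_of_nonneg_left ?_ (Nat.cast_nonneg _))
    exact sum_le_sum_of_subset_of_nonneg (filter_subset _ _) fun _ _ _ => sq_nonneg _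
  · intro r hr hr'
    refine sum_eq_zero fun n hn => sum_eq_zero fun a _ => if_neg fun h => hr' ?_
    refine mem_filter.2 ⟨hr, ?_⟩
    have h2 : n ^ 2 + n + k = a * b := by unfold FF at h; exact_mod_cast h
    have h3 : r ≡ n [MOD b] := by rw [← (mem_filter.1 hn).2]; exact Nat.mod_modEq n b
    have h4 : r ^ 2 + r + k ≡ n ^ 2 + n + k [MOD b] := ((h3.pow 2).add h3).add_right k
    exact (h4.dvd_iff dvd_rfl).2 (h2 ▸ dvd_mul_left b a)

theorem d13_fin (hGS1 : S_GS1) (hGS2 : S_GS2) {r : ℝ} (hr : 0 < r) (c : ℝ) (s : Finset ℤ) :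
    ∑ b ∈ s, gs (r * (b - c)) ≤ 4 * (1 + 1 / r) :=
  ((hGS1 r 0 c hr).1.sum_le_tsum s fun _ _ => (gs_pos _).le).trans (hGS2 r c hr)

theorem d13_exp {A' B K F n k b : ℝ} (hA : 0 < A') (hB : 0 < B) (hK : 0 < K) (hKA : K ≤ A' * B)
    (hn : 0 ≤ n) (hF : F = n ^ 2 + n + k) (hb : F ≤ A' * b) :
    Real.exp (-(π * b / B)) * gs ((4 * k - 1) / (4 * K)) ≤
      Real.exp π * (gs (1 / √(A' * B) * (n - 0)) * gs (1 / (2 * K) * (k - 1 / 4))) := by
  have hAB : 0 < A' * B := by positivity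
  simp only [gs, ← Real.exp_add]
  refine Real.exp_le_exp.2 ?_
  set u := (k - 1 / 4) / K with hu
  have e1 : (4 * k - 1) / (4 * K) = u := by rw [hu]; field_simp
  have e2 : 1 / (2 * K) * (k - 1 / 4) = u / 2 := by rw [hu]; field_simp
  have e3 : (1 / √(A' * B) * (n - 0)) ^ 2 = n ^ 2 / (A' * B) := by
    rw [sub_zero, mul_pow, div_pow, Real.sq_sqrt hAB.le]; ring
  rw [e1, e2, e3]
  have h1 : n ^ 2 / (A' * B) + u * (K / (A' * B)) ≤ b / B := by
    have : u * (K / (A' * B)) = (k - 1 / 4) / (A' * B) := by rw [hu]; field_simp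
    rw [this, ← add_div, div_le_div_iff₀ hAB hB]
    nlinarith
  have h2 : 0 ≤ K / (A' * B) := by positivity
  have h3 : K / (A' * B) ≤ 1 := (div_le_one hAB).2 hKA
  have h4 : -|u| ≤ u * (K / (A' * B)) := by
    have := neg_abs_le u
    have := abs_nonneg u
    rcases le_total 0 u with h | h
    · nlinarith
    · nlinarith
  have h5 : |u| ≤ 1 + 3 / 4 * u ^ 2 := by nlinarith [sq_abs u, sq_nonneg (|u| - 1)]
  have h6 : n ^ 2 / (A' * B) + (u / 2) ^ 2 - 1 ≤ b / B + u ^ 2 := by nlinarith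
  have := mul_le_mul_of_nonneg_left h6 Real.pi_pos.le
  rw [mul_div_assoc]
  linarith

theorem t_D3 (hGS1 : S_GS1) (hGS2 : S_GS2) : S_D3 := by
  refine ⟨Real.exp π * 12 * 12, by positivity, ?_⟩
  intro A B K D τ n0 I α ν hB hBA hK hKA hn hI hα hν hτ
  have hA : 1 ≤ A := hB.trans hBA
  have hD : 0 ≤ D := (hν 0).1.trans (hν 0).2
  have hτ0 : 0 ≤ τ := le_trans (Nat.cast_nonneg _) (hτ 0 (by simp; positivity))
  set A' := 5 / 4 * A with hA'
  have hA0 : 0 < A' := by positivity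
  have hAB : 1 ≤ A * B := by nlinarith
  set g1 : ℕ → ℝ := fun n => gs (1 / √(A' * B) * ((n : ℤ) - 0)) with hg1
  set g2 : ℤ → ℝ := fun k => gs (1 / (2 * K) * (k - 1 / 4)) with hg2
  have key : ∀ (k : ℤ) (n : ℕ), ∑ b ∈ Icc 1 n0, ∑ a ∈ I,
      wt ν B K b (4 * k - 1) * (if FF k n = a * b then α a ^ 2 else 0) ≤
        τ * (D * (Real.exp π * (g1 n * g2 k))) := by
    intro k n
    have hM : 0 ≤ D * (Real.exp π * (g1 n * g2 k)) :=
      mul_nonneg hD (mul_pos (Real.exp_pos _) (mul_pos (gs_pos _) (gs_pos _))).le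
    set T := (Icc 1 n0 ×ˢ I).filter fun p : ℕ × ℕ => FF k n = p.2 * p.1 with hT
    have h1 : ∑ b ∈ Icc 1 n0, ∑ a ∈ I,
        wt ν B K b (4 * k - 1) * (if FF k n = a * b then α a ^ 2 else 0) =
        ∑ p ∈ T, wt ν B K p.1 (4 * k - 1) * α p.2 ^ 2 := by
      rw [hT, sum_filter, sum_product]
      simp only [mul_ite, mul_zero]
    have h2 : (T.card : ℝ) ≤ τ := by
      rcases T.eq_empty_or_nonempty with h | ⟨p, hp⟩
      · simpa [h] using hτ0
      simp only [hT, mem_filter, mem_product, mem_Icc] at hp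
      have ha := hI _ hp.1.2
      have ha0 : 0 < p.2 := by exact_mod_cast (by linarith [ha.1] : (0 : ℝ) < p.2)
      refine le_trans ?_ (hτ (p.2 * p.1) ?_)
      · refine Nat.cast_le.2 (card_le_card_of_injOn (fun q => q.1) ?_ ?_)
        · intro q hq
          simp only [hT, coe_filter, mem_product, mem_Icc, Set.mem_ofPred_eq] at hq
          have h3 : p.2 * p.1 = q.2 * q.1 := by exact_mod_cast hp.2.symm.trans hq.2
          exact mem_coe.2 (Nat.mem_divisors.2 ⟨h3 ▸ dvd_mul_left _ _,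
            (Nat.mul_pos ha0 hp.1.1.1).ne'⟩)
        · intro q hq q' hq' he
          simp only [hT, coe_filter, mem_product, mem_Icc, Set.mem_ofPred_eq] at hq hq' he
          have h3 : q.2 * q.1 = q'.2 * q'.1 := by exact_mod_cast hq.2.symm.trans hq'.2
          rw [← he] at h3
          exact Prod.ext he (Nat.eq_of_mul_eq_mul_right hq.1.1.1 h3)
      · have h3 : (p.1 : ℝ) ≤ 3 * A := le_trans (by exact_mod_cast hp.1.1.2) hn
        push_cast
        calc (p.2 : ℝ) * p.1 ≤ 5 / 4 * A * (3 * A) := by gcongr; exact ha.2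
          _ ≤ 4 * A ^ 2 := by nlinarith
    rw [h1]
    refine (sum_le_card_nsmul _ _ _ fun p hp => ?_).trans
      (by rw [nsmul_eq_mul]; exact mul_le_mul_of_nonneg_right h2 hM)
    simp only [hT, mem_filter, mem_product, mem_Icc] at hp
    have ha := hI _ hp.1.2
    have h3 : ((FF k n : ℤ) : ℝ) = p.2 * p.1 := by exact_mod_cast hp.2
    have h4 := d13_exp (A' := A') (B := B) (K := K) (F := (FF k n : ℤ)) (n := n) (k := k)
      (b := p.1) hA0 (by linarith) (by linarith) (by nlinarith) (Nat.cast_nonneg _)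
      (by simp [FF]) (by rw [h3]; gcongr; exact ha.2)
    have h5 : α p.2 ^ 2 ≤ 1 := by rw [← sq_abs]; exact pow_le_one₀ (abs_nonneg _) (hα _)
    have h6 := psi_nonneg (B := B) (b := p.1) (by linarith) (Nat.cast_nonneg _)
    have h7 := gs_pos ((4 * k - 1) / (4 * K))
    have h8 := hν p.1
    calc wt ν B K p.1 (4 * k - 1) * α p.2 ^ 2 ≤ wt ν B K p.1 (4 * k - 1) :=
          mul_le_of_le_one_right (mul_nonneg (mul_nonneg h8.1 h6) h7.le) h5
      _ ≤ D * (Real.exp (-(π * p.1 / B)) * gs ((4 * k - 1) / (4 * K))) := by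
          rw [wt, mul_assoc]
          exact mul_le_mul h8.2 (mul_le_mul_of_nonneg_right (psi_le_exp _ _) h7.le)
            (mul_nonneg h6 h7.le) hD
      _ ≤ _ := mul_le_mul_of_nonneg_left (by simpa [hg1, hg2] using h4) hD
  have hs : 1 ≤ √(A * B) := Real.one_le_sqrt.2 hAB
  have s1 : ∑ n ∈ range n0, g1 n ≤ 12 * √(A * B) := by
    have h1 := d13_fin hGS1 hGS2 (r := 1 / √(A' * B)) (by positivity) 0
      ((range n0).map Nat.castEmbedding)
    rw [sum_map, one_div_one_div] at h1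
    have h2 : √(A' * B) ≤ 2 * √(A * B) := by
      rw [Real.sqrt_le_iff]
      refine ⟨by positivity, ?_⟩
      rw [mul_pow, Real.sq_sqrt (by linarith)]; nlinarith
    exact h1.trans (by linarith)
  have s2 : ∑ k ∈ KR n0, g2 k ≤ 12 * K := by
    have h1 := d13_fin hGS1 hGS2 (r := 1 / (2 * K)) (by positivity) (1 / 4) (KR n0)
    rw [one_div_one_div] at h1
    exact h1.trans (by linarith)
  calc dg (wt ν B K) α I n0 = ∑ k ∈ KR n0, ∑ n ∈ range n0, ∑ b ∈ Icc 1 n0, ∑ a ∈ I,
        wt ν B K b (4 * k - 1) * (if FF k n = a * b then α a ^ 2 else 0) := by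
        simp only [dg, mul_sum]
        rw [sum_comm]
        exact sum_congr rfl fun k _ => sum_comm
    _ ≤ ∑ k ∈ KR n0, ∑ n ∈ range n0, τ * (D * (Real.exp π * (g1 n * g2 k))) :=
        sum_le_sum fun k _ => sum_le_sum fun n _ => key k n
    _ = τ * D * Real.exp π * ((∑ n ∈ range n0, g1 n) * ∑ k ∈ KR n0, g2 k) := by
        rw [sum_mul_sum, sum_comm, mul_sum]
        refine sum_congr rfl fun k _ => ?_
        rw [mul_sum]
        exact sum_congr rfl fun n _ => by ring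
    _ ≤ τ * D * Real.exp π * (12 * √(A * B) * (12 * K)) := by
        gcongr
        exact sum_nonneg fun _ _ => (gs_pos _).le
    _ = _ := by ring

end Pool.Agent.P.MP_8be758_nt.Avg
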