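import Pool.Agent.P.MP_8be758_nt.Avg.Basic

/-! Parametrisation of the off-diagonal terms of the dispersion sum. -/

namespace Pool.Agent.P.MP_8be758_nt.Avg

open Finset Real Filter Topology
open Pool.Agent.P.MP_e86632_nt (ee)

theorem d2_fwd {b n1 n2 a1 a2 : ℕ} {k : ℤ} (hb : 0 < b) (h12 : n1 < n2) (hm : n1 ≡ n2 [MOD b])
    (h1 : FF k n1 = a1 * b) (h2 : FF k n2 = a2 * b) :
    ∃ μ : ℕ, 0 < μ ∧ n2 = n1 + b * μ ∧ (n2 - n1) / b = μ ∧
      (a2 : ℤ) - a1 = μ * (2 * n1 + 1 + b * μ) := by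
  obtain ⟨μ, hμ⟩ := (Nat.modEq_iff_dvd' h12.le).1 hm
  have h3 : n2 = n1 + b * μ := by omega
  refine ⟨μ, Nat.pos_of_ne_zero (by rintro rfl; omega), h3, by rw [hμ, Nat.mul_div_cancel_left _ hb], ?_⟩
  have hb' : (b : ℤ) ≠ 0 := by exact_mod_cast hb.ne'
  apply mul_right_cancel₀ hb'
  unfold FF at h1 h2
  rw [h3] at h2
  push_cast at h2
  linear_combination h1 - h2

theorem d2_bwd {b μ a1 a2 : ℕ} (hb : Odd b) (hμ : 0 < μ) (hc : Cg μ a1 a2)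
    (hle : (b : ℤ) * μ ^ 2 + μ ≤ a2 - a1) :
    ∃ n1 : ℕ, (a2 : ℤ) - a1 = μ * (2 * n1 + 1 + b * μ) := by
  obtain ⟨t, ht⟩ := hc.symm.dvd
  obtain ⟨c, rfl⟩ := hb
  have hμ' : (0 : ℤ) < μ := by exact_mod_cast hμ
  have h1 : 0 ≤ t - c * μ := by
    have h2 : (μ : ℤ) * 0 ≤ μ * (2 * (t - c * μ)) := by push_cast at hle; nlinarith
    have := le_of_mul_le_mul_left h2 hμ'
    linarith
  obtain ⟨n, hn⟩ := Int.eq_ofNat_of_zero_le h1
  refine ⟨n, ?_⟩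
  rw [← hn]; push_cast; linear_combination ht

theorem d2_cg_symm {μ a1 a2 : ℕ} (h : Cg μ a1 a2) : Cg μ a2 a1 := by
  obtain ⟨t, ht⟩ := h.dvd
  exact Int.ModEq.symm ((Int.modEq_iff_dvd).2 ⟨t - (μ + 1), by linear_combination ht⟩)

theorem d2_disc_symm (μ a1 a2 : ℕ) (b : ℝ) : disc μ a1 a2 b = disc μ a2 a1 b := by
  unfold disc; ring

theorem d2_core {A : ℝ} {n0 b a1 a2 : ℕ} (_hA : 1 ≤ A) (hn : 2 * A ≤ n0)
    (h1 : A < a1 ∧ (a1 : ℝ) ≤ 5 / 4 * A) (h2 : A < a2 ∧ (a2 : ℝ) ≤ 5 / 4 * A)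
    (hb : b ∈ Icc 1 n0) (w : ℝ → ℝ) (hw : Even b → ∀ κ, w κ = 0) :
    (∑ k ∈ KR n0, ∑ n1 ∈ range n0, ∑ n2 ∈ range n0,
      if n1 < n2 ∧ n1 ≡ n2 [MOD b] ∧ FF k n1 = a1 * b ∧ FF k n2 = a2 * b then w (4 * k - 1) else 0) =
    ∑ μ ∈ Icc 1 n0, if a1 < a2 ∧ Cg μ a1 a2 ∧ (b : ℤ) * μ ^ 2 + μ ≤ |(a2 : ℤ) - a1| then
      w (disc μ a1 a2 b) else 0 := by
  rcases Nat.even_or_odd b with he | ho
  · simp [hw he]
  obtain ⟨hb1, hb2⟩ := mem_Icc.1 hb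
  have ha1 : a1 ≤ n0 := by exact_mod_cast (by linarith [h1.2] : (a1 : ℝ) ≤ n0)
  have hd : (a2 : ℤ) - a1 ≤ n0 := by
    have : (a2 : ℝ) - a1 ≤ n0 := by linarith [h1.1, h2.2]
    exact_mod_cast this
  rw [← sum_filter, ← sum_product', ← sum_product', ← sum_filter]
  refine Finset.sum_bij (fun x _ => (x.2 - x.1.2) / b) ?_ ?_ ?_ ?_
  · rintro ⟨⟨k, n1⟩, n2⟩ hx
    simp only [mem_filter, mem_product, mem_range] at hx
    obtain ⟨⟨⟨-, -⟩, hn2⟩, h12, hm, e1, e2⟩ := hx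
    obtain ⟨μ, hμ, h3, h4, h5⟩ := d2_fwd hb1 h12 hm e1 e2
    simp only [h4, mem_filter, mem_Icc]
    have hμ' : (0 : ℤ) < μ := by exact_mod_cast hμ
    have h6 : (0 : ℤ) < a2 - a1 := by rw [h5]; positivity
    obtain ⟨c, rfl⟩ := ho
    refine ⟨⟨hμ, by nlinarith⟩, by omega, ?_, ?_⟩
    · exact Int.ModEq.symm ((Int.modEq_iff_dvd).2 ⟨n1 + c * μ, by rw [h5]; push_cast; ring⟩)
    · rw [abs_of_pos h6, h5]
      have : (0 : ℤ) ≤ μ * n1 := by positivity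
      nlinarith
  · rintro ⟨⟨k, n1⟩, n2⟩ hx ⟨⟨k', n1'⟩, n2'⟩ hx' he
    simp only [mem_filter, mem_product, mem_range] at hx hx'
    obtain ⟨-, h12, hm, e1, e2⟩ := hx
    obtain ⟨-, h12', hm', e1', e2'⟩ := hx'
    obtain ⟨μ, hμ, h3, h4, h5⟩ := d2_fwd hb1 h12 hm e1 e2
    obtain ⟨μ', -, h3', h4', h5'⟩ := d2_fwd hb1 h12' hm' e1' e2'
    simp only [h4, h4'] at he
    subst he
    have hμ' : (μ : ℤ) ≠ 0 := by exact_mod_cast hμ.ne'
    have h6 := mul_left_cancel₀ hμ' (h5.symm.trans h5')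
    obtain rfl : n1 = n1' := by omega
    obtain rfl : k = k' := by unfold FF at e1 e1'; linarith
    rw [h3, h3']
  · intro μ hμ
    simp only [mem_filter, mem_Icc] at hμ
    obtain ⟨⟨hμ, -⟩, h12, hc, hle⟩ := hμ
    have h6 : (0 : ℤ) < a2 - a1 := by omega
    rw [abs_of_pos h6] at hle
    obtain ⟨n1, h5⟩ := d2_bwd ho hμ hc hle
    have hμ' : (1 : ℤ) ≤ μ := by exact_mod_cast hμ
    have h7 : (2 * n1 + 1 + b * μ : ℤ) ≤ n0 := by
      have : (0 : ℤ) ≤ 2 * n1 + 1 + b * μ := by positivity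
      nlinarith
    have h8 : 2 * n1 + 1 + b * μ ≤ n0 := by exact_mod_cast h7
    have h9 : 0 < b * μ := Nat.mul_pos hb1 hμ
    refine ⟨⟨⟨a1 * b - n1 ^ 2 - n1, n1⟩, n1 + b * μ⟩, ?_, ?_⟩
    · simp only [mem_filter, mem_product, mem_range, KR, mem_Icc]
      refine ⟨⟨⟨⟨?_, ?_⟩, by omega⟩, by omega⟩, by omega, ?_, ?_, ?_⟩
      · have h10 : (n1 : ℤ) + 1 ≤ n0 := by omega
        have : (0 : ℤ) ≤ a1 * b := by positivity
        nlinarith
      · have h10 : (a1 : ℤ) * b ≤ n0 * n0 := by exact_mod_cast Nat.mul_le_mul ha1 hb2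
        have : (0 : ℤ) ≤ n1 ^ 2 + n1 := by positivity
        nlinarith
      · exact (Nat.modEq_iff_dvd' (by omega)).2 ⟨μ, by omega⟩
      · unfold FF; ring
      · unfold FF; push_cast; linear_combination (-(b : ℤ)) * h5
    · simp only [Nat.add_sub_cancel_left, Nat.mul_div_cancel_left _ hb1]
  · rintro ⟨⟨k, n1⟩, n2⟩ hx
    simp only [mem_filter, mem_product, mem_range] at hx
    obtain ⟨-, h12, hm, e1, e2⟩ := hx
    obtain ⟨μ, hμ, -, h4, h5⟩ := d2_fwd hb1 h12 hm e1 e2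
    simp only [h4]
    congr 1
    have hμ' : (μ : ℝ) ≠ 0 := by exact_mod_cast hμ.ne'
    have h6 : (a2 : ℝ) - a1 = μ * (2 * n1 + 1 + b * μ) := by exact_mod_cast h5
    have h7 : (n1 : ℝ) ^ 2 + n1 + k = a1 * b := by unfold FF at e1; exact_mod_cast e1
    unfold disc
    rw [h6, mul_div_cancel_left₀ _ hμ']
    linear_combination 4 * h7 - 2 * (b : ℝ) * h6

theorem t_D2 : S_D2 := by
  intro A n0 I α w hA hn hI hw
  set P : ℕ → ℕ → ℕ → ℝ := fun b a1 a2 => ∑ k ∈ KR n0, ∑ n1 ∈ range n0, ∑ n2 ∈ range n0,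
    if n1 < n2 ∧ n1 ≡ n2 [MOD b] ∧ FF k n1 = a1 * b ∧ FF k n2 = a2 * b then w b (4 * k - 1) else 0
    with hP
  have hoff : offS α I n0 (offT w n0) =
      ∑ b ∈ Icc 1 n0, ∑ a1 ∈ I, ∑ a2 ∈ I, α a1 * α a2 * (P b a1 a2 + P b a2 a1) := by
    rw [sum_comm]
    refine sum_congr rfl fun a1 ha1 => ?_
    rw [sum_comm]
    refine sum_congr rfl fun a2 ha2 => ?_
    rw [← mul_sum]
    congr 1
    simp only [offT, sum_filter]
    have e : ∀ μ, (if Cg μ a1 a2 then ∑ b ∈ Icc 1 n0,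
        if (b : ℤ) * μ ^ 2 + μ ≤ |(a2 : ℤ) - a1| then w b (disc μ a1 a2 b) else 0 else 0) =
        ∑ b ∈ Icc 1 n0, if Cg μ a1 a2 ∧ (b : ℤ) * μ ^ 2 + μ ≤ |(a2 : ℤ) - a1| then
          w b (disc μ a1 a2 b) else 0 := by
      intro μ; by_cases h : Cg μ a1 a2 <;> simp [h]
    simp only [e]
    rw [sum_comm]
    refine sum_congr rfl fun b hb => ?_
    simp only [hP]
    rw [d2_core hA hn (hI a1 ha1) (hI a2 ha2) hb (w b) fun h κ => hw b κ h,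
      d2_core hA hn (hI a2 ha2) (hI a1 ha1) hb (w b) fun h κ => hw b κ h, ← sum_add_distrib]
    refine sum_congr rfl fun μ hμ => ?_
    have hc : Cg μ a2 a1 ↔ Cg μ a1 a2 := ⟨d2_cg_symm, d2_cg_symm⟩
    rw [d2_disc_symm μ a2 a1, abs_sub_comm (a1 : ℤ) a2]
    rcases lt_trichotomy a1 a2 with h | h | h
    · simp [h, h.not_gt]
    · subst h
      have h1 : (1 : ℤ) ≤ μ := by exact_mod_cast (mem_Icc.1 hμ).1
      have h2 : (0 : ℤ) ≤ b * μ ^ 2 := by positivity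
      have h3 : ¬ (b : ℤ) * μ ^ 2 + μ ≤ 0 := by linarith
      simp [h3]
    · simp [h, h.not_gt, hc]
  rw [hoff, dg, ← sum_add_distrib]
  refine sum_congr rfl fun b hb => ?_
  have hb0 : (b : ℤ) ≠ 0 := by exact_mod_cast (show b ≠ 0 by have := (mem_Icc.1 hb).1; omega)
  have e2 : ∑ a1 ∈ I, ∑ a2 ∈ I, α a1 * α a2 * (P b a1 a2 + P b a2 a1) =
      ∑ k ∈ KR n0, ∑ n1 ∈ range n0, ∑ n2 ∈ range n0, ∑ a1 ∈ I, ∑ a2 ∈ I,
        if n1 ≠ n2 ∧ n1 ≡ n2 [MOD b] ∧ FF k n1 = a1 * b ∧ FF k n2 = a2 * b then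
          w b (4 * k - 1) * (α a1 * α a2) else 0 := by
    have e3 : ∀ a1 a2, P b a1 a2 + P b a2 a1 = ∑ k ∈ KR n0, ∑ n1 ∈ range n0, ∑ n2 ∈ range n0,
        if n1 ≠ n2 ∧ n1 ≡ n2 [MOD b] ∧ FF k n1 = a1 * b ∧ FF k n2 = a2 * b then
          w b (4 * k - 1) else 0 := by
      intro a1 a2
      simp only [hP]
      rw [← sum_add_distrib]
      refine sum_congr rfl fun k _ => ?_
      rw [sum_comm (s := range n0) (t := range n0) (f := fun n1 n2 => if n1 < n2 ∧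
        n1 ≡ n2 [MOD b] ∧ FF k n1 = a2 * b ∧ FF k n2 = a1 * b then w b (4 * k - 1) else 0),
        ← sum_add_distrib]
      refine sum_congr rfl fun n1 _ => ?_
      rw [← sum_add_distrib]
      refine sum_congr rfl fun n2 _ => ?_
      have hs : n2 ≡ n1 [MOD b] ↔ n1 ≡ n2 [MOD b] := ⟨Nat.ModEq.symm, Nat.ModEq.symm⟩
      rcases lt_trichotomy n1 n2 with h | h | h
      · simp [h, h.not_gt, h.ne]
      · simp [h]
      · simp [h, h.not_gt, h.ne', hs, and_comm]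
    simp only [e3, mul_sum, mul_ite, mul_zero]
    symm
    simp only [mul_comm (w b _)]
    rw [sum_congr rfl fun k _ => sum_congr rfl fun n1 _ => sum_comm,
      sum_congr rfl fun k _ => sum_comm, sum_comm]
    refine sum_congr rfl fun a1 _ => ?_
    rw [sum_congr rfl fun k _ => sum_congr rfl fun n1 _ => sum_comm,
      sum_congr rfl fun k _ => sum_comm, sum_comm]
  rw [e2, ← sum_add_distrib]
  refine sum_congr rfl fun k _ => ?_
  simp only [Qf, mul_sum]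
  rw [← sum_add_distrib]
  refine sum_congr rfl fun n1 hn1 => ?_
  have e4 : ∑ a ∈ I, w b (4 * k - 1) * (if FF k n1 = a * b then α a ^ 2 else 0) =
      ∑ n2 ∈ range n0, ∑ a1 ∈ I, ∑ a2 ∈ I, if n1 = n2 ∧ FF k n1 = a1 * b ∧ FF k n2 = a2 * b then
        w b (4 * k - 1) * (α a1 * α a2) else 0 := by
    rw [sum_eq_single_of_mem n1 hn1 fun n2 _ h => by simp [h.symm]]
    refine sum_congr rfl fun a1 ha1 => ?_
    rw [sum_eq_single_of_mem a1 ha1]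
    · by_cases h : FF k n1 = a1 * b <;> simp [h, sq]
    · intro a2 _ h
      refine if_neg fun h1 => h ?_
      have := mul_right_cancel₀ hb0 (h1.2.2.symm.trans h1.2.1)
      exact_mod_cast this
  rw [e4, ← sum_add_distrib]
  refine sum_congr rfl fun n2 _ => ?_
  rw [← sum_add_distrib]
  refine sum_congr rfl fun a1 _ => ?_
  rw [← sum_add_distrib]
  refine sum_congr rfl fun a2 _ => ?_
  by_cases h : n1 = n2
  · subst h; simp [Nat.ModEq.refl]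
  · simp [h]

end Pool.Agent.P.MP_8be758_nt.Avg
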