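import Pool.Agent.P.MP_8be758_nt.Avg.Basic

/-! Replacing the off-diagonal sum by its Gaussian model. -/

namespace Pool.Agent.P.MP_8be758_nt.Avg

open Finset Real Filter Topology
open Pool.Agent.P.MP_e86632_nt (ee)

theorem d4_exp_aux {a b : ℝ} (ha : 0 ≤ a) (hab : a ≤ b) :
    |Real.exp (-a) - Real.exp (-b)| ≤ b - a := by
  have h1 : Real.exp (-b) = Real.exp (-a) * Real.exp (-(b - a)) := by
    rw [← Real.exp_add]; congr 1; ring
  have h2 := Real.add_one_le_exp (-(b - a))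
  have h3 : Real.exp (-a) ≤ 1 := Real.exp_le_one_iff.2 (by linarith)
  have h4 := Real.exp_pos (-a)
  have h5 : Real.exp (-(b - a)) ≤ 1 := Real.exp_le_one_iff.2 (by linarith)
  rw [h1, abs_le]
  constructor <;> nlinarith

theorem d4_exp_lip {a b : ℝ} (ha : 0 ≤ a) (hb : 0 ≤ b) :
    |Real.exp (-a) - Real.exp (-b)| ≤ |a - b| := by
  rcases le_total a b with h | h
  · rw [abs_sub_comm a b, abs_of_nonneg (sub_nonneg.2 h)]
    exact d4_exp_aux ha h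
  · rw [abs_sub_comm, abs_of_nonneg (sub_nonneg.2 h)]
    exact d4_exp_aux hb h

theorem d4_psi_lip {B x y : ℝ} (hB : 0 < B) (hx : 0 ≤ x) (hy : 0 ≤ y) :
    |psi B x - psi B y| ≤ 3 * π * |x - y| / B := by
  have hp := Real.pi_pos
  have h1 := d4_exp_lip (a := π * x / B) (b := π * y / B) (by positivity) (by positivity)
  have h2 := d4_exp_lip (a := 2 * π * x / B) (b := 2 * π * y / B) (by positivity) (by positivity)
  have h3 : |π * x / B - π * y / B| = π * |x - y| / B := by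
    rw [show π * x / B - π * y / B = π / B * (x - y) by ring, abs_mul, abs_of_pos (by positivity)]
    ring
  have h4 : |2 * π * x / B - 2 * π * y / B| = 2 * (π * |x - y| / B) := by
    rw [show 2 * π * x / B - 2 * π * y / B = 2 * π / B * (x - y) by ring, abs_mul,
      abs_of_pos (by positivity)]
    ring
  rw [h3] at h1
  rw [h4] at h2
  have h5 : psi B x - psi B y = (Real.exp (-(π * x / B)) - Real.exp (-(π * y / B))) -
      (Real.exp (-(2 * π * x / B)) - Real.exp (-(2 * π * y / B))) := by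
    simp only [psi]; ring
  rw [h5]
  refine (abs_sub _ _).trans ?_
  rw [show 3 * π * |x - y| / B = π * |x - y| / B + 2 * (π * |x - y| / B) by ring]
  exact add_le_add h1 h2

theorem d4_gs_lip {u v w : ℝ} (hu : w ^ 2 ≤ u ^ 2) (hv : w ^ 2 ≤ v ^ 2) :
    |gs u - gs v| ≤ π * |u ^ 2 - v ^ 2| * gs w := by
  have hp := Real.pi_pos
  have e : ∀ t : ℝ, gs t = gs w * Real.exp (-(π * (t ^ 2 - w ^ 2))) := fun t => by
    simp only [gs]; rw [← Real.exp_add]; congr 1; ring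
  have h1 := d4_exp_lip (a := π * (u ^ 2 - w ^ 2)) (b := π * (v ^ 2 - w ^ 2))
    (mul_nonneg hp.le (by linarith)) (mul_nonneg hp.le (by linarith))
  rw [show π * (u ^ 2 - w ^ 2) - π * (v ^ 2 - w ^ 2) = π * (u ^ 2 - v ^ 2) by ring, abs_mul,
    abs_of_pos hp] at h1
  rw [e u, e v, ← mul_sub, abs_mul, abs_of_pos (gs_pos w), mul_comm]
  exact mul_le_mul_of_nonneg_right h1 (gs_pos w).le

theorem d4_gs_dom (v : ℝ) : |v| * (1 + v ^ 2) * gs (15 / 16 * v) ≤ gs (v / 2) := by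
  have hp := Real.pi_gt_three
  have h0 : 0 ≤ v ^ 2 := sq_nonneg v
  have h1 : gs (v / 2) = Real.exp (π * (161 / 256) * v ^ 2) * gs (15 / 16 * v) := by
    simp only [gs]; rw [← Real.exp_add]; congr 1; ring
  have h2 : 3 / 2 * v ^ 2 ≤ π * (161 / 256) * v ^ 2 := by nlinarith
  have h3 := Real.quadratic_le_exp_of_nonneg (x := 3 / 2 * v ^ 2) (by positivity)
  have h4 := Real.exp_le_exp.2 h2
  have h5 : |v| ≤ (1 + v ^ 2) / 2 := by
    have := sq_abs v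
    nlinarith [sq_nonneg (|v| - 1)]
  rw [h1]
  refine mul_le_mul_of_nonneg_right ?_ (gs_pos _).le
  have h6 : |v| * (1 + v ^ 2) ≤ (1 + v ^ 2) / 2 * (1 + v ^ 2) :=
    mul_le_mul_of_nonneg_right h5 (by positivity)
  nlinarith

theorem d4_fin {B r y : ℝ} (hB : 0 < B) (hr : 0 < r) :
    10 * |y| / B * (1 + (r * y) ^ 2) * gs (15 / 16 * (r * y)) ≤
      10 / (r * B) * gs (r / 2 * y) := by
  have h1 := d4_gs_dom (r * y)
  rw [abs_mul, abs_of_pos hr, show r * y / 2 = r / 2 * y by ring] at h1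
  have h2 : 10 * |y| / B * (1 + (r * y) ^ 2) * gs (15 / 16 * (r * y)) =
      10 / (r * B) * (r * |y| * (1 + (r * y) ^ 2) * gs (15 / 16 * (r * y))) := by
    field_simp
  rw [h2]
  exact mul_le_mul_of_nonneg_left h1 (by positivity)

theorem d4_invalid {B r y b1 : ℝ} (hB : 0 < B) (hr : 0 < r) (h0 : 0 ≤ b1) (h1 : b1 ≤ |y|) :
    psi B b1 * gs (r * y) ≤ 10 / (r * B) * gs (r / 2 * y) := by
  refine le_trans ?_ (d4_fin hB hr)
  have h2 : psi B b1 ≤ 10 * |y| / B := by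
    refine (psi_le_lin hB h0).trans (div_le_div_of_nonneg_right ?_ hB.le)
    nlinarith [Real.pi_lt_four]
  have h3 : gs (r * y) ≤ gs (15 / 16 * (r * y)) := by
    refine gs_anti ?_
    rw [abs_mul (15 / 16 : ℝ), abs_of_pos (by norm_num : (0 : ℝ) < 15 / 16)]
    nlinarith [abs_nonneg (r * y)]
  have h4 : 0 ≤ 10 * |y| / B := by positivity
  have h5 : 10 * |y| / B ≤ 10 * |y| / B * (1 + (r * y) ^ 2) := by nlinarith [sq_nonneg (r * y)]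
  exact mul_le_mul (h2.trans h5) h3 (gs_pos _).le (h4.trans h5)

theorem d4_valid {B v t y b b1 : ℝ} (hB : 0 < B) (hb : 0 ≤ b) (h0 : 0 ≤ b1) (hy : y = b - b1)
    (ht : |t| ≤ 1 / 16) (hbt : b1 * |t| ≤ |y| / 32) :
    |psi B b * gs (v * (1 - t)) - psi B b1 * gs v| ≤
      10 * |y| / B * (1 + v ^ 2) * gs (15 / 16 * v) := by
  have hp := Real.pi_pos
  have hp4 := Real.pi_lt_d2
  have hv := sq_nonneg v
  have ht' := abs_le.1 ht
  have h1 : (15 / 16 * v) ^ 2 ≤ (v * (1 - t)) ^ 2 := by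
    have : (15 / 16 : ℝ) ^ 2 ≤ (1 - t) ^ 2 := by nlinarith [ht'.1, ht'.2]
    nlinarith
  have h2 : (15 / 16 * v) ^ 2 ≤ v ^ 2 := by nlinarith
  have h3 := d4_gs_lip h1 h2
  have h4 := d4_psi_lip hB hb h0
  rw [← hy] at h4
  have h5 : gs (v * (1 - t)) ≤ gs (15 / 16 * v) := gs_anti (sq_le_sq.1 h1)
  have h6 : |(v * (1 - t)) ^ 2 - v ^ 2| ≤ 3 * v ^ 2 * |t| := by
    rw [show (v * (1 - t)) ^ 2 - v ^ 2 = v ^ 2 * t * (t - 2) by ring, abs_mul, abs_mul,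
      abs_of_nonneg hv]
    have : |t - 2| ≤ 3 := abs_le.2 ⟨by linarith [ht'.1], by linarith [ht'.2]⟩
    have h7 : 0 ≤ v ^ 2 * |t| := by positivity
    nlinarith
  have hG := gs_pos (15 / 16 * v)
  have h7 : psi B b1 ≤ π * b1 / B := psi_le_lin hB h0
  have h8 : 0 ≤ psi B b1 := psi_nonneg hB h0
  have h9 : psi B b * gs (v * (1 - t)) - psi B b1 * gs v =
      (psi B b - psi B b1) * gs (v * (1 - t)) + psi B b1 * (gs (v * (1 - t)) - gs v) := by ring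
  rw [h9]
  refine (abs_add_le _ _).trans ?_
  rw [abs_mul, abs_mul, abs_of_pos (gs_pos _), abs_of_nonneg h8]
  have hyB : 0 ≤ |y| / B := by positivity
  have k1 : |psi B b - psi B b1| * gs (v * (1 - t)) ≤ 10 * |y| / B * gs (15 / 16 * v) := by
    refine mul_le_mul (h4.trans ?_) h5 (gs_pos _).le (by positivity)
    refine div_le_div_of_nonneg_right ?_ hB.le
    nlinarith [abs_nonneg y]
  have k2 : psi B b1 * |gs (v * (1 - t)) - gs v| ≤ 10 * |y| / B * v ^ 2 * gs (15 / 16 * v) := by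
    have k3 : |gs (v * (1 - t)) - gs v| ≤ π * (3 * v ^ 2 * |t|) * gs (15 / 16 * v) :=
      h3.trans (by gcongr)
    refine (mul_le_mul h7 k3 (abs_nonneg _) (by positivity)).trans ?_
    have k4 : π * b1 / B * (π * (3 * v ^ 2 * |t|) * gs (15 / 16 * v)) =
        3 * π ^ 2 * (b1 * |t|) / B * v ^ 2 * gs (15 / 16 * v) := by ring
    rw [k4]
    have k5 : π ^ 2 ≤ 16 := by nlinarith
    have k6 : 0 ≤ b1 * |t| := by positivity
    have k7 : 3 * π ^ 2 * (b1 * |t|) ≤ 10 * |y| := by nlinarith [abs_nonneg y]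
    exact mul_le_mul_of_nonneg_right
      (mul_le_mul_of_nonneg_right (div_le_div_of_nonneg_right k7 hB.le) hv) hG.le
  refine (add_le_add k1 k2).trans (le_of_eq ?_)
  ring

/-- facts about the difference of square roots -/
theorem d4_sg {A : ℝ} {a1 a2 : ℕ} (hA : 1 ≤ A) (h1 : A < a1 ∧ (a1 : ℝ) ≤ 5 / 4 * A)
    (h2 : A < a2 ∧ (a2 : ℝ) ≤ 5 / 4 * A) :
    A ≤ √((a1 : ℝ) * a2) ∧ |(a2 : ℝ) - a1| ≤ A / 4 ∧ 2 * sg a1 a2 ^ 2 ≤ |(a2 : ℝ) - a1| ∧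
    (a1 : ℝ) + a2 = sg a1 a2 ^ 2 + 2 * √((a1 : ℝ) * a2) ∧
    ((a2 : ℝ) - a1) ^ 2 = sg a1 a2 ^ 2 * (sg a1 a2 ^ 2 + 4 * √((a1 : ℝ) * a2)) := by
  have p1 : (0 : ℝ) ≤ a1 := Nat.cast_nonneg _
  have p2 : (0 : ℝ) ≤ a2 := Nat.cast_nonneg _
  have e1 := Real.sq_sqrt p1
  have e2 := Real.sq_sqrt p2
  have hA' : A ≤ √((a1 : ℝ) * a2) := Real.le_sqrt_of_sq_le (by nlinarith [h1.1, h2.1])
  have habs : |(a2 : ℝ) - a1| ≤ A / 4 :=
    abs_le.2 ⟨by linarith [h1.2, h2.1], by linarith [h1.1, h2.2]⟩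
  have e3 : (a1 : ℝ) + a2 = sg a1 a2 ^ 2 + 2 * √((a1 : ℝ) * a2) := by
    rw [Real.sqrt_mul p1, sg]; nlinarith
  have e4 : ((a2 : ℝ) - a1) ^ 2 = sg a1 a2 ^ 2 * (sg a1 a2 ^ 2 + 4 * √((a1 : ℝ) * a2)) := by
    rw [Real.sqrt_mul p1, sg]
    generalize √(a1 : ℝ) = s at *
    generalize √(a2 : ℝ) = t at *
    rw [← e1, ← e2]; ring
  refine ⟨hA', habs, ?_, e3, e4⟩
  have q0 := sq_nonneg (sg a1 a2)
  generalize sg a1 a2 ^ 2 = S at *
  have q1 := sq_abs ((a2 : ℝ) - a1)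
  have q2 := abs_nonneg ((a2 : ℝ) - a1)
  generalize |(a2 : ℝ) - a1| = H at *
  by_contra hc
  push Not at hc
  have q3 : H ^ 2 ≥ S * (4 * A) := by rw [q1, e4]; nlinarith
  nlinarith

theorem d4_dvd {μ a1 a2 : ℕ} (h : Cg μ a1 a2) : (μ : ℤ) ∣ (a2 : ℤ) - a1 := by
  have h1 := (Int.ModEq.of_mul_left 2 h).symm.dvd
  have h2 : (μ : ℤ) ∣ μ * (μ + 1) := dvd_mul_right _ _
  simpa using h1.add h2

open Classical in
/-- the off-diagonal summand extended to all integers -/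
noncomputable def d4F (ν : ℤ → ℝ) (B K : ℝ) (μ a1 a2 : ℕ) (b : ℤ) : ℝ :=
  if 1 ≤ b ∧ b * μ ^ 2 + μ ≤ |(a2 : ℤ) - a1| then
    ν b * (psi B b * gs (disc μ a1 a2 b / (4 * K))) else 0

theorem d4_pt {A B K D : ℝ} {μ a1 a2 : ℕ} {ν : ℤ → ℝ} (hA : 1 ≤ A) (hB : 0 < B) (hK : 0 < K)
    (h1 : A < a1 ∧ (a1 : ℝ) ≤ 5 / 4 * A) (h2 : A < a2 ∧ (a2 : ℝ) ≤ 5 / 4 * A) (hμ : 1 ≤ μ)
    (hd : (μ : ℤ) ∣ (a2 : ℤ) - a1) (hν : ∀ b, 0 ≤ ν b ∧ ν b ≤ D) (b : ℤ) :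
    |d4F ν B K μ a1 a2 b - psi B (sg a1 a2 ^ 2 / (μ : ℝ) ^ 2) *
      (ν b * gs (√((a1 : ℝ) * a2) / K * (b - sg a1 a2 ^ 2 / (μ : ℝ) ^ 2)))| ≤
      D * (10 / (√((a1 : ℝ) * a2) / K * B) *
        gs (√((a1 : ℝ) * a2) / K / 2 * (b - sg a1 a2 ^ 2 / (μ : ℝ) ^ 2))) := by
  obtain ⟨g1, g2, g3, g4, g5⟩ := d4_sg hA h1 h2
  have m1 : (1 : ℝ) ≤ μ := by exact_mod_cast hμ
  have m2 : (0 : ℝ) < (μ : ℝ) ^ 2 := by positivity
  have q0 := sq_nonneg (sg a1 a2)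
  have hdisc : disc μ a1 a2 b = -((μ : ℝ) ^ 2 * b ^ 2) +
      2 * (sg a1 a2 ^ 2 + 2 * √((a1 : ℝ) * a2)) * b -
      sg a1 a2 ^ 2 * (sg a1 a2 ^ 2 + 4 * √((a1 : ℝ) * a2)) / (μ : ℝ) ^ 2 := by
    rw [disc, div_pow, g5, g4]
  generalize sg a1 a2 ^ 2 = S at *
  generalize √((a1 : ℝ) * a2) = g at *
  have hg : 0 < g := by linarith
  have hr : 0 < g / K := by positivity
  have hb1 : 0 ≤ S / (μ : ℝ) ^ 2 := by positivity
  have key : ∀ x : ℝ, |x| ≤ 10 / (g / K * B) * gs (g / K / 2 * (b - S / (μ : ℝ) ^ 2)) →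
      |ν b * x| ≤ D * (10 / (g / K * B) * gs (g / K / 2 * (b - S / (μ : ℝ) ^ 2))) := by
    intro x hx
    rw [abs_mul, abs_of_nonneg (hν b).1]
    exact mul_le_mul (hν b).2 hx (abs_nonneg _) ((hν b).1.trans (hν b).2)
  unfold d4F
  split_ifs with hc
  · rw [mul_left_comm (psi B (S / (μ : ℝ) ^ 2)), ← mul_sub]
    refine key _ (le_trans ?_ (d4_fin hB hr))
    have c1 : (1 : ℝ) ≤ b := by exact_mod_cast hc.1
    have c2 : (b : ℝ) * (μ : ℝ) ^ 2 + μ ≤ |(a2 : ℝ) - a1| := by exact_mod_cast hc.2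
    have c3 : disc μ a1 a2 b / (4 * K) = g / K * (b - S / (μ : ℝ) ^ 2) *
        (1 - (μ : ℝ) ^ 2 * (b - S / (μ : ℝ) ^ 2) / (4 * g)) := by
      rw [hdisc]; field_simp; ring
    have c4 : (μ : ℝ) ^ 2 * (b - S / (μ : ℝ) ^ 2) = b * (μ : ℝ) ^ 2 - S := by field_simp
    have c5 : 0 ≤ (b : ℝ) * (μ : ℝ) ^ 2 := by positivity
    rw [c3]
    refine d4_valid hB (by linarith) hb1 rfl ?_ ?_
    · rw [c4, abs_div, abs_of_pos (by positivity : 0 < 4 * g), div_le_iff₀ (by positivity)]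
      exact abs_le.2 ⟨by linarith, by linarith⟩
    · rw [abs_div, abs_mul, abs_of_pos (by positivity : 0 < 4 * g), abs_of_pos m2]
      have c6 : S / (μ : ℝ) ^ 2 * ((μ : ℝ) ^ 2 * |b - S / (μ : ℝ) ^ 2| / (4 * g)) =
          S / (4 * g) * |b - S / (μ : ℝ) ^ 2| := by field_simp
      have c7 : S / (4 * g) ≤ 1 / 32 := by
        rw [div_le_iff₀ (by positivity)]; linarith
      rw [c6]
      nlinarith [abs_nonneg ((b : ℝ) - S / (μ : ℝ) ^ 2)]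
  · rw [zero_sub, abs_neg, mul_left_comm]
    refine key _ ?_
    rw [abs_of_nonneg (mul_nonneg (psi_nonneg hB hb1) (gs_pos _).le)]
    refine d4_invalid hB hr hb1 ?_
    rcases lt_or_ge b 1 with c1 | c1
    · have c2 : (b : ℝ) ≤ 0 := by exact_mod_cast (by omega : b ≤ 0)
      exact le_trans (by linarith) (neg_le_abs _)
    · have c2 : |(a2 : ℤ) - a1| < b * μ ^ 2 + μ := by
        by_contra c3
        exact hc ⟨c1, not_lt.1 c3⟩
      obtain ⟨s, hs⟩ := (dvd_abs _ _).2 hd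
      have c3 : (0 : ℤ) < μ := by exact_mod_cast hμ
      have c4 : s < b * μ + 1 := by
        rw [hs] at c2
        exact lt_of_mul_lt_mul_left (a := (μ : ℤ)) (by nlinarith) c3.le
      have c5 : |(a2 : ℤ) - a1| ≤ b * μ ^ 2 := by
        rw [hs]
        have : s ≤ b * μ := by omega
        nlinarith
      have c6 : |(a2 : ℝ) - a1| ≤ b * (μ : ℝ) ^ 2 := by exact_mod_cast c5
      have c7 : 2 * (S / (μ : ℝ) ^ 2) ≤ b := by
        rw [← mul_div_assoc, div_le_iff₀ m2]; linarith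
      exact le_trans (by linarith) (le_abs_self _)

theorem d4_off {A B K : ℝ} {n0 μ a1 a2 : ℕ} {ν : ℤ → ℝ} (hn : 2 * A ≤ n0) (hA : 1 ≤ A)
    (h1 : A < a1 ∧ (a1 : ℝ) ≤ 5 / 4 * A) (h2 : A < a2 ∧ (a2 : ℝ) ≤ 5 / 4 * A) (hμ : 1 ≤ μ) :
    HasSum (d4F ν B K μ a1 a2) (offT (wt ν B K) n0 μ a1 a2) := by
  have g2 := (d4_sg hA h1 h2).2.1
  have e : offT (wt ν B K) n0 μ a1 a2 = ∑ b ∈ ((Icc 1 n0).filter
      (fun b : ℕ => (b : ℤ) * μ ^ 2 + μ ≤ |(a2 : ℤ) - a1|)).map Nat.castEmbedding,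
      d4F ν B K μ a1 a2 b := by
    rw [offT, sum_map]
    refine sum_congr rfl fun b hb => ?_
    have hb1 := mem_filter.1 hb
    have hb2 : (1 : ℤ) ≤ b := by exact_mod_cast (mem_Icc.1 hb1.1).1
    rw [Nat.castEmbedding_apply, d4F, if_pos ⟨hb2, hb1.2⟩, wt, mul_assoc, Int.cast_natCast]
  rw [e]
  refine hasSum_sum_of_ne_finset_zero fun b hb => ?_
  rw [d4F]
  refine if_neg fun hc => hb ?_
  obtain ⟨c, rfl⟩ := Int.eq_ofNat_of_zero_le (by linarith [hc.1] : 0 ≤ b)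
  refine mem_map.2 ⟨c, mem_filter.2 ⟨mem_Icc.2 ⟨by exact_mod_cast hc.1, ?_⟩, hc.2⟩, rfl⟩
  have c2 : (c : ℝ) * (μ : ℝ) ^ 2 + μ ≤ |(a2 : ℝ) - a1| := by exact_mod_cast hc.2
  have m1 : (1 : ℝ) ≤ μ := by exact_mod_cast hμ
  have m2 : (1 : ℝ) ≤ (μ : ℝ) ^ 2 := by nlinarith
  have c0 : (0 : ℝ) ≤ c := Nat.cast_nonneg c
  have c3 : (c : ℝ) ≤ n0 := by nlinarith
  exact_mod_cast c3

theorem d4_term (hGS1 : S_GS1) (hGS2 : S_GS2) {A B K D : ℝ} {n0 μ a1 a2 : ℕ} {ν : ℤ → ℝ}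
    (hA : 1 ≤ A) (hB : 0 < B) (hK : 0 < K) (hn : 2 * A ≤ n0)
    (h1 : A < a1 ∧ (a1 : ℝ) ≤ 5 / 4 * A) (h2 : A < a2 ∧ (a2 : ℝ) ≤ 5 / 4 * A) (hμ : 1 ≤ μ)
    (hd : (μ : ℤ) ∣ (a2 : ℤ) - a1) (hν : ∀ b, 0 ≤ ν b ∧ ν b ≤ D) :
    |offT (wt ν B K) n0 μ a1 a2 - modT ν B K μ a1 a2| ≤ 80 * D * K * (A + K) / (A ^ 2 * B) := by
  have g1 := (d4_sg hA h1 h2).1
  have hpt := d4_pt (K := K) hA hB hK h1 h2 hμ hd hν
  have ho := d4_off (B := B) (K := K) (ν := ν) hn hA h1 h2 hμ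
  rw [modT]
  generalize sg a1 a2 ^ 2 / (μ : ℝ) ^ 2 = c at *
  generalize √((a1 : ℝ) * a2) = g at *
  have hg : 0 < g := by linarith
  have hr : 0 < g / K := by positivity
  have hD : 0 ≤ D := (hν 0).1.trans (hν 0).2
  have s1 : Summable fun b : ℤ => ν b * gs (g / K * (b - c)) :=
    Summable.of_nonneg_of_le (fun b => mul_nonneg (hν b).1 (gs_pos _).le)
      (fun b => mul_le_mul_of_nonneg_right (hν b).2 (gs_pos _).le)
      ((hGS1 (g / K) 0 c hr).1.mul_left D)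
  have s2 := (hGS1 (g / K / 2) 0 c (by positivity)).1
  have s3 := ho.sub (s1.hasSum.mul_left (psi B c))
  have s4 := (s2.hasSum.mul_left (10 / (g / K * B))).mul_left D
  have s5 := tsum_of_norm_bounded s4 (fun b => by rw [Real.norm_eq_abs]; exact hpt b)
  rw [s3.tsum_eq, Real.norm_eq_abs] at s5
  refine s5.trans ?_
  have s6 := hGS2 (g / K / 2) c (by positivity)
  have s7 : 10 / (g / K * B) ≤ 10 * K / (A * B) := by
    rw [show 10 / (g / K * B) = 10 * K / (g * B) by field_simp]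
    gcongr
  have s8 : 4 * (1 + 1 / (g / K / 2)) ≤ 8 * (A + K) / A := by
    rw [show 1 / (g / K / 2) = 2 * K / g by field_simp,
      show 8 * (A + K) / A = 4 * (2 + 2 * K / A) by field_simp; ring]
    have : 2 * K / g ≤ 2 * K / A := by gcongr
    linarith
  have s9 : 0 ≤ ∑' b : ℤ, gs (g / K / 2 * (b - c)) := tsum_nonneg fun b => (gs_pos _).le
  have s10 := mul_le_mul s7 (s6.trans s8) s9 (by positivity)
  refine (mul_le_mul_of_nonneg_left s10 hD).trans (le_of_eq ?_)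
  field_simp
  ring

theorem d4_diag (ν : ℤ → ℝ) (B K : ℝ) (n0 μ a : ℕ) (hμ : 1 ≤ μ) :
    offT (wt ν B K) n0 μ a a - modT ν B K μ a a = 0 := by
  have h1 : offT (wt ν B K) n0 μ a a = 0 := by
    refine sum_eq_zero fun b hb => ?_
    have h2 := (mem_filter.1 hb).2
    have h3 : (1 : ℤ) ≤ μ := by exact_mod_cast hμ
    have h4 : (0 : ℤ) ≤ (b : ℤ) * μ ^ 2 := by positivity
    rw [sub_self, abs_zero] at h2
    omega
  have h2 : modT ν B K μ a a = 0 := by simp [modT, sg, psi_zero]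
  rw [h1, h2, sub_self]

theorem d4_cnt1 {A : ℝ} {I : Finset ℕ} (hA : 1 ≤ A) (hI : Rng A I) {a1 μ : ℕ} (ha : a1 ∈ I)
    (hμ : 1 ≤ μ) (hμA : (μ : ℝ) ≤ A) :
    ((I.filter fun a2 : ℕ => (μ : ℤ) ∣ (a2 : ℤ) - a1).card : ℝ) ≤ 3 * A * (1 / μ) := by
  have m0 : (0 : ℝ) < μ := by exact_mod_cast hμ
  have h1 : (I.filter fun a2 : ℕ => (μ : ℤ) ∣ (a2 : ℤ) - a1).card ≤
      (Icc (-(⌊A / μ⌋₊ : ℤ)) ⌊A / μ⌋₊).card := by
    refine card_le_card_of_injOn (fun a2 : ℕ => ((a2 : ℤ) - a1) / μ) ?_ ?_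
    · intro a2 h2
      obtain ⟨h3, s, hs⟩ := mem_filter.1 (mem_coe.1 h2)
      have g2 := (d4_sg hA (hI a1 ha) (hI a2 h3)).2.1
      have h4 : (a2 : ℝ) - a1 = μ * s := by exact_mod_cast hs
      have h5 : ((a2 : ℤ) - a1) / μ = s := by
        rw [hs, Int.mul_ediv_cancel_left _ (by exact_mod_cast (by omega : μ ≠ 0))]
      have h6 : s.natAbs ≤ ⌊A / μ⌋₊ := by
        refine Nat.le_floor ?_
        rw [le_div_iff₀ m0, Nat.cast_natAbs, Int.cast_abs]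
        rw [h4, abs_mul, abs_of_pos m0] at g2
        linarith
      simp only [h5, coe_Icc, Set.mem_Icc]
      omega
    · intro a2 h2 a3 h3 h4
      have h5 := Int.mul_ediv_cancel' (mem_filter.1 (mem_coe.1 h2)).2
      have h6 := Int.mul_ediv_cancel' (mem_filter.1 (mem_coe.1 h3)).2
      have h7 : ((a2 : ℤ) - a1) / μ = ((a3 : ℤ) - a1) / μ := h4
      rw [h7, h6] at h5
      omega
  rw [Int.card_Icc] at h1
  have h2 : (I.filter fun a2 : ℕ => (μ : ℤ) ∣ (a2 : ℤ) - a1).card ≤ 2 * ⌊A / μ⌋₊ + 1 := by omega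
  have h3 : (⌊A / μ⌋₊ : ℝ) ≤ A / μ := Nat.floor_le (by positivity)
  have h4 : 1 ≤ A / μ := by rw [le_div_iff₀ m0]; linarith
  have h5 : ((I.filter fun a2 : ℕ => (μ : ℤ) ∣ (a2 : ℤ) - a1).card : ℝ) ≤
      2 * (⌊A / μ⌋₊ : ℝ) + 1 := by exact_mod_cast h2
  rw [mul_one_div, mul_div_assoc]
  linarith

theorem d4_cnt {A : ℝ} {I : Finset ℕ} (hA : 1 ≤ A) (hI : Rng A I) :
    ∑ a1 ∈ I, ∑ a2 ∈ I, ∑ μ ∈ Ioc 0 ⌊A⌋₊, (if (μ : ℤ) ∣ (a2 : ℤ) - a1 then (1 : ℝ) else 0) ≤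
      6 * A ^ 2 * (1 + Real.log A) := by
  have hl : ∑ μ ∈ Ioc 0 ⌊A⌋₊, (1 / (μ : ℝ)) ≤ 1 + Real.log A := by
    refine (Pool.Agent.P.MP_e86632_nt.sum_inv_le _).trans ?_
    have h1 : (0 : ℝ) < ⌊A⌋₊ := by exact_mod_cast Nat.floor_pos.2 hA
    have := Real.log_le_log h1 (Nat.floor_le (by linarith : 0 ≤ A))
    linarith
  have hl0 : 0 ≤ 1 + Real.log A := by have := Real.log_nonneg hA; linarith
  have h1 : ∀ a1 ∈ I, ∑ a2 ∈ I, ∑ μ ∈ Ioc 0 ⌊A⌋₊,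
      (if (μ : ℤ) ∣ (a2 : ℤ) - a1 then (1 : ℝ) else 0) ≤ 3 * A * (1 + Real.log A) := by
    intro a1 ha
    rw [sum_comm]
    refine le_trans ?_ (mul_le_mul_of_nonneg_left hl (by linarith))
    rw [mul_sum]
    refine sum_le_sum fun μ hμ => ?_
    have h2 := mem_Ioc.1 hμ
    rw [sum_boole]
    exact d4_cnt1 hA hI ha h2.1 ((Nat.le_floor_iff (by linarith)).1 h2.2)
  refine (sum_le_card_nsmul _ _ _ h1).trans ?_
  rw [nsmul_eq_mul]
  refine (mul_le_mul_of_nonneg_right (hI.card_le hA) (by positivity)).trans (le_of_eq ?_)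
  ring

theorem t_D4 (hGS1 : S_GS1) (hGS2 : S_GS2) : S_D4 := by
  refine ⟨480, by norm_num, fun A B K D n0 I α ν hA hB hK hn hI hα hν => ?_⟩
  have hD : 0 ≤ D := (hν 0).1.trans (hν 0).2
  have hE : 0 ≤ 80 * D * K * (A + K) / (A ^ 2 * B) := by positivity
  have h1 : ∀ a1 ∈ I, ∀ a2 ∈ I,
      |α a1 * α a2 * ∑ μ ∈ (Icc 1 n0).filter (fun μ => Cg μ a1 a2), offT (wt ν B K) n0 μ a1 a2 -
        α a1 * α a2 * ∑ μ ∈ (Icc 1 n0).filter (fun μ => Cg μ a1 a2), modT ν B K μ a1 a2| ≤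
      80 * D * K * (A + K) / (A ^ 2 * B) *
        ∑ μ ∈ Ioc 0 ⌊A⌋₊, (if (μ : ℤ) ∣ (a2 : ℤ) - a1 then (1 : ℝ) else 0) := by
    intro a1 h1 a2 h2
    rw [← mul_sub, ← sum_sub_distrib, abs_mul, abs_mul, sum_boole]
    have h3 : |α a1| * |α a2| ≤ 1 := mul_le_one₀ (hα a1) (abs_nonneg _) (hα a2)
    refine (mul_le_of_le_one_left (abs_nonneg _) h3).trans ?_
    by_cases h4 : a1 = a2
    · subst h4
      rw [sum_eq_zero fun μ hμ => d4_diag ν B K n0 μ a1 (mem_Icc.1 (mem_filter.1 hμ).1).1,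
        abs_zero]
      positivity
    refine (abs_sum_le_sum_abs _ _).trans ((sum_le_card_nsmul _ _ _ fun μ hμ =>
      d4_term hGS1 hGS2 hA hB hK hn (hI a1 h1) (hI a2 h2) (mem_Icc.1 (mem_filter.1 hμ).1).1
        (d4_dvd (mem_filter.1 hμ).2) hν).trans ?_)
    rw [nsmul_eq_mul, mul_comm]
    refine mul_le_mul_of_nonneg_left ?_ hE
    refine Nat.cast_le.2 (card_le_card fun μ hμ => ?_)
    have h5 := (mem_Icc.1 (mem_filter.1 hμ).1).1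
    have h6 := d4_dvd (mem_filter.1 hμ).2
    refine mem_filter.2 ⟨mem_Ioc.2 ⟨h5, Nat.le_floor ?_⟩, h6⟩
    have h7 : (μ : ℤ) ≤ |(a2 : ℤ) - a1| :=
      Int.le_of_dvd (abs_pos.2 (by omega)) ((dvd_abs _ _).2 h6)
    have h8 : (μ : ℝ) ≤ |(a2 : ℝ) - a1| := by exact_mod_cast h7
    have h9 := (d4_sg hA (hI a1 h1) (hI a2 h2)).2.1
    linarith
  rw [offS, offS, ← sum_sub_distrib]
  refine (abs_sum_le_sum_abs _ _).trans ?_
  have h2 : ∀ a1 ∈ I, |∑ a2 ∈ I, α a1 * α a2 *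
        ∑ μ ∈ (Icc 1 n0).filter (fun μ => Cg μ a1 a2), offT (wt ν B K) n0 μ a1 a2 -
      ∑ a2 ∈ I, α a1 * α a2 * ∑ μ ∈ (Icc 1 n0).filter (fun μ => Cg μ a1 a2), modT ν B K μ a1 a2| ≤
      80 * D * K * (A + K) / (A ^ 2 * B) *
        ∑ a2 ∈ I, ∑ μ ∈ Ioc 0 ⌊A⌋₊, (if (μ : ℤ) ∣ (a2 : ℤ) - a1 then (1 : ℝ) else 0) := by
    intro a1 ha
    rw [← sum_sub_distrib, mul_sum]
    exact (abs_sum_le_sum_abs _ _).trans (sum_le_sum fun a2 hb => h1 a1 ha a2 hb)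
  refine (sum_le_sum h2).trans ?_
  rw [← mul_sum]
  refine (mul_le_mul_of_nonneg_left (d4_cnt hA hI) hE).trans (le_of_eq ?_)
  field_simp
  ring

end Pool.Agent.P.MP_8be758_nt.Avg
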