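import Pool.Agent.P.MP_8be758_nt.Avg.Basic

/-! Mean square of short character sums, and tail products of the singular series. -/

namespace Pool.Agent.P.MP_8be758_nt.Avg

open Finset Real Filter Topology
open Pool.Agent.P.MP_e86632_nt (ee)

theorem dir_tail_aux {R : ℕ} (hR : 1 ≤ R) {M : ℕ} (hM : R ≤ M) :
    ∑ t ∈ Ioc R M, 1 / ((t : ℝ) * √(t : ℝ)) ≤ 2 / √(R : ℝ) - 2 / √(M : ℝ) := by
  induction M, hM using Nat.le_induction with
  | base => simp
  | succ M hM ih =>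
    rw [sum_Ioc_succ_top hM]
    have h0 : (0 : ℝ) < M := by exact_mod_cast hR.trans hM
    have ha : 0 < √(M : ℝ) := Real.sqrt_pos.2 h0
    have ha2 := Real.mul_self_sqrt h0.le
    have hb2 := Real.mul_self_sqrt (show (0 : ℝ) ≤ ((M + 1 : ℕ) : ℝ) by positivity)
    have hab : √(M : ℝ) ≤ √((M + 1 : ℕ) : ℝ) := Real.sqrt_le_sqrt (by push_cast; linarith)
    generalize √((M + 1 : ℕ) : ℝ) = b at *
    generalize √(M : ℝ) = a at *
    have hb : 0 < b := ha.trans_le hab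
    have h1 : b * b = a * a + 1 := by rw [hb2, ha2]; push_cast; ring
    have h2 : 1 / (((M + 1 : ℕ) : ℝ) * b) ≤ 2 / a - 2 / b := by
      rw [← hb2, div_sub_div _ _ ha.ne' hb.ne', div_le_div_iff₀ (by positivity) (by positivity)]
      have h3 : (b - a) * (b + a) = 1 := by linarith
      have h4 : 1 ≤ (b - a) * (2 * b) := by nlinarith
      have h5 : a * b ≤ b * b := mul_le_mul_of_nonneg_right hab hb.le
      nlinarith [mul_le_mul_of_nonneg_right h4 (mul_pos hb hb).le]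
    linarith

theorem dir_tail {R : ℕ} (hR : 1 ≤ R) (T : Finset ℕ) (hT : ∀ t ∈ T, R < t) :
    ∑ t ∈ T, 1 / ((t : ℝ) * √(t : ℝ)) ≤ 2 / √(R : ℝ) := by
  have h1 : T ⊆ Ioc R (max R (T.sup id)) := fun t ht =>
    mem_Ioc.2 ⟨hT t ht, (le_sup (f := id) ht).trans (le_max_right _ _)⟩
  refine (sum_le_sum_of_subset_of_nonneg h1 fun t _ _ => by positivity).trans
    ((dir_tail_aux hR (le_max_left _ _)).trans (sub_le_self _ (by positivity)))

theorem dir_sq {C : ℝ} (hC0 : 0 < C)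
    (hC : ∀ m : ℕ, (m.divisors.card : ℝ) ≤ C * (m : ℝ) ^ (1 / 4 : ℝ))
    {R : ℕ} (hR : 2 ≤ R) (S : Finset ℕ) (hS : ∀ n ∈ S, 1 < n ∧ Rough R n) :
    ∑ p ∈ (S ×ˢ S).filter (fun p => IsSquare (p.1 * p.2)), 1 / ((p.1 : ℝ) * p.2) ≤
      C * (2 / √(R : ℝ)) := by
  set P := (S ×ˢ S).filter (fun p => IsSquare (p.1 * p.2)) with hP
  have h1 : ∀ p ∈ P, Nat.sqrt (p.1 * p.2) * Nat.sqrt (p.1 * p.2) = p.1 * p.2 := by
    intro p hp
    obtain ⟨t, ht⟩ := (mem_filter.1 hp).2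
    rw [ht, Nat.sqrt_eq]
  have h2 : ∀ t ∈ P.image (fun p => Nat.sqrt (p.1 * p.2)), R < t := by
    intro t ht
    obtain ⟨p, hp, rfl⟩ := mem_image.1 ht
    obtain ⟨h3, h4⟩ := mem_product.1 (mem_filter.1 hp).1
    have h5 : Rough R (Nat.sqrt (p.1 * p.2)) :=
      (rough_mul.1 ((h1 p hp).symm ▸ rough_mul.2 ⟨(hS _ h3).2, (hS _ h4).2⟩)).1
    have h6 : 1 < Nat.sqrt (p.1 * p.2) := by
      have h7 := h1 p hp
      have h8 : 2 * 2 ≤ p.1 * p.2 := Nat.mul_le_mul (hS _ h3).1 (hS _ h4).1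
      by_contra h9
      have h10 : Nat.sqrt (p.1 * p.2) * Nat.sqrt (p.1 * p.2) ≤ 1 * 1 :=
        Nat.mul_le_mul (by omega) (by omega)
      omega
    exact_mod_cast h5.lt h6
  rw [← sum_fiberwise_of_maps_to (g := fun p : ℕ × ℕ => Nat.sqrt (p.1 * p.2))
    (t := P.image fun p => Nat.sqrt (p.1 * p.2)) fun p hp => mem_image.2 ⟨p, hp, rfl⟩]
  refine le_trans ?_ (mul_le_mul_of_nonneg_left (dir_tail (by omega) _ h2) hC0.le)
  rw [mul_sum]
  refine sum_le_sum fun t ht => ?_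
  have ht0 : 0 < t := by have := h2 t ht; omega
  have ht1 : (0 : ℝ) < t := by exact_mod_cast ht0
  have h3 : ∀ p ∈ P.filter (fun p => Nat.sqrt (p.1 * p.2) = t), p.1 * p.2 = t * t := by
    intro p hp
    rw [← h1 p (mem_filter.1 hp).1, (mem_filter.1 hp).2]
  have h4 : (P.filter fun p => Nat.sqrt (p.1 * p.2) = t).card ≤ (t * t).divisors.card := by
    refine card_le_card_of_injOn Prod.fst (fun p hp => ?_) fun p hp q hq e => ?_
    · exact mem_coe.2 (Nat.mem_divisors.2 ⟨⟨p.2, (h3 p hp).symm⟩, by positivity⟩)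
    · have h5 := h3 p hp
      have h6 := h3 q hq
      have h7 : p.1 ≠ 0 := by
        rintro h8
        rw [h8, zero_mul] at h5
        exact absurd h5.symm (by positivity)
      refine Prod.ext e (mul_left_cancel₀ h7 ?_)
      rw [h5, e, h6]
  have h5 : (((t * t : ℕ) : ℝ)) ^ (1 / 4 : ℝ) = √(t : ℝ) := by
    rw [Nat.cast_mul, ← sq, ← Real.rpow_natCast, ← Real.rpow_mul ht1.le, Real.sqrt_eq_rpow]
    norm_num
  have h6 := hC (t * t)
  rw [h5] at h6
  rw [sum_congr rfl (g := fun _ => 1 / ((t : ℝ) * t)) fun p hp => by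
    rw [← Nat.cast_mul, h3 p hp, Nat.cast_mul], sum_const, nsmul_eq_mul]
  refine (mul_le_mul_of_nonneg_right ((Nat.cast_le.2 h4).trans h6) (by positivity)).trans
    (le_of_eq ?_)
  have h7 := Real.mul_self_sqrt ht1.le
  have h8 : 0 < √(t : ℝ) := Real.sqrt_pos.2 ht1
  generalize √(t : ℝ) = a at *
  rw [← h7]
  field_simp

theorem t_DIR (hCHI : S_CHI) (hDIV : S_DIV) : S_DIR := by
  obtain ⟨C, hC0, hC⟩ := hDIV (1 / 4) (by norm_num)
  refine ⟨8 * C, by positivity, fun R K Y S γ hR hS => ?_⟩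
  have hR' : (2 : ℝ) ≤ R := by exact_mod_cast hR
  have h1 : ∑ k ∈ Icc 1 K, (∑ n ∈ S, γ n * chi k n) ^ 2 =
      ∑ p ∈ S ×ˢ S, γ p.1 * γ p.2 * ∑ k ∈ Icc 1 K, chi k (p.1 * p.2) := by
    simp only [mul_sum, chi_mul]
    rw [sum_comm]
    refine sum_congr rfl fun k _ => ?_
    rw [sq, sum_mul_sum, sum_product]
    exact sum_congr rfl fun p _ => sum_congr rfl fun q _ => by ring
  have h2 : ∀ p ∈ S ×ˢ S, γ p.1 * γ p.2 * ∑ k ∈ Icc 1 K, chi k (p.1 * p.2) ≤
      4 + 4 * K * if IsSquare (p.1 * p.2) then 1 / ((p.1 : ℝ) * p.2) else 0 := by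
    intro p hp
    obtain ⟨h3, h4⟩ := mem_product.1 hp
    obtain ⟨a1, -, a2, a3⟩ := hS _ h3
    obtain ⟨b1, -, b2, b3⟩ := hS _ h4
    have a4 : (0 : ℝ) < p.1 := by exact_mod_cast zero_lt_one.trans a1
    have b4 : (0 : ℝ) < p.2 := by exact_mod_cast zero_lt_one.trans b1
    have h5 : |γ p.1 * γ p.2| ≤ 4 / ((p.1 : ℝ) * p.2) := by
      rw [abs_mul]
      refine (mul_le_mul a3 b3 (abs_nonneg _) (by positivity)).trans (le_of_eq ?_)
      field_simp
      norm_num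
    refine (le_abs_self _).trans ?_
    rw [abs_mul]
    split_ifs with h6
    · have h7 : |∑ k ∈ Icc 1 K, chi k (p.1 * p.2)| ≤ K := by
        refine (abs_sum_le_sum_abs _ _).trans ((sum_le_sum fun k _ => abs_chi_le k _).trans ?_)
        simp
      refine (mul_le_mul h5 h7 (abs_nonneg _) (by positivity)).trans ?_
      have : 4 / ((p.1 : ℝ) * p.2) * K = 4 * K * (1 / ((p.1 : ℝ) * p.2)) := by ring
      linarith
    · have h7 := hCHI.2.2.1 _ K ((a2.odd hR').mul (b2.odd hR')) h6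
      refine (mul_le_mul h5 h7 (abs_nonneg _) (by positivity)).trans (le_of_eq ?_)
      push_cast
      field_simp
      norm_num
  have h3 : (S.card : ℝ) ^ 2 ≤ Y ^ 2 := by
    rcases S.eq_empty_or_nonempty with rfl | ⟨n, hn⟩
    · simpa using sq_nonneg Y
    · have h4 : 0 ≤ Y := (Nat.cast_nonneg n).trans (hS n hn).2.1
      have h5 : S ⊆ Icc 1 ⌊Y⌋₊ := fun m hm =>
        mem_Icc.2 ⟨(hS m hm).1.le, Nat.le_floor (hS m hm).2.1⟩
      have h6 := card_le_card h5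
      rw [Nat.card_Icc, Nat.add_sub_cancel] at h6
      exact pow_le_pow_left₀ (Nat.cast_nonneg _) ((Nat.cast_le.2 h6).trans (Nat.floor_le h4)) 2
  have h4 := dir_sq hC0 hC hR S fun n hn => ⟨(hS n hn).1, (hS n hn).2.2.1⟩
  rw [h1]
  refine (sum_le_sum h2).trans ?_
  rw [sum_add_distrib, ← mul_sum, ← sum_filter, sum_const, card_product, nsmul_eq_mul,
    Nat.cast_mul]
  have h5 := mul_le_mul_of_nonneg_left h4 (show (0 : ℝ) ≤ 4 * K by positivity)
  have h6 : 4 * K * (C * (2 / √(R : ℝ))) = 8 * C * K / √(R : ℝ) := by ring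
  nlinarith

theorem dir_log {x : ℝ} (h : |x| ≤ 1 / 2) : |x + Real.log (1 - x)| ≤ 2 * x ^ 2 := by
  have h1 := Real.abs_log_sub_add_sum_range_le (x := x) (by linarith) 1
  simp only [range_one, sum_singleton, zero_add, pow_one, Nat.cast_zero, div_one] at h1
  refine h1.trans ?_
  rw [div_le_iff₀ (by linarith), show 1 + 1 = 2 from rfl, sq_abs]
  nlinarith [sq_nonneg x]

theorem dir_prod {R : ℕ} (hR : 2 ≤ R) (S : Finset ℕ) (hS : ∀ p ∈ S, R < p) (x : ℕ → ℝ)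
    (hx : ∀ p ∈ S, |x p| ≤ 1 / ((p : ℝ) - 1)) {e : ℝ} (he : e ≤ 1)
    (h1 : 16 / √(R : ℝ) ≤ e / 4) (h2 : |∑ p ∈ S, x p| ≤ e / 4) : |∏ p ∈ S, (1 - x p) - 1| ≤ e := by
  have h3 : ∀ p ∈ S, (3 : ℝ) ≤ p := fun p hp => by
    have := hS p hp
    exact_mod_cast (by omega : 3 ≤ p)
  have h4 : ∀ p ∈ S, |x p| ≤ 1 / 2 := fun p hp =>
    (hx p hp).trans (one_div_le_one_div_of_le two_pos (by linarith [h3 p hp]))
  have h5 : ∏ p ∈ S, (1 - x p) = Real.exp (∑ p ∈ S, Real.log (1 - x p)) := by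
    rw [Real.exp_sum]
    exact prod_congr rfl fun p hp =>
      (Real.exp_log (by linarith [(abs_le.1 (h4 p hp)).2])).symm
  have h6 : |∑ p ∈ S, x p + ∑ p ∈ S, Real.log (1 - x p)| ≤ 16 / √(R : ℝ) := by
    rw [← sum_add_distrib]
    refine (abs_sum_le_sum_abs _ _).trans ?_
    have h7 := mul_le_mul_of_nonneg_left (dir_tail (by omega) S hS) (show (0 : ℝ) ≤ 8 by norm_num)
    rw [mul_sum] at h7
    refine (sum_le_sum fun p hp => (dir_log (h4 p hp)).trans ?_).trans (h7.trans (le_of_eq ?_))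
    · have h8 := h3 p hp
      have h9 : |x p| ≤ 2 / p := (hx p hp).trans (by
        rw [div_le_div_iff₀ (by linarith) (by linarith)]; linarith)
      have h10 : x p ^ 2 ≤ (2 / p) ^ 2 := by
        rw [← sq_abs]
        exact pow_le_pow_left₀ (abs_nonneg _) h9 2
      have h11 : √(p : ℝ) ≤ p := Real.sqrt_le_iff.2 ⟨by linarith, by nlinarith⟩
      have h12 : 0 < √(p : ℝ) := Real.sqrt_pos.2 (by linarith)
      have h13 : 1 / ((p : ℝ) * p) ≤ 1 / (p * √(p : ℝ)) :=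
        one_div_le_one_div_of_le (by positivity) (mul_le_mul_of_nonneg_left h11 (by linarith))
      have h14 : (2 / (p : ℝ)) ^ 2 = 4 * (1 / ((p : ℝ) * p)) := by ring
      linarith
    · ring
  have h7 : |∑ p ∈ S, Real.log (1 - x p)| ≤ e / 2 := by
    rw [abs_le] at h2 h6 ⊢
    constructor <;> linarith [h2.1, h2.2, h6.1, h6.2]
  rw [h5]
  exact (Real.abs_exp_sub_one_le (by linarith)).trans (by linarith)

theorem t_SS1 (hDIR : S_DIR) : S_SS1 := by
  obtain ⟨C, hC0, hC⟩ := hDIR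
  intro ε hε
  obtain ⟨e, he0, he1, he2⟩ : ∃ e : ℝ, 0 < e ∧ e ≤ 1 ∧ e ≤ ε :=
    ⟨min 1 ε, lt_min one_pos hε, min_le_left _ _, min_le_right _ _⟩
  obtain ⟨η, hη0, hη⟩ : ∃ η : ℝ, 0 < η ∧ 8 * η = (e / 4) ^ 2 * ε :=
    ⟨(e / 4) ^ 2 * ε / 8, by positivity, by ring⟩
  refine ⟨⌈(64 / e + C / (4 * η)) ^ 2⌉₊ + 2, by omega, fun R hR => ?_⟩
  have hR2 : 2 ≤ R := by omega
  have h1 : 64 / e + C / (4 * η) ≤ √(R : ℝ) :=
    Real.le_sqrt_of_sq_le ((Nat.le_ceil _).trans (Nat.cast_le.2 (by omega)))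
  have h2 : 0 < 64 / e := by positivity
  have h3 : 0 < C / (4 * η) := by positivity
  have h0 : 0 < √(R : ℝ) := by linarith
  have h4 : 16 / √(R : ℝ) ≤ e / 4 := by
    have := (div_le_iff₀ he0).1 (show 64 / e ≤ √(R : ℝ) by linarith)
    rw [div_le_div_iff₀ h0 four_pos]
    linarith
  have h5 : C / √(R : ℝ) ≤ 4 * η := by
    have := (div_le_iff₀ (by positivity)).1 (show C / (4 * η) ≤ √(R : ℝ) by linarith)
    rw [div_le_iff₀ h0]
    linarith
  filter_upwards [tendsto_natCast_atTop_atTop.eventually_ge_atTop (1 / η ^ 3)] with K hK w hw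
  obtain ⟨Y, hY0, hY1, hY2⟩ : ∃ Y : ℝ, 0 ≤ Y ∧ Y ^ 3 ≤ K ∧ (⌊w⌋₊ : ℝ) ≤ Y := by
    rcases le_total 0 w with h | h
    · exact ⟨w, h, hw, Nat.floor_le h⟩
    · exact ⟨0, le_rfl, by simp, by rw [Nat.floor_of_nonpos h, Nat.cast_zero]⟩
  have h6 : Y ^ 2 ≤ η * K := by
    rcases le_total 1 (η * Y) with h | h
    · nlinarith [mul_le_mul_of_nonneg_left hY1 hη0.le, mul_le_mul_of_nonneg_right h (sq_nonneg Y)]
    · rw [div_le_iff₀ (by positivity)] at hK
      have h7 : (η * Y) ^ 2 ≤ 1 := pow_le_one₀ (by positivity) h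
      refine le_of_mul_le_mul_left ?_ (show 0 < η ^ 2 by positivity)
      nlinarith
  set S := (PL w).filter (fun p => R < p) with hS
  have h7 : ∀ p ∈ S, (3 : ℝ) ≤ p := fun p hp => by
    have := (mem_filter.1 hp).2
    exact_mod_cast (by omega : 3 ≤ p)
  have h8 := hC R K Y S (fun p => 1 / ((p : ℝ) - 1)) hR2 fun p hp => by
    have h9 := h7 p hp
    obtain ⟨h10, h11⟩ := mem_filter.1 hp
    have h12 := prime_of_mem_PL h10
    refine ⟨h12.one_lt, (Nat.cast_le.2 (Nat.mem_primesLE.1 h10).1).trans hY2,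
      (rough_prime h12).2 (by exact_mod_cast h11), ?_⟩
    rw [abs_of_pos (one_div_pos.2 (by linarith)), div_le_div_iff₀ (by linarith) (by linarith)]
    linarith
  have h9 : (e / 4) ^ 2 * (((Icc 1 K).filter fun k => ε < |TT k R w - 1|).card : ℝ) ≤ _ :=
    markov (Icc 1 K) (fun k => (∑ p ∈ S, 1 / ((p : ℝ) - 1) * chi k p) ^ 2)
    (fun _ _ => sq_nonneg _) ((e / 4) ^ 2) (fun k => ε < |TT k R w - 1|)
    fun k _ hk => by
      by_contra h10
      have h11 := abs_le_of_sq_le_sq (not_le.1 h10).le (show 0 ≤ e / 4 by positivity)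
      have h12 := dir_prod hR2 S (fun p hp => (mem_filter.1 hp).2)
        (fun p => chi k p / ((p : ℝ) - 1)) (fun p hp => by
          have h13 := h7 p hp
          rw [abs_div, abs_of_pos (show (0 : ℝ) < (p : ℝ) - 1 by linarith)]
          exact div_le_div_of_nonneg_right (abs_chi_le k p) (by linarith)) he1 h4 (by
          simpa only [one_div_mul_eq_div] using h11)
      exact absurd (h12.trans he2) (not_le.2 hk)
  have h10 : C * K / √(R : ℝ) ≤ 4 * η * K := by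
    rw [mul_div_right_comm]
    exact mul_le_mul_of_nonneg_right h5 (Nat.cast_nonneg K)
  refine le_of_mul_le_mul_left (h9.trans (h8.trans ?_)) (by positivity)
  rw [← mul_assoc, ← hη]
  linarith

end Pool.Agent.P.MP_8be758_nt.Avg
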