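import Pool.Agent.P.MP_8be758_nt.Avg.Basic

/-! Assembly of the dispersion estimate. -/

namespace Pool.Agent.P.MP_8be758_nt.Avg

open Finset Real Filter Topology
open Pool.Agent.P.MP_e86632_nt (ee)

/-- lower bound for the weight -/
noncomputable def disp_c0 : ℝ := Real.exp (-(2 * π)) * (1 - Real.exp (-π)) * gs 1

theorem disp_c1_pos : 0 < 1 - Real.exp (-π) :=
  sub_pos.2 (Real.exp_lt_one_iff.2 (neg_neg_of_pos Real.pi_pos))

theorem disp_c0_pos : 0 < disp_c0 :=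
  mul_pos (mul_pos (Real.exp_pos _) disp_c1_pos) (gs_pos 1)

theorem disp_wt_nonneg {ν : ℤ → ℝ} (hν : ∀ b, 0 ≤ ν b) {B : ℝ} (hB : 0 < B) (K : ℝ) (b : ℕ)
    (κ : ℝ) : 0 ≤ wt ν B K b κ :=
  mul_nonneg (mul_nonneg (hν _) (psi_nonneg hB (Nat.cast_nonneg b))) (gs_pos _).le

theorem disp_wt_ge {ν : ℤ → ℝ} {B : ℝ} (hB : 0 < B) {K k b : ℕ} (h1 : B ≤ b) (h2 : (b : ℝ) ≤ 2 * B)
    (h3 : 1 ≤ ν b) (hk : k ∈ Icc 1 K) : disp_c0 ≤ wt ν B K b (4 * (k : ℤ) - 1) := by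
  obtain ⟨k1, k2⟩ := mem_Icc.1 hk
  have k3 : (1 : ℝ) ≤ k := by exact_mod_cast k1
  have k4 : (k : ℝ) ≤ K := by exact_mod_cast k2
  have hpi := Real.pi_pos
  have e1 : Real.exp (-(2 * π)) ≤ Real.exp (-(π * b / B)) := by
    refine Real.exp_le_exp.2 (neg_le_neg ?_)
    rw [div_le_iff₀ hB]; nlinarith
  have e2 : Real.exp (-(π * b / B)) ≤ Real.exp (-π) := by
    refine Real.exp_le_exp.2 (neg_le_neg ?_)
    rw [le_div_iff₀ hB]; nlinarith
  have e3 : Real.exp (-(2 * π)) * (1 - Real.exp (-π)) ≤ psi B b := by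
    rw [psi_eq]
    exact mul_le_mul e1 (by linarith) disp_c1_pos.le (Real.exp_pos _).le
  have e4 : gs 1 ≤ gs ((4 * ((k : ℤ) : ℝ) - 1) / (4 * K)) := by
    apply gs_anti
    rw [Int.cast_natCast, abs_one, abs_of_nonneg (div_nonneg (by linarith) (by linarith)),
      div_le_one (by linarith)]
    linarith
  have e5 : 0 ≤ psi B b := psi_nonneg hB (Nat.cast_nonneg b)
  exact mul_le_mul (e3.trans (le_mul_of_one_le_left e5 h3)) e4 (gs_pos 1).le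
    (mul_nonneg (by linarith) e5)

theorem disp_cmp (hD1 : S_D1) {ν : ℤ → ℝ} (hν : ∀ b, 0 ≤ ν b) {B : ℝ} (hB : 1 ≤ B) {K n0 : ℕ}
    (hK : K ≤ n0 ^ 2) (hn : 2 * B ≤ n0) (α : ℕ → ℝ) (I : Finset ℕ) {S : Finset ℕ}
    (hS : ∀ b ∈ S, B ≤ b ∧ (b : ℝ) ≤ 2 * B ∧ 1 ≤ ν b) :
    disp_c0 * ∑ k ∈ Icc 1 K, ∑ b ∈ S, Qf α I n0 b k ≤
      ∑ b ∈ Icc 1 n0, ∑ k ∈ KR n0, wt ν B K b (4 * k - 1) * Qf α I n0 b k := by
  have hB0 : 0 < B := by linarith
  have hsub : S ⊆ Icc 1 n0 := by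
    intro b hb
    obtain ⟨h1, h2, -⟩ := hS b hb
    exact mem_Icc.2 ⟨by exact_mod_cast hB.trans h1, by exact_mod_cast h2.trans hn⟩
  have hq : ∀ b ∈ Icc 1 n0, ∀ k : ℤ, 0 ≤ Qf α I n0 b k := fun b hb =>
    (hD1 α I n0 b (mem_Icc.1 hb).1).1
  have hw : ∀ b ∈ Icc 1 n0, ∀ k : ℤ, 0 ≤ wt ν B K b (4 * k - 1) * Qf α I n0 b k := fun b hb k =>
    mul_nonneg (disp_wt_nonneg hν hB0 _ _ _) (hq b hb k)
  rw [sum_comm, mul_sum]
  refine le_trans (sum_le_sum fun b hb => ?_)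
    (sum_le_sum_of_subset_of_nonneg hsub fun b hb _ => sum_nonneg fun k _ => hw b hb k)
  obtain ⟨h1, h2, h3⟩ := hS b hb
  have himg : (Icc 1 K).image (fun k : ℕ => (k : ℤ)) ⊆ KR n0 := by
    intro z hz
    obtain ⟨k, hk, rfl⟩ := mem_image.1 hz
    have k2 : (k : ℤ) ≤ (n0 : ℤ) ^ 2 := by exact_mod_cast (mem_Icc.1 hk).2.trans hK
    have k3 : (0 : ℤ) ≤ k := Int.natCast_nonneg k
    exact mem_Icc.2 ⟨by linarith, by linarith⟩
  refine le_trans ?_ (sum_le_sum_of_subset_of_nonneg himg fun k _ _ => hw b (hsub hb) k)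
  rw [sum_image fun x _ y _ h => Nat.cast_injective h, mul_sum]
  exact sum_le_sum fun k hk =>
    mul_le_mul_of_nonneg_right (disp_wt_ge hB0 h1 h2 h3 hk) (hq b (hsub hb) k)

/-- the numerical hypotheses -/
structure disp_H (A B K Z : ℝ) : Prop where
  z : 2 ≤ Z
  ab : Z ^ 16 * B ≤ A
  b : Z ^ 10 ≤ B
  k3 : Z ^ 8 * A ^ 2 ≤ K ^ 3
  bk : Z ^ 8 * A ≤ B * K
  kab : Z ^ 5 * K ≤ A * B
  k : 1 ≤ K

namespace disp_H

variable {A B K Z : ℝ} (h : disp_H A B K Z)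
include h

theorem z0 : 0 < Z := by linarith [h.z]

theorem z1 : 1 ≤ Z := by linarith [h.z]

theorem pw {m n : ℕ} (hmn : m ≤ n) : Z ^ m ≤ Z ^ n := pow_le_pow_right₀ h.z1 hmn

theorem one (n : ℕ) : 1 ≤ Z ^ n := one_le_pow₀ h.z1

theorem bp {m : ℕ} (hm : m ≤ 10) : Z ^ m ≤ B := (h.pw hm).trans h.b

theorem b1 : 1 ≤ B := (h.one 10).trans h.b

theorem b0 : 0 < B := by linarith [h.b1]

theorem abp {m : ℕ} (hm : m ≤ 16) : Z ^ m * B ≤ A :=
  (mul_le_mul_of_nonneg_right (h.pw hm) h.b0.le).trans h.ab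

theorem ba : B ≤ A := by simpa using h.abp (m := 0) (by norm_num)

theorem a1 : 1 ≤ A := h.b1.trans h.ba

theorem a0 : 0 < A := by linarith [h.a1]

theorem k0 : 0 < K := by linarith [h.k]

theorem kle : K ≤ A * B := (le_mul_of_one_le_left h.k0.le (h.one 5)).trans h.kab

theorem e1 : Z ^ 2 * Z * √(A * B) ≤ A / Z := by
  have hz := h.z0
  have ha := h.a0
  have : √(A * B) ≤ A / Z ^ 4 := by
    apply Real.sqrt_le_iff.2 ⟨by positivity, ?_⟩
    rw [div_pow, le_div_iff₀ (by positivity)]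
    have := mul_le_mul_of_nonneg_left (h.abp (m := 8) (by norm_num)) ha.le
    nlinarith
  calc Z ^ 2 * Z * √(A * B) ≤ Z ^ 2 * Z * (A / Z ^ 4) := by gcongr
    _ = A / Z := by field_simp

theorem e2 : Z ^ 2 * Z * ((A + K) / B) ≤ 2 * (A / Z) := by
  have hz := h.z0
  have ha := h.a0
  have hb := h.b0
  have h1 := mul_le_mul_of_nonneg_left (h.bp (m := 4) (by norm_num)) ha.le
  have h2 := (mul_le_mul_of_nonneg_right (h.pw (m := 4) (n := 5) (by norm_num)) h.k0.le).trans h.kab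
  rw [← mul_div_assoc, ← mul_div_assoc, div_le_div_iff₀ hb hz]
  nlinarith

theorem uB : Z ^ 8 * (1 + A / K) ≤ 2 * B := by
  have h1 := h.bp (m := 8) (by norm_num)
  have h2 : Z ^ 8 * (A / K) ≤ B := by
    rw [← mul_div_assoc, div_le_iff₀ h.k0]; exact h.bk
  linarith

theorem t1 : Z ^ 2 * Z * ((1 + A / K) * (A / B) / (1 / (2 * Z ^ 2))) ≤ 4 * (A / Z) := by
  have hz := h.z0
  have ha := h.a0
  have hb := h.b0
  have hk := h.k0
  have h1 : Z ^ 6 * (1 + A / K) ≤ 2 * B :=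
    (mul_le_mul_of_nonneg_right (h.pw (by norm_num)) (by positivity)).trans h.uB
  calc Z ^ 2 * Z * ((1 + A / K) * (A / B) / (1 / (2 * Z ^ 2)))
      = Z ^ 6 * (1 + A / K) * (2 * A / (B * Z)) := by field_simp
    _ ≤ 2 * B * (2 * A / (B * Z)) := by gcongr
    _ = 4 * (A / Z) := by field_simp; norm_num

theorem t2 : Z ^ 2 * Z * ((1 + A / K) * √(1 + A / K) * √A) ≤ 4 * (A / Z) := by
  have hz := h.z0
  have ha := h.a0
  have hk := h.k0
  have hu : 0 < 1 + A / K := by positivity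
  have h1 : Z ^ 8 * (1 + A / K) ^ 3 ≤ 16 * A := by
    rcases le_total A K with hc | hc
    · have h2 : 1 + A / K ≤ 2 := by linarith [(div_le_one hk).2 hc]
      have h3 : (1 + A / K) ^ 3 ≤ 2 ^ 3 := by gcongr
      have h4 : Z ^ 8 ≤ A := (h.bp (by norm_num)).trans h.ba
      calc Z ^ 8 * (1 + A / K) ^ 3 ≤ A * 2 ^ 3 := by gcongr
        _ ≤ 16 * A := by linarith
    · have h2 : 1 + A / K ≤ 2 * (A / K) := by linarith [(one_le_div hk).2 hc]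
      calc Z ^ 8 * (1 + A / K) ^ 3 ≤ Z ^ 8 * (2 * (A / K)) ^ 3 := by gcongr
        _ = Z ^ 8 * A ^ 2 * (8 * A / K ^ 3) := by field_simp; norm_num
        _ ≤ K ^ 3 * (8 * A / K ^ 3) := by gcongr; exact h.k3
        _ = 8 * A := by field_simp
        _ ≤ 16 * A := by linarith
  refine (pow_le_pow_iff_left₀ (by positivity) (by positivity) two_ne_zero).1 ?_
  calc (Z ^ 2 * Z * ((1 + A / K) * √(1 + A / K) * √A)) ^ 2
      = Z ^ 8 * (1 + A / K) ^ 3 * (A / Z ^ 2) := by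
        simp only [mul_pow, Real.sq_sqrt hu.le, Real.sq_sqrt ha.le]; field_simp
    _ ≤ 16 * A * (A / Z ^ 2) := by gcongr
    _ = (4 * (A / Z)) ^ 2 := by field_simp; norm_num

theorem t3 : Z ^ 2 * Z * (A / √B * (1 / √(1 / (2 * Z ^ 2)) + √(1 + A / K))) ≤ 4 * (A / Z) := by
  have hz := h.z0
  have ha := h.a0
  have hb := h.b0
  have hk := h.k0
  have hs : 0 < √B := Real.sqrt_pos.2 hb
  have h1 : 1 / √(1 / (2 * Z ^ 2)) ≤ 2 * √B / Z ^ 4 := by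
    rw [one_div, one_div, Real.sqrt_inv, inv_inv]
    apply Real.sqrt_le_iff.2 ⟨by positivity, ?_⟩
    rw [div_pow, mul_pow, Real.sq_sqrt hb.le, le_div_iff₀ (by positivity)]
    have := h.b
    nlinarith
  have h2 : √(1 + A / K) ≤ 2 * √B / Z ^ 4 := by
    apply Real.sqrt_le_iff.2 ⟨by positivity, ?_⟩
    rw [div_pow, mul_pow, Real.sq_sqrt hb.le, le_div_iff₀ (by positivity)]
    have := h.uB
    nlinarith
  calc Z ^ 2 * Z * (A / √B * (1 / √(1 / (2 * Z ^ 2)) + √(1 + A / K)))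
      ≤ Z ^ 2 * Z * (A / √B * (2 * √B / Z ^ 4 + 2 * √B / Z ^ 4)) := by gcongr
    _ = 4 * (A / Z) := by field_simp; norm_num

theorem j8 : Z ^ 8 ≤ √(A / B) := by
  apply Real.le_sqrt_of_sq_le
  rw [le_div_iff₀ h.b0, ← pow_mul]
  exact h.ab

theorem j4 : √(A / B) * Z ^ 4 ≤ A := by
  have hz := h.z0
  have ha := h.a0
  have hb := h.b0
  rw [← le_div_iff₀ (by positivity)]
  apply Real.sqrt_le_iff.2 ⟨by positivity, ?_⟩
  rw [div_pow, div_le_div_iff₀ hb (by positivity), ← pow_mul]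
  have h1 := h.bp (m := 8) (by norm_num)
  have h2 : A ≤ A ^ 2 := by nlinarith [h.a1]
  exact mul_le_mul h2 h1 (by positivity) (by positivity)

end disp_H

theorem disp_floor {x : ℝ} (hx : 1 ≤ x) : x / 2 ≤ ⌊x⌋₊ ∧ (⌊x⌋₊ : ℝ) ≤ x := by
  refine ⟨?_, Nat.floor_le (by linarith)⟩
  have h1 := Nat.lt_floor_add_one x
  have h2 : (1 : ℝ) ≤ ⌊x⌋₊ := by exact_mod_cast Nat.le_floor (by simpa using hx : ((1 : ℕ) : ℝ) ≤ x)
  linarith

theorem disp_main {A B K Z L Q v : ℝ} (h : disp_H A B K Z) (hL : L ≤ Z) (q1 : Z ^ 2 / 2 ≤ Q)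
    (q2 : Q ≤ Z ^ 2) (v1 : √(A / B) * Z ^ 2 / 2 ≤ v) (v2 : v ≤ √(A / B) * Z ^ 2) :
    Q * A * (A / B) / v ^ 2 + L * (A / Q + v) + A * Q * √(Q / √(A / B)) ≤ 8 * (A / Z) := by
  have hz := h.z0
  have ha := h.a0
  have hb := h.b0
  have hJ8 := h.j8
  have hJ4 := h.j4
  have hsq : A / B = √(A / B) ^ 2 := (Real.sq_sqrt (by positivity)).symm
  generalize √(A / B) = J at *
  have hJ : 0 < J := lt_of_lt_of_le (by positivity) hJ8
  have hQ : 0 < Q := lt_of_lt_of_le (by positivity) q1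
  have hv : 0 < v := lt_of_lt_of_le (by positivity) v1
  have m0 : A / Z ^ 2 ≤ A / Z := by
    gcongr
    simpa using h.pw (m := 1) (n := 2) (by norm_num)
  have m1 : Q * A * (A / B) / v ^ 2 ≤ 4 * (A / Z) := by
    rw [hsq]
    calc Q * A * J ^ 2 / v ^ 2 ≤ Z ^ 2 * A * J ^ 2 / (J * Z ^ 2 / 2) ^ 2 := by gcongr
      _ = 4 * (A / Z ^ 2) := by field_simp; norm_num
      _ ≤ _ := by gcongr
  have m2 : L * (A / Q + v) ≤ 3 * (A / Z) := by
    have h1 : J * Z ^ 2 ≤ A / Z ^ 2 := by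
      rw [le_div_iff₀ (by positivity)]; nlinarith
    calc L * (A / Q + v) ≤ Z * (A / (Z ^ 2 / 2) + A / Z ^ 2) := by
          gcongr
          exact v2.trans h1
      _ = 3 * (A / Z) := by field_simp; norm_num
  have m3 : A * Q * √(Q / J) ≤ A / Z := by
    have h1 : √(Q / J) ≤ 1 / Z ^ 3 := by
      apply Real.sqrt_le_iff.2 ⟨by positivity, ?_⟩
      calc Q / J ≤ Z ^ 2 / Z ^ 8 := by gcongr
        _ = (1 / Z ^ 3) ^ 2 := by field_simp
    calc A * Q * √(Q / J) ≤ A * Z ^ 2 * (1 / Z ^ 3) := by gcongr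
      _ = A / Z := by field_simp
  linarith

theorem t_DISP (hD1 : S_D1) (hD2 : S_D2) (hD3 : S_D3) (hD4 : S_D4) (hOSC2 : S_OSC2)
    (hMAIN : S_MAIN) : S_DISP := by
  obtain ⟨C3, c3, hD3⟩ := hD3
  obtain ⟨C4, c4, hD4⟩ := hD4
  obtain ⟨C5, c5, hO⟩ := hOSC2
  obtain ⟨C6, c6, hM⟩ := hMAIN
  have hc0 := disp_c0_pos
  refine ⟨(C3 + 2 * C4 + 12 * C5 + 8 * C6) / disp_c0, by positivity, ?_⟩
  intro A B Z nb K I S α ν hz hab hb hk3 hbk hkab hL hτ hI hα hν hS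
  have hK1 : (1 : ℝ) ≤ K := by
    have hZ : 0 < Z := by linarith
    have hB : 0 < B := lt_of_lt_of_le (by positivity) hb
    have hA : 0 < A := lt_of_lt_of_le (by positivity) hab
    rcases Nat.eq_zero_or_pos K with rfl | h0
    · have : 0 < Z ^ 8 * A := by positivity
      simp only [Nat.cast_zero, mul_zero] at hbk
      linarith
    · exact_mod_cast h0
  have h : disp_H A B K Z := ⟨hz, hab, hb, hk3, hbk, hkab, hK1⟩
  have hZ := h.z0
  have hA := h.a0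
  have hB := h.b0
  have hK := h.k0
  have n1 : 2 * A ≤ (⌈2 * A⌉₊ : ℝ) := Nat.le_ceil _
  have n2 : (⌈2 * A⌉₊ : ℝ) ≤ 3 * A := by
    have := Nat.ceil_lt_add_one (a := 2 * A) (by positivity)
    linarith [h.a1]
  generalize ⌈2 * A⌉₊ = n0 at *
  have hνb : ∀ b, 0 ≤ ν b ∧ ν b ≤ Z ^ 2 := fun b => ⟨hν.1 b, hν.le b⟩
  have hL0 : 0 ≤ 1 + Real.log A := by linarith [Real.log_nonneg h.a1]
  have hKn : K ≤ n0 ^ 2 := by
    have h1 : (K : ℝ) ≤ (n0 : ℝ) ^ 2 := by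
      rw [sq]
      exact h.kle.trans (mul_le_mul (by linarith) (by linarith [h.ba]) hB.le (by positivity))
    exact_mod_cast h1
  have s0 := disp_cmp hD1 hν.1 h.b1 hKn (by linarith [h.ba]) α I hS
  rw [hD2 A n0 I α (wt ν B K) h.a1 n1 hI fun b κ hb => by
    rw [wt, hν.2.1 b ((Int.even_coe_nat b).2 hb), zero_mul, zero_mul]] at s0
  have s1 := hD3 A B K (Z ^ 2) Z n0 I α ν h.b1 h.ba hK1 h.kle n2 hI hα hνb hτ
  have s2 := hD4 A B K (Z ^ 2) n0 I α ν h.a1 hB hK n1 hI hα hνb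
  have hδ : 1 / (2 * Z ^ 2) ≤ 1 := by
    rw [div_le_one (by positivity)]; linarith [h.one 2]
  have s3 := hO A B K nb (Z ^ 2) (1 / (2 * Z ^ 2)) n0 I α ν h.b1 h.ba hK n2 hI hα (by positivity)
    hδ hν
  have hJ1 : 4 ≤ √(A / B) :=
    le_trans (by nlinarith only [hz]) ((h.pw (m := 2) (by norm_num)).trans h.j8)
  obtain ⟨q1, q2⟩ := disp_floor (h.one 2)
  obtain ⟨v1, v2⟩ := disp_floor (x := √(A / B) * Z ^ 2)
    (one_le_mul_of_one_le_of_one_le (by linarith) (h.one 2))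
  have q3 : 1 ≤ ⌊Z ^ 2⌋₊ := Nat.le_floor (by simpa using h.one 2)
  have q4 : 4 * ⌊Z ^ 2⌋₊ ≤ ⌊√(A / B) * Z ^ 2⌋₊ := by
    apply Nat.le_floor
    push_cast
    gcongr
  have q5 : ⌊√(A / B) * Z ^ 2⌋₊ ≤ n0 := by
    have h1 : √(A / B) * Z ^ 2 ≤ √(A / B) * Z ^ 4 := by gcongr; exacts [h.z1, by norm_num]
    have h2 : (⌊√(A / B) * Z ^ 2⌋₊ : ℝ) ≤ n0 := by linarith [h.j4]
    exact_mod_cast h2
  have s4 := hM A B n0 _ _ I α h.b1 h.ba n1 n2 q3 q4 q5 hI hα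
  have m := disp_main h hL q1 q2 v1 v2
  have hE := enS_nonneg I (gam α) ⌊Z ^ 2⌋₊
  generalize enS I (gam α) ⌊Z ^ 2⌋₊ = E at *
  have hAZ : 0 < A / Z := by positivity
  obtain ⟨-, -, nb0, nb1, -⟩ := hν
  have r1 : dg (wt ν B K) α I n0 ≤ C3 * K * (A / Z) := by
    calc _ ≤ _ := s1
      _ = C3 * K * (Z ^ 2 * Z * √(A * B)) := by ring
      _ ≤ _ := by gcongr; exact h.e1
  have r2 : |offS α I n0 (offT (wt ν B K) n0) - offS α I n0 (modT ν B K)| ≤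
      C4 * K * (2 * (A / Z)) := by
    calc _ ≤ _ := s2
      _ = C4 * K * (Z ^ 2 * (1 + Real.log A) * ((A + K) / B)) := by ring
      _ ≤ C4 * K * (Z ^ 2 * Z * ((A + K) / B)) := by gcongr
      _ ≤ _ := mul_le_mul_of_nonneg_left h.e2 (by positivity)
  have r3 : |offS α I n0 (modT ν B K) - nb * K * mainS α I B n0| ≤ C5 * K * (12 * (A / Z)) := by
    refine s3.trans ?_
    have t1 := h.t1
    have t2 := h.t2
    have t3 := h.t3
    have p1 : 0 ≤ (1 + A / K) * (A / B) / (1 / (2 * Z ^ 2)) := by positivity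
    have p2 : 0 ≤ (1 + A / K) * √(1 + A / K) * √A := by positivity
    have p3 : 0 ≤ A / √B * (1 / √(1 / (2 * Z ^ 2)) + √(1 + A / K)) := by positivity
    generalize (1 + A / K) * (A / B) / (1 / (2 * Z ^ 2)) = x at *
    generalize (1 + A / K) * √(1 + A / K) * √A = y at *
    generalize A / √B * (1 / √(1 / (2 * Z ^ 2)) + √(1 + A / K)) = w at *
    calc _ ≤ C5 * Z ^ 2 * K * Z * (x + y + w) := by gcongr
      _ = C5 * K * (Z ^ 2 * Z * x + Z ^ 2 * Z * y + Z ^ 2 * Z * w) := by ring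
      _ ≤ _ := by gcongr; linarith
  have r4 : nb * K * mainS α I B n0 ≤ C6 * K * (nb * E + 8 * (A / Z)) := by
    have h1 : mainS α I B n0 ≤ C6 * (E + 8 * (A / Z)) := by
      exact (le_abs_self _).trans (s4.trans (mul_le_mul_of_nonneg_left (by linarith) c6.le))
    calc nb * K * mainS α I B n0 ≤ nb * K * (C6 * (E + 8 * (A / Z))) := by gcongr
      _ = C6 * K * (nb * E + nb * (8 * (A / Z))) := by ring
      _ ≤ C6 * K * (nb * E + 1 * (8 * (A / Z))) := by gcongr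
      _ = _ := by rw [one_mul]
  rw [div_mul_eq_mul_div, div_mul_eq_mul_div, le_div_iff₀ hc0, mul_comm]
  refine s0.trans ?_
  have u2 := (abs_le.1 r2).2
  have u3 := (abs_le.1 r3).2
  have hx : 0 ≤ K * (nb * E) := by positivity
  have := mul_nonneg (by positivity : 0 ≤ C3 + 2 * C4 + 12 * C5 + 7 * C6) hx
  linarith

end Pool.Agent.P.MP_8be758_nt.Avg
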