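import Pool.Agent.P.MP_8be758_nt.Avg.Basic
import Pool.Agent.P.MP_bf60a1_an.KeyDLS

/-!
The double large sieve in `l2` form.
-/

namespace Pool.Agent.P.MP_8be758_nt.Avg

open Finset Real Filter Topology
open Pool.Agent.P.MP_e86632_nt (ee)

section

open MeasureTheory

theorem dls_meas {A : Type} [Fintype A] [MeasurableSpace A] [DiscreteMeasurableSpace A]
    (w : A → ℝ) : ∃ α : Measure A, IsFiniteMeasure α ∧ ∀ a, α {a} = ENNReal.ofReal (w a) := by
  refine ⟨Measure.count.withDensity fun a => ENNReal.ofReal (w a),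
    isFiniteMeasure_withDensity_ofReal Integrable.of_finite.2, fun a => ?_⟩
  rw [withDensity_apply _ (measurableSet_singleton a), lintegral_singleton,
    Measure.count_singleton, mul_one]

theorem dls_lint {A : Type} [Fintype A] [MeasurableSpace A] [DiscreteMeasurableSpace A]
    {w : A → ℝ} (hw : ∀ a, 0 ≤ w a) {α : Measure A} [IsFiniteMeasure α]
    (h : ∀ a, α {a} = ENNReal.ofReal (w a)) (f : A → A → ℝ) (hf : ∀ a a', 0 ≤ f a a') :
    ∫⁻ p : A × A, ENNReal.ofReal (f p.1 p.2) ∂(α.prod α) =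
      ENNReal.ofReal (∑ a, ∑ a', w a * w a' * f a a') := by
  rw [lintegral_fintype, Fintype.sum_prod_type, ENNReal.ofReal_sum_of_nonneg fun a _ =>
    sum_nonneg fun a' _ => mul_nonneg (mul_nonneg (hw a) (hw a')) (hf a a')]
  refine sum_congr rfl fun a _ => ?_
  rw [ENNReal.ofReal_sum_of_nonneg fun a' _ => mul_nonneg (mul_nonneg (hw a) (hw a')) (hf a a')]
  refine sum_congr rfl fun a' _ => ?_
  rw [← Set.singleton_prod_singleton, Measure.prod_prod, h, h,
    ENNReal.ofReal_mul (mul_nonneg (hw a) (hw a')), ENNReal.ofReal_mul (hw a), mul_comm]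

theorem dls_fin {A B : Type} [Fintype A] [Fintype B] (p : A → ℝ) (q : B → ℝ) (u : A → ℂ)
    (v : B → ℂ) (hp : ∀ a, |p a| ≤ 1) (hq : ∀ b, |q b| ≤ 1) {τ : ℝ} (hτ : 2 ≤ τ) :
    ‖∑ a, ∑ b, u a * v b * Complex.exp (Complex.I * τ * (p a * q b : ℝ))‖ ^ 2 ≤
      Real.exp 3 * τ * (∑ a, ∑ a', ‖u a‖ * ‖u a'‖ * Real.exp (-(τ ^ 2 * (p a - p a') ^ 2) / 4)) *
        (∑ b, ∑ b', ‖v b‖ * ‖v b'‖ * Real.exp (-(τ ^ 2 * (q b - q b') ^ 2) / 4)) := by
  let _ : MeasurableSpace A := ⊤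
  let _ : MeasurableSpace B := ⊤
  have : DiscreteMeasurableSpace A := ⟨fun _ => trivial⟩
  have : DiscreteMeasurableSpace B := ⟨fun _ => trivial⟩
  obtain ⟨α, hα, h1⟩ := dls_meas fun a => ‖u a‖
  obtain ⟨β, hβ, h2⟩ := dls_meas fun b => ‖v b‖
  have ph : ∀ z : ℂ, ‖z / (‖z‖ : ℂ)‖ ≤ 1 := fun z => by
    rw [norm_div, Complex.norm_real, norm_norm]; exact div_self_le_one _
  have ph' : ∀ z : ℂ, (‖z‖ : ℂ) * (z / (‖z‖ : ℂ)) = z := fun z => by
    rcases eq_or_ne z 0 with rfl | h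
    · simp
    · have : (‖z‖ : ℂ) ≠ 0 := by exact_mod_cast norm_ne_zero_iff.2 h
      field_simp
  have key := Pool.Agent.P.MP_bf60a1_an.dls (V := ℝ) α β (u := p) Measurable.of_discrete
    (v := q) Measurable.of_discrete (a := fun a => u a / (‖u a‖ : ℂ)) Measurable.of_discrete
    (fun a => ph _) (b := fun b => v b / (‖v b‖ : ℂ)) Measurable.of_discrete (fun b => ph _)
    (R := 1) (τ := τ)
    (X := ∑ a, ∑ a', ‖u a‖ * ‖u a'‖ * Real.exp (-(τ ^ 2 * (p a - p a') ^ 2) / 4))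
    (Y := ∑ b, ∑ b', ‖v b‖ * ‖v b'‖ * Real.exp (-(τ ^ 2 * (q b - q b') ^ 2) / 4))
    hp hq (by nlinarith) (by positivity) (by positivity)
    (by
      simp only [Real.norm_eq_abs, sq_abs]
      exact (dls_lint (fun a => norm_nonneg _) h1
        (fun a a' => Real.exp (-(τ ^ 2 * (p a - p a') ^ 2) / 4)) fun _ _ => by positivity).le)
    (by
      simp only [Real.norm_eq_abs, sq_abs]
      exact (dls_lint (fun a => norm_nonneg _) h2
        (fun a a' => Real.exp (-(τ ^ 2 * (q a - q a') ^ 2) / 4)) fun _ _ => by positivity).le)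
  have e1 : (τ ^ 2) ^ ((Module.finrank ℝ ℝ : ℝ) / 2) = τ := by
    rw [Module.finrank_self, Nat.cast_one, ← Real.sqrt_eq_rpow, Real.sqrt_sq (by linarith)]
  rw [e1, integral_fintype Integrable.of_finite, Fintype.sum_prod_type] at key
  simp only [one_pow, mul_one] at key
  refine le_of_eq_of_le ?_ key
  congr 2
  refine sum_congr rfl fun a _ => sum_congr rfl fun b _ => ?_
  rw [← Set.singleton_prod_singleton, measureReal_def, Measure.prod_prod, h1, h2,
    ENNReal.toReal_mul, ENNReal.toReal_ofReal (norm_nonneg _),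
    ENNReal.toReal_ofReal (norm_nonneg _), Complex.real_smul, Real.inner_apply]
  conv_lhs => rw [← ph' (u a), ← ph' (v b)]
  push_cast
  ring_nf

end

theorem dls_sep_pos {ι : Type} (s : Finset ι) (x : ι → ℝ) {δ κ : ℝ} (hδ : 0 < δ) (hκ : 0 < κ)
    (h1 : ∀ i ∈ s, 0 ≤ x i) (h2 : ∀ i ∈ s, ∀ j ∈ s, i ≠ j → δ ≤ |x i - x j|) :
    ∑ i ∈ s, Real.exp (-(κ * x i) ^ 2) ≤ Real.exp 1 * (1 + 1 / (κ * δ)) := by
  classical
  set k : ι → ℕ := fun i => ⌊x i / δ⌋₊ with hk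
  have a1 : ∀ i ∈ s, k i * δ ≤ x i := fun i hi => by
    rw [← le_div_iff₀ hδ]; exact Nat.floor_le (div_nonneg (h1 i hi) hδ.le)
  have a2 : ∀ i, x i < (k i + 1) * δ := fun i => by
    rw [← div_lt_iff₀ hδ]; exact Nat.lt_floor_add_one _
  have inj : Set.InjOn k s := fun i hi j hj h => by
    by_contra hne
    have := h2 i hi j hj hne
    have b1 := a1 i hi
    have b2 := a1 j hj
    have b3 := a2 i
    have b4 := a2 j
    rw [h] at b1 b3
    rcases le_abs.1 this with h | h <;> linarith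
  have ht : 0 < κ * δ := mul_pos hκ hδ
  set r := Real.exp (-(κ * δ)) with hr
  have r0 : 0 ≤ r := (Real.exp_pos _).le
  have r1 : r < 1 := Real.exp_lt_one_iff.2 (by linarith)
  have r2 : r * (1 + κ * δ) ≤ 1 := by
    have := Real.add_one_le_exp (κ * δ)
    calc r * (1 + κ * δ) ≤ r * Real.exp (κ * δ) := by gcongr; linarith
      _ = 1 := by rw [hr, ← Real.exp_add]; simp
  calc ∑ i ∈ s, Real.exp (-(κ * x i) ^ 2) ≤ ∑ i ∈ s, Real.exp 1 * r ^ k i := by
        refine sum_le_sum fun i hi => ?_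
        rw [hr, ← Real.exp_nat_mul, ← Real.exp_add]
        refine Real.exp_le_exp.2 ?_
        have := mul_le_mul_of_nonneg_left (a1 i hi) hκ.le
        nlinarith [sq_nonneg (κ * x i - 1)]
    _ = Real.exp 1 * ∑ m ∈ s.image k, r ^ m := by rw [sum_image inj, mul_sum]
    _ ≤ Real.exp 1 * (1 - r)⁻¹ := by
        gcongr
        rw [← tsum_geometric_of_lt_one r0 r1]
        exact (summable_geometric_of_lt_one r0 r1).sum_le_tsum _ fun _ _ => by positivity
    _ ≤ _ := by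
        gcongr
        rw [inv_le_iff_one_le_mul₀ (by linarith)]
        have : (1 + 1 / (κ * δ)) * (1 - r) = (1 + κ * δ - r * (1 + κ * δ)) / (κ * δ) := by
          field_simp
          ring
        rw [this, le_div_iff₀ ht]
        linarith

theorem dls_sep {ι : Type} (s : Finset ι) (x : ι → ℝ) {δ κ : ℝ} (hδ : 0 < δ) (hκ : 0 < κ) (t : ℝ)
    (h2 : ∀ i ∈ s, ∀ j ∈ s, i ≠ j → δ ≤ |x i - x j|) :
    ∑ i ∈ s, Real.exp (-(κ * (t - x i)) ^ 2) ≤ 2 * Real.exp 1 * (1 + 1 / (κ * δ)) := by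
  rw [← sum_filter_add_sum_filter_not s fun i => 0 ≤ t - x i]
  have a := dls_sep_pos (s.filter fun i => 0 ≤ t - x i) (fun i => t - x i) hδ hκ
    (fun i hi => (mem_filter.1 hi).2) fun i hi j hj h => by
      rw [show t - x i - (t - x j) = -(x i - x j) by ring, abs_neg]
      exact h2 i (mem_filter.1 hi).1 j (mem_filter.1 hj).1 h
  have b := dls_sep_pos (s.filter fun i => ¬ 0 ≤ t - x i) (fun i => x i - t) hδ hκ
    (fun i hi => by have := not_le.1 (mem_filter.1 hi).2; linarith) fun i hi j hj h => by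
      rw [show x i - t - (x j - t) = x i - x j by ring]
      exact h2 i (mem_filter.1 hi).1 j (mem_filter.1 hj).1 h
  have e : ∀ i, (κ * (x i - t)) ^ 2 = (κ * (t - x i)) ^ 2 := fun i => by ring
  simp only [e] at b
  linarith

theorem dls_form (I : Finset ℕ) (x : ℕ → ℝ) (u : ℕ → ℂ) {δ κ τ R : ℝ} (hδ : 0 < δ) (hκ : 0 < κ)
    (hR : 0 < R) (h : 2 * κ * R ≤ τ) (h2 : ∀ i ∈ I, ∀ j ∈ I, i ≠ j → δ ≤ |x i - x j|) :
    ∑ a ∈ I, ∑ a' ∈ I, ‖u a‖ * ‖u a'‖ * Real.exp (-(τ ^ 2 * (x a / R - x a' / R) ^ 2) / 4) ≤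
      2 * Real.exp 1 * (1 + 1 / (κ * δ)) * nsq I u := by
  set M := 2 * Real.exp 1 * (1 + 1 / (κ * δ)) with hM
  have b1 : ∀ a a', ‖u a‖ * ‖u a'‖ * Real.exp (-(τ ^ 2 * (x a / R - x a' / R) ^ 2) / 4) ≤
      ‖u a‖ ^ 2 / 2 * Real.exp (-(κ * (x a - x a')) ^ 2) +
        ‖u a'‖ ^ 2 / 2 * Real.exp (-(κ * (x a' - x a)) ^ 2) := by
    intro a a'
    have e : (κ * (x a' - x a)) ^ 2 = (κ * (x a - x a')) ^ 2 := by ring
    rw [e, ← add_mul]
    refine mul_le_mul (by nlinarith [sq_nonneg (‖u a‖ - ‖u a'‖)]) (Real.exp_le_exp.2 ?_)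
      (Real.exp_pos _).le (by positivity)
    have c1 : (2 * κ * R) ^ 2 ≤ τ ^ 2 := by gcongr
    have c2 : (κ * (x a - x a')) ^ 2 = (2 * κ * R) ^ 2 * (x a / R - x a' / R) ^ 2 / 4 := by
      field_simp
      ring
    have c3 := mul_le_mul_of_nonneg_right c1 (sq_nonneg (x a / R - x a' / R))
    rw [c2]
    linarith
  have b2 : ∑ a ∈ I, ∑ a' ∈ I, ‖u a‖ ^ 2 / 2 * Real.exp (-(κ * (x a - x a')) ^ 2) ≤
      M * nsq I u / 2 := by
    rw [nsq, mul_sum, sum_div]
    refine sum_le_sum fun a _ => ?_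
    rw [← mul_sum]
    have := mul_le_mul_of_nonneg_left (dls_sep I x hδ hκ (x a) h2)
      (show 0 ≤ ‖u a‖ ^ 2 / 2 by positivity)
    rw [← hM] at this
    linarith
  calc _ ≤ ∑ a ∈ I, ∑ a' ∈ I, (‖u a‖ ^ 2 / 2 * Real.exp (-(κ * (x a - x a')) ^ 2) +
        ‖u a'‖ ^ 2 / 2 * Real.exp (-(κ * (x a' - x a)) ^ 2)) :=
        sum_le_sum fun a _ => sum_le_sum fun a' _ => b1 a a'
    _ = _ + ∑ a ∈ I, ∑ a' ∈ I, ‖u a‖ ^ 2 / 2 * Real.exp (-(κ * (x a - x a')) ^ 2) := by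
        simp only [sum_add_distrib]
        congr 1
        exact sum_comm
    _ ≤ _ := by linarith

theorem t_DLS : S_DLS := by
  refine ⟨√(Real.exp 3 * (2 * π)) * (2 * Real.exp 1), by positivity, ?_⟩
  intro I J x y X Y dx dy hX hY hdx hdy hx hy sx sy u v
  set R := X + 1 / Y with hR
  have hR0 : 0 < R := by positivity
  have hXR : X ≤ R := by rw [hR]; exact le_add_of_nonneg_right (by positivity)
  have hRY : R * Y = 1 + X * Y := by rw [hR]; field_simp; ring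
  have hπ := Real.pi_gt_three
  have hXY : 0 < X * Y := mul_pos hX hY
  have key := dls_fin (A := I) (B := J) (fun a => x a / R) (fun b => y b / Y) (fun a => u a)
    (fun b => v b)
    (fun a => by rw [abs_div, abs_of_pos hR0, div_le_one hR0]; exact (hx a a.2).trans hXR)
    (fun b => by rw [abs_div, abs_of_pos hY, div_le_one hY]; exact hy b b.2)
    (τ := 2 * π * (1 + X * Y)) (by nlinarith)
  have e1 : ∀ a b : ℕ, Complex.exp (Complex.I * ((2 * π * (1 + X * Y) : ℝ) : ℂ) *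
      ((x a / R * (y b / Y) : ℝ) : ℂ)) = ee (x a * y b) := by
    intro a b
    rw [ee, mul_assoc, ← Complex.ofReal_mul, ← hRY]
    congr 3
    field_simp
  simp only [e1] at key
  rw [sum_coe_sort I (fun a => ∑ b : J, u a * v b * ee (x a * y b)),
    sum_coe_sort I (fun a => ∑ a' : I, ‖u a‖ * ‖u a'‖ *
      Real.exp (-((2 * π * (1 + X * Y)) ^ 2 * (x a / R - x a' / R) ^ 2) / 4)),
    sum_coe_sort J (fun b => ∑ b' : J, ‖v b‖ * ‖v b'‖ *
      Real.exp (-((2 * π * (1 + X * Y)) ^ 2 * (y b / Y - y b' / Y) ^ 2) / 4))] at key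
  simp only [fun a => sum_coe_sort J (fun b => u a * v b * ee (x a * y b)),
    fun a => sum_coe_sort I (fun a' => ‖u a‖ * ‖u a'‖ *
      Real.exp (-((2 * π * (1 + X * Y)) ^ 2 * (x a / R - x a' / R) ^ 2) / 4)),
    fun b => sum_coe_sort J (fun b' => ‖v b‖ * ‖v b'‖ *
      Real.exp (-((2 * π * (1 + X * Y)) ^ 2 * (y b / Y - y b' / Y) ^ 2) / 4))] at key
  have f1 := dls_form I x u (τ := 2 * π * (1 + X * Y)) hdx hY hR0
    (by rw [mul_assoc, mul_comm Y, hRY]; nlinarith) sx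
  have f2 := dls_form J y v (τ := 2 * π * (1 + X * Y)) hdy hX hY (by nlinarith) sy
  have n1 := nsq_nonneg I u
  have n2 := nsq_nonneg J v
  refine le_of_sq_le_sq (key.trans ?_) (by positivity)
  calc _ ≤ Real.exp 3 * (2 * π * (1 + X * Y)) * (2 * Real.exp 1 * (1 + 1 / (Y * dx)) * nsq I u) *
        (2 * Real.exp 1 * (1 + 1 / (X * dy)) * nsq J v) := by gcongr
    _ = _ := by
      rw [mul_pow, mul_pow, mul_pow, mul_pow, Real.sq_sqrt n1, Real.sq_sqrt n2,
        Real.sq_sqrt (by positivity), Real.sq_sqrt (by positivity)]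
      ring

end Pool.Agent.P.MP_8be758_nt.Avg
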