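import Pool.Agent.P.MP_8be758_nt.Avg.Basic

/-! The logarithmic integral and the final statement. -/

namespace Pool.Agent.P.MP_8be758_nt.Avg

open Finset Real Filter Topology
open Pool.Agent.P.MP_e86632_nt (ee)

theorem final_log {k : ℕ} (hk : 3 ≤ k) {x : ℝ} (hx : 0 ≤ x) : 1 ≤ Real.log (x ^ 2 + x + k) := by
  have h1 : (3 : ℝ) ≤ k := by exact_mod_cast hk
  have h2 : (3 : ℝ) ≤ x ^ 2 + x + k := by nlinarith [sq_nonneg x]
  rw [Real.le_log_iff_exp_le (by linarith)]
  exact (Real.exp_one_lt_d9.le.trans (by norm_num)).trans h2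

theorem final_int {k : ℕ} (hk : 3 ≤ k) {a b : ℝ} (ha : 0 ≤ a) (hab : a ≤ b) :
    IntervalIntegrable (fun x : ℝ => 1 / Real.log (x ^ 2 + x + k)) MeasureTheory.volume a b := by
  have h1 : (3 : ℝ) ≤ k := by exact_mod_cast hk
  refine ContinuousOn.intervalIntegrable_of_Icc hab (continuousOn_const.div
    (ContinuousOn.log (by fun_prop) fun x hx => ?_) fun x hx => ?_)
  · have := ha.trans hx.1
    positivity
  · exact (one_pos.trans_le (final_log hk (ha.trans hx.1))).ne'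

theorem final_le {k : ℕ} (hk : 3 ≤ k) {a b M : ℝ} (ha : 0 ≤ a) (hab : a ≤ b) (hM : 0 < M)
    (h : ∀ x ∈ Set.Icc a b, M ≤ Real.log (x ^ 2 + x + k)) :
    ∫ x in a..b, 1 / Real.log (x ^ 2 + x + k) ≤ (b - a) / M := by
  have := intervalIntegral.integral_mono_on hab (final_int hk ha hab)
    (intervalIntegrable_const (c := 1 / M)) fun x hx => one_div_le_one_div_of_le hM (h x hx)
  rwa [intervalIntegral.integral_const, smul_eq_mul, mul_one_div] at this

theorem final_ge {k : ℕ} (hk : 3 ≤ k) {a b M : ℝ} (ha : 0 ≤ a) (hab : a ≤ b)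
    (h : ∀ x ∈ Set.Icc a b, Real.log (x ^ 2 + x + k) ≤ M) :
    (b - a) / M ≤ ∫ x in a..b, 1 / Real.log (x ^ 2 + x + k) := by
  have := intervalIntegral.integral_mono_on hab (intervalIntegrable_const (c := 1 / M))
    (final_int hk ha hab) fun x hx =>
      one_div_le_one_div_of_le (one_pos.trans_le (final_log hk (ha.trans hx.1))) (h x hx)
  rwa [intervalIntegral.integral_const, smul_eq_mul, mul_one_div] at this

theorem final_LA (ε : ℝ) (hε : 0 < ε) : ∀ᶠ N : ℝ in atTop, ∀ k : ℕ, 3 ≤ k → (k : ℝ) ≤ N ^ 2 →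
    |2 * (∫ x in (0 : ℝ)..N, 1 / Real.log (x ^ 2 + x + k)) - N / Real.log N| ≤
      ε * (N / Real.log N) := by
  obtain ⟨d, hd0, hd1, hd2⟩ : ∃ d : ℝ, 0 < d ∧ d ≤ 1 / 2 ∧ d ≤ ε / 4 :=
    ⟨min (1 / 2) (ε / 4), by positivity, min_le_left _ _, min_le_right _ _⟩
  filter_upwards [ev_pow (4 / ε) 1 (show 1 - d < 1 by linarith), ev_log (1 / ε), ev_log 1,
    eventually_ge_atTop 1] with N h1 h2 h3 h4 k hk hkN
  have hN : 0 < N := by linarith
  rw [Real.rpow_one, pow_one] at h1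
  have hy0 : 0 < N ^ (1 - d) := by positivity
  have hyN : N ^ (1 - d) ≤ N := by
    simpa using Real.rpow_le_rpow_of_exponent_le h4 (show 1 - d ≤ 1 by linarith)
  have hly : Real.log (N ^ (1 - d)) = (1 - d) * Real.log N := Real.log_rpow hN _
  generalize N ^ (1 - d) = y at h1 hy0 hyN hly
  have hk0 : (0 : ℝ) ≤ k := Nat.cast_nonneg k
  have u1 := final_le hk le_rfl hy0.le one_pos fun x hx => final_log hk hx.1
  have u2 := final_le hk hy0.le hyN (M := 2 * ((1 - d) * Real.log N))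
    (mul_pos two_pos (mul_pos (by linarith) (by linarith))) fun x hx => by
      have h5 : Real.log (y ^ 2) = 2 * ((1 - d) * Real.log N) := by
        rw [Real.log_pow, hly]; norm_num
      rw [← h5]
      exact Real.log_le_log (by positivity) (by nlinarith [hx.1])
  have l1 := final_ge hk le_rfl hN.le (M := 2 * ((1 + ε) * Real.log N)) fun x hx => by
    have h5 : Real.log (3 * N ^ 2) = Real.log 3 + 2 * Real.log N := by
      rw [Real.log_mul (by norm_num) (by positivity), Real.log_pow]; norm_num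
    have h6 : Real.log 3 ≤ 2 := (Real.log_le_sub_one_of_pos (by norm_num)).trans (by norm_num)
    have h7 : 1 ≤ ε * Real.log N := by
      rw [div_le_iff₀ hε] at h2; linarith
    have h8 : (3 : ℝ) ≤ k := by exact_mod_cast hk
    have h9 : Real.log (x ^ 2 + x + k) ≤ Real.log (3 * N ^ 2) :=
      Real.log_le_log (by nlinarith [hx.1]) (by nlinarith [hx.1, hx.2])
    linarith
  have hadd := intervalIntegral.integral_add_adjacent_intervals (final_int hk le_rfl hy0.le)
    (final_int hk hy0.le hyN)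
  rw [← hadd] at l1 ⊢
  generalize (∫ x in (0 : ℝ)..y, 1 / Real.log (x ^ 2 + x + k)) = I1 at u1 l1
  generalize (∫ x in y..N, 1 / Real.log (x ^ 2 + x + k)) = I2 at u2 l1
  generalize Real.log N = L at *
  have hL : 0 < L := by linarith
  have hM : 0 < N / L := by positivity
  have a1 : 2 * y ≤ ε / 2 * (N / L) := by
    rw [← mul_div_assoc, le_div_iff₀ hL]
    rw [div_mul_eq_mul_div, div_mul_eq_mul_div, div_le_iff₀ hε] at h1
    linarith
  have a2 : 2 * ((N - y) / (2 * ((1 - d) * L))) ≤ (1 + 2 * d) * (N / L) := by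
    have h5 : 0 < 1 - d := by linarith
    have h6 : 2 * ((N - y) / (2 * ((1 - d) * L))) = (N - y) / L / (1 - d) := by field_simp
    have h7 : (N - y) / L ≤ N / L := div_le_div_of_nonneg_right (by linarith) hL.le
    rw [h6, div_le_iff₀ h5]
    nlinarith [mul_nonneg hM.le (mul_nonneg hd0.le (show 0 ≤ 1 - 2 * d by linarith))]
  have a3 : (1 - ε) * (N / L) ≤ 2 * ((N - 0) / (2 * ((1 + ε) * L))) := by
    have h6 : 2 * ((N - 0) / (2 * ((1 + ε) * L))) = N / L / (1 + ε) := by field_simp; ring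
    rw [h6, le_div_iff₀ (by linarith)]
    nlinarith [mul_nonneg hM.le (sq_nonneg ε)]
  rw [sub_zero, div_one] at u1
  rw [abs_le]
  constructor <;> nlinarith

theorem t_LA : S_LA := fun ε hε => by
  filter_upwards [tendsto_natCast_atTop_atTop.eventually (final_LA ε hε)] with n h k h1 h2
  exact h k h1 (by exact_mod_cast h2)

theorem final_num {e ε s M P C L : ℝ} (he0 : 0 < e) (he1 : e ≤ 1) (heε : e ≤ ε) (hs : 0 < s)
    (hM : 0 < M) (h1 : |2 * C - s| ≤ e / 10 * s) (h2 : |L - M| ≤ e / 10 * M)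
    (h3 : |P - s / 2 * M| ≤ e / 20 * (s * M)) : 0 < C ∧ |P - C * L| ≤ ε * (C * L) := by
  have hsM := mul_pos hs hM
  have b1 : |(2 * C - s) * M| ≤ e / 10 * (s * M) := by
    rw [abs_mul, abs_of_pos hM]; nlinarith
  have b2 : |s * (L - M)| ≤ e / 10 * (s * M) := by
    rw [abs_mul, abs_of_pos hs]; nlinarith
  have b3 : |(2 * C - s) * (L - M)| ≤ e / 10 * (s * M) := by
    rw [abs_mul]
    have h4 := mul_le_mul h1 h2 (abs_nonneg _) (by positivity)
    nlinarith [mul_nonneg (mul_nonneg he0.le hsM.le) (sub_nonneg.2 he1), mul_pos he0 hsM]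
  rw [abs_le] at b1 b2 b3 h1 h3
  have b4 : e * (s * M) ≤ s * M := by nlinarith
  have b5 : 7 / 20 * (s * M) ≤ C * L := by nlinarith [b1.1, b2.1, b3.1]
  have b6 : e * (7 / 20 * (s * M)) ≤ ε * (C * L) := mul_le_mul heε b5 (by positivity) (by linarith)
  have b7 := mul_pos he0 hsM
  refine ⟨by nlinarith [h1.1], abs_le.2 ⟨?_, ?_⟩⟩
  · nlinarith [b1.2, b2.2, b3.2, h3.1]
  · nlinarith [b1.1, b2.1, b3.1, h3.2]

theorem t_FINAL (hSING : S_SING) (hLA : S_LA) (θ : ℝ) (hθ : 4 / 5 ≤ θ) (hP : S_PIECES θ) :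
    S_FINAL θ := by
  classical
  intro ε hε
  obtain ⟨e, he0, he1, heε⟩ : ∃ e : ℝ, 0 < e ∧ e ≤ 1 ∧ e ≤ ε :=
    ⟨min 1 ε, by positivity, min_le_left _ _, min_le_right _ _⟩
  obtain ⟨c0, hc0, hS⟩ := hSING (e / 2) (by positivity)
  obtain ⟨R1, hR1⟩ := hS (e / 10) (by positivity)
  obtain ⟨f, hf0, hf1, hf2⟩ : ∃ f : ℝ, 0 < f ∧ f ≤ e / 2 ∧ f ≤ e * c0 / (20 * (1 + c0)) :=
    ⟨min (e / 2) (e * c0 / (20 * (1 + c0))), by positivity, min_le_left _ _, min_le_right _ _⟩
  obtain ⟨R2, hR2⟩ := hP f hf0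
  have h1 := tendsto_natCast_atTop_atTop.eventually
    (ev_K (hR1 (max R1 R2) (le_max_left _ _)) (show 0 < θ by linarith))
  have h2 := hR2 (max R1 R2) (le_max_right _ _)
  generalize max R1 R2 = R at h1 h2
  obtain ⟨n₀, hn₀⟩ := eventually_atTop.1
    (h1.and (h2.and ((hLA (e / 10) (by positivity)).and (eventually_ge_atTop 2))))
  refine ⟨n₀, fun n K hn hK1 hK2 => ?_⟩
  obtain ⟨a1, a2, a3, a4⟩ := hn₀ n hn
  have b1 := a1 K hK1
  have b2 := a2 K hK1 hK2
  have hn2 : (2 : ℝ) ≤ n := by exact_mod_cast a4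
  have hKn : K ≤ n ^ 2 := by
    have := hK2.trans (Real.rpow_le_rpow_of_exponent_le (by linarith : (1 : ℝ) ≤ n)
      (show (11 / 10 : ℝ) ≤ (2 : ℕ) by norm_num))
    rw [Real.rpow_natCast] at this
    exact_mod_cast this
  have hM : 0 < n / Real.log n := div_pos (by linarith) (Real.log_pos (by linarith))
  refine le_trans ?_ ((add_le_add b1 b2).trans ?_)
  · rw [← Nat.cast_add, Nat.cast_le]
    refine le_trans ?_ (card_union_le _ _)
    rw [← Set.ncard_coe_finset]
    refine Set.ncard_le_ncard (fun A hA => ?_) (Finset.finite_toSet _)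
    obtain ⟨c1, c2, c3, c4⟩ := hA
    by_contra hcon
    rw [mem_coe, mem_union, not_or, mem_filter, mem_filter] at hcon
    have hA : A ∈ Icc 1 K := mem_Icc.2 ⟨by omega, c2⟩
    obtain ⟨d1, C, d2, d3⟩ := not_not.1 fun h => hcon.1 ⟨hA, c3, h⟩
    have d4 := not_lt.1 fun h => hcon.2 ⟨hA, h⟩
    have hs : 0 < sing R A := hc0.trans_le d1
    have d5 : f * (1 + sing R A) ≤ e / 20 * sing R A := by
      rw [le_div_iff₀ (by positivity)] at hf2
      have d6 : c0 * (1 + sing R A) ≤ sing R A * (1 + c0) := by nlinarith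
      refine le_of_mul_le_mul_right ?_ (show 0 < 20 * (1 + c0) by positivity)
      nlinarith [mul_le_mul_of_nonneg_right hf2 (show 0 ≤ 1 + sing R A by linarith),
        mul_le_mul_of_nonneg_left d6 he0.le]
    have d7 := final_num he0 he1 heε hs hM d3 (a3 A c1 (c2.trans hKn))
      (d4.trans (by nlinarith [mul_le_mul_of_nonneg_right d5 hM.le]))
    exact c4 ⟨C, d7.1, d2, d7.2⟩
  · have : (0 : ℝ) ≤ K := Nat.cast_nonneg K
    nlinarith

end Pool.Agent.P.MP_8be758_nt.Avg
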