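import Pool.Agent.P.MP_8be758_nt.Avg.Basic

/-! Both factors near `N`, and the combination of the type II ranges. -/

namespace Pool.Agent.P.MP_8be758_nt.Avg

open Finset Real Filter Topology
open Pool.Agent.P.MP_e86632_nt (ee)

theorem gap_cover (P : Finset (ℕ × ℕ)) (J : Finset ℕ) (S1 S2 : ℕ → Finset ℕ) (t : ℕ × ℕ → ℝ)
    (F : ℕ → ℝ) (ht : ∀ p, |t p| ≤ 1)
    (h : ∀ p ∈ P, t p ≠ 0 → ∃ j ∈ J, p.1 ∈ S1 j ∧ p.2 ∈ S2 j) :
    |∑ p ∈ P, t p * F (p.1 * p.2)| ≤ ∑ j ∈ J, ∑ b ∈ S1 j, ∑ a ∈ S2 j, |F (a * b)| := by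
  calc |∑ p ∈ P, t p * F (p.1 * p.2)| ≤ ∑ p ∈ P, |t p * F (p.1 * p.2)| := abs_sum_le_sum_abs _ _
    _ ≤ ∑ p ∈ P, ∑ j ∈ J, if p ∈ S1 j ×ˢ S2 j then |F (p.1 * p.2)| else 0 := by
      refine sum_le_sum fun p hp => ?_
      have h0 : ∀ j ∈ J, 0 ≤ if p ∈ S1 j ×ˢ S2 j then |F (p.1 * p.2)| else 0 := fun j _ => by
        split_ifs
        exacts [abs_nonneg _, le_rfl]
      by_cases h1 : t p = 0
      · rw [h1, zero_mul, abs_zero]
        exact sum_nonneg h0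
      obtain ⟨j, hj, h2⟩ := h p hp h1
      refine le_trans ?_ (single_le_sum h0 hj)
      rw [if_pos (mem_product.2 h2), abs_mul]
      exact mul_le_of_le_one_left (abs_nonneg _) (ht p)
    _ = ∑ j ∈ J, ∑ p ∈ P.filter (· ∈ S1 j ×ˢ S2 j), |F (p.1 * p.2)| := by
      rw [sum_comm]
      exact sum_congr rfl fun j _ => (sum_filter _ _).symm
    _ ≤ _ := by
      refine sum_le_sum fun j _ => ?_
      rw [← sum_product' _ _ fun b a => |F (a * b)|]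
      refine le_trans (sum_le_sum_of_subset_of_nonneg (fun p hp => (mem_filter.1 hp).2)
        fun _ _ _ => abs_nonneg _) (le_of_eq (sum_congr rfl fun p _ => by rw [mul_comm]))

theorem gap_index {x y : ℝ} {j : ℕ} (hx : 1 ≤ x) (h : (2 : ℝ) ^ j ≤ 6 / 5 * Real.exp (2 * x))
    (hy : y = 4 * x) : j < ⌊y⌋₊ + 1 := by
  refine Nat.lt_succ_of_le (Nat.le_floor ?_)
  have h1 : (6 / 5 : ℝ) ≤ Real.exp (1 / 5) := by
    have := Real.add_one_le_exp (1 / 5 : ℝ)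
    linarith
  have h2 : Real.exp (j * Real.log 2) ≤ Real.exp (1 / 5 + 2 * x) := by
    rw [Real.exp_add, mul_comm (j : ℝ), ← Real.rpow_def_of_pos two_pos, Real.rpow_natCast]
    exact h.trans (mul_le_mul_of_nonneg_right h1 (Real.exp_pos _).le)
  rw [Real.exp_le_exp] at h2
  have h3 := Real.log_two_gt_d9
  have h4 : (0 : ℝ) ≤ j := Nat.cast_nonneg j
  nlinarith

theorem t_GAP (hUPD : S_UPD) (hRC : S_RC) : S_GAP := by
  obtain ⟨C1, hC1, hU⟩ := hUPD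
  obtain ⟨C2, hC2, hR⟩ := hRC
  refine ⟨20 * C1 * C2 ^ 2 + 5, by positivity, fun e1 eg he1 he1' heg heg' W hW => ?_⟩
  filter_upwards [hU W hW, ev_const 2 he1, ev_log (1 / eg), ev_log 1, eventually_ge_atTop 1,
    ev_pow (6 / 5) 0 (show (5 / 4 : ℝ) < 4 / 3 by norm_num)] with N hU hz hL hL1 hN h43
  intro K X1 X2 φ ψ hS hφ hψ
  have hN0 : 0 < N := by linarith
  rw [pow_zero, mul_one] at h43
  set L := Real.log N with hLdef
  set z := N ^ e1 with hzdef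
  set G := N ^ (1 - eg) with hGdef
  have hG0 : 0 < G := Real.rpow_pos_of_pos hN0 _
  have hlz : Real.log z = e1 * L := Real.log_rpow hN0 _
  have hx : 1 ≤ eg * L := by rwa [div_le_iff₀' heg] at hL
  have hz5 : z ^ 5 ≤ N ^ (2 / 3 : ℝ) := by
    rw [hzdef, ← Real.rpow_mul_natCast hN0.le]
    exact Real.rpow_le_rpow_of_exponent_le hN (by push_cast; linarith)
  have hG23 : N ^ (2 / 3 : ℝ) ≤ G := Real.rpow_le_rpow_of_exponent_le hN (by linarith)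
  have hN2 : N ^ 2 = N ^ (2 / 3 : ℝ) * N ^ (4 / 3 : ℝ) := by
    rw [← Real.rpow_add hN0, ← Real.rpow_natCast]
    norm_num
  have hN2' : N ^ 2 = G * N ^ (1 + eg) := by
    rw [hGdef, ← Real.rpow_add hN0, ← Real.rpow_natCast]
    norm_num
  have hN3 : N ^ (1 + eg) = G * Real.exp (2 * (eg * L)) := by
    rw [hGdef, Real.rpow_def_of_pos hN0, Real.rpow_def_of_pos hN0, ← Real.exp_add]
    congr 1
    ring
  have h54 : N ^ (1 + eg) ≤ N ^ (5 / 4 : ℝ) := Real.rpow_le_rpow_of_exponent_le hN (by linarith)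
  let J := (range (⌊4 * (eg * L)⌋₊ + 1)).filter fun j => G * 2 ^ j ≤ N ^ (4 / 3 : ℝ)
  let S1 : ℕ → Finset ℕ := fun j => (Icc 1 X2).filter fun u =>
    Rough z u ∧ G * 2 ^ j ≤ u ∧ (u : ℝ) ≤ 2 * (G * 2 ^ j)
  let S2 : ℕ → Finset ℕ := fun j => (Icc 1 X2).filter fun v =>
    Rough z v ∧ N ^ 2 / (2 * (G * 2 ^ j)) ≤ v ∧ (v : ℝ) ≤ 2 * N ^ 2 / (G * 2 ^ j)
  have hcov : ∀ k, |bil X1 X2 φ ψ (dd W k)| ≤
      ∑ j ∈ J, ∑ b ∈ S1 j, ∑ a ∈ S2 j, |dd W k (a * b)| := by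
    intro k
    refine gap_cover _ J S1 S2 (fun p => φ p.1 * ψ p.2) _ (fun p => ?_) fun p hp h => ?_
    · rw [abs_mul]
      exact mul_le_one₀ (hφ.1 _) (abs_nonneg _) (hψ.1 _)
    obtain ⟨r1, g1⟩ := hφ.2 _ (left_ne_zero_of_mul h)
    obtain ⟨r2, g2⟩ := hψ.2 _ (right_ne_zero_of_mul h)
    obtain ⟨hp1, hp2, hp3⟩ := mem_filter.1 hp
    obtain ⟨m1, m2⟩ := mem_product.1 hp1
    have a1 : N ^ 2 ≤ (p.1 : ℝ) * p.2 := hS.x1.trans (by exact_mod_cast hp2.le)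
    have a2 : (p.1 : ℝ) * p.2 ≤ 6 / 5 * N ^ 2 := le_trans (by exact_mod_cast hp3) hS.x2
    obtain ⟨j, j1, j2⟩ := exists_nat_pow_near ((one_le_div hG0).2 g1.le) (one_lt_two (α := ℝ))
    rw [le_div_iff₀' hG0] at j1
    rw [div_lt_iff₀' hG0, pow_succ] at j2
    have u0 : 0 < G * 2 ^ j := by positivity
    have hu : (p.1 : ℝ) ≤ 6 / 5 * N ^ (1 + eg) := by
      refine le_of_mul_le_mul_left ?_ hG0
      have : G * p.1 ≤ (p.1 : ℝ) * p.2 := by
        rw [mul_comm]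
        exact mul_le_mul_of_nonneg_left g2.le (Nat.cast_nonneg _)
      rw [hN2'] at a2
      linarith
    have v0 : (0 : ℝ) ≤ p.2 := Nat.cast_nonneg _
    refine ⟨j, mem_filter.2 ⟨mem_range.2 (gap_index hx ?_ rfl), by linarith⟩,
      mem_filter.2 ⟨m1, r1, j1, by linarith⟩, mem_filter.2 ⟨m2, r2, ?_, ?_⟩⟩
    · refine le_of_mul_le_mul_left ?_ hG0
      rw [hN3] at hu
      linarith
    · rw [div_le_iff₀ (by positivity)]
      nlinarith
    · rw [le_div_iff₀ u0]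
      have : 0 ≤ N ^ 2 := by positivity
      nlinarith
  have hL0 : 0 < L := by linarith
  have hK0 : (0 : ℝ) ≤ K := Nat.cast_nonneg K
  have hbox : ∀ j ∈ J, ∑ k ∈ Icc 1 K, ∑ b ∈ S1 j, ∑ a ∈ S2 j, |dd W k (a * b)| ≤
      (4 * C1 * C2 ^ 2 + 1) * (K * N / (e1 * L) ^ 2) := by
    intro j hj
    have j1 := (mem_filter.1 hj).2
    have j0 : G ≤ G * 2 ^ j := le_mul_of_one_le_right hG0.le (one_le_pow₀ one_le_two)
    generalize hB : G * 2 ^ j = B at j0 j1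
    have hB0 : 0 < B := by linarith
    have b1 := hU K B (S1 j) (S2 j) hS.lo (hG23.trans j0) j1
      (fun b hb => hB ▸ (mem_filter.1 hb).2.2) fun a ha => hB ▸ (mem_filter.1 ha).2.2
    have c1 := hR z 0 (2 * B) (S1 j) hz (by linarith) fun m hm => by
      obtain ⟨h1, h2, -, h3⟩ := mem_filter.1 hm
      exact ⟨by exact_mod_cast (mem_Icc.1 h1).1, by rw [zero_add, ← hB]; exact h3, h2⟩
    have c2 := hR z 0 (2 * N ^ 2 / B) (S2 j) hz (by
      rw [le_div_iff₀ hB0]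
      have : 0 ≤ N ^ 2 := by positivity
      have := mul_le_mul hz5 j1 hB0.le (by positivity)
      linarith) fun m hm => by
      obtain ⟨h1, h2, -, h3⟩ := mem_filter.1 hm
      exact ⟨by exact_mod_cast (mem_Icc.1 h1).1, by rw [zero_add, ← hB]; exact h3, h2⟩
    rw [hlz] at c1 c2
    have d1 : C1 * (K / N) * (S1 j).card * (S2 j).card ≤
        C1 * (K / N) * (C2 * (2 * B) / (e1 * L)) * (C2 * (2 * N ^ 2 / B) / (e1 * L)) := by
      gcongr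
    have d2 : C1 * (K / N) * (C2 * (2 * B) / (e1 * L)) * (C2 * (2 * N ^ 2 / B) / (e1 * L)) =
        4 * C1 * C2 ^ 2 * (K * N / (e1 * L) ^ 2) := by
      field_simp
      ring
    have d3 : K * N / L ^ 4 ≤ K * N / (e1 * L) ^ 2 := by
      refine div_le_div_of_nonneg_left (by positivity) (by positivity) ?_
      rw [show L ^ 4 = (L * L) ^ 2 by ring]
      gcongr
      linarith
    linarith
  have hJ : (J.card : ℝ) ≤ 5 * (eg * L) := by
    have h1 : J.card ≤ ⌊4 * (eg * L)⌋₊ + 1 := (card_filter_le _ _).trans (card_range _).le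
    have h2 := Nat.floor_le (show 0 ≤ 4 * (eg * L) by positivity)
    have h3 : (J.card : ℝ) ≤ ⌊4 * (eg * L)⌋₊ + 1 := by exact_mod_cast h1
    linarith
  calc ∑ k ∈ Icc 1 K, |bil X1 X2 φ ψ (dd W k)|
      ≤ ∑ k ∈ Icc 1 K, ∑ j ∈ J, ∑ b ∈ S1 j, ∑ a ∈ S2 j, |dd W k (a * b)| :=
        sum_le_sum fun k _ => hcov k
    _ ≤ J.card * ((4 * C1 * C2 ^ 2 + 1) * (K * N / (e1 * L) ^ 2)) := by
        rw [sum_comm, ← nsmul_eq_mul]
        exact sum_le_card_nsmul _ _ _ hbox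
    _ ≤ 5 * (eg * L) * ((4 * C1 * C2 ^ 2 + 1) * (K * N / (e1 * L) ^ 2)) := by gcongr
    _ = _ := by
        field_simp
        ring

theorem gap_split (X1 X2 : ℕ) (G : ℝ) (φ ψ f : ℕ → ℝ) :
    bil X1 X2 φ ψ f = bil X1 X2 (fun u => if (u : ℝ) ≤ G then φ u else 0) ψ f +
      bil X1 X2 (fun u => if (u : ℝ) ≤ G then ψ u else 0)
        (fun u => if (u : ℝ) ≤ G then 0 else φ u) f +
      bil X1 X2 (fun u => if (u : ℝ) ≤ G then 0 else φ u)
        (fun u => if (u : ℝ) ≤ G then 0 else ψ u) f := by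
  rw [bil_comm X1 X2 (fun u => if (u : ℝ) ≤ G then ψ u else 0)]
  simp only [bil, ← sum_add_distrib]
  refine sum_congr rfl fun p _ => ?_
  split_ifs <;> ring

theorem gap_lo {z y G : ℝ} {φ : ℕ → ℝ} (h : Coef z y φ) :
    Coef z y (fun u => if (u : ℝ) ≤ G then φ u else 0) ∧
      ∀ u : ℕ, (if (u : ℝ) ≤ G then φ u else 0) ≠ 0 → (u : ℝ) ≤ G := by
  refine ⟨⟨fun u => ?_, fun u hu => h.2 u fun h0 => hu (by simp [h0])⟩, fun u hu => ?_⟩
  · beta_reduce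
    split_ifs
    exacts [h.1 u, by simp]
  · by_contra h1
    exact hu (if_neg h1)

theorem gap_hi {z y G : ℝ} {φ : ℕ → ℝ} (h : Coef z y φ) :
    Coef z G (fun u => if (u : ℝ) ≤ G then 0 else φ u) := by
  refine ⟨fun u => ?_, fun u hu => ⟨(h.2 u fun h0 => hu (by simp [h0])).1, ?_⟩⟩
  · beta_reduce
    split_ifs
    exacts [by simp, h.1 u]
  · by_contra h1
    exact hu (if_pos (not_lt.1 h1))

theorem gap_weak {z y : ℝ} {φ : ℕ → ℝ} (h : Coef z y φ) (hy : 0 ≤ y) : Coef z 0 φ :=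
  ⟨h.1, fun u hu => ⟨(h.2 u hu).1, hy.trans_lt (h.2 u hu).2⟩⟩

theorem t_II (hGAP : S_GAP) (θ : ℝ) (hθ : 4 / 5 ≤ θ) (hHALF : S_HALF θ) : S_II θ := by
  intro e1 he1 he1' ε hε
  obtain ⟨C, hC, hG⟩ := hGAP
  obtain ⟨g0, hg0, hH⟩ := hHALF e1 he1 he1'
  obtain ⟨eg, heg, h1, h2, h3⟩ : ∃ eg : ℝ, 0 < eg ∧ eg ≤ g0 ∧ eg ≤ 1 / 4 ∧
      eg ≤ ε * e1 ^ 2 / (3 * C) :=
    ⟨min g0 (min (1 / 4) (ε * e1 ^ 2 / (3 * C))), by positivity, min_le_left _ _,
      (min_le_right _ _).trans (min_le_left _ _), (min_le_right _ _).trans (min_le_right _ _)⟩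
  obtain ⟨R1, hR1⟩ := hH eg heg h1 (ε / 3) (by positivity)
  refine ⟨R1, fun R hR => ?_⟩
  filter_upwards [hR1 R hR, hG e1 eg he1 he1' heg h2 R.factorial (Nat.factorial_pos R),
    eventually_ge_atTop 1] with N hH hG hN
  intro K X1 X2 φ ψ hS hφ hψ
  have hN0 : 0 < N := by linarith
  have b1 := hH K X1 X2 _ ψ hS (gap_lo (G := N ^ (1 - eg)) hφ).1 (gap_lo hφ).2
    (gap_weak hψ (by positivity))
  have b2 := hH K X1 X2 _ _ hS (gap_lo (G := N ^ (1 - eg)) hψ).1 (gap_lo hψ).2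
    (gap_weak (gap_hi (G := N ^ (1 - eg)) hφ) (by positivity))
  have b3 := hG K X1 X2 _ _ (hS.mono hθ hN) (gap_hi hφ) (gap_hi hψ)
  have hL : 0 ≤ Real.log N := Real.log_nonneg hN
  have b4 : C * (eg / e1 ^ 2) * K * N / Real.log N ≤ ε / 3 * K * N / Real.log N := by
    have : C * (eg / e1 ^ 2) ≤ ε / 3 := by
      rw [le_div_iff₀ (by positivity)] at h3
      rw [← mul_div_assoc, div_le_iff₀ (by positivity)]
      linarith
    gcongr
  have b5 : ε * K * N / Real.log N = 3 * (ε / 3 * K * N / Real.log N) := by ring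
  have b6 := (add_le_add (add_le_add b1 b2) (b3.trans b4)).trans_eq
    (show _ = ε * K * N / Real.log N by linarith)
  rw [← sum_add_distrib, ← sum_add_distrib] at b6
  refine le_trans (sum_le_sum fun k _ => ?_) b6
  rw [gap_split X1 X2 (N ^ (1 - eg)) φ ψ]
  exact abs_add_three _ _ _

end Pool.Agent.P.MP_8be758_nt.Avg
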