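import Pool.Agent.P.MP_8be758_nt.Avg.Basic
import Pool.Agent.P.MP_74dd9d_nt.Mertens

/-! Mertens type bounds for rough numbers. -/

namespace Pool.Agent.P.MP_8be758_nt.Avg

open Finset Real Filter Topology
open Pool.Agent.P.MP_e86632_nt (ee)
open Pool.Agent.P.MP_74dd9d_nt (Pr SS SS_lower SS_upper mem_Pr sum_inv_sq_Icc)

theorem gt_low {z : ℝ} (hz : 0 < z) : Real.log z / 2 ≤ Real.exp (∑ p ∈ PL z, 1 / (p : ℝ)) := by
  have := SS_lower (Real.log z)
  rwa [SS, Pr, Real.exp_log hz] at this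

theorem gt_log {T : ℝ} (hT : 2 ≤ T) : 2 / 3 ≤ Real.log T := by
  have h1 := Real.log_le_log (by norm_num) hT
  have h2 := Real.log_two_gt_d9
  linarith

theorem gt_up {T : ℝ} (hT : 2 ≤ T) :
    Real.exp (∑ p ∈ PL T, 1 / (p : ℝ)) ≤ 450 * Real.log T := by
  have h1 := SS_upper (t := max 1 (Real.log T)) (le_max_left _ _)
  have h2 : ∑ p ∈ PL T, 1 / (p : ℝ) ≤ SS (max 1 (Real.log T)) := by
    refine sum_le_sum_of_subset_of_nonneg (fun p hp => ?_) fun _ _ _ => by positivity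
    rw [mem_PL (by linarith)] at hp
    refine mem_Pr.2 ⟨hp.1.trans ?_, hp.2⟩
    calc T = Real.exp (Real.log T) := (Real.exp_log (by linarith)).symm
      _ ≤ _ := Real.exp_le_exp.2 (le_max_right _ _)
  have h3 := gt_log hT
  have h4 : max 1 (Real.log T) ≤ 3 / 2 * Real.log T := max_le (by linarith) (by linarith)
  have h5 := Real.exp_le_exp.2 h2
  linarith

theorem gt_cover (S P Q : Finset ℕ) (N : ℕ)
    (h : ∀ n ∈ S, ∃ b ∈ Icc 1 N, ∃ E ⊆ P, ∃ q ∈ Q, b ^ 2 * (∏ p ∈ E, p) * q = n) :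
    ∑ n ∈ S, 1 / (n : ℝ) ≤ 2 * Real.exp (∑ p ∈ P, 1 / (p : ℝ)) * ∑ q ∈ Q, 1 / (q : ℝ) := by
  set f : (ℕ × Finset ℕ) × ℕ → ℕ := fun z => z.1.1 ^ 2 * (∏ p ∈ z.1.2, p) * z.2 with hf
  have h3 : S ⊆ image f ((Icc 1 N ×ˢ P.powerset) ×ˢ Q) := by
    intro n hn
    obtain ⟨b, hb, E, hE, q, hq, e⟩ := h n hn
    exact mem_image.2 ⟨((b, E), q), mem_product.2 ⟨mem_product.2 ⟨hb, mem_powerset.2 hE⟩, hq⟩, e⟩
  have h4 : ∑ n ∈ S, 1 / (n : ℝ) ≤
      ∑ z ∈ (Icc 1 N ×ˢ P.powerset) ×ˢ Q, 1 / ((f z : ℕ) : ℝ) :=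
    (sum_le_sum_of_subset_of_nonneg h3 fun _ _ _ => by positivity).trans
      (sum_image_le_of_nonneg fun _ _ => by positivity)
  have h5 : ∑ z ∈ (Icc 1 N ×ˢ P.powerset) ×ˢ Q, 1 / ((f z : ℕ) : ℝ) =
      (∑ k ∈ Icc 1 N, ((k : ℝ) ^ 2)⁻¹) * (∏ q ∈ P, (1 + 1 / (q : ℝ))) *
        ∑ q ∈ Q, 1 / (q : ℝ) := by
    rw [prod_one_add, sum_mul_sum (Icc 1 N), ← sum_product', sum_mul_sum, sum_product]
    refine sum_congr rfl fun d _ => sum_congr rfl fun k _ => ?_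
    simp only [hf]
    push_cast
    simp only [one_div, prod_inv_distrib, mul_inv]
  have h6 : ∏ q ∈ P, (1 + 1 / (q : ℝ)) ≤ Real.exp (∑ p ∈ P, 1 / (p : ℝ)) := by
    rw [Real.exp_sum]
    refine prod_le_prod (fun q _ => by positivity) fun q _ => ?_
    rw [add_comm]; exact Real.add_one_le_exp _
  rw [h5] at h4
  refine h4.trans (mul_le_mul_of_nonneg_right ?_ (sum_nonneg fun _ _ => by positivity))
  exact mul_le_mul (sum_inv_sq_Icc N) h6 (prod_nonneg fun _ _ => by positivity) (by norm_num)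

theorem t_GT : S_GT := by
  refine ⟨1 / 900, by norm_num, fun T Y hT hY => ?_⟩
  have hl := gt_log hT
  have h1 : Real.log Y ≤ Real.log ((⌊Y⌋₊ + 1 : ℕ) : ℝ) := by
    refine Real.log_le_log (by linarith) ?_
    push_cast
    exact (Nat.lt_floor_add_one _).le
  have h2 := log_add_one_le_harmonic ⌊Y⌋₊
  rw [harmonic_eq_sum_Icc] at h2
  have h3 := gt_cover (Icc 1 ⌊Y⌋₊) (PL T)
    ((Icc 1 ⌊Y⌋₊).filter fun q => Squarefree q ∧ Rough T q) ⌊Y⌋₊ fun n hn => by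
      obtain ⟨n1, n2⟩ := mem_Icc.1 hn
      obtain ⟨a, b, ha, hb, hab, hs⟩ := Nat.sq_mul_squarefree_of_pos n1
      have e := prod_filter_mul_prod_filter_not a.primeFactors (fun p => p ∈ PL T) fun p => p
      rw [Nat.prod_primeFactors_of_squarefree hs] at e
      have hd : ∏ p ∈ a.primeFactors with p ∉ PL T, p ∣ a := Dvd.intro_left _ e
      have han : a ≤ n := by rw [← hab]; exact Nat.le_mul_of_pos_left _ (by positivity)
      refine ⟨b, mem_Icc.2 ⟨hb, by nlinarith⟩, a.primeFactors.filter (· ∈ PL T),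
        fun p hp => (mem_filter.1 hp).2, ∏ p ∈ a.primeFactors with p ∉ PL T, p,
        mem_filter.2 ⟨mem_Icc.2 ⟨Nat.pos_of_dvd_of_pos hd ha,
          (Nat.le_of_dvd ha hd).trans (han.trans n2)⟩, hs.squarefree_of_dvd hd, ?_⟩,
        by rw [mul_assoc, e, hab]⟩
      refine rough_iff.2 fun p hp hpd => ?_
      have hpp := prime_of_mem_PL hp
      obtain ⟨q, hq, hpq⟩ := (Prime.dvd_finsetProd_iff hpp.prime _).1 hpd
      rw [mem_filter] at hq
      rw [(Nat.prime_dvd_prime_iff_eq hpp (Nat.prime_of_mem_primeFactors hq.1)).1 hpq] at hp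
      exact hq.2 hp
  have h4 := gt_up hT
  have h5 : 0 ≤ ∑ q ∈ (Icc 1 ⌊Y⌋₊).filter (fun q => Squarefree q ∧ Rough T q), 1 / (q : ℝ) :=
    sum_nonneg fun _ _ => by positivity
  generalize ∑ q ∈ (Icc 1 ⌊Y⌋₊).filter (fun q => Squarefree q ∧ Rough T q), 1 / (q : ℝ) = G
    at h3 h5
  push_cast at h1 h2
  simp only [one_div] at h3 h4
  rw [div_le_iff₀ (by linarith)]
  nlinarith [mul_le_mul_of_nonneg_right h4 h5]

theorem t_HR : S_HR := by
  refine ⟨1800, by norm_num, fun z Y hz hY => ?_⟩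
  have hl := gt_log hz
  have hp1 : ∀ p ∈ PL z, 0 ≤ 1 - 1 / (p : ℝ) := fun p hp => by
    have : (1 : ℝ) ≤ p := by exact_mod_cast (prime_of_mem_PL hp).pos
    exact sub_nonneg.2 ((div_le_one (by linarith)).2 this)
  have h1 := gt_low (z := z) (by linarith)
  have hE := Real.exp_pos (∑ p ∈ PL z, 1 / (p : ℝ))
  refine ⟨prod_nonneg hp1, ?_, ?_⟩
  · have h2 : Vz z ≤ Real.exp (-∑ p ∈ PL z, 1 / (p : ℝ)) := by
      rw [← sum_neg_distrib, Real.exp_sum]
      refine prod_le_prod hp1 fun p _ => ?_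
      have := Real.add_one_le_exp (-(1 / (p : ℝ)))
      linarith
    refine h2.trans ?_
    rw [Real.exp_neg, inv_eq_one_div, div_le_div_iff₀ hE (by linarith)]
    linarith
  · have hsub : PL z ⊆ PL Y := fun p hp => by
      rw [mem_PL (by linarith)] at hp ⊢
      exact ⟨hp.1.trans hY, hp.2⟩
    have h3 := gt_cover ((Icc 1 ⌊Y⌋₊).filter (Rough z)) (PL Y \ PL z) {1} ⌊Y⌋₊ fun n hn => by
      obtain ⟨hn, hr⟩ := mem_filter.1 hn
      obtain ⟨n1, n2⟩ := mem_Icc.1 hn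
      obtain ⟨a, b, ha, hb, hab, hs⟩ := Nat.sq_mul_squarefree_of_pos n1
      have han : a ≤ n := by rw [← hab]; exact Nat.le_mul_of_pos_left _ (by positivity)
      refine ⟨b, mem_Icc.2 ⟨hb, by nlinarith⟩, a.primeFactors, fun p hp => mem_sdiff.2 ⟨?_, ?_⟩,
        1, mem_singleton_self 1, by rw [mul_one, Nat.prod_primeFactors_of_squarefree hs, hab]⟩
      · exact Nat.mem_primesLE.2 ⟨(Nat.le_of_mem_primeFactors hp).trans (han.trans n2),
          Nat.prime_of_mem_primeFactors hp⟩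
      · exact fun h => rough_iff.1 hr p h
          ((Nat.dvd_of_mem_primeFactors hp).trans (Dvd.intro_left _ hab))
    rw [sum_sdiff_eq_sub hsub, Real.exp_sub, sum_singleton, Nat.cast_one, div_one, mul_one] at h3
    refine h3.trans ?_
    have h4 := gt_up (hz.trans hY)
    have h5 := gt_log (hz.trans hY)
    rw [← mul_div_assoc, div_le_div_iff₀ hE (by linarith)]
    nlinarith [mul_le_mul h4 h1 (by linarith) (by linarith)]

end Pool.Agent.P.MP_8be758_nt.Avg
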