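import Pool.Agent.P.MP_8be758_nt.Avg.Basic

/-! The type I estimate. -/

namespace Pool.Agent.P.MP_8be758_nt.Avg

open Finset Real Filter Topology
open Pool.Agent.P.MP_e86632_nt (ee)

theorem i_prod (f : ℕ → ℝ) (h1 : f 1 = 1)
    (hm : ∀ a b : ℕ, a.Coprime b → f (a * b) = f a * f b) (E : Finset ℕ)
    (hE : ∀ p ∈ E, p.Prime) : f (∏ p ∈ E, p) = ∏ p ∈ E, f p := by
  classical
  induction E using Finset.induction_on with
  | empty => simpa using h1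
  | insert a s ha ih =>
    rw [prod_insert ha, prod_insert ha, hm, ih fun p hp => hE p (mem_insert_of_mem hp)]
    refine Nat.Coprime.prod_right fun p hp => ?_
    refine (Nat.coprime_primes (hE a (mem_insert_self _ _)) (hE p (mem_insert_of_mem hp))).2 ?_
    rintro rfl
    exact ha hp

theorem i_mult (f : ℕ → ℝ) (h1 : f 1 = 1)
    (hm : ∀ a b : ℕ, a.Coprime b → f (a * b) = f a * f b) {z : ℝ} {d : ℕ} (hd : Rough z d)
    (E : Finset ℕ) (hE : E ⊆ PL z) : f (d * ∏ p ∈ E, p) = f d * ∏ p ∈ E, f p := by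
  rw [hm, i_prod f h1 hm E fun p hp => prime_of_mem_PL (hE hp)]
  refine Nat.Coprime.prod_right fun p hp => ?_
  exact ((Nat.Prime.coprime_iff_not_dvd (prime_of_mem_PL (hE hp))).2
    (rough_iff.1 hd p (hE hp))).symm

theorem i_mem_Dy {N z : ℝ} {d : ℕ} (hN : 0 ≤ N) (h : d ∈ Dy N z) :
    1 ≤ d ∧ (d : ℝ) ≤ N ^ (2 / 3 : ℝ) ∧ Rough z d := by
  rw [Dy, mem_filter, mem_Icc, Nat.le_floor_iff (by positivity)] at h
  exact ⟨h.1.1, h.1.2, h.2⟩

/-- replacing the root counts by one in the coefficient sum -/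
theorem i_coef (hROOT : S_ROOT) (hNSQ : S_NSQ) (N z G : ℝ) (K : ℕ) (c : ℕ → ℝ) (hN : 1 ≤ N)
    (hz : 2 ≤ z) (hc : ∀ d, |c d| ≤ 1) (hyK : N ^ (2 / 3 : ℝ) ≤ K)
    (hG : ∑ k ∈ Icc 1 K, |∑ b ∈ (Dy N z).filter Squarefree, c b / b * ((rho k b : ℝ) - 1)| ≤ G) :
    ∑ k ∈ Icc 1 K, |∑ d ∈ Dy N z, c d * (rho k d : ℝ) / d - ∑ d ∈ Dy N z, c d / d| ≤
      G + 3 * K * (2 * (1 + Real.log (N ^ (2 / 3 : ℝ))) / z) := by
  have hy : 1 ≤ N ^ (2 / 3 : ℝ) := Real.one_le_rpow hN (by norm_num)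
  set S := (Dy N z).filter (fun b => ¬ Squarefree b) with hS
  have h1 := (hNSQ z _ S hz hy fun b hb => by
    have h := mem_filter.1 hb
    exact ⟨(i_mem_Dy (by linarith) h.1).2.1, (i_mem_Dy (by linarith) h.1).2.2, h.2⟩).2
  have h2 : ∀ k : ℕ, |∑ d ∈ Dy N z, c d * (rho k d : ℝ) / d - ∑ d ∈ Dy N z, c d / d| ≤
      |∑ b ∈ (Dy N z).filter Squarefree, c b / b * ((rho k b : ℝ) - 1)| +
        ∑ b ∈ S, 1 / (b : ℝ) * ((rho k b : ℝ) + 1) := by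
    intro k
    have e : ∑ d ∈ Dy N z, c d * (rho k d : ℝ) / d - ∑ d ∈ Dy N z, c d / d =
        ∑ b ∈ (Dy N z).filter Squarefree, c b / b * ((rho k b : ℝ) - 1) +
          ∑ b ∈ S, c b / b * ((rho k b : ℝ) - 1) := by
      rw [hS, sum_filter_add_sum_filter_not, ← sum_sub_distrib]
      exact sum_congr rfl fun d _ => by ring
    rw [e]
    refine (abs_add_le _ _).trans (add_le_add le_rfl ((abs_sum_le_sum_abs _ _).trans ?_))
    refine sum_le_sum fun b _ => ?_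
    rw [abs_mul, abs_div, Nat.abs_cast]
    have h3 : (0 : ℝ) ≤ rho k b := Nat.cast_nonneg _
    refine mul_le_mul (div_le_div_of_nonneg_right (hc b) (Nat.cast_nonneg _)) ?_ (abs_nonneg _)
      (by positivity)
    rw [abs_le]; constructor <;> linarith
  refine (sum_le_sum fun k _ => h2 k).trans ?_
  rw [sum_add_distrib]
  refine add_le_add hG ?_
  rw [sum_comm]
  have h4 : ∀ b ∈ S, ∑ k ∈ Icc 1 K, 1 / (b : ℝ) * ((rho k b : ℝ) + 1) ≤ 3 * K * (1 / (b : ℝ)) := by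
    intro b hb
    have h5 := i_mem_Dy (by linarith) (mem_filter.1 hb).1
    have h6 := (abs_le.1 (hROOT.2.2.2.2.1 b K h5.1)).2
    rw [← mul_sum, sum_add_distrib, sum_const, Nat.card_Icc, Nat.add_sub_cancel, nsmul_eq_mul,
      mul_one, mul_comm]
    exact mul_le_mul_of_nonneg_right (by linarith [h5.2.1]) (by positivity)
  refine (sum_le_sum h4).trans ?_
  rw [← mul_sum]
  exact mul_le_mul_of_nonneg_left h1 (by positivity)

theorem i_core (hTI : S_TI) (hROOT : S_ROOT) (hNSQ : S_NSQ) (hSGW : S_SGW) (N z L δ E1 E2 G : ℝ)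
    (K X1 X2 R : ℕ) (c : ℕ → ℝ) (lam Del : Finset ℕ → ℝ) (hN : 1 ≤ N) (hz : 2 ≤ z) (hR : 2 ≤ R)
    (hRz : (R : ℝ) ≤ z) (hX : X1 ≤ X2) (hc : ∀ d, |c d| ≤ 1) (hyK : N ^ (2 / 3 : ℝ) ≤ K)
    (hF : FLData z L δ lam Del) (hE1 : 0 ≤ E1) (hE2 : 0 ≤ E2)
    (k1 : ∀ q : ℕ, 1 ≤ q → ∑ k ∈ Icc 1 K, |∑ m ∈ (Ioc X1 X2).filter (q ∣ ·), rr k m -
      (√(X2 : ℝ) - √(X1 : ℝ)) * rho k q / q| ≤ E1 * (K + q))
    (k2 : ∀ q : ℕ, 1 ≤ q → ∀ k : ℕ, |∑ m ∈ (Ioc X1 X2).filter (q ∣ ·), md R.factorial k m -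
      (√(X2 : ℝ) - √(X1 : ℝ)) * rho k (Nat.gcd q R.factorial) / q| ≤ E2)
    (hG : ∑ k ∈ Icc 1 K, |∑ b ∈ (Dy N z).filter Squarefree, c b / b * ((rho k b : ℝ) - 1)| ≤ G) :
    ∑ k ∈ Icc 1 K, |tyI N z X1 X2 c (dd R.factorial k) -
      (√(X2 : ℝ) - √(X1 : ℝ)) * (∑ d ∈ Dy N z, c d / d) * Vz z * sing R k * (TT k R z - 1)| ≤
    ((E1 + E2) * (K + N ^ (2 / 3 : ℝ)) + 2 * (√(X2 : ℝ) - √(X1 : ℝ))) * L * N ^ (2 / 3 : ℝ) +
      2 * ((√(X2 : ℝ) - √(X1 : ℝ)) * K * δ * ∑ d ∈ Dy N z, 1 / (d : ℝ)) +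
      (√(X2 : ℝ) - √(X1 : ℝ)) * (G + 3 * K * (2 * (1 + Real.log (N ^ (2 / 3 : ℝ))) / z)) := by
  set l := √(X2 : ℝ) - √(X1 : ℝ) with hl
  set W := R.factorial with hW
  have hW0 : 0 < W := Nat.factorial_pos R
  have hl0 : 0 ≤ l := sub_nonneg.2 (Real.sqrt_le_sqrt (by exact_mod_cast hX))
  have hy : 0 ≤ N ^ (2 / 3 : ℝ) := by positivity
  have hD : ∀ d ∈ Dy N z, 1 ≤ d ∧ (d : ℝ) ≤ N ^ (2 / 3 : ℝ) ∧ Rough z d ∧ |c d| ≤ 1 := fun d hd =>
    have h := i_mem_Dy (by linarith) hd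
    ⟨h.1, h.2.1, h.2.2, hc d⟩
  have m1 : ∀ k a b : ℕ, a.Coprime b → (rho k (a * b) : ℝ) = rho k a * rho k b := fun k a b h => by
    rw [hROOT.1 k a b h]; push_cast; rfl
  have m2 : ∀ k a b : ℕ, a.Coprime b →
      (rho k (Nat.gcd (a * b) W) : ℝ) = rho k (Nat.gcd a W) * rho k (Nat.gcd b W) :=
    fun k a b h => by
      rw [Nat.gcd_comm, Nat.Coprime.gcd_mul W h, Nat.gcd_comm W a, Nat.gcd_comm W b]
      exact m1 k _ _ ((h.coprime_dvd_left (Nat.gcd_dvd_left _ _)).coprime_dvd_right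
        (Nat.gcd_dvd_left _ _))
  have T1 := hTI z _ L δ E1 l K (Ioc X1 X2) (Dy N z) rr (fun k q => (rho k q : ℝ)) c lam Del hF hy
    hl0 hE1 rr_nonneg hD k1 (fun q hq => hROOT.2.2.2.2.1 q K hq) (fun _ _ => Nat.cast_nonneg _)
    (fun k p _ => by exact_mod_cast rho_le k p)
    (fun k d hd E hE => i_mult (fun q => (rho k q : ℝ)) (by simp [rho_one]) (m1 k)
      (hD d hd).2.2.1 E hE)
  have T2 := hTI z _ L δ E2 l K (Ioc X1 X2) (Dy N z) (md W)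
    (fun k q => (rho k (Nat.gcd q W) : ℝ)) c lam Del hF hy hl0 hE2 (md_nonneg W) hD
    (fun q hq => by
      refine (sum_le_sum fun k _ => k2 q hq k).trans ?_
      rw [sum_const, Nat.card_Icc, Nat.add_sub_cancel, nsmul_eq_mul]
      have : (0 : ℝ) ≤ q := Nat.cast_nonneg _
      nlinarith)
    (fun q hq => (hROOT.2.2.2.2.1 _ K (Nat.gcd_pos_of_pos_left W hq)).trans
      (by exact_mod_cast Nat.gcd_le_left W hq))
    (fun _ _ => Nat.cast_nonneg _)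
    (fun k p hp => by exact_mod_cast (rho_le k _).trans (Nat.gcd_le_left W hp.pos))
    (fun k d hd E hE => i_mult (fun q => (rho k (Nat.gcd q W) : ℝ)) (by simp [rho_one]) (m2 k)
      (hD d hd).2.2.1 E hE)
  have T3 := i_coef hROOT hNSQ N z G K c hN hz hc hyK hG
  have T4 := mul_le_mul_of_nonneg_left T3 hl0
  rw [mul_sum] at T4
  refine le_trans ?_ ((add_le_add (add_le_add T1 T2) T4).trans (le_of_eq (by ring)))
  rw [← sum_add_distrib, ← sum_add_distrib]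
  refine sum_le_sum fun k hk => ?_
  have hk1 : 1 ≤ k := (mem_Icc.1 hk).1
  obtain ⟨p1, p2⟩ := hSGW.2.2.1 k R z hk1 hR hRz
  have e2 : ∑ d ∈ Dy N z, c d * (rho k (Nat.gcd d W) : ℝ) / d = ∑ d ∈ Dy N z, c d / d :=
    sum_congr rfl fun d hd => by
      rw [((hD d hd).2.2.1.coprime_factorial hRz).gcd_eq_one, rho_one]; simp
  have e3 : tyI N z X1 X2 c (dd W k) =
      ∑ m ∈ (Ioc X1 X2).filter (Rough z), (∑ d ∈ (Dy N z).filter (· ∣ m), c d) * rr k m -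
      ∑ m ∈ (Ioc X1 X2).filter (Rough z), (∑ d ∈ (Dy N z).filter (· ∣ m), c d) * md W k m := by
    rw [tyI, ← sum_sub_distrib]
    exact sum_congr rfl fun m _ => by rw [dd]; ring
  have hP : ∀ p ∈ PL z, 0 ≤ 1 - (rho k p : ℝ) / p ∧ 1 - (rho k p : ℝ) / p ≤ 1 := fun p hp => by
    have h1 : (0 : ℝ) < p := by exact_mod_cast (prime_of_mem_PL hp).pos
    have h2 : (rho k p : ℝ) ≤ p := by exact_mod_cast rho_le k p
    have h3 : (rho k p : ℝ) / p ≤ 1 := (div_le_one h1).2 h2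
    have h4 : 0 ≤ (rho k p : ℝ) / p := by positivity
    constructor <;> linarith
  have hP0 : 0 ≤ ∏ p ∈ PL z, (1 - (rho k p : ℝ) / p) := prod_nonneg fun p hp => (hP p hp).1
  have hP1 : ∏ p ∈ PL z, (1 - (rho k p : ℝ) / p) ≤ 1 :=
    prod_le_one (fun p hp => (hP p hp).1) fun p hp => (hP p hp).2
  simp only [e2]
  rw [e3, p2]
  rw [p1] at hP0 hP1 ⊢
  generalize ∑ m ∈ (Ioc X1 X2).filter (Rough z),
    (∑ d ∈ (Dy N z).filter (· ∣ m), c d) * rr k m = a1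
  generalize ∑ m ∈ (Ioc X1 X2).filter (Rough z),
    (∑ d ∈ (Dy N z).filter (· ∣ m), c d) * md W k m = a2
  generalize ∑ d ∈ Dy N z, c d * (rho k d : ℝ) / d = B
  generalize ∑ d ∈ Dy N z, c d / d = A
  have e4 : a1 - a2 - l * A * Vz z * sing R k * (TT k R z - 1) =
      (a1 - l * B * (sing R k * Vz z * TT k R z)) + -(a2 - l * A * (sing R k * Vz z)) +
        l * (B - A) * (sing R k * Vz z * TT k R z) := by ring
  rw [e4]
  refine (abs_add_three _ _ _).trans (add_le_add (add_le_add le_rfl (abs_neg _).le) ?_)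
  rw [abs_mul, abs_mul, abs_of_nonneg hl0, abs_of_nonneg hP0]
  exact mul_le_of_le_one_right (by positivity) hP1

theorem i_s (C c1 ε : ℝ) (hε : 0 < ε) :
    ∃ s0 : ℕ, 1 ≤ s0 ∧ ∀ s : ℕ, s0 ≤ s → 2 * (C ^ 2 * (2 * c1 * s) ^ 2 / 2 ^ s) ≤ ε / 2 := by
  have h1 := (tendsto_pow_const_div_const_pow_of_one_lt 2 (r := 2) (by norm_num)).const_mul
    (8 * C ^ 2 * c1 ^ 2)
  rw [mul_zero] at h1
  obtain ⟨s0, hs⟩ := eventually_atTop.1 (h1.eventually (ge_mem_nhds (half_pos hε)))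
  refine ⟨s0 + 1, by omega, fun s h => le_trans (le_of_eq ?_) (hs s (by omega))⟩
  ring

theorem i_l {N : ℝ} {X1 X2 : ℕ} (hN : 0 ≤ N) (h1 : N ^ 2 ≤ X1) (h2 : (X2 : ℝ) ≤ 6 / 5 * N ^ 2) :
    √(X2 : ℝ) - √(X1 : ℝ) ≤ N := by
  have h3 : N ≤ √(X1 : ℝ) := Real.le_sqrt_of_sq_le h1
  have h4 : √(X2 : ℝ) ≤ 2 * N := Real.sqrt_le_iff.2 ⟨by linarith, by nlinarith⟩
  linarith

theorem t_I (hFL : S_FL) (hTI : S_TI) (hKER : S_KER) (hROOT : S_ROOT) (hRHO : S_RHO)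
    (hNSQ : S_NSQ) (hHR : S_HR) (hSGW : S_SGW) : S_I := by
  intro ε hε
  obtain ⟨C1, hFL⟩ := hFL
  obtain ⟨C, hC, hHR⟩ := hHR
  obtain ⟨C', hC', hKER⟩ := hKER
  set c1 : ℝ := 20 * (C1 + 1) with hc1
  have hc10 : 0 < c1 := by positivity
  obtain ⟨s0, hs01, hs0⟩ := i_s C c1 ε hε
  have hs0' : (1 : ℝ) ≤ s0 := by exact_mod_cast hs01
  refine ⟨1 / (c1 * s0), by positivity, fun e1 he1 he R hR => ?_⟩
  set s := ⌊1 / (c1 * e1)⌋₊ with hs
  have a1 : (s0 : ℝ) ≤ 1 / (c1 * e1) := by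
    rw [le_div_iff₀ (by positivity)] at he ⊢
    linarith
  have a2 : s0 ≤ s := Nat.le_floor a1
  have a3 : (s : ℝ) ≤ 1 / (c1 * e1) := Nat.floor_le (by positivity)
  have a4 : 1 / (c1 * e1) < s + 1 := Nat.lt_floor_add_one _
  have a5 : (1 : ℝ) ≤ s := by exact_mod_cast hs01.trans a2
  rw [le_div_iff₀ (by positivity)] at a3
  rw [div_lt_iff₀ (by positivity)] at a4
  have a6 : 1 / e1 ≤ 2 * c1 * s := by
    rw [div_le_iff₀ he1]
    have := mul_le_mul_of_nonneg_right a5 (by positivity : 0 ≤ c1 * e1)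
    linarith
  have hC10 : (0 : ℝ) ≤ C1 := Nat.cast_nonneg _
  have a7 : e1 * (C1 * s) ≤ 1 / 20 := by
    have : 0 ≤ s * e1 := by positivity
    rw [hc1] at a3
    linarith
  have a8 : e1 ≤ 1 / 20 := by
    have : 0 ≤ s * e1 * C1 := by positivity
    have := mul_le_mul_of_nonneg_right a5 he1.le
    rw [hc1] at a3
    linarith
  obtain ⟨c, hc, hRHO⟩ := hRHO (e1 / 2) (half_pos he1)
  set W : ℝ := (R.factorial : ℝ) with hW
  have hW0 : 0 ≤ W := Nat.cast_nonneg _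
  filter_upwards [ev_K hRHO (θ := 4 / 5) (by norm_num), eventually_ge_atTop 1, ev_log 1,
    ev_const (R : ℝ) he1,
    ev_pow (6 / ε * (4 * C' + 2 * (C' * W ^ 2) + 2)) 1 (a := 11 / 12) (b := 1) (by norm_num),
    ev_pow (6 / ε) 1 (a := 0) (b := 4 / 5 * c) (by positivity),
    ev_pow (72 / ε) 2 (a := 0) (b := e1) he1] with N b1 hN hL hRz b2 b3 b4 K X1 X2 cc hS hcc
  have hN0 : 0 < N := by linarith
  have hR' : (2 : ℝ) ≤ R := by exact_mod_cast hR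
  have hz : 2 ≤ N ^ e1 := hR'.trans hRz
  have hyK : N ^ (2 / 3 : ℝ) ≤ K :=
    (Real.rpow_le_rpow_of_exponent_le hN (by norm_num)).trans hS.lo
  have hzy : N ^ e1 ≤ N ^ (2 / 3 : ℝ) := Real.rpow_le_rpow_of_exponent_le hN (by linarith)
  have hK1 : (1 : ℝ) ≤ K := by linarith
  have hK0 : (0 : ℝ) < K := by linarith
  obtain ⟨lam, Del, hF⟩ := hFL s (hs01.trans a2) _ hz
  have hG := b1 K hS.lo ((Dy N (N ^ e1)).filter Squarefree) (fun b => cc b / b) fun b hb => by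
    have h := mem_filter.1 hb
    have h2 := i_mem_Dy hN0.le h.1
    refine ⟨h.2, h2.2.2.mono ?_, ?_, ?_⟩
    · calc (K : ℝ) ^ (e1 / 2) ≤ (N ^ (6 / 5 : ℝ)) ^ (e1 / 2) :=
            Real.rpow_le_rpow hK0.le hS.hi (by positivity)
        _ = N ^ (6 / 5 * (e1 / 2)) := (Real.rpow_mul hN0.le _ _).symm
        _ ≤ _ := Real.rpow_le_rpow_of_exponent_le hN (by linarith)
    · have : (b : ℝ) ≤ (K : ℝ) ^ 2 :=
        (h2.2.1.trans hyK).trans (le_self_pow₀ hK1 two_ne_zero)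
      exact_mod_cast this
    · rw [abs_div, Nat.abs_cast]
      exact div_le_div_of_nonneg_right (hcc b) (Nat.cast_nonneg _)
  refine (i_core hTI hROOT hNSQ hSGW N _ _ _ (C' * (1 + K / N)) (C' * W ^ 2) _ K X1 X2 R cc lam Del
    hN hz hR hRz hS.x12 hcc hyK hF (by positivity) (by positivity)
    (fun q hq => (hKER N K X1 X2 R.factorial q hN0 hS.x1 hS.x12 hq (Nat.factorial_pos R)).1)
    (fun q hq => (hKER N K X1 X2 R.factorial q hN0 hS.x1 hS.x12 hq (Nat.factorial_pos R)).2)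
    hG).trans ?_
  have hl0 : 0 ≤ √(X2 : ℝ) - √(X1 : ℝ) :=
    sub_nonneg.2 (Real.sqrt_le_sqrt (by exact_mod_cast hS.x12))
  have hl := i_l hN0.le hS.x1 hS.x2
  generalize √(X2 : ℝ) - √(X1 : ℝ) = l at hl0 hl
  obtain ⟨v0, v1, v2⟩ := hHR _ _ hz hzy
  rw [Real.log_rpow hN0] at v1
  rw [Real.log_rpow hN0, Real.log_rpow hN0] at v2
  rw [Real.log_rpow hN0]
  simp only [Real.rpow_zero, Real.rpow_one, pow_one, mul_one] at b2 b3 b4
  set LN := Real.log N with hLN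
  have hL0 : 0 < LN := by linarith
  set Q := K * N / LN with hQ
  have hQ0 : 0 ≤ Q := by positivity
  have u15 : 1 ≤ N ^ (1 / 5 : ℝ) := Real.one_le_rpow hN (by norm_num)
  -- first error
  have f1 : ((C' * (1 + K / N) + C' * W ^ 2) * (K + N ^ (2 / 3 : ℝ)) + 2 * l) *
      (N ^ e1) ^ (C1 * s) * N ^ (2 / 3 : ℝ) ≤ ε / 6 * Q := by
    have g1 : (N ^ e1) ^ (C1 * s) ≤ N ^ (1 / 20 : ℝ) := by
      rw [← Real.rpow_natCast, ← Real.rpow_mul hN0.le]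
      exact Real.rpow_le_rpow_of_exponent_le hN (by push_cast; exact a7)
    have g2 : K / N ≤ N ^ (1 / 5 : ℝ) := by
      rw [div_le_iff₀ hN0]
      refine hS.hi.trans (le_of_eq ?_)
      rw [← Real.rpow_add_one hN0.ne']; norm_num
    have g3 : N ≤ K * N ^ (1 / 5 : ℝ) := by
      calc N = N ^ (4 / 5 : ℝ) * N ^ (1 / 5 : ℝ) := by rw [← Real.rpow_add hN0]; norm_num
        _ ≤ _ := mul_le_mul_of_nonneg_right hS.lo (by positivity)
    have g4 : C' * (1 + K / N) + C' * W ^ 2 ≤ (2 * C' + C' * W ^ 2) * N ^ (1 / 5 : ℝ) := by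
      have h1 := mul_le_mul_of_nonneg_left u15 (by positivity : 0 ≤ C' * W ^ 2)
      have h2 := mul_le_mul_of_nonneg_left (add_le_add u15 g2) hC'.le
      linarith
    have g5 : (C' * (1 + K / N) + C' * W ^ 2) * (K + N ^ (2 / 3 : ℝ)) ≤
        (2 * C' + C' * W ^ 2) * N ^ (1 / 5 : ℝ) * (2 * K) :=
      mul_le_mul g4 (by linarith) (by positivity) (by positivity)
    have g6 : (C' * (1 + K / N) + C' * W ^ 2) * (K + N ^ (2 / 3 : ℝ)) + 2 * l ≤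
        (4 * C' + 2 * (C' * W ^ 2) + 2) * (K * N ^ (1 / 5 : ℝ)) := by linarith
    have g7 : N ^ (1 / 5 : ℝ) * N ^ (1 / 20 : ℝ) * N ^ (2 / 3 : ℝ) = N ^ (11 / 12 : ℝ) := by
      rw [← Real.rpow_add hN0, ← Real.rpow_add hN0]; norm_num
    calc _ ≤ (4 * C' + 2 * (C' * W ^ 2) + 2) * (K * N ^ (1 / 5 : ℝ)) * N ^ (1 / 20 : ℝ) *
          N ^ (2 / 3 : ℝ) := by gcongr
      _ = ε / 6 * (K * (6 / ε * (4 * C' + 2 * (C' * W ^ 2) + 2) * N ^ (11 / 12 : ℝ) * LN) / LN) := by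
          rw [← g7]; field_simp
      _ ≤ _ := by rw [hQ]; gcongr
  -- sieve loss
  have f2 : 2 * (l * K * (Vz (N ^ e1) / 2 ^ s) * ∑ d ∈ Dy N (N ^ e1), 1 / (d : ℝ)) ≤ ε / 2 * Q := by
    have g1 : ∑ d ∈ Dy N (N ^ e1), 1 / (d : ℝ) ≤ C * (2 * c1 * s) := by
      refine v2.trans ?_
      have : C * (2 / 3 * LN) / (e1 * LN) = C * (2 / 3 * (1 / e1)) := by field_simp
      rw [this]
      have h2 : 0 < 1 / e1 := by positivity
      exact mul_le_mul_of_nonneg_left (by linarith) hC.le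
    have g2 : Vz (N ^ e1) ≤ C * (2 * c1 * s) / LN := by
      refine v1.trans ?_
      have : C / (e1 * LN) = C * (1 / e1) / LN := by field_simp
      rw [this]; gcongr
    have g3 : 0 ≤ ∑ d ∈ Dy N (N ^ e1), 1 / (d : ℝ) := sum_nonneg fun _ _ => by positivity
    calc _ ≤ 2 * (N * K * (C * (2 * c1 * s) / LN / 2 ^ s) * (C * (2 * c1 * s))) := by gcongr
      _ = 2 * (C ^ 2 * (2 * c1 * s) ^ 2 / 2 ^ s) * Q := by rw [hQ]; field_simp
      _ ≤ _ := mul_le_mul_of_nonneg_right (hs0 s a2) hQ0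
  have f3 : l * (K : ℝ) ^ (1 - c) ≤ ε / 6 * Q := by
    have g1 : N ^ (4 / 5 * c) ≤ (K : ℝ) ^ c := by
      rw [Real.rpow_mul hN0.le]
      exact Real.rpow_le_rpow (by positivity) hS.lo hc.le
    have g2 : 0 < 6 / ε * LN := by positivity
    rw [Real.rpow_sub hK0, Real.rpow_one]
    calc l * (K / (K : ℝ) ^ c) ≤ N * (K / (6 / ε * LN)) := by
          gcongr
          exact b3.trans g1
      _ = _ := by rw [hQ]; field_simp
  have f4 : l * (3 * K * (2 * (1 + 2 / 3 * LN) / N ^ e1)) ≤ ε / 6 * Q := by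
    have g2 : 0 < 72 / ε * LN ^ 2 := by positivity
    calc l * (3 * K * (2 * (1 + 2 / 3 * LN) / N ^ e1))
        ≤ N * (3 * K * (2 * (2 * LN) / (72 / ε * LN ^ 2))) := by
          gcongr
          linarith
      _ = _ := by rw [hQ]; field_simp; norm_num
  have e : ε * K * N / LN = ε * Q := by rw [hQ]; ring
  rw [e, mul_add l]
  linarith

end Pool.Agent.P.MP_8be758_nt.Avg
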