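import Pool.Agent.P.MP_8be758_nt.Avg.Basic

/-! Large denominators in the zero frequency term. -/

namespace Pool.Agent.P.MP_8be758_nt.Avg

open Finset Real Filter Topology
open Pool.Agent.P.MP_e86632_nt (ee)
open MeasureTheory

theorem lq_gs_eq (W x : ℝ) : gs (W * x) = Real.exp (-(π * W ^ 2) * x ^ 2) := by
  unfold gs; congr 1; ring

theorem lq_integrable {W : ℝ} (hW : 0 < W) : Integrable fun x : ℝ => gs (W * x) := by
  simp only [lq_gs_eq]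
  exact integrable_exp_neg_mul_sq (by positivity)

theorem lq_integral {W : ℝ} (hW : 0 < W) : ∫ x : ℝ, gs (W * x) = 1 / W := by
  simp only [lq_gs_eq]
  rw [integral_gaussian]
  have : π / (π * W ^ 2) = (1 / W) ^ 2 := by field_simp
  rw [this, Real.sqrt_sq (by positivity)]

theorem lq_cont_ee : Continuous ee := by
  unfold ee; fun_prop

theorem lq_fourier {W : ℝ} (hW : 0 < W) (s : ℝ) :
    ∫ x : ℝ, ((W * gs (W * x) : ℝ) : ℂ) * ee (x * s) = ((gs (s / W) : ℝ) : ℂ) := by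
  have hb : 0 < (((π * W ^ 2 : ℝ)) : ℂ).re := by rw [Complex.ofReal_re]; positivity
  have h := fourierIntegral_gaussian hb ((2 * π * s : ℝ) : ℂ)
  have h1 : ∀ x : ℝ, ((W * gs (W * x) : ℝ) : ℂ) * ee (x * s) = (W : ℂ) *
      (Complex.exp (Complex.I * ((2 * π * s : ℝ) : ℂ) * x) *
        Complex.exp (-((π * W ^ 2 : ℝ) : ℂ) * x ^ 2)) := by
    intro x
    rw [lq_gs_eq, Complex.ofReal_mul, Complex.ofReal_exp]
    unfold ee
    have e1 : Complex.I * ((2 * π * (x * s) : ℝ) : ℂ) = Complex.I * ((2 * π * s : ℝ) : ℂ) * x := by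
      push_cast; ring
    have e2 : ((-(π * W ^ 2) * x ^ 2 : ℝ) : ℂ) = -((π * W ^ 2 : ℝ) : ℂ) * x ^ 2 := by
      push_cast; ring
    rw [e1, e2]; ring
  simp_rw [h1]
  rw [integral_const_mul, h]
  have h2 : (π : ℂ) / ((π * W ^ 2 : ℝ) : ℂ) = (((1 / W) ^ 2 : ℝ) : ℂ) := by
    rw [← Complex.ofReal_div]; congr 1; field_simp
  have h3 : (((1 / W) ^ 2 : ℝ) : ℂ) ^ (1 / 2 : ℂ) = ((1 / W : ℝ) : ℂ) := by
    have : (1 / 2 : ℂ) = ((1 / 2 : ℝ) : ℂ) := by push_cast; ring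
    rw [this, ← Complex.ofReal_cpow (by positivity), ← Real.sqrt_eq_rpow,
      Real.sqrt_sq (by positivity)]
  have h4 : -((2 * π * s : ℝ) : ℂ) ^ 2 / (4 * ((π * W ^ 2 : ℝ) : ℂ)) =
      ((-(π * (s / W) ^ 2) : ℝ) : ℂ) := by
    have : -(2 * π * s) ^ 2 / (4 * (π * W ^ 2)) = -(π * (s / W) ^ 2) := by field_simp; ring
    rw [← this]; push_cast; ring
  rw [h2, h3, h4, ← Complex.ofReal_exp, ← mul_assoc, ← Complex.ofReal_mul,
    mul_one_div_cancel hW.ne']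
  simp [gs]

/-- twisted coefficients -/
noncomputable def lq_co (γ : ℕ → ℝ) (x : ℝ) (a : ℕ) : ℂ := (γ a : ℂ) * ee (x * √(a : ℝ))

theorem lq_nsq (I : Finset ℕ) (γ : ℕ → ℝ) (x : ℝ) : nsq I (lq_co γ x) = ∑ a ∈ I, γ a ^ 2 := by
  unfold nsq lq_co
  refine sum_congr rfl fun a _ => ?_
  rw [norm_mul, Pool.Agent.P.MP_e86632_nt.norm_ee, mul_one, Complex.norm_real, Real.norm_eq_abs,
    sq_abs]

theorem lq_cont (I : Finset ℕ) (γ : ℕ → ℝ) (t : ℝ) :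
    Continuous fun x : ℝ => ft I (lq_co γ x) t := by
  unfold ft lq_co
  refine continuous_finsetSum _ fun a _ => ?_
  exact (continuous_const.mul (lq_cont_ee.comp (by fun_prop))).mul continuous_const

theorem lq_bdd (I : Finset ℕ) (γ : ℕ → ℝ) (t x : ℝ) :
    ‖ft I (lq_co γ x) t‖ ≤ ∑ a ∈ I, |γ a| := by
  unfold ft lq_co
  refine (norm_sum_le _ _).trans (sum_le_sum fun a _ => ?_)
  simp

theorem lq_sq (I : Finset ℕ) (γ : ℕ → ℝ) (t x : ℝ) :
    ((‖ft I (lq_co γ x) t‖ ^ 2 : ℝ) : ℂ) = ∑ a1 ∈ I, ∑ a2 ∈ I,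
      ((γ a1 * γ a2 : ℝ) : ℂ) * ee (t * ((a2 : ℝ) - a1)) * ee (x * sg a1 a2) := by
  rw [← Complex.normSq_eq_norm_sq, Complex.normSq_eq_conj_mul_self]
  unfold ft lq_co
  rw [map_sum, sum_mul_sum]
  refine sum_congr rfl fun a1 _ => sum_congr rfl fun a2 _ => ?_
  simp only [map_mul, Complex.conj_ofReal, ← Pool.Agent.P.MP_e86632_nt.ee_neg]
  have e1 : ee (t * ((a2 : ℝ) - a1)) = ee (-(a1 * t)) * ee (a2 * t) := by
    rw [← Pool.Agent.P.MP_e86632_nt.ee_add]; congr 1; ring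
  have e2 : ee (x * sg a1 a2) = ee (-(x * √(a1 : ℝ))) * ee (x * √(a2 : ℝ)) := by
    rw [← Pool.Agent.P.MP_e86632_nt.ee_add]; congr 1; unfold sg; ring
  rw [e1, e2]; push_cast; ring

theorem lq_intC {W : ℝ} (hW : 0 < W) (s : ℝ) :
    Integrable fun x : ℝ => ((W * gs (W * x) : ℝ) : ℂ) * ee (x * s) := by
  refine Integrable.mul_bdd (c := 1) (((lq_integrable hW).const_mul W).ofReal) ?_ ?_
  · exact (lq_cont_ee.comp (by fun_prop)).aestronglyMeasurable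
  · exact Eventually.of_forall fun x => (Pool.Agent.P.MP_e86632_nt.norm_ee _).le

theorem lq_intR {W : ℝ} (hW : 0 < W) (I : Finset ℕ) (γ : ℕ → ℝ) (t : ℝ) :
    Integrable fun x : ℝ => gs (W * x) * ‖ft I (lq_co γ x) t‖ ^ 2 := by
  refine Integrable.mul_bdd (c := (∑ a ∈ I, |γ a|) ^ 2) (lq_integrable hW) ?_ ?_
  · exact ((lq_cont I γ t).norm.pow 2).aestronglyMeasurable
  · refine Eventually.of_forall fun x => ?_
    rw [Real.norm_of_nonneg (by positivity)]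
    exact pow_le_pow_left₀ (norm_nonneg _) (lq_bdd I γ t x) 2

theorem lq_inner {W : ℝ} (hW : 0 < W) (I : Finset ℕ) (γ : ℕ → ℝ) (t : ℝ) :
    ‖∑ a1 ∈ I, ∑ a2 ∈ I, ((γ a1 * γ a2 * gs (sg a1 a2 / W) : ℝ) : ℂ) *
        ee (t * ((a2 : ℝ) - a1))‖ =
      W * ∫ x : ℝ, gs (W * x) * ‖ft I (lq_co γ x) t‖ ^ 2 := by
  have h1 : ∑ a1 ∈ I, ∑ a2 ∈ I, ((γ a1 * γ a2 * gs (sg a1 a2 / W) : ℝ) : ℂ) *
        ee (t * ((a2 : ℝ) - a1)) =
      ((W * ∫ x : ℝ, gs (W * x) * ‖ft I (lq_co γ x) t‖ ^ 2 : ℝ) : ℂ) := by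
    rw [← integral_const_mul, ← integral_complex_ofReal]
    have h2 : ∀ x : ℝ, ((W * (gs (W * x) * ‖ft I (lq_co γ x) t‖ ^ 2) : ℝ) : ℂ) =
        ∑ a1 ∈ I, ∑ a2 ∈ I, (((γ a1 * γ a2 : ℝ) : ℂ) * ee (t * ((a2 : ℝ) - a1))) *
          (((W * gs (W * x) : ℝ) : ℂ) * ee (x * sg a1 a2)) := by
      intro x
      rw [← mul_assoc, Complex.ofReal_mul, lq_sq, mul_sum]
      refine sum_congr rfl fun a1 _ => ?_
      rw [mul_sum]
      refine sum_congr rfl fun a2 _ => ?_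
      ring
    have h3 : (fun x : ℝ => ((W * (gs (W * x) * ‖ft I (lq_co γ x) t‖ ^ 2) : ℝ) : ℂ)) =
        fun x => ∑ a1 ∈ I, ∑ a2 ∈ I, (((γ a1 * γ a2 : ℝ) : ℂ) * ee (t * ((a2 : ℝ) - a1))) *
          (((W * gs (W * x) : ℝ) : ℂ) * ee (x * sg a1 a2)) := funext h2
    rw [h3, integral_finsetSum _ fun a1 _ =>
      integrable_finsetSum _ fun a2 _ => (lq_intC hW _).const_mul _]
    refine sum_congr rfl fun a1 _ => ?_
    rw [integral_finsetSum _ fun a2 _ => (lq_intC hW _).const_mul _]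
    refine sum_congr rfl fun a2 _ => ?_
    rw [integral_const_mul, lq_fourier hW]
    push_cast; ring
  rw [h1, Complex.norm_real, Real.norm_of_nonneg]
  exact mul_nonneg hW.le (integral_nonneg fun x => mul_nonneg (gs_pos _).le (by positivity))

theorem lq_block (q : ℕ) (u : ℝ) (J : ℕ) :
    (q : ℝ) * ∑ j ∈ Ioc 0 J, gs (((q * j : ℕ) : ℝ) * u) ≤ ∑ i ∈ Ioc 0 (q * J), gs (i * u) := by
  induction J with
  | zero => simp
  | succ J ih =>
    rw [sum_Ioc_succ_top (Nat.zero_le J), mul_add,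
      ← sum_Ioc_consecutive _ (Nat.zero_le (q * J)) (Nat.mul_le_mul_left q (Nat.le_succ J))]
    refine add_le_add ih ?_
    have h1 : ∑ _i ∈ Ioc (q * J) (q * (J + 1)), gs (((q * (J + 1) : ℕ) : ℝ) * u) ≤
        ∑ i ∈ Ioc (q * J) (q * (J + 1)), gs (i * u) := by
      refine sum_le_sum fun i hi => gs_anti ?_
      rw [abs_mul, abs_mul, Nat.abs_cast, Nat.abs_cast]
      exact mul_le_mul_of_nonneg_right (by exact_mod_cast (mem_Ioc.1 hi).2) (abs_nonneg u)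
    rw [sum_const, Nat.card_Ioc, nsmul_eq_mul] at h1
    have h2 : q * (J + 1) - q * J = q := by rw [mul_add]; omega
    rwa [h2] at h1

theorem lq_mult {q : ℕ} (hq : 0 < q) (n : ℕ) (u : ℝ) :
    ∑ ν ∈ (Icc 1 n).filter (q ∣ ·), gs (ν * u) ≤ 1 / (q : ℝ) * ∑ i ∈ Icc 1 n, gs (i * u) := by
  have hq' : (0 : ℝ) < q := by exact_mod_cast hq
  have h1 : (Icc 1 n).filter (q ∣ ·) = (Ioc 0 (n / q)).image (q * ·) := by
    ext ν
    simp only [mem_filter, mem_Icc, mem_image, mem_Ioc]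
    constructor
    · rintro ⟨⟨h1, h2⟩, j, rfl⟩
      refine ⟨j, ⟨Nat.pos_of_mul_pos_left (a := q) h1, ?_⟩, rfl⟩
      rw [Nat.le_div_iff_mul_le hq, mul_comm]; exact h2
    · rintro ⟨j, ⟨h1, h2⟩, rfl⟩
      rw [Nat.le_div_iff_mul_le hq, mul_comm] at h2
      exact ⟨⟨Nat.mul_pos hq h1, h2⟩, dvd_mul_right _ _⟩
  rw [h1, sum_image fun a _ b _ h => Nat.eq_of_mul_eq_mul_left hq h, one_div_mul_eq_div,
    le_div_iff₀ hq', mul_comm]
  refine (lq_block q u (n / q)).trans ?_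
  refine sum_le_sum_of_subset_of_nonneg (fun i hi => ?_) fun i _ _ => (gs_pos _).le
  have := mem_Ioc.1 hi
  exact mem_Icc.2 ⟨this.1, this.2.trans (Nat.mul_div_le n q)⟩

theorem lq_harm (n : ℕ) : ∑ i ∈ Icc 1 n, 1 / (i : ℝ) ≤ 1 + Real.log n := by
  have h := harmonic_le_one_add_log n
  rw [harmonic_eq_sum_Icc] at h
  push_cast at h
  simpa only [one_div] using h

theorem t_LQ (hLSW : S_LSW) : S_LQ := by
  obtain ⟨C, hC, hL⟩ := hLSW
  refine ⟨C, hC, fun H w Q ν0 I γ hH hw hQ hI => ?_⟩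
  have hpos : ∀ ν ∈ Icc 1 ν0, (0 : ℝ) < ν := fun ν hν => by
    exact_mod_cast (mem_Icc.1 hν).1
  set F : ℕ → ℕ → ℕ → ℝ → ℝ := fun q r ν x =>
    w * (gs (ν * w * x) * ‖ft I (lq_co γ x) ((r : ℝ) / q)‖ ^ 2) with hF
  have hFi : ∀ q r : ℕ, ∀ ν ∈ (Icc 1 ν0).filter (q ∣ ·), Integrable (F q r ν) := fun q r ν hν =>
    (lq_intR (mul_pos (hpos ν (mem_filter.1 hν).1) hw) I γ _).const_mul w
  have h1 : ∑ q ∈ Ioc Q ν0, ∑ r ∈ red q, ∑ ν ∈ (Icc 1 ν0).filter (q ∣ ·), 1 / (ν : ℝ) *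
      ‖∑ a1 ∈ I, ∑ a2 ∈ I, ((γ a1 * γ a2 * gs (sg a1 a2 / (ν * w)) : ℝ) : ℂ) *
        ee ((r : ℝ) / q * ((a2 : ℝ) - a1))‖ =
      ∫ x, ∑ q ∈ Ioc Q ν0, ∑ r ∈ red q, ∑ ν ∈ (Icc 1 ν0).filter (q ∣ ·), F q r ν x := by
    rw [integral_finsetSum _ fun q _ => integrable_finsetSum _ fun r _ =>
      integrable_finsetSum _ fun ν hν => hFi q r ν hν]
    refine sum_congr rfl fun q _ => ?_
    rw [integral_finsetSum _ fun r _ => integrable_finsetSum _ fun ν hν => hFi q r ν hν]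
    refine sum_congr rfl fun r _ => ?_
    rw [integral_finsetSum _ fun ν hν => hFi q r ν hν]
    refine sum_congr rfl fun ν hν => ?_
    have h0 := hpos ν (mem_filter.1 hν).1
    rw [lq_inner (mul_pos h0 hw), hF]
    simp only
    rw [integral_const_mul]
    field_simp
  set D : ℝ := C * (H / Q + ν0) * ∑ a ∈ I, γ a ^ 2 with hD
  have hD0 : 0 ≤ D := by
    have : 0 ≤ ∑ a ∈ I, γ a ^ 2 := sum_nonneg fun _ _ => sq_nonneg _
    positivity
  have hGi : ∀ i ∈ Icc 1 ν0, Integrable fun x : ℝ => D * w * gs (i * w * x) := fun i hi =>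
    (lq_integrable (mul_pos (hpos i hi) hw)).const_mul _
  have h2 : ∀ x, ∑ q ∈ Ioc Q ν0, ∑ r ∈ red q, ∑ ν ∈ (Icc 1 ν0).filter (q ∣ ·), F q r ν x ≤
      ∑ i ∈ Icc 1 ν0, D * w * gs (i * w * x) := by
    intro x
    set G : ℝ := ∑ i ∈ Icc 1 ν0, gs (i * (w * x)) with hG
    have hG0 : 0 ≤ G := by rw [hG]; exact sum_nonneg fun _ _ => (gs_pos _).le
    have h3 : ∀ q ∈ Ioc Q ν0, ∑ r ∈ red q, ∑ ν ∈ (Icc 1 ν0).filter (q ∣ ·), F q r ν x ≤
        w * G * (1 / (q : ℝ) * en I (lq_co γ x) q) := by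
      intro q hq
      have hq0 : 0 < q := lt_of_lt_of_le (by omega) (mem_Ioc.1 hq).1.le
      unfold en
      rw [← mul_assoc, mul_sum (red q)]
      refine sum_le_sum fun r _ => ?_
      have h4 := lq_mult hq0 ν0 (w * x)
      have h5 : ∑ ν ∈ (Icc 1 ν0).filter (q ∣ ·), F q r ν x =
          w * ‖ft I (lq_co γ x) ((r : ℝ) / q)‖ ^ 2 *
            ∑ ν ∈ (Icc 1 ν0).filter (q ∣ ·), gs (ν * (w * x)) := by
        rw [mul_sum]
        refine sum_congr rfl fun ν _ => ?_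
        rw [hF]; simp only [mul_assoc]; ring
      rw [h5]
      calc _ ≤ w * ‖ft I (lq_co γ x) ((r : ℝ) / q)‖ ^ 2 * (1 / (q : ℝ) * G) :=
            mul_le_mul_of_nonneg_left h4 (by positivity)
        _ = _ := by ring
    refine (sum_le_sum h3).trans ?_
    rw [← mul_sum]
    have h6 := hL Q ν0 H I (lq_co γ x) hQ hH hI
    rw [lq_nsq] at h6
    refine (mul_le_mul_of_nonneg_left h6 (by positivity)).trans (le_of_eq ?_)
    rw [← mul_sum, hG]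
    simp only [mul_assoc]
    ring
  rw [h1]
  refine (integral_mono (integrable_finsetSum _ fun q _ => integrable_finsetSum _ fun r _ =>
      integrable_finsetSum _ fun ν hν => hFi q r ν hν) (integrable_finsetSum _ hGi) h2).trans ?_
  rw [integral_finsetSum _ hGi]
  have h7 : ∑ i ∈ Icc 1 ν0, ∫ x : ℝ, D * w * gs (i * w * x) = D * ∑ i ∈ Icc 1 ν0, 1 / (i : ℝ) := by
    rw [mul_sum]
    refine sum_congr rfl fun i hi => ?_
    have h0 := hpos i hi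
    rw [integral_const_mul, lq_integral (mul_pos h0 hw)]
    field_simp
  rw [h7]
  refine (mul_le_mul_of_nonneg_left (lq_harm ν0) hD0).trans (le_of_eq ?_)
  rw [hD]; ring

end Pool.Agent.P.MP_8be758_nt.Avg
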