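import Pool.Agent.P.MP_8be758_nt.Avg.Basic

/-! The zero frequency term: reduction to Farey energies. -/

namespace Pool.Agent.P.MP_8be758_nt.Avg

open Finset Real Filter Topology
open Pool.Agent.P.MP_e86632_nt (ee)

/-- the weight at the divisor `ν` of `a2 - a1` -/
noncomputable def main_F (B : ℝ) (a1 a2 ν : ℕ) : ℝ :=
  if (ν : ℤ) ∣ (a2 : ℤ) - a1 then psi B (sg a1 a2 ^ 2 / (ν : ℝ) ^ 2) else 0

/-- sum over the divisors in `s` -/
noncomputable def main_U (α : ℕ → ℝ) (I : Finset ℕ) (B : ℝ) (s : Finset ℕ) : ℝ :=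
  ∑ a1 ∈ I, ∑ a2 ∈ I, α a1 / √(a1 : ℝ) * (α a2 / √(a2 : ℝ)) * ∑ ν ∈ s, main_F B a1 a2 ν

theorem main_F_self (B : ℝ) (a ν : ℕ) : main_F B a a ν = 0 := by
  simp [main_F, sg, psi_zero]

theorem main_F_nonneg {B : ℝ} (hB : 0 < B) (a1 a2 ν : ℕ) : 0 ≤ main_F B a1 a2 ν := by
  unfold main_F
  split_ifs
  · exact psi_nonneg hB (by positivity)
  · exact le_rfl

theorem main_F_big (B : ℝ) {a1 a2 ν : ℕ} (h : |(a2 : ℤ) - a1| < ν) : main_F B a1 a2 ν = 0 := by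
  by_cases e : a1 = a2
  · rw [e, main_F_self]
  · exact if_neg fun hd => e (by have := Int.eq_zero_of_abs_lt_dvd hd h; omega)

theorem main_cg {μ : ℕ} (hμ : μ ≠ 0) (a1 a2 : ℕ) (x : ℝ) : (if Cg μ a1 a2 then x else 0) =
    (if ((2 * μ : ℕ) : ℤ) ∣ (a2 : ℤ) - a1 then x else 0) -
      2 * (if 4 ∣ 2 * μ then (if ((2 * μ : ℕ) : ℤ) ∣ (a2 : ℤ) - a1 then x else 0) else 0) +
      (if 2 ∣ μ then (if (μ : ℤ) ∣ (a2 : ℤ) - a1 then x else 0) else 0) := by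
  have hc : Cg μ a1 a2 ↔ 2 * (μ : ℤ) ∣ μ * (μ + 1) - ((a2 : ℤ) - a1) := Int.modEq_iff_dvd
  generalize (a2 : ℤ) - a1 = h at hc ⊢
  push_cast
  rcases Nat.even_or_odd' μ with ⟨m, rfl | rfl⟩
  · rw [if_pos (by omega : 4 ∣ 2 * (2 * m)), if_pos (by omega : 2 ∣ 2 * m)]
    have h1 : Cg (2 * m) a1 a2 ↔ 2 * ((2 * m : ℕ) : ℤ) ∣ (2 * m : ℕ) - h := by
      rw [hc, show ((2 * m : ℕ) : ℤ) * ((2 * m : ℕ) + 1) - h =
        ((2 * m : ℕ) - h) + 2 * ((2 * m : ℕ) : ℤ) * m by push_cast; ring]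
      exact (dvd_add_left (dvd_mul_right _ _))
    have hu : ((2 * m : ℕ) : ℤ) ≠ 0 := by exact_mod_cast hμ
    generalize ((2 * m : ℕ) : ℤ) = u at h1 hu ⊢
    by_cases h2 : u ∣ h
    · obtain ⟨t, rfl⟩ := h2
      have e1 : 2 * u ∣ u * t ↔ 2 ∣ t := by
        rw [mul_comm 2 u, mul_dvd_mul_iff_left hu]
      have e2 : 2 * u ∣ u - u * t ↔ 2 ∣ 1 - t := by
        rw [mul_comm 2 u, ← mul_one_sub, mul_dvd_mul_iff_left hu]
      rw [if_pos (dvd_mul_right u t)]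
      by_cases ht : 2 ∣ t
      · rw [if_neg (by rw [h1, e2]; omega), if_pos (e1.2 ht)]; ring
      · rw [if_pos (by rw [h1, e2]; omega), if_neg (mt e1.1 ht)]; ring
    · have e1 : ¬ 2 * u ∣ h := fun h3 => h2 ((dvd_mul_left u 2).trans h3)
      have e2 : ¬ Cg (2 * m) a1 a2 := fun h3 => h2 (by
        have := (dvd_mul_left u 2).trans (h1.1 h3)
        exact (dvd_sub_right (dvd_refl u)).1 this)
      rw [if_neg e2, if_neg e1, if_neg h2]; ring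
  · rw [if_neg (by omega : ¬ 4 ∣ 2 * (2 * m + 1)), if_neg (by omega : ¬ 2 ∣ 2 * m + 1)]
    have h1 : Cg (2 * m + 1) a1 a2 ↔ 2 * ((2 * m + 1 : ℕ) : ℤ) ∣ h := by
      rw [hc, show ((2 * m + 1 : ℕ) : ℤ) * ((2 * m + 1 : ℕ) + 1) =
        2 * ((2 * m + 1 : ℕ) : ℤ) * (m + 1) by push_cast; ring]
      exact dvd_sub_right (dvd_mul_right _ _)
    by_cases h2 : Cg (2 * m + 1) a1 a2
    · rw [if_pos h2, if_pos (h1.1 h2)]; ring
    · rw [if_neg h2, if_neg (mt h1.2 h2)]; ring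

theorem main_reindex (F : ℕ → ℝ) (n : ℕ) (h : ∀ ν, n < ν → F ν = 0) :
    ∑ μ ∈ Icc 1 n, F (2 * μ) = ∑ ν ∈ (Icc 1 n).filter (2 ∣ ·), F ν := by
  rw [← sum_image (s := Icc 1 n) (g := fun μ => 2 * μ) (f := F) fun x _ y _ e => by
    simpa using e]
  refine (sum_subset (fun ν hν => ?_) fun ν h1 h2 => h ν ?_).symm
  · simp only [mem_filter, mem_Icc, mem_image] at hν ⊢
    exact ⟨ν / 2, by omega, by omega⟩
  · simp only [mem_filter, mem_Icc, mem_image] at h1 h2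
    obtain ⟨μ, h3, rfl⟩ := h1
    omega

theorem main_psi (B s : ℝ) (μ : ℕ) :
    psi (B / 4) (s / ((2 * μ : ℕ) : ℝ) ^ 2) = psi B (s / (μ : ℝ) ^ 2) := by
  unfold psi
  push_cast
  congr 2 <;> ring

theorem main_point (B : ℝ) {n a1 a2 : ℕ} (h : |(a2 : ℤ) - a1| ≤ n) :
    ∑ μ ∈ (Icc 1 n).filter (fun μ => Cg μ a1 a2), psi B (sg a1 a2 ^ 2 / (μ : ℝ) ^ 2) =
      ∑ ν ∈ (Icc 1 n).filter (2 ∣ ·), main_F (B / 4) a1 a2 ν -
        2 * ∑ ν ∈ (Icc 1 n).filter (4 ∣ ·), main_F (B / 4) a1 a2 ν +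
        ∑ ν ∈ (Icc 1 n).filter (2 ∣ ·), main_F B a1 a2 ν := by
  have h0 : ∀ ν, n < ν → main_F (B / 4) a1 a2 ν = 0 := fun ν hν =>
    main_F_big _ (h.trans_lt (by exact_mod_cast hν))
  have h1 : ∑ ν ∈ (Icc 1 n).filter (4 ∣ ·), main_F (B / 4) a1 a2 ν =
      ∑ μ ∈ Icc 1 n, if 4 ∣ 2 * μ then main_F (B / 4) a1 a2 (2 * μ) else 0 := by
    rw [main_reindex (fun ν => if 4 ∣ ν then main_F (B / 4) a1 a2 ν else 0) n
      fun ν hν => by simp [h0 ν hν], ← sum_filter, filter_filter]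
    exact sum_congr (filter_congr fun ν _ => by omega) fun _ _ => rfl
  rw [h1, ← main_reindex _ n h0, sum_filter, sum_filter, mul_sum, ← sum_sub_distrib,
    ← sum_add_distrib]
  refine sum_congr rfl fun μ hμ => ?_
  rw [main_cg (by have := (mem_Icc.1 hμ).1; omega)]
  simp only [main_F, main_psi]

theorem main_diff {A : ℝ} {I : Finset ℕ} (hI : Rng A I) {a1 a2 : ℕ} (h1 : a1 ∈ I) (h2 : a2 ∈ I) :
    |(a2 : ℝ) - a1| ≤ A / 4 := by
  have := hI a1 h1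
  have := hI a2 h2
  rw [abs_le]
  constructor <;> linarith

theorem main_step1 {A : ℝ} (B : ℝ) {n : ℕ} {I : Finset ℕ} (α : ℕ → ℝ) (hA : 0 ≤ A) (hn : A ≤ n)
    (hI : Rng A I) : mainS α I B n = main_U α I (B / 4) ((Icc 1 n).filter (2 ∣ ·)) -
      2 * main_U α I (B / 4) ((Icc 1 n).filter (4 ∣ ·)) +
      main_U α I B ((Icc 1 n).filter (2 ∣ ·)) := by
  unfold mainS offS main_U
  rw [mul_sum, ← sum_sub_distrib, ← sum_add_distrib]
  refine sum_congr rfl fun a1 h1 => ?_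
  rw [mul_sum, ← sum_sub_distrib, ← sum_add_distrib]
  refine sum_congr rfl fun a2 h2 => ?_
  have h3 : |(a2 : ℤ) - a1| ≤ n := by
    have : |(a2 : ℝ) - a1| ≤ n := (main_diff hI h1 h2).trans (by linarith only [hA, hn])
    exact_mod_cast this
  rw [main_point B h3]
  ring

theorem main_g_le {A : ℝ} {I : Finset ℕ} {α : ℕ → ℝ} (hA : 0 < A) (hI : Rng A I)
    (hα : ∀ a, |α a| ≤ 1) {a : ℕ} (h : a ∈ I) : |α a / √(a : ℝ)| ≤ 1 / √A := by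
  rw [abs_div, abs_of_nonneg (Real.sqrt_nonneg _)]
  exact div_le_div₀ zero_le_one (hα a) (Real.sqrt_pos.2 hA) (Real.sqrt_le_sqrt (hI a h).1.le)

theorem main_gg_le {A : ℝ} {I : Finset ℕ} {α : ℕ → ℝ} (hA : 0 < A) (hI : Rng A I)
    (hα : ∀ a, |α a| ≤ 1) {a1 a2 : ℕ} (h1 : a1 ∈ I) (h2 : a2 ∈ I) :
    |α a1 / √(a1 : ℝ) * (α a2 / √(a2 : ℝ))| ≤ 1 / A := by
  rw [abs_mul]
  refine (mul_le_mul (main_g_le hA hI hα h1) (main_g_le hA hI hα h2) (abs_nonneg _)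
    (by positivity)).trans_eq ?_
  rw [div_mul_div_comm, Real.mul_self_sqrt hA.le, one_mul]

theorem main_sg_le (a1 a2 : ℕ) : sg a1 a2 ^ 2 ≤ |(a2 : ℝ) - a1| := by
  unfold sg
  have h1 := Real.sqrt_nonneg (a1 : ℝ)
  have h2 := Real.sqrt_nonneg (a2 : ℝ)
  have h3 := Real.sq_sqrt (Nat.cast_nonneg (α := ℝ) a1)
  have h4 := Real.sq_sqrt (Nat.cast_nonneg (α := ℝ) a2)
  rcases le_total √(a1 : ℝ) √(a2 : ℝ) with h | h
  · exact le_trans (by nlinarith) (le_abs_self _)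
  · exact le_trans (by nlinarith) (neg_le_abs _)

theorem main_count {A : ℝ} {I : Finset ℕ} (hA : 0 ≤ A) (hI : Rng A I) {a1 ν : ℕ} (h1 : a1 ∈ I)
    (hν : 0 < ν) :
    ((I.filter fun a2 : ℕ => a2 ≠ a1 ∧ (ν : ℤ) ∣ (a2 : ℤ) - a1).card : ℝ) ≤ 2 * (A / ν) := by
  have hν' : (0 : ℝ) < ν := by exact_mod_cast hν
  have hν2 : (ν : ℤ) ≠ 0 := by exact_mod_cast hν.ne'
  have h2 : (I.filter fun a2 : ℕ => a2 ≠ a1 ∧ (ν : ℤ) ∣ (a2 : ℤ) - a1).card ≤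
      ((Icc (-(⌊A / ν⌋₊ : ℤ)) ⌊A / ν⌋₊).erase 0).card := by
    refine card_le_card_of_injOn (fun a2 : ℕ => ((a2 : ℤ) - a1) / ν) (fun a2 h => ?_)
      fun a ha b hb e => ?_
    · obtain ⟨h3, h4, t, ht⟩ := mem_filter.1 (mem_coe.1 h)
      have h5 := main_diff hI h1 h3
      have h6 : (a2 : ℝ) - a1 = ν * t := by exact_mod_cast ht
      rw [h6, abs_mul, abs_of_pos hν'] at h5
      have h7 : ((t.natAbs : ℕ) : ℝ) ≤ A / ν := by
        rw [le_div_iff₀ hν', Nat.cast_natAbs, Int.cast_abs]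
        linarith
      have h8 := Nat.le_floor h7
      have h9 : t ≠ 0 := by
        rintro rfl
        omega
      simp only [ht, Int.mul_ediv_cancel_left _ hν2, coe_erase, coe_Icc, Set.mem_sdiff,
        Set.mem_Icc, Set.mem_singleton_iff]
      omega
    · obtain ⟨-, -, t, ht⟩ := mem_filter.1 (mem_coe.1 ha)
      obtain ⟨-, -, u, hu⟩ := mem_filter.1 (mem_coe.1 hb)
      simp only [ht, hu, Int.mul_ediv_cancel_left _ hν2] at e
      rw [e, ← hu] at ht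
      omega
  rw [card_erase_of_mem (by simp), Int.card_Icc] at h2
  have h3 : (I.filter fun a2 : ℕ => a2 ≠ a1 ∧ (ν : ℤ) ∣ (a2 : ℤ) - a1).card ≤ 2 * ⌊A / ν⌋₊ := by
    omega
  have h4 := Nat.floor_le (div_nonneg hA hν'.le)
  have h5 : ((I.filter fun a2 : ℕ => a2 ≠ a1 ∧ (ν : ℤ) ∣ (a2 : ℤ) - a1).card : ℝ) ≤
      2 * (⌊A / ν⌋₊ : ℝ) := by exact_mod_cast h3
  linarith

theorem main_row {A B : ℝ} {I : Finset ℕ} (hA : 0 ≤ A) (hB : 0 < B) (hI : Rng A I) {a1 ν : ℕ}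
    (h1 : a1 ∈ I) (hν : 0 < ν) :
    ∑ a2 ∈ I, main_F B a1 a2 ν ≤ 2 * (A / ν) * (A / B * ((ν : ℝ) ^ 2)⁻¹) := by
  have hν' : (0 : ℝ) < ν := by exact_mod_cast hν
  rw [← sum_filter_of_ne (p := fun a2 : ℕ => a2 ≠ a1 ∧ (ν : ℤ) ∣ (a2 : ℤ) - a1)
    fun a2 _ h => ⟨fun e => h (by rw [e, main_F_self]), by
      by_contra h3
      exact h (if_neg h3)⟩]
  refine (sum_le_card_nsmul _ _ (A / B * ((ν : ℝ) ^ 2)⁻¹) fun a2 h => ?_).trans ?_
  · obtain ⟨h3, -, h4⟩ := mem_filter.1 h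
    rw [main_F, if_pos h4]
    refine (psi_le_lin hB (by positivity)).trans ?_
    have h5 := (main_sg_le a1 a2).trans (main_diff hI h1 h3)
    have h6 : π * sg a1 a2 ^ 2 ≤ A := by nlinarith [Real.pi_lt_four, Real.pi_pos]
    calc π * (sg a1 a2 ^ 2 / (ν : ℝ) ^ 2) / B = π * sg a1 a2 ^ 2 / B * ((ν : ℝ) ^ 2)⁻¹ := by ring
      _ ≤ _ := by gcongr
  · rw [nsmul_eq_mul]
    exact mul_le_mul_of_nonneg_right (main_count hA hI h1 hν) (by positivity)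

theorem main_tail {A B : ℝ} {I s : Finset ℕ} {α : ℕ → ℝ} {ν0 n : ℕ} (hA : 1 ≤ A) (hB : 0 < B)
    (hI : Rng A I) (hα : ∀ a, |α a| ≤ 1) (h0 : 0 < ν0) (hn : ν0 ≤ n) (hs : s ⊆ Ioc ν0 n) :
    |main_U α I B s| ≤ 4 * (A * (A / B) / (ν0 : ℝ) ^ 2) := by
  have hA0 : 0 < A := by linarith
  have h0' : (0 : ℝ) < ν0 := by exact_mod_cast h0
  have h1 : ∀ a1 ∈ I, |∑ a2 ∈ I, α a1 / √(a1 : ℝ) * (α a2 / √(a2 : ℝ)) *
      ∑ ν ∈ s, main_F B a1 a2 ν| ≤ 2 * (A / B) / (ν0 : ℝ) ^ 2 := by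
    intro a1 h1
    calc _ ≤ ∑ a2 ∈ I, 1 / A * ∑ ν ∈ Ioc ν0 n, main_F B a1 a2 ν := by
          refine (abs_sum_le_sum_abs _ _).trans (sum_le_sum fun a2 h2 => ?_)
          rw [abs_mul, abs_of_nonneg (sum_nonneg fun ν _ => main_F_nonneg hB a1 a2 ν)]
          exact mul_le_mul (main_gg_le hA0 hI hα h1 h2)
            (sum_le_sum_of_subset_of_nonneg hs fun ν _ _ => main_F_nonneg hB a1 a2 ν)
            (sum_nonneg fun ν _ => main_F_nonneg hB a1 a2 ν) (by positivity)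
      _ = 1 / A * ∑ ν ∈ Ioc ν0 n, ∑ a2 ∈ I, main_F B a1 a2 ν := by rw [← mul_sum, sum_comm]
      _ ≤ 1 / A * ∑ ν ∈ Ioc ν0 n, 2 * (A / ν0) * (A / B * ((ν : ℝ) ^ 2)⁻¹) := by
          refine mul_le_mul_of_nonneg_left (sum_le_sum fun ν hν => ?_) (by positivity)
          have h3 := (mem_Ioc.1 hν).1
          refine (main_row hA0.le hB hI h1 (by omega)).trans ?_
          have h4 : (ν0 : ℝ) ≤ ν := by exact_mod_cast h3.le
          gcongr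
      _ = 2 * (A / B) / ν0 * ∑ ν ∈ Ioc ν0 n, ((ν : ℝ) ^ 2)⁻¹ := by
          rw [← mul_sum, ← mul_sum]
          field_simp
      _ ≤ 2 * (A / B) / ν0 * (ν0 : ℝ)⁻¹ := by
          refine mul_le_mul_of_nonneg_left ((sum_Ioc_inv_sq_le_sub h0.ne' hn).trans ?_)
            (by positivity)
          exact sub_le_self _ (by positivity)
      _ = _ := by field_simp
  refine (abs_sum_le_sum_abs _ _).trans ((sum_le_card_nsmul _ _ _ h1).trans ?_)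
  rw [nsmul_eq_mul]
  refine (mul_le_mul_of_nonneg_right (hI.card_le hA) (by positivity)).trans_eq ?_
  ring

/-- the exponential sum at the modulus `ν` -/
noncomputable def main_T (α : ℕ → ℝ) (I : Finset ℕ) (B : ℝ) (ν : ℕ) (t : ℝ) : ℂ :=
  ∑ a1 ∈ I, ∑ a2 ∈ I, ((α a1 / √(a1 : ℝ) * (α a2 / √(a2 : ℝ)) *
    psi B (sg a1 a2 ^ 2 / (ν : ℝ) ^ 2) : ℝ) : ℂ) * ee (t * ((a2 : ℝ) - a1))

theorem main_head (hFAR : S_FAR) (α : ℕ → ℝ) (I : Finset ℕ) (B : ℝ) (e ν0 : ℕ) :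
    (main_U α I B ((Icc 1 ν0).filter (e ∣ ·)) : ℂ) = ∑ q ∈ Icc 1 ν0, ∑ r ∈ red q,
      ∑ ν ∈ (Icc 1 ν0).filter (fun ν => q ∣ ν ∧ e ∣ ν),
        ((1 / (ν : ℝ) : ℝ) : ℂ) * main_T α I B ν ((r : ℝ) / q) := by
  have h1 : ∀ ν : ℕ, 0 < ν → ((∑ a1 ∈ I, ∑ a2 ∈ I, α a1 / √(a1 : ℝ) * (α a2 / √(a2 : ℝ)) *
      main_F B a1 a2 ν : ℝ) : ℂ) = ∑ q ∈ ν.divisors, ∑ r ∈ red q,
        ((1 / (ν : ℝ) : ℝ) : ℂ) * main_T α I B ν ((r : ℝ) / q) := by
    intro ν hν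
    have hν' : (ν : ℂ) ≠ 0 := by exact_mod_cast hν.ne'
    rw [← hFAR.1 (fun t => ((1 / (ν : ℝ) : ℝ) : ℂ) * main_T α I B ν t) ν hν, ← mul_sum]
    unfold main_T
    rw [sum_comm (s := range ν), mul_sum, Complex.ofReal_sum]
    refine sum_congr rfl fun a1 _ => ?_
    rw [sum_comm (s := range ν), mul_sum, Complex.ofReal_sum]
    refine sum_congr rfl fun a2 _ => ?_
    have h2 := hFAR.2.1 ν ((a2 : ℤ) - a1) hν
    rw [Int.cast_sub, Int.cast_natCast, Int.cast_natCast] at h2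
    rw [← mul_sum, h2, main_F]
    split_ifs
    · push_cast
      field_simp
    · simp
  have h2 : main_U α I B ((Icc 1 ν0).filter (e ∣ ·)) = ∑ ν ∈ (Icc 1 ν0).filter (e ∣ ·),
      ∑ a1 ∈ I, ∑ a2 ∈ I, α a1 / √(a1 : ℝ) * (α a2 / √(a2 : ℝ)) * main_F B a1 a2 ν := by
    unfold main_U
    simp only [mul_sum]
    rw [sum_comm (s := (Icc 1 ν0).filter (e ∣ ·))]
    exact sum_congr rfl fun a1 _ => sum_comm
  rw [h2, Complex.ofReal_sum, sum_congr rfl fun ν hν => h1 ν (mem_Icc.1 (mem_filter.1 hν).1).1]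
  rw [sum_comm' (t' := Icc 1 ν0) (s' := fun q => (Icc 1 ν0).filter fun ν => q ∣ ν ∧ e ∣ ν)]
  · exact sum_congr rfl fun q _ => sum_comm
  · intro ν q
    simp only [mem_filter, mem_Icc, Nat.mem_divisors]
    constructor
    · rintro ⟨⟨h3, h4⟩, h5, h6⟩
      exact ⟨⟨h3, h5, h4⟩, Nat.pos_of_dvd_of_pos h5 h3.1, (Nat.le_of_dvd h3.1 h5).trans h3.2⟩
    · rintro ⟨⟨h3, h4, h5⟩, -⟩
      exact ⟨⟨h3, h5⟩, h4, by omega⟩

theorem main_T_le (α : ℕ → ℝ) (I : Finset ℕ) {B : ℝ} (hB : 0 < B) (ν : ℕ) (t : ℝ) :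
    ‖main_T α I B ν t‖ ≤
      ‖∑ a1 ∈ I, ∑ a2 ∈ I, ((α a1 / √(a1 : ℝ) * (α a2 / √(a2 : ℝ)) *
        gs (sg a1 a2 / (ν * √B)) : ℝ) : ℂ) * ee (t * ((a2 : ℝ) - a1))‖ +
      ‖∑ a1 ∈ I, ∑ a2 ∈ I, ((α a1 / √(a1 : ℝ) * (α a2 / √(a2 : ℝ)) *
        gs (sg a1 a2 / (ν * √(B / 2))) : ℝ) : ℂ) * ee (t * ((a2 : ℝ) - a1))‖ := by
  refine le_of_eq_of_le (congrArg _ ?_) (norm_sub_le _ _)
  unfold main_T
  rw [← sum_sub_distrib]
  refine sum_congr rfl fun a1 _ => ?_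
  rw [← sum_sub_distrib]
  refine sum_congr rfl fun a2 _ => ?_
  rw [psi_eq_gs hB, mul_sub, Complex.ofReal_sub, sub_mul]

theorem main_bound (hFAR : S_FAR) (hLQ : S_LQ) (hSQ : S_SQ) : ∃ C : ℝ, 0 < C ∧
    ∀ (A B : ℝ) (e n0 Q ν0 : ℕ) (I : Finset ℕ) (α : ℕ → ℝ), 1 ≤ A → 1 / 4 ≤ B → 1 ≤ e → e ≤ 4 →
      (n0 : ℝ) ≤ 3 * A → 1 ≤ Q → 4 * Q ≤ ν0 → ν0 ≤ n0 → Rng A I → (∀ a, |α a| ≤ 1) →
      |main_U α I B ((Icc 1 n0).filter (e ∣ ·))| ≤
        C * (enS I (gam α) Q + Q * A * (A / B) / (ν0 : ℝ) ^ 2 +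
          (1 + Real.log A) * (A / Q + ν0) + A * Q * √(Q / √(A / B))) := by
  obtain ⟨C1, hC1, H1⟩ := hLQ
  obtain ⟨C2, hC2, H2⟩ := hSQ
  refine ⟨C2 + 24 * C1 + 4, by positivity, ?_⟩
  intro A B e n0 Q ν0 I α hA hB he he4 hn hQ hQν hν hI hα
  have hA0 : 0 < A := by linarith
  have hB0 : 0 < B := by linarith
  have hQ' : (1 : ℝ) ≤ Q := by exact_mod_cast hQ
  have hν0 : 0 < ν0 := by omega
  have hν0' : (0 : ℝ) < ν0 := by exact_mod_cast hν0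
  have s1 : main_U α I B ((Icc 1 n0).filter (e ∣ ·)) = main_U α I B ((Icc 1 ν0).filter (e ∣ ·)) +
      main_U α I B ((Ioc ν0 n0).filter (e ∣ ·)) := by
    have : Icc 1 n0 = Icc 1 ν0 ∪ Ioc ν0 n0 := by
      ext x
      simp only [mem_Icc, mem_union, mem_Ioc]
      omega
    have hd : Disjoint ((Icc 1 ν0).filter (e ∣ ·)) ((Ioc ν0 n0).filter (e ∣ ·)) :=
      disjoint_filter_filter (disjoint_left.2 fun x h1 h2 => by
        simp only [mem_Icc, mem_Ioc] at h1 h2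
        omega)
    unfold main_U
    rw [this, filter_union]
    simp only [sum_union hd, mul_add, sum_add_distrib]
  have s2 := main_tail (s := (Ioc ν0 n0).filter (e ∣ ·)) hA hB0 hI hα hν0 hν (filter_subset _ _)
  have s3 := H2 A B e Q ν0 I α hA hB he he4 hQ hQν hI hα
  have hg : ∑ a ∈ I, (α a / √(a : ℝ)) ^ 2 ≤ 2 := by
    refine (sum_le_card_nsmul _ _ (1 / A) fun a ha => ?_).trans ?_
    · rw [sq]
      exact (le_abs_self _).trans (main_gg_le hA0 hI hα ha ha)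
    · rw [nsmul_eq_mul, mul_one_div, div_le_iff₀ hA0]
      exact hI.card_le hA
  have hlog : 0 ≤ Real.log A := Real.log_nonneg hA
  have hl : 1 + Real.log ν0 ≤ 3 * (1 + Real.log A) := by
    have h1 : Real.log ν0 ≤ Real.log (3 * A) :=
      Real.log_le_log hν0' (le_trans (by exact_mod_cast hν) hn)
    rw [Real.log_mul (by norm_num) hA0.ne'] at h1
    have h2 := Real.log_le_sub_one_of_pos (by norm_num : (0 : ℝ) < 3)
    linarith
  have s4 : ∀ w : ℝ, 0 < w → ∑ q ∈ Ioc Q ν0, ∑ r ∈ red q, ∑ ν ∈ (Icc 1 ν0).filter (q ∣ ·),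
      1 / (ν : ℝ) * ‖∑ a1 ∈ I, ∑ a2 ∈ I, ((α a1 / √(a1 : ℝ) * (α a2 / √(a2 : ℝ)) *
        gs (sg a1 a2 / (ν * w)) : ℝ) : ℂ) * ee ((r : ℝ) / q * ((a2 : ℝ) - a1))‖ ≤
      12 * C1 * ((1 + Real.log A) * (A / Q + ν0)) := by
    intro w hw
    refine (H1 (5 / 4 * A) w Q ν0 I (fun a => α a / √(a : ℝ)) (by positivity) hw hQ
      fun a ha => (hI a ha).2).trans ?_
    have h1 : 5 / 4 * A / Q + ν0 ≤ 2 * (A / Q + ν0) := by
      have : 0 ≤ A / Q := by positivity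
      rw [mul_div_assoc]
      linarith
    calc _ ≤ C1 * (3 * (1 + Real.log A)) * (2 * (A / Q + ν0)) * 2 := by
          have : 0 ≤ ∑ a ∈ I, (α a / √(a : ℝ)) ^ 2 := sum_nonneg fun _ _ => sq_nonneg _
          gcongr
      _ = _ := by ring
  have s5 : ∑ q ∈ Ioc Q ν0, ∑ r ∈ red q, ‖∑ ν ∈ (Icc 1 ν0).filter (fun ν => q ∣ ν ∧ e ∣ ν),
      ((1 / (ν : ℝ) : ℝ) : ℂ) * main_T α I B ν ((r : ℝ) / q)‖ ≤
      24 * C1 * ((1 + Real.log A) * (A / Q + ν0)) := by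
    refine le_trans ?_ ((add_le_add (s4 _ (Real.sqrt_pos.2 hB0))
      (s4 _ (Real.sqrt_pos.2 (half_pos hB0)))).trans_eq (by ring))
    rw [← sum_add_distrib]
    refine sum_le_sum fun q _ => ?_
    rw [← sum_add_distrib]
    refine sum_le_sum fun r _ => ?_
    rw [← sum_add_distrib]
    refine (norm_sum_le _ _).trans ((sum_le_sum fun ν _ => ?_).trans
      (sum_le_sum_of_subset_of_nonneg (monotone_filter_right _ fun ν _ h => h.1)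
        fun ν _ _ => by positivity))
    rw [norm_mul, Complex.norm_real, Real.norm_of_nonneg (by positivity), ← mul_add]
    exact mul_le_mul_of_nonneg_left (main_T_le α I hB0 ν _) (by positivity)
  have s6 : |main_U α I B ((Icc 1 ν0).filter (e ∣ ·))| ≤
      C2 * (enS I (gam α) Q + Q * A * (A / B) / (ν0 : ℝ) ^ 2 + A * Q * √(Q / √(A / B))) +
        24 * C1 * ((1 + Real.log A) * (A / Q + ν0)) := by
    rw [← Real.norm_eq_abs, ← Complex.norm_real, main_head hFAR]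
    refine ((norm_sum_le _ _).trans (sum_le_sum fun q _ => norm_sum_le _ _)).trans
      (le_of_eq_of_le ?_ (add_le_add s3 s5))
    have : Icc 1 ν0 = Icc 1 Q ∪ Ioc Q ν0 := by
      ext x
      simp only [mem_Icc, mem_union, mem_Ioc]
      omega
    conv_lhs => enter [1]; rw [this]
    rw [sum_union (disjoint_left.2 fun x h1 h2 => by
      simp only [mem_Icc, mem_Ioc] at h1 h2
      omega)]
    rfl
  have p1 := enS_nonneg I (gam α) Q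
  have p2 : A * (A / B) / (ν0 : ℝ) ^ 2 ≤ Q * A * (A / B) / (ν0 : ℝ) ^ 2 := by
    gcongr
    exact le_mul_of_one_le_left hA0.le hQ'
  have p3 : 0 ≤ (1 + Real.log A) * (A / Q + ν0) := by positivity
  have p4 : 0 ≤ A * Q * √(Q / √(A / B)) := by positivity
  have p5 : 0 ≤ Q * A * (A / B) / (ν0 : ℝ) ^ 2 := by positivity
  rw [s1]
  refine (abs_add_le _ _).trans ((add_le_add s6 s2).trans ?_)
  generalize enS I (gam α) Q = x1, Q * A * (A / B) / (ν0 : ℝ) ^ 2 = x2,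
    (1 + Real.log A) * (A / Q + ν0) = x3, A * Q * √(Q / √(A / B)) = x4,
    A * (A / B) / (ν0 : ℝ) ^ 2 = x5 at *
  nlinarith [mul_nonneg hC1.le p1, mul_nonneg hC1.le p5, mul_nonneg hC1.le p4,
    mul_nonneg hC2.le p3]

theorem t_MAIN (hFAR : S_FAR) (hLQ : S_LQ) (hSQ : S_SQ) : S_MAIN := by
  obtain ⟨C, hC, H⟩ := main_bound hFAR hLQ hSQ
  refine ⟨13 * C, by positivity, ?_⟩
  intro A B n0 Q ν0 I α hB hBA hn hn' hQ hQν hν hI hα
  have hA : 1 ≤ A := hB.trans hBA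
  have hA0 : 0 < A := by linarith
  have hB0 : 0 < B := by linarith
  have hlog : 0 ≤ Real.log A := Real.log_nonneg hA
  have p1 := enS_nonneg I (gam α) Q
  have p3 : 0 ≤ (1 + Real.log A) * (A / Q + ν0) := by positivity
  have p4 : 0 ≤ A * Q * √(Q / √(A / B)) := by positivity
  have e1 : A / (B / 4) = 4 * (A / B) := by field_simp
  have h4 : ∀ e, 1 ≤ e → e ≤ 4 → |main_U α I (B / 4) ((Icc 1 n0).filter (e ∣ ·))| ≤
      4 * (C * (enS I (gam α) Q + Q * A * (A / B) / (ν0 : ℝ) ^ 2 +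
        (1 + Real.log A) * (A / Q + ν0) + A * Q * √(Q / √(A / B)))) := by
    intro e he he4
    refine (H A (B / 4) e n0 Q ν0 I α hA (by linarith) he he4 hn' hQ hQν hν hI hα).trans ?_
    rw [e1, mul_left_comm 4 C]
    refine mul_le_mul_of_nonneg_left ?_ hC.le
    have h5 : A * Q * √(Q / √(4 * (A / B))) ≤ A * Q * √(Q / √(A / B)) := by
      have : 0 < A / B := by positivity
      gcongr
      linarith
    have h6 : Q * A * (4 * (A / B)) / (ν0 : ℝ) ^ 2 = 4 * (Q * A * (A / B) / (ν0 : ℝ) ^ 2) := by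
      ring
    linarith
  have h1 := H A B 2 n0 Q ν0 I α hA (by linarith) (by norm_num) (by norm_num) hn' hQ hQν hν hI hα
  have h2 := h4 2 (by norm_num) (by norm_num)
  have h3 := h4 4 (by norm_num) (by norm_num)
  rw [main_step1 B α hA0.le (by linarith) hI]
  rw [abs_le] at h1 h2 h3 ⊢
  constructor <;> linarith [h1.1, h1.2, h2.1, h2.2, h3.1, h3.2]

end Pool.Agent.P.MP_8be758_nt.Avg
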