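import Pool.Agent.P.MP_8be758_nt.Avg.Basic

/-! A trigonometric sieve majorant and counts of rough numbers. -/

namespace Pool.Agent.P.MP_8be758_nt.Avg

open Finset Real Filter Topology
open Pool.Agent.P.MP_e86632_nt (ee)
open Pool.Agent.P.MP_e86632_nt
open ArithmeticFunction (moebius)

theorem nu_half : ee (1 / 2) = -1 := by
  unfold ee
  have : Complex.I * ((2 * π * (1 / 2) : ℝ) : ℂ) = π * Complex.I := by push_cast; ring
  rw [this, Complex.exp_pi_mul_I]

theorem nu_par (b : ℤ) : ee (1 / 2 * b) = if Even b then 1 else -1 := by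
  split_ifs with h
  · obtain ⟨k, rfl⟩ := h
    rw [← ee_int k]; congr 1; push_cast; ring
  · obtain ⟨k, rfl⟩ := Int.not_even_iff_odd.1 h
    rw [← nu_half, ← ee_add_int (1 / 2) k]; congr 1; push_cast; ring

theorem nu_split {ι M : Type} [DecidableEq ι] [AddCommMonoid M] (P : Finset ι) (f : ι × ι → M) :
    ∑ t ∈ P ×ˢ P, f t = ∑ i ∈ P, f (i, i) + ∑ t ∈ P.offDiag, f t := by
  rw [← diag_union_offDiag, sum_union (disjoint_diag_offDiag P), sum_diag]

theorem nu_sq {ι : Type} (P : Finset ι) (c θ : ι → ℝ) (b : ℝ) :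
    ((‖∑ i ∈ P, (c i : ℂ) * ee (θ i * b)‖ ^ 2 : ℝ) : ℂ) =
      ∑ t ∈ P ×ˢ P, ((c t.1 * c t.2 : ℝ) : ℂ) * ee ((θ t.1 - θ t.2) * b) := by
  rw [Complex.ofReal_pow, ← Complex.mul_conj', map_sum, sum_mul_sum, sum_product]
  refine sum_congr rfl fun i _ => sum_congr rfl fun j _ => ?_
  rw [map_mul, Complex.conj_ofReal, ← ee_neg,
    show (θ i - θ j) * b = θ i * b + -(θ j * b) by ring, ee_add]
  push_cast
  ring

theorem nu_abs {ι : Type} (P : Finset ι) (c θ : ι → ℝ) (D δ : ℝ)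
    (h1 : ∀ i ∈ P, ∀ j ∈ P, i ≠ j → ∀ k : ℤ, δ ≤ |k - (θ i - θ j)|)
    (h2 : ∀ i ∈ P, ∀ j ∈ P, ∀ k : ℤ, δ ≤ |k - (θ i - θ j + 1 / 2)|)
    (h3 : (∑ i ∈ P, c i ^ 2) / 2 ≤ 1) (h4 : (∑ i ∈ P, |c i|) ^ 2 ≤ D) :
    NuData (fun b => ‖∑ i ∈ P, (c i : ℂ) * ee (θ i * b)‖ ^ 2 * if Even b then 0 else 1)
      ((∑ i ∈ P, c i ^ 2) / 2) D δ := by
  classical
  refine ⟨fun b => mul_nonneg (by positivity) (by split_ifs <;> norm_num),
    fun b hb => by simp [hb], by positivity, h3, (ι × ι) ⊕ (ι × ι),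
    P.offDiag.disjSum (P ×ˢ P),
    Sum.elim (fun t => c t.1 * c t.2 / 2) (fun t => -(c t.1 * c t.2 / 2)),
    Sum.elim (fun t => θ t.1 - θ t.2) (fun t => θ t.1 - θ t.2 + 1 / 2), fun b => ?_, ?_, ?_⟩
  · have e1 : ((if Even b then (0 : ℝ) else 1 : ℝ) : ℂ) = (1 - ee (1 / 2 * b)) / 2 := by
      rw [nu_par]; split_ifs <;> norm_num
    rw [Complex.ofReal_mul, nu_sq, e1, sum_disjSum]
    simp only [Sum.elim_inl, Sum.elim_inr]
    have e2 : ∑ t ∈ P ×ˢ P, ((-(c t.1 * c t.2 / 2) : ℝ) : ℂ) * ee ((θ t.1 - θ t.2 + 1 / 2) * b) =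
        (∑ t ∈ P ×ˢ P, ((c t.1 * c t.2 : ℝ) : ℂ) * ee ((θ t.1 - θ t.2) * b)) *
          (-ee (1 / 2 * b) / 2) := by
      rw [sum_mul]
      refine sum_congr rfl fun t _ => ?_
      rw [add_mul, ee_add]; push_cast; ring
    have e3 : (((∑ i ∈ P, c i ^ 2) / 2 : ℝ) : ℂ) +
        ∑ t ∈ P.offDiag, ((c t.1 * c t.2 / 2 : ℝ) : ℂ) * ee ((θ t.1 - θ t.2) * b) =
        (∑ t ∈ P ×ˢ P, ((c t.1 * c t.2 : ℝ) : ℂ) * ee ((θ t.1 - θ t.2) * b)) / 2 := by
      rw [nu_split, add_div, sum_div (s := P.offDiag)]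
      congr 1
      · push_cast
        congr 1
        exact sum_congr rfl fun i _ => by simp [sq]
      · exact sum_congr rfl fun t _ => by push_cast; ring
    rw [← add_assoc, e2, e3]
    ring
  · rw [sum_disjSum]
    simp only [Sum.elim_inl, Sum.elim_inr, abs_neg]
    have e1 : ∑ t ∈ P ×ˢ P, |c t.1 * c t.2 / 2| = (∑ i ∈ P, |c i|) ^ 2 / 2 := by
      rw [sq, sum_mul_sum, ← sum_product', sum_div]
      exact sum_congr rfl fun t _ => by rw [abs_div, abs_mul, abs_two]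
    have e2 : ∑ i ∈ P, |c i * c i / 2| = (∑ i ∈ P, c i ^ 2) / 2 := by
      rw [sum_div]
      exact sum_congr rfl fun i _ => by rw [abs_div, abs_mul_self, abs_two, sq]
    have e3 := nu_split P fun t => |c t.1 * c t.2 / 2|
    simp only [e2] at e3
    linarith
  · rintro (t | t) ht k
    · have := mem_offDiag.1 (inl_mem_disjSum.1 ht)
      exact h1 _ this.1 _ this.2.1 this.2.2 k
    · have := mem_product.1 (inr_mem_disjSum.1 ht)
      exact h2 _ this.1 _ this.2 k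

theorem nu_sep {n : ℤ} (hn : n ≠ 0) {M Y x : ℝ} (hM : 0 < M) (hY : M ≤ Y) (h : x * M = n) :
    1 / Y ≤ |x| := by
  have h1 : (1 : ℝ) ≤ |(n : ℝ)| := by exact_mod_cast Int.one_le_abs hn
  rw [← h, abs_mul, abs_of_pos hM] at h1
  rw [div_le_iff₀ (hM.trans_le hY)]
  exact h1.trans (mul_le_mul_of_nonneg_left hY (abs_nonneg x))

theorem nu_uniq {q q' r r' : ℕ} (hr : r ∈ red q) (hr' : r' ∈ red q') (k : ℤ)
    (h : k * q * q' - r * q' + r' * q = 0) : q = q' ∧ r = r' := by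
  simp only [red, mem_filter, mem_range] at hr hr'
  have h1 : q ∣ q' := by
    refine Nat.Coprime.dvd_of_dvd_mul_left hr.2.symm ?_
    exact Int.natCast_dvd_natCast.1 ⟨k * q' + r', by push_cast; linear_combination -h⟩
  have h2 : q' ∣ q := by
    refine Nat.Coprime.dvd_of_dvd_mul_left hr'.2.symm ?_
    exact Int.natCast_dvd_natCast.1 ⟨r - k * q, by push_cast; linear_combination h⟩
  obtain rfl := Nat.dvd_antisymm h1 h2
  refine ⟨rfl, ?_⟩
  have h0 : (q : ℤ) ≠ 0 := by have := hr.1; omega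
  have h3 : (r : ℤ) - r' = q * k := by
    apply mul_right_cancel₀ h0
    linear_combination -h
  have h4 : (r : ℤ) - r' = 0 :=
    Int.eq_zero_of_abs_lt_dvd ⟨k, h3⟩ (by rw [abs_lt]; constructor <;> omega)
  omega

theorem t_NU (hFAR : S_FAR) (hGT : S_GT) : S_NU := by
  classical
  obtain ⟨c0, hc0, hGT⟩ := hGT
  have l2 : 0 < Real.log 2 := Real.log_pos (by norm_num)
  refine ⟨Real.log 2 / c0, by positivity, fun Z hZ => ?_⟩
  have hG := hGT 2 Z le_rfl (by linarith)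
  set Q := (Icc 1 ⌊Z⌋₊).filter (fun q => Squarefree q ∧ Rough 2 q) with hQ
  set G := ∑ q ∈ Q, 1 / (q : ℝ) with hGd
  have hm : ∀ q ∈ Q, 0 < q ∧ (q : ℝ) ≤ Z ∧ Squarefree q ∧ Odd q := fun q hq => by
    rw [hQ, mem_filter, mem_Icc] at hq
    exact ⟨hq.1.1, (Nat.le_floor_iff (by linarith)).1 hq.1.2, hq.2.1, hq.2.2.odd le_rfl⟩
  have h1Q : 1 ∈ Q := by
    rw [hQ, mem_filter, mem_Icc]
    exact ⟨⟨le_rfl, Nat.le_floor (by push_cast; linarith)⟩, squarefree_one, rough_one 2⟩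
  have hG1 : 1 ≤ G := by
    have := single_le_sum (f := fun q : ℕ => 1 / (q : ℝ)) (fun q _ => by positivity) h1Q
    rwa [Nat.cast_one, div_one] at this
  have hG0 : 0 < G := by linarith
  have hmu : ∀ q ∈ Q, ((moebius q : ℤ) : ℝ) ^ 2 = 1 := fun q hq => by
    exact_mod_cast ArithmeticFunction.moebius_sq_eq_one_of_squarefree (hm q hq).2.2.1
  have hsq : ∑ i ∈ Q.sigma red, (((moebius i.1 : ℤ) : ℝ) / (i.1 * G)) ^ 2 ≤ 1 / G := by
    rw [sum_sigma]
    have : 1 / G = ∑ q ∈ Q, 1 / (q : ℝ) / G ^ 2 := by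
      rw [← sum_div, ← hGd]; field_simp
    rw [this]
    refine sum_le_sum fun q hq => ?_
    have h0 : (0 : ℝ) < q := by exact_mod_cast (hm q hq).1
    have h1 : ((red q).card : ℝ) ≤ q := by exact_mod_cast card_red_le q
    simp only [sum_const, nsmul_eq_mul, div_pow, hmu q hq]
    calc ((red q).card : ℝ) * (1 / (q * G) ^ 2) ≤ q * (1 / (q * G) ^ 2) := by gcongr
      _ = _ := by field_simp
  have hab : ∑ i ∈ Q.sigma red, |((moebius i.1 : ℤ) : ℝ) / (i.1 * G)| ≤ Z := by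
    rw [sum_sigma]
    have h2 : (Q.card : ℝ) ≤ Z := by
      have : Q.card ≤ ⌊Z⌋₊ := (card_filter_le _ _).trans (by simp)
      exact le_trans (by exact_mod_cast this) (Nat.floor_le (by linarith))
    refine le_trans ?_ h2
    rw [card_eq_sum_ones, Nat.cast_sum]
    refine sum_le_sum fun q hq => ?_
    have h0 : (0 : ℝ) < q := by exact_mod_cast (hm q hq).1
    have h1 : ((red q).card : ℝ) ≤ q := by exact_mod_cast card_red_le q
    have h3 : |((moebius q : ℤ) : ℝ)| = 1 := by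
      rw [← sq_eq_sq₀ (abs_nonneg _) zero_le_one, sq_abs, hmu q hq, one_pow]
    simp only [sum_const, nsmul_eq_mul, abs_div, h3, abs_of_pos (mul_pos h0 hG0), Nat.cast_one]
    calc ((red q).card : ℝ) * (1 / (q * G)) ≤ q * (1 / (q * 1)) := by gcongr
      _ = 1 := by field_simp
  have hprod : ∀ q ∈ Q, ∀ q' ∈ Q, (q : ℝ) * q' ≤ Z ^ 2 := fun q hq q' hq' => by
    rw [sq]
    exact mul_le_mul (hm q hq).2.1 (hm q' hq').2.1 (by positivity) (by linarith)
  refine ⟨_, _, nu_abs (Q.sigma red) (fun i => ((moebius i.1 : ℤ) : ℝ) / (i.1 * G))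
    (fun i => (i.2 : ℝ) / i.1) _ _ ?_ ?_ ?_ ?_, ?_, fun b hb => ?_⟩
  · rintro ⟨q, r⟩ hi ⟨q', r'⟩ hj hne k
    rw [mem_sigma] at hi hj
    have h0 : (0 : ℝ) < q := by exact_mod_cast (hm q hi.1).1
    have h0' : (0 : ℝ) < q' := by exact_mod_cast (hm q' hj.1).1
    refine nu_sep (n := k * q * q' - r * q' + r' * q) (fun e => hne ?_) (mul_pos h0 h0')
      ((hprod q hi.1 q' hj.1).trans (by nlinarith [sq_nonneg Z])) (by push_cast; field_simp; ring)
    obtain ⟨rfl, rfl⟩ := nu_uniq hi.2 hj.2 k e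
    rfl
  · rintro ⟨q, r⟩ hi ⟨q', r'⟩ hj k
    rw [mem_sigma] at hi hj
    have h0 : (0 : ℝ) < q := by exact_mod_cast (hm q hi.1).1
    have h0' : (0 : ℝ) < q' := by exact_mod_cast (hm q' hj.1).1
    refine nu_sep (n := 2 * (k * q * q' - r * q' + r' * q) - q * q') (M := 2 * (q * q'))
      (fun e => ?_) (by positivity) (by linarith [hprod q hi.1 q' hj.1])
      (by push_cast; field_simp; ring)
    obtain ⟨t, ht⟩ := (hm q hi.1).2.2.2.mul (hm q' hj.1).2.2.2
    have ht' : (q : ℤ) * q' = 2 * t + 1 := by exact_mod_cast ht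
    rw [ht'] at e
    omega
  · have : 1 / G ≤ 1 := by rw [div_le_one hG0]; exact hG1
    linarith
  · exact pow_le_pow_left₀ (sum_nonneg fun _ _ => abs_nonneg _) hab 2
  · have lZ : 0 < Real.log Z := Real.log_pos (by linarith)
    have h1 : 1 / G ≤ Real.log 2 / c0 / Real.log Z := by
      rw [div_le_iff₀ l2] at hG
      rw [div_div, div_le_div_iff₀ hG0 (by positivity)]
      linarith
    have h2 : 0 < 1 / G := by positivity
    linarith
  · have hodd : ¬ Even (b : ℤ) := by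
      rw [Int.even_coe_nat, Nat.not_even_iff_odd]; exact hb.odd hZ
    have e : ∑ i ∈ Q.sigma red, ((((moebius i.1 : ℤ) : ℝ) / (i.1 * G) : ℝ) : ℂ) *
        ee ((i.2 : ℝ) / i.1 * ((b : ℤ) : ℝ)) = ((∑ q ∈ Q, 1 / (q : ℝ) / G : ℝ) : ℂ) := by
      rw [sum_sigma, Complex.ofReal_sum]
      refine sum_congr rfl fun q hq => ?_
      simp only [Int.cast_natCast]
      rw [← mul_sum, hFAR.2.2 q b (hm q hq).1 (hb.coprime_of_le (hm q hq).1 (hm q hq).2.1),
        ← Complex.ofReal_intCast, ← Complex.ofReal_mul]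
      congr 1
      rw [div_mul_eq_mul_div, ← sq, hmu q hq, div_div]
    simp only [if_neg hodd, mul_one]
    rw [e, ← sum_div, ← hGd, div_self hG0.ne']
    simp

theorem t_RC (hNU : S_NU) : S_RC := by
  obtain ⟨C, hC, hNU⟩ := hNU
  refine ⟨2 * C + 1, by positivity, fun z x H S hz hH hS => ?_⟩
  obtain ⟨ν, nb, ⟨h0, -, hnb, -, ι, s, d, lam, e, hD, hδ⟩, hn, h1⟩ := hNU z hz
  have lz : 0 < Real.log z := Real.log_pos (by linarith)
  have lz' : Real.log z ≤ z := (Real.log_le_sub_one_of_pos (by linarith)).trans (by linarith)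
  have hH1 : 1 ≤ H := le_trans (one_le_pow₀ (by linarith)) hH
  set y := max x 0 with hy
  have y0 : 0 ≤ y := le_max_right _ _
  have hsub : S ⊆ Ioc ⌊y⌋₊ ⌊y + H⌋₊ := fun m hm => by
    obtain ⟨a1, a2, a3⟩ := hS m hm
    have a4 : (0 : ℝ) < m := by exact_mod_cast a3.pos hz
    exact mem_Ioc.2 ⟨(Nat.floor_lt y0).2 (max_lt a1 a4),
      Nat.le_floor (a2.trans (by linarith [le_max_left x 0]))⟩
  have hcard : ((Ioc ⌊y⌋₊ ⌊y + H⌋₊).card : ℝ) ≤ 2 * H := by
    rw [Nat.card_Ioc, Nat.cast_sub (Nat.floor_le_floor (by linarith))]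
    have a1 := Nat.floor_le (show 0 ≤ y + H by linarith)
    have a2 := Nat.lt_floor_add_one y
    linarith
  generalize ⌊y⌋₊ = a at hsub hcard
  generalize ⌊y + H⌋₊ = b at hsub hcard
  have s1 : (S.card : ℝ) ≤ ∑ m ∈ Ioc a b, ν m := by
    calc (S.card : ℝ) = ∑ m ∈ S, ν m := by
          rw [card_eq_sum_ones, Nat.cast_sum]
          exact sum_congr rfl fun m hm => by rw [h1 m (hS m hm).2.2, Nat.cast_one]
      _ ≤ _ := sum_le_sum_of_subset_of_nonneg hsub fun m _ _ => h0 m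
  have s2 : ((∑ m ∈ Ioc a b, ν m : ℝ) : ℂ) = (((Ioc a b).card * nb : ℝ) : ℂ) +
      ∑ i ∈ s, (d i : ℂ) * ∑ m ∈ Ioc a b, ee (m * lam i) := by
    rw [Complex.ofReal_sum]
    simp only [e, sum_add_distrib, sum_const, nsmul_eq_mul, mul_sum, Int.cast_natCast]
    rw [sum_comm]
    push_cast
    simp only [mul_comm]
  have s3 : ∑ m ∈ Ioc a b, ν m ≤ (Ioc a b).card * nb + ∑ i ∈ s, |d i| * z ^ 2 := by
    refine (le_abs_self _).trans ?_
    rw [← Real.norm_eq_abs, ← Complex.norm_real, s2]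
    refine (norm_add_le _ _).trans (add_le_add ?_ ((norm_sum_le _ _).trans ?_))
    · rw [Complex.norm_real, Real.norm_of_nonneg (by positivity)]
    · refine sum_le_sum fun i hi => ?_
      rw [norm_mul, Complex.norm_real, Real.norm_eq_abs]
      refine mul_le_mul_of_nonneg_left ?_ (abs_nonneg _)
      have a1 : 1 / (2 * z ^ 2) ≤ nn (lam i) := by
        rw [nn, abs_sub_comm]; exact hδ i hi _
      have a2 : 0 < 1 / (2 * z ^ 2) := by positivity
      refine (geom_bound (a2.trans_le a1) a b).trans ?_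
      rw [div_le_iff₀ (by positivity)] at a1
      rw [div_le_iff₀ (by linarith [a2.trans_le (show 1 / (2 * z ^ 2) ≤ nn (lam i) by
        rw [nn, abs_sub_comm]; exact hδ i hi _)])]
      linarith
  rw [← sum_mul] at s3
  have s4 : (∑ i ∈ s, |d i|) * z ^ 2 ≤ H / Real.log z := by
    rw [le_div_iff₀ lz]
    calc (∑ i ∈ s, |d i|) * z ^ 2 * Real.log z ≤ z ^ 2 * z ^ 2 * z := by
          gcongr
          linarith
      _ = z ^ 5 := by ring
      _ ≤ H := hH
  have s5 : ((Ioc a b).card : ℝ) * nb ≤ 2 * H * (C / Real.log z) :=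
    mul_le_mul hcard hn hnb (by linarith)
  have s6 : (2 * C + 1) * H / Real.log z = 2 * H * (C / Real.log z) + H / Real.log z := by ring
  linarith

end Pool.Agent.P.MP_8be758_nt.Avg
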