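import Pool.Agent.P.MP_8be758_nt.Avg.Basic

/-! One nonzero frequency via the double large sieve. -/

namespace Pool.Agent.P.MP_8be758_nt.Avg

open Finset Real Filter Topology
open Pool.Agent.P.MP_e86632_nt (ee)

theorem osc1_sqrt_le {A : ℝ} {S : Finset ℕ} (h : Rng A S) {a : ℕ} (ha : a ∈ S) :
    √(a : ℝ) ≤ √(5 / 4 * A) := Real.sqrt_le_sqrt (h a ha).2

theorem osc1_sep {A : ℝ} {S : Finset ℕ} (h : Rng A S) (hA : 0 < A) {μ : ℕ}
    (hc : ∀ a ∈ S, ∀ a' ∈ S, (a : ℤ) ≡ a' [ZMOD 2 * μ]) {a a' : ℕ} (ha : a ∈ S) (ha' : a' ∈ S)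
    (hne : a ≠ a') : μ / √(5 / 4 * A) ≤ |√(a : ℝ) - √(a' : ℝ)| := by
  have h1 : (2 * μ : ℤ) ≤ |(a' : ℤ) - a| :=
    Int.le_of_dvd (abs_pos.2 (by omega)) ((dvd_abs _ _).2 (hc a ha a' ha').dvd)
  have h2 : (2 * μ : ℝ) ≤ |(a' : ℝ) - a| := by exact_mod_cast h1
  have h3 : (a' : ℝ) - a = (√(a' : ℝ) - √(a : ℝ)) * (√(a' : ℝ) + √(a : ℝ)) := by
    have e1 := Real.mul_self_sqrt (Nat.cast_nonneg (α := ℝ) a)
    have e2 := Real.mul_self_sqrt (Nat.cast_nonneg (α := ℝ) a')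
    linarith
  rw [h3, abs_mul, abs_sub_comm, abs_of_nonneg (by positivity : 0 ≤ √(a' : ℝ) + √(a : ℝ))] at h2
  rw [div_le_iff₀ (by positivity)]
  have h4 := osc1_sqrt_le h ha
  have h5 := osc1_sqrt_le h ha'
  have h6 := abs_nonneg (√(a : ℝ) - √(a' : ℝ))
  nlinarith

theorem osc1_mono {I J : Finset ℕ} {Kr : ℕ → ℕ → ℂ} {D D' : ℝ} (h : BB I J Kr D) (hD : D ≤ D') :
    BB I J Kr D' := fun u v => (h u v).trans (by gcongr)

theorem osc1_dls (hDLS : S_DLS) : ∃ C : ℝ, 0 < C ∧ ∀ (A ξ : ℝ) (μ : ℕ) (S S' : Finset ℕ),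
    0 < A → ξ ≠ 0 → 0 < μ → Rng A S → Rng A S' →
    (∀ a ∈ S, ∀ a' ∈ S, (a : ℤ) ≡ a' [ZMOD 2 * μ]) →
    (∀ a ∈ S', ∀ a' ∈ S', (a : ℤ) ≡ a' [ZMOD 2 * μ]) →
    BB S S' (fun a b => ee (2 * ξ * √(a : ℝ) / (μ : ℝ) ^ 2 * √(b : ℝ)))
      (C * ((1 + 2 * √|ξ| * √A / μ) * (1 + μ / |ξ|))) := by
  obtain ⟨C, hC, h⟩ := hDLS
  refine ⟨C, hC, fun A ξ μ S S' hA hξ hμ hS hS' hc hc' => ?_⟩
  have ht : 0 < |ξ| := abs_pos.2 hξ
  have hμ' : (0 : ℝ) < μ := by exact_mod_cast hμ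
  have hY : 0 < √(5 / 4 * A) := by positivity
  have hY2 : √(5 / 4 * A) * √(5 / 4 * A) = 5 / 4 * A := Real.mul_self_sqrt (by positivity)
  have e1 : ∀ u : ℝ, |2 * ξ * u / (μ : ℝ) ^ 2| = 2 * |ξ| / (μ : ℝ) ^ 2 * |u| := fun u => by
    rw [abs_div, abs_mul, abs_mul, abs_two, abs_of_pos (by positivity : (0 : ℝ) < (μ : ℝ) ^ 2)]
    ring
  refine osc1_mono (h S S' (fun a => 2 * ξ * √(a : ℝ) / (μ : ℝ) ^ 2) (fun a => √(a : ℝ))
    (2 * |ξ| / (μ : ℝ) ^ 2 * √(5 / 4 * A)) (√(5 / 4 * A))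
    (2 * |ξ| / (μ : ℝ) ^ 2 * (μ / √(5 / 4 * A))) (μ / √(5 / 4 * A)) (by positivity) hY
    (by positivity) (by positivity) (fun a ha => ?_) (fun a ha => ?_) (fun a ha a' ha' hne => ?_)
    fun a ha a' ha' hne => osc1_sep hS' hA hc' ha ha' hne) ?_
  · rw [e1, abs_of_nonneg (Real.sqrt_nonneg _)]
    exact mul_le_mul_of_nonneg_left (osc1_sqrt_le hS ha) (by positivity)
  · rw [abs_of_nonneg (Real.sqrt_nonneg _)]
    exact osc1_sqrt_le hS' ha
  · rw [← sub_div, ← mul_sub, e1]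
    exact mul_le_mul_of_nonneg_left (osc1_sep hS hA hc ha ha' hne) (by positivity)
  · refine mul_le_mul_of_nonneg_left (Real.sqrt_le_iff.2 ⟨by positivity, ?_⟩) hC.le
    have e2 : 1 / (√(5 / 4 * A) * (2 * |ξ| / (μ : ℝ) ^ 2 * (μ / √(5 / 4 * A)))) =
        μ / |ξ| / 2 := by field_simp
    have e3 : 1 / (2 * |ξ| / (μ : ℝ) ^ 2 * √(5 / 4 * A) * (μ / √(5 / 4 * A))) =
        μ / |ξ| / 2 := by field_simp
    have e4 : (2 * √|ξ| * √A / μ) ^ 2 = 4 * (|ξ| * A / (μ : ℝ) ^ 2) := by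
      rw [div_pow, mul_pow, mul_pow, Real.sq_sqrt ht.le, Real.sq_sqrt hA.le]
      ring
    have e5 : 2 * |ξ| / (μ : ℝ) ^ 2 * √(5 / 4 * A) * √(5 / 4 * A) =
        5 / 2 * (|ξ| * A / (μ : ℝ) ^ 2) := by
      rw [mul_assoc, hY2]
      ring
    rw [e2, e3, e5, mul_pow, mul_assoc, ← sq]
    have p1 : 0 < μ / |ξ| := by positivity
    have p2 : 0 < 2 * √|ξ| * √A / μ := by positivity
    have p3 : 0 < |ξ| * A / (μ : ℝ) ^ 2 := by positivity
    refine mul_le_mul (by nlinarith) (by nlinarith) (by positivity) (by positivity)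

theorem osc1_nsq {S : Finset ℕ} {α : ℕ → ℝ} (hα : ∀ a, |α a| ≤ 1) (t : ℕ → ℝ) :
    nsq S (fun a => (α a : ℂ) * ee (t a)) ≤ S.card := by
  rw [nsq, card_eq_sum_ones, Nat.cast_sum]
  refine sum_le_sum fun a _ => ?_
  rw [norm_mul, Pool.Agent.P.MP_e86632_nt.norm_ee, mul_one, Complex.norm_real, Real.norm_eq_abs,
    Nat.cast_one]
  exact pow_le_one₀ (abs_nonneg _) (hα a)

theorem osc1_cg {μ a c : ℕ} (h : a % (2 * μ) = c) (b : ℕ) : Cg μ a b ↔ Cg μ c b := by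
  have h1 : (c : ℤ) ≡ a [ZMOD 2 * μ] := by
    rw [← h]
    push_cast
    exact Int.mod_modEq _ _
  exact ⟨fun h2 => ((Int.ModEq.refl _).sub h1).trans h2,
    fun h2 => ((Int.ModEq.refl _).sub h1.symm).trans h2⟩

theorem osc1_card (I : Finset ℕ) (μ : ℕ) :
    ∑ c ∈ range (2 * μ), (I.filter fun b => Cg μ c b).card ≤ I.card := by
  simp only [card_filter]
  rw [sum_comm, card_eq_sum_ones]
  refine sum_le_sum fun b _ => ?_
  rw [← card_filter]
  refine card_le_one.2 fun c hc c' hc' => ?_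
  obtain ⟨h1, h2⟩ := mem_filter.1 hc
  obtain ⟨h3, h4⟩ := mem_filter.1 hc'
  have h5 : (c : ℤ) ≡ c' [ZMOD 2 * μ] := by
    simpa using (Int.ModEq.refl (b : ℤ)).sub (h2.trans h4.symm)
  have h6 : c ≡ c' [MOD 2 * μ] := Int.natCast_modEq_iff.1 (by exact_mod_cast h5)
  exact Nat.ModEq.eq_of_lt_of_lt h6 (mem_range.1 h1) (mem_range.1 h3)

theorem osc1_mu (hDLS : S_DLS) (hSEP : S_SEP) : ∃ C : ℝ, 0 < C ∧
    ∀ (A B K ξ : ℝ) (μ : ℕ) (I : Finset ℕ) (α : ℕ → ℝ), 1 ≤ A → 0 < B → 0 < K → 0 < μ → Rng A I →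
    (∀ a, |α a| ≤ 1) → ξ ≠ 0 →
    ‖∑ a1 ∈ I, ∑ a2 ∈ I.filter (fun a2 => Cg μ a1 a2),
      ((α a1 * α a2 * (psi B (sg a1 a2 ^ 2 / (μ : ℝ) ^ 2) * (K / √((a1 : ℝ) * a2)) *
        gs (ξ * K / √((a1 : ℝ) * a2))) : ℝ) : ℂ) * ee (-(ξ * (sg a1 a2 ^ 2 / (μ : ℝ) ^ 2)))‖ ≤
      C * K * gs (ξ * K / (2 * A)) *
        (min 1 (A / (B * (μ : ℝ) ^ 2)) * ((1 + 2 * √|ξ| * √A / μ) * (1 + μ / |ξ|))) := by
  obtain ⟨C1, hC1, h1⟩ := osc1_dls hDLS
  obtain ⟨C2, hC2, h2⟩ := hSEP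
  refine ⟨2 * C1 * C2, by positivity, fun A B K ξ μ I α hA hB hK hμ hI hα hξ => ?_⟩
  have hA0 : 0 < A := by linarith
  have ht : 0 < |ξ| := abs_pos.2 hξ
  have hμ' : (0 : ℝ) < μ := by exact_mod_cast hμ
  have hg := gs_pos (ξ * K / (2 * A))
  have hm : 0 ≤ min 1 (A / (B * (μ : ℝ) ^ 2)) := le_min zero_le_one (by positivity)
  set E := C2 * min 1 (A / (B * (μ : ℝ) ^ 2)) * (K / A) * gs (ξ * K / (2 * A)) *
    (C1 * ((1 + 2 * √|ξ| * √A / μ) * (1 + μ / |ξ|))) with hE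
  have hE0 : 0 ≤ E := by positivity
  rw [← sum_fiberwise_of_maps_to (g := fun a => a % (2 * μ)) (t := range (2 * μ))
    fun a _ => mem_range.2 (Nat.mod_lt _ (by omega))]
  refine (norm_sum_le _ _).trans (le_trans (b := ∑ c ∈ range (2 * μ), E / 2 *
    (((I.filter fun a => a % (2 * μ) = c).card : ℝ) + (I.filter fun b => Cg μ c b).card))
    (sum_le_sum fun c _ => ?_) ?_)
  · have r1 : Rng A (I.filter fun a => a % (2 * μ) = c) := fun a ha => hI a (mem_filter.1 ha).1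
    have r2 : Rng A (I.filter fun b => Cg μ c b) := fun a ha => hI a (mem_filter.1 ha).1
    have h3 := h2 A B K ξ μ _ _ _ _ hA0 hB hK hμ' (by positivity) r1 r2
      (h1 A ξ μ _ _ hA0 hξ hμ r1 r2 (fun a ha a' ha' => by
        have : a ≡ a' [MOD 2 * μ] := (mem_filter.1 ha).2.trans (mem_filter.1 ha').2.symm
        exact_mod_cast Int.natCast_modEq_iff.2 this) fun a ha a' ha' => by
        simpa using ((mem_filter.1 ha).2.trans (mem_filter.1 ha').2.symm).add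
          (Int.ModEq.refl (c : ℤ)))
      (fun a => (α a : ℂ) * ee (-(ξ * a / (μ : ℝ) ^ 2)))
      fun a => (α a : ℂ) * ee (-(ξ * a / (μ : ℝ) ^ 2))
    rw [← hE] at h3
    refine le_trans (le_of_eq ?_) (h3.trans ?_)
    · congr 1
      refine sum_congr rfl fun a ha => ?_
      rw [filter_congr fun b _ => osc1_cg (mem_filter.1 ha).2 b]
      refine sum_congr rfl fun b _ => ?_
      have e : -(ξ * (sg a b ^ 2 / (μ : ℝ) ^ 2)) = -(ξ * a / (μ : ℝ) ^ 2) +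
          -(ξ * b / (μ : ℝ) ^ 2) + 2 * ξ * √(a : ℝ) / (μ : ℝ) ^ 2 * √(b : ℝ) := by
        rw [sg, sub_sq, Real.sq_sqrt (Nat.cast_nonneg a), Real.sq_sqrt (Nat.cast_nonneg b)]
        ring
      rw [e, Pool.Agent.P.MP_e86632_nt.ee_add, Pool.Agent.P.MP_e86632_nt.ee_add]
      push_cast
      ring
    · have n1 := Real.sqrt_le_sqrt (osc1_nsq (S := I.filter fun a => a % (2 * μ) = c) hα
        fun a => -(ξ * a / (μ : ℝ) ^ 2))
      have n2 := Real.sqrt_le_sqrt (osc1_nsq (S := I.filter fun b => Cg μ c b) hα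
        fun a => -(ξ * a / (μ : ℝ) ^ 2))
      have s1 := Real.sq_sqrt (Nat.cast_nonneg (α := ℝ) (I.filter fun a => a % (2 * μ) = c).card)
      have s2 := Real.sq_sqrt (Nat.cast_nonneg (α := ℝ) (I.filter fun b => Cg μ c b).card)
      calc _ ≤ E * √((I.filter fun a => a % (2 * μ) = c).card : ℝ) *
            √((I.filter fun b => Cg μ c b).card : ℝ) := by gcongr
        _ ≤ _ := by
          rw [mul_assoc, div_mul_eq_mul_div, mul_div_assoc]
          refine mul_le_mul_of_nonneg_left ?_ hE0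
          nlinarith [sq_nonneg (√((I.filter fun a => a % (2 * μ) = c).card : ℝ) -
            √((I.filter fun b => Cg μ c b).card : ℝ))]
  · rw [← mul_sum, sum_add_distrib, ← Nat.cast_sum, ← Nat.cast_sum,
      ← card_eq_sum_card_fiberwise (f := fun a => a % (2 * μ))
        fun a _ => mem_coe.2 (mem_range.2 (Nat.mod_lt _ (by omega)))]
    have c1 : ((∑ c ∈ range (2 * μ), (I.filter fun b => Cg μ c b).card : ℕ) : ℝ) ≤ I.card := by
      exact_mod_cast osc1_card I μ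
    have c2 := hI.card_le hA
    calc _ ≤ E / 2 * (4 * A) := mul_le_mul_of_nonneg_left (by linarith) (by positivity)
      _ = _ := by rw [hE]; field_simp; ring

theorem osc1_min {J : ℝ} (hJ : 1 ≤ J) (n : ℕ) :
    ∑ μ ∈ Ioc 0 n, min 1 (J ^ 2 / (μ : ℝ) ^ 2) ≤ 4 * J * (n / (n + J)) := by
  induction n with
  | zero => simp
  | succ n ih =>
    rw [sum_Ioc_succ_top (Nat.zero_le n)]
    have hn : (0 : ℝ) ≤ n := Nat.cast_nonneg n
    push_cast
    have e : 4 * J * ((n + 1) / (n + 1 + J)) =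
        4 * J * (n / (n + J)) + 4 * J ^ 2 / ((n + J) * (n + 1 + J)) := by
      field_simp
      ring
    rw [e]
    refine add_le_add ih ?_
    rcases le_total J (n + 1) with h | h
    · refine (min_le_right _ _).trans ?_
      rw [div_le_div_iff₀ (by positivity) (by positivity)]
      have : (n + J) * (n + 1 + J) ≤ 4 * ((n : ℝ) + 1) ^ 2 := by nlinarith
      nlinarith [sq_nonneg J]
    · refine (min_le_left _ _).trans ?_
      rw [le_div_iff₀ (by positivity)]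
      nlinarith

theorem t_OSC1 (hDLS : S_DLS) (hSEP : S_SEP) : S_OSC1 := by
  obtain ⟨C, hC, h⟩ := osc1_mu hDLS hSEP
  refine ⟨8 * C, by positivity, fun A B K ξ n0 I α hB hBA hK hn hI hα hξ => ?_⟩
  have hA : 1 ≤ A := hB.trans hBA
  have hA0 : 0 < A := by linarith
  have hB0 : 0 < B := by linarith
  have ht : 0 < |ξ| := abs_pos.2 hξ
  have hg := gs_pos (ξ * K / (2 * A))
  have e : osc α I B K n0 ξ = ∑ μ ∈ Ioc 0 n0, ∑ a1 ∈ I, ∑ a2 ∈ I.filter (fun a2 => Cg μ a1 a2),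
      ((α a1 * α a2 * (psi B (sg a1 a2 ^ 2 / (μ : ℝ) ^ 2) * (K / √((a1 : ℝ) * a2)) *
        gs (ξ * K / √((a1 : ℝ) * a2))) : ℝ) : ℂ) * ee (-(ξ * (sg a1 a2 ^ 2 / (μ : ℝ) ^ 2))) := by
    rw [osc, show Ioc 0 n0 = Icc 1 n0 from by ext; simp; omega, sum_comm (s := Icc 1 n0)]
    refine sum_congr rfl fun a1 _ => ?_
    simp only [sum_filter]
    exact sum_comm
  set J := √A / √B with hJ
  have sA := Real.mul_self_sqrt hA0.le
  have sB := Real.mul_self_sqrt hB0.le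
  have st := Real.mul_self_sqrt ht.le
  have pA : 0 < √A := by positivity
  have pB : 0 < √B := by positivity
  have pt : 0 < √|ξ| := by positivity
  have hJ1 : 1 ≤ J := by rw [hJ, le_div_iff₀ pB, one_mul]; exact Real.sqrt_le_sqrt hBA
  have hJ2 : J ^ 2 = A / B := by rw [hJ, div_pow, Real.sq_sqrt hA0.le, Real.sq_sqrt hB0.le]
  have hL : 0 ≤ Real.log A := Real.log_nonneg hA
  have s1 : ∑ μ ∈ Ioc 0 n0, min 1 (J ^ 2 / (μ : ℝ) ^ 2) ≤ 4 * J :=
    (osc1_min hJ1 n0).trans (mul_le_of_le_one_right (by positivity)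
      (div_le_one_of_le₀ (by linarith) (by positivity)))
  have s2 : ∑ μ ∈ Ioc 0 n0, 1 / (μ : ℝ) ≤ 3 * (1 + Real.log A) := by
    refine (Pool.Agent.P.MP_e86632_nt.sum_inv_le n0).trans ?_
    have : Real.log n0 ≤ 2 + Real.log A := by
      rcases Nat.eq_zero_or_pos n0 with rfl | h0
      · simp only [Nat.cast_zero, Real.log_zero]; linarith
      · have a1 := Real.log_le_log (by exact_mod_cast h0) hn
        have a2 := Real.log_le_sub_one_of_pos (show (0 : ℝ) < 3 by norm_num)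
        rw [Real.log_mul (by norm_num) hA0.ne'] at a1
        linarith
    linarith
  rw [e]
  calc _ ≤ ∑ μ ∈ Ioc 0 n0, C * K * gs (ξ * K / (2 * A)) *
        ((1 + 2 * (√A / √|ξ|)) * min 1 (J ^ 2 / (μ : ℝ) ^ 2) +
          (A / B / |ξ| + 2 * (√|ξ| * √A)) * (1 / (μ : ℝ))) := by
        refine (norm_sum_le _ _).trans (sum_le_sum fun μ hμ => ?_)
        have hμ0 := (mem_Ioc.1 hμ).1
        have hμ' : (0 : ℝ) < μ := by exact_mod_cast hμ0
        refine (h A B K ξ μ I α hA hB0 hK hμ0 hI hα hξ).trans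
          (mul_le_mul_of_nonneg_left ?_ (by positivity))
        rw [hJ2, div_div]
        set m := min 1 (A / (B * (μ : ℝ) ^ 2)) with hm
        have m1 : m ≤ 1 := min_le_left _ _
        have m2 : m ≤ A / (B * (μ : ℝ) ^ 2) := min_le_right _ _
        have e1 : (1 + 2 * √|ξ| * √A / μ) * (1 + μ / |ξ|) =
            (1 + 2 * (√A / √|ξ|)) + μ / |ξ| + 2 * (√|ξ| * √A) * (1 / (μ : ℝ)) := by
          have : √A / √|ξ| = √|ξ| * √A / |ξ| := by
            rw [div_eq_div_iff pt.ne' ht.ne']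
            nlinarith
          rw [this]
          field_simp
          ring
        have b1 : m * (μ / |ξ|) ≤ A / B / |ξ| * (1 / (μ : ℝ)) :=
          (mul_le_mul_of_nonneg_right m2 (by positivity)).trans_eq (by field_simp)
        have b2 : m * (2 * (√|ξ| * √A) * (1 / (μ : ℝ))) ≤ 2 * (√|ξ| * √A) * (1 / (μ : ℝ)) :=
          mul_le_of_le_one_left (by positivity) m1
        rw [e1]
        linarith
    _ ≤ C * K * gs (ξ * K / (2 * A)) * ((1 + 2 * (√A / √|ξ|)) * (4 * J) +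
          (A / B / |ξ| + 2 * (√|ξ| * √A)) * (3 * (1 + Real.log A))) := by
        rw [← mul_sum, sum_add_distrib, ← mul_sum, ← mul_sum]
        gcongr
    _ ≤ C * K * gs (ξ * K / (2 * A)) * (8 * (1 + Real.log A) *
          (A / B * (1 + 1 / |ξ|) + √|ξ| * √A + A / √B / √|ξ|)) := by
        refine mul_le_mul_of_nonneg_left ?_ (by positivity)
        have e2 : √A / √|ξ| * J = A / √B / √|ξ| := by
          rw [hJ]
          field_simp
          nlinarith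
        have e3 : A / B * (1 + 1 / |ξ|) = A / B + A / B / |ξ| := by ring
        have b1 : J ≤ A / B := by nlinarith
        have q1 : 0 < A / B := by positivity
        have q2 : 0 < A / B / |ξ| := by positivity
        have q3 : 0 < √|ξ| * √A := by positivity
        have q4 : 0 < A / √B / √|ξ| := by positivity
        rw [e3]
        nlinarith [mul_nonneg hL q1.le, mul_nonneg hL q2.le, mul_nonneg hL q3.le,
          mul_nonneg hL q4.le]
    _ = _ := by ring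

end Pool.Agent.P.MP_8be758_nt.Avg
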