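import Pool.Agent.P.MP_8be758_nt.Avg.Basic

/-! Periodic coefficients and the type I kernels. -/

namespace Pool.Agent.P.MP_8be758_nt.Avg

open Finset Real Filter Topology
open Pool.Agent.P.MP_e86632_nt (ee)

theorem per0_crt {m n : ℕ} {f g : ℕ → ℝ} (hm : 0 < m) (hn : 0 < n) (hc : m.Coprime n)
    (hf : ∀ a, f (a + m) = f a) (hg : ∀ a, g (a + n) = g a) :
    ∑ a ∈ range (m * n), f a * g a = (∑ a ∈ range m, f a) * ∑ a ∈ range n, g a := by
  have h1 : ∑ a ∈ range (m * n), f a * g a = ∑ z ∈ range m ×ˢ range n, f z.1 * g z.2 := by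
    refine sum_nbij (fun a => (a % m, a % n)) ?_ ?_ ?_ ?_
    · intro a _
      simp [Nat.mod_lt _ hm, Nat.mod_lt _ hn]
    · intro a ha b hb hab
      simp only [Prod.mk.injEq] at hab
      have : a ≡ b [MOD m * n] := (Nat.modEq_and_modEq_iff_modEq_mul hc).1 hab
      simp only [coe_range, Set.mem_Iio] at ha hb
      exact Nat.ModEq.eq_of_lt_of_lt this ha hb
    · rintro ⟨r, s⟩ hz
      simp only [coe_product, coe_range, Set.mem_prod, Set.mem_Iio] at hz
      refine ⟨Nat.chineseRemainder hc r s, ?_, ?_⟩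
      · simpa using Nat.chineseRemainder_lt_mul hc r s hm.ne' hn.ne'
      · have h2 := (Nat.chineseRemainder hc r s).2
        simp only [Prod.mk.injEq]
        exact ⟨Eq.trans h2.1 (Nat.mod_eq_of_lt hz.1), Eq.trans h2.2 (Nat.mod_eq_of_lt hz.2)⟩
    · intro a _
      simp only [Function.Periodic.map_mod_nat (f := f) hf a,
        Function.Periodic.map_mod_nat (f := g) hg a]
  rw [h1, sum_product, ← sum_mul_sum]

theorem per0_shift {m : ℕ} {f : ℕ → ℝ} (hf : ∀ a, f (a + m) = f a) (j a : ℕ) :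
    f (a + m * j) = f a := by
  induction j with
  | zero => simp
  | succ j ih => rw [Nat.mul_succ, ← add_assoc, hf, ih]

theorem per0_rep {m : ℕ} {f : ℕ → ℝ} (hf : ∀ a, f (a + m) = f a) (j : ℕ) :
    ∑ a ∈ range (m * j), f a = j * ∑ a ∈ range m, f a := by
  induction j with
  | zero => simp
  | succ j ih =>
    rw [Nat.mul_succ, sum_range_add, ih]
    have : ∑ x ∈ range m, f (m * j + x) = ∑ x ∈ range m, f x :=
      sum_congr rfl fun x _ => by rw [add_comm, per0_shift hf]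
    rw [this]; push_cast; ring

/-- a periodic function of the polynomial value is periodic in the argument -/
theorem per0_poly {q : ℕ} {G : ℕ → ℝ} (hG : ∀ m, G (m + q) = G m) (k n : ℕ) :
    G ((n + q) ^ 2 + (n + q) + k) = G (n ^ 2 + n + k) := by
  rw [show (n + q) ^ 2 + (n + q) + k = n ^ 2 + n + k + q * (2 * n + q + 1) by ring, per0_shift hG]

theorem per0_rho (k q : ℕ) :
    ∑ n ∈ range q, (if q ∣ n ^ 2 + n + k then (1 : ℝ) else 0) = rho k q := by
  rw [rho, ← sum_filter, sum_const, nsmul_eq_mul, mul_one]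

theorem per0_vr (W k m : ℕ) :
    (vr W k m : ℝ) = ∑ n ∈ range W, if n ^ 2 + n + k ≡ m [MOD W] then (1 : ℝ) else 0 := by
  rw [vr, ← sum_filter, sum_const, nsmul_eq_mul, mul_one]

theorem per0_vr_shift (W k m j : ℕ) : vr W k (m + W * j) = vr W k m := by
  unfold vr
  congr 1
  refine filter_congr fun n _ => ?_
  unfold Nat.ModEq
  rw [Nat.add_mul_mod_self_left]

/-- multiples of `q` in an interval -/
theorem per0_mult {q : ℕ} (hq : 0 < q) (X1 X2 : ℕ) (H : ℕ → ℝ) :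
    ∑ m ∈ (Ioc X1 X2).filter (q ∣ ·), H m = ∑ t ∈ Ioc (X1 / q) (X2 / q), H (t * q) := by
  symm
  refine sum_nbij (fun t => t * q) ?_ ?_ ?_ ?_
  · intro t ht
    rw [mem_Ioc, Nat.div_lt_iff_lt_mul hq, Nat.le_div_iff_mul_le hq] at ht
    exact mem_filter.2 ⟨mem_Ioc.2 ht, dvd_mul_left _ _⟩
  · intro a _ b _ hab
    exact Nat.eq_of_mul_eq_mul_right hq hab
  · intro m hm
    obtain ⟨h1, t, rfl⟩ := mem_filter.1 (mem_coe.1 hm)
    refine ⟨t, ?_, mul_comm _ _⟩
    rw [mem_coe, mem_Ioc, Nat.div_lt_iff_lt_mul hq, Nat.le_div_iff_mul_le hq, mul_comm t]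
    exact mem_Ioc.1 h1
  · intro _ _; rfl

theorem per0_sum {k X1 X2 c1 c2 : ℕ} (h1 : ∀ n, n ^ 2 + n + k ≤ X1 ↔ n < c1)
    (h2 : ∀ n, n ^ 2 + n + k ≤ X2 ↔ n < c2) (G : ℕ → ℝ) :
    ∑ m ∈ Ioc X1 X2, G m * rr k m = ∑ n ∈ Ico c1 c2, G (n ^ 2 + n + k) := by
  have h3 : ∀ n, n ∈ Ico c1 c2 ↔ n ^ 2 + n + k ∈ Ioc X1 X2 := fun n => by
    rw [mem_Ico, mem_Ioc, h2, ← not_le (a := n ^ 2 + n + k), h1, not_lt]
  calc ∑ m ∈ Ioc X1 X2, G m * rr k m
      = ∑ m ∈ Ioc X1 X2, ∑ n ∈ Ico c1 c2, if n ^ 2 + n + k = m then G m else 0 := by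
        refine sum_congr rfl fun m hm => ?_
        rw [rr_eq_sum k m (Ico c1 c2) fun n hn => (h3 n).2 (hn ▸ hm), mul_sum]
        exact sum_congr rfl fun n _ => by rw [mul_ite, mul_one, mul_zero]
    _ = _ := by
        rw [sum_comm]
        exact sum_congr rfl fun n hn => by rw [sum_ite_eq, if_pos ((h3 n).1 hn)]

/-- periodic test functions against `rr` -/
theorem per0_rr (hPS : S_PS) {k X1 X2 q : ℕ} {G : ℕ → ℝ} (hk : 1 ≤ k) (hX : 1 ≤ X1)
    (h12 : X1 ≤ X2) (hq : 0 < q) (hG : ∀ m, G (m + q) = G m) :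
    |∑ m ∈ Ioc X1 X2, G m * rr k m -
        (√(X2 : ℝ) - √(X1 : ℝ)) / q * ∑ n ∈ range q, G (n ^ 2 + n + k)| ≤
      (4 + 2 * (k / (q * √(X1 : ℝ)))) * ∑ n ∈ range q, |G (n ^ 2 + n + k)| := by
  obtain ⟨c1, h1, e1⟩ := hPS.2.2 k X1 hk hX
  obtain ⟨c2, h2, e2⟩ := hPS.2.2 k X2 hk (hX.trans h12)
  have hc : c1 ≤ c2 := by
    by_contra h
    exact lt_irrefl c2 ((h2 c2).1 (((h1 c2).2 (not_le.1 h)).trans h12))
  have h3 := hPS.1 (fun n => G (n ^ 2 + n + k)) q c1 c2 hq hc (per0_poly hG k)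
  rw [per0_sum h1 h2]
  set S := ∑ n ∈ range q, G (n ^ 2 + n + k)
  set T := ∑ n ∈ range q, |G (n ^ 2 + n + k)|
  have hST : |S| ≤ T := abs_sum_le_sum_abs _ _
  have hT : 0 ≤ T := (abs_nonneg _).trans hST
  have hq1 : (1 : ℝ) ≤ q := by exact_mod_cast hq
  have hs1 : 0 < √(X1 : ℝ) := Real.sqrt_pos.2 (by exact_mod_cast hX)
  have hs2 : √(X1 : ℝ) ≤ √(X2 : ℝ) := Real.sqrt_le_sqrt (by exact_mod_cast h12)
  have e3 : (k : ℝ) / √(X2 : ℝ) ≤ k / √(X1 : ℝ) := div_le_div_of_nonneg_left (by positivity) hs1 hs2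
  have e4 : |((c2 : ℝ) - c1) - (√(X2 : ℝ) - √(X1 : ℝ))| ≤ 2 + 2 * (k / √(X1 : ℝ)) := by
    rw [abs_le] at e1 e2 ⊢
    constructor <;> linarith [e1.1, e1.2, e2.1, e2.2]
  have e5 : |((c2 : ℝ) - c1) / q * S - (√(X2 : ℝ) - √(X1 : ℝ)) / q * S| ≤
      (2 + 2 * (k / (q * √(X1 : ℝ)))) * T := by
    rw [← sub_mul, ← sub_div, abs_mul, abs_div, abs_of_pos (by linarith : (0 : ℝ) < q)]
    refine mul_le_mul ?_ hST (abs_nonneg _) (by positivity)
    rw [div_le_iff₀ (by linarith)]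
    refine e4.trans ?_
    have : (2 + 2 * (k / (q * √(X1 : ℝ)))) * q = 2 * q + 2 * (k / √(X1 : ℝ)) := by field_simp
    rw [this]; linarith
  have := abs_sub_le (∑ n ∈ Ico c1 c2, G (n ^ 2 + n + k)) (((c2 : ℝ) - c1) / q * S)
    ((√(X2 : ℝ) - √(X1 : ℝ)) / q * S)
  linarith

/-- periodic coefficients against `md` along multiples of `b` -/
theorem per0_md (hPS : S_PS) {W k b T1 T2 : ℕ} {f : ℕ → ℝ} (hW : 1 ≤ W) (hb : 1 ≤ b)
    (h12 : T1 ≤ T2) (hf : ∀ a, |f a| ≤ 1) (hp : ∀ a, f (a + W) = f a) :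
    |∑ a ∈ Ioc T1 T2, f a * md W k (a * b) - (√(T2 : ℝ) - √(T1 : ℝ)) / (W * √(b : ℝ)) *
      ∑ s ∈ range W, f s * vr W k (s * b)| ≤ 6 * W ^ 2 := by
  have h1 := hPS.2.1 (fun a => f a * vr W k (a * b)) W T1 T2 hW h12 fun a => by
    rw [hp, add_mul, per0_vr_shift]
  have hb1 : 1 ≤ √(b : ℝ) := Real.one_le_sqrt.2 (by exact_mod_cast hb)
  have h2 : ∑ t ∈ range W, |f t * vr W k (t * b)| ≤ W ^ 2 := by
    calc _ ≤ ∑ _t ∈ range W, (W : ℝ) := sum_le_sum fun t _ => by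
          rw [abs_mul, Nat.abs_cast]
          have : (vr W k (t * b) : ℝ) ≤ W := by exact_mod_cast vr_le W k _
          have h0 : (0 : ℝ) ≤ vr W k (t * b) := by positivity
          nlinarith [hf t, abs_nonneg (f t)]
      _ = _ := by rw [sum_const, card_range, nsmul_eq_mul, sq]
  have h3 : ∑ a ∈ Ioc T1 T2, f a * md W k (a * b) - (√(T2 : ℝ) - √(T1 : ℝ)) / (W * √(b : ℝ)) *
      ∑ s ∈ range W, f s * vr W k (s * b) =
      (∑ t ∈ Ioc T1 T2, f t * vr W k (t * b) / (2 * √(t : ℝ)) -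
        (√(T2 : ℝ) - √(T1 : ℝ)) / W * ∑ s ∈ range W, f s * vr W k (s * b)) / √(b : ℝ) := by
    rw [sub_div _ _ (√(b : ℝ)), sum_div]
    congr 1
    · refine sum_congr rfl fun a _ => ?_
      rw [md, Nat.cast_mul, Real.sqrt_mul (Nat.cast_nonneg a)]
      ring
    · ring
  rw [h3, abs_div, abs_of_pos (by linarith : 0 < √(b : ℝ))]
  refine (div_le_self (abs_nonneg _) hb1).trans (h1.trans (by linarith))

theorem t_PER0 (hPS : S_PS) : S_PER0 := by
  refine ⟨6, by norm_num, fun W k b A1 A2 f hW hk hb hc hA h12 hf hp => ?_⟩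
  set v : ℕ → ℝ := fun m => ∑ s ∈ range W, if m ≡ s * b [MOD W] then f s else 0 with hv
  set u : ℕ → ℝ := fun m => if b ∣ m then 1 else 0 with hu
  have hvp : ∀ m, v (m + W) = v m := fun m => sum_congr rfl fun s _ =>
    if_congr (by simp only [Nat.ModEq, Nat.add_mod_right]) rfl rfl
  have hup : ∀ m, u (m + b) = u m := fun m => by simp only [hu, Nat.dvd_add_self_right]
  have hvb : ∀ m, |v m| ≤ W := fun m => by
    calc |v m| ≤ ∑ s ∈ range W, |if m ≡ s * b [MOD W] then f s else 0| := abs_sum_le_sum_abs _ _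
      _ ≤ ∑ _s ∈ range W, (1 : ℝ) := sum_le_sum fun s _ => by
          split_ifs
          · exact hf s
          · simp
      _ = W := by simp
  have hva : ∀ a, v (a * b) = f a := fun a => by
    rw [hv]
    simp only
    rw [sum_eq_single_of_mem (a % W) (mem_range.2 (Nat.mod_lt _ hW)),
      if_pos ((Nat.mod_modEq a W).symm.mul_right b), Function.Periodic.map_mod_nat (f := f) hp]
    intro s hs hne
    refine if_neg fun h => hne ?_
    have h1 : a ≡ s [MOD W] := Nat.ModEq.cancel_right_of_coprime hc.symm h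
    rw [h1, Nat.mod_eq_of_lt (mem_range.1 hs)]
  have h1 := per0_rr hPS (G := fun m => u m * v m) (q := b * W) (X1 := A1 * b) (X2 := A2 * b) hk
    (Nat.mul_pos hA hb) (Nat.mul_le_mul_right b h12) (Nat.mul_pos hb hW) fun m => by
      rw [per0_shift hup, mul_comm b, per0_shift hvp]
  have h2 : ∑ m ∈ Ioc (A1 * b) (A2 * b), u m * v m * rr k m =
      ∑ a ∈ Ioc A1 A2, f a * rr k (a * b) := by
    have := per0_mult hb (A1 * b) (A2 * b) (fun m => v m * rr k m)
    rw [Nat.mul_div_cancel _ hb, Nat.mul_div_cancel _ hb, sum_filter] at this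
    simp only [hva] at this
    rw [← this]
    exact sum_congr rfl fun m _ => by simp only [hu, ite_mul, one_mul, zero_mul]
  have h3 : ∑ n ∈ range (b * W), u (n ^ 2 + n + k) * v (n ^ 2 + n + k) =
      rho k b * ∑ s ∈ range W, f s * vr W k (s * b) := by
    rw [per0_crt hb hW hc (per0_poly hup k) (per0_poly hvp k), per0_rho]
    congr 1
    rw [sum_comm]
    refine sum_congr rfl fun s _ => ?_
    rw [per0_vr, mul_sum]
    exact sum_congr rfl fun n _ => by rw [mul_ite, mul_one, mul_zero]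
  have h4 : ∑ n ∈ range (b * W), |u (n ^ 2 + n + k) * v (n ^ 2 + n + k)| ≤ rho k b * W ^ 2 := by
    have : ∀ n, |u (n ^ 2 + n + k) * v (n ^ 2 + n + k)| =
        u (n ^ 2 + n + k) * |v (n ^ 2 + n + k)| := fun n => by
      rw [abs_mul, abs_of_nonneg]
      simp only [hu]
      split_ifs <;> norm_num
    simp only [this]
    rw [per0_crt hb hW hc (per0_poly hup k)
      (per0_poly (G := fun m => |v m|) (fun m => by rw [hvp]) k), per0_rho]
    refine mul_le_mul_of_nonneg_left ?_ (by positivity)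
    calc _ ≤ ∑ _t ∈ range W, (W : ℝ) := sum_le_sum fun t _ => hvb _
      _ = _ := by rw [sum_const, card_range, nsmul_eq_mul, sq]
  have h5 := per0_md hPS (k := k) hW hb h12 hf hp
  rw [h2, h3] at h1
  push_cast at h1
  set P := ∑ s ∈ range W, f s * vr W k (s * b)
  set x := (k : ℝ) / (b * √((A1 : ℝ) * b)) with hx
  have hb0 : (0 : ℝ) < b := by exact_mod_cast hb
  have hW1 : (1 : ℝ) ≤ W := by exact_mod_cast hW
  have hA0 : (0 : ℝ) < A1 := by exact_mod_cast hA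
  have hx0 : 0 ≤ x := by positivity
  have h6 : (k : ℝ) / (b * W * √((A1 : ℝ) * b)) ≤ x := by
    refine div_le_div_of_nonneg_left (by positivity) (by positivity) ?_
    have : 0 < (b : ℝ) * √((A1 : ℝ) * b) := by positivity
    nlinarith
  have h7 : (√((A2 : ℝ) * b) - √((A1 : ℝ) * b)) / (b * W) * (rho k b * P) =
      (√(A2 : ℝ) - √(A1 : ℝ)) / (W * √(b : ℝ)) * P * rho k b := by
    rw [Real.sqrt_mul (Nat.cast_nonneg _), Real.sqrt_mul (Nat.cast_nonneg _)]
    have hs : 0 < √(b : ℝ) := Real.sqrt_pos.2 hb0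
    have := Real.mul_self_sqrt hb0.le
    set s := √(b : ℝ)
    rw [← this]
    field_simp
  rw [h7] at h1
  have h8 : ∑ a ∈ Ioc A1 A2, f a * dd W k (a * b) =
      ∑ a ∈ Ioc A1 A2, f a * rr k (a * b) - ∑ a ∈ Ioc A1 A2, f a * md W k (a * b) := by
    rw [← sum_sub_distrib]
    exact sum_congr rfl fun a _ => by rw [dd, mul_sub]
  have h9 := h1.trans (mul_le_mul (by linarith : _ ≤ 4 + 2 * x) h4
    (sum_nonneg fun _ _ => abs_nonneg _) (by positivity))
  have hr : (0 : ℝ) ≤ rho k b := by positivity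
  have hW2 : (0 : ℝ) ≤ W ^ 2 := by positivity
  have h10 : (4 + 2 * x) * (rho k b * W ^ 2) + 6 * W ^ 2 ≤ 6 * W ^ 2 * (1 + rho k b) * (1 + x) := by
    have e1 := mul_nonneg hW2 hr
    have e2 := mul_nonneg hW2 hx0
    have e3 := mul_nonneg e1 hx0
    nlinarith
  rw [h8]
  rw [abs_le] at h5 h9 ⊢
  constructor <;> linarith [h5.1, h5.2, h9.1, h9.2]

/-- number of solutions of a linear congruence -/
theorem per0_count {W : ℕ} (hW : 0 < W) (q x : ℕ) :
    ∑ t ∈ range W, (if x ≡ t * q [MOD W] then (1 : ℝ) else 0) =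
      Nat.gcd q W * if Nat.gcd q W ∣ x then 1 else 0 := by
  have hg : 0 < Nat.gcd q W := Nat.gcd_pos_of_pos_right _ hW
  obtain ⟨q', W', hc, hq, hW'⟩ := Nat.exists_coprime q W
  set g := Nat.gcd q W
  have hW0 : 0 < W' := Nat.pos_of_mul_pos_right (hW' ▸ hW)
  split_ifs with h
  · obtain ⟨y, rfl⟩ := h
    have h1 : ∀ t, (g * y ≡ t * q [MOD W]) ↔ y ≡ t * q' [MOD W'] := fun t => by
      rw [hq, hW', show t * (q' * g) = g * (t * q') by ring, mul_comm W']
      exact Nat.ModEq.mul_left_cancel_iff' hg.ne'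
    simp only [h1]
    rw [hW', per0_rep (m := W') (f := fun t => if y ≡ t * q' [MOD W'] then (1 : ℝ) else 0)
      fun t => if_congr (by simp only [Nat.ModEq, add_mul, Nat.add_mul_mod_self_left]) rfl rfl]
    congr 1
    obtain ⟨s, hs, e⟩ := Nat.exists_mul_mod_eq_of_coprime y hc hW0.ne'
    have e1 : y ≡ s * q' [MOD W'] := by rw [mul_comm]; exact e.symm
    rw [sum_eq_single_of_mem s (mem_range.2 hs), if_pos e1]
    intro t ht hne
    refine if_neg fun h => hne ?_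
    exact (Nat.ModEq.cancel_right_of_coprime hc.symm (h.symm.trans e1)).eq_of_lt_of_lt
      (mem_range.1 ht) hs
  · rw [mul_zero]
    refine sum_eq_zero fun t _ => if_neg fun h1 => h ?_
    exact (h1.dvd_iff (Nat.gcd_dvd_right q W)).2 ((Nat.gcd_dvd_left q W).mul_left t)

theorem per0_vsum {W : ℕ} (hW : 0 < W) (k q : ℕ) :
    ∑ t ∈ range W, (vr W k (t * q) : ℝ) = W * rho k (Nat.gcd q W) := by
  simp only [per0_vr]
  rw [sum_comm]
  simp only [per0_count hW]
  obtain ⟨j, hj⟩ := Nat.gcd_dvd_right q W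
  set g := Nat.gcd q W
  rw [← mul_sum, hj, per0_rep (per0_poly (G := fun m => if g ∣ m then (1 : ℝ) else 0)
    (fun m => by simp only [Nat.dvd_add_self_right]) k), per0_rho]
  push_cast; ring

theorem per0_floor {q : ℕ} (hq : 0 < q) (X : ℕ) :
    |√((X / q : ℕ) : ℝ) - √(X : ℝ) / √(q : ℝ)| ≤ 1 := by
  have hq0 : (0 : ℝ) < q := by exact_mod_cast hq
  rw [← Real.sqrt_div' _ hq0.le]
  have h1 : ((X / q : ℕ) : ℝ) ≤ (X : ℝ) / q := Nat.cast_div_le
  have h2 : (X : ℝ) / q ≤ ((X / q : ℕ) : ℝ) + 1 := by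
    rw [div_le_iff₀ hq0]
    have := Nat.lt_div_mul_add (a := X) hq
    have h3 : X ≤ (X / q + 1) * q := by nlinarith
    exact_mod_cast h3
  have h3 := Real.sqrt_le_sqrt h1
  have h4 : √((X : ℝ) / q) ≤ √((X / q : ℕ) : ℝ) + 1 := by
    rw [Real.sqrt_le_left (by positivity)]
    have := Real.sq_sqrt (Nat.cast_nonneg (α := ℝ) (X / q))
    nlinarith [Real.sqrt_nonneg ((X / q : ℕ) : ℝ)]
  rw [abs_le]; constructor <;> linarith

theorem t_KER (hPS : S_PS) (hROOT : S_ROOT) : S_KER := by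
  refine ⟨8, by norm_num, fun N K X1 X2 W q hN hX h12 hq hW => ⟨?_, fun k => ?_⟩⟩
  · have hX1 : 1 ≤ X1 := by
      have : (0 : ℝ) < X1 := lt_of_lt_of_le (by positivity) hX
      exact_mod_cast this
    have hs : N ≤ √(X1 : ℝ) := Real.le_sqrt_of_sq_le hX
    have hq1 : (1 : ℝ) ≤ q := by exact_mod_cast hq
    have h1 : ∀ k ∈ Icc 1 K, |∑ m ∈ (Ioc X1 X2).filter (q ∣ ·), rr k m -
        (√(X2 : ℝ) - √(X1 : ℝ)) * rho k q / q| ≤ 8 * (1 + K / N) * rho k q := fun k hk => by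
      have h2 := per0_rr hPS (G := fun m => if q ∣ m then (1 : ℝ) else 0) (mem_Icc.1 hk).1 hX1
        h12 hq fun m => by simp only [Nat.dvd_add_self_right]
      have h3 : ∀ m, |if q ∣ m then (1 : ℝ) else 0| = if q ∣ m then (1 : ℝ) else 0 := fun m => by
        split_ifs <;> simp
      simp only [h3, per0_rho, ite_mul, one_mul, zero_mul] at h2
      rw [sum_filter, mul_div_right_comm]
      refine h2.trans (mul_le_mul_of_nonneg_right ?_ (by positivity))
      have h4 : (k : ℝ) / (q * √(X1 : ℝ)) ≤ K / N := by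
        refine div_le_div₀ (by positivity) (by exact_mod_cast (mem_Icc.1 hk).2) hN ?_
        nlinarith
      have h5 : (0 : ℝ) ≤ K / N := by positivity
      linarith
    refine (sum_le_sum h1).trans ?_
    rw [← mul_sum]
    refine mul_le_mul_of_nonneg_left ?_ (by positivity)
    have := (abs_le.1 (hROOT.2.2.2.2.1 q K hq)).2
    linarith
  · have h1 := per0_md hPS (f := fun _ => 1) (k := k) hW hq (Nat.div_le_div_right (c := q) h12)
      (fun _ => by simp) fun _ => rfl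
    simp only [one_mul] at h1
    rw [per0_vsum hW, ← per0_mult hq] at h1
    have h2 := per0_floor hq X1
    have h3 := per0_floor hq X2
    have hq0 : (0 : ℝ) < q := by exact_mod_cast hq
    have hW1 : (1 : ℝ) ≤ W := by exact_mod_cast hW
    have hs : 1 ≤ √(q : ℝ) := Real.one_le_sqrt.2 (by exact_mod_cast hq)
    have hr : (rho k (Nat.gcd q W) : ℝ) ≤ W := by
      exact_mod_cast (rho_le _ _).trans (Nat.gcd_le_right q hW)
    have hr0 : (0 : ℝ) ≤ rho k (Nat.gcd q W) := by positivity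
    set r : ℝ := (rho k (Nat.gcd q W) : ℝ)
    have h4 : (√((X2 / q : ℕ) : ℝ) - √((X1 / q : ℕ) : ℝ)) / (W * √(q : ℝ)) * (W * r) -
        (√(X2 : ℝ) - √(X1 : ℝ)) * r / q =
        ((√((X2 / q : ℕ) : ℝ) - √(X2 : ℝ) / √(q : ℝ)) -
          (√((X1 / q : ℕ) : ℝ) - √(X1 : ℝ) / √(q : ℝ))) * (r / √(q : ℝ)) := by
      have := Real.mul_self_sqrt hq0.le
      set s := √(q : ℝ)
      rw [← this]
      field_simp
      ring
    have h5 : |(√((X2 / q : ℕ) : ℝ) - √((X1 / q : ℕ) : ℝ)) / (W * √(q : ℝ)) * (W * r) -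
        (√(X2 : ℝ) - √(X1 : ℝ)) * r / q| ≤ 2 * W := by
      rw [h4, abs_mul, abs_of_nonneg (by positivity : 0 ≤ r / √(q : ℝ))]
      refine mul_le_mul ((abs_sub _ _).trans (by linarith)) ((div_le_self hr0 hs).trans hr)
        (by positivity) (by norm_num)
    have h6 : (W : ℝ) ≤ W ^ 2 := by nlinarith
    rw [abs_le] at h1 h5 ⊢
    constructor <;> linarith [h1.1, h1.2, h5.1, h5.2]

end Pool.Agent.P.MP_8be758_nt.Avg
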