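import Pool.Agent.P.MP_8be758_nt.Avg.Basic

/-! From one range of values to the prime counting function. -/

namespace Pool.Agent.P.MP_8be758_nt.Avg

open Finset Real Filter Topology
open Pool.Agent.P.MP_e86632_nt (ee)

theorem pieces_add (k : ℕ) {X1 X2 X3 : ℕ} (h1 : X1 ≤ X2) (h2 : X2 ≤ X3) :
    Th k X1 X3 = Th k X1 X2 + Th k X2 X3 := by
  unfold Th
  rw [← Finset.Ioc_union_Ioc_eq_Ioc h1 h2, filter_union, sum_union]
  exact disjoint_filter_filter (Finset.Ioc_disjoint_Ioc_of_le le_rfl)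

theorem pieces_tele (k : ℕ) (X : ℕ → ℕ) (hX : ∀ j, X (j + 1) ≤ X j) (s b : ℝ) (j0 : ℕ)
    (h : ∀ j < j0, |Th k (X (j + 1)) (X j) - (√(X j : ℝ) - √(X (j + 1) : ℝ)) * s| ≤ b) :
    |Th k (X j0) (X 0) - (√(X 0 : ℝ) - √(X j0 : ℝ)) * s| ≤ j0 * b := by
  induction j0 with
  | zero => simp [Th]
  | succ j ih =>
    have h1 := ih fun i hi => h i (by omega)
    have h2 := h j (by omega)
    have h3 : X j ≤ X 0 := antitone_nat_of_succ_le hX (Nat.zero_le j)
    rw [pieces_add k (hX j) h3]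
    rw [abs_le] at h1 h2 ⊢
    push_cast
    constructor <;> nlinarith [h1.1, h1.2, h2.1, h2.2]

theorem pieces_cnt (k Y n : ℕ) :
    ∑ m ∈ (Ioc Y (n ^ 2)).filter Nat.Prime, rr k m =
      (((range (n + 1)).filter fun x =>
        x ^ 2 + x + k ∈ (Ioc Y (n ^ 2)).filter Nat.Prime).card : ℝ) := by
  have h1 : ∀ m ∈ (Ioc Y (n ^ 2)).filter Nat.Prime, rr k m =
      ∑ x ∈ range (n + 1), if x ^ 2 + x + k = m then (1 : ℝ) else 0 := by
    intro m hm
    refine rr_eq_sum k m _ fun x hx => mem_range.2 ?_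
    have h2 := (mem_Ioc.1 (mem_filter.1 hm).1).2
    by_contra h3
    have h4 : n + 1 ≤ x := not_lt.1 h3
    nlinarith
  rw [sum_congr rfl h1, sum_comm, card_filter]
  push_cast
  exact sum_congr rfl fun x _ => Finset.sum_ite_eq _ _ _

theorem pieces_lo (k Y n : ℕ) :
    ∑ m ∈ (Ioc Y (n ^ 2)).filter Nat.Prime, rr k m ≤ PC k n := by
  rw [pieces_cnt, PC]
  exact_mod_cast card_le_card fun x hx =>
    mem_filter.2 ⟨(mem_filter.1 hx).1, (mem_filter.1 (mem_filter.1 hx).2).2⟩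

theorem pieces_hi (hPS : S_PS) (k Y n x0 : ℕ) (hk : 1 ≤ k) (hn : 1 ≤ n)
    (hx : ∀ x, x ^ 2 + x + k ≤ Y → x < x0) :
    (PC k n : ℝ) ≤ ∑ m ∈ (Ioc Y (n ^ 2)).filter Nat.Prime, rr k m +
      (((range x0).filter fun x => (x ^ 2 + x + k).Prime).card : ℝ) + (2 + k / n) := by
  obtain ⟨c, hc, hc2⟩ := hPS.2.2 k (n ^ 2) hk (Nat.one_le_pow _ _ hn)
  have hs : √((n ^ 2 : ℕ) : ℝ) = n := by
    push_cast
    exact Real.sqrt_sq (Nat.cast_nonneg n)
  rw [hs] at hc2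
  have h1 : (range (n + 1)).filter (fun x => (x ^ 2 + x + k).Prime) ⊆
      (((range (n + 1)).filter fun x => x ^ 2 + x + k ∈ (Ioc Y (n ^ 2)).filter Nat.Prime) ∪
        ((range x0).filter fun x => (x ^ 2 + x + k).Prime)) ∪ Ico c (n + 1) := by
    intro x h
    obtain ⟨h2, h3⟩ := mem_filter.1 h
    by_cases h4 : x < c
    · by_cases h5 : x ^ 2 + x + k ≤ Y
      · exact mem_union_left _ (mem_union_right _ (mem_filter.2 ⟨mem_range.2 (hx x h5), h3⟩))
      · exact mem_union_left _ (mem_union_left _ (mem_filter.2 ⟨h2,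
          mem_filter.2 ⟨mem_Ioc.2 ⟨not_le.1 h5, (hc x).2 h4⟩, h3⟩⟩))
    · exact mem_union_right _ (mem_Ico.2 ⟨not_lt.1 h4, mem_range.1 h2⟩)
  have h2 := (card_le_card h1).trans ((card_union_le _ _).trans
    (Nat.add_le_add_right (card_union_le _ _) _))
  have h3 : ((Ico c (n + 1)).card : ℝ) ≤ 2 + k / n := by
    rw [Nat.card_Ico]
    have h4 : (0 : ℝ) ≤ k / n := by positivity
    rcases le_total c (n + 1) with h5 | h5
    · rw [Nat.cast_sub h5]
      push_cast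
      linarith [(abs_le.1 hc2).1]
    · rw [Nat.sub_eq_zero_of_le h5]
      push_cast
      linarith
  rw [pieces_cnt, PC]
  have h4 : (((range (n + 1)).filter (fun x => (x ^ 2 + x + k).Prime)).card : ℝ) ≤ _ :=
    Nat.cast_le.2 h2
  push_cast at h4
  linarith

theorem pieces_log (k Y n : ℕ) (a : ℝ) (ha : 0 < a) (hn : 1 ≤ n) (hY : (n * a) ^ 2 ≤ (Y : ℝ)) :
    (2 * Real.log n + 2 * Real.log a) * ∑ m ∈ (Ioc Y (n ^ 2)).filter Nat.Prime, rr k m ≤
      Th k Y (n ^ 2) ∧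
    Th k Y (n ^ 2) ≤ 2 * Real.log n * ∑ m ∈ (Ioc Y (n ^ 2)).filter Nat.Prime, rr k m := by
  have hn0 : (0 : ℝ) < n := by exact_mod_cast hn
  unfold Th
  rw [mul_sum, mul_sum]
  constructor
  · refine sum_le_sum fun m hm => mul_le_mul_of_nonneg_right ?_ (rr_nonneg k m)
    have h1 : (Y : ℝ) < m := by exact_mod_cast (mem_Ioc.1 (mem_filter.1 hm).1).1
    have h2 : Real.log ((n * a) ^ 2) ≤ Real.log m :=
      Real.log_le_log (by positivity) (hY.trans h1.le)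
    rw [Real.log_pow, Real.log_mul hn0.ne' ha.ne'] at h2
    push_cast at h2
    linarith
  · refine sum_le_sum fun m hm => mul_le_mul_of_nonneg_right ?_ (rr_nonneg k m)
    have h1 : (m : ℝ) ≤ (n : ℝ) ^ 2 := by exact_mod_cast (mem_Ioc.1 (mem_filter.1 hm).1).2
    have h3 : (0 : ℝ) < m := by exact_mod_cast (mem_filter.1 hm).2.pos
    have h2 : Real.log m ≤ Real.log ((n : ℝ) ^ 2) := Real.log_le_log h3 h1
    rw [Real.log_pow] at h2
    push_cast at h2
    exact h2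

theorem pieces_real {e n L s T c P c0 y : ℝ} (he : 0 < e) (he1 : e ≤ 1) (hn : 0 < n) (hL : 0 < L)
    (hs : 0 ≤ s) (hc : 0 ≤ c) (hy0 : 0 ≤ y) (hy : y ≤ e / 4 * n) (hc0 : c0 ≤ e / 4 * L)
    (h1 : |T - (n - y) * s| ≤ e / 4 * n * (1 + s)) (h2 : (2 * L - c0) * c ≤ T)
    (h3 : T ≤ 2 * L * c) (h4 : c ≤ P) (h5 : P ≤ c + e / 2 * (n / L)) :
    |P - s / 2 * (n / L)| ≤ e * (1 + s) * (n / L) := by
  obtain ⟨u, hu⟩ : ∃ u, u = n / L := ⟨_, rfl⟩
  have hu0 : 0 < u := hu ▸ div_pos hn hL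
  have hnu : n = u * L := by rw [hu]; field_simp
  rw [← hu] at h5 ⊢
  obtain ⟨h6, h7⟩ := abs_le.1 h1
  have h8 : y * s ≤ e / 4 * n * s := mul_le_mul_of_nonneg_right hy hs
  have h9 : 0 ≤ y * s := mul_nonneg hy0 hs
  have hen : 0 ≤ e * n := by positivity
  have hens : 0 ≤ e * n * s := by positivity
  have hA : n * s - e / 2 * n * (1 + s) ≤ T := by nlinarith
  have hB : T ≤ n * s + e / 4 * n * (1 + s) := by nlinarith
  have hns : 0 ≤ n * s := by positivity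
  have hC : T ≤ 2 * n * (1 + s) := by nlinarith
  have hD : c0 * c ≤ e / 4 * L * c := mul_le_mul_of_nonneg_right hc0 hc
  have hLc : 0 ≤ L * c := by positivity
  have hE : L * c ≤ 2 * n * (1 + s) := by nlinarith
  have hF : e / 4 * (L * c) ≤ e / 4 * (2 * n * (1 + s)) :=
    mul_le_mul_of_nonneg_left hE (by positivity)
  have hG : L * c ≤ L * (s / 2 * u + 3 * e / 8 * (1 + s) * u) := by
    have : L * (s / 2 * u + 3 * e / 8 * (1 + s) * u) = n * s / 2 + 3 * e / 8 * n * (1 + s) := by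
      rw [hnu]; ring
    rw [this]
    nlinarith
  have hH : L * (s / 2 * u - e / 4 * (1 + s) * u) ≤ L * c := by
    have : L * (s / 2 * u - e / 4 * (1 + s) * u) = n * s / 2 - e / 4 * n * (1 + s) := by
      rw [hnu]; ring
    rw [this]
    nlinarith
  have hG' := le_of_mul_le_mul_left hG hL
  have hH' := le_of_mul_le_mul_left hH hL
  have heu : 0 ≤ e * u := by positivity
  have heus : 0 ≤ e * u * s := by positivity
  rw [abs_le]
  constructor <;> nlinarith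

/-- the endpoints of the ranges -/
noncomputable def pieces_X (n j : ℕ) : ℕ := ⌈((n : ℝ) * (19 / 20) ^ j) ^ 2⌉₊

theorem pieces_X_zero (n : ℕ) : pieces_X n 0 = n ^ 2 := by
  rw [pieces_X, pow_zero, mul_one, ← Nat.cast_pow, Nat.ceil_natCast]

theorem pieces_X_anti (n j : ℕ) : pieces_X n (j + 1) ≤ pieces_X n j := by
  refine Nat.ceil_mono (pow_le_pow_left₀ (by positivity) ?_ 2)
  exact mul_le_mul_of_nonneg_left (pow_le_pow_of_le_one (by norm_num) (by norm_num) (by omega))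
    (Nat.cast_nonneg n)

theorem pieces_setup (θ : ℝ) (hθ : 0 ≤ θ) (j : ℕ) : ∀ᶠ n : ℕ in atTop, ∀ K : ℕ,
    (n : ℝ) ^ θ ≤ K → (K : ℝ) ≤ (n : ℝ) ^ (11 / 10 : ℝ) →
    Setup θ (n * (19 / 20) ^ (j + 1)) K (pieces_X n (j + 1)) (pieces_X n j) := by
  obtain ⟨a, ha⟩ : ∃ a : ℝ, a = (19 / 20) ^ (j + 1) := ⟨_, rfl⟩
  have ha0 : 0 < a := by rw [ha]; positivity
  have ha1 : a ≤ 1 := by rw [ha]; exact pow_le_one₀ (by norm_num) (by norm_num)
  have h1 := tendsto_natCast_atTop_atTop.eventually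
    (ev_pow (1 / a ^ (6 / 5 : ℝ)) 0 (show (11 / 10 : ℝ) < 6 / 5 by norm_num))
  have h2 := (tendsto_natCast_atTop_atTop (R := ℝ)).eventually_ge_atTop (4 / a)
  filter_upwards [h1, h2] with n h3 h4 K h5 h6
  have hn : (0 : ℝ) ≤ n := Nat.cast_nonneg n
  have h7 : 4 ≤ n * a := by rwa [div_le_iff₀ ha0] at h4
  refine ⟨?_, ?_, Nat.le_ceil _, pieces_X_anti n j, ?_⟩
  · rw [← ha]
    exact (Real.rpow_le_rpow (by positivity) (mul_le_of_le_one_right hn ha1) hθ).trans h5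
  · rw [← ha, Real.mul_rpow hn ha0.le]
    have h8 : 0 < a ^ (6 / 5 : ℝ) := by positivity
    rw [pow_zero, mul_one, one_div_mul_eq_div, div_le_iff₀ h8] at h3
    exact h6.trans h3
  · have h8 := (Nat.ceil_lt_add_one (show 0 ≤ ((n : ℝ) * (19 / 20) ^ j) ^ 2 by positivity)).le
    have h9 : (n : ℝ) * (19 / 20) ^ j = 20 / 19 * (n * a) := by rw [ha]; ring
    rw [← ha]
    refine h8.trans ?_
    rw [h9]
    nlinarith

theorem pieces_good (hPS : S_PS) {e s : ℝ} {k n j0 : ℕ} (he : 0 < e) (he1 : e ≤ 1) (hs : 0 ≤ s)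
    (hk : 1 ≤ k) (hn : 2 ≤ n) (h1 : 1 ≤ (n : ℝ) * (19 / 20) ^ j0)
    (h2 : (19 / 20 : ℝ) ^ j0 ≤ e / 8)
    (h3 : -(2 * Real.log ((19 / 20 : ℝ) ^ j0)) ≤ e / 4 * Real.log n)
    (h4 : 2 + (k : ℝ) / n ≤ e / 4 * (n / Real.log n))
    (h5 : ∀ j < j0, |Th k (pieces_X n (j + 1)) (pieces_X n j) -
      (√(pieces_X n j : ℝ) - √(pieces_X n (j + 1) : ℝ)) * s| ≤
        e / (4 * (j0 + 1)) * (n * (19 / 20) ^ (j + 1)) * (1 + s))
    (h6 : (((range ⌈(n : ℝ) * (19 / 20) ^ j0⌉₊).filter fun x => (x ^ 2 + x + k).Prime).card : ℝ) ≤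
      e / 4 * (n / Real.log n)) :
    |(PC k n : ℝ) - s / 2 * (n / Real.log n)| ≤ e * (1 + s) * (n / Real.log n) := by
  have hn1 : (1 : ℝ) < n := by exact_mod_cast hn
  have hn0 : (0 : ℝ) < n := by linarith
  have h7 := pieces_tele k (pieces_X n) (pieces_X_anti n) s (e / (4 * (j0 + 1)) * n * (1 + s)) j0
    fun j hj => (h5 j hj).trans (by
      have : (n : ℝ) * (19 / 20) ^ (j + 1) ≤ n :=
        mul_le_of_le_one_right hn0.le (pow_le_one₀ (by norm_num) (by norm_num))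
      gcongr)
  obtain ⟨a, ha⟩ : ∃ a : ℝ, a = (19 / 20) ^ j0 := ⟨_, rfl⟩
  have ha0 : 0 < a := by rw [ha]; positivity
  have hY : pieces_X n j0 = ⌈((n : ℝ) * a) ^ 2⌉₊ := by rw [ha, pieces_X]
  rw [← ha] at h1 h2 h3 h6
  have hY1 : ((n : ℝ) * a) ^ 2 ≤ pieces_X n j0 := by rw [hY]; exact Nat.le_ceil _
  have hY2 : (pieces_X n j0 : ℝ) < ((n : ℝ) * a) ^ 2 + 1 := by
    rw [hY]; exact Nat.ceil_lt_add_one (by positivity)
  have hsq : √((n ^ 2 : ℕ) : ℝ) = n := by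
    push_cast
    exact Real.sqrt_sq hn0.le
  rw [pieces_X_zero, hsq] at h7
  obtain ⟨h8, h9⟩ := pieces_log k (pieces_X n j0) n a ha0 (by omega) hY1
  have h10 := pieces_hi hPS k (pieces_X n j0) n ⌈(n : ℝ) * a⌉₊ hk (by omega) fun x hx => by
    rw [Nat.lt_ceil]
    have h11 : (x : ℝ) ^ 2 + x + k ≤ pieces_X n j0 := by exact_mod_cast hx
    have h12 : (1 : ℝ) ≤ k := by exact_mod_cast hk
    have h13 : (0 : ℝ) ≤ x := Nat.cast_nonneg x
    exact lt_of_pow_lt_pow_left₀ 2 (by positivity) (by linarith)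
  refine pieces_real (T := Th k (pieces_X n j0) (n ^ 2)) (c0 := -(2 * Real.log a))
    (y := √(pieces_X n j0 : ℝ)) he he1 hn0 (Real.log_pos hn1) hs
    (sum_nonneg fun m _ => rr_nonneg k m) (Real.sqrt_nonneg _) ?_ h3 (h7.trans ?_) ?_ h9
    (pieces_lo k _ n) ?_
  · have h11 : √(pieces_X n j0 : ℝ) ≤ 2 * (n * a) := by
      rw [Real.sqrt_le_left (by positivity)]
      nlinarith
    nlinarith
  · have h11 : (j0 : ℝ) * (e / (4 * (j0 + 1))) ≤ e / 4 := by
      rw [← mul_div_assoc, div_le_div_iff₀ (by positivity) (by norm_num)]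
      nlinarith
    have h12 : (0 : ℝ) ≤ n * (1 + s) := by positivity
    nlinarith
  · linarith
  · linarith

theorem pieces_ev (e a : ℝ) (he : 0 < e) (ha : 0 < a) : ∀ᶠ n : ℕ in atTop,
    2 ≤ n ∧ 1 ≤ (n : ℝ) * a ∧ -(2 * Real.log a) ≤ e / 4 * Real.log n ∧
      32 ≤ (n : ℝ) ^ (4 / 5 : ℝ) ∧
      2 + (n : ℝ) ^ (11 / 10 : ℝ) / n ≤ e / 4 * (n / Real.log n) := by
  have h0 := tendsto_natCast_atTop_atTop (R := ℝ)
  filter_upwards [eventually_ge_atTop 2, h0.eventually_ge_atTop (1 / a),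
    h0.eventually (ev_log (-(2 * Real.log a) / (e / 4))),
    h0.eventually (ev_const 32 (show (0 : ℝ) < 4 / 5 by norm_num)),
    h0.eventually (ev_pow (12 / e) 1 (show (1 / 10 : ℝ) < 1 by norm_num))] with n h1 h2 h3 h4 h5
  have hn1 : (1 : ℝ) < n := by exact_mod_cast h1
  have hn0 : (0 : ℝ) < n := by linarith
  have hL := Real.log_pos hn1
  refine ⟨h1, by rwa [div_le_iff₀ ha] at h2, ?_, h4, ?_⟩
  · rw [div_le_iff₀ (by positivity)] at h3
    linarith
  · have h6 : (n : ℝ) ^ (11 / 10 : ℝ) / n = (n : ℝ) ^ (1 / 10 : ℝ) := by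
      rw [← Real.rpow_sub_one hn0.ne']
      norm_num
    have h7 : 1 ≤ (n : ℝ) ^ (1 / 10 : ℝ) := Real.one_le_rpow hn1.le (by norm_num)
    rw [Real.rpow_one, pow_one] at h5
    rw [h6, ← mul_div_assoc, le_div_iff₀ hL]
    have h8 : e / 4 * (12 / e * (n : ℝ) ^ (1 / 10 : ℝ) * Real.log n) ≤ e / 4 * n :=
      mul_le_mul_of_nonneg_left h5 (by positivity)
    have h9 : e / 4 * (12 / e * (n : ℝ) ^ (1 / 10 : ℝ) * Real.log n) =
        3 * (n : ℝ) ^ (1 / 10 : ℝ) * Real.log n := by field_simp; ring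
    rw [h9] at h8
    nlinarith

theorem t_PIECES (hCNT : S_CNT) (hPS : S_PS) (hSGW : S_SGW) (θ : ℝ) (hθ : 4 / 5 ≤ θ)
    (hCORE : S_CORE θ) : S_PIECES θ := by
  classical
  intro ε hε
  obtain ⟨C, hC, -, -, hC3⟩ := hCNT
  obtain ⟨e, he, he1, he2⟩ : ∃ e : ℝ, 0 < e ∧ e ≤ 1 ∧ e ≤ ε :=
    ⟨min 1 ε, lt_min one_pos hε, min_le_left _ _, min_le_right _ _⟩
  obtain ⟨j0, hj0⟩ := exists_pow_lt_of_lt_one
    (show 0 < min (e / 8) (e ^ 2 / (20 * C)) by positivity) (show (19 / 20 : ℝ) < 1 by norm_num)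
  have hj1 := (hj0.trans_le (min_le_left _ _)).le
  have hj2 := (hj0.trans_le (min_le_right _ _)).le
  obtain ⟨R1, hR1⟩ := hCORE (e / (4 * (j0 + 1))) (by positivity)
  refine ⟨R1, fun R hR => ?_⟩
  have hA := (eventually_all_finset (range j0)).2 fun j _ =>
    ((tendsto_natCast_atTop_atTop (R := ℝ)).atTop_mul_const
      (show (0 : ℝ) < (19 / 20) ^ (j + 1) by positivity)).eventually (hR1 R hR)
  have hB := (eventually_all_finset (range j0)).2 fun j _ =>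
    pieces_setup θ (by linarith) j
  filter_upwards [hA, hB, pieces_ev e ((19 / 20) ^ j0) he (by positivity)] with n h1 h2
    ⟨hn, h3, h4, h5, h6⟩ K hK1 hK2
  have hn1 : (1 : ℝ) < n := by exact_mod_cast hn
  have hn0 : (0 : ℝ) < n := by linarith
  have hL := Real.log_pos hn1
  have hu : 0 < (n : ℝ) / Real.log n := div_pos hn0 hL
  have hK3 : (n : ℝ) ^ (4 / 5 : ℝ) ≤ K := (Real.rpow_le_rpow_of_exponent_le hn1.le hθ).trans hK1
  have hK4 : 32 ≤ K := by exact_mod_cast h5.trans hK3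
  have hK0 : (0 : ℝ) ≤ K := Nat.cast_nonneg K
  have hK5 : 4 / 5 * Real.log n ≤ Real.log K := by
    rw [← Real.log_rpow hn0]
    exact Real.log_le_log (by positivity) hK3
  obtain ⟨B, hBd⟩ : ∃ B : ℕ → Finset ℕ, ∀ j, B j = (Icc 1 K).filter fun k =>
      e / (4 * (j0 + 1)) * (n * (19 / 20) ^ (j + 1)) * (1 + sing R k) <
        |Th k (pieces_X n (j + 1)) (pieces_X n j) -
          (√(pieces_X n j : ℝ) - √(pieces_X n (j + 1) : ℝ)) * sing R k| := ⟨_, fun _ => rfl⟩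
  obtain ⟨S, hSd⟩ : ∃ S : Finset ℕ, S = (Icc 1 K).filter fun k : ℕ => e / 4 * (n / Real.log n) <
      (((range ⌈(n : ℝ) * (19 / 20) ^ j0⌉₊).filter
        fun x : ℕ => Nat.Prime (x ^ 2 + x + k)).card : ℝ) :=
    ⟨_, rfl⟩
  have h7 : ∀ j ∈ range j0, ((B j).card : ℝ) ≤ e / (4 * (j0 + 1)) * K := fun j hj => by
    rw [hBd]
    exact h1 j hj K _ _ (h2 j hj K hK1 hK2)
  have h8 : (((range j0).biUnion B).card : ℝ) ≤ e / 4 * K := by
    have h9 : (((range j0).biUnion B).card : ℝ) ≤ ∑ j ∈ range j0, ((B j).card : ℝ) := by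
      exact_mod_cast card_biUnion_le
    have h10 := sum_le_sum h7
    rw [sum_const, card_range, nsmul_eq_mul] at h10
    have h11 : (j0 : ℝ) * (e / (4 * (j0 + 1))) ≤ e / 4 := by
      rw [← mul_div_assoc, div_le_div_iff₀ (by positivity) (by norm_num)]
      nlinarith
    nlinarith
  have h9 : (S.card : ℝ) ≤ e / 2 * K := by
    have h10 : e / 4 * (n / Real.log n) * (S.card : ℝ) ≤ ∑ k ∈ Icc 1 K,
        (((range ⌈(n : ℝ) * (19 / 20) ^ j0⌉₊).filter
          fun x : ℕ => Nat.Prime (x ^ 2 + x + k)).card : ℝ) := by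
      rw [hSd]
      exact markov _ _ (fun _ _ => Nat.cast_nonneg _) _ _ fun _ _ h => h.le
    have h11 := h10.trans (hC3 K _ hK4)
    have h12 : (⌈(n : ℝ) * (19 / 20) ^ j0⌉₊ : ℝ) ≤ 2 * (n * (e ^ 2 / (20 * C))) := by
      have h13 := (Nat.ceil_lt_add_one (show 0 ≤ (n : ℝ) * (19 / 20) ^ j0 by positivity)).le
      have h14 := mul_le_mul_of_nonneg_left hj2 hn0.le
      linarith
    have h13 : C * (⌈(n : ℝ) * (19 / 20) ^ j0⌉₊ : ℝ) * K / Real.log K ≤
        C * (2 * (n * (e ^ 2 / (20 * C)))) * K / (4 / 5 * Real.log n) := by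
      gcongr
    have h14 : C * (2 * (n * (e ^ 2 / (20 * C)))) * K / (4 / 5 * Real.log n) =
        e / 4 * (n / Real.log n) * (e / 2 * K) := by
      field_simp
      ring
    exact le_of_mul_le_mul_left (h11.trans (h13.trans h14.le)) (by positivity)
  have h10 : ((Icc 1 K).filter fun k => ε * (1 + sing R k) * (n / Real.log n) <
      |(PC k n : ℝ) - sing R k / 2 * (n / Real.log n)|) ⊆ (range j0).biUnion B ∪ S := by
    intro k hk
    obtain ⟨hk1, hk2⟩ := mem_filter.1 hk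
    by_contra hk3
    rw [mem_union, not_or, mem_biUnion, hSd, mem_filter] at hk3
    have hs := hSGW.2.1 k R
    have hk4 : (k : ℝ) ≤ K := by exact_mod_cast (mem_Icc.1 hk1).2
    have h11 := pieces_good hPS he he1 hs (mem_Icc.1 hk1).1 hn h3 hj1 h4
      (le_trans (by gcongr; exact hk4.trans hK2) h6)
      (fun j hj => not_lt.1 fun h => hk3.1 ⟨j, mem_range.2 hj, by
        rw [hBd]; exact mem_filter.2 ⟨hk1, h⟩⟩)
      (not_lt.1 fun h => hk3.2 ⟨hk1, h⟩)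
    have h12 : e * (1 + sing R k) * (n / Real.log n) ≤ ε * (1 + sing R k) * (n / Real.log n) := by
      gcongr
    linarith
  have h11 : ((((Icc 1 K).filter fun k => ε * (1 + sing R k) * (n / Real.log n) <
      |(PC k n : ℝ) - sing R k / 2 * (n / Real.log n)|).card : ℕ) : ℝ) ≤
      (((range j0).biUnion B).card : ℝ) + S.card := by
    exact_mod_cast (card_le_card h10).trans (card_union_le _ _)
  have h12 : e * K ≤ ε * K := mul_le_mul_of_nonneg_right he2 hK0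
  have h13 : 0 ≤ e * K := by positivity
  refine le_trans ?_ (show (((range j0).biUnion B).card : ℝ) + S.card ≤ ε * K by linarith)
  exact h11

end Pool.Agent.P.MP_8be758_nt.Avg
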