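import Pool.Agent.P.MP_8be758_nt.Avg.Basic

/-! Projection of a coefficient sequence onto the residue classes modulo `R !`. -/

namespace Pool.Agent.P.MP_8be758_nt.Avg

open Finset Real Filter Topology
open Pool.Agent.P.MP_e86632_nt (ee)
open Pool.Agent.P.MP_e86632_nt (nn ee_add norm_ee ee_add_int four_nn_le abel_bound tele_Ioc)

/-- numerator of the projection -/
noncomputable def proj_N (I : Finset ℕ) (W : ℕ) (α : ℕ → ℝ) (s : ℕ) : ℝ :=
  ∑ x ∈ I.filter (fun x => x % W = s), α x / √(x : ℝ)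

/-- the projection -/
noncomputable def proj_f (I : Finset ℕ) (W : ℕ) (α : ℕ → ℝ) (a : ℕ) : ℝ :=
  proj_N I W α (a % W) / proj_N I W (fun _ => 1) (a % W)

theorem proj_N_le (I : Finset ℕ) (W : ℕ) (α : ℕ → ℝ) (hα : ∀ a, |α a| ≤ 1) (s : ℕ) :
    |proj_N I W α s| ≤ proj_N I W (fun _ => 1) s := by
  unfold proj_N
  refine (abs_sum_le_sum_abs _ _).trans (sum_le_sum fun x _ => ?_)
  rw [abs_div, abs_of_nonneg (Real.sqrt_nonneg _)]
  exact div_le_div_of_nonneg_right (hα x) (Real.sqrt_nonneg _)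

theorem proj_f_le (I : Finset ℕ) (W : ℕ) (α : ℕ → ℝ) (hα : ∀ a, |α a| ≤ 1) (a : ℕ) :
    |proj_f I W α a| ≤ 1 := by
  have h := proj_N_le I W α hα (a % W)
  have h0 : 0 ≤ proj_N I W (fun _ => 1) (a % W) := (abs_nonneg _).trans h
  rw [proj_f, abs_div, abs_of_nonneg h0]
  exact div_le_one_of_le₀ h h0

theorem proj_f_per (I : Finset ℕ) (W : ℕ) (α : ℕ → ℝ) (a : ℕ) :
    proj_f I W α (a + W) = proj_f I W α a := by
  simp only [proj_f, Nat.add_mod_right]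

theorem proj_class (I : Finset ℕ) (W : ℕ) (α : ℕ → ℝ) (hα : ∀ a, |α a| ≤ 1) (s : ℕ) :
    ∑ a ∈ I.filter (fun x => x % W = s), (α a - proj_f I W α a) / √(a : ℝ) = 0 := by
  have h1 : ∀ a ∈ I.filter (fun x => x % W = s), (α a - proj_f I W α a) / √(a : ℝ) =
      α a / √(a : ℝ) - proj_N I W α s / proj_N I W (fun _ => 1) s * (1 / √(a : ℝ)) := by
    intro a ha
    rw [proj_f, (mem_filter.1 ha).2]; ring
  rw [sum_congr rfl h1, sum_sub_distrib, ← mul_sum]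
  change proj_N I W α s - proj_N I W α s / proj_N I W (fun _ => 1) s *
    proj_N I W (fun _ => 1) s = 0
  rcases eq_or_ne (proj_N I W (fun _ => 1) s) 0 with h | h
  · have h2 := proj_N_le I W α hα s
    rw [h] at h2
    rw [abs_nonpos_iff.1 h2]; simp
  · rw [div_mul_cancel₀ _ h, sub_self]

theorem proj_zero (I : Finset ℕ) (W : ℕ) (α : ℕ → ℝ) (hα : ∀ a, |α a| ≤ 1) (G : ℕ → ℂ)
    (hG : ∀ a, G a = G (a % W)) :
    ∑ a ∈ I, gam (fun a => α a - proj_f I W α a) a * G a = 0 := by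
  rw [← sum_fiberwise_of_maps_to (s := I) (t := I.image (· % W)) (g := (· % W))
    (fun a ha => mem_image_of_mem _ ha)]
  refine sum_eq_zero fun s _ => ?_
  have h1 : ∀ a ∈ I.filter (fun x => x % W = s),
      gam (fun a => α a - proj_f I W α a) a * G a =
        (((α a - proj_f I W α a) / √(a : ℝ) : ℝ) : ℂ) * G s := by
    intro a ha
    rw [hG a, (mem_filter.1 ha).2, gam]
  rw [sum_congr rfl h1, ← sum_mul, ← Complex.ofReal_sum, proj_class I W α hα s]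
  simp

theorem proj_vr (W k a b : ℕ) : vr W k (a * b) = vr W k (a % W * b) := by
  unfold vr
  congr 1
  refine filter_congr fun n _ => ?_
  have h : a % W * b ≡ a * b [MOD W] := (Nat.mod_modEq a W).mul_right b
  exact ⟨fun h1 => h1.trans h.symm, fun h1 => h1.trans h⟩

theorem proj_md (I : Finset ℕ) (W : ℕ) (α : ℕ → ℝ) (hα : ∀ a, |α a| ≤ 1) (k b : ℕ) :
    ∑ a ∈ I, (α a - proj_f I W α a) * md W k (a * b) = 0 := by
  have h := proj_zero I W α hα (fun a => (((vr W k (a * b) : ℝ) / (2 * √(b : ℝ)) : ℝ) : ℂ))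
    (fun a => by rw [proj_vr W k a b])
  have h2 : ∀ a ∈ I, gam (fun a => α a - proj_f I W α a) a *
      (((vr W k (a * b) : ℝ) / (2 * √(b : ℝ)) : ℝ) : ℂ) =
      (((α a - proj_f I W α a) * md W k (a * b) : ℝ) : ℂ) := by
    intro a _
    rw [gam, ← Complex.ofReal_mul, md, Nat.cast_mul, Real.sqrt_mul (Nat.cast_nonneg a)]
    congr 1
    ring
  rw [sum_congr rfl h2, ← Complex.ofReal_sum] at h
  exact_mod_cast h

theorem proj_ee (W q r a : ℕ) (hq : 0 < q) (h : q ∣ W) :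
    ee (a * ((r : ℝ) / q)) = ee ((a % W : ℕ) * ((r : ℝ) / q)) := by
  obtain ⟨c, rfl⟩ := h
  rw [← ee_add_int (((a % (q * c) : ℕ) : ℝ) * ((r : ℝ) / q)) ((c * (a / (q * c)) * r : ℕ) : ℤ)]
  congr 1
  have h1 : (a : ℝ) = ((a % (q * c) : ℕ) : ℝ) + (q * c) * ((a / (q * c) : ℕ) : ℝ) := by
    exact_mod_cast (Nat.mod_add_div a (q * c)).symm
  have h2 : (q : ℝ) ≠ 0 := by positivity
  rw [Int.cast_natCast]
  generalize ((a % (q * c) : ℕ) : ℝ) = u at h1 ⊢
  push_cast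
  generalize ((a / (q * c) : ℕ) : ℝ) = v at h1 ⊢
  rw [h1]; field_simp

theorem proj_en_zero (I : Finset ℕ) (W : ℕ) (α : ℕ → ℝ) (hα : ∀ a, |α a| ≤ 1) (q : ℕ)
    (hq : 0 < q) (h : q ∣ W) : en I (gam fun a => α a - proj_f I W α a) q = 0 := by
  refine sum_eq_zero fun r _ => ?_
  rw [ft, proj_zero I W α hα (fun a => ee (a * ((r : ℝ) / q))) (fun a => proj_ee W q r a hq h)]
  simp

theorem proj_nn (u q : ℕ) (hq : 0 < q) (h : ¬ q ∣ u) : 1 / (q : ℝ) ≤ nn ((u : ℝ) / q) := by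
  unfold nn
  set k := round ((u : ℝ) / q)
  have h0 : (0 : ℝ) < q := by positivity
  have h1 : (u : ℤ) - k * q ≠ 0 := fun h2 =>
    h (Int.natCast_dvd_natCast.1 ⟨k, by linarith⟩)
  have h2 : (1 : ℝ) ≤ |(((u : ℤ) - k * q : ℤ) : ℝ)| := by
    rw [← Int.cast_abs]; exact_mod_cast Int.one_le_abs h1
  have h3 : (u : ℝ) / q - k = (((u : ℤ) - k * q : ℤ) : ℝ) / q := by
    push_cast; field_simp
  rw [h3, abs_div, abs_of_pos h0]
  exact div_le_div_of_nonneg_right h2 h0.le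

theorem proj_shift (g : ℕ → ℂ) (W a n : ℕ) (h : a ≤ n) :
    ∑ i ∈ Ioc a n, (g (i + W) - g i) = ∑ i ∈ Ioc n (n + W), g i - ∑ i ∈ Ioc a (a + W), g i := by
  have key : ∀ m, ∑ i ∈ Ioc (m + 1) (m + 1 + W), g i =
      ∑ i ∈ Ioc m (m + W), g i + (g (m + 1 + W) - g (m + 1)) := by
    intro m
    have h1 := sum_Ioc_succ_top (Nat.le_add_right m W) g
    have h2 := sum_Ioc_consecutive g (Nat.le_succ m) (Nat.le_add_right (m + 1) W)
    have h3 : Ioc m (m + 1) = {m + 1} := Nat.Ioc_succ_singleton m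
    rw [Nat.succ_eq_add_one, h3, sum_singleton] at h2
    have h4 : m + W + 1 = m + 1 + W := by ring
    rw [h4] at h1
    linear_combination h2 + h1
  induction n, h using Nat.le_induction with
  | base => simp
  | succ n hn ih => rw [sum_Ioc_succ_top hn, ih, key]; ring

theorem proj_psum (f : ℕ → ℝ) (W q r : ℕ) (hf : ∀ a, |f a| ≤ 1) (hper : ∀ a, f (a + W) = f a)
    (hq : 0 < q) (h : ¬ q ∣ W * r) (a n : ℕ) :
    ‖∑ i ∈ Ioc a n, (f i : ℂ) * ee (i * ((r : ℝ) / q))‖ ≤ W * q := by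
  rcases le_or_gt a n with han | han
  swap
  · rw [Ioc_eq_empty (by omega)]; simp; positivity
  set g : ℕ → ℂ := fun i => (f i : ℂ) * ee (i * ((r : ℝ) / q)) with hg
  have hg1 : ∀ i, ‖g i‖ ≤ 1 := fun i => by
    simp only [hg, norm_mul, norm_ee, mul_one, Complex.norm_real, Real.norm_eq_abs]
    exact hf i
  have hb : ∀ m, ‖∑ i ∈ Ioc m (m + W), g i‖ ≤ W := fun m => by
    refine (norm_sum_le _ _).trans ((sum_le_sum fun i _ => hg1 i).trans ?_)
    simp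
  have h1 : ∀ i ∈ Ioc a n, g (i + W) - g i = (ee (((W * r : ℕ) : ℝ) / q) - 1) * g i := by
    intro i _
    have : ee (((i + W : ℕ) : ℝ) * ((r : ℝ) / q)) =
        ee (((W * r : ℕ) : ℝ) / q) * ee (i * ((r : ℝ) / q)) := by
      rw [← ee_add]; congr 1; push_cast; ring
    simp only [hg, hper, this]; ring
  have h2 := proj_shift g W a n han
  rw [sum_congr rfl h1, ← mul_sum] at h2
  have h3 := congrArg norm h2
  rw [norm_mul] at h3
  have h4 : ‖∑ i ∈ Ioc n (n + W), g i - ∑ i ∈ Ioc a (a + W), g i‖ ≤ 2 * W :=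
    (norm_sub_le _ _).trans (by linarith [hb n, hb a])
  have h5 := four_nn_le (((W * r : ℕ) : ℝ) / q)
  have h6 := proj_nn (W * r) q hq h
  have h0 : (0 : ℝ) < q := by positivity
  have h7 : 1 / (q : ℝ) * ‖∑ i ∈ Ioc a n, g i‖ ≤ W := by
    have := norm_nonneg (∑ i ∈ Ioc a n, g i)
    have h8 : (0 : ℝ) ≤ W := by positivity
    nlinarith
  rwa [one_div_mul_eq_div, div_le_iff₀ h0] at h7

theorem proj_ft (f : ℕ → ℝ) (W q r A1 A2 : ℕ) (hf : ∀ a, |f a| ≤ 1)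
    (hper : ∀ a, f (a + W) = f a) (hq : 0 < q) (h : ¬ q ∣ W * r) (hA : 0 < A1) :
    ‖ft (Ioc A1 A2) (gam f) ((r : ℝ) / q)‖ ≤ W * q * (1 / √(A1 : ℝ)) := by
  have h1 : ft (Ioc A1 A2) (gam f) ((r : ℝ) / q) = ∑ i ∈ Ioc A1 A2,
      ((f i : ℂ) * ee (i * ((r : ℝ) / q))) * ((1 / √(i : ℝ) : ℝ) : ℂ) := by
    refine sum_congr rfl fun i _ => ?_
    rw [gam]; push_cast; ring
  have hanti : ∀ i j : ℕ, 0 < i → i ≤ j → 1 / √(j : ℝ) ≤ 1 / √(i : ℝ) := fun i j hi hij =>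
    one_div_le_one_div_of_le (Real.sqrt_pos.2 (by positivity))
      (Real.sqrt_le_sqrt (by exact_mod_cast hij))
  rw [h1]
  refine abel_bound _ (fun i => ((1 / √(i : ℝ) : ℝ) : ℂ)) A1 A2 _ _ (by positivity) (by positivity)
    (fun n _ => proj_psum f W q r hf hper hq h A1 n) fun hlt => ?_
  obtain ⟨M, rfl⟩ : ∃ M, A2 = M + 1 := ⟨A2 - 1, by omega⟩
  simp only [Nat.add_sub_cancel]
  have h2 : ∀ i ∈ Ioc A1 M, ‖((1 / √((i + 1 : ℕ) : ℝ) : ℝ) : ℂ) - ((1 / √(i : ℝ) : ℝ) : ℂ)‖ =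
      -(1 / √((i + 1 : ℕ) : ℝ) - 1 / √(i : ℝ)) := by
    intro i hi
    rw [← Complex.ofReal_sub, Complex.norm_real, Real.norm_eq_abs, abs_of_nonpos]
    exact sub_nonpos.2 (hanti i (i + 1) (by have := (mem_Ioc.1 hi).1; omega) (by omega))
  rw [sum_congr rfl h2, sum_neg_distrib, tele_Ioc (fun i => 1 / √(i : ℝ)) A1 M (by omega),
    Complex.norm_real, Real.norm_of_nonneg (by positivity)]
  have := hanti A1 (A1 + 1) hA (by omega)
  linarith

theorem proj_en_f (f : ℕ → ℝ) (W q A1 A2 : ℕ) (hf : ∀ a, |f a| ≤ 1)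
    (hper : ∀ a, f (a + W) = f a) (hq : 0 < q) (h : ¬ q ∣ W) (hA : 0 < A1) :
    1 / (q : ℝ) * en (Ioc A1 A2) (gam f) q ≤ (W : ℝ) ^ 2 * q ^ 2 / A1 := by
  have h0 : (0 : ℝ) < q := by positivity
  have hA' : (0 : ℝ) < A1 := by positivity
  have h1 : ∀ r ∈ red q, ‖ft (Ioc A1 A2) (gam f) ((r : ℝ) / q)‖ ^ 2 ≤ (W : ℝ) ^ 2 * q ^ 2 / A1 := by
    intro r hr
    have h2 : r.Coprime q := (mem_filter.1 hr).2
    have h3 := proj_ft f W q r A1 A2 hf hper hq (fun h4 => h (h2.symm.dvd_of_dvd_mul_right h4)) hA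
    refine (pow_le_pow_left₀ (norm_nonneg _) h3 2).trans (le_of_eq ?_)
    rw [mul_pow, mul_pow, div_pow, Real.sq_sqrt hA'.le]; ring
  have h4 : en (Ioc A1 A2) (gam f) q ≤ q * ((W : ℝ) ^ 2 * q ^ 2 / A1) := by
    refine (sum_le_sum h1).trans ?_
    rw [sum_const, nsmul_eq_mul]
    exact mul_le_mul_of_nonneg_right (by exact_mod_cast card_red_le q) (by positivity)
  rw [one_div_mul_eq_div, div_le_iff₀ h0]
  linarith

theorem proj_en_sub (I : Finset ℕ) (α f : ℕ → ℝ) (q : ℕ) :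
    en I (gam fun a => α a - f a) q ≤ 2 * en I (gam α) q + 2 * en I (gam f) q := by
  unfold en
  rw [mul_sum, mul_sum, ← sum_add_distrib]
  refine sum_le_sum fun r _ => ?_
  have h1 : ft I (gam fun a => α a - f a) ((r : ℝ) / q) =
      ft I (gam α) ((r : ℝ) / q) - ft I (gam f) ((r : ℝ) / q) := by
    unfold ft
    rw [← sum_sub_distrib]
    refine sum_congr rfl fun a _ => ?_
    simp only [gam]; push_cast; ring
  rw [h1]
  have h2 := norm_sub_le (ft I (gam α) ((r : ℝ) / q)) (ft I (gam f) ((r : ℝ) / q))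
  have h3 := pow_le_pow_left₀ (norm_nonneg _) h2 2
  nlinarith [sq_nonneg (‖ft I (gam α) ((r : ℝ) / q)‖ - ‖ft I (gam f) ((r : ℝ) / q)‖)]

theorem proj_nsq (A1 A2 : ℕ) (z : ℝ) (α : ℕ → ℝ) (hA : 0 < A1) (hα : ∀ a, |α a| ≤ 1)
    (hr : ∀ a, α a ≠ 0 → Rough z a) :
    nsq (Ioc A1 A2) (gam α) ≤ (((Ioc A1 A2).filter (Rough z)).card : ℝ) / A1 := by
  have hA' : (0 : ℝ) < A1 := by positivity
  have h1 : ∀ a ∈ Ioc A1 A2, ‖gam α a‖ ^ 2 ≤ if Rough z a then 1 / (A1 : ℝ) else 0 := by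
    intro a ha
    have h2 : (A1 : ℝ) < a := by exact_mod_cast (mem_Ioc.1 ha).1
    rw [gam, Complex.norm_real, Real.norm_eq_abs, sq_abs, div_pow, Real.sq_sqrt (by positivity)]
    split_ifs with h3
    · have h4 : α a ^ 2 ≤ 1 := by rw [← sq_abs]; exact pow_le_one₀ (abs_nonneg _) (hα a)
      exact div_le_div₀ zero_le_one h4 hA' h2.le
    · have h4 : α a = 0 := by by_contra h5; exact h3 (hr a h5)
      simp [h4]
  refine (sum_le_sum h1).trans (le_of_eq ?_)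
  rw [← sum_filter, sum_const, nsmul_eq_mul, mul_one_div]

theorem t_PROJ (hSIFT : S_SIFT) (hRC : S_RC) : S_PROJ := by
  obtain ⟨C1, hC1, h1⟩ := hSIFT
  obtain ⟨C2, hC2, h2⟩ := hRC
  refine ⟨5 / 2 * C1 * C2 + 2, by positivity, ?_⟩
  intro A1 A2 R Q z α hR hz hA hQ hz5 hα hr
  have hz0 : 0 < z := by linarith
  have hA' : (0 : ℝ) < A1 := lt_of_lt_of_le (by positivity) hz5
  have hA0 : 0 < A1 := by exact_mod_cast hA'
  have hA2 : (A2 : ℝ) ≤ 5 / 4 * A1 := by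
    have : ((4 * A2 : ℕ) : ℝ) ≤ ((5 * A1 : ℕ) : ℝ) := by exact_mod_cast hA
    push_cast at this; linarith
  have hlz : 0 < Real.log z := Real.log_pos (by linarith)
  have hR' : (2 : ℝ) ≤ R := by exact_mod_cast hR
  have hlR : 0 ≤ Real.log R / R := div_nonneg (Real.log_nonneg (by linarith)) (by linarith)
  set I := Ioc A1 A2 with hI
  set W := R.factorial with hW
  refine ⟨proj_f I W α, proj_f_le I W α hα, proj_f_per I W α, proj_md I W α hα, ?_⟩
  have hIa : ∀ a ∈ I, (A1 : ℝ) < a ∧ (a : ℝ) ≤ 5 / 4 * A1 := fun a ha =>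
    ⟨by exact_mod_cast (mem_Ioc.1 ha).1,
      le_trans (by exact_mod_cast (mem_Ioc.1 ha).2) hA2⟩
  have h3 := h1 z (5 / 4 * A1) R Q I (gam α) hz hR (by linarith) (fun a ha => (hIa a ha).2)
    (fun a _ h => hr a fun h' => h (by simp [gam, h']))
  have h4 := h2 z A1 A1 (I.filter (Rough z)) hz hz5 fun m hm =>
    ⟨(hIa m (mem_filter.1 hm).1).1, by linarith [(hIa m (mem_filter.1 hm).1).2],
      (mem_filter.1 hm).2⟩
  have h5 : nsq I (gam α) ≤ C2 / Real.log z := by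
    refine (proj_nsq A1 A2 z α hA0 hα hr).trans ?_
    rw [div_le_iff₀ hA']
    refine h4.trans (le_of_eq ?_)
    ring
  have h6 : ∑ q ∈ Ioc R Q, 1 / (q : ℝ) * en I (gam α) q ≤
      5 / 4 * C1 * C2 * (Real.log R / R * A1 / Real.log z ^ 2) := by
    refine h3.trans ((mul_le_mul_of_nonneg_left h5 (by positivity)).trans (le_of_eq ?_))
    field_simp
  have h7 : ∀ q ∈ Icc 1 Q, 1 / (q : ℝ) * en I (gam fun a => α a - proj_f I W α a) q ≤
      (if R < q then 2 * (1 / (q : ℝ) * en I (gam α) q) else 0) +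
        2 * ((W : ℝ) ^ 2 * Q ^ 2 / A1) := by
    intro q hq
    obtain ⟨hq1, hq2⟩ := mem_Icc.1 hq
    have hq0 : (0 : ℝ) < q := by positivity
    have e0 := en_nonneg I (gam α) q
    by_cases hd : q ∣ W
    · rw [proj_en_zero I W α hα q hq1 hd, mul_zero]
      split_ifs <;> positivity
    · have hRq : R < q := by
        by_contra h
        exact hd (Nat.dvd_factorial hq1 (not_lt.1 h))
      rw [if_pos hRq]
      have h8 := proj_en_f (proj_f I W α) W q A1 A2 (proj_f_le I W α hα) (proj_f_per I W α) hq1 hd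
        hA0
      have h9 := mul_le_mul_of_nonneg_left (proj_en_sub I α (proj_f I W α) q)
        (by positivity : 0 ≤ 1 / (q : ℝ))
      have h10 : (W : ℝ) ^ 2 * q ^ 2 / A1 ≤ (W : ℝ) ^ 2 * Q ^ 2 / A1 := by
        have : (q : ℝ) ≤ Q := by exact_mod_cast hq2
        gcongr
      rw [← hI] at h8
      linarith
  have h11 : (Icc 1 Q).filter (fun q => R < q) = Ioc R Q := by
    ext q; simp only [mem_filter, mem_Icc, mem_Ioc]; omega
  have h12 := sum_le_sum h7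
  rw [sum_add_distrib, ← sum_filter, h11, ← mul_sum, sum_const, Nat.card_Icc, nsmul_eq_mul,
    Nat.add_sub_cancel] at h12
  have h13 : 0 ≤ Real.log R / R * A1 / Real.log z ^ 2 := by positivity
  have h14 : 0 ≤ (W : ℝ) ^ 2 * Q ^ 3 / A1 := by positivity
  have h15 : (Q : ℝ) * (2 * ((W : ℝ) ^ 2 * Q ^ 2 / A1)) = 2 * ((W : ℝ) ^ 2 * Q ^ 3 / A1) := by ring
  have h16 : 0 ≤ C1 * C2 := by positivity
  unfold enS
  nlinarith [mul_nonneg h16 h14]

end Pool.Agent.P.MP_8be758_nt.Avg
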