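import Pool.Agent.P.MP_8be758_nt.Avg.Basic

/-! Periodic sums and the number of values of the polynomial below a bound. -/

namespace Pool.Agent.P.MP_8be758_nt.Avg

open Finset Real Filter Topology
open Pool.Agent.P.MP_e86632_nt (ee)

theorem ps_full {f : ℕ → ℝ} {q : ℕ} (hf : ∀ n, f (n + q) = f n) (a : ℕ) :
    ∑ n ∈ Ico a (a + q), f n = ∑ n ∈ range q, f n := by
  induction a with
  | zero => rw [zero_add, range_eq_Ico]
  | succ a ih =>
    have h1 := sum_Ico_succ_top (Nat.le_add_right a q) f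
    have h2 := sum_eq_sum_Ico_succ_bot (by omega : a < a + q + 1) f
    rw [show a + 1 + q = a + q + 1 by ring]
    linarith [hf a]

theorem ps_one {f : ℕ → ℝ} {q : ℕ} (hq : 0 < q) (hf : ∀ n, f (n + q) = f n) (a s : ℕ) :
    |∑ n ∈ Ico a (a + s), f n - (s : ℝ) / q * ∑ n ∈ range q, f n| ≤
      2 * ∑ n ∈ range q, |f n| := by
  have hq0 : (0 : ℝ) < q := by exact_mod_cast hq
  induction s using Nat.strong_induction_on with
  | _ s ih =>
    rcases lt_or_ge s q with h | h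
    · have h1 : |∑ n ∈ Ico a (a + s), f n| ≤ ∑ n ∈ range q, |f n| := by
        rw [← ps_full (f := fun n => |f n|) (fun n => by rw [hf]) a]
        exact (abs_sum_le_sum_abs _ _).trans (sum_le_sum_of_subset_of_nonneg
          (Ico_subset_Ico_right (by omega)) fun _ _ _ => abs_nonneg _)
      have h2 : |(s : ℝ) / q * ∑ n ∈ range q, f n| ≤ ∑ n ∈ range q, |f n| := by
        rw [abs_mul, abs_of_nonneg (by positivity : (0 : ℝ) ≤ s / q)]
        refine (mul_le_of_le_one_left (abs_nonneg _) ?_).trans (abs_sum_le_sum_abs _ _)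
        rw [div_le_one hq0]
        exact_mod_cast h.le
      exact (abs_sub _ _).trans (by linarith)
    · obtain ⟨t, rfl⟩ := Nat.exists_eq_add_of_le' h
      have h1 := ih t (by omega)
      rw [← add_assoc, ← sum_Ico_consecutive f (Nat.le_add_right a t) (Nat.le_add_right _ q),
        ps_full hf]
      have h2 : ((t + q : ℕ) : ℝ) / q = t / q + 1 := by push_cast; field_simp
      rw [h2, add_mul, one_mul, add_sub_add_right_eq_sub]
      exact h1

theorem ps_first (f : ℕ → ℝ) (q n1 n2 : ℕ) (hq : 0 < q) (h : n1 ≤ n2) (hf : ∀ n, f (n + q) = f n) :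
    |∑ n ∈ Ico n1 n2, f n - ((n2 : ℝ) - n1) / q * ∑ n ∈ range q, f n| ≤
      2 * ∑ n ∈ range q, |f n| := by
  obtain ⟨s, rfl⟩ := Nat.exists_eq_add_of_le h
  simpa using ps_one hq hf n1 s

theorem ps_sqrt (T1 T2 : ℕ) (h : T1 ≤ T2) :
    √(T2 + 1 : ℝ) - √(T1 + 1 : ℝ) ≤ ∑ t ∈ Ioc T1 T2, 1 / (2 * √(t : ℝ)) ∧
      ∑ t ∈ Ioc T1 T2, 1 / (2 * √(t : ℝ)) ≤ √(T2 : ℝ) - √(T1 : ℝ) := by
  induction T2, h using Nat.le_induction with
  | base => simp
  | succ n hn ih =>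
    rw [sum_Ioc_succ_top hn]
    push_cast
    have h0 : (0 : ℝ) ≤ n := Nat.cast_nonneg n
    have h1 : 0 < √(n + 1 : ℝ) := Real.sqrt_pos.2 (by linarith)
    have e0 := Real.sq_sqrt h0
    have e1 := Real.sq_sqrt (by linarith : (0 : ℝ) ≤ n + 1)
    have e2 := Real.sq_sqrt (by linarith : (0 : ℝ) ≤ n + 1 + 1)
    have h2 : √(n + 1 + 1 : ℝ) - √(n + 1 : ℝ) ≤ 1 / (2 * √(n + 1 : ℝ)) := by
      rw [le_div_iff₀ (by positivity)]
      nlinarith [sq_nonneg (√(n + 1 + 1 : ℝ) - √(n + 1 : ℝ))]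
    have h3 : 1 / (2 * √(n + 1 : ℝ)) ≤ √(n + 1 : ℝ) - √(n : ℝ) := by
      rw [div_le_iff₀ (by positivity)]
      nlinarith [sq_nonneg (√(n + 1 : ℝ) - √(n : ℝ))]
    constructor <;> linarith [ih.1, ih.2]

theorem ps_sqrt_abs (T1 T2 : ℕ) (h : T1 ≤ T2) :
    |∑ t ∈ Ioc T1 T2, 1 / (2 * √(t : ℝ)) - (√(T2 : ℝ) - √(T1 : ℝ))| ≤ 1 := by
  obtain ⟨h1, h2⟩ := ps_sqrt T1 T2 h
  have h3 : √(T2 : ℝ) ≤ √(T2 + 1 : ℝ) := Real.sqrt_le_sqrt (by linarith)
  have h4 : √(T1 + 1 : ℝ) ≤ √(T1 : ℝ) + 1 := by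
    rw [Real.sqrt_le_left (by positivity)]
    nlinarith [Real.sq_sqrt (Nat.cast_nonneg (α := ℝ) T1), Real.sqrt_nonneg (T1 : ℝ)]
  rw [abs_le]; constructor <;> linarith

theorem ps_second (g : ℕ → ℝ) (W T1 T2 : ℕ) (hW : 0 < W) (h : T1 ≤ T2)
    (hg : ∀ n, g (n + W) = g n) :
    |∑ t ∈ Ioc T1 T2, g t / (2 * √(t : ℝ)) - (√(T2 : ℝ) - √(T1 : ℝ)) / W * ∑ t ∈ range W, g t| ≤
      6 * ∑ t ∈ range W, |g t| := by
  set S := ∑ t ∈ range W, g t with hS
  set T := ∑ t ∈ range W, |g t| with hT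
  have hST : |S| ≤ T := abs_sum_le_sum_abs _ _
  have hT0 : 0 ≤ T := (abs_nonneg _).trans hST
  have hW1 : (1 : ℝ) ≤ W := by exact_mod_cast hW
  have h1 := Pool.Agent.P.MP_e86632_nt.abel_anti (fun t => g t - S / W)
    (fun t => 1 / (2 * √(t : ℝ))) T1 T2 (2 * T) (by linarith) (fun n _ => ?_)
    (fun _ => by positivity) fun i hi => ?_
  rotate_left
  · rcases le_or_gt n T1 with hn | hn
    · rw [Ioc_eq_empty (by omega), sum_empty, abs_zero]; linarith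
    · have h2 := ps_first g W (T1 + 1) (n + 1) hW (by omega) hg
      rw [Ico_add_one_add_one_eq_Ioc] at h2
      rw [sum_sub_distrib, sum_const, Nat.card_Ioc, nsmul_eq_mul, Nat.cast_sub hn.le]
      refine le_trans (le_of_eq ?_) h2
      push_cast
      congr 1
      ring
  · have h0 : (0 : ℝ) < i := by exact_mod_cast (by omega : 0 < i)
    have h2 : 0 < √(i : ℝ) := Real.sqrt_pos.2 h0
    have h3 : √(i : ℝ) ≤ √((i + 1 : ℕ) : ℝ) := Real.sqrt_le_sqrt (by push_cast; linarith)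
    exact one_div_le_one_div_of_le (by positivity) (by linarith)
  have h2 : 1 / (2 * √((T1 + 1 : ℕ) : ℝ)) ≤ 1 := by
    have : 1 ≤ √((T1 + 1 : ℕ) : ℝ) := Real.one_le_sqrt.2 (by exact_mod_cast Nat.succ_pos T1)
    rw [div_le_one (by linarith)]; linarith
  have h3 := h1.trans (mul_le_of_le_one_right (by linarith) h2)
  have h4 : |S / W * (∑ t ∈ Ioc T1 T2, 1 / (2 * √(t : ℝ)) - (√(T2 : ℝ) - √(T1 : ℝ)))| ≤ T := by
    rw [abs_mul, abs_div, abs_of_pos (by linarith : (0 : ℝ) < W)]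
    exact (mul_le_of_le_one_right (by positivity) (ps_sqrt_abs T1 T2 h)).trans
      ((div_le_self (abs_nonneg _) hW1).trans hST)
  have h5 : ∑ t ∈ Ioc T1 T2, g t / (2 * √(t : ℝ)) - (√(T2 : ℝ) - √(T1 : ℝ)) / W * S =
      ∑ t ∈ Ioc T1 T2, (g t - S / W) * (1 / (2 * √(t : ℝ))) +
        S / W * (∑ t ∈ Ioc T1 T2, 1 / (2 * √(t : ℝ)) - (√(T2 : ℝ) - √(T1 : ℝ))) := by
    rw [mul_sub, mul_sum (Ioc T1 T2), ← add_sub_assoc, ← sum_add_distrib]
    congr 1
    · exact sum_congr rfl fun t _ => by ring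
    · ring
  rw [h5]
  exact (abs_add_le _ _).trans (by linarith)

theorem ps_third (k X : ℕ) (hX : 1 ≤ X) : ∃ c : ℕ, (∀ n, n ^ 2 + n + k ≤ X ↔ n < c) ∧
    |(c : ℝ) - √(X : ℝ)| ≤ 1 + k / √(X : ℝ) := by
  have hex : ∃ n : ℕ, X < n ^ 2 + n + k := ⟨X, by nlinarith⟩
  have h1 : ∀ n, n ^ 2 + n + k ≤ X ↔ n < Nat.find hex := fun n =>
    ⟨fun h => not_le.1 fun h2 => absurd ((Nat.find_spec hex).trans_le
      ((quad_strictMono k).monotone h2)) (not_lt.2 h), fun h => not_lt.1 (Nat.find_min hex h)⟩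
  refine ⟨Nat.find hex, h1, ?_⟩
  have h2 := Nat.find_spec hex
  generalize Nat.find hex = c at h1 h2
  have hs : 0 < √(X : ℝ) := Real.sqrt_pos.2 (by exact_mod_cast hX)
  have e := Real.sq_sqrt (Nat.cast_nonneg (α := ℝ) X)
  have h0 : 0 ≤ (k : ℝ) / √(X : ℝ) := by positivity
  have hc : (0 : ℝ) ≤ c := Nat.cast_nonneg c
  rw [abs_le]
  constructor
  · rcases le_or_gt (√(X : ℝ)) (c + 1) with h | h
    · linarith
    · have h3 : (X : ℝ) < c ^ 2 + c + k := by exact_mod_cast h2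
      have h4 : √(X : ℝ) - c - 1 ≤ k / √(X : ℝ) := by
        rw [le_div_iff₀ hs]; nlinarith
      linarith
  · rcases c with _ | c
    · push_cast; linarith
    · have h3 : c ^ 2 ≤ X := by have := (h1 c).2 (Nat.lt_succ_self c); omega
      have h4 : (c : ℝ) ≤ √(X : ℝ) := Real.le_sqrt_of_sq_le (by exact_mod_cast h3)
      push_cast; linarith

theorem t_PS : S_PS := ⟨ps_first, ps_second, fun k X _ hX => ps_third k X hX⟩

end Pool.Agent.P.MP_8be758_nt.Avg
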