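import Pool.Agent.P.MP_8be758_nt.Avg.Basic

/-! Riemann sum for the scale-invariant weight. -/

namespace Pool.Agent.P.MP_8be758_nt.Avg

open Finset Real Filter Topology
open Pool.Agent.P.MP_e86632_nt (ee)

/-- the scale-invariant weight -/
noncomputable def rs_phi (t : ℝ) : ℝ := psi 1 (1 / t ^ 2) / t

theorem rs_nonneg {t : ℝ} (ht : 0 ≤ t) : 0 ≤ rs_phi t :=
  div_nonneg (psi_nonneg one_pos (by positivity)) ht

theorem rs_le_cube {t : ℝ} (ht : 0 < t) : rs_phi t ≤ π / t ^ 3 := by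
  refine (div_le_div_of_nonneg_right (psi_le_lin one_pos (by positivity)) ht.le).trans_eq ?_
  field_simp

theorem rs_exp {y : ℝ} (hy : 0 ≤ y) :
    y * Real.exp (-y) ≤ 1 ∧ y ^ 2 * Real.exp (-y) ≤ 2 ∧ Real.exp (-y) ≤ 1 := by
  have h1 := Real.quadratic_le_exp_of_nonneg hy
  have h2 := Real.exp_pos (-y)
  have h3 : Real.exp y * Real.exp (-y) = 1 := by rw [← Real.exp_add]; simp
  have h4 := mul_le_mul_of_nonneg_right h1 h2.le
  have h5 := mul_nonneg hy h2.le
  have h6 := mul_nonneg (sq_nonneg y) h2.le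
  refine ⟨?_, ?_, ?_⟩ <;> nlinarith

theorem rs_le_lin {t : ℝ} (ht : 0 < t) : rs_phi t ≤ t := by
  have h1 := psi_le_exp 1 (1 / t ^ 2)
  have h2 := (rs_exp (y := π * (1 / t ^ 2) / 1) (by positivity)).1
  have h3 := Real.exp_pos (-(π * (1 / t ^ 2) / 1))
  rw [rs_phi, div_le_iff₀ ht]
  refine h1.trans ?_
  generalize Real.exp (-(π * (1 / t ^ 2) / 1)) = E at *
  rw [div_one, mul_one_div, div_mul_eq_mul_div, div_le_one (by positivity)] at h2
  nlinarith [Real.pi_gt_three]

theorem rs_deriv {t : ℝ} (ht : 0 < t) : ∃ d, HasDerivAt rs_phi d t ∧ |d| ≤ 2 := by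
  have h0 : HasDerivAt (fun t : ℝ => 1 / t ^ 2) (-2 / t ^ 3) t := by
    have := (hasDerivAt_pow 2 t).inv (by positivity)
    simp only [one_div]
    refine this.congr_deriv ?_
    field_simp
    norm_num [mul_comm]
  have h1 := ((((h0.const_mul π).div_const 1).neg.exp).sub
    (((h0.const_mul (2 * π)).div_const 1).neg.exp)).div (hasDerivAt_id t) ht.ne'
  refine ⟨_, h1, ?_⟩
  obtain ⟨a1, a2, a3⟩ := rs_exp (y := π * (1 / t ^ 2) / 1) (by positivity)
  have a4 := Real.exp_pos (-(π * (1 / t ^ 2) / 1))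
  have e : Real.exp (-(2 * π * (1 / t ^ 2) / 1)) = Real.exp (-(π * (1 / t ^ 2) / 1)) ^ 2 := by
    rw [← Real.exp_nat_mul]; congr 1; ring
  simp only [Pi.neg_apply, Pi.sub_apply, id, e]
  generalize Real.exp (-(π * (1 / t ^ 2) / 1)) = E at *
  have hy : 0 < π * (1 / t ^ 2) / 1 := by positivity
  have e2 : ((E * -(π * (-2 / t ^ 3) / 1) - E ^ 2 * -(2 * π * (-2 / t ^ 3) / 1)) * t -
      (E - E ^ 2) * 1) / t ^ 2 = ((π * (1 / t ^ 2) / 1) ^ 2 * E * (2 - 4 * E) -
        (π * (1 / t ^ 2) / 1) * E * (1 - E)) / π := by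
    field_simp
    ring
  rw [e2]
  generalize π * (1 / t ^ 2) / 1 = y at *
  rw [abs_div, abs_of_pos Real.pi_pos, div_le_iff₀ Real.pi_pos, abs_le]
  have b1 : 0 ≤ y ^ 2 * E := by positivity
  have b2 : 0 ≤ y * E := by positivity
  generalize y ^ 2 * E = u at *
  generalize y * E = v at *
  constructor <;> nlinarith [Real.pi_gt_three]

theorem rs_lip {s t : ℝ} (hs : 0 ≤ s) (ht : 0 ≤ t) : |rs_phi t - rs_phi s| ≤ 2 * |t - s| := by
  wlog h : s ≤ t generalizing s t
  · rw [abs_sub_comm, abs_sub_comm t]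
    exact this ht hs (le_of_not_ge h)
  rcases hs.eq_or_lt with rfl | hs'
  · rcases ht.eq_or_lt with rfl | ht'
    · simp
    · have h1 := rs_le_lin ht'
      rw [show rs_phi 0 = 0 by simp [rs_phi], sub_zero, sub_zero, abs_of_nonneg (rs_nonneg ht),
        abs_of_nonneg ht]
      linarith
  · choose! d hd using fun t (ht : t ∈ Set.Ioi (0 : ℝ)) => rs_deriv ht
    exact (convex_Ioi (0 : ℝ)).norm_image_sub_le_of_norm_hasDerivWithin_le
      (fun x hx => (hd x hx).1.hasDerivWithinAt) (fun x hx => (hd x hx).2) hs' (hs'.trans_le h)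

theorem rs_cont : ContinuousOn rs_phi (Set.Ici 0) :=
  (LipschitzOnWith.of_dist_le_mul (K := 2) fun _ hx _ hy => by
    simpa [Real.dist_eq] using rs_lip hy hx).continuousOn

theorem rs_int {a b : ℝ} (ha : 0 ≤ a) (hb : 0 ≤ b) :
    IntervalIntegrable rs_phi MeasureTheory.volume a b :=
  (rs_cont.mono fun _ hx => (le_min ha hb).trans hx.1).intervalIntegrable

theorem rs_cell {a h : ℝ} (ha : 0 ≤ a) (hh : 0 ≤ h) :
    |rs_phi (a + h) * h - ∫ t in a..a + h, rs_phi t| ≤ 2 * h ^ 2 := by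
  have h1 := intervalIntegral.norm_integral_le_of_norm_le_const (a := a) (b := a + h) (C := 2 * h)
    (f := fun t => rs_phi (a + h) - rs_phi t) fun t ht => by
      rw [Set.uIoc_of_le (by linarith)] at ht
      refine (rs_lip (ha.trans ht.1.le) (by linarith)).trans ?_
      rw [abs_of_nonneg (by linarith [ht.2])]
      linarith [ht.1]
  rw [intervalIntegral.integral_sub (by simp) (rs_int ha (by linarith)),
    intervalIntegral.integral_const, add_sub_cancel_left, abs_of_nonneg hh, smul_eq_mul,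
    mul_comm h] at h1
  exact h1.trans_eq (by ring)

theorem rs_term {x : ℝ} (hx : 0 < x) (j : ℕ) :
    1 / (j : ℝ) * psi 1 (x ^ 2 / (j : ℝ) ^ 2) = rs_phi (j / x) * (1 / x) := by
  rcases Nat.eq_zero_or_pos j with rfl | hj
  · simp [rs_phi]
  have : (0 : ℝ) < j := by exact_mod_cast hj
  rw [rs_phi, show 1 / ((j : ℝ) / x) ^ 2 = x ^ 2 / (j : ℝ) ^ 2 by field_simp]
  field_simp

theorem rs_sum {x : ℝ} (hx : 0 < x) (j : ℕ) :
    |∑ i ∈ Icc 1 j, rs_phi (i / x) * (1 / x) - ∫ t in (0 : ℝ)..j / x, rs_phi t| ≤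
      2 * j / x ^ 2 := by
  induction j with
  | zero => simp
  | succ j ih =>
    have h1 := rs_cell (a := j / x) (h := 1 / x) (by positivity) (by positivity)
    rw [sum_Icc_succ_top (by omega), Nat.cast_succ, add_div,
      ← intervalIntegral.integral_add_adjacent_intervals (b := j / x) (rs_int le_rfl (by positivity))
        (rs_int (by positivity) (by positivity)), ← sub_add_sub_comm]
    refine (abs_add_le _ _).trans ((add_le_add ih h1).trans_eq ?_)
    field_simp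

theorem rs_tail {T : ℝ} (hT : 0 < T) :
    |(∫ t in (0 : ℝ)..T, rs_phi t) - ∫ t in Set.Ioi 0, rs_phi t| ≤ 2 / T ^ 2 := by
  have h1 := (integrableOn_Ioi_rpow_of_lt (a := -3) (by norm_num) hT).const_mul π
  have h2 : ∀ t ∈ Set.Ioi T, rs_phi t ≤ π * t ^ (-3 : ℝ) := fun t ht => by
    have h0 : 0 < t := hT.trans ht
    rw [Real.rpow_neg h0.le, show (3 : ℝ) = (3 : ℕ) by norm_num, Real.rpow_natCast]
    exact rs_le_cube h0
  have h3 : MeasureTheory.IntegrableOn rs_phi (Set.Ioi T) :=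
    MeasureTheory.Integrable.mono' h1
      ((rs_cont.mono fun t ht => (hT.trans ht).le).aestronglyMeasurable measurableSet_Ioi)
      ((MeasureTheory.ae_restrict_iff' measurableSet_Ioi).2 (Eventually.of_forall fun t ht => by
        rw [Real.norm_of_nonneg (rs_nonneg (hT.trans ht).le)]
        exact h2 t ht))
  have h4 := MeasureTheory.setIntegral_mono_on h3 h1 measurableSet_Ioi h2
  rw [MeasureTheory.integral_const_mul, integral_Ioi_rpow_of_lt (by norm_num) hT,
    show (-3 + 1 : ℝ) = -((2 : ℕ) : ℝ) by norm_num, Real.rpow_neg hT.le, Real.rpow_natCast] at h4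
  rw [← intervalIntegral.integral_interval_add_Ioi' (rs_int le_rfl hT.le) h3, sub_add_cancel_left,
    abs_neg, abs_of_nonneg (MeasureTheory.setIntegral_nonneg measurableSet_Ioi fun t ht =>
      rs_nonneg (hT.trans ht).le)]
  refine h4.trans ?_
  have h5 : 0 < (T ^ 2)⁻¹ := by positivity
  rw [div_eq_mul_inv 2]
  push_cast
  nlinarith [Real.pi_lt_four]

theorem rs_near {x : ℝ} (hx : 0 < x) {j : ℕ} (hj : 1 ≤ j) :
    |∑ i ∈ Icc 1 j, rs_phi (i / x) * (1 / x) - ∫ t in Set.Ioi 0, rs_phi t| ≤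
      2 * j / x ^ 2 + 2 * (x ^ 2 / (j : ℝ) ^ 2) := by
  have h0 : (0 : ℝ) < j := by exact_mod_cast hj
  refine (abs_sub_le _ _ _).trans (add_le_add (rs_sum hx j)
    ((rs_tail (div_pos h0 hx)).trans_eq ?_))
  field_simp

theorem rs_far {x : ℝ} (hx : 0 < x) {j1 j : ℕ} (h1 : 1 ≤ j1) (hj : j1 ≤ j) :
    |∑ i ∈ Icc 1 j, rs_phi (i / x) * (1 / x) - ∑ i ∈ Icc 1 j1, rs_phi (i / x) * (1 / x)| ≤
      2 * (x ^ 2 / (j1 : ℝ) ^ 2) - 2 * (x ^ 2 / (j : ℝ) ^ 2) := by
  induction j, hj using Nat.le_induction with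
  | base => simp
  | succ j hj ih =>
    have h0 : (0 : ℝ) < j := by exact_mod_cast (by omega : 0 < j)
    have h2 : (0 : ℝ) < (j + 1) / x := by positivity
    have h3 : rs_phi ((j + 1) / x) * (1 / x) ≤
        2 * (x ^ 2 / (j : ℝ) ^ 2) - 2 * (x ^ 2 / ((j : ℝ) + 1) ^ 2) := by
      refine (mul_le_mul_of_nonneg_right (rs_le_cube h2) (by positivity)).trans ?_
      rw [show π / ((j + 1) / x) ^ 3 * (1 / x) = x ^ 2 * (π / (j + 1) ^ 3) by field_simp,
        show 2 * (x ^ 2 / (j : ℝ) ^ 2) - 2 * (x ^ 2 / ((j : ℝ) + 1) ^ 2) =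
          x ^ 2 * ((4 * j + 2) * (j + 1) / j ^ 2 / (j + 1) ^ 3) by field_simp; ring]
      refine mul_le_mul_of_nonneg_left (div_le_div_of_nonneg_right ?_ (by positivity))
        (sq_nonneg x)
      rw [le_div_iff₀ (by positivity)]
      nlinarith [Real.pi_lt_four, sq_nonneg (j : ℝ)]
    rw [sum_Icc_succ_top (by omega), Nat.cast_succ, add_sub_right_comm]
    refine (abs_add_le _ _).trans ?_
    rw [abs_of_nonneg (mul_nonneg (rs_nonneg h2.le) (by positivity))]
    linarith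

theorem t_RS : S_RS := by
  refine ⟨|∫ t in Set.Ioi 0, rs_phi t| + 8, ∫ t in Set.Ioi 0, rs_phi t, by positivity,
    by linarith, fun x j0 hx hj => ?_⟩
  simp only [rs_term hx]
  have h0 : 0 ≤ x ^ 2 / (j0 : ℝ) ^ 2 := by positivity
  have hI := abs_nonneg (∫ t in Set.Ioi 0, rs_phi t)
  rcases le_or_gt 1 x with h1 | h1
  · have hs : 1 ≤ √x := Real.one_le_sqrt.2 h1
    have hs2 : √x * √x = x := Real.mul_self_sqrt hx.le
    have hp : 1 ≤ x * √x := by nlinarith
    have hm : 0 < 1 / √x := by positivity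
    rw [min_eq_right ((div_le_one (by positivity)).2 hs)]
    have hJ := Nat.le_ceil (x * √x)
    have hJ' := (Nat.ceil_lt_add_one (by positivity : 0 ≤ x * √x)).le
    have hJ1 : 1 ≤ ⌈x * √x⌉₊ := by exact_mod_cast hp.trans hJ
    generalize ⌈x * √x⌉₊ = J at *
    have key : ∀ j : ℕ, j ≤ J → 2 * j / x ^ 2 ≤ 4 * (1 / √x) := fun j h => by
      have : (j : ℝ) ≤ J := by exact_mod_cast h
      rw [mul_one_div, div_le_div_iff₀ (by positivity) (by positivity)]
      nlinarith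
    rcases le_total j0 J with h | h
    · have := rs_near hx hj
      have := key j0 h
      nlinarith
    · have h2 := rs_near hx hJ1
      have h3 := rs_far hx hJ1 h
      have h4 := key J le_rfl
      have h5 : x ^ 2 / (J : ℝ) ^ 2 ≤ 1 / √x := by
        rw [div_le_div_iff₀ (by positivity) (by positivity)]
        have h6 : (x * √x) ^ 2 ≤ (J : ℝ) ^ 2 := pow_le_pow_left₀ (by positivity) hJ 2
        have h7 : x ^ 2 * √x ≤ x ^ 2 * (√x * √x) :=
          mul_le_mul_of_nonneg_left (by nlinarith) (sq_nonneg x)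
        nlinarith
      refine (abs_sub_le _ _ _).trans ((add_le_add h3 h2).trans ?_)
      nlinarith
  · have hs : √x ≤ 1 := Real.sqrt_le_one.2 h1.le
    rw [min_eq_left ((one_le_div (by positivity)).2 hs)]
    have h2 := rs_far hx le_rfl hj
    have h3 : |∑ i ∈ Icc 1 1, rs_phi ((i : ℕ) / x) * (1 / x)| ≤ 4 := by
      have h4 : 0 < 1 / x := by positivity
      rw [Icc_self, sum_singleton, Nat.cast_one, abs_of_nonneg (mul_nonneg (rs_nonneg h4.le) h4.le)]
      refine (mul_le_mul_of_nonneg_right (rs_le_cube h4) h4.le).trans ?_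
      rw [show π / (1 / x) ^ 3 * (1 / x) = π * x ^ 2 by field_simp]
      nlinarith [Real.pi_lt_four, Real.pi_pos, mul_pos hx hx]
    have h4 := abs_sub (∑ i ∈ Icc 1 1, rs_phi ((i : ℕ) / x) * (1 / x)) (∫ t in Set.Ioi 0, rs_phi t)
    refine (abs_sub_le _ _ _).trans ((add_le_add h2 h4).trans ?_)
    simp only [Nat.cast_one, one_pow, div_one] at *
    nlinarith [mul_pos hx hx]

end Pool.Agent.P.MP_8be758_nt.Avg
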