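import Pool.Agent.P.MP_8be758_nt.Avg.Basic

/-! Schur multiplier bound for the smooth weight. -/

namespace Pool.Agent.P.MP_8be758_nt.Avg

open Finset Real Filter Topology
open Pool.Agent.P.MP_e86632_nt (ee)

/-- `F` is a Schur multiplier of norm at most `C` -/
def sep_S (I J : Finset ℕ) (F : ℕ → ℕ → ℝ) (C : ℝ) : Prop :=
  ∀ (Kr : ℕ → ℕ → ℂ) (D : ℝ), 0 ≤ D → BB I J Kr D →
    BB I J (fun a b => (F a b : ℂ) * Kr a b) (C * D)

variable {I J : Finset ℕ} {F G : ℕ → ℕ → ℝ} {C C' : ℝ}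

theorem sep_congr (h : sep_S I J F C) (e : ∀ a ∈ I, ∀ b ∈ J, F a b = G a b) : sep_S I J G C := by
  intro Kr D hD hK u v
  refine le_of_eq_of_le (congrArg norm ?_) (h Kr D hD hK u v)
  exact sum_congr rfl fun a ha => sum_congr rfl fun b hb => by simp only [e a ha b hb]

theorem sep_mono (h : sep_S I J F C) (e : C ≤ C') : sep_S I J F C' := fun Kr D hD hK u v =>
  (h Kr D hD hK u v).trans (by gcongr)

theorem sep_one : sep_S I J (fun _ _ => 1) 1 := fun Kr D _ hK => by simpa using hK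

theorem sep_add (h : sep_S I J F C) (h' : sep_S I J G C') :
    sep_S I J (fun a b => F a b + G a b) (C + C') := by
  intro Kr D hD hK u v
  have := (norm_add_le _ _).trans (add_le_add (h Kr D hD hK u v) (h' Kr D hD hK u v))
  simp only [← sum_add_distrib] at this
  refine le_of_eq_of_le (congrArg norm ?_) (this.trans_eq (by ring))
  exact sum_congr rfl fun a _ => sum_congr rfl fun b _ => by push_cast; ring

theorem sep_sub (h : sep_S I J F C) (h' : sep_S I J G C') :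
    sep_S I J (fun a b => F a b - G a b) (C + C') := by
  intro Kr D hD hK u v
  have := (norm_sub_le _ _).trans (add_le_add (h Kr D hD hK u v) (h' Kr D hD hK u v))
  simp only [← sum_sub_distrib] at this
  refine le_of_eq_of_le (congrArg norm ?_) (this.trans_eq (by ring))
  exact sum_congr rfl fun a _ => sum_congr rfl fun b _ => by push_cast; ring

theorem sep_mul (h : sep_S I J F C) (h' : sep_S I J G C') (h0 : 0 ≤ C') :
    sep_S I J (fun a b => F a b * G a b) (C * C') := by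
  intro Kr D hD hK u v
  have := h _ _ (mul_nonneg h0 hD) (h' Kr D hD hK) u v
  refine le_of_eq_of_le (congrArg norm ?_) (this.trans_eq (by ring))
  exact sum_congr rfl fun a _ => sum_congr rfl fun b _ => by push_cast; ring

theorem sep_nsq (I : Finset ℕ) (u : ℕ → ℂ) (f : ℕ → ℝ) :
    nsq I (fun a => u a * f a) = ∑ a ∈ I, ‖u a‖ ^ 2 * f a ^ 2 :=
  sum_congr rfl fun a _ => by rw [norm_mul, Complex.norm_real, mul_pow, Real.norm_eq_abs, sq_abs]

theorem sep_rank {f g : ℕ → ℝ} {P Q : ℝ} (hP : 0 ≤ P) (hQ : 0 ≤ Q) (hf : ∀ a ∈ I, |f a| ≤ P)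
    (hg : ∀ b ∈ J, |g b| ≤ Q) : sep_S I J (fun a b => f a * g b) (P * Q) := by
  have key : ∀ (I : Finset ℕ) (u : ℕ → ℂ) (f : ℕ → ℝ) (P : ℝ), 0 ≤ P → (∀ a ∈ I, |f a| ≤ P) →
      √(nsq I fun a => u a * f a) ≤ P * √(nsq I u) := by
    intro I u f P hP hf
    rw [← Real.sqrt_sq hP, ← Real.sqrt_mul (sq_nonneg P), sep_nsq, nsq, mul_sum]
    refine Real.sqrt_le_sqrt (sum_le_sum fun a ha => ?_)
    rw [mul_comm, ← sq_abs (f a)]
    have := hf a ha
    gcongr
  intro Kr D hD hK u v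
  have h := hK (fun a => u a * f a) fun b => v b * g b
  have h1 := key I u f P hP hf
  have h2 := key J v g Q hQ hg
  refine le_of_eq_of_le (congrArg norm ?_) (h.trans ?_)
  · exact sum_congr rfl fun a _ => sum_congr rfl fun b _ => by push_cast; ring
  · calc _ ≤ D * (P * √(nsq I u)) * (Q * √(nsq J v)) := by gcongr
      _ = _ := by ring

theorem sep_series {f g : ℕ → ℕ → ℝ} {M : ℝ} (hM : 0 ≤ M)
    (hs : ∀ a ∈ I, ∀ b ∈ J, HasSum (fun n => f n a * g n b) (F a b))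
    (hf : ∀ a ∈ I, ∀ N, ∑ n ∈ range N, f n a ^ 2 ≤ M)
    (hg : ∀ b ∈ J, ∀ N, ∑ n ∈ range N, g n b ^ 2 ≤ M) : sep_S I J F M := by
  have key : ∀ (I : Finset ℕ) (u : ℕ → ℂ) (f : ℕ → ℕ → ℝ) (N : ℕ),
      (∀ a ∈ I, ∑ n ∈ range N, f n a ^ 2 ≤ M) →
      √(∑ n ∈ range N, nsq I fun a => u a * f n a) ≤ √M * √(nsq I u) := by
    intro I u f N hf
    rw [← Real.sqrt_mul hM, nsq, mul_sum]
    simp only [sep_nsq]
    rw [sum_comm]
    refine Real.sqrt_le_sqrt (sum_le_sum fun a ha => ?_)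
    rw [← mul_sum, mul_comm]
    have := hf a ha
    gcongr
  intro Kr D hD hK u v
  have hlim : Tendsto (fun N => ∑ a ∈ I, ∑ b ∈ J,
      u a * v b * ((∑ n ∈ range N, f n a * g n b : ℝ) * Kr a b)) atTop
      (𝓝 (∑ a ∈ I, ∑ b ∈ J, u a * v b * ((F a b : ℂ) * Kr a b))) :=
    tendsto_finsetSum _ fun a ha => tendsto_finsetSum _ fun b hb =>
      (((Complex.continuous_ofReal.tendsto _).comp
        (hs a ha b hb).tendsto_sum_nat).mul_const _).const_mul _
  refine le_of_tendsto' hlim.norm fun N => ?_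
  have e : ∑ a ∈ I, ∑ b ∈ J, u a * v b * ((∑ n ∈ range N, f n a * g n b : ℝ) * Kr a b) =
      ∑ n ∈ range N, ∑ a ∈ I, ∑ b ∈ J, (u a * f n a) * (v b * g n b) * Kr a b := by
    rw [sum_comm (s := range N)]
    refine sum_congr rfl fun a _ => ?_
    rw [sum_comm (s := range N)]
    refine sum_congr rfl fun b _ => ?_
    push_cast
    rw [sum_mul, mul_sum]
    exact sum_congr rfl fun n _ => by ring
  rw [e]
  have h1 := key I u f N fun a ha => hf a ha N
  have h2 := key J v g N fun b hb => hg b hb N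
  calc _ ≤ ∑ n ∈ range N, D * (√(nsq I fun a => u a * f n a) * √(nsq J fun b => v b * g n b)) :=
        (norm_sum_le _ _).trans (sum_le_sum fun n _ => (hK _ _).trans_eq (mul_assoc _ _ _))
    _ ≤ D * (√(∑ n ∈ range N, nsq I fun a => u a * f n a) *
          √(∑ n ∈ range N, nsq J fun b => v b * g n b)) := by
        rw [← mul_sum]
        exact mul_le_mul_of_nonneg_left
          (Real.sum_sqrt_mul_sqrt_le _ (fun _ => nsq_nonneg _ _) fun _ => nsq_nonneg _ _) hD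
    _ ≤ D * ((√M * √(nsq I u)) * (√M * √(nsq J v))) := by gcongr
    _ = (√M * √M) * D * √(nsq I u) * √(nsq J v) := by ring
    _ = _ := by rw [Real.mul_self_sqrt hM]

theorem sep_hasSum (x : ℝ) :
    HasSum (fun n : ℕ => x ^ (n + 1) / ((n + 1).factorial : ℝ)) (Real.exp x - 1) := by
  have h := NormedSpace.expSeries_div_hasSum_exp x
  rw [← Real.exp_eq_exp_ℝ] at h
  simpa using (hasSum_nat_add_iff' 1).2 h

theorem sep_exp {e e' y z : ℕ → ℝ} {M : ℝ} (hM : 0 ≤ M)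
    (hy : ∀ a ∈ I, e a ^ 2 * (Real.exp (y a ^ 2) - 1) ≤ M)
    (hz : ∀ b ∈ J, e' b ^ 2 * (Real.exp (z b ^ 2) - 1) ≤ M) :
    sep_S I J (fun a b => e a * e' b * (Real.exp (y a * z b) - 1)) M := by
  have h1 : ∀ (c c' s t : ℝ) (n : ℕ), c * s ^ (n + 1) / √((n + 1).factorial : ℝ) *
      (c' * t ^ (n + 1) / √((n + 1).factorial : ℝ)) =
      c * c' * ((s * t) ^ (n + 1) / ((n + 1).factorial : ℝ)) := by
    intro c c' s t n
    rw [div_mul_div_comm, Real.mul_self_sqrt (Nat.cast_nonneg _), mul_pow]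
    ring
  have h2 : ∀ (c s : ℝ) (N : ℕ), ∑ n ∈ range N, (c * s ^ (n + 1) / √((n + 1).factorial : ℝ)) ^ 2 ≤
      c ^ 2 * (Real.exp (s ^ 2) - 1) := by
    intro c s N
    simp only [sq, h1]
    exact sum_le_hasSum _ (fun n _ => mul_nonneg (mul_self_nonneg c)
      (div_nonneg (pow_nonneg (mul_self_nonneg s) _) (Nat.cast_nonneg _)))
      ((sep_hasSum (s * s)).mul_left (c * c))
  refine sep_series (f := fun n a => e a * y a ^ (n + 1) / √((n + 1).factorial : ℝ))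
    (g := fun n b => e' b * z b ^ (n + 1) / √((n + 1).factorial : ℝ)) hM (fun a _ b _ => ?_)
    (fun a ha N => (h2 _ _ N).trans (hy a ha)) fun b hb N => (h2 _ _ N).trans (hz b hb)
  simp only [h1]
  exact (sep_hasSum _).mul_left _

theorem sep_one_sub {s c : ℝ} (h0 : 0 ≤ s) (h : s ≤ c) :
    0 ≤ 1 - Real.exp (-s) ∧ 1 - Real.exp (-s) ≤ min 1 c := by
  have h1 := Real.add_one_le_exp (-s)
  have h2 := Real.exp_pos (-s)
  have h3 : Real.exp (-s) ≤ 1 := Real.exp_le_one_iff.2 (by linarith)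
  exact ⟨by linarith, le_min (by linarith) (by linarith)⟩

theorem sep_gauss {y : ℕ → ℝ} {c : ℝ} (hc : 0 ≤ c) (hI : ∀ a ∈ I, y a ^ 2 ≤ c)
    (hJ : ∀ a ∈ J, y a ^ 2 ≤ c) :
    sep_S I J (fun a b => 1 - Real.exp (-((y b - y a) ^ 2 / 2))) (3 * min 1 c) := by
  have hm : 0 ≤ min 1 c := le_min zero_le_one hc
  have k1 : ∀ s : ℝ, s ^ 2 ≤ c → |1 - Real.exp (-(s ^ 2 / 2))| ≤ min 1 c := fun s hs => by
    have := sep_one_sub (s := s ^ 2 / 2) (c := c) (by positivity) (by nlinarith)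
    rw [abs_of_nonneg this.1]
    exact this.2
  have k2 : ∀ s : ℝ, s ^ 2 ≤ c →
      Real.exp (-(s ^ 2 / 2)) ^ 2 * (Real.exp (s ^ 2) - 1) ≤ min 1 c := fun s hs => by
    refine le_of_eq_of_le ?_ (sep_one_sub (sq_nonneg s) hs).2
    rw [sq (Real.exp _), ← Real.exp_add, mul_sub, ← Real.exp_add, mul_one]
    rw [show -(s ^ 2 / 2) + -(s ^ 2 / 2) + s ^ 2 = 0 by ring, Real.exp_zero]
    congr 2
    ring
  have s1 := sep_rank (I := I) (J := J) (f := fun a => 1 - Real.exp (-(y a ^ 2 / 2)))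
    (g := fun _ => 1) hm zero_le_one (fun a ha => k1 _ (hI a ha)) fun _ _ => abs_one.le
  have s2 := sep_rank (I := I) (J := J) (f := fun a => Real.exp (-(y a ^ 2 / 2)))
    (g := fun b => 1 - Real.exp (-(y b ^ 2 / 2))) zero_le_one hm
    (fun a _ => by
      rw [abs_of_pos (Real.exp_pos _)]
      exact Real.exp_le_one_iff.2 (by nlinarith [sq_nonneg (y a)])) fun b hb => k1 _ (hJ b hb)
  have s3 := sep_exp (I := I) (J := J) (e := fun a => Real.exp (-(y a ^ 2 / 2)))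
    (e' := fun a => Real.exp (-(y a ^ 2 / 2))) (y := y) (z := y) hm
    (fun a ha => k2 _ (hI a ha)) fun b hb => k2 _ (hJ b hb)
  refine sep_mono (sep_congr (sep_sub (sep_add s1 s2) s3) fun a _ b _ => ?_) (le_of_eq (by ring))
  rw [show -((y b - y a) ^ 2 / 2) = -(y a ^ 2 / 2) + -(y b ^ 2 / 2) + y a * y b by ring,
    Real.exp_add, Real.exp_add]
  ring

theorem sep_psi {A B μ : ℝ} (hA : 0 < A) (hB : 0 < B) (hμ : 0 < μ) (hI : Rng A I) (hJ : Rng A J) :
    sep_S I J (fun a b => psi B (sg a b ^ 2 / μ ^ 2)) (12 * min 1 (A / (B * μ ^ 2))) := by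
  have hl : 0 ≤ 2 * π / (B * μ ^ 2) := by positivity
  have key : ∀ I : Finset ℕ, Rng A I → ∀ a ∈ I,
      (√(2 * π / (B * μ ^ 2)) * (√(a : ℝ) - √A)) ^ 2 ≤ A / (B * μ ^ 2) := by
    intro I hI a ha
    obtain ⟨h1, h2⟩ := hI a ha
    have h3 : √A ≤ √(a : ℝ) := Real.sqrt_le_sqrt h1.le
    have h4 : √(a : ℝ) ≤ 5 / 4 * √A := by
      rw [Real.sqrt_le_left (by positivity), mul_pow, Real.sq_sqrt hA.le]
      linarith
    have h5 : (√(a : ℝ) - √A) ^ 2 ≤ A / 16 := by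
      have := Real.sq_sqrt hA.le
      nlinarith
    rw [mul_pow, Real.sq_sqrt hl, div_mul_eq_mul_div]
    refine div_le_div_of_nonneg_right ?_ (by positivity)
    nlinarith [Real.pi_le_four, Real.pi_pos, sq_nonneg (√(a : ℝ) - √A)]
  have s1 := sep_gauss (y := fun a => √(2 * π / (B * μ ^ 2)) * (√(a : ℝ) - √A))
    (c := A / (B * μ ^ 2)) (by positivity) (key I hI) (key J hJ)
  have hm : 0 ≤ min 1 (A / (B * μ ^ 2)) := le_min zero_le_one (by positivity)
  have hm1 := min_le_left 1 (A / (B * μ ^ 2))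
  refine sep_mono (sep_congr (sep_mul (sep_sub sep_one s1) s1 (by positivity))
    fun a _ b _ => ?_) (by nlinarith)
  have e : (√(2 * π / (B * μ ^ 2)) * (√(b : ℝ) - √A) -
      √(2 * π / (B * μ ^ 2)) * (√(a : ℝ) - √A)) ^ 2 / 2 = π * (sg a b ^ 2 / μ ^ 2) / B := by
    rw [← mul_sub, mul_pow, Real.sq_sqrt hl, sub_sub_sub_cancel_right, sg]
    field_simp
  rw [psi_eq, e, sub_sub_cancel]

theorem sep_inv {A K : ℝ} (hA : 0 < A) (hK : 0 < K) (hI : Rng A I) (hJ : Rng A J) :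
    sep_S I J (fun a b => K / √((a : ℝ) * b)) (K / A) := by
  have key : ∀ I : Finset ℕ, Rng A I → ∀ c : ℝ, 0 < c → ∀ a ∈ I, |c / √(a : ℝ)| ≤ c / √A := by
    intro I hI c hc a ha
    rw [abs_of_nonneg (by positivity)]
    exact div_le_div_of_nonneg_left hc.le (Real.sqrt_pos.2 hA) (Real.sqrt_le_sqrt (hI a ha).1.le)
  refine sep_mono (sep_congr (sep_rank (by positivity) (by positivity) (key I hI K hK)
    (key J hJ 1 one_pos)) fun a _ b _ => ?_) (le_of_eq ?_)
  · rw [div_mul_div_comm, mul_one, Real.sqrt_mul (Nat.cast_nonneg _)]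
  · rw [div_mul_div_comm, mul_one, Real.mul_self_sqrt hA.le]

theorem sep_gs {A s : ℝ} (hA : 0 < A) (hI : Rng A I) (hJ : Rng A J) :
    sep_S I J (fun a b => gs (s / √((a : ℝ) * b))) (gs (s / (2 * A))) := by
  obtain ⟨t, ht⟩ : ∃ t, t = π * s ^ 2 / A ^ 2 := ⟨_, rfl⟩
  have h0 : 0 ≤ t := by rw [ht]; positivity
  have key : ∀ I : Finset ℕ, Rng A I → ∀ a ∈ I, 0 ≤ 1 - A / a ∧ 1 - A / a ≤ 1 / 5 := by
    intro I hI a ha
    obtain ⟨h1, h2⟩ := hI a ha
    have h3 : (0 : ℝ) < a := hA.trans h1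
    have h4 : A / a ≤ 1 := (div_le_one h3).2 h1.le
    have h5 : 4 / 5 ≤ A / a := (le_div_iff₀ h3).2 (by linarith)
    constructor <;> linarith
  have k1 : ∀ c u : ℝ, 0 ≤ u ∧ u ≤ 1 / 5 → |Real.exp (c + t * u)| ≤ Real.exp (c + t / 5) :=
    fun c u hu => by
      rw [abs_of_pos (Real.exp_pos _)]
      exact Real.exp_le_exp.2 (by nlinarith)
  have k2 : ∀ u : ℝ, 0 ≤ u ∧ u ≤ 1 / 5 →
      (1 : ℝ) ^ 2 * (Real.exp ((√t * u) ^ 2) - 1) ≤ Real.exp (t / 25) - 1 := fun u hu => by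
    rw [one_pow, one_mul, mul_pow, Real.sq_sqrt h0]
    have : u ^ 2 ≤ 1 / 25 := by nlinarith
    exact sub_le_sub_right (Real.exp_le_exp.2 (by nlinarith)) 1
  have s1 := sep_rank (I := I) (J := J) (f := fun a => Real.exp (-t + t * (1 - A / a)))
    (g := fun b => Real.exp (0 + t * (1 - A / b))) (Real.exp_pos _).le (Real.exp_pos _).le
    (fun a ha => k1 _ _ (key I hI a ha)) fun b hb => k1 _ _ (key J hJ b hb)
  have h25 : 0 ≤ Real.exp (t / 25) - 1 := sub_nonneg.2 (Real.one_le_exp (by positivity))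
  have s2 := sep_exp (I := I) (J := J) (e := fun _ => 1) (e' := fun _ => 1)
    (y := fun a => √t * (1 - A / a)) (z := fun b => -(√t * (1 - A / b))) h25
    (fun a ha => k2 _ (key I hI a ha)) fun b hb => by
      rw [neg_sq]
      exact k2 _ (key J hJ b hb)
  refine sep_mono (sep_congr (sep_mul s1 (sep_add sep_one s2) (by positivity))
    fun a ha b hb => ?_) ?_
  · have h1 : (0 : ℝ) < a := hA.trans (hI a ha).1
    have h2 : (0 : ℝ) < b := hA.trans (hJ b hb).1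
    rw [one_mul, one_mul, add_sub_cancel, ← Real.exp_add, ← Real.exp_add, gs, div_pow,
      Real.sq_sqrt (by positivity)]
    congr 1
    rw [show √t * (1 - A / a) * -(√t * (1 - A / b)) = -(√t * √t * ((1 - A / a) * (1 - A / b))) by
      ring, Real.mul_self_sqrt h0, ht]
    field_simp
    ring
  · rw [add_sub_cancel, ← Real.exp_add, ← Real.exp_add, gs]
    refine Real.exp_le_exp.2 ?_
    rw [show π * (s / (2 * A)) ^ 2 = t / 4 by rw [ht]; field_simp; ring]
    linarith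

theorem t_SEP : S_SEP := by
  refine ⟨12, by norm_num, fun A B K ξ μ D I J Kr hA hB hK hμ hD hI hJ h => ?_⟩
  exact sep_mul (sep_mul (sep_psi hA hB hμ hI hJ) (sep_inv hA hK hI hJ) (by positivity))
    (sep_gs (s := ξ * K) hA hI hJ) (gs_pos _).le Kr D hD h

end Pool.Agent.P.MP_8be758_nt.Avg
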