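import Pool.Agent.P.MP_8be758_nt.Avg.Basic

/-! Identities for the truncated singular series. -/

namespace Pool.Agent.P.MP_8be758_nt.Avg

open Finset Real Filter Topology
open Pool.Agent.P.MP_e86632_nt (ee)

theorem sgw_per (k e m : ℕ) :
    ((range (e * m)).filter fun n => e ∣ n ^ 2 + n + k).card = m * rho k e := by
  have hp : Function.Periodic (fun n : ℕ => e ∣ n ^ 2 + n + k) e := fun n => by
    beta_reduce
    rw [show (n + e) ^ 2 + (n + e) + k = n ^ 2 + n + k + e * (2 * n + e + 1) by ring]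
    exact propext (Nat.dvd_add_left (dvd_mul_right _ _))
  have h0 := Nat.filter_Ico_card_eq_of_periodic 0 e _ hp
  rw [zero_add, ← range_eq_Ico] at h0
  induction m with
  | zero => simp
  | succ m ih =>
    rw [range_eq_Ico, ← Ico_union_Ico_eq_Ico (Nat.zero_le (e * m))
      (Nat.mul_le_mul_left e (Nat.le_succ m)), filter_union, card_union_of_disjoint
        (disjoint_filter_filter (Ico_disjoint_Ico_consecutive _ _ _)), ← range_eq_Ico, ih,
      Nat.mul_succ, Nat.filter_Ico_card_eq_of_periodic _ e _ hp, ← h0, add_mul, one_mul, rho]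

theorem sgw_rho (hROOT : S_ROOT) (k : ℕ) (E : Finset ℕ) : (∀ p ∈ E, p.Prime) →
    rho k (∏ p ∈ E, p) = ∏ p ∈ E, rho k p := by
  induction E using Finset.induction_on with
  | empty => intro _; simp [rho_one]
  | insert q E hq ih =>
    intro h
    rw [prod_insert hq, prod_insert hq, hROOT.1 k _ _ (Nat.Coprime.prod_right fun p hp =>
      (Nat.coprime_primes (h q (mem_insert_self _ _)) (h p (mem_insert_of_mem hp))).2
        fun e => hq (e ▸ hp)), ih fun p hp => h p (mem_insert_of_mem hp)]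

theorem sgw_cnt (hROOT : S_ROOT) (k W : ℕ) (E : Finset ℕ) (hE : ∀ p ∈ E, p.Prime)
    (hW : ∀ p ∈ E, p ∣ W) :
    ∑ n ∈ range W, ∏ p ∈ E, (if p ∣ n ^ 2 + n + k then (1 : ℝ) else 0) =
      W * ∏ p ∈ E, ((rho k p : ℝ) / p) := by
  obtain ⟨m, rfl⟩ := prod_primes_dvd W (fun p hp => (hE p hp).prime) hW
  have h1 : ∀ n, ∏ p ∈ E, (if p ∣ n ^ 2 + n + k then (1 : ℝ) else 0) =
      if (∏ p ∈ E, p) ∣ n ^ 2 + n + k then (1 : ℝ) else 0 := fun n => by
    rw [prod_ite_zero, prod_const_one]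
    exact if_congr ⟨prod_primes_dvd _ fun p hp => (hE p hp).prime,
      fun h p hp => (dvd_prod_of_mem _ hp).trans h⟩ rfl rfl
  have h2 : (∏ p ∈ E, (p : ℝ)) ≠ 0 := prod_ne_zero_iff.2 fun p hp => by
    exact_mod_cast (hE p hp).ne_zero
  simp only [h1]
  rw [sum_boole, sgw_per, sgw_rho hROOT k E hE, prod_div_distrib]
  push_cast
  field_simp

theorem sgw_sieve (hROOT : S_ROOT) (k W : ℕ) (P : Finset ℕ) (hP : ∀ p ∈ P, p.Prime)
    (hW : ∀ p ∈ P, p ∣ W) :
    ∑ n ∈ range W, ∏ p ∈ P, (1 - if p ∣ n ^ 2 + n + k then (1 : ℝ) else 0) =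
      W * ∏ p ∈ P, (1 - (rho k p : ℝ) / p) := by
  simp only [sub_eq_add_neg, prod_one_add, prod_neg]
  rw [sum_comm, mul_sum]
  refine sum_congr rfl fun E hE => ?_
  rw [mem_powerset] at hE
  rw [← mul_sum, sgw_cnt hROOT k W E (fun p hp => hP p (hE hp)) fun p hp => hW p (hE hp)]
  ring

theorem sgw_fac {p : ℕ} (hp : p.Prime) : 0 < 1 - 1 / (p : ℝ) := by
  have : (1 : ℝ) < p := by exact_mod_cast hp.one_lt
  rw [sub_pos, div_lt_one (by linarith)]
  exact this

theorem sgw_sing (k R : ℕ) : ∏ p ∈ Nat.primesLE R, (1 - (rho k p : ℝ) / p) =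
    sing R k * ∏ p ∈ Nat.primesLE R, (1 - 1 / (p : ℝ)) := by
  rw [sing, ← prod_mul_distrib]
  exact prod_congr rfl fun p hp =>
    (div_mul_cancel₀ _ (sgw_fac (Nat.mem_primesLE.1 hp).2).ne').symm

theorem sgw_one (hROOT : S_ROOT) (k R : ℕ) :
    (((range R.factorial).filter fun n => (n ^ 2 + n + k).Coprime R.factorial).card : ℝ) =
      sing R k * R.factorial.totient := by
  have h1 := sgw_sieve hROOT k R.factorial (Nat.primesLE R)
    (fun p hp => (Nat.mem_primesLE.1 hp).2)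
    fun p hp => (Nat.mem_primesLE.1 hp).2.dvd_factorial.2 (Nat.mem_primesLE.1 hp).1
  have h2 : R.factorial.primeFactors = Nat.primesLE R := by
    ext p
    rw [Nat.mem_primeFactors, Nat.mem_primesLE]
    exact ⟨fun h => ⟨h.1.dvd_factorial.1 h.2.1, h.1⟩,
      fun h => ⟨h.2, h.2.dvd_factorial.2 h.1, R.factorial_ne_zero⟩⟩
  have h3 : (R.factorial.totient : ℝ) =
      R.factorial * ∏ p ∈ Nat.primesLE R, (1 - 1 / (p : ℝ)) := by
    have := congrArg (Rat.cast : ℚ → ℝ) (Nat.totient_eq_mul_prod_factors R.factorial)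
    rw [h2] at this
    push_cast at this
    simpa only [one_div] using this
  rw [h3, mul_left_comm, ← sgw_sing, ← h1, ← sum_boole]
  refine sum_congr rfl fun n _ => ?_
  split_ifs with h
  · refine (prod_eq_one fun p hp => ?_).symm
    obtain ⟨h4, h5⟩ := Nat.mem_primesLE.1 hp
    rw [if_neg fun e => h5.ne_one (Nat.eq_one_of_dvd_coprimes h e (h5.dvd_factorial.2 h4)),
      sub_zero]
  · obtain ⟨p, h4, h5, h6⟩ := Nat.Prime.not_coprime_iff_dvd.1 h
    exact (prod_eq_zero (Nat.mem_primesLE.2 ⟨h4.dvd_factorial.1 h6, h4⟩)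
      (by rw [if_pos h5, sub_self])).symm

theorem sgw_odd (hROOT : S_ROOT) {k p : ℕ} (hk : 1 ≤ k) (hp : p.Prime) (h2 : p ≠ 2) :
    1 - (rho k p : ℝ) / p = (1 - 1 / (p : ℝ)) * (1 - chi k p / ((p : ℝ) - 1)) := by
  have : (1 : ℝ) < p := by exact_mod_cast hp.one_lt
  have h1 : (p : ℝ) - 1 ≠ 0 := by linarith
  have h3 : (p : ℝ) ≠ 0 := by linarith
  rw [hROOT.2.1 k p hk hp h2]
  field_simp
  ring

theorem sgw_split {R : ℕ} {z : ℝ} (h : (R : ℝ) ≤ z) (f : ℕ → ℝ) :
    ∏ p ∈ PL z, f p = (∏ p ∈ Nat.primesLE R, f p) * ∏ p ∈ (PL z).filter (fun p => R < p), f p := by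
  rw [← prod_filter_not_mul_prod_filter (PL z) (fun p => R < p)]
  congr 2
  ext p
  rw [mem_filter, mem_PL ((Nat.cast_nonneg R).trans h), Nat.mem_primesLE, not_lt]
  exact ⟨fun h1 => ⟨h1.2, h1.1.2⟩, fun h1 => ⟨⟨le_trans (by exact_mod_cast h1.1) h, h1.2⟩, h1.1⟩⟩

theorem sgw_three (hROOT : S_ROOT) (k R : ℕ) (z : ℝ) (hk : 1 ≤ k) (hR : 2 ≤ R)
    (h : (R : ℝ) ≤ z) : ∏ p ∈ PL z, (1 - (rho k p : ℝ) / p) = sing R k * Vz z * TT k R z := by
  rw [Vz, sgw_split h, sgw_split h, sgw_sing, TT, mul_assoc, mul_assoc, mul_assoc,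
    ← prod_mul_distrib]
  congr 2
  refine prod_congr rfl fun p hp => ?_
  rw [mem_filter] at hp
  exact sgw_odd hROOT hk (prime_of_mem_PL hp.1) (by omega)

theorem sgw_three' (k R : ℕ) (z : ℝ) (h : (R : ℝ) ≤ z) :
    ∏ p ∈ PL z, (1 - (rho k (Nat.gcd p R.factorial) : ℝ) / p) = sing R k * Vz z := by
  rw [Vz, sgw_split h, sgw_split h, ← mul_assoc, ← sgw_sing]
  congr 1
  · refine prod_congr rfl fun p hp => ?_
    obtain ⟨h4, h5⟩ := Nat.mem_primesLE.1 hp
    rw [Nat.gcd_eq_left (h5.dvd_factorial.2 h4)]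
  · refine prod_congr rfl fun p hp => ?_
    rw [mem_filter] at hp
    have h5 := prime_of_mem_PL hp.1
    rw [(h5.coprime_iff_not_dvd.2 fun e => absurd (h5.dvd_factorial.1 e) (by omega)).gcd_eq_one,
      rho_one, Nat.cast_one]

theorem sgw_four (hROOT : S_ROOT) (k R R' : ℕ) (hk : 1 ≤ k) (hR : 2 ≤ R) (h : R ≤ R') :
    sing R' k = sing R k * TT k R R' := by
  have h1 := sgw_three hROOT k R R' hk hR (by exact_mod_cast h)
  rw [Vz, PL_nat, sgw_sing, mul_right_comm] at h1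
  exact mul_right_cancel₀ (prod_pos fun p hp => sgw_fac (Nat.mem_primesLE.1 hp).2).ne' h1

theorem sgw_two (hROOT : S_ROOT) {k : ℕ} (hk : Odd k) : sing 2 k = 2 := by
  have h : Nat.primesLE 2 = {2} := by decide
  rw [sing, h, prod_singleton, hROOT.2.2.1 k hk]
  norm_num

theorem t_SGW (hCHI : S_CHI) (hROOT : S_ROOT) : S_SGW := by
  refine ⟨sgw_one hROOT, fun k R => ?_, fun k R z hk hR h =>
    ⟨sgw_three hROOT k R z hk hR h, sgw_three' k R z h⟩, sgw_four hROOT,
    fun k R y hk hR h => ?_, fun k R hk hR => ?_⟩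
  · refine prod_nonneg fun p hp => div_nonneg ?_ (sgw_fac (Nat.mem_primesLE.1 hp).2).le
    rw [sub_nonneg]
    exact div_le_one_of_le₀ (by exact_mod_cast rho_le k p) (Nat.cast_nonneg p)
  · rw [← sgw_four hROOT k R y hk.pos hR h, sgw_four hROOT k 2 y hk.pos le_rfl (hR.trans h),
      sgw_two hROOT hk, prodC, TT, PL_nat]
    congr 1
    refine prod_congr ?_ fun p hp => ?_
    · ext p
      simp only [mem_filter, mem_Icc, Nat.mem_primesLE]
      exact ⟨fun h1 => ⟨⟨h1.1.2, h1.2⟩, h1.1.1⟩, fun h1 => ⟨⟨h1.2, h1.1.1⟩, h1.1.2⟩⟩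
    · rw [mem_filter, Nat.mem_primesLE] at hp
      rw [hCHI.1 k p hk.pos (hp.1.2.odd_of_ne_two (by omega))]
  · have h1 : (Nat.primesLE R).card ≤ R := by
      refine (card_le_card (t := Icc 1 R) fun p hp => ?_).trans (by simp)
      exact mem_Icc.2 ⟨(Nat.mem_primesLE.1 hp).2.pos, (Nat.mem_primesLE.1 hp).1⟩
    calc (1 : ℝ) / 2 ^ R = (1 / 2) ^ R := by rw [one_div_pow]
      _ ≤ (1 / 2) ^ (Nat.primesLE R).card := pow_le_pow_of_le_one (by norm_num) (by norm_num) h1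
      _ = ∏ _p ∈ Nat.primesLE R, (1 / 2 : ℝ) := by rw [prod_const]
      _ ≤ sing R k := by
        refine prod_le_prod (fun _ _ => by norm_num) fun p hp => ?_
        have h5 := (Nat.mem_primesLE.1 hp).2
        by_cases h2 : p = 2
        · subst h2
          rw [hROOT.2.2.1 k hk]
          norm_num
        · have h3 : (3 : ℝ) ≤ p := by
            have := h5.two_le
            exact_mod_cast (by omega : 3 ≤ p)
          rw [sgw_odd hROOT hk.pos h5 h2, mul_div_cancel_left₀ _ (sgw_fac h5).ne']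
          have h4 : chi k p / ((p : ℝ) - 1) ≤ 1 / 2 := by
            rw [div_le_iff₀ (by linarith)]
            linarith [le_abs_self (chi k p), abs_chi_le k p]
          linarith

end Pool.Agent.P.MP_8be758_nt.Avg
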