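import Pool.Agent.P.MP_8be758_nt.Avg.Basic

/-! The large sieve for sifted sequences. -/

namespace Pool.Agent.P.MP_8be758_nt.Avg

open Finset Real Filter Topology
open Pool.Agent.P.MP_e86632_nt (ee)
open ArithmeticFunction (moebius)

theorem sift_shift (hFAR : S_FAR) {z : ℝ} {I : Finset ℕ} {γ : ℕ → ℂ}
    (hγ : ∀ a ∈ I, γ a ≠ 0 → Rough z a) {q : ℕ} (h0 : 0 < q) (hq : (q : ℝ) ≤ z) (t : ℝ) :
    ∑ r ∈ red q, ft I γ (t + (r : ℝ) / q) = (moebius q : ℂ) * ft I γ t := by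
  unfold ft
  rw [sum_comm, mul_sum]
  refine sum_congr rfl fun a ha => ?_
  by_cases h : γ a = 0
  · simp [h]
  · rw [← hFAR.2.2 q a h0 ((hγ a ha h).coprime_of_le h0 hq), sum_mul]
    refine sum_congr rfl fun r _ => ?_
    rw [mul_add, Pool.Agent.P.MP_e86632_nt.ee_add, mul_comm (a : ℝ) ((r : ℝ) / q)]
    ring

theorem sift_cs (hFAR : S_FAR) {z : ℝ} {I : Finset ℕ} {γ : ℕ → ℂ}
    (hγ : ∀ a ∈ I, γ a ≠ 0 → Rough z a) {q : ℕ} (h0 : 0 < q) (hq : (q : ℝ) ≤ z)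
    (hs : Squarefree q) (t : ℝ) :
    1 / (q : ℝ) * ‖ft I γ t‖ ^ 2 ≤ ∑ r ∈ red q, ‖ft I γ (t + (r : ℝ) / q)‖ ^ 2 := by
  have h1 : ‖ft I γ t‖ ≤ ∑ r ∈ red q, ‖ft I γ (t + (r : ℝ) / q)‖ := by
    refine le_trans (le_of_eq ?_) (norm_sum_le _ _)
    rw [sift_shift hFAR hγ h0 hq, norm_mul, Complex.norm_intCast, ← Int.cast_abs,
      ArithmeticFunction.abs_moebius_eq_one_of_squarefree hs]
    simp
  have h2 := sq_sum_le_card_mul_sum_sq (s := red q) (f := fun r : ℕ => ‖ft I γ (t + (r : ℝ) / q)‖)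
  have h3 : ((red q).card : ℝ) ≤ q := by exact_mod_cast card_red_le q
  have h4 : (0 : ℝ) < q := by exact_mod_cast h0
  have h5 : 0 ≤ ∑ r ∈ red q, ‖ft I γ (t + (r : ℝ) / q)‖ ^ 2 := sum_nonneg fun _ _ => by positivity
  rw [one_div, inv_mul_le_iff₀ h4]
  exact ((pow_le_pow_left₀ (norm_nonneg _) h1 2).trans h2).trans (mul_le_mul_of_nonneg_right h3 h5)

theorem sift_frac {q1 q2 r1 r2 : ℕ} (h1 : r1 ∈ red q1) (h2 : r2 ∈ red q2)
    (h : (q1 : ℤ) * q2 ∣ r1 * q2 - r2 * q1) : q1 = q2 ∧ r1 = r2 := by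
  obtain ⟨a1, b1⟩ := mem_filter.1 h1
  obtain ⟨a2, b2⟩ := mem_filter.1 h2
  rw [mem_range] at a1 a2
  have d1 : q1 ∣ q2 := by
    have : (q1 : ℤ) ∣ r1 * q2 := by
      have := dvd_add ((dvd_mul_right (q1 : ℤ) q2).trans h) (dvd_mul_left (q1 : ℤ) r2)
      rwa [sub_add_cancel] at this
    exact b1.symm.dvd_of_dvd_mul_left (by exact_mod_cast this)
  have d2 : q2 ∣ q1 := by
    have : (q2 : ℤ) ∣ r2 * q1 := by
      have := dvd_sub (dvd_mul_left (q2 : ℤ) r1) ((dvd_mul_left (q2 : ℤ) q1).trans h)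
      rwa [sub_sub_cancel] at this
    exact b2.symm.dvd_of_dvd_mul_left (by exact_mod_cast this)
  obtain rfl : q1 = q2 := Nat.dvd_antisymm d1 d2
  refine ⟨rfl, ?_⟩
  rw [← sub_mul, mul_dvd_mul_iff_right (by omega)] at h
  have := Int.eq_zero_of_abs_lt_dvd h (by rw [abs_lt]; omega)
  omega

theorem sift_sep {q1 q2 r1 r2 p1 p2 s1 s2 : ℕ} (h1 : r1 ∈ red q1) (h2 : r2 ∈ red q2)
    (h3 : s1 ∈ red p1) (h4 : s2 ∈ red p2) (hc : (q1 * q2).Coprime (p1 * p2))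
    (hne : ¬ (q1 = q2 ∧ r1 = r2 ∧ p1 = p2 ∧ s1 = s2)) (k : ℤ) :
    1 / ((q1 : ℝ) * q2 * (p1 * p2)) ≤
      |((r1 : ℝ) / q1 + (s1 : ℝ) / p1) - ((r2 : ℝ) / q2 + (s2 : ℝ) / p2) - k| := by
  have pos : ∀ {r q : ℕ}, r ∈ red q → (0 : ℝ) < q := fun {r q} h => by
    have := mem_range.1 (mem_filter.1 h).1
    exact_mod_cast (by omega : 0 < q)
  have a1 := pos h1
  have a2 := pos h2
  have a3 := pos h3
  have a4 := pos h4
  set N : ℤ := (r1 * q2 - r2 * q1) * (p1 * p2) + (s1 * p2 - s2 * p1) * (q1 * q2) -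
    k * (q1 * q2) * (p1 * p2) with hN
  have e : ((r1 : ℝ) / q1 + (s1 : ℝ) / p1) - ((r2 : ℝ) / q2 + (s2 : ℝ) / p2) - k =
      N / ((q1 : ℝ) * q2 * (p1 * p2)) := by
    rw [hN]; push_cast; field_simp; ring
  have hN0 : N ≠ 0 := by
    intro h0
    have hc' : IsCoprime ((q1 : ℤ) * q2) ((p1 : ℤ) * p2) := by
      exact_mod_cast Nat.isCoprime_iff_coprime.2 hc
    have d1 : (q1 : ℤ) * q2 ∣ r1 * q2 - r2 * q1 :=
      hc'.dvd_of_dvd_mul_right ⟨k * (p1 * p2) - (s1 * p2 - s2 * p1), by linear_combination h0 - hN⟩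
    have d2 : (p1 : ℤ) * p2 ∣ s1 * p2 - s2 * p1 :=
      hc'.symm.dvd_of_dvd_mul_right
        ⟨k * (q1 * q2) - (r1 * q2 - r2 * q1), by linear_combination h0 - hN⟩
    exact hne ⟨(sift_frac h1 h2 d1).1, (sift_frac h1 h2 d1).2, sift_frac h3 h4 d2⟩
  rw [e, abs_div, abs_of_pos (by positivity : (0 : ℝ) < (q1 : ℝ) * q2 * (p1 * p2))]
  refine div_le_div_of_nonneg_right ?_ (by positivity)
  exact_mod_cast Int.one_le_abs hN0

theorem sift_block (hLS : S_LS) (hFAR : S_FAR) (hGT : S_GT) : ∃ C : ℝ, 0 < C ∧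
    ∀ (z H T : ℝ) (Q : ℕ) (I S : Finset ℕ) (γ : ℕ → ℂ), 2 ≤ z → 2 ≤ T →
      (Q : ℝ) ^ 2 * z ^ 2 ≤ H → (∀ a ∈ I, (a : ℝ) ≤ H) → (∀ a ∈ I, γ a ≠ 0 → Rough z a) →
      (∀ q ∈ S, 0 < q ∧ q ≤ Q ∧ (q : ℝ) ≤ T) →
      ∑ q ∈ S, en I γ q ≤ C * H / Real.log z * nsq I γ * Real.log T := by
  obtain ⟨C, hC, hLS⟩ := hLS
  obtain ⟨c, hc, hGT⟩ := hGT
  refine ⟨2 * C / c, by positivity, fun z H T Q I S γ hz hT hH hI hγ hS => ?_⟩
  have lz : 0 < Real.log z := Real.log_pos (by linarith)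
  have lT : 0 < Real.log T := Real.log_pos (by linarith)
  have hH0 : 0 ≤ H := le_trans (by positivity) hH
  have hn := nsq_nonneg I γ
  rcases S.eq_empty_or_nonempty with rfl | ⟨q0, hq0⟩
  · rw [sum_empty]; positivity
  have hQ : (1 : ℝ) ≤ Q := by
    have := hS q0 hq0
    exact_mod_cast (by omega : 1 ≤ Q)
  have hQz : 1 ≤ (Q : ℝ) ^ 2 * z ^ 2 := one_le_mul_of_one_le_of_one_le (one_le_pow₀ hQ)
    (one_le_pow₀ (by linarith))
  set P := (Icc 1 ⌊z⌋₊).filter (fun q => Squarefree q ∧ Rough T q) with hP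
  have hPm : ∀ p ∈ P, 0 < p ∧ (p : ℝ) ≤ z ∧ Squarefree p ∧ Rough T p := fun p hp => by
    obtain ⟨h1, h2⟩ := mem_filter.1 hp
    obtain ⟨h3, h4⟩ := mem_Icc.1 h1
    exact ⟨h3, (Nat.le_floor_iff (by linarith)).1 h4, h2⟩
  have h1 := hLS ((Σ _ : ℕ, ℕ) × (Σ _ : ℕ, ℕ)) (S.sigma red ×ˢ P.sigma red)
    (fun x => (x.1.2 : ℝ) / x.1.1 + (x.2.2 : ℝ) / x.2.1) (1 / ((Q : ℝ) ^ 2 * z ^ 2)) H I γ
    (by positivity) (by rw [div_le_one (by positivity)]; exact hQz) hH0 hI (by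
      rintro ⟨⟨q1, r1⟩, ⟨p1, s1⟩⟩ hx ⟨⟨q2, r2⟩, ⟨p2, s2⟩⟩ hy hne k
      simp only [mem_product, mem_sigma] at hx hy
      obtain ⟨⟨x1, x2⟩, x3, x4⟩ := hx
      obtain ⟨⟨y1, y2⟩, y3, y4⟩ := hy
      obtain ⟨a1, a2, a3⟩ := hS q1 x1
      obtain ⟨b1, b2, b3⟩ := hS q2 y1
      obtain ⟨c1, c2, -, c3⟩ := hPm p1 x3
      obtain ⟨d1, d2, -, d3⟩ := hPm p2 y3
      refine le_trans ?_ (sift_sep x2 y2 x4 y4 ?_ ?_ k)
      · have a2' : (q1 : ℝ) ≤ Q := by exact_mod_cast a2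
        have b2' : (q2 : ℝ) ≤ Q := by exact_mod_cast b2
        refine one_div_le_one_div_of_le (by positivity) ?_
        rw [sq, sq]
        gcongr
      · exact Nat.Coprime.mul_left ((rough_mul.2 ⟨c3, d3⟩).coprime_of_le a1 a3).symm
          ((rough_mul.2 ⟨c3, d3⟩).coprime_of_le b1 b3).symm
      · rintro ⟨rfl, rfl, rfl, rfl⟩
        exact hne rfl)
  rw [one_div_one_div, sum_product, sum_sigma] at h1
  have h2 : (∑ p ∈ P, 1 / (p : ℝ)) * ∑ q ∈ S, en I γ q ≤ C * (H + (Q : ℝ) ^ 2 * z ^ 2) * nsq I γ := by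
    refine le_trans ?_ h1
    rw [mul_sum]
    refine sum_le_sum fun q _ => ?_
    rw [en, mul_sum]
    refine sum_le_sum fun r _ => ?_
    rw [sum_sigma, sum_mul]
    refine sum_le_sum fun p hp => ?_
    obtain ⟨c1, c2, c3, -⟩ := hPm p hp
    exact sift_cs hFAR hγ c1 c2 c3 _
  have h3 := hGT T z hT (by linarith)
  have h4 : 0 ≤ ∑ q ∈ S, en I γ q := sum_nonneg fun q _ => en_nonneg I γ q
  have h5 : c * Real.log z / Real.log T * ∑ q ∈ S, en I γ q ≤ C * (H + H) * nsq I γ :=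
    ((mul_le_mul_of_nonneg_right h3 h4).trans h2).trans (by gcongr)
  rw [← le_div_iff₀' (by positivity)] at h5
  refine h5.trans (le_of_eq ?_)
  field_simp
  ring

theorem sift_dyadic {g : ℕ → ℝ} (hg : ∀ q, 0 ≤ g q) {K : ℝ} (hK : 0 ≤ K) {R : ℕ} (hR : 2 ≤ R)
    (h : ∀ a T : ℕ, 2 ≤ T → ∑ q ∈ Ioc a T, g q ≤ K * Real.log T) (i : ℕ) :
    ∑ q ∈ Ioc R (R * 2 ^ i), 1 / (q : ℝ) * g q ≤
      K * (Real.log R / R) * (6 - (2 * i + 6) / 2 ^ i) := by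
  have hR' : (2 : ℝ) ≤ R := by exact_mod_cast hR
  induction i with
  | zero => simp
  | succ i ih =>
    have p1 : 1 ≤ 2 ^ i := Nat.one_le_two_pow
    have l1 : R ≤ R * 2 ^ i := Nat.le_mul_of_pos_right _ p1
    have l2 : R * 2 ^ i ≤ R * 2 ^ (i + 1) := by rw [pow_succ, ← mul_assoc]; omega
    rw [← sum_Ioc_consecutive _ l1 l2]
    have h1 : ∑ q ∈ Ioc (R * 2 ^ i) (R * 2 ^ (i + 1)), 1 / (q : ℝ) * g q ≤
        1 / ((R : ℝ) * 2 ^ i) * ∑ q ∈ Ioc (R * 2 ^ i) (R * 2 ^ (i + 1)), g q := by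
      rw [mul_sum]
      refine sum_le_sum fun q hq => mul_le_mul_of_nonneg_right ?_ (hg q)
      refine one_div_le_one_div_of_le (by positivity) ?_
      exact_mod_cast (mem_Ioc.1 hq).1.le
    have h2 := h (R * 2 ^ i) (R * 2 ^ (i + 1)) (by omega)
    have h3 : Real.log ((R * 2 ^ (i + 1) : ℕ) : ℝ) ≤ (i + 2) * Real.log R := by
      have := Real.log_le_log (by norm_num) hR'
      push_cast
      rw [Real.log_mul (by positivity) (by positivity), Real.log_pow]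
      push_cast
      nlinarith [Nat.cast_nonneg (α := ℝ) i]
    have h4 : 1 / ((R : ℝ) * 2 ^ i) * ∑ q ∈ Ioc (R * 2 ^ i) (R * 2 ^ (i + 1)), g q ≤
        1 / ((R : ℝ) * 2 ^ i) * (K * ((i + 2) * Real.log R)) :=
      mul_le_mul_of_nonneg_left (h2.trans (mul_le_mul_of_nonneg_left h3 hK)) (by positivity)
    refine (add_le_add ih (h1.trans h4)).trans (le_of_eq ?_)
    push_cast
    field_simp
    ring

theorem t_SIFT (hLS : S_LS) (hFAR : S_FAR) (hGT : S_GT) : S_SIFT := by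
  obtain ⟨C, hC, h⟩ := sift_block hLS hFAR hGT
  refine ⟨6 * C, by positivity, fun z H R Q I γ hz hR hH hI hγ => ?_⟩
  have lz : 0 < Real.log z := Real.log_pos (by linarith)
  have hH0 : 0 ≤ H := le_trans (by positivity) hH
  have hn := nsq_nonneg I γ
  have hR' : (2 : ℝ) ≤ R := by exact_mod_cast hR
  have lR : 0 < Real.log R := Real.log_pos (by linarith)
  have hg : ∀ q, 0 ≤ if q ≤ Q then en I γ q else 0 := fun q => by
    split_ifs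
    · exact en_nonneg I γ q
    · exact le_rfl
  have h1 := sift_dyadic hg (K := C * H / Real.log z * nsq I γ) (by positivity) hR (fun a T hT => by
    rw [← sum_filter]
    refine h z H T Q I _ γ hz (by exact_mod_cast hT) hH hI hγ fun q hq => ?_
    obtain ⟨h1, h2⟩ := mem_filter.1 hq
    obtain ⟨h3, h4⟩ := mem_Ioc.1 h1
    exact ⟨by omega, h2, by exact_mod_cast h4⟩) Q
  have h2 : Q ≤ R * 2 ^ Q := Nat.lt_two_pow_self.le.trans (Nat.le_mul_of_pos_left _ (by omega))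
  calc ∑ q ∈ Ioc R Q, 1 / (q : ℝ) * en I γ q
      = ∑ q ∈ Ioc R Q, 1 / (q : ℝ) * if q ≤ Q then en I γ q else 0 :=
        sum_congr rfl fun q hq => by rw [if_pos (mem_Ioc.1 hq).2]
    _ ≤ ∑ q ∈ Ioc R (R * 2 ^ Q), 1 / (q : ℝ) * if q ≤ Q then en I γ q else 0 :=
        sum_le_sum_of_subset_of_nonneg (Ioc_subset_Ioc_right h2) fun q _ _ =>
          mul_nonneg (by positivity) (hg q)
    _ ≤ C * H / Real.log z * nsq I γ * (Real.log R / R) * 6 :=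
        h1.trans (mul_le_mul_of_nonneg_left (sub_le_self _ (by positivity)) (by positivity))
    _ = _ := by ring

end Pool.Agent.P.MP_8be758_nt.Avg
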