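import Pool.Agent.P.MP_8be758_nt.Avg.Basic

/-! Small denominators in the zero frequency term. -/

namespace Pool.Agent.P.MP_8be758_nt.Avg

open Finset Real Filter Topology
open Pool.Agent.P.MP_e86632_nt (ee)

theorem sq_mult (G : ℕ → ℝ) {d : ℕ} (hd : 0 < d) (n : ℕ) :
    ∑ ν ∈ (Icc 1 n).filter (d ∣ ·), G ν = ∑ j ∈ Icc 1 (n / d), G (d * j) := by
  symm
  refine Finset.sum_bij' (fun m _ => d * m) (fun i _ => i / d) ?_ ?_ ?_ ?_ ?_
  · intro m hm
    simp only [mem_Icc, mem_filter] at hm ⊢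
    refine ⟨⟨Nat.mul_pos hd hm.1, ?_⟩, Dvd.intro _ rfl⟩
    rw [mul_comm]
    exact (Nat.le_div_iff_mul_le hd).1 hm.2
  · intro i hi
    simp only [mem_Icc, mem_filter] at hi ⊢
    obtain ⟨⟨h1, h2⟩, m, rfl⟩ := hi
    rw [Nat.mul_div_cancel_left _ hd]
    exact ⟨Nat.pos_of_mul_pos_left h1, (Nat.le_div_iff_mul_le hd).2 (by linarith)⟩
  · intro m _; exact Nat.mul_div_cancel_left _ hd
  · intro i hi
    exact Nat.mul_div_cancel' (mem_filter.1 hi).2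
  · intro m _; rfl

theorem sq_psi {C I0 B s : ℝ} (hC : 0 < C) (hB : 0 < B) (hs : s ≠ 0)
    (h : ∀ (x : ℝ) (j0 : ℕ), 0 < x → 1 ≤ j0 →
      |∑ j ∈ Icc 1 j0, 1 / (j : ℝ) * psi 1 (x ^ 2 / (j : ℝ) ^ 2) - I0| ≤
        C * (min 1 (1 / √x) + x ^ 2 / (j0 : ℝ) ^ 2))
    {d n : ℕ} (hd : 0 < d) (hn : d ≤ n) :
    |∑ ν ∈ (Icc 1 n).filter (d ∣ ·), 1 / (ν : ℝ) * psi B (s ^ 2 / (ν : ℝ) ^ 2) - I0 / d| ≤
      C * (1 / √(|s| / (d * √B)) + 4 * s ^ 2 / (B * (n : ℝ) ^ 2)) / d := by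
  have hd' : (0 : ℝ) < d := by exact_mod_cast hd
  have hsB : 0 < √B := Real.sqrt_pos.2 hB
  have hj : 1 ≤ n / d := (Nat.le_div_iff_mul_le hd).2 (by omega)
  have hx : 0 < |s| / (d * √B) := by positivity
  have h1 := h _ _ hx hj
  have hx2 : (|s| / (d * √B)) ^ 2 = s ^ 2 / ((d : ℝ) ^ 2 * B) := by
    rw [div_pow, mul_pow, sq_abs, Real.sq_sqrt hB.le]
  rw [sq_mult _ hd]
  have e : ∑ j ∈ Icc 1 (n / d), 1 / ((d * j : ℕ) : ℝ) * psi B (s ^ 2 / ((d * j : ℕ) : ℝ) ^ 2) =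
      (∑ j ∈ Icc 1 (n / d), 1 / (j : ℝ) * psi 1 ((|s| / (d * √B)) ^ 2 / (j : ℝ) ^ 2)) / d := by
    rw [sum_div]
    refine sum_congr rfl fun j hj => ?_
    have hj' : (0 : ℝ) < j := by exact_mod_cast (mem_Icc.1 hj).1
    have e1 : psi B (s ^ 2 / ((d * j : ℕ) : ℝ) ^ 2) =
        psi 1 ((|s| / (d * √B)) ^ 2 / (j : ℝ) ^ 2) := by
      rw [hx2, psi, psi]
      push_cast
      congr 2 <;> field_simp
    rw [e1]
    push_cast
    field_simp
  rw [e, ← sub_div, abs_div, abs_of_pos hd']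
  refine div_le_div_of_nonneg_right (h1.trans ?_) hd'.le
  refine mul_le_mul_of_nonneg_left (add_le_add (min_le_right _ _) ?_) hC.le
  have h2 : n ≤ 2 * (d * (n / d)) := by
    have a1 := Nat.mod_add_div n d
    have a2 := Nat.mod_lt n hd
    have a3 : d ≤ d * (n / d) := Nat.le_mul_of_pos_right _ hj
    omega
  have h3 : (n : ℝ) ≤ 2 * (d * (n / d : ℕ)) := by exact_mod_cast h2
  have h4 : (0 : ℝ) < n := by exact_mod_cast hd.trans_le hn
  have h5 : (0 : ℝ) < (n / d : ℕ) := by exact_mod_cast hj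
  rw [hx2, div_div, div_le_div_iff₀ (by positivity) (by positivity)]
  have h6 : (n : ℝ) ^ 2 ≤ (2 * (d * (n / d : ℕ))) ^ 2 := by gcongr
  have h7 : 0 ≤ s ^ 2 * B := by positivity
  nlinarith

theorem sq_sg {A : ℝ} (hA : 1 ≤ A) {a1 a2 : ℕ} (h1 : A < a1 ∧ (a1 : ℝ) ≤ 5 / 4 * A)
    (h2 : A < a2 ∧ (a2 : ℝ) ≤ 5 / 4 * A) :
    4 * sg a1 a2 ^ 2 ≤ A ∧ |(a2 : ℝ) - a1| ≤ 3 * √A * |sg a1 a2| := by
  have hA0 : 0 < A := by linarith
  have s0 := Real.sqrt_pos.2 hA0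
  have q0 := Real.sq_sqrt hA0.le
  have lo : ∀ a : ℕ, A < a → √A ≤ √(a : ℝ) := fun a h => Real.sqrt_le_sqrt h.le
  have hi : ∀ a : ℕ, (a : ℝ) ≤ 5 / 4 * A → √(a : ℝ) ≤ 3 / 2 * √A := fun a h => by
    rw [Real.sqrt_le_iff]
    exact ⟨by positivity, by nlinarith⟩
  have l1 := lo a1 h1.1
  have l2 := lo a2 h2.1
  have u1 := hi a1 h1.2
  have u2 := hi a2 h2.2
  constructor
  · have : |sg a1 a2| ≤ 1 / 2 * √A := by
      rw [sg, abs_le]; constructor <;> linarith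
    have h3 := sq_le_sq' (abs_le.1 this).1 (abs_le.1 this).2
    nlinarith
  · have e : (a2 : ℝ) - a1 = (√(a1 : ℝ) + √(a2 : ℝ)) * sg a1 a2 := by
      have q1 := Real.sq_sqrt (Nat.cast_nonneg (α := ℝ) a1)
      have q2 := Real.sq_sqrt (Nat.cast_nonneg (α := ℝ) a2)
      rw [sg]; nlinarith
    rw [e, abs_mul, abs_of_pos (by linarith)]
    exact mul_le_mul_of_nonneg_right (by linarith) (abs_nonneg _)

theorem sq_inj (J : Finset ℕ) (f : ℕ → ℕ) (M : ℕ) (hf : Set.InjOn f J)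
    (hM : ∀ a ∈ J, f a ∈ Ioc 0 M) : ∑ a ∈ J, 1 / √(f a : ℝ) ≤ 2 * √(M : ℝ) := by
  rw [← sum_image (f := fun h : ℕ => 1 / √(h : ℝ)) hf]
  refine le_trans (sum_le_sum_of_subset_of_nonneg (image_subset_iff.2 hM) fun _ _ _ => ?_)
    (Pool.Agent.P.MP_e86632_nt.sum_inv_sqrt_le M)
  positivity

theorem sq_row {A : ℝ} (hA : 1 ≤ A) {I : Finset ℕ} (hI : Rng A I) {a1 : ℕ} (h1 : a1 ∈ I) :
    ∑ a2 ∈ I, 1 / √|(a2 : ℝ) - a1| ≤ 4 * √A := by
  have hM : √(⌊A⌋₊ : ℝ) ≤ √A := Real.sqrt_le_sqrt (Nat.floor_le (by linarith))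
  have b1 := hI a1 h1
  rw [← sum_filter_add_sum_filter_not I (fun a => a1 < a),
    ← sum_filter_add_sum_filter_not (I.filter fun a => ¬ a1 < a) (fun a => a < a1)]
  have z : ∑ a2 ∈ (I.filter fun a => ¬ a1 < a).filter (fun a => ¬ a < a1),
      1 / √|(a2 : ℝ) - a1| = 0 := sum_eq_zero fun a ha => by
    simp only [mem_filter] at ha
    rw [show a = a1 by omega]; simp
  have p1 := sq_inj (I.filter fun a => a1 < a) (fun a => a - a1) ⌊A⌋₊
    (fun a ha b hb e => by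
      simp only [coe_filter, Set.mem_ofPred_eq] at ha hb e
      omega) fun a ha => by
      rw [mem_filter] at ha
      refine mem_Ioc.2 ⟨by omega, Nat.le_floor ?_⟩
      rw [Nat.cast_sub ha.2.le]
      linarith [(hI a ha.1).2]
  have p2 := sq_inj ((I.filter fun a => ¬ a1 < a).filter fun a => a < a1) (fun a => a1 - a) ⌊A⌋₊
    (fun a ha b hb e => by
      simp only [coe_filter, Set.mem_ofPred_eq] at ha hb e
      omega) fun a ha => by
      rw [mem_filter, mem_filter] at ha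
      refine mem_Ioc.2 ⟨by omega, Nat.le_floor ?_⟩
      rw [Nat.cast_sub ha.2.le]
      linarith [(hI a ha.1.1).1]
  have e1 : ∑ a2 ∈ I.filter (fun a => a1 < a), 1 / √|(a2 : ℝ) - a1| =
      ∑ a ∈ I.filter (fun a => a1 < a), 1 / √((a - a1 : ℕ) : ℝ) := sum_congr rfl fun a ha => by
    have := (mem_filter.1 ha).2.le
    rw [Nat.cast_sub this, abs_of_nonneg (sub_nonneg.2 (by exact_mod_cast this))]
  have e2 : ∑ a2 ∈ (I.filter fun a => ¬ a1 < a).filter (fun a => a < a1), 1 / √|(a2 : ℝ) - a1| =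
      ∑ a ∈ (I.filter fun a => ¬ a1 < a).filter (fun a => a < a1), 1 / √((a1 - a : ℕ) : ℝ) :=
    sum_congr rfl fun a ha => by
      have := (mem_filter.1 ha).2.le
      rw [Nat.cast_sub this, abs_sub_comm, abs_of_nonneg (sub_nonneg.2 (by exact_mod_cast this))]
  rw [z, e1, e2]
  linarith

theorem sq_ft (I : Finset ℕ) (g : ℕ → ℝ) (t : ℝ) :
    ‖∑ a1 ∈ I, ∑ a2 ∈ I, ((g a1 * g a2 : ℝ) : ℂ) * ee (t * ((a2 : ℝ) - a1))‖ =
      ‖ft I (fun a => (g a : ℂ)) t‖ ^ 2 := by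
  have e : ∑ a1 ∈ I, ∑ a2 ∈ I, ((g a1 * g a2 : ℝ) : ℂ) * ee (t * ((a2 : ℝ) - a1)) =
      (starRingEnd ℂ) (ft I (fun a => (g a : ℂ)) t) * ft I (fun a => (g a : ℂ)) t := by
    rw [ft, map_sum, sum_mul_sum]
    refine sum_congr rfl fun a1 _ => sum_congr rfl fun a2 _ => ?_
    rw [map_mul, Complex.conj_ofReal, ← Pool.Agent.P.MP_e86632_nt.ee_neg,
      show t * ((a2 : ℝ) - a1) = -(a1 * t) + a2 * t by ring, Pool.Agent.P.MP_e86632_nt.ee_add]
    push_cast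
    ring
  rw [e, norm_mul, Complex.norm_conj, sq]

theorem sq_swap (I J : Finset ℕ) (g : ℕ → ℝ) (F : ℕ → ℕ → ℕ → ℝ) (t c : ℝ) :
    ‖∑ ν ∈ J, ((1 / (ν : ℝ) : ℝ) : ℂ) * ∑ a1 ∈ I, ∑ a2 ∈ I,
        ((g a1 * g a2 * F ν a1 a2 : ℝ) : ℂ) * ee (t * ((a2 : ℝ) - a1))‖ ≤
      |c| * ‖ft I (fun a => (g a : ℂ)) t‖ ^ 2 +
        ∑ a1 ∈ I, ∑ a2 ∈ I, |g a1 * g a2| * |∑ ν ∈ J, 1 / (ν : ℝ) * F ν a1 a2 - c| := by
  have e : ∑ ν ∈ J, ((1 / (ν : ℝ) : ℝ) : ℂ) * ∑ a1 ∈ I, ∑ a2 ∈ I,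
        ((g a1 * g a2 * F ν a1 a2 : ℝ) : ℂ) * ee (t * ((a2 : ℝ) - a1)) =
      (c : ℂ) * ∑ a1 ∈ I, ∑ a2 ∈ I, ((g a1 * g a2 : ℝ) : ℂ) * ee (t * ((a2 : ℝ) - a1)) +
        ∑ a1 ∈ I, ∑ a2 ∈ I, ((g a1 * g a2 * (∑ ν ∈ J, 1 / (ν : ℝ) * F ν a1 a2 - c) : ℝ) : ℂ) *
          ee (t * ((a2 : ℝ) - a1)) := by
    simp only [mul_sum]
    rw [sum_comm, ← sum_add_distrib]
    refine sum_congr rfl fun a1 _ => ?_
    rw [sum_comm, ← sum_add_distrib]
    refine sum_congr rfl fun a2 _ => ?_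
    generalize ee (t * ((a2 : ℝ) - a1)) = w
    push_cast
    rw [show ∀ x : ℂ, (c : ℂ) * (g a1 * g a2 * w) + g a1 * g a2 * (x - c) * w =
      x * (g a1 * g a2 * w) from fun x => by ring, sum_mul]
    exact sum_congr rfl fun ν _ => by ring
  rw [e]
  refine (norm_add_le _ _).trans (add_le_add ?_ ?_)
  · rw [norm_mul, sq_ft, Complex.norm_real, Real.norm_eq_abs]
  · refine (norm_sum_le _ _).trans (sum_le_sum fun a1 _ => (norm_sum_le _ _).trans
      (sum_le_sum fun a2 _ => le_of_eq ?_))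
    rw [norm_mul, Pool.Agent.P.MP_e86632_nt.norm_ee, mul_one, Complex.norm_real, Real.norm_eq_abs,
      abs_mul]

theorem t_SQ (hRS : S_RS) : S_SQ := by
  obtain ⟨C, I0, hC, hI0, hRS⟩ := hRS
  refine ⟨36 * C, by positivity, fun A B e0 Q ν0 I α hA hB he1 he4 hQ hν hI hα => ?_⟩
  have hA0 : 0 < A := by linarith
  have hB0 : 0 < B := by linarith
  have sA := Real.sqrt_pos.2 hA0
  have sB := Real.sqrt_pos.2 hB0
  have qA := Real.sq_sqrt hA0.le
  have hQ' : (1 : ℝ) ≤ Q := by exact_mod_cast hQ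
  set U := √(Q / √(A / B)) with hU
  have hU0 : 0 ≤ U := Real.sqrt_nonneg _
  have hU2 : A * U ^ 2 = Q * √A * √B := by
    rw [hU, Real.sq_sqrt (by positivity), Real.sqrt_div hA0.le]
    field_simp
    exact qA.symm
  have hAU : 1 ≤ 2 * (A * U) := by
    have s1 : 1 ≤ √A := Real.one_le_sqrt.2 hA
    have s2 : 1 / 2 ≤ √B := Real.le_sqrt_of_sq_le (by linarith)
    have s3 : 1 / 2 ≤ A * U ^ 2 := by
      rw [hU2]
      calc (1 / 2 : ℝ) = 1 * 1 * (1 / 2) := by norm_num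
        _ ≤ _ := by gcongr
    refine (pow_le_pow_iff_left₀ zero_le_one (by positivity) two_ne_zero).1 ?_
    have s4 : A * U ^ 2 ≤ A * (A * U ^ 2) := le_mul_of_one_le_left (by positivity) hA
    nlinarith
  set T := A / B / (ν0 : ℝ) ^ 2 with hT
  have hT0 : 0 ≤ T := by positivity
  have hcard := hI.card_le hA
  have main : ∀ q ∈ Icc 1 Q, ∀ t : ℝ,
      ‖∑ ν ∈ (Icc 1 ν0).filter (fun ν => q ∣ ν ∧ e0 ∣ ν), ((1 / (ν : ℝ) : ℝ) : ℂ) *
        ∑ a1 ∈ I, ∑ a2 ∈ I, ((α a1 / √(a1 : ℝ) * (α a2 / √(a2 : ℝ)) *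
          psi B (sg a1 a2 ^ 2 / (ν : ℝ) ^ 2) : ℝ) : ℂ) * ee (t * ((a2 : ℝ) - a1))‖ ≤
      C * (1 / q * ‖ft I (gam α) t‖ ^ 2) + 36 * C * (A * T + A * U) / q := by
    intro q hq t
    rw [mem_Icc] at hq
    have hq0 : (0 : ℝ) < q := by exact_mod_cast hq.1
    have hd : 0 < Nat.lcm q e0 := Nat.lcm_pos hq.1 he1
    have hd1 : q ≤ Nat.lcm q e0 := Nat.le_of_dvd hd (Nat.dvd_lcm_left _ _)
    have hd2 : Nat.lcm q e0 ≤ 4 * Q :=
      (Nat.le_of_dvd (Nat.mul_pos hq.1 he1) (Nat.lcm_dvd_mul _ _)).trans (by nlinarith [hq.2])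
    simp only [← Nat.lcm_dvd_iff]
    generalize Nat.lcm q e0 = d at hd hd1 hd2 ⊢
    have hd' : (0 : ℝ) < d := by exact_mod_cast hd
    have hd1' : (q : ℝ) ≤ d := by exact_mod_cast hd1
    have hd2' : (d : ℝ) ≤ 4 * Q := by exact_mod_cast hd2
    refine (sq_swap I _ (fun a => α a / √(a : ℝ)) (fun ν a1 a2 => psi B (sg a1 a2 ^ 2 / (ν : ℝ) ^ 2))
      t (I0 / d)).trans (add_le_add ?_ ?_)
    · rw [← mul_assoc]
      refine mul_le_mul_of_nonneg_right ?_ (by positivity)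
      rw [abs_div, abs_of_pos hd', mul_one_div]
      gcongr
    have hg : ∀ a ∈ I, |α a / √(a : ℝ)| ≤ 1 / √A := fun a ha => by
      rw [abs_div, abs_of_nonneg (Real.sqrt_nonneg _)]
      exact div_le_div₀ zero_le_one (hα a) sA (Real.sqrt_le_sqrt (hI a ha).1.le)
    have pt : ∀ a1 ∈ I, ∀ a2 ∈ I, |α a1 / √(a1 : ℝ) * (α a2 / √(a2 : ℝ))| *
        |∑ ν ∈ (Icc 1 ν0).filter (d ∣ ·), 1 / (ν : ℝ) * psi B (sg a1 a2 ^ 2 / (ν : ℝ) ^ 2) -
          I0 / d| ≤ C / (A * q) *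
          ((if a1 = a2 then 1 else 0) + 4 * √A * U * (1 / √|(a2 : ℝ) - a1|) + T) := by
      intro a1 h1 a2 h2
      have g1 : |α a1 / √(a1 : ℝ) * (α a2 / √(a2 : ℝ))| ≤ 1 / A := by
        rw [abs_mul]
        refine (mul_le_mul (hg a1 h1) (hg a2 h2) (abs_nonneg _) (by positivity)).trans_eq ?_
        rw [div_mul_div_comm, Real.mul_self_sqrt hA0.le, mul_one]
      rw [show ∀ x : ℝ, C / (A * q) * x = 1 / A * (C * x / q) from fun x => by field_simp]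
      refine mul_le_mul g1 ?_ (abs_nonneg _) (by positivity)
      split_ifs with h
      · subst h
        simp only [sg, sub_self, ne_eq, OfNat.ofNat_ne_zero, not_false_eq_true, zero_pow, zero_div,
          psi_zero, mul_zero, sum_const_zero, zero_sub, abs_neg, abs_zero, Real.sqrt_zero,
          div_zero, add_zero]
        rw [abs_div, abs_of_pos hd']
        exact div_le_div₀ (by positivity) (by nlinarith) hq0 hd1'
      · obtain ⟨s1, s2⟩ := sq_sg hA (hI a1 h1) (hI a2 h2)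
        have hh : 0 < |(a2 : ℝ) - a1| :=
          abs_pos.2 (sub_ne_zero.2 fun e => h (by exact_mod_cast e.symm))
        have hs : sg a1 a2 ≠ 0 := fun e => by
          rw [e, abs_zero, mul_zero] at s2
          linarith
        have hs' := abs_pos.2 hs
        refine (sq_psi hC hB0 hs hRS hd (hd2.trans hν)).trans ?_
        rw [zero_add]
        refine div_le_div₀ (by positivity) (mul_le_mul_of_nonneg_left (add_le_add ?_ ?_) hC.le)
          hq0 hd1'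
        · rw [one_div, ← Real.sqrt_inv, mul_one_div, le_div_iff₀ (Real.sqrt_pos.2 hh),
            ← Real.sqrt_mul (by positivity), Real.sqrt_le_iff]
          refine ⟨by positivity, ?_⟩
          rw [inv_div, div_mul_eq_mul_div, div_le_iff₀ hs', mul_pow, mul_pow, qA, mul_assoc (4 ^ 2),
            hU2]
          calc d * √B * |(a2 : ℝ) - a1| ≤ 4 * Q * √B * (3 * √A * |sg a1 a2|) := by gcongr
            _ = 12 * (Q * √A * √B * |sg a1 a2|) := by ring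
            _ ≤ 16 * (Q * √A * √B * |sg a1 a2|) := by gcongr; norm_num
            _ = _ := by ring
        · rw [hT, div_div]
          gcongr
    refine (sum_le_sum fun a1 h1 => sum_le_sum (pt a1 h1)).trans ?_
    have row : ∀ a1 ∈ I, ∑ a2 ∈ I, C / (A * q) *
        ((if a1 = a2 then 1 else 0) + 4 * √A * U * (1 / √|(a2 : ℝ) - a1|) + T) ≤
        C / (A * q) * (18 * (A * T + A * U)) := fun a1 h1 => by
      rw [← mul_sum]
      refine mul_le_mul_of_nonneg_left ?_ (by positivity)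
      rw [sum_add_distrib, sum_add_distrib, ← mul_sum, sum_ite_eq, if_pos h1, sum_const,
        nsmul_eq_mul]
      have r1 : 4 * √A * U * ∑ a2 ∈ I, 1 / √|(a2 : ℝ) - a1| ≤ 4 * √A * U * (4 * √A) :=
        mul_le_mul_of_nonneg_left (sq_row hA hI h1) (by positivity)
      have r2 : 4 * √A * U * (4 * √A) = 16 * (A * U) := by
        rw [show 4 * √A * U * (4 * √A) = 16 * (√A ^ 2 * U) by ring, qA]
      have r3 : I.card * T ≤ 2 * A * T := by gcongr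
      have r4 : 0 ≤ A * T := by positivity
      linarith
    refine (sum_le_sum row).trans ?_
    rw [sum_const, nsmul_eq_mul]
    calc _ ≤ 2 * A * (C / (A * q) * (18 * (A * T + A * U))) := by gcongr
      _ = _ := by field_simp; ring
  refine (sum_le_sum fun q hq => sum_le_sum fun r _ => main q hq _).trans ?_
  have fin : ∀ q ∈ Icc 1 Q, ∑ r ∈ red q, (C * (1 / q * ‖ft I (gam α) ((r : ℝ) / q)‖ ^ 2) +
      36 * C * (A * T + A * U) / q) ≤
      36 * C * (1 / q * en I (gam α) q) + 36 * C * (A * T + A * U) := fun q hq => by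
    have hq0 : (0 : ℝ) < q := by exact_mod_cast (mem_Icc.1 hq).1
    rw [sum_add_distrib, ← mul_sum, ← mul_sum, sum_const, nsmul_eq_mul]
    refine add_le_add ?_ ?_
    · have := en_nonneg I (gam α) q
      exact mul_le_mul_of_nonneg_right (by linarith) (by positivity)
    · have : ((red q).card : ℝ) ≤ q := by exact_mod_cast card_red_le q
      calc _ ≤ q * (36 * C * (A * T + A * U) / q) := by gcongr
        _ = _ := by field_simp
  refine (sum_le_sum fin).trans (le_of_eq ?_)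
  rw [sum_add_distrib, ← mul_sum, sum_const, nsmul_eq_mul, Nat.card_Icc, Nat.add_sub_cancel, enS,
    hT]
  ring

end Pool.Agent.P.MP_8be758_nt.Avg
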