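import Pool.Agent.P.MP_8be758_nt.Avg.Basic

/-! Convergence and size of the singular series. -/

namespace Pool.Agent.P.MP_8be758_nt.Avg

open Finset Real Filter Topology
open Pool.Agent.P.MP_e86632_nt (ee)

/-- the correction between the two local factors -/
noncomputable def ss2_f (k R n : ℕ) : ℝ :=
  if n.Prime ∧ R < n then -(chi k n / (((n : ℝ) - 1) * (n - chi k n))) else 0

theorem ss2_f_le (k R n : ℕ) (hR : 2 ≤ R) :
    |ss2_f k R n| ≤ if R < n then 4 * ((n : ℝ) ^ 2)⁻¹ else 0 := by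
  unfold ss2_f
  by_cases h : R < n
  · rw [if_pos h]
    split_ifs with h1
    · have h3 : (3 : ℝ) ≤ n := by exact_mod_cast (by omega : 3 ≤ n)
      have hc := abs_chi_le k n
      have hc' := abs_le.1 hc
      have h4 : (0 : ℝ) < ((n : ℝ) - 1) * (n - chi k n) := mul_pos (by linarith) (by linarith)
      rw [abs_neg, abs_div, abs_of_pos h4, div_le_iff₀ h4, ← div_eq_mul_inv, div_mul_eq_mul_div,
        le_div_iff₀ (by positivity)]
      have h5 : (n : ℝ) ^ 2 ≤ 4 * (((n : ℝ) - 1) * (n - chi k n)) := by nlinarith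
      nlinarith [abs_nonneg (chi k n), sq_nonneg (n : ℝ)]
    · rw [abs_zero]; positivity
  · rw [if_neg h, if_neg fun h1 => h h1.2, abs_zero]

theorem ss2_sum_le (k R y : ℕ) (hR : 2 ≤ R) : ∑ n ∈ range y, |ss2_f k R n| ≤ 4 / R := by
  refine (sum_le_sum fun n _ => ss2_f_le k R n hR).trans ?_
  rw [← sum_filter]
  have h1 : (range y).filter (fun n => R < n) ⊆ Ioc R (R + y) := fun n hn => by
    simp only [mem_filter, mem_range, mem_Ioc] at hn ⊢
    omega
  refine (sum_le_sum_of_subset_of_nonneg h1 fun _ _ _ => by positivity).trans ?_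
  rw [← mul_sum]
  have h2 := sum_Ioc_inv_sq_le_sub (α := ℝ) (k := R) (n := R + y) (by omega) (by omega)
  have h3 : (0 : ℝ) ≤ ((R + y : ℕ) : ℝ)⁻¹ := by positivity
  rw [div_eq_mul_inv]
  linarith

theorem ss2_conv (k R : ℕ) (hR : 4 ≤ R) : ∃ P : ℝ,
    Tendsto (fun y : ℕ => ∏ n ∈ range (y + 1), (1 + ss2_f k R n)) atTop (𝓝 P) ∧
      |P - 1| ≤ 8 / R := by
  have hs : Summable fun n => |ss2_f k R n| :=
    summable_of_sum_range_le (fun _ => abs_nonneg _) fun y => ss2_sum_le k R y (by omega)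
  have hm := (Real.multipliable_one_add_of_summable hs.of_abs).hasProd.tendsto_prod_nat
  have hm' := (tendsto_add_atTop_iff_nat 1).2 hm
  refine ⟨_, hm', le_of_tendsto' ((hm'.sub_const 1).abs) fun y => ?_⟩
  have h1 := Finset.norm_prod_one_add_sub_one_le (range (y + 1)) (ss2_f k R)
  simp only [Real.norm_eq_abs] at h1
  refine h1.trans ?_
  have hR' : (4 : ℝ) ≤ R := by exact_mod_cast hR
  have h2 : (0 : ℝ) ≤ 4 / R := by positivity
  have h3 : (4 : ℝ) / R ≤ 1 := by rw [div_le_one (by linarith)]; exact hR'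
  have h4 := Real.abs_exp_sub_one_le (x := 4 / R) (by rwa [abs_of_nonneg h2])
  rw [abs_of_nonneg h2] at h4
  have h5 := Real.exp_le_exp.2 (ss2_sum_le k R (y + 1) (by omega))
  have h6 := le_abs_self (Real.exp (4 / R) - 1)
  have h7 : (8 : ℝ) / R = 2 * (4 / R) := by ring
  linarith

theorem ss2_TT (k R y : ℕ) (hR : 2 ≤ R) : TT k R y =
    (∏ p ∈ Nat.primesLE y, (1 - (if Rough R p then chi k p else 0) / p)) *
      ∏ n ∈ range (y + 1), (1 + ss2_f k R n) := by
  rw [TT, PL_nat, prod_filter, Nat.primesLE_eq_filter_range, prod_filter, prod_filter,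
    ← prod_mul_distrib]
  refine prod_congr rfl fun n _ => ?_
  unfold ss2_f
  by_cases hp : n.Prime
  · by_cases h : R < n
    · have h' : Rough R n := (rough_prime hp).2 (by exact_mod_cast h)
      have h3 : (3 : ℝ) ≤ n := by exact_mod_cast (by omega : 3 ≤ n)
      have hc' := abs_le.1 (abs_chi_le k n)
      have h4 : (n : ℝ) - 1 ≠ 0 := by linarith
      have h5 : (n : ℝ) - chi k n ≠ 0 := by linarith
      have h6 : (n : ℝ) ≠ 0 := by linarith
      rw [if_pos hp, if_pos h, if_pos hp, if_pos h', if_pos ⟨hp, h⟩]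
      field_simp
      ring
    · have h' : ¬ Rough R n := fun h1 => h (by exact_mod_cast (rough_prime hp).1 h1)
      rw [if_pos hp, if_neg h, if_pos hp, if_neg h', if_neg fun h1 => h h1.2]
      simp
  · rw [if_neg hp, if_neg hp, if_neg fun h1 => hp h1.1]
    simp

theorem ss2_good (hMERT : S_MERT) (hLW : S_LW) {k R : ℕ} (hk : 1 ≤ k) (hR : 4 ≤ R) {L : ℝ}
    (hL0 : L ≠ 0)
    (hL : Tendsto (fun x : ℕ => ∑ n ∈ (Icc 1 x).filter (Rough R), chi k n / n) atTop (𝓝 L)) :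
    ∃ P : ℝ, Tendsto (fun y : ℕ => TT k R y) atTop (𝓝 (L⁻¹ * P)) ∧ |P - 1| ≤ 8 / R := by
  obtain ⟨P, h1, h2⟩ := ss2_conv k R hR
  refine ⟨P, ?_, h2⟩
  have h3 := hMERT (fun n => if Rough R n then chi k n else 0) (4 * k * 2 ^ R) L
    (by simp [rough_one, chi_one]) (fun m n => by
      by_cases hm : Rough R m <;> by_cases hn : Rough R n <;> simp [rough_mul, hm, hn, chi_mul])
    (fun n => by
      split_ifs
      · exact abs_chi_le k n
      · simp)
    (fun x => by rw [← sum_filter]; exact hLW.1 k R x hk) hL0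
    (hL.congr fun x => by
      rw [sum_filter]
      exact sum_congr rfl fun n _ => by split_ifs <;> simp)
  exact (h3.mul h1).congr fun y => (ss2_TT k R y (by omega)).symm

theorem t_SS2 (hMERT : S_MERT) (hLW : S_LW) : S_SS2 := by
  intro ε hε
  obtain ⟨η, hη, hη1, hη2⟩ : ∃ η : ℝ, 0 < η ∧ η ≤ 1 / 2 ∧ 4 * η ≤ ε :=
    ⟨min (1 / 2) (ε / 4), by positivity, min_le_left _ _, by linarith [min_le_right (1 / 2) (ε / 4)]⟩
  obtain ⟨R0, hR0, h⟩ := hLW.2 η hη
  refine ⟨max (max R0 4) ⌈8 / η⌉₊, by omega, fun R hR => ?_⟩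
  filter_upwards [h R (by omega)] with K hK
  refine le_trans ?_ (hK.trans (mul_le_mul_of_nonneg_right (by linarith) (Nat.cast_nonneg K)))
  refine Nat.cast_le.2 (card_le_card fun k hk => ?_)
  simp only [mem_filter] at hk ⊢
  refine ⟨hk.1, fun ⟨L, hL, hL1⟩ => hk.2 ?_⟩
  have hL2 := abs_le.1 hL1
  have hL3 : 0 < L := by linarith
  obtain ⟨P, h1, h2⟩ := ss2_good hMERT hLW (mem_Icc.1 hk.1).1 (by omega : 4 ≤ R) hL3.ne' hL
  refine ⟨_, h1, ?_⟩
  have h3 : 8 / η ≤ R := (Nat.le_ceil _).trans (Nat.cast_le.2 (by omega))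
  have hR' : (0 : ℝ) < R := by exact_mod_cast (by omega : 0 < R)
  have h4 : 8 / (R : ℝ) ≤ η := by
    rw [div_le_iff₀ hη] at h3
    rw [div_le_iff₀ hR']
    linarith
  have h5 := abs_le.1 (h2.trans h4)
  have h6 : L⁻¹ * P - 1 = (P - L) / L := by field_simp
  rw [h6, abs_div, abs_of_pos hL3, div_le_iff₀ hL3, abs_le]
  constructor <;> nlinarith

theorem t_SING (hSS1 : S_SS1) (hSS2 : S_SS2) (hSGW : S_SGW) : S_SING := by
  classical
  intro ε hε
  obtain ⟨-, g2, -, g4, g5, g6⟩ := hSGW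
  obtain ⟨R0, hR0, h1⟩ := hSS1 (min (ε / 2) (1 / 2)) (by positivity)
  refine ⟨1 / 2 ^ (R0 + 1), by positivity, fun ε' hε' => ?_⟩
  obtain ⟨R0', -, h2⟩ := hSS2 (min ε' (ε / 2)) (by positivity)
  refine ⟨max R0 R0', fun R hR => ?_⟩
  filter_upwards [h1 R0 le_rfl, h2 R (by omega), eventually_ge_atTop (R ^ 3)] with K k1 k2 k3
  have k4 := k1 R (by exact_mod_cast k3)
  have hK : (0 : ℝ) ≤ K := Nat.cast_nonneg K
  have k5 := mul_le_mul_of_nonneg_right (min_le_left (ε / 2) (1 / 2)) hK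
  have k6 := mul_le_mul_of_nonneg_right (min_le_right ε' (ε / 2)) hK
  refine le_trans ?_ ((add_le_add k4 k2).trans (by linarith))
  rw [← Nat.cast_add]
  refine Nat.cast_le.2 (le_trans (card_le_card fun k hk => ?_) (card_union_le _ _))
  simp only [mem_filter, mem_union] at hk ⊢
  obtain ⟨hk1, hodd, hbad⟩ := hk
  by_contra hcon
  rw [not_or] at hcon
  obtain ⟨c1, c2⟩ := hcon
  have c3 : |TT k R0 R - 1| ≤ 1 / 2 :=
    (not_lt.1 fun h => c1 ⟨hk1, h⟩).trans (min_le_right _ _)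
  obtain ⟨T, hT, hT1⟩ : ∃ T : ℝ, Tendsto (fun y : ℕ => TT k R y) atTop (𝓝 T) ∧
      |T - 1| ≤ min ε' (ε / 2) := by
    by_contra h
    exact c2 ⟨hk1, h⟩
  apply hbad
  refine ⟨?_, sing R k * T / 2, ?_, ?_⟩
  · rw [g4 k R0 R (mem_Icc.1 hk1).1 hR0 (by omega), pow_succ, ← div_div, div_eq_mul_one_div]
    exact mul_le_mul (g6 k R0 hodd hR0) (by linarith [(abs_le.1 c3).1]) (by norm_num) (g2 k R0)
  · refine ((hT.const_mul (sing R k)).div_const 2).congr' ?_
    filter_upwards [eventually_ge_atTop R] with y hy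
    rw [← g5 k R y hodd (by omega) hy]
    ring
  · rw [show 2 * (sing R k * T / 2) - sing R k = (T - 1) * sing R k by ring, abs_mul,
      abs_of_nonneg (g2 k R)]
    exact mul_le_mul_of_nonneg_right (hT1.trans (min_le_left _ _)) (g2 k R)

end Pool.Agent.P.MP_8be758_nt.Avg
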