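import Pool.Agent.P.MP_8be758_nt.Avg.Basic

/-! The abstract type I estimate from sieve weights. -/

namespace Pool.Agent.P.MP_8be758_nt.Avg

open Finset Real Filter Topology
open Pool.Agent.P.MP_e86632_nt (ee)

theorem ti_prod_pos {z : ℝ} {E : Finset ℕ} (hE : E ⊆ PL z) : 1 ≤ ∏ p ∈ E, p :=
  Nat.one_le_iff_ne_zero.2 (prod_ne_zero_iff.2 fun _ hp => (prime_of_mem_PL (hE hp)).ne_zero)

theorem ti_dvd {z : ℝ} {E : Finset ℕ} (hE : E ⊆ PL z) {d : ℕ} (hd : Rough z d) (m : ℕ) :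
    d * ∏ p ∈ E, p ∣ m ↔ d ∣ m ∧ ∀ p ∈ E, p ∣ m := by
  refine ⟨fun h => ⟨(dvd_mul_right _ _).trans h, fun p hp =>
    ((dvd_prod_of_mem _ hp).trans (dvd_mul_left _ _)).trans h⟩, fun h => ?_⟩
  refine Nat.Coprime.mul_dvd_of_dvd_of_dvd ?_ h.1
    (Finset.prod_primes_dvd m (fun p hp => (prime_of_mem_PL (hE hp)).prime) h.2)
  refine Nat.Coprime.prod_right fun p hp => ?_
  exact ((Nat.Prime.coprime_iff_not_dvd (prime_of_mem_PL (hE hp))).2
    (rough_iff.1 hd p (hE hp))).symm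

theorem ti_ind (z : ℝ) (m : ℕ) :
    ∏ p ∈ PL z, (1 - if p ∣ m then (1 : ℝ) else 0) = if Rough z m then 1 else 0 := by
  split_ifs with h
  · exact prod_eq_one fun p hp => by rw [if_neg (rough_iff.1 h p hp), sub_zero]
  · rw [rough_iff] at h
    push Not at h
    obtain ⟨p, hp, hd⟩ := h
    exact prod_eq_zero hp (by rw [if_pos hd, sub_self])

theorem ti_swap {z : ℝ} (J : Finset ℕ) (t : ℕ → ℝ) (w : Finset ℕ → ℝ) {d : ℕ} (hd : Rough z d) :
    ∑ m ∈ J.filter (d ∣ ·), (∑ E ∈ (PL z).powerset, w E * ∏ p ∈ E, if p ∣ m then (1 : ℝ) else 0) *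
      t m = ∑ E ∈ (PL z).powerset, w E * ∑ m ∈ J.filter (d * ∏ p ∈ E, p ∣ ·), t m := by
  simp only [sum_mul]
  rw [sum_comm]
  refine sum_congr rfl fun E hE => ?_
  rw [mul_sum, sum_filter, sum_filter]
  refine sum_congr rfl fun m _ => ?_
  rw [prod_boole]
  simp only [ti_dvd (mem_powerset.1 hE) hd m]
  by_cases h1 : d ∣ m <;> by_cases h2 : ∀ p ∈ E, p ∣ m <;> simp [h1, h2]

theorem t_TI : S_TI := by
  intro z y L δ Er l K J Dd t κ c lam Del hFL hy hl hEr ht hD hb hc hκ0 hκp hmul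
  obtain ⟨hL, hg, hδ⟩ := hFL
  set P := (PL z).powerset with hP
  set e : Finset ℕ → ℕ := fun E => ∏ p ∈ E, p with he
  have he1 : ∀ E ∈ P, 1 ≤ e E := fun E hE => ti_prod_pos (mem_powerset.1 hE)
  have he1' : ∀ E ∈ P, (1 : ℝ) ≤ e E := fun E hE => by exact_mod_cast he1 E hE
  have hL' : ∑ E ∈ P, (|lam E| + |Del E|) * (e E : ℝ) ≤ L := by simpa [he] using hL
  have hL0 : 0 ≤ L := le_trans (sum_nonneg fun E _ => by positivity) hL'
  set S : ℕ → ℕ → ℝ := fun k q => ∑ m ∈ J.filter (q ∣ ·), t k m with hS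
  set T : ℕ → ℕ → ℝ := fun k d => ∑ m ∈ J.filter (d ∣ ·), (if Rough z m then 1 else 0) * t k m
    with hT
  set M : ℕ → ℕ → ℝ := fun k d => l * (κ k d / d) * ∏ p ∈ PL z, (1 - κ k p / p) with hM
  have key : ∀ d ∈ Dd, ∀ k, |T k d - M k d| ≤
      ∑ E ∈ P, (|lam E| + |Del E|) * |S k (d * e E) - l * κ k (d * e E) / (d * e E : ℕ)| +
        l * ∑ E ∈ P, Del E * (κ k (d * e E) / (d * e E : ℕ)) := by
    intro d hd k
    obtain ⟨hd1, -, hdr, -⟩ := hD d hd
    have g1 := fun m : ℕ => hg (fun p => if p ∣ m then (1 : ℝ) else 0)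
      fun p _ => by split_ifs <;> norm_num
    simp only [ti_ind] at g1
    have a1 : T k d ≤ ∑ E ∈ P, lam E * S k (d * e E) := by
      rw [← ti_swap J (t k) lam hdr]
      exact sum_le_sum fun m _ => mul_le_mul_of_nonneg_right (g1 m).1 (ht k m)
    have a2 : ∑ E ∈ P, lam E * S k (d * e E) ≤ T k d + ∑ E ∈ P, Del E * S k (d * e E) := by
      rw [← ti_swap J (t k) lam hdr, ← ti_swap J (t k) Del hdr, ← sum_add_distrib]
      refine sum_le_sum fun m _ => ?_
      rw [← add_mul]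
      exact mul_le_mul_of_nonneg_right (g1 m).2 (ht k m)
    have g2 := hg (fun p => κ k p / p) fun p hp => ⟨div_nonneg (hκ0 k p) (Nat.cast_nonneg p),
      div_le_one_of_le₀ (hκp k p (prime_of_mem_PL hp)) (Nat.cast_nonneg p)⟩
    have hw : 0 ≤ l * (κ k d / d) := mul_nonneg hl (div_nonneg (hκ0 k d) (Nat.cast_nonneg d))
    have e1 : ∀ w : Finset ℕ → ℝ, l * (κ k d / d) * ∑ E ∈ P, w E * ∏ p ∈ E, κ k p / p =
        ∑ E ∈ P, w E * (l * κ k (d * e E) / (d * e E : ℕ)) := by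
      intro w
      rw [mul_sum]
      refine sum_congr rfl fun E hE => ?_
      rw [hmul k d hd E (mem_powerset.1 hE), prod_div_distrib]
      simp only [he]
      push_cast
      ring
    have b1 := mul_le_mul_of_nonneg_left g2.1 hw
    have b2 := mul_le_mul_of_nonneg_left g2.2 hw
    rw [mul_add, e1, e1] at b2
    rw [e1] at b1
    have c1 : ∀ w : Finset ℕ → ℝ, |∑ E ∈ P, w E * S k (d * e E) -
        ∑ E ∈ P, w E * (l * κ k (d * e E) / (d * e E : ℕ))| ≤
        ∑ E ∈ P, |w E| * |S k (d * e E) - l * κ k (d * e E) / (d * e E : ℕ)| := by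
      intro w
      rw [← sum_sub_distrib]
      refine (abs_sum_le_sum_abs _ _).trans (le_of_eq (sum_congr rfl fun E _ => ?_))
      rw [← mul_sub, abs_mul]
    have c2 := abs_le.1 (c1 lam)
    have c3 := abs_le.1 (c1 Del)
    have e2 : l * ∑ E ∈ P, Del E * (κ k (d * e E) / (d * e E : ℕ)) =
        ∑ E ∈ P, Del E * (l * κ k (d * e E) / (d * e E : ℕ)) := by
      rw [mul_sum]; exact sum_congr rfl fun E _ => by ring
    have c4 : 0 ≤ ∑ E ∈ P, |Del E| * |S k (d * e E) - l * κ k (d * e E) / (d * e E : ℕ)| :=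
      sum_nonneg fun _ _ => by positivity
    simp only [add_mul, sum_add_distrib]
    rw [e2, abs_le]
    simp only [hM]
    constructor <;> linarith
  have key2 : ∀ d ∈ Dd, ∑ k ∈ Icc 1 K, |T k d - M k d| ≤
      (Er * (K + y) + l) * L + l * K * δ * (1 / d) := by
    intro d hd
    obtain ⟨hd1, hdy, -, -⟩ := hD d hd
    have hd0 : (0 : ℝ) < d := by exact_mod_cast hd1
    refine (sum_le_sum fun k _ => key d hd k).trans ?_
    rw [sum_add_distrib, sum_comm, ← mul_sum, sum_comm (s := Icc 1 K)]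
    have a1 : ∑ E ∈ P, ∑ k ∈ Icc 1 K, (|lam E| + |Del E|) *
        |S k (d * e E) - l * κ k (d * e E) / (d * e E : ℕ)| ≤ Er * (K + y) * L := by
      refine le_trans (sum_le_sum fun E hE => ?_) (mul_le_mul_of_nonneg_left hL' (by positivity)
        |>.trans' (le_of_eq (mul_sum _ _ _).symm))
      rw [← mul_sum]
      have h1 := hb (d * e E) (Nat.mul_pos hd1 (he1 E hE))
      have h2 : (K : ℝ) + (d * e E : ℕ) ≤ (K + y) * e E := by
        have := he1' E hE
        have h3 : (0 : ℝ) ≤ K := Nat.cast_nonneg K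
        push_cast
        nlinarith
      calc _ ≤ (|lam E| + |Del E|) * (Er * ((K + y) * e E)) :=
            mul_le_mul_of_nonneg_left (h1.trans (mul_le_mul_of_nonneg_left h2 hEr)) (by positivity)
        _ = _ := by ring
    have a2 : ∑ E ∈ P, ∑ k ∈ Icc 1 K, Del E * (κ k (d * e E) / (d * e E : ℕ)) ≤
        L + K * δ * (1 / d) := by
      have h1 : ∀ E ∈ P, ∑ k ∈ Icc 1 K, Del E * (κ k (d * e E) / (d * e E : ℕ)) ≤
          (|lam E| + |Del E|) * e E + K * (1 / d) * (Del E * ∏ p ∈ E, 1 / (p : ℝ)) := by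
        intro E hE
        have h2 := hc (d * e E) (Nat.mul_pos hd1 (he1 E hE))
        have h3 := he1' E hE
        have h4 : (0 : ℝ) < (d * e E : ℕ) := by push_cast; positivity
        have h5 : ∏ p ∈ E, 1 / (p : ℝ) = 1 / e E := by simp [he]
        have h6 : |Del E * ((∑ k ∈ Icc 1 K, κ k (d * e E) - K) / (d * e E : ℕ))| ≤ |Del E| := by
          rw [abs_mul, abs_div, abs_of_pos h4]
          exact mul_le_of_le_one_right (abs_nonneg _) ((div_le_one h4).2 h2)
        have h7 : ∑ k ∈ Icc 1 K, Del E * (κ k (d * e E) / (d * e E : ℕ)) =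
            Del E * ((∑ k ∈ Icc 1 K, κ k (d * e E) - K) / (d * e E : ℕ)) +
              K * (1 / d) * (Del E * (1 / e E)) := by
          rw [← mul_sum, ← sum_div]
          push_cast
          field_simp
          ring
        rw [h5, h7]
        have h8 := abs_nonneg (lam E)
        have h9 := abs_nonneg (Del E)
        have := le_abs_self (Del E * ((∑ k ∈ Icc 1 K, κ k (d * e E) - K) / (d * e E : ℕ)))
        nlinarith
      refine (sum_le_sum h1).trans ?_
      rw [sum_add_distrib, ← mul_sum]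
      have := mul_le_mul_of_nonneg_left hδ (by positivity : (0 : ℝ) ≤ K * (1 / d))
      linarith
    have := mul_le_mul_of_nonneg_left a2 hl
    linarith
  have e3 : ∀ k, ∑ m ∈ J.filter (Rough z), (∑ d ∈ Dd.filter (· ∣ m), c d) * t k m -
      l * (∑ d ∈ Dd, c d * κ k d / d) * ∏ p ∈ PL z, (1 - κ k p / p) =
      ∑ d ∈ Dd, c d * (T k d - M k d) := by
    intro k
    simp only [mul_sub, sum_sub_distrib, hT, hM]
    congr 1
    · simp only [sum_filter, sum_mul, mul_sum]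
      rw [sum_comm]
      refine sum_congr rfl fun m _ => ?_
      by_cases h : Rough z m
      · simp [h]
      · simp [h]
    · rw [mul_sum, sum_mul]
      exact sum_congr rfl fun d _ => by ring
  have hcard : (Dd.card : ℝ) ≤ y := by
    have h1 : Dd ⊆ Icc 1 ⌊y⌋₊ := fun d hd =>
      mem_Icc.2 ⟨(hD d hd).1, Nat.le_floor (hD d hd).2.1⟩
    have h2 := card_le_card h1
    rw [Nat.card_Icc, Nat.add_sub_cancel] at h2
    exact le_trans (by exact_mod_cast h2) (Nat.floor_le hy)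
  simp only [e3]
  calc ∑ k ∈ Icc 1 K, |∑ d ∈ Dd, c d * (T k d - M k d)|
      ≤ ∑ k ∈ Icc 1 K, ∑ d ∈ Dd, |T k d - M k d| := by
        refine sum_le_sum fun k _ => (abs_sum_le_sum_abs _ _).trans (sum_le_sum fun d hd => ?_)
        rw [abs_mul]
        exact mul_le_of_le_one_left (abs_nonneg _) (hD d hd).2.2.2
    _ ≤ ∑ d ∈ Dd, ((Er * (K + y) + l) * L + l * K * δ * (1 / d)) := by
        rw [sum_comm]; exact sum_le_sum key2
    _ ≤ _ := by
        rw [sum_add_distrib, sum_const, nsmul_eq_mul, ← mul_sum, mul_comm (Dd.card : ℝ)]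
        gcongr

end Pool.Agent.P.MP_8be758_nt.Avg
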