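import Pool.Agent.P.MP_8be758_nt.Avg.Basic

/-! Upper bound for the number of products close to `n ^ 2 + n`. -/

namespace Pool.Agent.P.MP_8be758_nt.Avg

open Finset Real Filter Topology
open Pool.Agent.P.MP_e86632_nt (ee)

/-- pointwise majorant by a Gaussian sum -/
theorem up_point (hGS1 : S_GS1) {N : ℝ} (hN : 0 < N) {K m : ℕ} (hK : 1 ≤ K)
    (hm : N ≤ √(m : ℝ)) :
    ∑ k ∈ Icc 1 K, rr k m ≤
      Real.exp π * ∑' n : ℤ, gs (1 / (K / N) * (n - (√(m : ℝ) - 1 / 2))) := by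
  have hK0 : (0 : ℝ) < K := by exact_mod_cast hK
  have hκ : 0 < (K : ℝ) / N := by positivity
  have h1 : ∀ k ∈ Icc 1 K, rr k m =
      ∑ n ∈ range (m + 1), if n ^ 2 + n + k = m then (1 : ℝ) else 0 :=
    fun k _ => rr_eq_sum k m _ fun n hn => mem_range.2 (by omega)
  rw [sum_congr rfl h1, sum_comm]
  have h2 : ∀ n ∈ range (m + 1), (∑ k ∈ Icc 1 K, if n ^ 2 + n + k = m then (1 : ℝ) else 0) ≤
      Real.exp π * gs (1 / (K / N) * (((n : ℤ) : ℝ) - (√(m : ℝ) - 1 / 2))) := by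
    intro n _
    by_cases hex : ∃ k ∈ Icc 1 K, n ^ 2 + n + k = m
    · obtain ⟨k, hk, he⟩ := hex
      rw [sum_eq_single_of_mem k hk (fun j _ hj => if_neg (by omega)), if_pos he]
      have hk1 : (1 : ℝ) ≤ k := by exact_mod_cast (mem_Icc.1 hk).1
      have hk2 : (k : ℝ) ≤ K := by exact_mod_cast (mem_Icc.1 hk).2
      have hs : √(m : ℝ) ^ 2 = (n : ℝ) ^ 2 + n + k := by
        rw [Real.sq_sqrt (Nat.cast_nonneg m), ← he]; push_cast; ring
      have hn0 : (0 : ℝ) ≤ n := Nat.cast_nonneg n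
      set s := √(m : ℝ)
      have h3 : (n : ℝ) + 1 / 2 ≤ s := by
        by_contra hc
        push Not at hc
        nlinarith
      have h4 : (s - (n + 1 / 2)) * N ≤ K := by nlinarith
      have h5 : |1 / ((K : ℝ) / N) * (((n : ℤ) : ℝ) - (s - 1 / 2))| ≤ |1| := by
        rw [abs_mul, abs_one, abs_of_pos (by positivity), Int.cast_natCast,
          abs_of_nonpos (by linarith), one_div_mul_eq_div, div_le_one hκ, le_div_iff₀ hN]
        linarith
      have h6 := gs_anti h5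
      have h7 : Real.exp π * gs 1 = 1 := by
        rw [gs, ← Real.exp_add]; simp
      calc (1 : ℝ) = Real.exp π * gs 1 := h7.symm
        _ ≤ _ := mul_le_mul_of_nonneg_left h6 (Real.exp_pos _).le
    · rw [sum_eq_zero fun k hk => if_neg fun he => hex ⟨k, hk, he⟩]
      exact mul_nonneg (Real.exp_pos _).le (gs_pos _).le
  refine (sum_le_sum h2).trans ?_
  rw [← mul_sum]
  refine mul_le_mul_of_nonneg_left ?_ (Real.exp_pos _).le
  have h8 := (hGS1 (1 / (K / N)) 0 (√(m : ℝ) - 1 / 2) (by positivity)).1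
  have h9 := h8.sum_le_tsum ((range (m + 1)).image fun n : ℕ => (n : ℤ)) fun _ _ => (gs_pos _).le
  rwa [sum_image fun _ _ _ _ h => by exact_mod_cast h] at h9

theorem up_card {B : ℝ} {S : Finset ℕ} (hB : 1 ≤ B) (h : ∀ b ∈ S, B ≤ b ∧ (b : ℝ) ≤ 4 * B) :
    (S.card : ℝ) ≤ 4 * B := by
  have h1 : S ⊆ Icc 1 ⌊4 * B⌋₊ := fun a ha => by
    have h2 := h a ha
    refine mem_Icc.2 ⟨?_, Nat.le_floor h2.2⟩
    exact_mod_cast (hB.trans h2.1 : (1 : ℝ) ≤ a)
  have h2 := card_le_card h1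
  rw [Nat.card_Icc, Nat.add_sub_cancel] at h2
  exact le_trans (by exact_mod_cast h2) (Nat.floor_le (by linarith))

theorem up_sqrt_le {B : ℝ} {b : ℕ} (h : (b : ℝ) ≤ 4 * B) : √(b : ℝ) ≤ 2 * √B := by
  have : √(4 * B) = 2 * √B := by
    rw [Real.sqrt_mul (by norm_num), show (4 : ℝ) = 2 ^ 2 by norm_num, Real.sqrt_sq (by norm_num)]
  exact this ▸ Real.sqrt_le_sqrt h

theorem up_sep {B : ℝ} (hB : 1 ≤ B) {b b' : ℕ} (h : (b : ℝ) ≤ 4 * B) (h' : (b' : ℝ) ≤ 4 * B)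
    (hne : b ≠ b') : 1 / (4 * √B) ≤ |√(b : ℝ) - √(b' : ℝ)| := by
  have h0 : 0 < √B := Real.sqrt_pos.2 (by linarith)
  have h1 := up_sqrt_le h
  have h2 := up_sqrt_le h'
  have h3 : (1 : ℝ) ≤ |(b : ℝ) - b'| := by
    have : (1 : ℤ) ≤ |(b : ℤ) - b'| := Int.one_le_abs (by omega)
    exact_mod_cast this
  have h4 : (b : ℝ) - b' = (√(b : ℝ) - √(b' : ℝ)) * (√(b : ℝ) + √(b' : ℝ)) := by
    have e1 := Real.sq_sqrt (Nat.cast_nonneg (α := ℝ) b)
    have e2 := Real.sq_sqrt (Nat.cast_nonneg (α := ℝ) b')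
    nlinarith
  rw [h4, abs_mul, abs_of_nonneg (by positivity : 0 ≤ √(b : ℝ) + √(b' : ℝ))] at h3
  rw [div_le_iff₀ (by positivity)]
  exact h3.trans (mul_le_mul_of_nonneg_left (by linarith) (abs_nonneg _))

theorem up_alg {p q H : ℝ} (hp : 1 ≤ p) (hq : 1 ≤ q) (hH : 1 ≤ H) :
    (1 + 2 * H * p * (2 * q)) * (1 + 1 / (2 * q * (H / (4 * p)))) *
      (1 + 1 / (2 * H * p * (1 / (4 * q)))) ≤ 25 * (H * (p ^ 2 + q ^ 2)) := by
  have hp0 : 0 < p := by linarith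
  have hq0 : 0 < q := by linarith
  have hH0 : 0 < H := by linarith
  have h1 : 1 / (2 * q * (H / (4 * p))) ≤ 2 * p / q := by
    rw [show 1 / (2 * q * (H / (4 * p))) = 2 * p / q / H by field_simp; norm_num]
    exact div_le_self (by positivity) hH
  have h2 : 1 / (2 * H * p * (1 / (4 * q))) ≤ 2 * q / p := by
    rw [show 1 / (2 * H * p * (1 / (4 * q))) = 2 * q / p / H by field_simp; norm_num]
    exact div_le_self (by positivity) hH
  have h3 : 1 + 2 * H * p * (2 * q) ≤ 5 * H * (p * q) := by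
    have : 1 ≤ H * (p * q) := one_le_mul_of_one_le_of_one_le hH (one_le_mul_of_one_le_of_one_le hp hq)
    linarith
  calc _ ≤ 5 * H * (p * q) * (1 + 2 * p / q) * (1 + 2 * q / p) := by gcongr
    _ = 5 * H * (5 * (p * q) + 2 * (p ^ 2 + q ^ 2)) := by field_simp; ring
    _ ≤ 5 * H * (5 * (p ^ 2 + q ^ 2)) := by
      refine mul_le_mul_of_nonneg_left ?_ (by positivity)
      nlinarith [sq_nonneg (p - q)]
    _ = _ := by ring

/-- the exponential sum at the frequency `h` -/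
noncomputable def up_E (S1 S2 : Finset ℕ) (h : ℤ) : ℂ :=
  ∑ b ∈ S1, ∑ a ∈ S2, ee ((0 - h) * (√((a * b : ℕ) : ℝ) - 1 / 2))

theorem up_E_triv (S1 S2 : Finset ℕ) (h : ℤ) : ‖up_E S1 S2 h‖ ≤ S1.card * S2.card := by
  refine (norm_sum_le _ _).trans ?_
  calc _ ≤ ∑ _b ∈ S1, (S2.card : ℝ) := sum_le_sum fun b _ => (norm_sum_le _ _).trans (by simp)
    _ = _ := by simp

theorem up_E_le (hDLS : S_DLS) : ∃ C : ℝ, 0 < C ∧ ∀ (A B : ℝ) (S1 S2 : Finset ℕ) (h : ℤ),
    1 ≤ A → 1 ≤ B → (∀ b ∈ S1, B ≤ b ∧ (b : ℝ) ≤ 4 * B) → (∀ a ∈ S2, A ≤ a ∧ (a : ℝ) ≤ 4 * A) →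
    h ≠ 0 → ‖up_E S1 S2 h‖ ≤ C * √(A * B) * √(A + B) * √|(h : ℝ)| := by
  obtain ⟨C, hC, H⟩ := hDLS
  refine ⟨20 * C, by positivity, fun A B S1 S2 h hA hB h1 h2 hh => ?_⟩
  have hH : (1 : ℝ) ≤ |(h : ℝ)| := by exact_mod_cast Int.one_le_abs hh
  have hp : 1 ≤ √A := Real.one_le_sqrt.2 hA
  have hq : 1 ≤ √B := Real.one_le_sqrt.2 hB
  have key := H S2 S1 (fun a => -(h : ℝ) * √(a : ℝ)) (fun b => √(b : ℝ)) (2 * |(h : ℝ)| * √A)
    (2 * √B) (|(h : ℝ)| / (4 * √A)) (1 / (4 * √B)) (by positivity) (by positivity)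
    (by positivity) (by positivity)
    (fun a ha => by
      rw [abs_mul, abs_neg, abs_of_nonneg (Real.sqrt_nonneg _)]
      have := up_sqrt_le (h2 a ha).2
      nlinarith)
    (fun b hb => by
      rw [abs_of_nonneg (Real.sqrt_nonneg _)]
      exact up_sqrt_le (h1 b hb).2)
    (fun a ha a' ha' hne => by
      rw [← mul_sub, abs_mul, abs_neg, div_eq_mul_one_div]
      exact mul_le_mul_of_nonneg_left (up_sep hA (h2 a ha).2 (h2 a' ha').2 hne) (abs_nonneg _))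
    (fun b hb b' hb' hne => up_sep hB (h1 b hb).2 (h1 b' hb').2 hne) (fun _ => 1) (fun _ => 1)
  have e1 : up_E S1 S2 h = ee (h / 2) *
      ∑ a ∈ S2, ∑ b ∈ S1, (1 : ℂ) * 1 * ee (-(h : ℝ) * √(a : ℝ) * √(b : ℝ)) := by
    rw [up_E, sum_comm, mul_sum]
    refine sum_congr rfl fun a _ => ?_
    rw [mul_sum]
    refine sum_congr rfl fun b _ => ?_
    rw [one_mul, one_mul, ← Pool.Agent.P.MP_e86632_nt.ee_add, Nat.cast_mul,
      Real.sqrt_mul (Nat.cast_nonneg a)]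
    congr 1; ring
  rw [e1, norm_mul, Pool.Agent.P.MP_e86632_nt.norm_ee, one_mul]
  refine key.trans ?_
  have n1 : √(nsq S1 fun _ => 1) ≤ 2 * √B := by
    have : nsq S1 (fun _ => 1) = (S1.card : ℝ) := by simp [nsq]
    rw [this]; exact up_sqrt_le (up_card hB h1)
  have n2 : √(nsq S2 fun _ => 1) ≤ 2 * √A := by
    have : nsq S2 (fun _ => 1) = (S2.card : ℝ) := by simp [nsq]
    rw [this]; exact up_sqrt_le (up_card hA h2)
  have n3 := Real.sqrt_le_sqrt (up_alg hp hq hH)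
  rw [Real.sq_sqrt (by linarith), Real.sq_sqrt (by linarith),
    Real.sqrt_mul (by norm_num : (0 : ℝ) ≤ 25),
    Real.sqrt_mul (abs_nonneg (h : ℝ)), show (25 : ℝ) = 5 ^ 2 by norm_num,
    Real.sqrt_sq (by norm_num : (0 : ℝ) ≤ 5)] at n3
  calc _ ≤ C * (5 * (√|(h : ℝ)| * √(A + B))) * (2 * √A) * (2 * √B) := by gcongr
    _ = _ := by rw [Real.sqrt_mul (by linarith : 0 ≤ A) B]; ring

/-- Poisson summation, summed over the pairs -/
theorem up_poisson (hGS1 : S_GS1) {κ : ℝ} (hκ : 0 < κ) (S1 S2 : Finset ℕ) :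
    ∑ b ∈ S1, ∑ a ∈ S2, ∑' n : ℤ, gs (1 / κ * (n - (√((a * b : ℕ) : ℝ) - 1 / 2))) ≤
      κ * ∑' h : ℤ, gs (κ * h) * ‖up_E S1 S2 h‖ := by
  have hs : Summable fun h : ℤ => gs (κ * h) := by
    simpa using (hGS1 κ 0 0 hκ).1
  have hs1 : ∀ c : ℝ, Summable fun h : ℤ => (gs (κ * h) : ℂ) * ee ((0 - h) * c) := fun c =>
    Summable.of_norm (by simpa [abs_of_pos (gs_pos _)] using hs)
  have e1 : ∀ c : ℝ, ((∑' n : ℤ, gs (1 / κ * (n - c)) : ℝ) : ℂ) =
      (κ : ℂ) * ∑' h : ℤ, (gs (κ * h) : ℂ) * ee ((0 - h) * c) := by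
    intro c
    have := (hGS1 (1 / κ) 0 c (by positivity)).2
    simp only [zero_mul, Pool.Agent.P.MP_e86632_nt.ee_zero, one_mul, sub_zero,
      div_div_eq_mul_div, div_one] at this
    rw [Complex.ofReal_tsum, this]
    simp only [mul_comm κ]
  have e2 : ((∑ b ∈ S1, ∑ a ∈ S2,
      ∑' n : ℤ, gs (1 / κ * (n - (√((a * b : ℕ) : ℝ) - 1 / 2))) : ℝ) : ℂ) =
      (κ : ℂ) * ∑' h : ℤ, (gs (κ * h) : ℂ) * up_E S1 S2 h := by
    simp only [Complex.ofReal_sum, e1, ← mul_sum]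
    congr 1
    simp only [up_E, mul_sum]
    rw [Summable.tsum_finsetSum fun b _ => summable_sum fun a _ => hs1 _]
    refine sum_congr rfl fun b _ => ?_
    rw [Summable.tsum_finsetSum fun a _ => hs1 _]
  have hs2 : Summable fun h : ℤ => ‖(gs (κ * h) : ℂ) * up_E S1 S2 h‖ := by
    refine Summable.of_nonneg_of_le (fun _ => norm_nonneg _) (fun h => ?_)
      (hs.mul_right ((S1.card : ℝ) * S2.card))
    rw [norm_mul, Complex.norm_real, Real.norm_of_nonneg (gs_pos _).le]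
    exact mul_le_mul_of_nonneg_left (up_E_triv _ _ _) (gs_pos _).le
  refine (le_abs_self _).trans ?_
  rw [← Real.norm_eq_abs, ← Complex.norm_real, e2, norm_mul, Complex.norm_real,
    Real.norm_of_nonneg hκ.le]
  refine mul_le_mul_of_nonneg_left ((norm_tsum_le_tsum_norm hs2).trans (le_of_eq ?_)) hκ.le
  refine tsum_congr fun h => ?_
  rw [norm_mul, Complex.norm_real, Real.norm_of_nonneg (gs_pos _).le]

theorem t_UP (hGS1 : S_GS1) (hGS2 : S_GS2) (hGS3 : S_GS3) (hDLS : S_DLS) : S_UP := by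
  obtain ⟨C1, hC1, H1⟩ := up_E_le hDLS
  obtain ⟨C3, hC3, H3, -⟩ := hGS3
  refine ⟨Real.exp π * (8 + 2 * C1 * C3), by positivity, fun A B K S1 S2 hA hB hK h1 h2 => ?_⟩
  have hK0 : (0 : ℝ) < K := by exact_mod_cast hK
  have hN : 0 < √(A * B) := Real.sqrt_pos.2 (by positivity)
  set N := √(A * B) with hNd
  have hκ : 0 < (K : ℝ) / N := by positivity
  have s1 : ∑ k ∈ Icc 1 K, ∑ b ∈ S1, ∑ a ∈ S2, rr k (a * b) ≤ Real.exp π *
      ∑ b ∈ S1, ∑ a ∈ S2, ∑' n : ℤ, gs (1 / (K / N) * (n - (√((a * b : ℕ) : ℝ) - 1 / 2))) := by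
    rw [sum_comm, mul_sum]
    refine sum_le_sum fun b hb => ?_
    rw [sum_comm, mul_sum]
    refine sum_le_sum fun a ha => up_point hGS1 hN hK (Real.sqrt_le_sqrt ?_)
    push_cast
    exact mul_le_mul (h2 a ha).1 (h1 b hb).1 (by linarith) (Nat.cast_nonneg _)
  refine s1.trans ?_
  rw [mul_assoc]
  refine mul_le_mul_of_nonneg_left ?_ (Real.exp_pos _).le
  have t1 : 0 ≤ K / N * S1.card * S2.card := by positivity
  have t2 : 0 ≤ N * √(N * (A + B) / K) := by positivity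
  have t3 : 0 ≤ C1 * C3 := by positivity
  rcases le_total 1 ((K : ℝ) / N) with hc | hc
  · calc _ ≤ ∑ _b ∈ S1, ∑ _a ∈ S2, 8 * (K / N) := by
          refine sum_le_sum fun b _ => sum_le_sum fun a _ => (hGS2 _ _ (by positivity)).trans ?_
          rw [one_div_one_div]; linarith
      _ = 8 * (K / N * S1.card * S2.card) := by simp only [sum_const, nsmul_eq_mul]; ring
      _ ≤ _ := by nlinarith
  · refine (up_poisson hGS1 hκ S1 S2).trans ?_
    have s2 : ∑' h : ℤ, gs (K / N * h) * ‖up_E S1 S2 h‖ ≤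
        S1.card * S2.card + C1 * N * √(A + B) * (C3 * (1 + 1 / (K / N)) / √(K / N)) := by
      refine Real.tsum_le_of_sum_le (fun h => mul_nonneg (gs_pos _).le (norm_nonneg _)) fun u => ?_
      have s3 : ∀ h ∈ u, gs (K / N * h) * ‖up_E S1 S2 h‖ ≤
          (if h = 0 then (S1.card * S2.card : ℝ) else 0) +
            C1 * N * √(A + B) * (gs (K / N * (h - 0)) * √|(h : ℝ) - 0|) := by
        intro h _
        split_ifs with h0
        · subst h0
          simpa [gs_zero] using up_E_triv S1 S2 0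
        · rw [zero_add, sub_zero]
          calc _ ≤ gs (K / N * h) * (C1 * N * √(A + B) * √|(h : ℝ)|) :=
              mul_le_mul_of_nonneg_left (H1 A B S1 S2 h hA hB h1 h2 h0) (gs_pos _).le
            _ = _ := by ring
      refine (sum_le_sum s3).trans ?_
      rw [sum_add_distrib, ← mul_sum]
      refine add_le_add ?_ (mul_le_mul_of_nonneg_left (H3 _ 0 u hκ) (by positivity))
      rw [sum_ite_eq']
      split_ifs
      · exact le_rfl
      · positivity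
    refine (mul_le_mul_of_nonneg_left s2 hκ.le).trans ?_
    have s4 : √(N * (A + B) / K) = √(A + B) / √(K / N) := by
      rw [← Real.sqrt_div (by linarith)]
      congr 1; field_simp
    have s5 : 0 < √((K : ℝ) / N) := Real.sqrt_pos.2 hκ
    have s6 : K / N * (C1 * N * √(A + B) * (C3 * (1 + 1 / (K / N)) / √(K / N))) =
        (K / N + 1) * (C1 * C3) * (N * √(N * (A + B) / K)) := by
      rw [s4]; field_simp
    rw [mul_add, s6]
    have s7 : (K / N + 1) * (C1 * C3) * (N * √(N * (A + B) / K)) ≤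
        2 * (C1 * C3) * (N * √(N * (A + B) / K)) := by gcongr; linarith
    nlinarith

theorem t_UPD (hUP : S_UP) (hROOT : S_ROOT) : S_UPD := by
  obtain ⟨C, hC, H⟩ := hUP
  refine ⟨2 * C + 2, by positivity, fun W hW => ?_⟩
  filter_upwards [ev_const (W : ℝ) (show (0 : ℝ) < 4 / 5 by norm_num),
    ev_const 2 (show (0 : ℝ) < 2 / 3 by norm_num),
    ev_pow (2 * C ^ 2) 8 (show (7 / 3 : ℝ) < 12 / 5 by norm_num), ev_log 1,
    eventually_ge_atTop 1] with N e1 e2 e3 e4 e5 K B S1 S2 hK hB1 hB2 h1 h2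
  have hN : 0 < N := by linarith
  have hWK : (W : ℝ) ≤ K := e1.trans hK
  have hW1 : (1 : ℝ) ≤ W := by exact_mod_cast hW
  have hK0 : (0 : ℝ) < K := by linarith
  have hK1 : 1 ≤ K := by exact_mod_cast (hW1.trans hWK)
  have hB0 : 0 < B := by linarith
  have p1 : N ^ (2 / 3 : ℝ) * N ^ (4 / 3 : ℝ) = N ^ 2 := by
    rw [← Real.rpow_add hN, ← Real.rpow_natCast]; norm_num
  have p2 : N * N ^ (4 / 3 : ℝ) = N ^ (7 / 3 : ℝ) := by
    rw [show (7 / 3 : ℝ) = 1 + 4 / 3 by norm_num, Real.rpow_add hN, Real.rpow_one]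
  have p3 : (N ^ (4 / 5 : ℝ)) ^ 3 = N ^ (12 / 5 : ℝ) := by
    rw [← Real.rpow_natCast, ← Real.rpow_mul hN.le]; norm_num
  have q1 : 0 < N ^ (4 / 3 : ℝ) := by positivity
  have q2 : 0 < N ^ (2 / 3 : ℝ) := by positivity
  set A := N ^ 2 / (2 * B) with hA
  have hAB : A * B = N ^ 2 / 2 := by rw [hA]; field_simp
  have hA1 : 1 ≤ A := by
    rw [hA, le_div_iff₀ (by positivity)]; nlinarith
  have hA2 : A ≤ N ^ (4 / 3 : ℝ) := by
    rw [hA, div_le_iff₀ (by positivity)]; nlinarith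
  have r1 : √(A * B) ≤ N := Real.sqrt_le_iff.2 ⟨hN.le, by rw [hAB]; nlinarith⟩
  have r2 : N / 2 ≤ √(A * B) := Real.le_sqrt_of_sq_le (by rw [hAB]; nlinarith)
  have key := H A B K S1 S2 hA1 (by linarith) hK1 (fun b hb => ⟨(h1 b hb).1, by linarith [(h1 b hb).2]⟩)
    (fun a ha => ⟨(h2 a ha).1, (h2 a ha).2.trans (le_of_eq (by rw [hA]; field_simp; norm_num))⟩)
  have m1 : ∑ k ∈ Icc 1 K, ∑ b ∈ S1, ∑ a ∈ S2, md W k (a * b) ≤
      2 * (K / N) * S1.card * S2.card := by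
    calc _ = ∑ b ∈ S1, ∑ a ∈ S2, ∑ k ∈ Icc 1 K, md W k (a * b) := by
          rw [sum_comm]; exact sum_congr rfl fun b _ => sum_comm
      _ ≤ ∑ _b ∈ S1, ∑ _a ∈ S2, 2 * (K / N) := by
          refine sum_le_sum fun b hb => sum_le_sum fun a ha => ?_
          have r3 : N / 2 ≤ √((a * b : ℕ) : ℝ) := by
            refine r2.trans (Real.sqrt_le_sqrt ?_)
            push_cast
            exact mul_le_mul (h2 a ha).1 (h1 b hb).1 hB0.le (Nat.cast_nonneg _)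
          simp only [md]
          rw [← sum_div]
          calc _ ≤ (K + W) / (2 * √((a * b : ℕ) : ℝ)) :=
              div_le_div_of_nonneg_right (hROOT.2.2.2.2.2 W (a * b) K hW) (by positivity)
            _ ≤ (K + K) / (2 * (N / 2)) := by gcongr
            _ = _ := by field_simp; ring
      _ = _ := by simp only [sum_const, nsmul_eq_mul]; ring
  have m2 : (K : ℝ) / √(A * B) ≤ 2 * (K / N) := by
    calc _ ≤ K / (N / 2) := by gcongr
      _ = _ := by field_simp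
  have hL : 0 < Real.log N := by linarith
  have m3 : √(√(A * B) * (A + B) / K) ≤ K / (C * Real.log N ^ 4) := by
    refine Real.sqrt_le_iff.2 ⟨by positivity, ?_⟩
    have u1 : √(A * B) * (A + B) ≤ 2 * N ^ (7 / 3 : ℝ) := by
      calc _ ≤ N * (N ^ (4 / 3 : ℝ) + N ^ (4 / 3 : ℝ)) := by gcongr
        _ = _ := by rw [← p2]; ring
    have u2 : N ^ (12 / 5 : ℝ) ≤ (K : ℝ) ^ 3 := by rw [← p3]; gcongr
    rw [div_pow, div_le_div_iff₀ hK0 (by positivity)]
    calc _ ≤ 2 * N ^ (7 / 3 : ℝ) * (C * Real.log N ^ 4) ^ 2 := by gcongr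
      _ = 2 * C ^ 2 * N ^ (7 / 3 : ℝ) * Real.log N ^ 8 := by ring
      _ ≤ (K : ℝ) ^ 3 := e3.trans u2
      _ = _ := by ring
  calc _ ≤ ∑ k ∈ Icc 1 K, ∑ b ∈ S1, ∑ a ∈ S2, (rr k (a * b) + md W k (a * b)) :=
        sum_le_sum fun k _ => sum_le_sum fun b _ => sum_le_sum fun a _ => abs_dd_le _ _ _
    _ = ∑ k ∈ Icc 1 K, ∑ b ∈ S1, ∑ a ∈ S2, rr k (a * b) +
        ∑ k ∈ Icc 1 K, ∑ b ∈ S1, ∑ a ∈ S2, md W k (a * b) := by simp only [sum_add_distrib]
    _ ≤ C * (2 * (K / N) * S1.card * S2.card + N * (K / (C * Real.log N ^ 4))) +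
        2 * (K / N) * S1.card * S2.card := by
        refine add_le_add (key.trans ?_) m1
        gcongr
    _ = _ := by field_simp; ring

end Pool.Agent.P.MP_8be758_nt.Avg
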