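import Pool.Agent.P.MP_8be758_nt.Avg.Basic

/-! The Vaughan identity on rough numbers. -/

namespace Pool.Agent.P.MP_8be758_nt.Avg

open Finset Real Filter Topology
open Pool.Agent.P.MP_e86632_nt (ee)
open ArithmeticFunction (moebius vonMangoldt zeta)

/-- restriction to the integers up to `Y` -/
noncomputable def vau_res (Y : ℕ) (f : ArithmeticFunction ℝ) : ArithmeticFunction ℝ :=
  ⟨fun n => if n ≤ Y then f n else 0, by simp⟩

theorem vau_res_apply (Y : ℕ) (f : ArithmeticFunction ℝ) (n : ℕ) :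
    vau_res Y f n = if n ≤ Y then f n else 0 := rfl

noncomputable def vau_g (Y : ℕ) : ArithmeticFunction ℝ :=
  vau_res Y (moebius : ArithmeticFunction ℝ) * vau_res Y vonMangoldt

noncomputable def vau_h (Y : ℕ) : ArithmeticFunction ℝ :=
  (vonMangoldt - vau_res Y vonMangoldt) * (zeta : ArithmeticFunction ℝ)

theorem vau_sub_apply (f g : ArithmeticFunction ℝ) (n : ℕ) : (f - g) n = f n - g n := by
  rw [sub_eq_add_neg, ArithmeticFunction.add_apply, ArithmeticFunction.neg_apply, sub_eq_add_neg]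

theorem vau_ring (Y : ℕ) : vonMangoldt = vau_res Y vonMangoldt +
    vau_res Y (moebius : ArithmeticFunction ℝ) * ArithmeticFunction.log -
      vau_g Y * (zeta : ArithmeticFunction ℝ) +
      ((moebius : ArithmeticFunction ℝ) - vau_res Y (moebius : ArithmeticFunction ℝ)) * vau_h Y := by
  have h1 := ArithmeticFunction.coe_moebius_mul_coe_zeta (R := ℝ)
  rw [vau_g, vau_h, ← ArithmeticFunction.vonMangoldt_mul_zeta]
  linear_combination (vau_res Y vonMangoldt - vonMangoldt) * h1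

theorem vau_mu (n : ℕ) : |(moebius n : ℝ)| ≤ 1 := by
  exact_mod_cast ArithmeticFunction.abs_moebius_le_one

theorem vau_mu1 (Y n : ℕ) : |vau_res Y (moebius : ArithmeticFunction ℝ) n| ≤ 1 := by
  rw [vau_res_apply]
  split_ifs
  exacts [vau_mu n, by simp]

theorem vau_lam1 (Y n : ℕ) :
    0 ≤ vau_res Y vonMangoldt n ∧ vau_res Y vonMangoldt n ≤ vonMangoldt n := by
  rw [vau_res_apply]
  split_ifs
  exacts [⟨ArithmeticFunction.vonMangoldt_nonneg, le_rfl⟩,
    ⟨le_rfl, ArithmeticFunction.vonMangoldt_nonneg⟩]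

theorem vau_g_le (Y d : ℕ) : |vau_g Y d| ≤ Real.log d := by
  rw [vau_g, ArithmeticFunction.mul_apply, ← ArithmeticFunction.vonMangoldt_sum,
    ← Nat.sum_divisorsAntidiagonal' fun _ b => vonMangoldt b]
  refine (abs_sum_le_sum_abs _ _).trans (sum_le_sum fun p _ => ?_)
  rw [abs_mul, abs_of_nonneg (vau_lam1 Y _).1]
  exact (mul_le_of_le_one_left (vau_lam1 Y _).1 (vau_mu1 Y _)).trans (vau_lam1 Y _).2

theorem vau_g_ne {Y u : ℕ} (h : vau_g Y u ≠ 0) : u ≤ Y * Y := by
  rw [vau_g, ArithmeticFunction.mul_apply] at h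
  obtain ⟨p, hp, h1⟩ := exists_ne_zero_of_sum_ne_zero h
  rw [← (Nat.mem_divisorsAntidiagonal.1 hp).1]
  refine Nat.mul_le_mul ?_ ?_
  · by_contra h2
    exact left_ne_zero_of_mul h1 (if_neg h2)
  · by_contra h2
    exact right_ne_zero_of_mul h1 (if_neg h2)

theorem vau_h_eq (Y v : ℕ) :
    vau_h Y v = ∑ i ∈ v.divisors, (vonMangoldt i - vau_res Y vonMangoldt i) := by
  rw [vau_h, ArithmeticFunction.coe_mul_zeta_apply]
  exact sum_congr rfl fun i _ => vau_sub_apply _ _ i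

theorem vau_h_le (Y v : ℕ) : |vau_h Y v| ≤ Real.log v := by
  rw [vau_h_eq, ← ArithmeticFunction.vonMangoldt_sum]
  refine (abs_sum_le_sum_abs _ _).trans (sum_le_sum fun i _ => ?_)
  rw [abs_of_nonneg (sub_nonneg.2 (vau_lam1 Y i).2)]
  exact sub_le_self _ (vau_lam1 Y i).1

theorem vau_h_zero {Y v : ℕ} (h : v ≤ Y) : vau_h Y v = 0 := by
  rw [vau_h_eq]
  exact sum_eq_zero fun i hi => by
    rw [vau_res_apply, if_pos ((Nat.divisor_le hi).trans h), sub_self]

theorem vau_apply {Y m : ℕ} (h : Y < m) : vonMangoldt m = ∑ p ∈ m.divisorsAntidiagonal,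
    (vau_res Y (moebius : ArithmeticFunction ℝ) p.1 * Real.log p.2 - vau_g Y p.1 +
      ((moebius p.1 : ℝ) - vau_res Y (moebius : ArithmeticFunction ℝ) p.1) * vau_h Y p.2) := by
  conv_lhs => rw [vau_ring Y]
  rw [ArithmeticFunction.add_apply, vau_sub_apply, ArithmeticFunction.add_apply, vau_res_apply,
    if_neg (not_le.2 h), zero_add, ArithmeticFunction.coe_mul_zeta_apply,
    ArithmeticFunction.mul_apply, ArithmeticFunction.mul_apply,
    ← Nat.sum_divisorsAntidiagonal fun a _ => vau_g Y a, sum_add_distrib, sum_sub_distrib]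
  simp only [vau_sub_apply, ArithmeticFunction.log_apply, ArithmeticFunction.intCoe_apply]

theorem vau_bil {z y : ℝ} (X1 X2 : ℕ) {φ ψ : ℕ → ℝ} (hφ : Coef z y φ) (hψ : Coef z y ψ)
    (f : ℕ → ℝ) : bil X1 X2 φ ψ f = ∑ m ∈ (Ioc X1 X2).filter (Rough z),
      (∑ p ∈ m.divisorsAntidiagonal, φ p.1 * ψ p.2) * f m := by
  rw [bil, ← sum_fiberwise_of_maps_to (s := pairs X1 X2) (g := fun p : ℕ × ℕ => p.1 * p.2)
    (t := Ioc X1 X2) fun p hp => mem_Ioc.2 (mem_filter.1 hp).2, sum_filter_of_ne]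
  · refine sum_congr rfl fun m hm => ?_
    rw [sum_mul]
    obtain ⟨h1, h2⟩ := mem_Ioc.1 hm
    refine sum_congr ?_ fun p hp => by rw [(Nat.mem_divisorsAntidiagonal.1 hp).1]
    ext p
    simp only [pairs, mem_filter, mem_product, mem_Icc, Nat.mem_divisorsAntidiagonal]
    refine ⟨fun h => ⟨h.2, by omega⟩, fun h => ?_⟩
    have h3 : 0 < p.1 * p.2 := by omega
    have h4 := Nat.pos_of_mul_pos_right h3
    have h5 := Nat.pos_of_mul_pos_left h3
    have h6 := Nat.le_mul_of_pos_right p.1 h5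
    have h7 := Nat.le_mul_of_pos_left p.2 h4
    omega
  · intro m _ h
    obtain ⟨p, hp, h1⟩ := exists_ne_zero_of_sum_ne_zero (left_ne_zero_of_mul h)
    rw [← (Nat.mem_divisorsAntidiagonal.1 hp).1]
    exact rough_mul.2 ⟨(hφ.2 _ (left_ne_zero_of_mul h1)).1, (hψ.2 _ (right_ne_zero_of_mul h1)).1⟩

theorem vau_coef (z y : ℝ) (X : ℕ) (a : ℕ → ℝ) (ha : ∀ u : ℕ, y < u → u ≤ X → |a u| ≤ 1) :
    Coef z y fun u => if Rough z u ∧ y < u ∧ u ≤ X then a u else 0 := by
  refine ⟨fun u => ?_, fun u hu => ?_⟩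
  · beta_reduce
    split_ifs with h
    exacts [ha u h.2.1 h.2.2, by simp]
  · by_contra h
    exact hu (if_neg fun h' => h ⟨h'.1, h'.2.1⟩)

theorem t_VAU : S_VAU := by
  intro N z X1 X2 hN h1 h2
  have hN0 : 0 < N := by linarith
  set y := N ^ (2 / 3 : ℝ) with hy
  have hy0 : 0 < y := by positivity
  have hy1 : 1 ≤ y := Real.one_le_rpow (by linarith) (by norm_num)
  have hy3 : y * y * y = N ^ 2 := by
    rw [hy, ← Real.rpow_add hN0, ← Real.rpow_add hN0, ← Real.rpow_natCast]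
    norm_num
  have hyN : y ≤ N ^ 2 := by nlinarith
  set Y := ⌊y⌋₊ with hY
  have hYy : ∀ u : ℕ, u ≤ Y ↔ (u : ℝ) ≤ y := fun u => Nat.le_floor_iff hy0.le
  have hL : 0 < Real.log N := Real.log_pos (by linarith)
  have hlog : ∀ u : ℕ, y < u → u ≤ X2 → Real.log u ≤ 3 * Real.log N := by
    intro u h3 h4
    have h5 : (u : ℝ) ≤ N ^ 3 := by
      have : (u : ℝ) ≤ X2 := by exact_mod_cast h4
      nlinarith
    exact (Real.log_le_log (hy0.trans h3) h5).trans_eq (by simp)
  have hdiv : ∀ a : ℝ, |a| ≤ 3 * Real.log N → |a / (3 * Real.log N)| ≤ 1 := fun a ha => by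
    rwa [abs_div, abs_of_pos (by positivity : 0 < 3 * Real.log N), div_le_one (by positivity)]
  have c1 := vau_coef z y X2 (fun u => -vau_g Y u / (3 * Real.log N)) fun u h3 h4 =>
    hdiv _ (by rw [abs_neg]; exact (vau_g_le Y u).trans (hlog u h3 h4))
  have c2 := vau_coef z y X2 (fun _ => 1) fun _ _ _ => by simp
  have c3 := vau_coef z y X2 (fun u => (moebius u : ℝ)) fun u _ _ => vau_mu u
  have c4 := vau_coef z y X2 (fun u => vau_h Y u / (3 * Real.log N)) fun u h3 h4 =>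
    hdiv _ ((vau_h_le Y u).trans (hlog u h3 h4))
  refine ⟨fun d => if 1 ≤ d ∧ d ≤ Y then
      ((moebius d : ℝ) * Real.log (N ^ 2 / d) - vau_g Y d) / (3 * Real.log N) else 0,
    _, _, _, _, fun m => if m ∈ Ioc X1 X2 then
      ∑ d ∈ m.divisors, Real.log (m / N ^ 2) * vau_res Y (moebius : ArithmeticFunction ℝ) d else 0,
    fun d => ?_, c1, c2, c3, c4, fun m => ?_, fun f => ?_⟩
  · beta_reduce
    split_ifs with h
    swap
    · simp
    refine hdiv _ ((abs_sub _ _).trans ?_)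
    have d0 : (0 : ℝ) < d := by exact_mod_cast h.1
    have d1 : 0 ≤ Real.log (N ^ 2 / d) :=
      Real.log_nonneg ((one_le_div d0).2 (((hYy d).1 h.2).trans hyN))
    have d2 : Real.log (N ^ 2 / d) = 2 * Real.log N - Real.log d := by
      rw [Real.log_div (by positivity) d0.ne']
      simp
    have d3 := vau_g_le Y d
    have d4 := mul_le_of_le_one_left d1 (vau_mu d)
    rw [abs_mul, abs_of_nonneg d1]
    linarith
  · beta_reduce
    split_ifs with h
    swap
    · simp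
    obtain ⟨m1, m2⟩ := mem_Ioc.1 h
    have m3 : N ^ 2 ≤ m := h1.trans (by exact_mod_cast m1.le)
    have m4 : (m : ℝ) ≤ 6 / 5 * N ^ 2 := le_trans (by exact_mod_cast m2) h2
    have m5 : 1 ≤ m / N ^ 2 := (one_le_div (by positivity)).2 m3
    have m6 : m / N ^ 2 ≤ 6 / 5 := (div_le_iff₀ (by positivity)).2 m4
    have m7 := Real.log_le_sub_one_of_pos (one_pos.trans_le m5)
    refine (abs_sum_le_sum_abs _ _).trans ((sum_le_card_nsmul _ _ 1 fun d _ => ?_).trans (by simp))
    rw [abs_mul, abs_of_nonneg (Real.log_nonneg m5)]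
    exact mul_le_one₀ (by linarith) (abs_nonneg _) (vau_mu1 Y d)
  rw [vau_bil X1 X2 c1 c2, vau_bil X1 X2 c3 c4, tyI, ← sum_add_distrib, ← sum_add_distrib, mul_sum,
    ← sum_add_distrib]
  refine sum_congr rfl fun m hm => ?_
  obtain ⟨hm, hr⟩ := mem_filter.1 hm
  obtain ⟨m1, m2⟩ := mem_Ioc.1 hm
  have m3 : N ^ 2 < m := h1.trans_lt (by exact_mod_cast m1)
  have m0 : m ≠ 0 := by omega
  have e1 : (Dy N z).filter (· ∣ m) = m.divisors.filter (· ≤ Y) := by
    ext d
    simp only [Dy, mem_filter, mem_Icc, Nat.mem_divisors]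
    exact ⟨fun h => ⟨⟨h.2, m0⟩, h.1.1.2⟩,
      fun h => ⟨⟨⟨Nat.pos_of_dvd_of_pos h.1.1 (by omega), h.2⟩, hr.of_dvd h.1.1⟩, h.1.1⟩⟩
  beta_reduce
  rw [← add_mul, ← add_mul, ← mul_assoc, ← add_mul, if_pos hm, e1, sum_filter,
    vau_apply (Y := Y) (not_le.1 fun h => by linarith [(hYy m).1 h]),
    ← Nat.sum_divisorsAntidiagonal fun d _ => if d ≤ Y then (if 1 ≤ d ∧ d ≤ Y then
      ((moebius d : ℝ) * Real.log (N ^ 2 / d) - vau_g Y d) / (3 * Real.log N) else 0) else 0,
    ← Nat.sum_divisorsAntidiagonal fun d _ =>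
      Real.log (m / N ^ 2) * vau_res Y (moebius : ArithmeticFunction ℝ) d,
    ← sum_add_distrib, ← sum_add_distrib, mul_sum, ← sum_add_distrib]
  congr 1
  refine sum_congr rfl fun p hp => ?_
  obtain ⟨u, v⟩ := p
  have e : u * v = m := (Nat.mem_divisorsAntidiagonal.1 hp).1
  have u0 : 0 < u := Nat.pos_of_ne_zero fun h => m0 (by rw [← e, h, zero_mul])
  have v0 : 0 < v := Nat.pos_of_ne_zero fun h => m0 (by rw [← e, h, mul_zero])
  have u1 : u ≤ X2 := (Nat.le_mul_of_pos_right u v0).trans (e ▸ m2)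
  have v1 : v ≤ X2 := (Nat.le_mul_of_pos_left v u0).trans (e ▸ m2)
  obtain ⟨ru, rv⟩ := rough_mul.1 (e ▸ hr)
  have u2 : (0 : ℝ) < u := by exact_mod_cast u0
  have v2 : (0 : ℝ) < v := by exact_mod_cast v0
  have e' : (m : ℝ) = u * v := by rw [← e, Nat.cast_mul]
  simp only [vau_res_apply, ArithmeticFunction.intCoe_apply, ru, rv, u1, v1, true_and, and_true]
  by_cases hu : u ≤ Y
  · have e2 : Real.log v = Real.log (N ^ 2 / u) + Real.log (m / N ^ 2) := by
      rw [← Real.log_mul (by positivity) (by rw [e']; positivity), e']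
      congr 1
      field_simp
    simp only [hu, if_pos (show 1 ≤ u from u0), not_lt.2 ((hYy u).1 hu), if_true, if_false, e2,
      and_true]
    field_simp
    ring
  have hu' : y < u := not_le.1 fun h => hu ((hYy u).2 h)
  simp only [hu, hu', if_true, if_false]
  by_cases hv : y < v
  · simp only [hv, if_true]
    field_simp
    ring
  have g0 : vau_g Y u = 0 := by
    by_contra h
    have h3 : (u : ℝ) ≤ Y * Y := by exact_mod_cast vau_g_ne h
    have h4 : (Y : ℝ) ≤ y := Nat.floor_le hy0.le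
    have h5 : (Y : ℝ) * Y ≤ y * y := mul_le_mul h4 h4 (Nat.cast_nonneg _) hy0.le
    have h6 : (u : ℝ) * v ≤ y * y * y :=
      mul_le_mul (h3.trans h5) (not_lt.1 hv) v2.le (by positivity)
    linarith
  simp [hv, g0, vau_h_zero ((hYy v).2 (not_lt.1 hv))]

end Pool.Agent.P.MP_8be758_nt.Avg
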