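import Pool.Agent.P.MP_8be758_nt.Avg.GS
import Pool.Agent.P.MP_8be758_nt.Avg.DLS
import Pool.Agent.P.MP_8be758_nt.Avg.SEP
import Pool.Agent.P.MP_8be758_nt.Avg.LS
import Pool.Agent.P.MP_8be758_nt.Avg.FAR
import Pool.Agent.P.MP_8be758_nt.Avg.GT
import Pool.Agent.P.MP_8be758_nt.Avg.SIFT
import Pool.Agent.P.MP_8be758_nt.Avg.NU
import Pool.Agent.P.MP_8be758_nt.Avg.FL
import Pool.Agent.P.MP_8be758_nt.Avg.CHI
import Pool.Agent.P.MP_8be758_nt.Avg.ROOT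
import Pool.Agent.P.MP_8be758_nt.Avg.SGW
import Pool.Agent.P.MP_8be758_nt.Avg.DIR
import Pool.Agent.P.MP_8be758_nt.Avg.CHAR
import Pool.Agent.P.MP_8be758_nt.Avg.RHO
import Pool.Agent.P.MP_8be758_nt.Avg.MERT
import Pool.Agent.P.MP_8be758_nt.Avg.SS2
import Pool.Agent.P.MP_8be758_nt.Avg.D13
import Pool.Agent.P.MP_8be758_nt.Avg.D2
import Pool.Agent.P.MP_8be758_nt.Avg.D4
import Pool.Agent.P.MP_8be758_nt.Avg.OSC1
import Pool.Agent.P.MP_8be758_nt.Avg.OSC2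
import Pool.Agent.P.MP_8be758_nt.Avg.RS
import Pool.Agent.P.MP_8be758_nt.Avg.LQ
import Pool.Agent.P.MP_8be758_nt.Avg.SQ
import Pool.Agent.P.MP_8be758_nt.Avg.MAIN
import Pool.Agent.P.MP_8be758_nt.Avg.DISP
import Pool.Agent.P.MP_8be758_nt.Avg.PS
import Pool.Agent.P.MP_8be758_nt.Avg.UP
import Pool.Agent.P.MP_8be758_nt.Avg.PER0
import Pool.Agent.P.MP_8be758_nt.Avg.PER
import Pool.Agent.P.MP_8be758_nt.Avg.PROJ
import Pool.Agent.P.MP_8be758_nt.Avg.BX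
import Pool.Agent.P.MP_8be758_nt.Avg.HALF
import Pool.Agent.P.MP_8be758_nt.Avg.GAP
import Pool.Agent.P.MP_8be758_nt.Avg.TI
import Pool.Agent.P.MP_8be758_nt.Avg.I
import Pool.Agent.P.MP_8be758_nt.Avg.VAU
import Pool.Agent.P.MP_8be758_nt.Avg.CNT
import Pool.Agent.P.MP_8be758_nt.Avg.PNTM
import Pool.Agent.P.MP_8be758_nt.Avg.CORE
import Pool.Agent.P.MP_8be758_nt.Avg.PIECES
import Pool.Agent.P.MP_8be758_nt.Avg.FINAL

/-! Assembly of all steps. -/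

namespace Pool.Agent.P.MP_8be758_nt.Avg

theorem all_steps (θ : ℝ) (hθ : 8 / 9 < θ) : S_FINAL θ :=
  have h45 : 4 / 5 ≤ θ := by linarith
  have hROOT := t_ROOT t_CHI
  have hSGW := t_SGW t_CHI hROOT
  have hDIR := t_DIR t_CHI t_DIV
  have hSS1 := t_SS1 hDIR
  have hCHAR := t_CHAR t_CHI t_DIV
  have hRHO := t_RHO hCHAR hROOT
  have hSING := t_SING hSS1 (t_SS2 t_MERT (t_LW t_CHI hDIR hCHAR)) hSGW
  have hNU := t_NU t_FAR t_GT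
  have hRC := t_RC hNU
  have hDISP := t_DISP t_D1 t_D2 (t_D3 t_GS1 t_GS2) (t_D4 t_GS1 t_GS2)
    (t_OSC2 t_GS1 t_GS2 t_GS3 (t_OSC1 t_DLS t_SEP)) (t_MAIN t_FAR (t_LQ t_LSW) (t_SQ t_RS))
  have hUPD := t_UPD (t_UP t_GS1 t_GS2 t_GS3 t_DLS) hROOT
  have hBX := t_BX t_D1 hDISP hNU hRC (t_PROJ (t_SIFT t_LS t_FAR t_GT) hRC)
    (t_PER (t_PER0 t_PS) hRHO hROOT t_TAU) hROOT t_TAU t_DIV θ hθ
  have hII := t_II (t_GAP hUPD hRC) θ h45 (t_HALF hUPD hRC t_NSQ θ h45 hBX)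
  have hI := t_I t_FL t_TI (t_KER t_PS hROOT) hROOT hRHO t_NSQ t_HR hSGW
  have hCNT := t_CNT hRC hROOT
  t_FINAL hSING t_LA θ h45 (t_PIECES hCNT t_PS hSGW θ h45
    (t_CORE hI t_VAU hCNT (t_PNTM t_PS hSGW) hSS1 t_HR t_TAU hSGW θ h45 hII))

end Pool.Agent.P.MP_8be758_nt.Avg
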