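import Pool.Agent.P.MP_8be758_nt.Avg.Basic

/-! The type II estimate on one box. -/

namespace Pool.Agent.P.MP_8be758_nt.Avg

open Finset Real Filter Topology
open Pool.Agent.P.MP_e86632_nt (ee)

theorem bx_pw {N : ℝ} (hN : 0 < N) (x : ℝ) (j : ℕ) : (N ^ x) ^ j = N ^ (x * j) := by
  rw [← Real.rpow_natCast, ← Real.rpow_mul hN.le]

theorem bx_ev2 (C : ℝ) {a b : ℝ} (h : a < b) : ∀ᶠ N : ℝ in atTop, C * N ^ a ≤ N ^ b := by
  simpa using ev_pow C 0 h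

theorem bx_ev3 (C : ℝ) (k : ℕ) {b : ℝ} (h : 0 < b) :
    ∀ᶠ N : ℝ in atTop, C * Real.log N ^ k ≤ N ^ b := by
  simpa using ev_pow C k h

/-- the size conditions that follow from the box conditions -/
theorem bx_ev {θ e1 eg : ℝ} (he : e1 ≤ 1 / 10) (hg : 0 < eg) (h1 : eg ≤ e1)
    (h2 : eg ≤ θ - 8 / 9) : ∀ᶠ N : ℝ in atTop,
    ∀ (K : ℕ) (B : ℝ) (A1 A2 : ℕ) (S : Finset ℕ), Box θ e1 eg N K B A1 A2 S →
      (N ^ (eg / 10)) ^ 16 * B ≤ A1 ∧ (N ^ (eg / 10)) ^ 10 ≤ B ∧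
      (N ^ (eg / 10)) ^ 8 * (A1 : ℝ) ^ 2 ≤ (K : ℝ) ^ 3 ∧ (N ^ (eg / 10)) ^ 8 * A1 ≤ B * K ∧
      (N ^ (eg / 10)) ^ 5 * K ≤ A1 * B ∧ 1 + Real.log A1 ≤ N ^ (eg / 10) ∧
      ((N ^ (eg / 10)) ^ 2) ^ 2 * (N ^ e1) ^ 2 ≤ A1 ∧ (N ^ e1) ^ 5 ≤ A1 ∧ (N ^ e1) ^ 5 ≤ B ∧
      N / 4 ≤ A1 ∧ (A1 : ℝ) ≤ N ^ 2 ∧ 2 * B ≤ N ^ 2 := by
  filter_upwards [eventually_ge_atTop 4, ev_log 1,
    bx_ev2 4 (show eg / 10 * (16 : ℕ) + (1 - eg) + (1 - eg) < 2 by push_cast; linarith),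
    bx_ev2 4 (show eg / 10 * (8 : ℕ) + 4 / 3 * (2 : ℕ) < θ * (3 : ℕ) by push_cast; linarith),
    bx_ev2 2 (show eg / 10 * (8 : ℕ) + 4 / 3 < 2 / 3 + θ by push_cast; linarith),
    bx_ev2 4 (show eg / 10 * (5 : ℕ) + 6 / 5 < 2 by push_cast; linarith),
    bx_ev3 3 1 (show 0 < eg / 10 by linarith),
    bx_ev2 4 (show eg / 10 * (2 : ℕ) * (2 : ℕ) + e1 * (2 : ℕ) < 1 by push_cast; linarith),
    bx_ev2 4 (show e1 * (5 : ℕ) < 1 by push_cast; linarith),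
    bx_ev2 2 (show (4 / 3 : ℝ) < 2 by norm_num)] with N hN hL c2 c4 c5 c6 c7 c9 c10 c11
  intro K B A1 A2 S h
  have hN0 : 0 < N := by linarith
  have hN1 : 1 ≤ N := by linarith
  have pos : ∀ x : ℝ, 0 < N ^ x := fun x => Real.rpow_pos_of_pos hN0 x
  have mono : ∀ {x y : ℝ}, x ≤ y → N ^ x ≤ N ^ y := fun h =>
    Real.rpow_le_rpow_of_exponent_le hN1 h
  have hB0 : 0 < B := (pos _).trans_le h.b1
  have hA0 : (0 : ℝ) ≤ A1 := Nat.cast_nonneg _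
  have hBN : B ≤ N := h.b2.trans ((mono (by linarith)).trans_eq (Real.rpow_one N))
  have hAlo : N / 4 ≤ A1 := by
    refine le_of_mul_le_mul_right ?_ hN0
    nlinarith [h.a1, mul_le_mul_of_nonneg_left hBN hA0]
  have hAhi : (A1 : ℝ) ≤ 2 * N ^ (4 / 3 : ℝ) := by
    refine le_of_mul_le_mul_right ?_ (pos (2 / 3))
    rw [mul_assoc, ← Real.rpow_add hN0, show (4 / 3 + 2 / 3 : ℝ) = 2 by norm_num, Real.rpow_two]
    exact (mul_le_mul_of_nonneg_left h.b1 hA0).trans h.a2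
  rw [Real.rpow_two] at c2 c6 c11
  rw [Real.rpow_one] at c9 c10
  simp only [Real.rpow_add hN0] at c2 c4 c5 c6 c9
  simp only [bx_pw hN0]
  have hA2 : (A1 : ℝ) ≤ N ^ 2 := hAhi.trans c11
  refine ⟨le_of_mul_le_mul_right ?_ hB0, (mono (by push_cast; linarith)).trans h.b1, ?_, ?_, ?_,
    ?_, by linarith, by linarith, (mono (by push_cast; linarith)).trans h.b1, hAlo, hA2,
    by nlinarith⟩
  · have : N ^ (eg / 10 * (16 : ℕ)) * B * B ≤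
        N ^ (eg / 10 * (16 : ℕ)) * N ^ (1 - eg) * N ^ (1 - eg) := by
      have := pos (eg / 10 * (16 : ℕ))
      gcongr <;> exact h.b2
    linarith [h.a1]
  · have e1 : (A1 : ℝ) ^ 2 ≤ 4 * N ^ (4 / 3 * (2 : ℕ) : ℝ) := by
      rw [← bx_pw hN0]
      exact (pow_le_pow_left₀ hA0 hAhi 2).trans_eq (by ring)
    have e2 : N ^ (θ * (3 : ℕ)) ≤ (K : ℝ) ^ 3 := by
      rw [← bx_pw hN0]
      exact pow_le_pow_left₀ (pos _).le h.lo 3
    exact (mul_le_mul_of_nonneg_left e1 (pos _).le).trans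
      ((mul_left_comm _ _ _).trans_le (c4.trans e2))
  · have e2 : N ^ (2 / 3 : ℝ) * N ^ θ ≤ B * K := mul_le_mul h.b1 h.lo (pos _).le hB0.le
    nlinarith [mul_le_mul_of_nonneg_left hAhi (pos (eg / 10 * (8 : ℕ))).le]
  · nlinarith [mul_le_mul_of_nonneg_left h.hi (pos (eg / 10 * (5 : ℕ))).le, h.a1]
  · have : Real.log A1 ≤ 2 * Real.log N := by
      refine (Real.log_le_log (by linarith) hA2).trans_eq ?_
      rw [Real.log_pow]
      norm_num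
    rw [pow_one] at c7
    linarith

theorem bx_split (W k : ℕ) (I S : Finset ℕ) (α β f : ℕ → ℝ) (hβ : ∀ b, |β b| ≤ 1)
    (h0 : ∀ b : ℕ, ∑ a ∈ I, (α a - f a) * md W k (a * b) = 0) :
    |∑ b ∈ S, ∑ a ∈ I, β b * α a * dd W k (a * b)| ≤
      ∑ b ∈ S, |∑ a ∈ I, (α a - f a) * rr k (a * b)| +
        |∑ b ∈ S, ∑ a ∈ I, β b * f a * dd W k (a * b)| := by
  have e : ∑ b ∈ S, ∑ a ∈ I, β b * α a * dd W k (a * b) =
      ∑ b ∈ S, β b * ∑ a ∈ I, (α a - f a) * rr k (a * b) +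
        ∑ b ∈ S, ∑ a ∈ I, β b * f a * dd W k (a * b) := by
    rw [← sum_add_distrib]
    refine sum_congr rfl fun b _ => ?_
    rw [← sub_zero (∑ a ∈ I, (α a - f a) * rr k (a * b)), ← h0 b, ← sum_sub_distrib, mul_sum,
      ← sum_add_distrib]
    exact sum_congr rfl fun a _ => by unfold dd; ring
  rw [e]
  refine (abs_add_le _ _).trans (add_le_add ((abs_sum_le_sum_abs _ _).trans ?_) le_rfl)
  refine sum_le_sum fun b _ => ?_
  rw [abs_mul]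
  exact mul_le_of_le_one_left (abs_nonneg _) (hβ b)

theorem bx_cs (s t : Finset ℕ) (x y : ℕ → ℕ → ℝ) (h : ∀ k ∈ s, ∀ b ∈ t, x k b ^ 2 ≤ y k b) :
    (∑ k ∈ s, ∑ b ∈ t, |x k b|) ^ 2 ≤ s.card * t.card * ∑ k ∈ s, ∑ b ∈ t, y k b := by
  rw [← sum_product', ← sum_product', ← Nat.cast_mul, ← card_product]
  refine sq_sum_le_card_mul_sum_sq.trans (mul_le_mul_of_nonneg_left (sum_le_sum fun p hp => ?_)
    (Nat.cast_nonneg _))
  rw [sq_abs]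
  exact h _ (mem_product.1 hp).1 _ (mem_product.1 hp).2

theorem bx_half (I : Finset ℕ) (α : ℕ → ℝ) (Q : ℕ) :
    enS I (gam fun a => α a / 2) Q ≤ enS I (gam α) Q := by
  refine sum_le_sum fun q _ => mul_le_mul_of_nonneg_left (sum_le_sum fun r _ => ?_) (by positivity)
  have e : ∀ t, ft I (gam fun a => α a / 2) t = ft I (gam α) t / 2 := fun t => by
    unfold ft gam
    rw [sum_div]
    exact sum_congr rfl fun a _ => by push_cast; ring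
  rw [e, norm_div]
  gcongr
  exact div_le_self (norm_nonneg _) (by norm_num)

/-- the final bookkeeping -/
theorem bx_final {T K A B N L ρ τ c1 c2 c3 s U E : ℝ} (hK : 0 ≤ K) (hB : 0 ≤ B)
    (hN : 0 ≤ N) (hL : 0 < L) (hρ : 0 ≤ ρ) (hτ : 0 ≤ τ) (h1 : 0 ≤ c1) (h2 : 0 ≤ c2) (h3 : 0 ≤ c3)
    (hU : 0 ≤ U) (hT : T ^ 2 ≤ K * s * (τ * U)) (hs : s ≤ c1 * B / L) (hd : U ≤ c2 * K * E)
    (hE : E ≤ c3 * (ρ * A / L ^ 3)) (hAB : A * B ≤ 2 * N ^ 2) :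
    T ≤ √(2 * τ * c1 * c2 * c3) * √ρ * K * N / L ^ 2 := by
  refine (abs_le_of_sq_le_sq' ?_ (by positivity)).2
  have e : (√(2 * τ * c1 * c2 * c3) * √ρ * K * N / L ^ 2) ^ 2 =
      τ * c1 * c2 * c3 * ρ * K ^ 2 / L ^ 4 * (2 * N ^ 2) := by
    rw [div_pow, mul_pow, mul_pow, mul_pow, Real.sq_sqrt (by positivity), Real.sq_sqrt hρ]
    ring
  calc T ^ 2 ≤ K * s * (τ * U) := hT
    _ ≤ K * (c1 * B / L) * (τ * (c2 * K * (c3 * (ρ * A / L ^ 3)))) := by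
      gcongr
      exact hd.trans (by gcongr)
    _ = τ * c1 * c2 * c3 * ρ * K ^ 2 / L ^ 4 * (A * B) := by field_simp
    _ ≤ _ := by rw [e]; gcongr

theorem t_BX (hD1 : S_D1) (hDISP : S_DISP) (hNU : S_NU) (hRC : S_RC) (hPROJ : S_PROJ)
    (hPER : S_PER) (hROOT : S_ROOT) (hTAU : S_TAU) (hDIV : S_DIV) (θ : ℝ) (hθ : 8 / 9 < θ) :
    S_BX θ := by
  intro e1 he0 he
  refine ⟨min e1 (θ - 8 / 9), lt_min he0 (by linarith), fun eg hg hg0 => ?_⟩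
  have g1 : eg ≤ e1 := hg0.trans (min_le_left _ _)
  have g2 : eg ≤ θ - 8 / 9 := hg0.trans (min_le_right _ _)
  obtain ⟨Cd, hCd, hDISP⟩ := hDISP
  obtain ⟨Cn, hCn, hNU⟩ := hNU
  obtain ⟨Cr, hCr, hRC⟩ := hRC
  obtain ⟨Cp, hCp, hPROJ⟩ := hPROJ
  obtain ⟨Cv, hCv, hDIV⟩ := hDIV (eg / 100) (by positivity)
  refine ⟨√(2 * (4 * 2 ^ ⌈2 / e1⌉₊) * (Cr / e1) * Cd * (10 * Cn * Cp / (eg * e1 ^ 2) + 2)) + 1,
    by positivity, fun R hR => ?_⟩
  have hR1 : (1 : ℝ) < R := by exact_mod_cast hR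
  have hρ : 0 < Real.log R / R := div_pos (Real.log_pos hR1) (by linarith)
  generalize hρe : Real.log R / R = ρ at hρ
  have hsq := Real.sqrt_pos.2 hρ
  filter_upwards [bx_ev he hg g1 g2, hPER e1 eg he0 hg R.factorial R.factorial_pos,
    eventually_ge_atTop 4, ev_log 1, ev_log (1 / √ρ), ev_const 2 (show 0 < eg / 10 by linarith),
    bx_ev2 Cv (show (5 : ℝ) * (eg / 100) < eg / 10 by linarith),
    ev_pow (4 * Cp * (R.factorial : ℝ) ^ 2 / ρ) 3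
      (show eg / 10 * (2 : ℕ) * (3 : ℕ) < 1 by push_cast; linarith),
    bx_ev3 (1 / ρ) 3 (show 0 < eg / 10 by linarith)] with N hev hper hN hL hL' hZ c8 c13 c14
  intro K B A1 A2 S α β h hα hα' hβ
  obtain ⟨d1, d2, d3, d4, d5, d6, d7, d8, d9, d10, d11, d12⟩ := hev K B A1 A2 S h
  have hN0 : 0 < N := by linarith
  have hN1 : 1 ≤ N := by linarith
  have hL0 : 0 < Real.log N := by linarith
  have hZz : N ^ (eg / 10) ≤ N ^ e1 := Real.rpow_le_rpow_of_exponent_le hN1 (by linarith)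
  have hz : 2 ≤ N ^ e1 := hZ.trans hZz
  have lZ : Real.log (N ^ (eg / 10)) = eg / 10 * Real.log N := Real.log_rpow hN0 _
  have lz : Real.log (N ^ e1) = e1 * Real.log N := Real.log_rpow hN0 _
  have zs : N ^ 2 ≤ (N ^ e1) ^ ⌈2 / e1⌉₊ := by
    rw [bx_pw hN0, ← Real.rpow_two]
    refine Real.rpow_le_rpow_of_exponent_le hN1 ?_
    have := Nat.le_ceil (2 / e1)
    rwa [div_le_iff₀' he0] at this
  have c8' : ∀ m : ℕ, (m : ℝ) ≤ 4 * (A1 : ℝ) ^ 2 → (m.divisors.card : ℝ) ≤ N ^ (eg / 10) := by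
    intro m hm
    refine (hDIV m).trans (le_trans ?_ c8)
    rw [Real.rpow_mul hN0.le]
    gcongr
    calc (m : ℝ) ≤ 4 * (A1 : ℝ) ^ 2 := hm
      _ ≤ N * (N ^ 2) ^ 2 := by gcongr
      _ = N ^ (5 : ℝ) := by rw [show (5 : ℝ) = (5 : ℕ) by norm_num, Real.rpow_natCast]; ring
  rw [← bx_pw hN0, ← bx_pw hN0, Real.rpow_one] at c13
  generalize N ^ (eg / 10) = Z at *
  have hZ0 : 0 < Z := by linarith
  have hA1 : (1 : ℝ) ≤ A1 := by linarith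
  have hB0 : 0 < B := lt_of_lt_of_le (by positivity) d2
  have hBA : B ≤ A1 := le_trans (le_mul_of_one_le_left hB0.le (one_le_pow₀ (by linarith))) d1
  have hQ : (⌊Z ^ 2⌋₊ : ℝ) ≤ Z ^ 2 := Nat.floor_le (by positivity)
  obtain ⟨f, f1, f2, f3, f4⟩ := hPROJ A1 A2 R ⌊Z ^ 2⌋₊ (N ^ e1) α hR hz h.a3
    (le_trans (by gcongr) d7) d8 hα hα'
  obtain ⟨ν, nb, n1, n2, n3⟩ := hNU Z hZ
  have hI : Rng A1 (Ioc A1 A2) := fun a ha => by
    have h1 : (A1 : ℝ) < a := by exact_mod_cast (mem_Ioc.1 ha).1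
    have h2 : (a : ℝ) ≤ A2 := by exact_mod_cast (mem_Ioc.1 ha).2
    have h3 : (4 : ℝ) * A2 ≤ 5 * A1 := by exact_mod_cast h.a3
    exact ⟨h1, by linarith⟩
  have hhalf : ∀ a, |(α a - f a) / 2| ≤ 1 := fun a => by
    have h1 := abs_le.1 (hα a)
    have h2 := abs_le.1 (f1 a)
    rw [abs_le]
    constructor <;> linarith [h1.1, h1.2, h2.1, h2.2]
  have hd := hDISP A1 B Z nb K (Ioc A1 A2) S (fun a => (α a - f a) / 2) ν hZ d1 d2 d3 d4 d5 d6 c8'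
    hI hhalf n1 fun b hb => ⟨(h.s b hb).1.le, (h.s b hb).2.1, (n3 b ((h.s b hb).2.2.2.mono hZz)).ge⟩
  have hs := hRC (N ^ e1) B B S hz d9 fun b hb =>
    ⟨(h.s b hb).1, by linarith [(h.s b hb).2.1], (h.s b hb).2.2.2⟩
  have hbpos : ∀ b ∈ S, 0 < b := fun b hb => (h.s b hb).2.2.2.pos hz
  have hcs := bx_cs (Icc 1 K) S (fun k b => ∑ a ∈ Ioc A1 A2, (α a - f a) * rr k (a * b))
    (fun k b => 4 * 2 ^ ⌈2 / e1⌉₊ * Qf (fun a => (α a - f a) / 2) (Ioc A1 A2) ⌈2 * (A1 : ℝ)⌉₊ b k)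
    fun k hk b hb => by
      obtain ⟨b1, b2, b3, b4⟩ := h.s b hb
      obtain ⟨q1, q2⟩ := hD1 (fun a => (α a - f a) / 2) (Ioc A1 A2) ⌈2 * (A1 : ℝ)⌉₊ b (hbpos b hb)
      have q3 := q2 k (mem_Icc.1 hk).1 fun a ha => by
        have h1 := (hI a ha).2
        have h2 := Nat.le_ceil (2 * (A1 : ℝ))
        have h3 : (a : ℝ) * b ≤ (⌈2 * (A1 : ℝ)⌉₊ : ℝ) ^ 2 :=
          calc (a : ℝ) * b ≤ 2 * A1 * (2 * A1) := by
                gcongr <;> linarith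
            _ ≤ _ := by rw [sq]; gcongr
        exact_mod_cast h3
      have q4 : (rho k b : ℝ) ≤ 2 ^ ⌈2 / e1⌉₊ := by
        exact_mod_cast (hROOT.2.2.2.1 k b (mem_Icc.1 hk).1 (b4.odd hz) b3).2.trans
          (hTAU (N ^ e1) _ b (by linarith) b4 (by linarith))
      have e : ∑ a ∈ Ioc A1 A2, (α a - f a) * rr k (a * b) =
          2 * ∑ a ∈ Ioc A1 A2, (α a - f a) / 2 * rr k (a * b) := by
        rw [mul_sum]
        exact sum_congr rfl fun a _ => by ring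
      rw [e, mul_pow, mul_assoc, show (2 : ℝ) ^ 2 = 4 by norm_num]
      exact mul_le_mul_of_nonneg_left (q3.trans (mul_le_mul_of_nonneg_right q4 (q1 k)))
        (by norm_num)
  simp only [← mul_sum] at hcs
  rw [Nat.card_Icc, Nat.add_sub_cancel] at hcs
  have hE : nb * enS (Ioc A1 A2) (gam fun a => (α a - f a) / 2) ⌊Z ^ 2⌋₊ + A1 / Z ≤
      (10 * Cn * Cp / (eg * e1 ^ 2) + 2) * (ρ * A1 / Real.log N ^ 3) := by
    have k1 := mul_le_mul_of_nonneg_left ((bx_half _ _ _).trans f4) n1.2.2.1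
    rw [hρe, lz] at k1
    rw [lZ] at n2
    have k2 : nb * (Cp * (ρ * A1 / (e1 * Real.log N) ^ 2)) ≤
        10 * Cn * Cp / (eg * e1 ^ 2) * (ρ * A1 / Real.log N ^ 3) :=
      (mul_le_mul_of_nonneg_right n2 (by positivity)).trans_eq (by field_simp)
    have k3 : nb * (Cp * ((R.factorial : ℝ) ^ 2 * (⌊Z ^ 2⌋₊ : ℝ) ^ 3 / A1)) ≤
        ρ * A1 / Real.log N ^ 3 := by
      refine (mul_le_of_le_one_left (by positivity) n1.2.2.2.1).trans ?_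
      rw [le_div_iff₀ (by positivity)]
      calc Cp * ((R.factorial : ℝ) ^ 2 * (⌊Z ^ 2⌋₊ : ℝ) ^ 3 / A1) * Real.log N ^ 3
          ≤ Cp * ((R.factorial : ℝ) ^ 2 * (Z ^ 2) ^ 3 / 1) * Real.log N ^ 3 := by gcongr
        _ = ρ * (4 * Cp * (R.factorial : ℝ) ^ 2 / ρ * (Z ^ 2) ^ 3 * Real.log N ^ 3 / 4) := by
          field_simp
        _ ≤ ρ * A1 := by gcongr; linarith
    have k4 : A1 / Z ≤ ρ * A1 / Real.log N ^ 3 := by
      rw [div_le_div_iff₀ hZ0 (by positivity)]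
      calc A1 * Real.log N ^ 3 = ρ * A1 * (1 / ρ * Real.log N ^ 3) := by field_simp
        _ ≤ _ := by gcongr
    rw [mul_add, mul_add] at k1
    rw [add_mul]
    linarith only [k1, k2, k3, k4]
  have hs' : (S.card : ℝ) ≤ Cr / e1 * B / Real.log N := hs.trans_eq (by rw [lz]; field_simp)
  have hT := bx_final (τ := 4 * 2 ^ ⌈2 / e1⌉₊) (c3 := 10 * Cn * Cp / (eg * e1 ^ 2) + 2)
    (Nat.cast_nonneg K) hB0.le hN0.le hL0 hρ.le (by positivity) (div_pos hCr he0).le hCd.le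
    (by positivity) (sum_nonneg fun (k : ℕ) _ => sum_nonneg fun b hb =>
      (hD1 _ _ _ b (hbpos b hb)).1 k) hcs hs' hd hE h.a2
  have hP := hper K B A1 A2 S f β (h.mono (by linarith) hN1) f1 f2 hβ
  have hP' : K * N / Real.log N ^ 3 ≤ √ρ * K * N / Real.log N ^ 2 := by
    rw [div_le_iff₀ hsq] at hL'
    calc K * N / Real.log N ^ 3 ≤ K * N / Real.log N ^ 3 * (Real.log N * √ρ) :=
          le_mul_of_one_le_right (by positivity) hL'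
      _ = _ := by field_simp
  refine (sum_le_sum fun k _ => bx_split R.factorial k _ S α β f hβ (f3 k)).trans ?_
  rw [sum_add_distrib]
  refine (add_le_add hT (hP.trans hP')).trans_eq ?_
  ring

end Pool.Agent.P.MP_8be758_nt.Avg
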