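import Pool.Agent.P.MP_8be758_nt.Avg.Iface

/-! Small facts about the definitions, shared by all steps. -/

namespace Pool.Agent.P.MP_8be758_nt.Avg

open Finset Real Filter Topology
open Pool.Agent.P.MP_e86632_nt (ee)

theorem gs_pos (x : ℝ) : 0 < gs x := Real.exp_pos _

theorem gs_zero : gs 0 = 1 := by simp [gs]

theorem gs_neg (x : ℝ) : gs (-x) = gs x := by simp [gs]

theorem gs_abs (x : ℝ) : gs |x| = gs x := by simp [gs]

theorem gs_anti {x y : ℝ} (h : |x| ≤ |y|) : gs y ≤ gs x := by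
  have := sq_le_sq.2 h
  exact Real.exp_le_exp.2 (by nlinarith [Real.pi_pos])

theorem gs_le_one (x : ℝ) : gs x ≤ 1 := gs_zero ▸ gs_anti (by simp)

theorem psi_zero (B : ℝ) : psi B 0 = 0 := by simp [psi]

theorem psi_eq (B b : ℝ) :
    psi B b = Real.exp (-(π * b / B)) * (1 - Real.exp (-(π * b / B))) := by
  rw [psi, mul_sub, mul_one, ← Real.exp_add]; congr 2; ring

theorem psi_nonneg {B b : ℝ} (hB : 0 < B) (hb : 0 ≤ b) : 0 ≤ psi B b := by
  rw [psi_eq]
  have : 0 ≤ π * b / B := by positivity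
  exact mul_nonneg (Real.exp_pos _).le (sub_nonneg.2 (Real.exp_le_one_iff.2 (by linarith)))

theorem psi_le_exp (B b : ℝ) : psi B b ≤ Real.exp (-(π * b / B)) :=
  sub_le_self _ (Real.exp_pos _).le

theorem psi_le_one {B b : ℝ} (hB : 0 < B) (hb : 0 ≤ b) : psi B b ≤ 1 := by
  have : 0 ≤ π * b / B := by positivity
  exact (psi_le_exp B b).trans (Real.exp_le_one_iff.2 (by linarith))

theorem psi_le_lin {B b : ℝ} (hB : 0 < B) (hb : 0 ≤ b) : psi B b ≤ π * b / B := by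
  rw [psi_eq]
  have h0 : 0 ≤ π * b / B := by positivity
  have h1 := Real.add_one_le_exp (-(π * b / B))
  have h2 : Real.exp (-(π * b / B)) ≤ 1 := Real.exp_le_one_iff.2 (by linarith)
  have h3 := Real.exp_pos (-(π * b / B))
  nlinarith

theorem psi_eq_gs {B : ℝ} (hB : 0 < B) (s v : ℝ) :
    psi B (s ^ 2 / v ^ 2) = gs (s / (v * √B)) - gs (s / (v * √(B / 2))) := by
  simp only [psi, gs, div_pow, mul_pow, Real.sq_sqrt hB.le, Real.sq_sqrt (half_pos hB).le]
  congr 2 <;> field_simp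

theorem rr_nonneg (k m : ℕ) : 0 ≤ rr k m := by unfold rr; split_ifs <;> norm_num

theorem rr_le_one (k m : ℕ) : rr k m ≤ 1 := by unfold rr; split_ifs <;> norm_num

theorem md_nonneg (W k m : ℕ) : 0 ≤ md W k m := by unfold md; positivity

theorem abs_dd_le (W k m : ℕ) : |dd W k m| ≤ rr k m + md W k m := by
  have h1 := rr_nonneg k m
  have h2 := md_nonneg W k m
  rw [dd, abs_le]; constructor <;> linarith

theorem quad_strictMono (k : ℕ) : StrictMono fun n : ℕ => n ^ 2 + n + k :=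
  strictMono_nat_of_lt_succ fun n => by nlinarith

/-- `rr` as a sum over the argument of the polynomial -/
theorem rr_eq_sum (k m : ℕ) (s : Finset ℕ) (h : ∀ n, n ^ 2 + n + k = m → n ∈ s) :
    rr k m = ∑ n ∈ s, if n ^ 2 + n + k = m then (1 : ℝ) else 0 := by
  unfold rr
  split_ifs with h1
  · obtain ⟨n, hn⟩ := h1
    rw [Finset.sum_eq_single_of_mem n (h n hn), if_pos hn]
    intro b _ hb
    exact if_neg fun h2 => hb ((quad_strictMono k).injective (h2.trans hn.symm))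
  · exact (Finset.sum_eq_zero fun n _ => if_neg fun h2 => h1 ⟨n, h2⟩).symm

theorem vr_le (W k m : ℕ) : vr W k m ≤ W := (card_filter_le _ _).trans (card_range W).le

theorem rho_le (k q : ℕ) : rho k q ≤ q := (card_filter_le _ _).trans (card_range q).le

theorem rho_one (k : ℕ) : rho k 1 = 1 := by simp [rho]

theorem mem_PL {z : ℝ} (hz : 0 ≤ z) {p : ℕ} : p ∈ PL z ↔ (p : ℝ) ≤ z ∧ p.Prime := by
  rw [PL, Nat.mem_primesLE, Nat.le_floor_iff hz]

theorem prime_of_mem_PL {z : ℝ} {p : ℕ} (h : p ∈ PL z) : p.Prime := (Nat.mem_primesLE.1 h).2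

theorem PL_nat (R : ℕ) : PL R = Nat.primesLE R := by rw [PL, Nat.floor_natCast]

theorem rough_iff {z : ℝ} {m : ℕ} : Rough z m ↔ ∀ p ∈ PL z, ¬ p ∣ m := by
  rcases lt_or_ge z 0 with hz | hz
  · refine ⟨fun _ p hp => ?_, fun _ p _ _ => hz.trans_le (Nat.cast_nonneg p)⟩
    rw [PL, Nat.floor_of_nonpos hz.le, Nat.mem_primesLE] at hp
    exact absurd hp.2.pos (by omega)
  · refine ⟨fun h p hp hd => ?_, fun h p hp hd => ?_⟩
    · exact absurd (h p ((mem_PL hz).1 hp).2 hd) (not_lt.2 ((mem_PL hz).1 hp).1)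
    · by_contra h1
      exact h p ((mem_PL hz).2 ⟨not_lt.1 h1, hp⟩) hd

theorem Rough.mono {z z' : ℝ} {m : ℕ} (h : Rough z m) (hz : z' ≤ z) : Rough z' m :=
  fun p hp hd => hz.trans_lt (h p hp hd)

theorem Rough.of_dvd {z : ℝ} {m d : ℕ} (h : Rough z m) (hd : d ∣ m) : Rough z d :=
  fun p hp h1 => h p hp (h1.trans hd)

theorem rough_mul {z : ℝ} {m n : ℕ} : Rough z (m * n) ↔ Rough z m ∧ Rough z n :=
  ⟨fun h => ⟨h.of_dvd (dvd_mul_right _ _), h.of_dvd (dvd_mul_left _ _)⟩,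
    fun h p hp hd => (hp.dvd_mul.1 hd).elim (h.1 p hp) (h.2 p hp)⟩

theorem rough_one (z : ℝ) : Rough z 1 := fun _ hp hd => absurd (Nat.dvd_one.1 hd) hp.ne_one

theorem Rough.pos {z : ℝ} {m : ℕ} (h : Rough z m) (hz : 2 ≤ z) : 0 < m := by
  rcases Nat.eq_zero_or_pos m with rfl | h0
  · exact absurd (h 2 Nat.prime_two (dvd_zero 2)) (by simpa using hz)
  · exact h0

theorem Rough.odd {z : ℝ} {m : ℕ} (h : Rough z m) (hz : 2 ≤ z) : Odd m := by
  rw [← Nat.not_even_iff_odd, even_iff_two_dvd]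
  exact fun h2 => absurd (h 2 Nat.prime_two h2) (by simpa using hz)

theorem Rough.lt {z : ℝ} {m : ℕ} (h : Rough z m) (hm : 1 < m) : z < m :=
  (h _ (Nat.minFac_prime hm.ne') (Nat.minFac_dvd m)).trans_le
    (by exact_mod_cast Nat.minFac_le (by omega))

theorem Rough.coprime {z : ℝ} {m q : ℕ} (h : Rough z m)
    (hq : ∀ p : ℕ, p.Prime → p ∣ q → (p : ℝ) ≤ z) : m.Coprime q :=
  Nat.coprime_of_dvd fun p hp h1 h2 => absurd (h p hp h1) (not_lt.2 (hq p hp h2))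

theorem Rough.coprime_of_le {z : ℝ} {m q : ℕ} (h : Rough z m) (h0 : 0 < q) (hq : (q : ℝ) ≤ z) :
    m.Coprime q :=
  h.coprime fun _ _ hd => le_trans (by exact_mod_cast Nat.le_of_dvd h0 hd) hq

theorem Rough.coprime_factorial {z : ℝ} {m R : ℕ} (h : Rough z m) (hR : (R : ℝ) ≤ z) :
    m.Coprime R.factorial :=
  h.coprime fun _ hp hd => le_trans (by exact_mod_cast hp.dvd_factorial.1 hd) hR

theorem rough_prime {z : ℝ} {p : ℕ} (hp : p.Prime) : Rough z p ↔ z < p :=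
  ⟨fun h => h p hp dvd_rfl, fun h q hq hd => by rwa [(Nat.prime_dvd_prime_iff_eq hq hp).1 hd]⟩

theorem chi_mul (k m n : ℕ) : chi k (m * n) = chi k m * chi k n := by
  simp [chi, jacobiSym.mul_left]

theorem chi_one (k : ℕ) : chi k 1 = 1 := by simp [chi]

theorem abs_chi_le (k m : ℕ) : |chi k m| ≤ 1 := by
  unfold chi
  rcases jacobiSym.trichotomy (m : ℤ) (4 * k - 1) with h | h | h <;> simp [h]

theorem nsq_nonneg (I : Finset ℕ) (γ : ℕ → ℂ) : 0 ≤ nsq I γ := sum_nonneg fun _ _ => by positivity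

theorem en_nonneg (I : Finset ℕ) (γ : ℕ → ℂ) (q : ℕ) : 0 ≤ en I γ q :=
  sum_nonneg fun _ _ => by positivity

theorem enS_nonneg (I : Finset ℕ) (γ : ℕ → ℂ) (Q : ℕ) : 0 ≤ enS I γ Q :=
  sum_nonneg fun q _ => mul_nonneg (by positivity) (en_nonneg I γ q)

theorem card_red_le (q : ℕ) : (red q).card ≤ q := (card_filter_le _ _).trans (card_range q).le

theorem Rng.card_le {A : ℝ} {I : Finset ℕ} (h : Rng A I) (hA : 1 ≤ A) : (I.card : ℝ) ≤ 2 * A := by
  have h1 : I ⊆ Icc 1 ⌊2 * A⌋₊ := fun a ha => by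
    have h2 := h a ha
    refine mem_Icc.2 ⟨?_, Nat.le_floor (by linarith [h2.2])⟩
    exact_mod_cast (hA.trans h2.1.le : (1 : ℝ) ≤ a)
  have h2 := card_le_card h1
  rw [Nat.card_Icc, Nat.add_sub_cancel] at h2
  exact le_trans (by exact_mod_cast h2) (Nat.floor_le (by linarith))

theorem NuData.le {ν : ℤ → ℝ} {nb D δ : ℝ} (h : NuData ν nb D δ) (b : ℤ) : ν b ≤ D := by
  obtain ⟨-, -, h0, -, ι, s, d, lam, h1, h2, -⟩ := h
  refine le_trans ?_ h2
  have h3 : ν b ≤ ‖(ν b : ℂ)‖ := by rw [Complex.norm_real]; exact le_abs_self _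
  rw [h1 b] at h3
  refine h3.trans ((norm_add_le _ _).trans (add_le_add ?_ ((norm_sum_le _ _).trans ?_)))
  · rw [Complex.norm_real, Real.norm_of_nonneg h0]
  · refine sum_le_sum fun i _ => ?_
    rw [norm_mul, Pool.Agent.P.MP_e86632_nt.norm_ee, mul_one, Complex.norm_real, Real.norm_eq_abs]

theorem bil_comm (X1 X2 : ℕ) (φ ψ f : ℕ → ℝ) : bil X1 X2 φ ψ f = bil X1 X2 ψ φ f := by
  unfold bil
  refine Finset.sum_bij' (fun p _ => p.swap) (fun p _ => p.swap) ?_ ?_ ?_ ?_ ?_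
  · intro p hp
    simp only [pairs, mem_filter, mem_product, Prod.fst_swap, Prod.snd_swap] at hp ⊢
    rw [mul_comm]; tauto
  · intro p hp
    simp only [pairs, mem_filter, mem_product, Prod.fst_swap, Prod.snd_swap] at hp ⊢
    rw [mul_comm]; tauto
  · simp
  · simp
  · intro p _
    simp only [Prod.fst_swap, Prod.snd_swap]
    rw [mul_comm p.2, mul_comm (ψ p.2)]

/-- Markov inequality -/
theorem markov {ι : Type*} (s : Finset ι) (f : ι → ℝ) (hf : ∀ i ∈ s, 0 ≤ f i) (t : ℝ)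
    (P : ι → Prop) {_ : DecidablePred P} (hP : ∀ i ∈ s, P i → t ≤ f i) :
    t * (s.filter P).card ≤ ∑ i ∈ s, f i := by
  calc t * (s.filter P).card = ∑ _i ∈ s.filter P, t := by rw [sum_const, nsmul_eq_mul, mul_comm]
    _ ≤ ∑ i ∈ s.filter P, f i := sum_le_sum fun i hi => hP i (mem_filter.1 hi).1 (mem_filter.1 hi).2
    _ ≤ _ := sum_le_sum_of_subset_of_nonneg (filter_subset _ _) fun i hi _ => hf i hi

/-- powers of the logarithm are beaten by any power -/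
theorem ev_pow (C : ℝ) (k : ℕ) {a b : ℝ} (h : a < b) :
    ∀ᶠ N : ℝ in atTop, C * N ^ a * Real.log N ^ k ≤ N ^ b := by
  have h1 := (isLittleO_log_rpow_rpow_atTop (k : ℝ) (sub_pos.2 h)).bound
    (c := 1 / (|C| + 1)) (by positivity)
  filter_upwards [h1, eventually_ge_atTop 1] with N h2 h3
  have h4 : 0 < N := by linarith
  have h5 : 0 ≤ Real.log N := Real.log_nonneg h3
  rw [Real.rpow_natCast, Real.norm_of_nonneg (by positivity),
    Real.norm_of_nonneg (by positivity), one_div_mul_eq_div, le_div_iff₀ (by positivity)] at h2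
  have h6 : N ^ b = N ^ a * N ^ (b - a) := by rw [← Real.rpow_add h4]; congr 1; ring
  have h7 : 0 < N ^ a := by positivity
  have h8 : C * Real.log N ^ k ≤ N ^ (b - a) := by
    have := le_abs_self C
    have h9 : 0 ≤ Real.log N ^ k := by positivity
    nlinarith
  rw [h6]
  nlinarith

theorem ev_const (C : ℝ) {b : ℝ} (h : 0 < b) : ∀ᶠ N : ℝ in atTop, C ≤ N ^ b := by
  simpa using ev_pow C 0 h

theorem ev_log (C : ℝ) : ∀ᶠ N : ℝ in atTop, C ≤ Real.log N :=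
  Real.tendsto_log_atTop.eventually_ge_atTop C

/-- transfer of an eventual property of `K` to all `K ≥ N ^ θ` -/
theorem ev_K {P : ℕ → Prop} (h : ∀ᶠ K : ℕ in atTop, P K) {θ : ℝ} (hθ : 0 < θ) :
    ∀ᶠ N : ℝ in atTop, ∀ K : ℕ, N ^ θ ≤ K → P K := by
  obtain ⟨K0, hK⟩ := eventually_atTop.1 h
  filter_upwards [ev_const (K0 : ℝ) hθ] with N h1 K h2
  exact hK K (by exact_mod_cast h1.trans h2)

theorem Setup.mono {θ θ' N : ℝ} {K X1 X2 : ℕ} (h : Setup θ N K X1 X2) (hθ : θ' ≤ θ) (hN : 1 ≤ N) :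
    Setup θ' N K X1 X2 :=
  ⟨(Real.rpow_le_rpow_of_exponent_le hN hθ).trans h.lo, h.hi, h.x1, h.x12, h.x2⟩

theorem Box.mono {θ θ' e1 eg N B : ℝ} {K A1 A2 : ℕ} {S : Finset ℕ}
    (h : Box θ e1 eg N K B A1 A2 S) (hθ : θ' ≤ θ) (hN : 1 ≤ N) : Box θ' e1 eg N K B A1 A2 S :=
  ⟨(Real.rpow_le_rpow_of_exponent_le hN hθ).trans h.lo, h.hi, h.b1, h.b2, h.a1, h.a2, h.a3, h.s⟩

end Pool.Agent.P.MP_8be758_nt.Avg
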