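import Pool.Agent.P.MP_e86632_nt.Basic

/-! Definitions for the average form of Conjecture F with a short average over the constant term. -/

namespace Pool.Agent.P.MP_8be758_nt.Avg

open Finset Real Filter Topology
open Pool.Agent.P.MP_e86632_nt (ee)

noncomputable section

/-- the Gaussian -/
def gs (x : ℝ) : ℝ := Real.exp (-(π * x ^ 2))

/-- all prime factors of `m` exceed `z` -/
def Rough (z : ℝ) (m : ℕ) : Prop := ∀ p : ℕ, p.Prime → p ∣ m → z < p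

instance decRough (z : ℝ) : DecidablePred (Rough z) := Classical.decPred _

/-- the primes up to `z` -/
def PL (z : ℝ) : Finset ℕ := Nat.primesLE ⌊z⌋₊

open Classical in
/-- indicator that `m` is a value of `n ^ 2 + n + k` -/
def rr (k m : ℕ) : ℝ := if ∃ n : ℕ, n ^ 2 + n + k = m then 1 else 0

/-- number of `n` modulo `W` with `n ^ 2 + n + k ≡ m` -/
def vr (W k m : ℕ) : ℕ := ((range W).filter fun n => n ^ 2 + n + k ≡ m [MOD W]).card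

/-- the model for `rr` -/
def md (W k m : ℕ) : ℝ := (vr W k m : ℝ) / (2 * √(m : ℝ))

/-- the discrepancy kernel -/
def dd (W k m : ℕ) : ℝ := rr k m - md W k m

/-- number of roots of `n ^ 2 + n + k` modulo `q` -/
def rho (k q : ℕ) : ℕ := ((range q).filter fun n => q ∣ n ^ 2 + n + k).card

/-- the quadratic character attached to `k` -/
def chi (k m : ℕ) : ℝ := (jacobiSym (m : ℤ) (4 * k - 1) : ℝ)

/-- finite Fourier transform -/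
def ft (I : Finset ℕ) (γ : ℕ → ℂ) (t : ℝ) : ℂ := ∑ a ∈ I, γ a * ee (a * t)

/-- reduced residues -/
def red (q : ℕ) : Finset ℕ := (range q).filter fun r => r.Coprime q

/-- energy at the fractions with denominator `q` -/
def en (I : Finset ℕ) (γ : ℕ → ℂ) (q : ℕ) : ℝ := ∑ r ∈ red q, ‖ft I γ ((r : ℝ) / q)‖ ^ 2

/-- squared norm -/
def nsq (I : Finset ℕ) (γ : ℕ → ℂ) : ℝ := ∑ a ∈ I, ‖γ a‖ ^ 2

/-- the kernel `Kr` has bilinear norm at most `D` -/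
def BB (I J : Finset ℕ) (Kr : ℕ → ℕ → ℂ) (D : ℝ) : Prop :=
  ∀ u v : ℕ → ℂ, ‖∑ a ∈ I, ∑ b ∈ J, u a * v b * Kr a b‖ ≤ D * √(nsq I u) * √(nsq J v)

/-- smooth weight in the modulus -/
def psi (B b : ℝ) : ℝ := Real.exp (-(π * b / B)) - Real.exp (-(2 * π * b / B))

/-- difference of square roots -/
def sg (a1 a2 : ℕ) : ℝ := √(a2 : ℝ) - √(a1 : ℝ)

/-- `I` lies in `(A, 5 A / 4]` -/
def Rng (A : ℝ) (I : Finset ℕ) : Prop := ∀ a ∈ I, A < a ∧ (a : ℝ) ≤ 5 / 4 * A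

/-- a nonnegative trigonometric polynomial vanishing at even integers, with mean `nb`, total mass
at most `D` and nonzero frequencies at distance at least `δ` from the integers -/
def NuData (ν : ℤ → ℝ) (nb D δ : ℝ) : Prop :=
  (∀ b, 0 ≤ ν b) ∧ (∀ b, Even b → ν b = 0) ∧ 0 ≤ nb ∧ nb ≤ 1 ∧
    ∃ (ι : Type) (s : Finset ι) (d lam : ι → ℝ),
      (∀ b : ℤ, (ν b : ℂ) = nb + ∑ i ∈ s, (d i : ℂ) * ee (lam i * b)) ∧
      nb + ∑ i ∈ s, |d i| ≤ D ∧ ∀ i ∈ s, ∀ j : ℤ, δ ≤ |j - lam i|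

/-- product of `1 - 1 / p` over the primes up to `z` -/
def Vz (z : ℝ) : ℝ := ∏ p ∈ PL z, (1 - 1 / (p : ℝ))

/-- truncated singular series -/
def sing (R k : ℕ) : ℝ := ∏ p ∈ Nat.primesLE R, (1 - (rho k p : ℝ) / p) / (1 - 1 / (p : ℝ))

/-- tail product of the singular series over the primes in `(R, z]` -/
def TT (k R : ℕ) (z : ℝ) : ℝ := ∏ p ∈ (PL z).filter (fun p => R < p), (1 - chi k p / ((p : ℝ) - 1))

/-- the partial products in the problem -/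
def prodC (k y : ℕ) : ℝ :=
  ∏ p ∈ (Finset.Icc 3 y).filter Nat.Prime, (1 - (jacobiSym (1 - 4 * (k : ℤ)) p : ℝ) / ((p : ℝ) - 1))

/-- upper sieve weights `lam` with a majorant `Del` for the loss -/
def FLData (z L δ : ℝ) (lam Del : Finset ℕ → ℝ) : Prop :=
  ∑ E ∈ (PL z).powerset, (|lam E| + |Del E|) * ∏ p ∈ E, (p : ℝ) ≤ L ∧
  (∀ g : ℕ → ℝ, (∀ p ∈ PL z, 0 ≤ g p ∧ g p ≤ 1) →
    ∏ p ∈ PL z, (1 - g p) ≤ ∑ E ∈ (PL z).powerset, lam E * ∏ p ∈ E, g p ∧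
    ∑ E ∈ (PL z).powerset, lam E * ∏ p ∈ E, g p ≤
      ∏ p ∈ PL z, (1 - g p) + ∑ E ∈ (PL z).powerset, Del E * ∏ p ∈ E, g p) ∧
  ∑ E ∈ (PL z).powerset, Del E * ∏ p ∈ E, (1 / (p : ℝ)) ≤ δ

/-- the polynomial with an integer constant term -/
def FF (k : ℤ) (n : ℕ) : ℤ := (n : ℤ) ^ 2 + n + k

/-- the quadratic form after Cauchy-Schwarz -/
def Qf (α : ℕ → ℝ) (I : Finset ℕ) (n0 b : ℕ) (k : ℤ) : ℝ :=
  ∑ n1 ∈ range n0, ∑ n2 ∈ range n0, ∑ a1 ∈ I, ∑ a2 ∈ I,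
    if n1 ≡ n2 [MOD b] ∧ FF k n1 = a1 * b ∧ FF k n2 = a2 * b then α a1 * α a2 else 0

/-- the congruence condition on the off-diagonal parameters -/
def Cg (μ a1 a2 : ℕ) : Prop := (a2 : ℤ) - a1 ≡ μ * (μ + 1) [ZMOD 2 * μ]

instance decCg (μ a1 a2 : ℕ) : Decidable (Cg μ a1 a2) := Classical.dec _

/-- the value of `4 k - 1` in the off-diagonal parameters -/
def disc (μ a1 a2 : ℕ) (b : ℝ) : ℝ :=
  -((μ : ℝ) ^ 2 * b ^ 2) + 2 * ((a1 : ℝ) + a2) * b - (((a2 : ℝ) - a1) / μ) ^ 2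

/-- range of the extended constant term -/
def KR (n0 : ℕ) : Finset ℤ := Icc (-(2 * (n0 : ℤ) ^ 2)) (2 * (n0 : ℤ) ^ 2)

/-- diagonal contribution -/
def dg (w : ℕ → ℝ → ℝ) (α : ℕ → ℝ) (I : Finset ℕ) (n0 : ℕ) : ℝ :=
  ∑ b ∈ Icc 1 n0, ∑ k ∈ KR n0, w b (4 * k - 1) *
    ∑ n ∈ range n0, ∑ a ∈ I, if FF k n = a * b then α a ^ 2 else 0

/-- inner off-diagonal sum over the modulus -/
def offT (w : ℕ → ℝ → ℝ) (n0 μ a1 a2 : ℕ) : ℝ :=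
  ∑ b ∈ (Icc 1 n0).filter (fun b : ℕ => (b : ℤ) * μ ^ 2 + μ ≤ |(a2 : ℤ) - a1|),
    w b (disc μ a1 a2 b)

/-- the weight in the dispersion sum -/
def wt (ν : ℤ → ℝ) (B K : ℝ) (b : ℕ) (κ : ℝ) : ℝ := ν b * psi B b * gs (κ / (4 * K))

/-- model for the inner off-diagonal sum -/
def modT (ν : ℤ → ℝ) (B K : ℝ) (μ a1 a2 : ℕ) : ℝ :=
  psi B (sg a1 a2 ^ 2 / (μ : ℝ) ^ 2) *
    ∑' b : ℤ, ν b * gs (√((a1 : ℝ) * a2) / K * (b - sg a1 a2 ^ 2 / (μ : ℝ) ^ 2))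

/-- sum over the off-diagonal parameters -/
def offS (α : ℕ → ℝ) (I : Finset ℕ) (n0 : ℕ) (T : ℕ → ℕ → ℕ → ℝ) : ℝ :=
  ∑ a1 ∈ I, ∑ a2 ∈ I, α a1 * α a2 * ∑ μ ∈ (Icc 1 n0).filter (fun μ => Cg μ a1 a2), T μ a1 a2

/-- contribution of the frequency `ξ` -/
def osc (α : ℕ → ℝ) (I : Finset ℕ) (B K : ℝ) (n0 : ℕ) (ξ : ℝ) : ℂ :=
  ∑ a1 ∈ I, ∑ a2 ∈ I, ∑ μ ∈ (Icc 1 n0).filter (fun μ => Cg μ a1 a2),
    ((α a1 * α a2 * (psi B (sg a1 a2 ^ 2 / (μ : ℝ) ^ 2) * (K / √((a1 : ℝ) * a2)) *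
      gs (ξ * K / √((a1 : ℝ) * a2))) : ℝ) : ℂ) * ee (-(ξ * (sg a1 a2 ^ 2 / (μ : ℝ) ^ 2)))

/-- zero frequency term -/
def mainS (α : ℕ → ℝ) (I : Finset ℕ) (B : ℝ) (n0 : ℕ) : ℝ :=
  offS (fun a => α a / √(a : ℝ)) I n0 fun μ a1 a2 => psi B (sg a1 a2 ^ 2 / (μ : ℝ) ^ 2)

/-- coefficients divided by the square root -/
def gam (α : ℕ → ℝ) (a : ℕ) : ℂ := ((α a / √(a : ℝ) : ℝ) : ℂ)

/-- weighted energy up to denominator `Q` -/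
def enS (I : Finset ℕ) (γ : ℕ → ℂ) (Q : ℕ) : ℝ := ∑ q ∈ Icc 1 Q, 1 / (q : ℝ) * en I γ q

/-- the standing size conditions -/
structure Setup (θ N : ℝ) (K X1 X2 : ℕ) : Prop where
  lo : N ^ θ ≤ K
  hi : (K : ℝ) ≤ N ^ (6 / 5 : ℝ)
  x1 : N ^ 2 ≤ X1
  x12 : X1 ≤ X2
  x2 : (X2 : ℝ) ≤ 6 / 5 * N ^ 2

/-- pairs with product in `(X1, X2]` -/
def pairs (X1 X2 : ℕ) : Finset (ℕ × ℕ) :=
  (Icc 1 X2 ×ˢ Icc 1 X2).filter fun p => X1 < p.1 * p.2 ∧ p.1 * p.2 ≤ X2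

/-- bilinear form with kernel `f` -/
def bil (X1 X2 : ℕ) (φ ψ f : ℕ → ℝ) : ℝ := ∑ p ∈ pairs X1 X2, φ p.1 * ψ p.2 * f (p.1 * p.2)

/-- rough moduli of the type I sums -/
def Dy (N z : ℝ) : Finset ℕ := (Icc 1 ⌊N ^ (2 / 3 : ℝ)⌋₊).filter (Rough z)

/-- type I sum with kernel `f` -/
def tyI (N z : ℝ) (X1 X2 : ℕ) (c f : ℕ → ℝ) : ℝ :=
  ∑ m ∈ (Ioc X1 X2).filter (Rough z), (∑ d ∈ (Dy N z).filter (· ∣ m), c d) * f m

/-- prime values in `(X1, X2]` weighted by the logarithm -/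
def Th (k X1 X2 : ℕ) : ℝ := ∑ m ∈ (Ioc X1 X2).filter Nat.Prime, Real.log m * rr k m

/-- number of prime values -/
def PC (k n : ℕ) : ℕ := ((range (n + 1)).filter fun x => (x ^ 2 + x + k).Prime).card

/-- bounded coefficients supported on rough numbers above `y` -/
def Coef (z y : ℝ) (φ : ℕ → ℝ) : Prop :=
  (∀ u, |φ u| ≤ 1) ∧ ∀ u, φ u ≠ 0 → Rough z u ∧ y < u

/-- size conditions for one box -/
structure Box (θ e1 eg N : ℝ) (K : ℕ) (B : ℝ) (A1 A2 : ℕ) (S : Finset ℕ) : Prop where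
  lo : N ^ θ ≤ K
  hi : (K : ℝ) ≤ N ^ (6 / 5 : ℝ)
  b1 : N ^ (2 / 3 : ℝ) ≤ B
  b2 : B ≤ N ^ (1 - eg)
  a1 : N ^ 2 / 4 ≤ A1 * B
  a2 : A1 * B ≤ 2 * N ^ 2
  a3 : 4 * A2 ≤ 5 * A1
  s : ∀ b ∈ S, B < b ∧ (b : ℝ) ≤ 2 * B ∧ Squarefree b ∧ Rough (N ^ e1) b

end

end Pool.Agent.P.MP_8be758_nt.Avg
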