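import Pool.Agent.P.MP_8be758_nt.Avg.Basic

/-! Gaussian sums over the integers: Poisson summation and upper bounds. -/

namespace Pool.Agent.P.MP_8be758_nt.Avg

open Finset Real Filter Topology
open Pool.Agent.P.MP_e86632_nt (ee)

theorem gs_one_side (h : ℕ → ℝ) (h0 : ∀ j, 0 ≤ h j) {M : ℝ} (hM : ∀ N, ∑ j ∈ range N, h j ≤ M)
    (s : Finset ℤ) (φ : ℤ → ℕ) (hφ : Set.InjOn φ s) : ∑ b ∈ s, h (φ b) ≤ M := by
  rw [← sum_image (f := h) hφ]
  obtain ⟨N, hN⟩ := (s.image φ).exists_nat_subset_range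
  exact (sum_le_sum_of_subset_of_nonneg hN fun j _ _ => h0 j).trans (hM N)

/-- a sum over integers is bounded by twice a sum over the distances to a real number -/
theorem gs_two_side (f : ℤ → ℝ) (c : ℝ) (h : ℕ → ℝ) (h0 : ∀ j, 0 ≤ h j) {M : ℝ}
    (hM : ∀ N, ∑ j ∈ range N, h j ≤ M) (s : Finset ℤ)
    (hf : ∀ b ∈ s, ∀ j : ℕ, (j : ℝ) ≤ |b - c| → f b ≤ h j) : ∑ b ∈ s, f b ≤ 2 * M := by
  rw [← sum_filter_add_sum_filter_not s (fun b => ⌈c⌉ ≤ b), two_mul]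
  have hc1 := Int.le_ceil c
  have hc2 := Int.ceil_lt_add_one c
  refine add_le_add ?_ ?_
  · refine le_trans (sum_le_sum fun b hb => ?_)
      (gs_one_side h h0 hM _ (fun b => (b - ⌈c⌉).toNat) ?_)
    · obtain ⟨h1, h2⟩ := mem_filter.1 hb
      refine hf b h1 _ (le_trans ?_ (le_abs_self _))
      have h3 : (((b - ⌈c⌉).toNat : ℤ) : ℝ) = ((b - ⌈c⌉ : ℤ) : ℝ) := by
        rw [Int.toNat_of_nonneg (by omega)]
      push_cast at h3
      linarith
    · intro x hx y hy hxy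
      have h1 := (mem_filter.1 (mem_coe.1 hx)).2
      have h2 := (mem_filter.1 (mem_coe.1 hy)).2
      simp only at hxy
      omega
  · refine le_trans (sum_le_sum fun b hb => ?_)
      (gs_one_side h h0 hM _ (fun b => (⌈c⌉ - 1 - b).toNat) ?_)
    · obtain ⟨h1, h2⟩ := mem_filter.1 hb
      refine hf b h1 _ (le_trans ?_ (neg_le_abs _))
      have h3 : (((⌈c⌉ - 1 - b).toNat : ℤ) : ℝ) = ((⌈c⌉ - 1 - b : ℤ) : ℝ) := by
        rw [Int.toNat_of_nonneg (by omega)]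
      push_cast at h3
      linarith
    · intro x hx y hy hxy
      have h1 := (mem_filter.1 (mem_coe.1 hx)).2
      have h2 := (mem_filter.1 (mem_coe.1 hy)).2
      simp only at hxy
      omega

theorem gs_le_inv (u : ℝ) : gs u ≤ 1 / (1 + u ^ 2) := by
  have h1 := Real.add_one_le_exp (π * u ^ 2)
  have h2 := Real.pi_gt_three
  have h3 := sq_nonneg u
  rw [gs, Real.exp_neg, one_div]
  exact inv_anti₀ (by positivity) (by nlinarith)

theorem gs_tele {r : ℝ} (hr : 0 < r) (N : ℕ) :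
    ∑ j ∈ range (N + 1), gs (r * j) ≤ 1 + 2 / r * (1 - 1 / (1 + r * N)) := by
  induction N with
  | zero => simp [gs_zero]
  | succ N ih =>
    rw [sum_range_succ]
    have h1 := gs_le_inv (r * ((N + 1 : ℕ) : ℝ))
    have hN : (0 : ℝ) ≤ N := Nat.cast_nonneg N
    have h2 : 1 / (1 + (r * ((N + 1 : ℕ) : ℝ)) ^ 2) ≤
        2 / r * (1 / (1 + r * N) - 1 / (1 + r * ((N + 1 : ℕ) : ℝ))) := by
      push_cast
      have h3 : 0 < 1 + r * N := by positivity
      have h4 : 0 < 1 + r * (N + 1) := by positivity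
      have e : 2 / r * (1 / (1 + r * N) - 1 / (1 + r * (N + 1))) =
          2 / ((1 + r * N) * (1 + r * (N + 1))) := by
        field_simp
        ring
      rw [e, div_le_div_iff₀ (by positivity) (by positivity)]
      nlinarith [sq_nonneg (r * (N + 1) - 1), mul_pos hr h4]
    linarith

theorem gs_range_le {r : ℝ} (hr : 0 < r) (N : ℕ) : ∑ j ∈ range N, gs (r * j) ≤ 1 + 2 / r := by
  have h1 := gs_tele hr N
  rw [sum_range_succ] at h1
  have h2 := gs_pos (r * N)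
  have h3 : 0 ≤ 2 / r * (1 / (1 + r * N)) := by positivity
  linarith

theorem gs_dist (r : ℝ) {x : ℝ} {j : ℕ} (h : (j : ℝ) ≤ |x|) : gs (r * x) ≤ gs (r * j) := by
  refine gs_anti ?_
  rw [abs_mul, abs_mul, Nat.abs_cast]
  exact mul_le_mul_of_nonneg_left h (abs_nonneg r)

theorem gs_sum_le {r : ℝ} (hr : 0 < r) (c : ℝ) (s : Finset ℤ) :
    ∑ b ∈ s, gs (r * (b - c)) ≤ 2 * (1 + 2 / r) :=
  gs_two_side _ c (fun j => gs (r * j)) (fun _ => (gs_pos _).le) (gs_range_le hr) s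
    fun _ _ _ h => gs_dist r h

theorem gs_summable {r : ℝ} (hr : 0 < r) (c : ℝ) : Summable fun b : ℤ => gs (r * (b - c)) :=
  summable_of_sum_le (fun _ => (gs_pos _).le) (gs_sum_le hr c)

theorem t_GS2 : S_GS2 := by
  intro r c hr
  refine ((gs_summable hr c).tsum_le_of_sum_le (gs_sum_le hr c)).trans ?_
  have e : 2 / r = 2 * (1 / r) := by ring
  rw [e]
  linarith

theorem gs_cast (x : ℝ) : (gs x : ℂ) = Complex.exp (-(π * (x : ℂ) ^ 2)) := by
  rw [gs, Complex.ofReal_exp]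
  push_cast
  rfl

theorem t_GS1 : S_GS1 := by
  intro r t c hr
  refine ⟨gs_summable hr c, ?_⟩
  have hr' : (r : ℂ) ≠ 0 := Complex.ofReal_ne_zero.2 hr.ne'
  have ha : 0 < ((r : ℂ) ^ 2).re := by
    rw [← Complex.ofReal_pow, Complex.ofReal_re]
    positivity
  have h := Complex.tsum_exp_neg_quadratic ha ((r : ℂ) ^ 2 * c + Complex.I * t)
  have hs : ((r : ℂ) ^ 2) ^ (1 / 2 : ℂ) = r := by
    have h1 : ((r ^ 2 : ℝ) : ℂ) ^ ((1 / 2 : ℝ) : ℂ) = (((r ^ 2) ^ (1 / 2 : ℝ) : ℝ) : ℂ) :=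
      (Complex.ofReal_cpow (sq_nonneg r) _).symm
    rw [← Real.sqrt_eq_rpow, Real.sqrt_sq hr.le] at h1
    push_cast at h1
    exact h1
  have hL : ∀ n : ℤ, Complex.exp (-π * (r : ℂ) ^ 2 * (n : ℂ) ^ 2 +
      2 * π * ((r : ℂ) ^ 2 * c + Complex.I * t) * n) =
      Complex.exp (π * (r : ℂ) ^ 2 * (c : ℂ) ^ 2) * (ee (t * n) * (gs (r * (n - c)) : ℂ)) := by
    intro n
    rw [gs_cast, ee, ← Complex.exp_add, ← Complex.exp_add]
    congr 1
    push_cast
    ring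
  have hR : ∀ n : ℤ, Complex.exp (-π / (r : ℂ) ^ 2 *
      (n + Complex.I * ((r : ℂ) ^ 2 * c + Complex.I * t)) ^ 2) =
      Complex.exp (π * (r : ℂ) ^ 2 * (c : ℂ) ^ 2) *
        ((gs ((n - t) / r) : ℂ) * ee ((t - n) * c)) := by
    intro n
    rw [gs_cast, ee, ← Complex.exp_add, ← Complex.exp_add]
    congr 1
    have e : (n : ℂ) + Complex.I * ((r : ℂ) ^ 2 * c + Complex.I * t) =
        n - t + Complex.I * ((r : ℂ) ^ 2 * c) := by
      linear_combination (t : ℂ) * Complex.I_mul_I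
    rw [e]
    push_cast
    field_simp
    linear_combination (-(r : ℂ) ^ 4 * (c : ℂ) ^ 2) * Complex.I_mul_I
  simp only [hL, hR, tsum_mul_left, hs] at h
  refine mul_left_cancel₀ (Complex.exp_ne_zero (π * (r : ℂ) ^ 2 * (c : ℂ) ^ 2)) ?_
  rw [h]
  push_cast
  ring

theorem gs_sqrt_le (u : ℝ) : gs u * √|u| ≤ gs (u / 2) := by
  have h1 : √|u| ≤ 1 + u ^ 2 := by
    have h2 := Real.sq_sqrt (abs_nonneg u)
    have h3 := sq_abs u
    nlinarith [sq_nonneg (√|u| - 1), sq_nonneg (|u| - 1), abs_nonneg u]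
  have h2 := Real.add_one_le_exp (3 / 4 * π * u ^ 2)
  have h3 := Real.pi_gt_three
  have h4 := sq_nonneg u
  have h5 : √|u| ≤ Real.exp (3 / 4 * π * u ^ 2) := by nlinarith
  have e : gs (u / 2) = gs u * Real.exp (3 / 4 * π * u ^ 2) := by
    rw [gs, gs, ← Real.exp_add]
    congr 1
    ring
  rw [e]
  exact mul_le_mul_of_nonneg_left h5 (gs_pos u).le

theorem gs_3a (κ t : ℝ) (s : Finset ℤ) (hκ : 0 < κ) :
    ∑ m ∈ s, gs (κ * (m - t)) * √|m - t| ≤ 10 * (1 + 1 / κ) / √κ := by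
  have hs : 0 < √κ := Real.sqrt_pos.2 hκ
  rw [le_div_iff₀ hs, sum_mul]
  have h1 : ∀ m ∈ s, gs (κ * (m - t)) * √|m - t| * √κ ≤ gs (κ / 2 * (m - t)) := by
    intro m _
    have h2 := gs_sqrt_le (κ * (m - t))
    rw [abs_mul, abs_of_pos hκ, Real.sqrt_mul hκ.le] at h2
    have e : κ * (m - t) / 2 = κ / 2 * (m - t) := by ring
    rw [e] at h2
    linarith
  refine (sum_le_sum h1).trans ((gs_sum_le (half_pos hκ) t s).trans ?_)
  have e : 2 / (κ / 2) = 4 * (1 / κ) := by field_simp; norm_num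
  have h2 : 0 < 1 / κ := by positivity
  rw [e]
  linarith

theorem gs_3b_range {κ : ℝ} (hκ : 0 < κ) (hκ1 : κ ≤ 1) (N : ℕ) :
    ∑ j ∈ range N, gs (κ * j) / √(j : ℝ) ≤ 5 * (1 / √κ) := by
  have hs : 0 < √κ := Real.sqrt_pos.2 hκ
  have hs2 : √κ * √κ = κ := Real.mul_self_sqrt hκ.le
  have h1 : ∀ j ∈ range N, gs (κ * j) / √(j : ℝ) ≤
      (if j ∈ Ioc 0 ⌊1 / κ⌋₊ then 1 / √(j : ℝ) else 0) + √κ * gs (κ * j) := by
    intro j _
    have hg := gs_pos (κ * j)
    have h2 : 0 ≤ √κ * gs (κ * j) := by positivity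
    split_ifs with hj
    · have h3 : gs (κ * j) / √(j : ℝ) ≤ 1 / √(j : ℝ) :=
        div_le_div_of_nonneg_right (gs_le_one _) (Real.sqrt_nonneg _)
      linarith
    · rcases Nat.eq_zero_or_pos j with rfl | h0
      · simpa using h2
      · have h3 : ⌊1 / κ⌋₊ < j := by
          by_contra h4
          exact hj (mem_Ioc.2 ⟨h0, not_lt.1 h4⟩)
        have h4 : 1 / κ < j := (Nat.floor_lt (by positivity)).1 h3
        have h5 : 1 ≤ κ * j := by
          rw [div_lt_iff₀ hκ] at h4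
          linarith
        have h6 : 1 ≤ √κ * √(j : ℝ) := by
          rw [← Real.sqrt_mul hκ.le]
          exact Real.one_le_sqrt.2 h5
        have h7 : 0 < √(j : ℝ) := Real.sqrt_pos.2 (by exact_mod_cast h0)
        rw [zero_add, div_le_iff₀ h7]
        nlinarith
  refine (sum_le_sum h1).trans ?_
  rw [sum_add_distrib, ← mul_sum, sum_ite_mem]
  have h2 : ∑ j ∈ range N ∩ Ioc 0 ⌊1 / κ⌋₊, 1 / √(j : ℝ) ≤ 2 * (1 / √κ) := by
    refine (sum_le_sum_of_subset_of_nonneg inter_subset_right fun j _ _ => by positivity).trans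
      ((Pool.Agent.P.MP_e86632_nt.sum_inv_sqrt_le _).trans ?_)
    have h3 : √((⌊1 / κ⌋₊ : ℕ) : ℝ) ≤ √(1 / κ) := Real.sqrt_le_sqrt (Nat.floor_le (by positivity))
    rw [Real.sqrt_div zero_le_one, Real.sqrt_one] at h3
    linarith
  have h3 : √κ * ∑ j ∈ range N, gs (κ * j) ≤ √κ * (1 + 2 / κ) :=
    mul_le_mul_of_nonneg_left (gs_range_le hκ N) hs.le
  have h4 : √κ * (1 + 2 / κ) = √κ + 2 * (1 / √κ) := by
    field_simp
    nlinarith
  have h5 : √κ ≤ 1 / √κ := by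
    rw [le_div_iff₀ hs]
    linarith
  linarith

theorem gs_3b (κ δ t : ℝ) (s : Finset ℤ) (hκ : 0 < κ) (hκ1 : κ ≤ 1) (hδ : 0 < δ)
    (hs : ∀ m ∈ s, δ ≤ |m - t|) :
    ∑ m ∈ s, gs (κ * (m - t)) / √|m - t| ≤ 10 * (1 / √δ + 1 / √κ) := by
  have hd : 0 < √δ := Real.sqrt_pos.2 hδ
  have h1 : ∀ N, ∑ j ∈ range N, ((if j = 0 then 1 / √δ else 0) + gs (κ * j) / √(j : ℝ)) ≤
      1 / √δ + 5 * (1 / √κ) := by
    intro N
    rw [sum_add_distrib, sum_ite_eq']
    refine add_le_add ?_ (gs_3b_range hκ hκ1 N)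
    split_ifs
    · exact le_rfl
    · positivity
  have h2 := gs_two_side (fun m => gs (κ * (m - t)) / √|m - t|) t _ (fun j => by
    have := gs_pos (κ * j)
    split_ifs <;> positivity) h1 s (by
    intro m hm j hj
    rcases Nat.eq_zero_or_pos j with rfl | h0
    · have h3 : gs (κ * (m - t)) / √|m - t| ≤ 1 / √δ :=
        div_le_div₀ zero_le_one (gs_le_one _) hd (Real.sqrt_le_sqrt (hs m hm))
      simpa using h3
    · rw [if_neg h0.ne', zero_add]
      exact div_le_div₀ (gs_pos _).le (gs_dist κ hj)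
        (Real.sqrt_pos.2 (by exact_mod_cast h0)) (Real.sqrt_le_sqrt hj))
  have h3 : 0 < 1 / √δ := by positivity
  linarith

theorem t_GS3 : S_GS3 :=
  ⟨10, by norm_num, gs_3a, fun κ δ t s h1 h2 h3 _ h5 => gs_3b κ δ t s h1 h2 h3 h5⟩

end Pool.Agent.P.MP_8be758_nt.Avg
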