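import Pool.Agent.P.MP_8be758_nt.Avg.Defs

/-! Statements of the steps of the proof. -/

namespace Pool.Agent.P.MP_8be758_nt.Avg

open Finset Real Filter Topology
open Pool.Agent.P.MP_e86632_nt (ee)
open ArithmeticFunction (moebius vonMangoldt)

/-! ### Gaussian sums, double large sieve, multipliers, large sieve -/

def S_GS1 : Prop := ∀ r t c : ℝ, 0 < r →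
  Summable (fun b : ℤ => gs (r * (b - c))) ∧
  ∑' b : ℤ, ee (t * b) * (gs (r * (b - c)) : ℂ) =
    ((1 / r : ℝ) : ℂ) * ∑' m : ℤ, (gs ((m - t) / r) : ℂ) * ee ((t - m) * c)

def S_GS2 : Prop := ∀ r c : ℝ, 0 < r → ∑' b : ℤ, gs (r * (b - c)) ≤ 4 * (1 + 1 / r)

def S_GS3 : Prop := ∃ C : ℝ, 0 < C ∧
  (∀ (κ t : ℝ) (s : Finset ℤ), 0 < κ →
    ∑ m ∈ s, gs (κ * (m - t)) * √|m - t| ≤ C * (1 + 1 / κ) / √κ) ∧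
  ∀ (κ δ t : ℝ) (s : Finset ℤ), 0 < κ → κ ≤ 1 → 0 < δ → δ ≤ 1 → (∀ m ∈ s, δ ≤ |m - t|) →
    ∑ m ∈ s, gs (κ * (m - t)) / √|m - t| ≤ C * (1 / √δ + 1 / √κ)

def S_DLS : Prop := ∃ C : ℝ, 0 < C ∧
  ∀ (I J : Finset ℕ) (x y : ℕ → ℝ) (X Y dx dy : ℝ), 0 < X → 0 < Y → 0 < dx → 0 < dy →
    (∀ a ∈ I, |x a| ≤ X) → (∀ b ∈ J, |y b| ≤ Y) →
    (∀ a ∈ I, ∀ a' ∈ I, a ≠ a' → dx ≤ |x a - x a'|) →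
    (∀ b ∈ J, ∀ b' ∈ J, b ≠ b' → dy ≤ |y b - y b'|) →
    BB I J (fun a b => ee (x a * y b))
      (C * √((1 + X * Y) * (1 + 1 / (Y * dx)) * (1 + 1 / (X * dy))))

def S_SEP : Prop := ∃ C : ℝ, 0 < C ∧
  ∀ (A B K ξ μ D : ℝ) (I J : Finset ℕ) (Kr : ℕ → ℕ → ℂ), 0 < A → 0 < B → 0 < K → 0 < μ → 0 ≤ D →
    Rng A I → Rng A J → BB I J Kr D →
    BB I J (fun a b => ((psi B (sg a b ^ 2 / μ ^ 2) * (K / √((a : ℝ) * b)) *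
        gs (ξ * K / √((a : ℝ) * b)) : ℝ) : ℂ) * Kr a b)
      (C * min 1 (A / (B * μ ^ 2)) * (K / A) * gs (ξ * K / (2 * A)) * D)

def S_LS : Prop := ∃ C : ℝ, 0 < C ∧
  ∀ (ι : Type) (R : Finset ι) (θ : ι → ℝ) (δ H : ℝ) (I : Finset ℕ) (γ : ℕ → ℂ),
    0 < δ → δ ≤ 1 → 0 ≤ H → (∀ a ∈ I, (a : ℝ) ≤ H) →
    (∀ r ∈ R, ∀ s ∈ R, r ≠ s → ∀ k : ℤ, δ ≤ |θ r - θ s - k|) →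
    ∑ r ∈ R, ‖ft I γ (θ r)‖ ^ 2 ≤ C * (H + 1 / δ) * nsq I γ

def S_LSW : Prop := ∃ C : ℝ, 0 < C ∧
  ∀ (Q Q' : ℕ) (H : ℝ) (I : Finset ℕ) (γ : ℕ → ℂ), 1 ≤ Q → 0 ≤ H → (∀ a ∈ I, (a : ℝ) ≤ H) →
    ∑ q ∈ Ioc Q Q', 1 / (q : ℝ) * en I γ q ≤ C * (H / Q + Q') * nsq I γ

def S_FAR : Prop :=
  (∀ (F : ℝ → ℂ) (ν : ℕ), 0 < ν →
    ∑ r ∈ range ν, F ((r : ℝ) / ν) = ∑ q ∈ ν.divisors, ∑ r ∈ red q, F ((r : ℝ) / q)) ∧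
  (∀ (ν : ℕ) (h : ℤ), 0 < ν →
    ∑ r ∈ range ν, ee ((r : ℝ) / ν * h) = if (ν : ℤ) ∣ h then (ν : ℂ) else 0) ∧
  ∀ q m : ℕ, 0 < q → m.Coprime q → ∑ r ∈ red q, ee ((r : ℝ) / q * m) = (moebius q : ℂ)

/-! ### Sieve estimates -/

def S_GT : Prop := ∃ c : ℝ, 0 < c ∧ ∀ T Y : ℝ, 2 ≤ T → 1 ≤ Y →
  c * Real.log Y / Real.log T ≤
    ∑ q ∈ (Icc 1 ⌊Y⌋₊).filter (fun q => Squarefree q ∧ Rough T q), 1 / (q : ℝ)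

def S_HR : Prop := ∃ C : ℝ, 0 < C ∧ ∀ z Y : ℝ, 2 ≤ z → z ≤ Y →
  0 ≤ Vz z ∧ Vz z ≤ C / Real.log z ∧
    ∑ d ∈ (Icc 1 ⌊Y⌋₊).filter (Rough z), 1 / (d : ℝ) ≤ C * Real.log Y / Real.log z

def S_NSQ : Prop := ∀ (z Y : ℝ) (S : Finset ℕ), 2 ≤ z → 1 ≤ Y →
  (∀ b ∈ S, (b : ℝ) ≤ Y ∧ Rough z b ∧ ¬ Squarefree b) →
  (S.card : ℝ) ≤ 2 * Y / z ∧ ∑ b ∈ S, 1 / (b : ℝ) ≤ 2 * (1 + Real.log Y) / z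

def S_TAU : Prop := ∀ (z : ℝ) (s m : ℕ), 1 < z → Rough z m → (m : ℝ) ≤ z ^ s →
  m.divisors.card ≤ 2 ^ s

def S_DIV : Prop := ∀ e : ℝ, 0 < e → ∃ C : ℝ, 0 < C ∧ ∀ m : ℕ, (m.divisors.card : ℝ) ≤ C * (m : ℝ) ^ e

def S_SIFT : Prop := ∃ C : ℝ, 0 < C ∧
  ∀ (z H : ℝ) (R Q : ℕ) (I : Finset ℕ) (γ : ℕ → ℂ), 2 ≤ z → 2 ≤ R → (Q : ℝ) ^ 2 * z ^ 2 ≤ H →
    (∀ a ∈ I, (a : ℝ) ≤ H) → (∀ a ∈ I, γ a ≠ 0 → Rough z a) →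
    ∑ q ∈ Ioc R Q, 1 / (q : ℝ) * en I γ q ≤ C * (Real.log R / R) * H / Real.log z * nsq I γ

def S_NU : Prop := ∃ C : ℝ, 0 < C ∧ ∀ Z : ℝ, 2 ≤ Z → ∃ (ν : ℤ → ℝ) (nb : ℝ),
  NuData ν nb (Z ^ 2) (1 / (2 * Z ^ 2)) ∧ nb ≤ C / Real.log Z ∧ ∀ b : ℕ, Rough Z b → ν b = 1

def S_RC : Prop := ∃ C : ℝ, 0 < C ∧ ∀ (z x H : ℝ) (S : Finset ℕ), 2 ≤ z → z ^ 5 ≤ H →
  (∀ m ∈ S, x < m ∧ (m : ℝ) ≤ x + H ∧ Rough z m) → (S.card : ℝ) ≤ C * H / Real.log z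

def S_FL : Prop := ∃ C1 : ℕ, ∀ s : ℕ, 1 ≤ s → ∀ z : ℝ, 2 ≤ z →
  ∃ lam Del : Finset ℕ → ℝ, FLData z (z ^ (C1 * s)) (Vz z / 2 ^ s) lam Del

/-! ### Quadratic characters -/

def S_CHI : Prop :=
  (∀ k m : ℕ, 1 ≤ k → Odd m → (jacobiSym (1 - 4 * (k : ℤ)) m : ℝ) = chi k m) ∧
  (∀ k1 k2 M : ℕ, 1 ≤ k1 → 1 ≤ k2 → ¬ IsSquare ((4 * k1 - 1) * (4 * k2 - 1)) →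
    |∑ m ∈ Icc 1 M, chi k1 m * chi k2 m| ≤ 16 * k1 * k2) ∧
  (∀ m K : ℕ, Odd m → ¬ IsSquare m → |∑ k ∈ Icc 1 K, chi k m| ≤ m) ∧
  ∀ k x : ℕ, 1 ≤ k → |∑ n ∈ Icc 1 x, chi k n| ≤ 4 * k

def S_ROOT : Prop :=
  (∀ k q1 q2 : ℕ, q1.Coprime q2 → rho k (q1 * q2) = rho k q1 * rho k q2) ∧
  (∀ k p : ℕ, 1 ≤ k → p.Prime → p ≠ 2 → (rho k p : ℝ) = 1 + chi k p) ∧
  (∀ k : ℕ, Odd k → rho k 2 = 0) ∧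
  (∀ k b : ℕ, 1 ≤ k → Odd b → Squarefree b →
    (rho k b : ℝ) = ∑ e ∈ b.divisors, chi k e ∧ rho k b ≤ b.divisors.card) ∧
  (∀ q K : ℕ, 0 < q → |∑ k ∈ Icc 1 K, (rho k q : ℝ) - K| ≤ q) ∧
  ∀ W m K : ℕ, 0 < W → ∑ k ∈ Icc 1 K, (vr W k m : ℝ) ≤ K + W

def S_SGW : Prop :=
  (∀ k R : ℕ, (((range R.factorial).filter fun n => (n ^ 2 + n + k).Coprime R.factorial).card : ℝ) =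
    sing R k * R.factorial.totient) ∧
  (∀ k R : ℕ, 0 ≤ sing R k) ∧
  (∀ (k R : ℕ) (z : ℝ), 1 ≤ k → 2 ≤ R → (R : ℝ) ≤ z →
    ∏ p ∈ PL z, (1 - (rho k p : ℝ) / p) = sing R k * Vz z * TT k R z ∧
    ∏ p ∈ PL z, (1 - (rho k (Nat.gcd p R.factorial) : ℝ) / p) = sing R k * Vz z) ∧
  (∀ k R R' : ℕ, 1 ≤ k → 2 ≤ R → R ≤ R' → sing R' k = sing R k * TT k R R') ∧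
  (∀ k R y : ℕ, Odd k → 2 ≤ R → R ≤ y → 2 * prodC k y = sing R k * TT k R y) ∧
  ∀ k R : ℕ, Odd k → 2 ≤ R → 1 / 2 ^ R ≤ sing R k

def S_DIR : Prop := ∃ C : ℝ, 0 < C ∧ ∀ (R K : ℕ) (Y : ℝ) (S : Finset ℕ) (γ : ℕ → ℝ), 2 ≤ R →
  (∀ n ∈ S, 1 < n ∧ (n : ℝ) ≤ Y ∧ Rough R n ∧ |γ n| ≤ 2 / n) →
  ∑ k ∈ Icc 1 K, (∑ n ∈ S, γ n * chi k n) ^ 2 ≤ C * K / √R + 4 * Y ^ 2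

def S_CHAR : Prop := ∀ e : ℝ, 0 < e → ∃ c : ℝ, 0 < c ∧ ∀ᶠ K : ℕ in atTop,
  ∀ (S : Finset ℕ) (γ : ℕ → ℝ), (∀ m ∈ S, (K : ℝ) ^ e < m ∧ m ≤ K ^ 3 ∧ |γ m| ≤ 1 / m) →
    ∑ k ∈ Icc 1 K, |∑ m ∈ S, γ m * chi k m| ≤ (K : ℝ) ^ (1 - c)

def S_RHO : Prop := ∀ e : ℝ, 0 < e → ∃ c : ℝ, 0 < c ∧ ∀ᶠ K : ℕ in atTop,
  ∀ (S : Finset ℕ) (γ : ℕ → ℝ),
    (∀ b ∈ S, Squarefree b ∧ Rough ((K : ℝ) ^ e) b ∧ b ≤ K ^ 2 ∧ |γ b| ≤ 1 / b) →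
    ∑ k ∈ Icc 1 K, |∑ b ∈ S, γ b * ((rho k b : ℝ) - 1)| ≤ (K : ℝ) ^ (1 - c)

def S_SS1 : Prop := ∀ ε : ℝ, 0 < ε → ∃ R0 : ℕ, 2 ≤ R0 ∧ ∀ R : ℕ, R0 ≤ R → ∀ᶠ K : ℕ in atTop,
  ∀ w : ℝ, w ^ 3 ≤ K → (((Icc 1 K).filter fun k => ε < |TT k R w - 1|).card : ℝ) ≤ ε * K

def S_MERT : Prop := ∀ (χ : ℕ → ℝ) (Q L : ℝ), χ 1 = 1 → (∀ m n, χ (m * n) = χ m * χ n) →
  (∀ n, |χ n| ≤ 1) → (∀ x : ℕ, |∑ n ∈ Icc 1 x, χ n| ≤ Q) → L ≠ 0 →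
  Tendsto (fun x : ℕ => ∑ n ∈ Icc 1 x, χ n / n) atTop (𝓝 L) →
  Tendsto (fun y : ℕ => ∏ p ∈ Nat.primesLE y, (1 - χ p / p)) atTop (𝓝 L⁻¹)

open Classical in
def S_LW : Prop :=
  (∀ k R x : ℕ, 1 ≤ k → |∑ n ∈ (Icc 1 x).filter (Rough R), chi k n| ≤ 4 * k * 2 ^ R) ∧
  ∀ ε : ℝ, 0 < ε → ∃ R0 : ℕ, 2 ≤ R0 ∧ ∀ R : ℕ, R0 ≤ R → ∀ᶠ K : ℕ in atTop,
    (((Icc 1 K).filter fun k => ¬ ∃ L : ℝ,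
      Tendsto (fun x : ℕ => ∑ n ∈ (Icc 1 x).filter (Rough R), chi k n / n) atTop (𝓝 L) ∧
        |L - 1| ≤ ε).card : ℝ) ≤ ε * K

open Classical in
def S_SS2 : Prop := ∀ ε : ℝ, 0 < ε → ∃ R0 : ℕ, 2 ≤ R0 ∧ ∀ R : ℕ, R0 ≤ R → ∀ᶠ K : ℕ in atTop,
  (((Icc 1 K).filter fun k => ¬ ∃ T : ℝ,
    Tendsto (fun y : ℕ => TT k R y) atTop (𝓝 T) ∧ |T - 1| ≤ ε).card : ℝ) ≤ ε * K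

open Classical in
def S_SING : Prop := ∀ ε : ℝ, 0 < ε → ∃ c0 : ℝ, 0 < c0 ∧ ∀ ε' : ℝ, 0 < ε' →
  ∃ R1 : ℕ, ∀ R : ℕ, R1 ≤ R → ∀ᶠ K : ℕ in atTop,
    (((Icc 1 K).filter fun k => Odd k ∧ ¬ (c0 ≤ sing R k ∧ ∃ C : ℝ,
      Tendsto (prodC k) atTop (𝓝 C) ∧ |2 * C - sing R k| ≤ ε' * sing R k)).card : ℝ) ≤ ε * K

/-! ### The dispersion estimate -/

def S_D1 : Prop := ∀ (α : ℕ → ℝ) (I : Finset ℕ) (n0 b : ℕ), 0 < b →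
  (∀ k : ℤ, 0 ≤ Qf α I n0 b k) ∧ ∀ k : ℕ, 1 ≤ k → (∀ a ∈ I, a * b ≤ n0 ^ 2) →
    (∑ a ∈ I, α a * rr k (a * b)) ^ 2 ≤ rho k b * Qf α I n0 b k

def S_D2 : Prop := ∀ (A : ℝ) (n0 : ℕ) (I : Finset ℕ) (α : ℕ → ℝ) (w : ℕ → ℝ → ℝ),
  1 ≤ A → 2 * A ≤ n0 → Rng A I → (∀ b κ, Even b → w b κ = 0) →
  ∑ b ∈ Icc 1 n0, ∑ k ∈ KR n0, w b (4 * k - 1) * Qf α I n0 b k =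
    dg w α I n0 + offS α I n0 (offT w n0)

def S_D3 : Prop := ∃ C : ℝ, 0 < C ∧
  ∀ (A B K D τ : ℝ) (n0 : ℕ) (I : Finset ℕ) (α : ℕ → ℝ) (ν : ℤ → ℝ),
    1 ≤ B → B ≤ A → 1 ≤ K → K ≤ A * B → (n0 : ℝ) ≤ 3 * A → Rng A I → (∀ a, |α a| ≤ 1) →
    (∀ b, 0 ≤ ν b ∧ ν b ≤ D) → (∀ m : ℕ, (m : ℝ) ≤ 4 * A ^ 2 → (m.divisors.card : ℝ) ≤ τ) →
    dg (wt ν B K) α I n0 ≤ C * D * τ * √(A * B) * K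

def S_D4 : Prop := ∃ C : ℝ, 0 < C ∧
  ∀ (A B K D : ℝ) (n0 : ℕ) (I : Finset ℕ) (α : ℕ → ℝ) (ν : ℤ → ℝ),
    1 ≤ A → 0 < B → 0 < K → 2 * A ≤ n0 → Rng A I → (∀ a, |α a| ≤ 1) →
    (∀ b, 0 ≤ ν b ∧ ν b ≤ D) →
    |offS α I n0 (offT (wt ν B K) n0) - offS α I n0 (modT ν B K)| ≤
      C * D * (1 + Real.log A) * K * (A + K) / B

def S_OSC1 : Prop := ∃ C : ℝ, 0 < C ∧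
  ∀ (A B K ξ : ℝ) (n0 : ℕ) (I : Finset ℕ) (α : ℕ → ℝ),
    1 ≤ B → B ≤ A → 0 < K → (n0 : ℝ) ≤ 3 * A → Rng A I → (∀ a, |α a| ≤ 1) → ξ ≠ 0 →
    ‖osc α I B K n0 ξ‖ ≤ C * K * (1 + Real.log A) * gs (ξ * K / (2 * A)) *
      (A / B * (1 + 1 / |ξ|) + √|ξ| * √A + A / √B / √|ξ|)

def S_OSC2 : Prop := ∃ C : ℝ, 0 < C ∧
  ∀ (A B K nb D δ : ℝ) (n0 : ℕ) (I : Finset ℕ) (α : ℕ → ℝ) (ν : ℤ → ℝ),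
    1 ≤ B → B ≤ A → 0 < K → (n0 : ℝ) ≤ 3 * A → Rng A I → (∀ a, |α a| ≤ 1) →
    0 < δ → δ ≤ 1 → NuData ν nb D δ →
    |offS α I n0 (modT ν B K) - nb * K * mainS α I B n0| ≤ C * D * K * (1 + Real.log A) *
      ((1 + A / K) * (A / B) / δ + (1 + A / K) * √(1 + A / K) * √A +
        A / √B * (1 / √δ + √(1 + A / K)))

def S_RS : Prop := ∃ C I0 : ℝ, 0 < C ∧ |I0| ≤ C ∧ ∀ (x : ℝ) (j0 : ℕ), 0 < x → 1 ≤ j0 →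
  |∑ j ∈ Icc 1 j0, 1 / (j : ℝ) * psi 1 (x ^ 2 / (j : ℝ) ^ 2) - I0| ≤
    C * (min 1 (1 / √x) + x ^ 2 / (j0 : ℝ) ^ 2)

def S_LQ : Prop := ∃ C : ℝ, 0 < C ∧
  ∀ (H w : ℝ) (Q ν0 : ℕ) (I : Finset ℕ) (γ : ℕ → ℝ), 0 ≤ H → 0 < w → 1 ≤ Q →
    (∀ a ∈ I, (a : ℝ) ≤ H) →
    ∑ q ∈ Ioc Q ν0, ∑ r ∈ red q, ∑ ν ∈ (Icc 1 ν0).filter (q ∣ ·), 1 / (ν : ℝ) *
      ‖∑ a1 ∈ I, ∑ a2 ∈ I, ((γ a1 * γ a2 * gs (sg a1 a2 / (ν * w)) : ℝ) : ℂ) *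
        ee ((r : ℝ) / q * ((a2 : ℝ) - a1))‖ ≤
      C * (1 + Real.log ν0) * (H / Q + ν0) * ∑ a ∈ I, γ a ^ 2

def S_SQ : Prop := ∃ C : ℝ, 0 < C ∧
  ∀ (A B : ℝ) (e0 Q ν0 : ℕ) (I : Finset ℕ) (α : ℕ → ℝ), 1 ≤ A → 1 / 4 ≤ B → 1 ≤ e0 → e0 ≤ 4 →
    1 ≤ Q → 4 * Q ≤ ν0 → Rng A I → (∀ a, |α a| ≤ 1) →
    ∑ q ∈ Icc 1 Q, ∑ r ∈ red q,
      ‖∑ ν ∈ (Icc 1 ν0).filter (fun ν => q ∣ ν ∧ e0 ∣ ν), ((1 / (ν : ℝ) : ℝ) : ℂ) *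
        ∑ a1 ∈ I, ∑ a2 ∈ I, ((α a1 / √(a1 : ℝ) * (α a2 / √(a2 : ℝ)) *
          psi B (sg a1 a2 ^ 2 / (ν : ℝ) ^ 2) : ℝ) : ℂ) * ee ((r : ℝ) / q * ((a2 : ℝ) - a1))‖ ≤
      C * (enS I (gam α) Q + Q * A * (A / B) / (ν0 : ℝ) ^ 2 + A * Q * √(Q / √(A / B)))

def S_MAIN : Prop := ∃ C : ℝ, 0 < C ∧
  ∀ (A B : ℝ) (n0 Q ν0 : ℕ) (I : Finset ℕ) (α : ℕ → ℝ), 1 ≤ B → B ≤ A → 2 * A ≤ n0 →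
    (n0 : ℝ) ≤ 3 * A → 1 ≤ Q → 4 * Q ≤ ν0 → ν0 ≤ n0 → Rng A I → (∀ a, |α a| ≤ 1) →
    |mainS α I B n0| ≤ C * (enS I (gam α) Q + Q * A * (A / B) / (ν0 : ℝ) ^ 2 +
      (1 + Real.log A) * (A / Q + ν0) + A * Q * √(Q / √(A / B)))

def S_DISP : Prop := ∃ C : ℝ, 0 < C ∧
  ∀ (A B Z nb : ℝ) (K : ℕ) (I S : Finset ℕ) (α : ℕ → ℝ) (ν : ℤ → ℝ),
    2 ≤ Z → Z ^ 16 * B ≤ A → Z ^ 10 ≤ B → Z ^ 8 * A ^ 2 ≤ (K : ℝ) ^ 3 → Z ^ 8 * A ≤ B * K →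
    Z ^ 5 * K ≤ A * B → 1 + Real.log A ≤ Z →
    (∀ m : ℕ, (m : ℝ) ≤ 4 * A ^ 2 → (m.divisors.card : ℝ) ≤ Z) →
    Rng A I → (∀ a, |α a| ≤ 1) → NuData ν nb (Z ^ 2) (1 / (2 * Z ^ 2)) →
    (∀ b ∈ S, B ≤ b ∧ (b : ℝ) ≤ 2 * B ∧ 1 ≤ ν b) →
    ∑ k ∈ Icc 1 K, ∑ b ∈ S, Qf α I ⌈2 * A⌉₊ b k ≤
      C * K * (nb * enS I (gam α) ⌊Z ^ 2⌋₊ + A / Z)

/-! ### Type II sums -/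

def S_PS : Prop :=
  (∀ (f : ℕ → ℝ) (q n1 n2 : ℕ), 0 < q → n1 ≤ n2 → (∀ n, f (n + q) = f n) →
    |∑ n ∈ Ico n1 n2, f n - ((n2 : ℝ) - n1) / q * ∑ n ∈ range q, f n| ≤
      2 * ∑ n ∈ range q, |f n|) ∧
  (∀ (g : ℕ → ℝ) (W T1 T2 : ℕ), 0 < W → T1 ≤ T2 → (∀ n, g (n + W) = g n) →
    |∑ t ∈ Ioc T1 T2, g t / (2 * √(t : ℝ)) - (√(T2 : ℝ) - √(T1 : ℝ)) / W * ∑ t ∈ range W, g t| ≤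
      6 * ∑ t ∈ range W, |g t|) ∧
  ∀ k X : ℕ, 1 ≤ k → 1 ≤ X → ∃ c : ℕ, (∀ n, n ^ 2 + n + k ≤ X ↔ n < c) ∧
    |(c : ℝ) - √(X : ℝ)| ≤ 1 + k / √(X : ℝ)

def S_UP : Prop := ∃ C : ℝ, 0 < C ∧ ∀ (A B : ℝ) (K : ℕ) (S1 S2 : Finset ℕ), 1 ≤ A → 1 ≤ B → 1 ≤ K →
  (∀ b ∈ S1, B ≤ b ∧ (b : ℝ) ≤ 4 * B) → (∀ a ∈ S2, A ≤ a ∧ (a : ℝ) ≤ 4 * A) →
  ∑ k ∈ Icc 1 K, ∑ b ∈ S1, ∑ a ∈ S2, rr k (a * b) ≤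
    C * (K / √(A * B) * S1.card * S2.card + √(A * B) * √(√(A * B) * (A + B) / K))

def S_UPD : Prop := ∃ C : ℝ, 0 < C ∧ ∀ W : ℕ, 1 ≤ W → ∀ᶠ N : ℝ in atTop,
  ∀ (K : ℕ) (B : ℝ) (S1 S2 : Finset ℕ), N ^ (4 / 5 : ℝ) ≤ K → N ^ (2 / 3 : ℝ) ≤ B →
    B ≤ N ^ (4 / 3 : ℝ) → (∀ b ∈ S1, B ≤ b ∧ (b : ℝ) ≤ 2 * B) →
    (∀ a ∈ S2, N ^ 2 / (2 * B) ≤ a ∧ (a : ℝ) ≤ 2 * N ^ 2 / B) →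
    ∑ k ∈ Icc 1 K, ∑ b ∈ S1, ∑ a ∈ S2, |dd W k (a * b)| ≤
      C * (K / N) * S1.card * S2.card + K * N / Real.log N ^ 4

def S_PER0 : Prop := ∃ C : ℝ, 0 < C ∧ ∀ (W k b A1 A2 : ℕ) (f : ℕ → ℝ), 1 ≤ W → 1 ≤ k → 1 ≤ b →
  b.Coprime W → 1 ≤ A1 → A1 ≤ A2 → (∀ a, |f a| ≤ 1) → (∀ a, f (a + W) = f a) →
  |∑ a ∈ Ioc A1 A2, f a * dd W k (a * b) - (√(A2 : ℝ) - √(A1 : ℝ)) / (W * √(b : ℝ)) *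
      (∑ s ∈ range W, f s * vr W k (s * b)) * ((rho k b : ℝ) - 1)| ≤
    C * W ^ 2 * (1 + rho k b) * (1 + k / (b * √((A1 : ℝ) * b)))

def S_PER : Prop := ∀ e1 eg : ℝ, 0 < e1 → 0 < eg → ∀ W : ℕ, 1 ≤ W → ∀ᶠ N : ℝ in atTop,
  ∀ (K : ℕ) (B : ℝ) (A1 A2 : ℕ) (S : Finset ℕ) (f β : ℕ → ℝ), Box (4 / 5) e1 eg N K B A1 A2 S →
    (∀ a, |f a| ≤ 1) → (∀ a, f (a + W) = f a) → (∀ b, |β b| ≤ 1) →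
    ∑ k ∈ Icc 1 K, |∑ b ∈ S, ∑ a ∈ Ioc A1 A2, β b * f a * dd W k (a * b)| ≤
      K * N / Real.log N ^ 3

def S_PROJ : Prop := ∃ C : ℝ, 0 < C ∧ ∀ (A1 A2 R Q : ℕ) (z : ℝ) (α : ℕ → ℝ), 2 ≤ R → 2 ≤ z →
  4 * A2 ≤ 5 * A1 → (Q : ℝ) ^ 2 * z ^ 2 ≤ A1 → z ^ 5 ≤ A1 → (∀ a, |α a| ≤ 1) →
  (∀ a, α a ≠ 0 → Rough z a) →
  ∃ f : ℕ → ℝ, (∀ a, |f a| ≤ 1) ∧ (∀ a, f (a + R.factorial) = f a) ∧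
    (∀ k b : ℕ, ∑ a ∈ Ioc A1 A2, (α a - f a) * md R.factorial k (a * b) = 0) ∧
    enS (Ioc A1 A2) (gam fun a => α a - f a) Q ≤
      C * (Real.log R / R * A1 / Real.log z ^ 2 + (R.factorial : ℝ) ^ 2 * Q ^ 3 / A1)

def S_BX (θ : ℝ) : Prop := ∀ e1 : ℝ, 0 < e1 → e1 ≤ 1 / 10 → ∃ g0 : ℝ, 0 < g0 ∧
  ∀ eg : ℝ, 0 < eg → eg ≤ g0 → ∃ C : ℝ, 0 < C ∧ ∀ R : ℕ, 2 ≤ R → ∀ᶠ N : ℝ in atTop,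
    ∀ (K : ℕ) (B : ℝ) (A1 A2 : ℕ) (S : Finset ℕ) (α β : ℕ → ℝ), Box θ e1 eg N K B A1 A2 S →
      (∀ a, |α a| ≤ 1) → (∀ a, α a ≠ 0 → Rough (N ^ e1) a) → (∀ b, |β b| ≤ 1) →
      ∑ k ∈ Icc 1 K, |∑ b ∈ S, ∑ a ∈ Ioc A1 A2, β b * α a * dd R.factorial k (a * b)| ≤
        C * √(Real.log R / R) * K * N / Real.log N ^ 2

def S_HALF (θ : ℝ) : Prop := ∀ e1 : ℝ, 0 < e1 → e1 ≤ 1 / 10 → ∃ g0 : ℝ, 0 < g0 ∧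
  ∀ eg : ℝ, 0 < eg → eg ≤ g0 → ∀ ε : ℝ, 0 < ε → ∃ R1 : ℕ, ∀ R : ℕ, R1 ≤ R → ∀ᶠ N : ℝ in atTop,
    ∀ (K X1 X2 : ℕ) (φ ψ : ℕ → ℝ), Setup θ N K X1 X2 → Coef (N ^ e1) (N ^ (2 / 3 : ℝ)) φ →
      (∀ u, φ u ≠ 0 → (u : ℝ) ≤ N ^ (1 - eg)) → Coef (N ^ e1) 0 ψ →
      ∑ k ∈ Icc 1 K, |bil X1 X2 φ ψ (dd R.factorial k)| ≤ ε * K * N / Real.log N

def S_GAP : Prop := ∃ C : ℝ, 0 < C ∧ ∀ e1 eg : ℝ, 0 < e1 → e1 ≤ 1 / 10 → 0 < eg → eg ≤ 1 / 4 →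
  ∀ W : ℕ, 1 ≤ W → ∀ᶠ N : ℝ in atTop,
    ∀ (K X1 X2 : ℕ) (φ ψ : ℕ → ℝ), Setup (4 / 5) N K X1 X2 → Coef (N ^ e1) (N ^ (1 - eg)) φ →
      Coef (N ^ e1) (N ^ (1 - eg)) ψ →
      ∑ k ∈ Icc 1 K, |bil X1 X2 φ ψ (dd W k)| ≤ C * (eg / e1 ^ 2) * K * N / Real.log N

def S_II (θ : ℝ) : Prop := ∀ e1 : ℝ, 0 < e1 → e1 ≤ 1 / 10 → ∀ ε : ℝ, 0 < ε →
  ∃ R1 : ℕ, ∀ R : ℕ, R1 ≤ R → ∀ᶠ N : ℝ in atTop,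
    ∀ (K X1 X2 : ℕ) (φ ψ : ℕ → ℝ), Setup θ N K X1 X2 → Coef (N ^ e1) (N ^ (2 / 3 : ℝ)) φ →
      Coef (N ^ e1) (N ^ (2 / 3 : ℝ)) ψ →
      ∑ k ∈ Icc 1 K, |bil X1 X2 φ ψ (dd R.factorial k)| ≤ ε * K * N / Real.log N

/-! ### Type I sums -/

def S_TI : Prop := ∀ (z y L δ Er l : ℝ) (K : ℕ) (J Dd : Finset ℕ) (t κ : ℕ → ℕ → ℝ) (c : ℕ → ℝ)
  (lam Del : Finset ℕ → ℝ), FLData z L δ lam Del → 0 ≤ y → 0 ≤ l → 0 ≤ Er → (∀ k m, 0 ≤ t k m) →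
  (∀ d ∈ Dd, 1 ≤ d ∧ (d : ℝ) ≤ y ∧ Rough z d ∧ |c d| ≤ 1) →
  (∀ q : ℕ, 1 ≤ q →
    ∑ k ∈ Icc 1 K, |∑ m ∈ J.filter (q ∣ ·), t k m - l * κ k q / q| ≤ Er * (K + q)) →
  (∀ q : ℕ, 1 ≤ q → |∑ k ∈ Icc 1 K, κ k q - K| ≤ q) →
  (∀ k q, 0 ≤ κ k q) → (∀ k p, p.Prime → κ k p ≤ p) →
  (∀ k, ∀ d ∈ Dd, ∀ E ⊆ PL z, κ k (d * ∏ p ∈ E, p) = κ k d * ∏ p ∈ E, κ k p) →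
  ∑ k ∈ Icc 1 K, |∑ m ∈ J.filter (Rough z), (∑ d ∈ Dd.filter (· ∣ m), c d) * t k m -
      l * (∑ d ∈ Dd, c d * κ k d / d) * ∏ p ∈ PL z, (1 - κ k p / p)| ≤
    (Er * (K + y) + l) * L * y + l * K * δ * ∑ d ∈ Dd, 1 / (d : ℝ)

def S_KER : Prop := ∃ C : ℝ, 0 < C ∧ ∀ (N : ℝ) (K X1 X2 W q : ℕ), 0 < N → N ^ 2 ≤ X1 → X1 ≤ X2 →
  1 ≤ q → 1 ≤ W →
  ∑ k ∈ Icc 1 K, |∑ m ∈ (Ioc X1 X2).filter (q ∣ ·), rr k m -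
      (√(X2 : ℝ) - √(X1 : ℝ)) * rho k q / q| ≤ C * (1 + K / N) * (K + q) ∧
  ∀ k : ℕ, |∑ m ∈ (Ioc X1 X2).filter (q ∣ ·), md W k m -
      (√(X2 : ℝ) - √(X1 : ℝ)) * rho k (Nat.gcd q W) / q| ≤ C * W ^ 2

def S_I : Prop := ∀ ε : ℝ, 0 < ε → ∃ e0 : ℝ, 0 < e0 ∧ ∀ e1 : ℝ, 0 < e1 → e1 ≤ e0 →
  ∀ R : ℕ, 2 ≤ R → ∀ᶠ N : ℝ in atTop, ∀ (K X1 X2 : ℕ) (c : ℕ → ℝ), Setup (4 / 5) N K X1 X2 →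
    (∀ d, |c d| ≤ 1) →
    ∑ k ∈ Icc 1 K, |tyI N (N ^ e1) X1 X2 c (dd R.factorial k) -
      (√(X2 : ℝ) - √(X1 : ℝ)) * (∑ d ∈ Dy N (N ^ e1), c d / d) * Vz (N ^ e1) * sing R k *
        (TT k R (N ^ e1) - 1)| ≤ ε * K * N / Real.log N

def S_VAU : Prop := ∀ (N z : ℝ) (X1 X2 : ℕ), 2 ≤ N → N ^ 2 ≤ X1 → (X2 : ℝ) ≤ 6 / 5 * N ^ 2 →
  ∃ c φ1 ψ1 φ2 ψ2 lf : ℕ → ℝ, (∀ d, |c d| ≤ 1) ∧ Coef z (N ^ (2 / 3 : ℝ)) φ1 ∧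
    Coef z (N ^ (2 / 3 : ℝ)) ψ1 ∧ Coef z (N ^ (2 / 3 : ℝ)) φ2 ∧ Coef z (N ^ (2 / 3 : ℝ)) ψ2 ∧
    (∀ m, |lf m| ≤ m.divisors.card) ∧ ∀ f : ℕ → ℝ,
      ∑ m ∈ (Ioc X1 X2).filter (Rough z), vonMangoldt m * f m =
        3 * Real.log N * (tyI N z X1 X2 c f + bil X1 X2 φ1 ψ1 f + bil X1 X2 φ2 ψ2 f) +
          ∑ m ∈ (Ioc X1 X2).filter (Rough z), lf m * f m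

/-! ### Assembly -/

def S_CNT : Prop := ∃ C : ℝ, 0 < C ∧
  (∀ (z N : ℝ) (K W X1 X2 : ℕ), 2 ≤ z → z ^ 5 ≤ K → z ^ 5 ≤ N ^ 2 → 1 ≤ W → W ≤ K → 1 ≤ N →
    N ^ 2 ≤ X1 → (X2 : ℝ) ≤ 6 / 5 * N ^ 2 →
    ∑ k ∈ Icc 1 K, ∑ m ∈ (Ioc X1 X2).filter (Rough z), |dd W k m| ≤ C * K * N / Real.log z) ∧
  (∀ (N : ℝ) (K X1 X2 : ℕ), 2 ≤ N → (X2 : ℝ) ≤ 6 / 5 * N ^ 2 →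
    ∑ k ∈ Icc 1 K, ∑ m ∈ (Ioc X1 X2).filter (fun m => ¬ m.Prime), vonMangoldt m * rr k m ≤
      C * (√(K : ℝ) + 1) * N * Real.log N) ∧
  ∀ K x0 : ℕ, 32 ≤ K →
    ∑ k ∈ Icc 1 K, (((range x0).filter fun x => (x ^ 2 + x + k).Prime).card : ℝ) ≤
      C * x0 * K / Real.log K

def S_PNTM : Prop := ∀ R : ℕ, ∀ ε : ℝ, 0 < ε → ∀ᶠ N : ℝ in atTop, ∀ (z : ℝ) (k X1 X2 : ℕ),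
  z ≤ N → N ^ 2 ≤ X1 → X1 ≤ X2 → (X2 : ℝ) ≤ 6 / 5 * N ^ 2 →
  |∑ m ∈ (Ioc X1 X2).filter (Rough z), vonMangoldt m * md R.factorial k m -
    (√(X2 : ℝ) - √(X1 : ℝ)) * sing R k| ≤ ε * N

open Classical in
def S_CORE (θ : ℝ) : Prop := ∀ ε : ℝ, 0 < ε → ∃ R1 : ℕ, ∀ R : ℕ, R1 ≤ R → ∀ᶠ N : ℝ in atTop,
  ∀ K X1 X2 : ℕ, Setup θ N K X1 X2 →
    (((Icc 1 K).filter fun k => ε * N * (1 + sing R k) <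
      |Th k X1 X2 - (√(X2 : ℝ) - √(X1 : ℝ)) * sing R k|).card : ℝ) ≤ ε * K

open Classical in
def S_PIECES (θ : ℝ) : Prop := ∀ ε : ℝ, 0 < ε → ∃ R1 : ℕ, ∀ R : ℕ, R1 ≤ R → ∀ᶠ n : ℕ in atTop,
  ∀ K : ℕ, (n : ℝ) ^ θ ≤ K → (K : ℝ) ≤ (n : ℝ) ^ (11 / 10 : ℝ) →
    (((Icc 1 K).filter fun k => ε * (1 + sing R k) * (n / Real.log n) <
      |(PC k n : ℝ) - sing R k / 2 * (n / Real.log n)|).card : ℝ) ≤ ε * K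

def S_LA : Prop := ∀ ε : ℝ, 0 < ε → ∀ᶠ n : ℕ in atTop, ∀ k : ℕ, 3 ≤ k → k ≤ n ^ 2 →
  |2 * (∫ x in (0 : ℝ)..n, 1 / Real.log (x ^ 2 + x + k)) - n / Real.log n| ≤ ε * (n / Real.log n)

def S_FINAL (θ : ℝ) : Prop := ∀ ε : ℝ, 0 < ε → ∃ n₀ : ℕ, ∀ n K : ℕ, n₀ ≤ n → (n : ℝ) ^ θ ≤ K →
  (K : ℝ) ≤ (n : ℝ) ^ (11 / 10 : ℝ) →
  (Set.ncard {A : ℕ | 3 ≤ A ∧ A ≤ K ∧ Odd A ∧ ¬ ∃ C : ℝ, 0 < C ∧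
    Tendsto (fun y : ℕ => ∏ p ∈ (Finset.Icc 3 y).filter Nat.Prime,
      (1 - (jacobiSym (1 - 4 * (A : ℤ)) p : ℝ) / ((p : ℝ) - 1))) atTop (𝓝 C) ∧
    |(((Finset.range (n + 1)).filter fun x => (x ^ 2 + x + A).Prime).card : ℝ) -
        C * (2 * ∫ x in (0 : ℝ)..n, 1 / Real.log (x ^ 2 + x + A))| ≤
      ε * (C * (2 * ∫ x in (0 : ℝ)..n, 1 / Real.log (x ^ 2 + x + A)))} : ℝ) ≤ ε * K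

end Pool.Agent.P.MP_8be758_nt.Avg
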