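import Pool.Agent.P.MP_8be758_nt.Avg.Basic

/-! Poisson summation in the modulus and the sum over the nonzero frequencies. -/

namespace Pool.Agent.P.MP_8be758_nt.Avg

open Finset Real Filter Topology
open Pool.Agent.P.MP_e86632_nt (ee)

/-- twisted Gaussian sum -/
noncomputable def osc2_P (r c t : ℝ) : ℂ := ∑' b : ℤ, ee (t * b) * (gs (r * (b - c)) : ℂ)

theorem osc2_congr {f g : ℤ → ℂ} {S : ℂ} (hf : HasSum f S) (h : ∀ m, g m = f m) : HasSum g S :=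
  (funext h : g = f) ▸ hf

theorem osc2_summable (hGS1 : S_GS1) {r : ℝ} (hr : 0 < r) (c : ℝ) (f : ℤ → ℝ) :
    Summable fun b : ℤ => ee (f b) * (gs (r * (b - c)) : ℂ) := by
  refine Summable.of_norm_bounded (hGS1 r 0 c hr).1 fun b => ?_
  rw [norm_mul, Pool.Agent.P.MP_e86632_nt.norm_ee, one_mul, Complex.norm_real,
    Real.norm_of_nonneg (gs_pos _).le]

theorem osc2_dual (hGS1 : S_GS1) {r : ℝ} (hr : 0 < r) (c t : ℝ) :
    HasSum (fun m : ℤ => ((1 / r * gs ((m - t) / r) : ℝ) : ℂ) * ee (-((m - t) * c)))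
      (osc2_P r c t) := by
  have h1 := osc2_summable hGS1 (one_div_pos.2 hr) t fun m => (t - m) * c
  have h2 : Summable fun m : ℤ => (gs ((m - t) / r) : ℂ) * ee ((t - m) * c) := by
    refine h1.congr fun m => ?_
    rw [mul_comm, one_div_mul_eq_div]
  have h3 := h2.hasSum.mul_left ((1 / r : ℝ) : ℂ)
  rw [← (hGS1 r t c hr).2] at h3
  refine osc2_congr h3 fun m => ?_
  rw [Complex.ofReal_mul, mul_assoc]
  congr 3
  ring

theorem osc2_nu (hGS1 : S_GS1) {r : ℝ} (hr : 0 < r) (c : ℝ) {ν : ℤ → ℝ} {nb : ℝ} {ι : Type}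
    {s : Finset ι} {d lam : ι → ℝ}
    (h : ∀ b : ℤ, (ν b : ℂ) = nb + ∑ i ∈ s, (d i : ℂ) * ee (lam i * b)) :
    ((∑' b : ℤ, ν b * gs (r * (b - c)) : ℝ) : ℂ) =
      nb * osc2_P r c 0 + ∑ i ∈ s, d i * osc2_P r c (lam i) := by
  have h0 : ∀ t : ℝ, HasSum (fun b : ℤ => ee (t * b) * (gs (r * (b - c)) : ℂ)) (osc2_P r c t) :=
    fun t => (osc2_summable hGS1 hr c fun b => t * b).hasSum
  have h1 := ((h0 0).mul_left (nb : ℂ)).add
    (hasSum_sum (s := s) fun i _ => (h0 (lam i)).mul_left (d i : ℂ))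
  rw [Complex.ofReal_tsum, ← h1.tsum_eq]
  refine tsum_congr fun b => ?_
  rw [Complex.ofReal_mul, h b, add_mul, sum_mul, zero_mul, Pool.Agent.P.MP_e86632_nt.ee_zero,
    one_mul]
  simp only [mul_assoc]

/-- the total contribution of the frequencies `m - t` -/
noncomputable def osc2_T (α : ℕ → ℝ) (I : Finset ℕ) (B K : ℝ) (n0 : ℕ) (t : ℝ) : ℂ :=
  ∑ a1 ∈ I, ∑ a2 ∈ I, ∑ μ ∈ (Icc 1 n0).filter (fun μ => Cg μ a1 a2),
    ((α a1 * α a2 * psi B (sg a1 a2 ^ 2 / (μ : ℝ) ^ 2) : ℝ) : ℂ) *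
      osc2_P (√((a1 : ℝ) * a2) / K) (sg a1 a2 ^ 2 / (μ : ℝ) ^ 2) t

theorem osc2_hasSum (hGS1 : S_GS1) (α : ℕ → ℝ) {I : Finset ℕ} (B : ℝ) {K : ℝ} (n0 : ℕ)
    (hK : 0 < K) (hI : ∀ a ∈ I, (0 : ℝ) < a) (t : ℝ) :
    HasSum (fun m : ℤ => osc α I B K n0 (m - t)) (osc2_T α I B K n0 t) := by
  unfold osc osc2_T
  refine hasSum_sum fun a1 h1 => hasSum_sum fun a2 h2 => hasSum_sum fun μ _ => ?_
  have hr : 0 < √((a1 : ℝ) * a2) / K := div_pos (Real.sqrt_pos.2 (mul_pos (hI _ h1) (hI _ h2))) hK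
  have h3 := (osc2_dual hGS1 hr (sg a1 a2 ^ 2 / (μ : ℝ) ^ 2) t).mul_left
    ((α a1 * α a2 * psi B (sg a1 a2 ^ 2 / (μ : ℝ) ^ 2) : ℝ) : ℂ)
  refine osc2_congr h3 fun m => ?_
  rw [one_div_div, div_div_eq_mul_div]
  simp only [Complex.ofReal_mul, mul_assoc]

theorem osc2_off (hGS1 : S_GS1) (α : ℕ → ℝ) {I : Finset ℕ} (B : ℝ) {K : ℝ} (n0 : ℕ)
    (hK : 0 < K) (hI : ∀ a ∈ I, (0 : ℝ) < a) {ν : ℤ → ℝ} {nb : ℝ} {ι : Type}
    {s : Finset ι} {d lam : ι → ℝ}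
    (h : ∀ b : ℤ, (ν b : ℂ) = nb + ∑ i ∈ s, (d i : ℂ) * ee (lam i * b)) :
    ((offS α I n0 (modT ν B K) : ℝ) : ℂ) =
      nb * osc2_T α I B K n0 0 + ∑ i ∈ s, d i * osc2_T α I B K n0 (lam i) := by
  unfold offS osc2_T modT
  simp only [mul_sum]
  rw [sum_comm (s := s), ← sum_add_distrib, Complex.ofReal_sum]
  refine sum_congr rfl fun a1 h1 => ?_
  rw [sum_comm (s := s), ← sum_add_distrib, Complex.ofReal_sum]
  refine sum_congr rfl fun a2 h2 => ?_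
  rw [sum_comm (s := s), ← sum_add_distrib, Complex.ofReal_sum]
  refine sum_congr rfl fun μ _ => ?_
  have hr : 0 < √((a1 : ℝ) * a2) / K := div_pos (Real.sqrt_pos.2 (mul_pos (hI _ h1) (hI _ h2))) hK
  rw [← mul_assoc, Complex.ofReal_mul, osc2_nu hGS1 hr _ h, mul_add, mul_sum]
  congr 1
  · ring
  · exact sum_congr rfl fun i _ => by ring

theorem osc2_zero (α : ℕ → ℝ) (I : Finset ℕ) (B K : ℝ) (n0 : ℕ) :
    osc α I B K n0 0 = ((K * mainS α I B n0 : ℝ) : ℂ) := by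
  unfold osc mainS offS
  simp only [mul_sum, Complex.ofReal_sum]
  refine sum_congr rfl fun a1 _ => sum_congr rfl fun a2 _ => sum_congr rfl fun μ _ => ?_
  rw [zero_mul, zero_mul, zero_div, gs_zero, neg_zero, Pool.Agent.P.MP_e86632_nt.ee_zero, mul_one,
    Real.sqrt_mul (Nat.cast_nonneg a1)]
  congr 1
  ring

theorem osc2_norm_le {f : ℤ → ℂ} {S : ℂ} {M : ℝ} (hf : HasSum f S)
    (h : ∀ s : Finset ℤ, ∑ m ∈ s, ‖f m‖ ≤ M) : ‖S‖ ≤ M :=
  le_of_tendsto' hf.norm fun s => (norm_sum_le _ _).trans (h s)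

theorem osc2_freq (hGS1 : S_GS1) (hGS2 : S_GS2) (hGS3 : S_GS3) (hOSC1 : S_OSC1) :
    ∃ C : ℝ, 0 < C ∧ ∀ (A B K δ t : ℝ) (n0 : ℕ) (I : Finset ℕ) (α : ℕ → ℝ) (s : Finset ℤ),
      1 ≤ B → B ≤ A → 0 < K → (n0 : ℝ) ≤ 3 * A → Rng A I → (∀ a, |α a| ≤ 1) →
      0 < δ → δ ≤ 1 → (∀ m ∈ s, δ ≤ |m - t|) →
      ∑ m ∈ s, ‖osc α I B K n0 (m - t)‖ ≤ C * K * (1 + Real.log A) *
        ((1 + A / K) * (A / B) / δ + (1 + A / K) * √(1 + A / K) * √A +
          A / √B * (1 / √δ + √(1 + A / K))) := by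
  obtain ⟨C1, hC1, h1⟩ := hOSC1
  obtain ⟨C3, hC3, h3, h4⟩ := hGS3
  refine ⟨C1 * (24 + 6 * C3), by positivity, ?_⟩
  intro A B K δ t n0 I α s hB hBA hK hn hI hα hδ hδ1 hs
  have hA : 1 ≤ A := hB.trans hBA
  have hA0 : 0 < A := by linarith
  have hB0 : 0 < B := by linarith
  have hlog : 0 ≤ Real.log A := Real.log_nonneg hA
  obtain ⟨L, hL⟩ : ∃ L, L = 1 + A / K := ⟨_, rfl⟩
  rw [← hL]
  have hL1 : 1 ≤ L := by rw [hL]; exact le_add_of_nonneg_right (by positivity)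
  have hL0 : 0 < L := by linarith
  obtain ⟨κ, hκ⟩ : ∃ κ, κ = 1 / (2 * L) := ⟨_, rfl⟩
  have hκ0 : 0 < κ := by rw [hκ]; positivity
  have hκi : 1 / κ = 2 * L := by rw [hκ, one_div_one_div]
  have hκ1 : κ ≤ 1 := by rw [hκ, div_le_one (by positivity)]; linarith
  have hκK : κ ≤ K / (2 * A) := by
    rw [hκ, div_le_div_iff₀ (by positivity) (by positivity), hL]
    have : K * (A / K) = A := by field_simp
    nlinarith
  have hsq : 1 / √κ ≤ 2 * √L := by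
    have e1 : 1 / √κ = √(2 * L) := by rw [← hκi, Real.sqrt_div zero_le_one, Real.sqrt_one]
    rw [e1]
    refine Real.sqrt_le_iff.2 ⟨by positivity, ?_⟩
    rw [mul_pow, Real.sq_sqrt hL0.le]
    linarith
  have g1 : ∑ m ∈ s, gs (κ * (m - t)) ≤ 12 * L := by
    have e1 := (hGS1 κ 0 t hκ0).1.sum_le_tsum s fun m _ => (gs_pos _).le
    have e2 := hGS2 κ t hκ0
    rw [hκi] at e2
    linarith
  have g2 : ∑ m ∈ s, gs (κ * (m - t)) * √|m - t| ≤ 6 * C3 * (L * √L) := by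
    refine (h3 κ t s hκ0).trans ?_
    rw [hκi, div_eq_mul_one_div]
    calc C3 * (1 + 2 * L) * (1 / √κ) ≤ C3 * (3 * L) * (2 * √L) := by
          gcongr
          linarith
      _ = _ := by ring
  have g3 : ∑ m ∈ s, gs (κ * (m - t)) / √|m - t| ≤ 2 * C3 * (1 / √δ + √L) := by
    refine (h4 κ δ t s hκ0 hκ1 hδ hδ1 hs).trans ?_
    have : 0 ≤ 1 / √δ := by positivity
    nlinarith
  have key : ∀ m ∈ s, ‖osc α I B K n0 (m - t)‖ ≤ C1 * K * (1 + Real.log A) *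
      (A / B * (2 / δ) * gs (κ * (m - t)) + √A * (gs (κ * (m - t)) * √|m - t|) +
        A / √B * (gs (κ * (m - t)) / √|m - t|)) := by
    intro m hm
    have e0 : 0 < |(m : ℝ) - t| := hδ.trans_le (hs m hm)
    refine (h1 A B K (m - t) n0 I α hB hBA hK hn hI hα (abs_pos.1 e0)).trans ?_
    have e1 : gs ((m - t) * K / (2 * A)) ≤ gs (κ * (m - t)) := by
      refine gs_anti ?_
      rw [mul_div_assoc, mul_comm κ, abs_mul, abs_mul, abs_of_pos hκ0,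
        abs_of_pos (show 0 < K / (2 * A) by positivity)]
      gcongr
    have e2 : 1 + 1 / |(m : ℝ) - t| ≤ 2 / δ := by
      have e3 : 1 / |(m : ℝ) - t| ≤ 1 / δ := one_div_le_one_div_of_le hδ (hs m hm)
      have e4 : 1 ≤ 1 / δ := by rw [le_div_iff₀ hδ]; linarith
      have e5 : 2 / δ = 1 / δ + 1 / δ := by ring
      linarith
    calc _ ≤ C1 * K * (1 + Real.log A) * gs (κ * (m - t)) *
          (A / B * (2 / δ) + √|m - t| * √A + A / √B / √|m - t|) := by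
          have := gs_pos (κ * (m - t))
          gcongr
      _ = _ := by ring
  refine (sum_le_sum key).trans ?_
  rw [← mul_sum, sum_add_distrib, sum_add_distrib, ← mul_sum, ← mul_sum, ← mul_sum]
  have p1 : 0 ≤ L * (A / B) / δ := by positivity
  have p2 : 0 ≤ L * √L * √A := by positivity
  have p3 : 0 ≤ A / √B * (1 / √δ + √L) := by positivity
  calc _ ≤ C1 * K * (1 + Real.log A) * (A / B * (2 / δ) * (12 * L) + √A * (6 * C3 * (L * √L)) +
        A / √B * (2 * C3 * (1 / √δ + √L))) := by gcongr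
    _ = C1 * K * (1 + Real.log A) * (24 * (L * (A / B) / δ) + 6 * C3 * (L * √L * √A) +
        2 * C3 * (A / √B * (1 / √δ + √L))) := by ring
    _ ≤ C1 * K * (1 + Real.log A) * ((24 + 6 * C3) * (L * (A / B) / δ) +
        (24 + 6 * C3) * (L * √L * √A) + (24 + 6 * C3) * (A / √B * (1 / √δ + √L))) := by
        gcongr <;> linarith
    _ = _ := by ring

theorem t_OSC2 (hGS1 : S_GS1) (hGS2 : S_GS2) (hGS3 : S_GS3) (hOSC1 : S_OSC1) : S_OSC2 := by
  obtain ⟨C, hC, h1⟩ := osc2_freq hGS1 hGS2 hGS3 hOSC1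
  refine ⟨C, hC, ?_⟩
  intro A B K nb D δ n0 I α ν hB hBA hK hn hI hα hδ hδ1 hν
  obtain ⟨-, -, hnb, -, ι, s, d, lam, h2, h3, h4⟩ := hν
  have hI0 : ∀ a ∈ I, (0 : ℝ) < a := fun a ha => by linarith [(hI a ha).1]
  obtain ⟨M, hM⟩ : ∃ M, M = C * K * (1 + Real.log A) *
      ((1 + A / K) * (A / B) / δ + (1 + A / K) * √(1 + A / K) * √A +
        A / √B * (1 / √δ + √(1 + A / K))) := ⟨_, rfl⟩
  have h5 : ∀ (t : ℝ) (u : Finset ℤ), (∀ m ∈ u, δ ≤ |m - t|) →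
      ∑ m ∈ u, ‖osc α I B K n0 (m - t)‖ ≤ M := fun t u hu =>
    hM ▸ h1 A B K δ t n0 I α u hB hBA hK hn hI hα hδ hδ1 hu
  have hM0 : 0 ≤ M := by simpa using h5 0 ∅ (by simp)
  have h6 : ∀ i ∈ s, ‖osc2_T α I B K n0 (lam i)‖ ≤ M := fun i hi =>
    osc2_norm_le (osc2_hasSum hGS1 α B n0 hK hI0 (lam i)) fun u => h5 _ u fun m _ => h4 i hi m
  have h7 : ‖osc2_T α I B K n0 0 - ((K * mainS α I B n0 : ℝ) : ℂ)‖ ≤ M := by
    have e1 := hasSum_ite_sub_hasSum (osc2_hasSum hGS1 α B n0 hK hI0 0) 0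
    rw [Int.cast_zero, sub_zero, osc2_zero] at e1
    refine osc2_norm_le e1 fun u => le_trans (le_of_eq ?_) (h5 0 (u.erase 0) fun m hm => ?_)
    · rw [← filter_ne', sum_filter]
      refine sum_congr rfl fun m _ => ?_
      by_cases hm : m = 0 <;> simp [hm]
    · rw [sub_zero]
      refine hδ1.trans ?_
      exact_mod_cast Int.one_le_abs (ne_of_mem_erase hm)
  have h8 : ((offS α I n0 (modT ν B K) - nb * K * mainS α I B n0 : ℝ) : ℂ) =
      nb * (osc2_T α I B K n0 0 - ((K * mainS α I B n0 : ℝ) : ℂ)) +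
        ∑ i ∈ s, d i * osc2_T α I B K n0 (lam i) := by
    rw [Complex.ofReal_sub, osc2_off hGS1 α B n0 hK hI0 h2]
    push_cast
    ring
  rw [← Real.norm_eq_abs, ← Complex.norm_real, h8]
  calc _ ≤ nb * M + ∑ i ∈ s, |d i| * M := by
        refine (norm_add_le _ _).trans (add_le_add ?_ ((norm_sum_le _ _).trans ?_))
        · rw [norm_mul, Complex.norm_real, Real.norm_of_nonneg hnb]
          gcongr
        · refine sum_le_sum fun i hi => ?_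
          rw [norm_mul, Complex.norm_real, Real.norm_eq_abs]
          gcongr
          exact h6 i hi
    _ = (nb + ∑ i ∈ s, |d i|) * M := by rw [add_mul, sum_mul]
    _ ≤ D * M := by gcongr
    _ = _ := by rw [hM]; ring

end Pool.Agent.P.MP_8be758_nt.Avg
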